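import Mathlib

/-! A congruence of Atkin and Swinnerton-Dyer type. -/

set_option autoImplicit false

open Polynomial

namespace Pool.Agent.H.MP_7425ae_nt

variable {R : Type} [CommRing R]

theorem asd_unit {p : ℕ} [Fact p.Prime] (h3 : (p : R) ^ 3 = 0) (k : ℕ) (hk : ¬ p ∣ k) :
    IsUnit (k : R) := by
  have hcop : Nat.Coprime k (p ^ 3) := by
    apply Nat.Coprime.pow_right
    exact ((Fact.out : p.Prime).coprime_iff_not_dvd.mpr hk).symm
  obtain ⟨a, b, hab⟩ := Nat.isCoprime_iff_coprime.mpr hcop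
  refine IsUnit.of_mul_eq_one (a : R) ?_
  have h := congrArg (Int.cast : ℤ → R) hab
  push_cast at h
  linear_combination h - (b : R) * h3

theorem asd_pow_eq {p : ℕ} (Y Z : R[X]) (hZ : Z = X ^ p + C (p : R) * Y) (n : ℕ) :
    ∃ T : R[X], Z ^ n = X ^ (p * n) + C (p : R) * T := by
  obtain ⟨T, hT⟩ := sub_dvd_pow_sub_pow Z (X ^ p) n
  refine ⟨Y * T, ?_⟩
  have h1 : Z - X ^ p = C (p:R) * Y := by rw [hZ]; ring
  rw [h1] at hT
  rw [pow_mul]
  linear_combination hT

theorem asd_claimA {p : ℕ} [Fact p.Prime] (h3 : (p : R) ^ 3 = 0) (Y Z : R[X])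
    (hZ : Z = X ^ p + C (p : R) * Y) (i : ℕ) (hi : ¬ p ∣ i + 1) :
    (Z ^ i * derivative Z).coeff (p ^ 2 - 1) = 0 := by
  have hu := asd_unit h3 (i+1) hi
  have hpp : 0 < p := (Fact.out : p.Prime).pos
  have hp2 : p ^ 2 - 1 + 1 = p ^ 2 := Nat.sub_add_cancel (Nat.one_le_pow _ _ hpp)
  have h1 : C ((i+1 : ℕ) : R) * (Z ^ i * derivative Z) = derivative (Z ^ (i+1)) := by
    rw [derivative_pow]; simp; ring
  have h2 : (derivative (Z ^ (i+1))).coeff (p ^ 2 - 1) = 0 := by
    rw [coeff_derivative]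
    obtain ⟨T, hT⟩ := asd_pow_eq Y Z hZ (i+1)
    have hne : ¬ (p ^ 2 = p * (i+1)) := by
      intro h
      apply hi
      have : p = i + 1 := by
        apply Nat.eq_of_mul_eq_mul_left hpp
        rw [← h]; ring
      exact ⟨1, by omega⟩
    rw [hp2, hT, coeff_add, coeff_X_pow, coeff_C_mul, if_neg hne]
    have h4 : ((p ^ 2 - 1 : ℕ) : R) + 1 = (p : R) ^ 2 := by
      have := congrArg (Nat.cast : ℕ → R) hp2
      push_cast at this
      exact this
    rw [h4]
    linear_combination T.coeff (p ^ 2) * h3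
  rw [← h1, coeff_C_mul] at h2
  exact (hu.mul_right_eq_zero).mp h2

theorem asd_claimB {p : ℕ} [Fact p.Prime] (hp : 5 ≤ p) (h3 : (p : R) ^ 3 = 0) (Y Z : R[X])
    (hZ : Z = X ^ p + C (p : R) * Y) :
    (Z ^ (p - 1) * derivative Z).coeff (p ^ 2 - 1) = (p : R) := by
  have h2u : IsUnit (2 : R) := by
    have := asd_unit (R := R) h3 2 (by
      intro h
      have := Nat.le_of_dvd (by norm_num) h
      omega)
    exact_mod_cast this
  have hdZ : derivative Z = C (p : R) * (X ^ (p - 1) + derivative Y) := by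
    rw [hZ, derivative_add, derivative_X_pow, derivative_C_mul]
    ring
  obtain ⟨T, hT⟩ := Polynomial.powAddExpansion (X ^ p : R[X]) (C (p : R) * Y) (p - 1)
  have hZp : Z ^ (p - 1) = X ^ (p * (p - 1)) + C (p : R) * (C ((p - 1 : ℕ) : R)
      * (X ^ (p * (p - 2)) * Y)) + C ((p : R) ^ 2) * (T * Y ^ 2) := by
    rw [hZ, hT, ← pow_mul, ← pow_mul, show p - 1 - 1 = p - 2 by omega, C_pow, C_eq_natCast,
      C_eq_natCast]
    ring
  have hexp : Z ^ (p - 1) * derivative Z = C (p : R) * (X ^ (p * (p - 1)) * (X ^ (p - 1) + derivative Y))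
      + C ((p : R) ^ 2) * (C ((p - 1 : ℕ) : R) * (X ^ (p * (p - 2)) * (Y * X ^ (p - 1) + Y * derivative Y)))
      + C ((p : R) ^ 3) * (T * Y ^ 2 * (X ^ (p - 1) + derivative Y)) := by
    rw [hZp, hdZ, C_pow, C_pow]
    ring
  have hc1 : (X ^ (p * (p - 1)) * (X ^ (p - 1) + derivative Y)).coeff (p ^ 2 - 1)
      = 1 + Y.coeff p * p := by
    have e : p ^ 2 - 1 = (p - 1) + p * (p - 1) := by
      obtain ⟨k, rfl⟩ : ∃ k, p = k + 1 := ⟨p - 1, by omega⟩
      simp only [Nat.add_sub_cancel]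
      have : (k + 1) ^ 2 = k + (k + 1) * k + 1 := by ring
      omega
    rw [e, coeff_X_pow_mul, coeff_add, coeff_X_pow, if_pos rfl, coeff_derivative,
      show p - 1 + 1 = p by omega]
    have : ((p - 1 : ℕ) : R) + 1 = (p : R) := by
      have := congrArg (Nat.cast : ℕ → R) (show p - 1 + 1 = p by omega)
      push_cast at this
      exact this
    rw [this]
  have hc2 : (X ^ (p * (p - 2)) * (Y * X ^ (p - 1) + Y * derivative Y)).coeff (p ^ 2 - 1)
      = Y.coeff p + (p : R) * (Y ^ 2).coeff (2 * p) := by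
    have e : p ^ 2 - 1 = (2 * p - 1) + p * (p - 2) := by
      obtain ⟨k, rfl⟩ : ∃ k, p = k + 2 := ⟨p - 2, by omega⟩
      simp only [Nat.add_sub_cancel]
      have : (k + 2) ^ 2 = (2 * (k + 2)) + (k + 2) * k := by ring
      omega
    rw [e, coeff_X_pow_mul, coeff_add]
    have e2 : 2 * p - 1 = p + (p - 1) := by omega
    have h5 : (Y * X ^ (p - 1)).coeff (2 * p - 1) = Y.coeff p := by
      rw [e2, coeff_mul_X_pow]
    have h6 : (Y * derivative Y).coeff (2 * p - 1) = (p : R) * (Y ^ 2).coeff (2 * p) := by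
      have h7 : derivative (Y ^ 2) = C 2 * (Y * derivative Y) := by
        rw [derivative_pow]; simp; ring
      have h8 := congrArg (fun q => q.coeff (2 * p - 1)) h7
      simp only [coeff_derivative, coeff_C_mul] at h8
      rw [show 2 * p - 1 + 1 = 2 * p by omega] at h8
      have h9 : ((2 * p - 1 : ℕ) : R) + 1 = 2 * (p : R) := by
        have := congrArg (Nat.cast : ℕ → R) (show 2 * p - 1 + 1 = 2 * p by omega)
        push_cast at this
        exact this
      rw [h9] at h8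
      apply h2u.mul_left_cancel
      linear_combination -h8
    rw [h5, h6]
  have hpc : ((p - 1 : ℕ) : R) = (p : R) - 1 := by
    have := congrArg (Nat.cast : ℕ → R) (show p - 1 + 1 = p by omega)
    push_cast at this
    linear_combination this
  rw [hexp, coeff_add, coeff_add, coeff_C_mul, coeff_C_mul, coeff_C_mul, coeff_C_mul, hc1, hc2, hpc]
  linear_combination (Y.coeff p + ((p : R) - 1) * (Y ^ 2).coeff (2 * p) +
    (T * Y ^ 2 * (X ^ (p - 1) + derivative Y)).coeff (p ^ 2 - 1)) * h3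

/-- compare the coefficients of `X^{p^2-1}` in `Z' F1(Z)^m = π V F1(Z)^m = π V^p F^m`,
`m = (p-1)/2`. -/
theorem asd {p : ℕ} [Fact p.Prime] (hp : 5 ≤ p) (h3 : (p : R) ^ 3 = 0)
    (F F1 V V1 Y Z : R[X]) (σ ϖ : R) (hF1 : F1.natDegree ≤ 3)
    (hZ : Z = X ^ p + C (p : R) * Y) (hZ' : derivative Z = C ((p : R) * ϖ) * V)
    (hV : V = C σ * F ^ ((p - 1) / 2) + C (p : R) * V1) (hσ : σ ^ 2 = 1)
    (hFV : F * V ^ 2 = F1.comp Z) :
    (p : R) * (F1 ^ ((p - 1) / 2)).coeff (p - 1)
      = σ * ((p : R) * ϖ) * (F ^ ((p ^ 2 - 1) / 2)).coeff (p ^ 2 - 1) := by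
  have hodd : p % 2 = 1 := by
    rcases (Fact.out : p.Prime).eq_two_or_odd with h | h
    · omega
    · exact h
  obtain ⟨m, hm⟩ : ∃ m, p = 2 * m + 1 := ⟨p / 2, by omega⟩
  have hm2 : (p - 1) / 2 = m := by omega
  rw [hm2] at hV ⊢
  have hdeg : (F1 ^ m).natDegree < 2 * p - 1 := by
    have h1 : (F1 ^ m).natDegree ≤ m * F1.natDegree := natDegree_pow_le
    have h2 : m * F1.natDegree ≤ m * 3 := Nat.mul_le_mul_left _ hF1
    omega
  have hcomp : (F1.comp Z) ^ m = (F1 ^ m).comp Z := (pow_comp F1 Z m).symm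
  have hL : ((F1 ^ m).comp Z * derivative Z).coeff (p ^ 2 - 1)
      = (p : R) * (F1 ^ m).coeff (p - 1) := by
    have h1 : (F1 ^ m).comp Z = ∑ i ∈ Finset.range (2 * p - 1), C ((F1 ^ m).coeff i) * Z ^ i :=
      eval₂_eq_sum_range' C hdeg Z
    rw [h1, Finset.sum_mul, finsetSum_coeff, Finset.sum_eq_single (p - 1)]
    · rw [mul_assoc, coeff_C_mul, asd_claimB hp h3 Y Z hZ]
      ring
    · intro i hi hne
      rw [mul_assoc, coeff_C_mul, asd_claimA h3 Y Z hZ i, mul_zero]
      intro hd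
      rw [Finset.mem_range] at hi
      obtain ⟨c, hc⟩ := hd
      have hc1 : c = 1 := by
        have h5 : c < 2 := by
          by_contra h6
          push Not at h6
          have : p * 2 ≤ p * c := Nat.mul_le_mul_left _ h6
          omega
        have h7 : c ≠ 0 := by
          rintro rfl
          omega
        omega
      rw [hc1] at hc
      omega
    · intro h
      exfalso
      apply h
      rw [Finset.mem_range]
      omega
  have hVp : ∃ W : R[X], V ^ p = C (σ ^ p) * F ^ (m * p) + C ((p : R) ^ 2) * W := by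
    obtain ⟨r, hr⟩ := exists_add_pow_prime_eq (Fact.out : p.Prime) (C σ * F ^ m) (C (p : R) * V1)
    obtain ⟨k, hk⟩ : ∃ k, p = k + 2 := ⟨p - 2, by omega⟩
    refine ⟨(C (p : R)) ^ k * V1 ^ p + (C σ * F ^ m) * V1 * r, ?_⟩
    rw [hV, hr, mul_pow, mul_pow, ← pow_mul, ← C_pow]
    have h1 : (C (p : R)) ^ p = (C (p:R)) ^ k * (C (p : R)) ^ 2 := by
      rw [← pow_add, ← hk]
    rw [C_pow (a := (p : R)) (n := 2), ← C_eq_natCast]
    linear_combination (V1 ^ p) * h1
  have hσp : σ ^ p = σ := by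
    rw [hm, pow_add, pow_mul, hσ, one_pow, one_mul, pow_one]
  have hR : ((F1 ^ m).comp Z * derivative Z) = C (σ * ((p : R) * ϖ)) * F ^ ((p ^ 2 - 1) / 2) := by
    obtain ⟨W, hW⟩ := hVp
    rw [← hcomp, ← hFV, hZ']
    have he : (p ^ 2 - 1) / 2 = m + m * p := by
      have h1 : p ^ 2 = 2 * (m + m * p) + 1 := by rw [hm]; ring
      omega
    have h1 : (F * V ^ 2) ^ m * (C ((p : R) * ϖ) * V) = C ((p : R) * ϖ) * F ^ m * V ^ p := by
      have : V ^ p = V ^ (2 * m) * V := by
        conv_lhs => rw [hm]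
        rw [pow_succ]
      rw [this, mul_pow, ← pow_mul]
      ring
    rw [h1, hW, hσp, he, pow_add]
    have h0 : C ((p : R) * ϖ) * C ((p : R) ^ 2) = 0 := by
      rw [← C_mul]
      have : (p : R) * ϖ * (p : R) ^ 2 = 0 := by linear_combination ϖ * h3
      rw [this, C_0]
    rw [C_mul (a := σ)]
    linear_combination F ^ m * W * h0
  rw [← hL, hR, coeff_C_mul]

/-- the Hasse invariant: `ϖ σ [X^{p-1}] F(X+c)^m = 1` modulo `p` -/
theorem asd_hasse {p : ℕ} [Fact p.Prime] (hp : 5 ≤ p)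
    (hR : ∀ x : R, (p : R) * x = 0 → ∃ e : R, x = (p : R) * e)
    (F V V1 Y Z : R[X]) (σ ϖ c : R)
    (hZ : Z = X ^ p + C (p : R) * Y) (hZ' : derivative Z = C ((p : R) * ϖ) * V)
    (hV : V = C σ * F ^ ((p - 1) / 2) + C (p : R) * V1) :
    ∃ e : R, ϖ * σ * (((F.comp (X + C c)) ^ ((p - 1) / 2)).coeff (p - 1)) = 1 + (p : R) * e := by
  set m := (p - 1) / 2 with hm
  have hpp : p - 1 + 1 = p := by omega
  have hL : ((derivative Z).comp (X + C c)).coeff (p - 1)
      = (1 + (p : R) * (Y.comp (X + C c)).coeff p) * p := by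
    have h1 : derivative (Z.comp (X + C c)) = (derivative Z).comp (X + C c) := by
      rw [derivative_comp]
      simp
    rw [← h1, coeff_derivative, hpp]
    have h2 : Z.comp (X + C c) = (X + C c) ^ p + C (p : R) * Y.comp (X + C c) := by
      rw [hZ]
      simp
    rw [h2, coeff_add, coeff_C_mul, coeff_X_add_C_pow]
    have h3 : ((p - 1 : ℕ) : R) + 1 = (p : R) := by
      have := congrArg (Nat.cast : ℕ → R) hpp
      push_cast at this
      exact this
    rw [h3]
    simp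
  have hRt : ((derivative Z).comp (X + C c)).coeff (p - 1)
      = (p : R) * ϖ * (σ * ((F.comp (X + C c)) ^ m).coeff (p - 1)
        + (p : R) * (V1.comp (X + C c)).coeff (p - 1)) := by
    rw [hZ', hV]
    simp only [mul_comp, add_comp, C_comp, pow_comp, coeff_C_mul, coeff_add]
  rw [hL] at hRt
  obtain ⟨e, he⟩ := hR (1 + (p : R) * (Y.comp (X + C c)).coeff p -
    ϖ * (σ * ((F.comp (X + C c)) ^ m).coeff (p - 1)
        + (p : R) * (V1.comp (X + C c)).coeff (p - 1))) (by linear_combination hRt)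
  refine ⟨(Y.comp (X + C c)).coeff p - ϖ * (V1.comp (X + C c)).coeff (p - 1) - e, ?_⟩
  linear_combination -he

end Pool.Agent.H.MP_7425ae_nt
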