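import Mathlib

/-!
Basic definitions: the sequence module `H_x = R[X] / tau_x R[X]` of a hypergeometric
sequence `c_k` with `(k+1)^n c_{k+1} = a(k) c_k`, and its Frobenius operator `Phi`.
-/

set_option autoImplicit false

open Polynomial

namespace Pool.Agent.H.MP_7425ae_nt

section Defs

variable {R : Type} [CommRing R]

/-- the integer polynomial `a` over `R` -/
noncomputable def aR (a : ℤ[X]) (R : Type) [CommRing R] : R[X] := a.map (Int.castRingHom R)

/-- `tau_x(q) = x a(X) q(X+1) - X^n q(X)` -/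
noncomputable def tau (n : ℕ) (a : ℤ[X]) (x : R) (q : R[X]) : R[X] :=
  C x * aR a R * q.comp (X + 1) - X ^ n * q

/-- the polynomial `v_0 + v_1 X + ... + v_{n-1} X^{n-1}` -/
noncomputable def emb {n : ℕ} (v : Fin n → R) : R[X] := ∑ i : Fin n, C (v i) * X ^ (i : ℕ)

/-- Frobenius data over `R`: the polynomials `Theta`, `r_j`, the divided powers `rho^i / i!`
(coefficients of the polynomial `dp`) and the element `rho`. -/
structure Dat (R : Type) [CommRing R] where
  Th : R[X]
  r : ℕ → R[X]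
  dp : R[X]
  rho : R

/-- base change of Frobenius data -/
noncomputable def Dat.map {R S : Type} [CommRing R] [CommRing S] (D : Dat R) (f : R →+* S) :
    Dat S where
  Th := D.Th.map f
  r := fun j => (D.r j).map f
  dp := D.dp.map f
  rho := f D.rho

/-- `(1 + rho t)^X` as a polynomial in `X` -/
noncomputable def Ex (D : Dat R) (t : R) : R[X] :=
  D.dp.sum (fun i c => C (c * t ^ i) * descPochhammer R i)

/-- the operator `U_x` -/
noncomputable def Uop (p : ℕ) (D : Dat R) (x : R) (F : R[X]) : R[X] :=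
  D.Th * ∑ j ∈ Finset.range p, C (x ^ j) * F.comp (C (p : R) * X + C (j : R)) * D.r j

/-- the Frobenius operator `Phi_{x -> y}`, `x^p = (1 + rho t) y` -/
noncomputable def Phi (p : ℕ) (D : Dat R) (x t : R) (F : R[X]) : R[X] :=
  Ex D t * Uop p D x F

/-- the properties of the Frobenius data -/
structure Dat.OK (p n : ℕ) (a : ℤ[X]) (c : ℕ → ℤ) (D : Dat R) : Prop where
  nilp : IsNilpotent (p : R)
  r_zero : D.r 0 = 1
  r_succ : ∀ j : ℕ, j + 1 < p → D.r (j + 1) * (C (p : R) * X + C ((j : R) + 1)) ^ n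
    = D.r j * (aR a R).comp (C (p : R) * X + C (j : R))
  fe : D.Th * (aR a R).comp (C (p : R) * X + C ((p : R) - 1)) * D.r (p - 1)
    = C ((p : R) ^ n) * aR a R * D.Th.comp (X + 1)
  th_low : ∀ i : ℕ, i < n → D.Th.coeff i = if i = 0 then 1 else 0
  th_adm : ∀ i : ℕ, (p : R) ^ (min i 3) ∣ D.Th.coeff i
  r_adm : ∀ j : ℕ, j < p → ∀ i : ℕ, (p : R) ^ (min i 3) ∣ (D.r j).coeff i
  val : ∀ k j : ℕ, j < p →
    (D.Th * D.r j).eval (k : R) * ((c k : ℤ) : R) = ((c (p * k + j) : ℤ) : R)
  dp_zero : D.dp.coeff 0 = 1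
  dp_succ : ∀ i : ℕ, ((i : R) + 1) * D.dp.coeff (i + 1) = D.rho * D.dp.coeff i
  dp_dvd : ∀ i : ℕ, D.rho ^ (min i 3) ∣ D.dp.coeff i
  rho_dvd : D.rho ∣ (p : R)
  rho_nilp : IsNilpotent D.rho

/-- `F = emb v + tau q`: the class of `F` in `H_x` has coordinates `v`. -/
def IsRed (n : ℕ) (a : ℤ[X]) (x : R) (F : R[X]) (v : Fin n → R) (q : R[X]) : Prop :=
  F = emb v + tau n a x q

open Classical in
/-- the coordinates of the class of `F` in `H_x` -/
noncomputable def red (n : ℕ) (a : ℤ[X]) (x : R) (F : R[X]) : Fin n → R :=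
  if h : ∃ vq : (Fin n → R) × R[X], IsRed n a x F vq.1 vq.2 then h.choose.1 else 0

open Classical in
/-- the quotient `q` in `F = emb v + tau q` -/
noncomputable def quo (n : ℕ) (a : ℤ[X]) (x : R) (F : R[X]) : R[X] :=
  if h : ∃ vq : (Fin n → R) × R[X], IsRed n a x F vq.1 vq.2 then h.choose.2 else 0

/-- the matrix of `Phi_{x -> y} : H_x -> H_y` in the bases `1, X, ..., X^{n-1}` -/
noncomputable def Mmat (p n : ℕ) (a : ℤ[X]) (D : Dat R) (x y t : R) : Matrix (Fin n) (Fin n) R :=
  fun i j => red n a y (Phi p D x t (X ^ (j : ℕ))) i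

/-- the matrix of multiplication by `X` on `H_x` -/
noncomputable def Cmp (n : ℕ) (a : ℤ[X]) (x : R) : Matrix (Fin n) (Fin n) R :=
  fun i j => red n a x (X ^ ((j : ℕ) + 1)) i

/-- `d` is a derivation of the ring `R` -/
structure IsDer (d : R → R) : Prop where
  add : ∀ a b : R, d (a + b) = d a + d b
  mul : ∀ a b : R, d (a * b) = a * d b + d a * b

/-- a map acting on the coefficients of polynomials -/
noncomputable def pD (d : R → R) (P : R[X]) : R[X] :=
  ∑ i ∈ P.support, monomial i (d (P.coeff i))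

/-- the connection `nabla F = d F + w X F` -/
noncomputable def nab (d : R → R) (w : R) (F : R[X]) : R[X] := pD d F + C w * X * F

end Defs

/-- rank three: `a(X) = 24 (2X+1)(6X+1)(6X+5)` -/
noncomputable def a3 : ℤ[X] := C 24 * (C 2 * X + 1) * (C 6 * X + 1) * (C 6 * X + C 5)

/-- rank two: `a(X) = 12 (6X+1)(6X+5)` -/
noncomputable def a2 : ℤ[X] := C 12 * (C 6 * X + 1) * (C 6 * X + C 5)

/-- `c_k = C(6k,3k) C(3k,k) C(2k,k)` -/
def c3 (k : ℕ) : ℤ := (((6 * k).choose (3 * k) * (3 * k).choose k * (2 * k).choose k : ℕ) : ℤ)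

/-- `d_k = C(6k,3k) C(3k,k)` -/
def c2 (k : ℕ) : ℤ := (((6 * k).choose (3 * k) * (3 * k).choose k : ℕ) : ℤ)

/-- A system of Frobenius data over a ring `W` (usually `ℤ_[p]`): for every level `s` polynomials
over `W` which become Frobenius data in every ring in which `p^s = 0`. -/
structure Sys (W : Type) [CommRing W] where
  Th : ℕ → W[X]
  r : ℕ → ℕ → W[X]
  dp : ℕ → W[X]
  rho : W

/-- the data over `R` of level `s` -/
noncomputable def Sys.dat {W : Type} [CommRing W] (S : Sys W) (s : ℕ)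
    {R : Type} [CommRing R] (f : W →+* R) : Dat R where
  Th := (S.Th s).map f
  r := fun j => (S.r s j).map f
  dp := (S.dp s).map f
  rho := f S.rho

/-- a good system -/
structure Sys.Good {W : Type} [CommRing W] (S : Sys W) (p n : ℕ) (a : ℤ[X]) (c : ℕ → ℤ) :
    Prop where
  ok : ∀ (s : ℕ) (R : Type) [CommRing R] (f : W →+* R), (p : R) ^ s = 0 →
    (S.dat s f).OK p n a c
  indep : ∀ (s s' : ℕ) (R : Type) [CommRing R] (f : W →+* R), s ≤ s' → (p : R) ^ s = 0 →
    S.dat s' f = S.dat s f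
  tf : ∀ w : W, (p : W) * w = 0 → w = 0
  unit : ∀ m : ℕ, Nat.Coprime m p → IsUnit (m : W)

/-- base change of a system -/
noncomputable def Sys.map {W W' : Type} [CommRing W] [CommRing W'] (S : Sys W) (g : W →+* W') :
    Sys W' where
  Th := fun s => (S.Th s).map g
  r := fun s j => (S.r s j).map g
  dp := fun s => (S.dp s).map g
  rho := g S.rho

end Pool.Agent.H.MP_7425ae_nt
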