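import Mathlib

/-! The element `β` for inert primes. -/

set_option autoImplicit false

open Polynomial

namespace Pool.Agent.H.MP_7425ae_nt

/-- the Legendre symbol of `-19` -/
theorem betai_leg {p : ℕ} [Fact p.Prime] (hp : 5 ≤ p) :
    legendreSym p (-19) = jacobiSym (p : ℤ) 19 := by
  have hpr : p.Prime := Fact.out
  have hodd : Odd p := hpr.odd_of_ne_two (by omega)
  rw [jacobiSym.legendreSym.to_jacobiSym]
  have h1 : (-19 : ℤ) = (-1) * (19 : ℕ) := by norm_num
  rw [h1, jacobiSym.mul_left, jacobiSym.at_neg_one hodd]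
  have h2 : p % 4 = 1 ∨ p % 4 = 3 := by
    have := hodd
    rw [Nat.odd_iff] at this
    omega
  rcases h2 with h2 | h2
  · rw [ZMod.χ₄_nat_one_mod_four h2, one_mul]
    exact (jacobiSym.quadratic_reciprocity_one_mod_four h2 (by decide)).symm
  · rw [ZMod.χ₄_nat_three_mod_four h2]
    have := jacobiSym.quadratic_reciprocity_three_mod_four (a := p) (b := 19) h2 (by norm_num)
    rw [this]
    ring

/-- the quadratic extension -/
theorem betai_ext (A : Type) [CommRing A] :
    ∃ (R : Type) (_ : CommRing R) (f : A →+* R) (β : R),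
      Function.Injective f ∧ β ^ 2 = β - 5 := by
  refine ⟨QuadraticAlgebra A (-5) 1, inferInstance, algebraMap A _,
    (⟨0, 1⟩ : QuadraticAlgebra A (-5) 1), ?_, ?_⟩
  · intro x y hxy
    exact congrArg QuadraticAlgebra.re hxy
  · rw [pow_two]
    apply QuadraticAlgebra.ext
    · rw [QuadraticAlgebra.re_mul, QuadraticAlgebra.re_sub, QuadraticAlgebra.re_ofNat]
      ring
    · rw [QuadraticAlgebra.im_mul, QuadraticAlgebra.im_sub, QuadraticAlgebra.im_ofNat]
      ring

/-- the Frobenius computation in an arbitrary ring -/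
theorem betai_frob {p : ℕ} [Fact p.Prime] (hp : 5 ≤ p)
    (hj : jacobiSym (p : ℤ) 19 = -1) {R : Type} [CommRing R] {β : R} (hβ : β ^ 2 = β - 5)
    (u2 : IsUnit (2 : R)) : ∃ e : R, 1 - β = β ^ p + (p : R) * e := by
  have hpr : p.Prime := Fact.out
  have hodd : Odd p := hpr.odd_of_ne_two (by omega)
  have hle : legendreSym p (-19) = -1 := (betai_leg hp).trans hj
  obtain ⟨m, hm⟩ : (p : ℤ) ∣ (-19) ^ (p / 2) + 1 := by
    rw [← ZMod.intCast_zmod_eq_zero_iff_dvd]
    have h1 := legendreSym.eq_pow p (-19)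
    rw [hle] at h1
    push_cast at h1 ⊢
    rw [← h1]
    ring
  obtain ⟨m', hm'⟩ : (p : ℤ) ∣ 2 ^ p - 2 := by
    rw [← ZMod.intCast_zmod_eq_zero_iff_dvd]
    push_cast
    rw [ZMod.pow_card]
    ring
  have hmR : (-19 : R) ^ (p / 2) = -1 + (p : R) * (m : R) := by
    have := congrArg (Int.cast : ℤ → R) hm
    push_cast at this
    linear_combination this
  have hm'R : (2 : R) ^ p = 2 + (p : R) * (m' : R) := by
    have := congrArg (Int.cast : ℤ → R) hm'
    push_cast at this
    linear_combination this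
  have hq : (2 * β - 1) ^ 2 = -19 := by
    linear_combination 4 * hβ
  have hqp : (2 * β - 1) ^ p = (2 * β - 1) * (-1 + (p : R) * (m : R)) := by
    rw [← hmR, ← hq, ← pow_mul, ← pow_succ']
    congr 1
    rw [Nat.odd_iff] at hodd
    omega
  obtain ⟨r, hr⟩ := exists_add_pow_prime_eq hpr (2 * β) (-1 : R)
  have hr' : (2 * β - 1) ^ p = (2 * β) ^ p + (-1) ^ p + (p : R) * (2 * β) * (-1) * r := by
    rw [← hr]
    ring
  rw [hodd.neg_one_pow, mul_pow, hm'R, hqp] at hr'
  obtain ⟨v, hv⟩ := u2.exists_right_inv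
  refine ⟨-v * ((2 * β - 1) * (m : R) - (m' : R) * β ^ p + 2 * β * r), ?_⟩
  have key : 2 * β ^ p = 2 - 2 * β + (p : R) * ((2 * β - 1) * (m : R) - (m' : R) * β ^ p
      + 2 * β * r) := by
    linear_combination -hr'
  linear_combination (-v) * key - ((1 : R) - β - β ^ p) * hv

/-- inert case: in a free quadratic extension `R` of `ZMod (p^s)`, `β^p = 1 - β` modulo `p` -/
theorem exists_beta_inert {p : ℕ} [Fact p.Prime] (hp : 5 ≤ p)
    (hj : jacobiSym (p : ℤ) 19 = -1) (s : ℕ) :
    ∃ (R : Type) (_ : CommRing R) (f : ZMod (p ^ s) →+* R) (β : R),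
      Function.Injective f ∧ β ^ 2 = β - 5 ∧ IsUnit β ∧ IsUnit (1 - β) ∧
      ∃ e : R, 1 - β = β ^ p + (p : R) * e := by
  have hpr : p.Prime := Fact.out
  have hp5 : p ≠ 5 := by
    rintro rfl
    have : jacobiSym ((5 : ℕ) : ℤ) 19 = 1 := by decide +kernel
    rw [this] at hj
    norm_num at hj
  obtain ⟨R, _, f, β, hf, hβ⟩ := betai_ext (ZMod (p ^ s))
  have hun : ∀ n : ℕ, Nat.Coprime n p → IsUnit (n : R) := by
    intro n hn
    have h1 : IsUnit ((n : ℕ) : ZMod (p ^ s)) :=
      (ZMod.unitOfCoprime n (Nat.Coprime.pow_right s hn)).isUnit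
    have h2 := h1.map f
    rwa [map_natCast] at h2
  have h5 : IsUnit (β * (1 - β)) := by
    have h1 : β * (1 - β) = ((5 : ℕ) : R) := by
      push_cast
      linear_combination -hβ
    rw [h1]
    exact hun 5 ((Nat.coprime_primes (by norm_num) hpr).mpr (Ne.symm hp5))
  have h2 : IsUnit (2 : R) := by
    have := hun 2 ((Nat.coprime_primes (by norm_num) hpr).mpr (by omega))
    exact_mod_cast this
  exact ⟨R, inferInstance, f, β, hf, hβ, isUnit_of_mul_isUnit_left h5,
    isUnit_of_mul_isUnit_right h5, betai_frob hp hj hβ h2⟩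

end Pool.Agent.H.MP_7425ae_nt
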