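import Mathlib

/-! The element `β` for split primes. -/

set_option autoImplicit false

open Polynomial

namespace Pool.Agent.H.MP_7425ae_nt

theorem betas_ne {p : ℕ} [Fact p.Prime] (hj : jacobiSym (p : ℤ) 19 = 1) :
    ((-19 : ℤ) : ZMod p) ≠ 0 := by
  intro h
  have h1 : ((19 : ℕ) : ZMod p) = 0 := by
    have h2 : ((-19 : ℤ) : ZMod p) = -((19 : ℕ) : ZMod p) := by push_cast; ring
    rw [h2, neg_eq_zero] at h
    exact h
  rw [ZMod.natCast_eq_zero_iff] at h1
  have h3 : p = 19 := (Nat.prime_dvd_prime_iff_eq Fact.out (by norm_num)).mp h1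
  subst h3
  norm_num at hj

theorem betas_square {p : ℕ} [Fact p.Prime] (hp : 5 ≤ p) (hj : jacobiSym (p : ℤ) 19 = 1) :
    ∃ c : ZMod p, c * c = -19 := by
  have hodd : Odd p := (Fact.out : p.Prime).odd_of_ne_two (by omega)
  have h19 := betas_ne hj
  have hJ : jacobiSym (-19) p = 1 := by
    rw [jacobiSym.neg _ hodd]
    rcases Nat.odd_mod_four_iff.mp (Nat.odd_iff.mp hodd) with h1 | h3
    · have h2 := jacobiSym.quadratic_reciprocity_one_mod_four (b := 19) h1 (by decide)
      rw [hj] at h2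
      rw [ZMod.χ₄_nat_one_mod_four h1, one_mul]
      exact_mod_cast h2.symm
    · have h2 := jacobiSym.quadratic_reciprocity_three_mod_four (b := 19) h3 (by norm_num)
      rw [hj] at h2
      rw [ZMod.χ₄_nat_three_mod_four h3]
      have h4 : jacobiSym (19 : ℤ) p = -1 := by
        have h5 : jacobiSym ((19 : ℕ) : ℤ) p = -1 := by linarith
        exact_mod_cast h5
      rw [h4]
      norm_num
  rw [← jacobiSym.legendreSym.to_jacobiSym, legendreSym.eq_one_iff p h19] at hJ
  obtain ⟨c, hc⟩ := hJ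
  refine ⟨c, ?_⟩
  rw [← hc]
  push_cast
  ring

theorem betas_root {p : ℕ} [Fact p.Prime] (hp : 5 ≤ p) (hj : jacobiSym (p : ℤ) 19 = 1) :
    ∃ b : ZMod p, b ^ 2 - b + 5 = 0 ∧ b ≠ 0 ∧ 2 * b - 1 ≠ 0 := by
  obtain ⟨c, hc⟩ := betas_square hp hj
  have h2 : (2 : ZMod p) ≠ 0 := by
    intro h
    have h3 : ((2 : ℕ) : ZMod p) = 0 := by exact_mod_cast h
    rw [ZMod.natCast_eq_zero_iff] at h3
    have := Nat.le_of_dvd (by norm_num) h3
    omega
  have hne : ∀ b : ZMod p, b ^ 2 - b + 5 = 0 → 2 * b - 1 ≠ 0 := by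
    intro b hb h
    apply betas_ne hj
    have h3 : (2 * b - 1) ^ 2 = -19 := by linear_combination 4 * hb
    rw [h] at h3
    push_cast
    rw [← h3]
    ring
  have hroot : ((1 + c) / 2) ^ 2 - (1 + c) / 2 + 5 = 0 := by
    field_simp
    linear_combination hc
  by_cases h0 : (1 + c) / 2 = 0
  · refine ⟨1, ?_, one_ne_zero, ?_⟩
    · rw [h0] at hroot
      linear_combination hroot
    · norm_num
  · exact ⟨_, hroot, h0, hne _ hroot⟩

theorem betas_norm_lt {p : ℕ} [Fact p.Prime] (y : ℤ_[p]) :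
    PadicInt.toZMod y = 0 ↔ ‖y‖ < 1 := by
  rw [← RingHom.mem_ker, PadicInt.ker_toZMod, IsLocalRing.mem_maximalIdeal, PadicInt.mem_nonunits]

theorem betas_norm_eq {p : ℕ} [Fact p.Prime] (y : ℤ_[p]) (h : PadicInt.toZMod y ≠ 0) :
    ‖y‖ = 1 := by
  rw [Ne, betas_norm_lt, not_lt] at h
  exact le_antisymm (PadicInt.norm_le_one y) h

/-- split case: an element `β` of `ZMod (p^s)`, a unit also for `p = 5` -/
theorem exists_beta_split {p : ℕ} [Fact p.Prime] (hp : 5 ≤ p) (hj : jacobiSym (p : ℤ) 19 = 1)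
    (s : ℕ) : ∃ β : ZMod (p ^ s), β ^ 2 = β - 5 ∧ IsUnit β ∧
      ∃ e : ZMod (p ^ s), β = β ^ p + (p : ZMod (p ^ s)) * e := by
  obtain ⟨b, hb, hb0, hb1⟩ := betas_root hp hj
  set a : ℤ_[p] := (b.val : ℤ_[p]) with ha
  have hta : PadicInt.toZMod a = b := by
    rw [ha, map_natCast, ZMod.natCast_zmod_val]
  set F : ℤ_[p][X] := X ^ 2 - X + C 5 with hF
  have hev : ∀ y : ℤ_[p], F.aeval y = y ^ 2 - y + 5 := by
    intro y
    rw [hF]
    simp
  have hev' : ∀ y : ℤ_[p], F.derivative.aeval y = 2 * y - 1 := by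
    intro y
    have h1 : F.derivative = C 2 * X - 1 := by
      rw [hF, derivative_add, derivative_sub, derivative_X_sq, derivative_X, derivative_C, add_zero]
    rw [h1, map_sub, map_mul, aeval_X, aeval_C, map_one]
    rfl
  have hn1 : ‖F.aeval a‖ < 1 := by
    rw [← betas_norm_lt, hev]
    simp only [map_add, map_sub, map_pow, hta, map_ofNat]
    exact hb
  have hn2 : ‖F.derivative.aeval a‖ = 1 := by
    apply betas_norm_eq
    rw [hev']
    simp only [map_sub, map_mul, hta, map_ofNat, map_one]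
    exact hb1
  obtain ⟨z, hz1, hz2, -, -⟩ := hensels_lemma (F := F) (a := a) (by rw [hn2]; simpa using hn1)
  rw [hn2, ← betas_norm_lt, map_sub, sub_eq_zero, hta] at hz2
  rw [hev] at hz1
  have hu : IsUnit z := by
    rw [PadicInt.isUnit_iff]
    apply betas_norm_eq
    rw [hz2]
    exact hb0
  have hpow : (p : ℤ_[p]) ∣ z - z ^ p := by
    rw [← PadicInt.norm_lt_one_iff_dvd, ← betas_norm_lt, map_sub, map_pow, hz2, ZMod.pow_card,
      sub_self]
  obtain ⟨e, he⟩ := hpow
  refine ⟨PadicInt.toZModPow s z, ?_, hu.map _, PadicInt.toZModPow s e, ?_⟩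
  · have h1 : z ^ 2 = z - 5 := by linear_combination hz1
    have h2 := congrArg (PadicInt.toZModPow s) h1
    rw [map_pow, map_sub, map_ofNat] at h2
    exact h2
  · have h1 : z = z ^ p + (p : ℤ_[p]) * e := by linear_combination he
    have h2 := congrArg (PadicInt.toZModPow s) h1
    simpa using h2

end Pool.Agent.H.MP_7425ae_nt
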