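import Pool.Agent.H.MP_7425ae_nt.SymDef

/-! The matrix `Cm u` of the horizontal isomorphism `Sym^2 H_u -> H_x`, `x = u (1 - 432 u)`. -/

set_option autoImplicit false

open Polynomial

namespace Pool.Agent.H.MP_7425ae_nt

variable {R S : Type} [CommRing R] [CommRing S]

/-- `x = u (1 - 432 u)` -/
def xu (u : R) : R := u * (1 - 432 * u)

/-- the matrix of `Sym^2 H_u -> H_x` in the bases `e0^2, e0 e1, e1^2` and `1, X, X^2` -/
noncomputable def Cm (u : R) : Matrix (Fin 3) (Fin 3) R :=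
  !![1, 0, - (60 * u * Ring.inverse (1 - 432 * u));
     0, (1 - 864 * u) * Ring.inverse (1 - 432 * u) * Ring.inverse 2,
       - (432 * u * Ring.inverse (1 - 432 * u));
     0, 0, (1 - 864 * u) ^ 2 * Ring.inverse (1 - 432 * u) ^ 2 * Ring.inverse 2]

theorem xu_map (u : R) (f : R →+* S) : xu (f u) = f (xu u) := by
  unfold xu
  rw [map_mul, map_sub, map_mul, map_one, map_ofNat]

/-- `1 - 1728 x = (1 - 864 u)^2` -/
theorem delta_xu (u : R) : 1 - 1728 * xu u = (1 - 864 * u) ^ 2 := by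
  unfold xu
  ring

theorem symc_inv_map (f : R →+* S) {u : R} (hu : IsUnit u) :
    Ring.inverse (f u) = f (Ring.inverse u) := by
  have h1 : u * Ring.inverse u = 1 := Ring.mul_inverse_cancel u hu
  have h2 : f u * f (Ring.inverse u) = 1 := by rw [← map_mul, h1, map_one]
  have h3 : Ring.inverse (f u) * f u = 1 := Ring.inverse_mul_cancel _ (hu.map f)
  calc Ring.inverse (f u) = Ring.inverse (f u) * (f u * f (Ring.inverse u)) := by
        rw [h2, mul_one]
    _ = f (Ring.inverse u) := by rw [← mul_assoc, h3, one_mul]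

theorem Cm_map {u : R} (h2 : IsUnit (2 : R)) (hu : IsUnit (1 - 432 * u)) (f : R →+* S) :
    Cm (f u) = (Cm u).map f := by
  have e1 : Ring.inverse (1 - 432 * f u) = f (Ring.inverse (1 - 432 * u)) := by
    rw [← symc_inv_map f hu, map_sub, map_mul, map_one, map_ofNat]
  have e2 : Ring.inverse (2 : S) = f (Ring.inverse 2) := by
    rw [← symc_inv_map f h2, map_ofNat]
  unfold Cm
  rw [e1, e2]
  ext i j
  fin_cases i <;> fin_cases j <;> simp [map_ofNat]

theorem Cm_zero : Cm (0 : R) = Matrix.diagonal ![1, Ring.inverse 2, Ring.inverse 2] := by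
  unfold Cm
  ext i j
  fin_cases i <;> fin_cases j <;> simp [Ring.inverse_one]

theorem xu_isDer {u : R} {d : R → R} (hd : IsDer d) (θ : R) (hu : d u = θ * u)
    (hu1 : IsUnit (1 - 432 * u)) :
    d (xu u) = (θ * ((1 - 864 * u) * Ring.inverse (1 - 432 * u))) * xu u := by
  have he := Ring.mul_inverse_cancel (1 - 432 * u) hu1
  have h432 : d 432 = 0 := by
    have := hd.natCast 432
    simpa using this
  unfold xu
  rw [hd.mul, hd.sub, hd.mul, hd.one, h432, hu]
  linear_combination (-(θ * u * (1 - 864 * u))) * he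

/-- the differential equation of `Cm` -/
theorem Cm_ode {u : R} (h2 : IsUnit (2 : R)) (hu1 : IsUnit (1 - 432 * u))
    (hu2 : IsUnit (1 - 864 * u)) {d : R → R} (hd : IsDer d) (θ : R) (hu : d u = θ * u) :
    (Cm u).map d = Cm u * s2 (θ • Cmp 2 a2 u)
      - ((θ * ((1 - 864 * u) * Ring.inverse (1 - 432 * u))) • Cmp 3 a3 (xu u)) * Cm u := by
  have he := Ring.mul_inverse_cancel (1 - 432 * u) hu1
  have hh := Ring.mul_inverse_cancel (2 : R) h2
  have hE := Ring.mul_inverse_cancel ((1 - 864 * u) ^ 2) (hu2.pow 2)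
  have h432 : d 432 = 0 := by
    have := hd.natCast 432
    simpa using this
  have h864 : d 864 = 0 := by
    have := hd.natCast 864
    simpa using this
  have h60 : d 60 = 0 := by
    have := hd.natCast 60
    simpa using this
  have hd2 : d 2 = 0 := by
    have := hd.natCast 2
    simpa using this
  have hde : d (Ring.inverse (1 - 432 * u)) = 432 * θ * u * Ring.inverse (1 - 432 * u) ^ 2 := by
    rw [hd.inverse hu1, hd.sub, hd.mul, hd.one, h432, hu]
    ring
  have hdh : d (Ring.inverse (2 : R)) = 0 := by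
    rw [hd.inverse h2, hd2, mul_zero]
  rw [cmp2 u (Ring.inverse (1 - 432 * u)) he, cmp3 (xu u) (Ring.inverse ((1 - 864 * u) ^ 2))
    (by rw [delta_xu]; exact hE)]
  unfold Cm xu
  generalize Ring.inverse (1 - 432 * u) = e at *
  generalize Ring.inverse (2 : R) = h at *
  generalize Ring.inverse ((1 - 864 * u) ^ 2) = E at *
  have hdue : d (60 * u * e) = 60 * (θ * u * e + 432 * θ * u ^ 2 * e ^ 2) := by
    rw [hd.mul, hd.mul, h60, hu, hde]
    ring
  have hdue' : d (432 * u * e) = 432 * (θ * u * e + 432 * θ * u ^ 2 * e ^ 2) := by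
    rw [hd.mul, hd.mul, h432, hu, hde]
    ring
  have hw : d ((1 - 864 * u) * e) = -(864 * θ * u * e) + 432 * θ * u * (1 - 864 * u) * e ^ 2 := by
    rw [hd.mul, hd.sub, hd.mul, hd.one, h864, hu, hde]
    ring
  have hK : u * (1 - 432 * u) * E * ((1 - 864 * u) * e) ^ 2 = u * e := by
    linear_combination (u * e * (1 - 432 * u) * e) * hE + u * e * he
  have hw1 : d ((1 - 864 * u) * e * h) =
      (-(864 * θ * u * e) + 432 * θ * u * (1 - 864 * u) * e ^ 2) * h := by
    rw [hd.mul, hw, hdh]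
    ring
  have hw2 : d ((1 - 864 * u) ^ 2 * e ^ 2 * h) = 2 * ((1 - 864 * u) * e) *
      (-(864 * θ * u * e) + 432 * θ * u * (1 - 864 * u) * e ^ 2) * h := by
    have h5 : (1 - 864 * u) ^ 2 * e ^ 2 = ((1 - 864 * u) * e) * ((1 - 864 * u) * e) := by ring
    rw [h5, hd.mul, hd.mul, hw, hdh]
    ring
  ext i j
  rw [Matrix.sub_apply, Matrix.mul_apply, Matrix.mul_apply, Fin.sum_univ_three,
    Fin.sum_univ_three]
  fin_cases i <;> fin_cases j
  · change d 1 = 1 * (2 * (θ * 0)) + 0 * (2 * (θ * 1)) + -(60 * u * e) * 0 -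
      ((θ * ((1 - 864 * u) * e)) * 0 * 1 + (θ * ((1 - 864 * u) * e)) * 0 * 0 +
        (θ * ((1 - 864 * u) * e)) * (120 * (u * (1 - 432 * u)) * E) * 0)
    rw [hd.one]
    ring
  · change d 0 = 1 * (θ * (60 * u * e)) + 0 * (θ * 0 + θ * (432 * u * e)) +
      -(60 * u * e) * (θ * 1) -
      ((θ * ((1 - 864 * u) * e)) * 0 * 0 + (θ * ((1 - 864 * u) * e)) * 0 *
        ((1 - 864 * u) * e * h) +
        (θ * ((1 - 864 * u) * e)) * (120 * (u * (1 - 432 * u)) * E) * 0)
    rw [hd.zero]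
    ring
  · change d (-(60 * u * e)) = 1 * 0 + 0 * (2 * (θ * (60 * u * e))) +
      -(60 * u * e) * (2 * (θ * (432 * u * e))) -
      ((θ * ((1 - 864 * u) * e)) * 0 * (-(60 * u * e)) + (θ * ((1 - 864 * u) * e)) * 0 *
        (-(432 * u * e)) +
        (θ * ((1 - 864 * u) * e)) * (120 * (u * (1 - 432 * u)) * E) *
          ((1 - 864 * u) ^ 2 * e ^ 2 * h))
    rw [hd.neg, hdue]
    linear_combination (60 * θ * u * e) * he + (60 * θ * ((1 - 864 * u) * e) * u * e) * hh +
      (120 * θ * ((1 - 864 * u) * e) * h) * hK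
  · change d 0 = 0 * (2 * (θ * 0)) + ((1 - 864 * u) * e * h) * (2 * (θ * 1)) +
      -(432 * u * e) * 0 -
      ((θ * ((1 - 864 * u) * e)) * 1 * 1 + (θ * ((1 - 864 * u) * e)) * 0 * 0 +
        (θ * ((1 - 864 * u) * e)) * (1104 * (u * (1 - 432 * u)) * E) * 0)
    rw [hd.zero]
    linear_combination (-(θ * ((1 - 864 * u) * e))) * hh
  · change d ((1 - 864 * u) * e * h) = 0 * (θ * (60 * u * e)) +
      ((1 - 864 * u) * e * h) * (θ * 0 + θ * (432 * u * e)) +
      -(432 * u * e) * (θ * 1) -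
      ((θ * ((1 - 864 * u) * e)) * 1 * 0 + (θ * ((1 - 864 * u) * e)) * 0 *
        ((1 - 864 * u) * e * h) +
        (θ * ((1 - 864 * u) * e)) * (1104 * (u * (1 - 432 * u)) * E) * 0)
    rw [hw1]
    linear_combination (-(432 * θ * u * e)) * hh
  · change d (-(432 * u * e)) = 0 * 0 + ((1 - 864 * u) * e * h) * (2 * (θ * (60 * u * e))) +
      -(432 * u * e) * (2 * (θ * (432 * u * e))) -
      ((θ * ((1 - 864 * u) * e)) * 1 * (-(60 * u * e)) + (θ * ((1 - 864 * u) * e)) * 0 *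
        (-(432 * u * e)) +
        (θ * ((1 - 864 * u) * e)) * (1104 * (u * (1 - 432 * u)) * E) *
          ((1 - 864 * u) ^ 2 * e ^ 2 * h))
    rw [hd.neg, hdue']
    linear_combination (432 * θ * u * e) * he + (492 * θ * ((1 - 864 * u) * e) * u * e) * hh +
      (1104 * θ * ((1 - 864 * u) * e) * h) * hK
  · change d 0 = 0 * (2 * (θ * 0)) + 0 * (2 * (θ * 1)) +
      ((1 - 864 * u) ^ 2 * e ^ 2 * h) * 0 -
      ((θ * ((1 - 864 * u) * e)) * 0 * 1 + (θ * ((1 - 864 * u) * e)) * 1 * 0 +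
        (θ * ((1 - 864 * u) * e)) * (2592 * (u * (1 - 432 * u)) * E) * 0)
    rw [hd.zero]
    ring
  · change d 0 = 0 * (θ * (60 * u * e)) + 0 * (θ * 0 + θ * (432 * u * e)) +
      ((1 - 864 * u) ^ 2 * e ^ 2 * h) * (θ * 1) -
      ((θ * ((1 - 864 * u) * e)) * 0 * 0 + (θ * ((1 - 864 * u) * e)) * 1 *
        ((1 - 864 * u) * e * h) +
        (θ * ((1 - 864 * u) * e)) * (2592 * (u * (1 - 432 * u)) * E) * 0)
    rw [hd.zero]
    ring
  · change d ((1 - 864 * u) ^ 2 * e ^ 2 * h) = 0 * 0 + 0 * (2 * (θ * (60 * u * e))) +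
      ((1 - 864 * u) ^ 2 * e ^ 2 * h) * (2 * (θ * (432 * u * e))) -
      ((θ * ((1 - 864 * u) * e)) * 0 * (-(60 * u * e)) + (θ * ((1 - 864 * u) * e)) * 1 *
        (-(432 * u * e)) +
        (θ * ((1 - 864 * u) * e)) * (2592 * (u * (1 - 432 * u)) * E) *
          ((1 - 864 * u) ^ 2 * e ^ 2 * h))
    rw [hw2]
    linear_combination (2592 * θ * ((1 - 864 * u) * e) * h) * hK +
      (432 * θ * u * e * ((1 - 864 * u) * e)) * hh

end Pool.Agent.H.MP_7425ae_nt
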