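import Pool.Agent.H.MP_7425ae_nt.FamB
import Pool.Agent.H.MP_7425ae_nt.SymC

/-! The matrix of the 5-isogeny on the symmetric squares; it is regular where `E1`, `E2` vanish. -/

set_option autoImplicit false

open Polynomial

namespace Pool.Agent.H.MP_7425ae_nt

variable {R S : Type} [CommRing R] [CommRing S]

def K12 (h : R) : R := 1200 * (1 + 48 * h + 822 * h ^ 2 + 6000 * h ^ 3 + 15625 * h ^ 4)

def K02 (h : R) : R := 14400 * h * (1 + 74 * h + 2195 * h ^ 2 + 33372 * h ^ 3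
  + 274375 * h ^ 4 + 1156250 * h ^ 5 + 1953125 * h ^ 6)

/-- `η^2 = E0 D1`, `ζ^2 = E0 D2` -/
noncomputable def Bt (h η ζ : R) : Matrix (Fin 3) (Fin 3) R :=
  !![1, η * nuf h * Ring.inverse (D1 h), h * K02 h * Ring.inverse (D1 h ^ 3 * D2 h ^ 2);
     0, 5 * η * D2 h * Ring.inverse (D1 h * ζ), h * K12 h * Ring.inverse (D1 h ^ 2 * ζ);
     0, 0, 25 * D2 h * Ring.inverse (D1 h)]

/-- `v^2 = 1 - 1728 x` -/
def Ct (x v : R) : Matrix (Fin 3) (Fin 3) R :=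
  !![1, 0, - (240 * x); 0, v, - (1728 * x); 0, 0, 2 * (1 - 1728 * x)]

/-- the matrix of the 5-isogeny on the symmetric squares -/
noncomputable def Bs (h η ζ v v' : R) : Matrix (Fin 3) (Fin 3) R :=
  Matrix.diagonal ![1, 1 + v', (1 + v') ^ 2] * Bt h η ζ *
    Matrix.diagonal ![1, Ring.inverse (1 + v), Ring.inverse (1 + v) ^ 2]

theorem btdef_inv (a b : R) : Ring.inverse (a * b) = Ring.inverse a * Ring.inverse b := by
  rw [Ring.mul_inverse_rev, mul_comm]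

theorem btdef_pow (a : R) (n : ℕ) : Ring.inverse (a ^ n) = Ring.inverse a ^ n :=
  (Ring.inverse_pow a n).symm

theorem btdef_key12 (h : R) : -8640 * E2 h * D2 h + 2 * E0 h * N12 h
    = E2 h * K12 h * E1 h - 43200 * h ^ 4 * D1 h * E1 h := by
  unfold E2 D2 E0 N12 K12 E1 D1
  ring

theorem btdef_key02 (h : R) : -240 * D2 h ^ 2 * E1 h
      - 1728 * (120 * h * (1 + 26 * h + 125 * h ^ 2)) * D2 h + 2 * E0 h * N02 h
    = E1 h * K02 h - 6000 * h ^ 4 * D1 h ^ 2 * E1 h := by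
  unfold D2 E0 N02 K02 E1 D1
  ring

theorem Bt_rel {h η ζ v v' : R} (u : U5 h) (hη : η ^ 2 = E0 h * D1 h)
    (hζ : ζ ^ 2 = E0 h * D2 h) (hv : v * D1 h ^ 2 = E1 h * η) (hv' : v' * D2 h ^ 2 = E2 h * ζ) :
    Bm h * Ct (xf h) v = Ct (xg h) v' * Bt h η ζ := by
  have h1 := Ring.mul_inverse_cancel (D1 h) u.d1
  have h2 := Ring.mul_inverse_cancel (D2 h) u.d2
  have h3 := Ring.mul_inverse_cancel (E1 h) u.e1
  have hζu : IsUnit ζ := by
    have : IsUnit (ζ ^ 2) := by rw [hζ]; exact u.e0.mul u.d2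
    exact (isUnit_pow_iff two_ne_zero).1 this
  have h4 := Ring.mul_inverse_cancel ζ hζu
  have dx := delta_xf u
  have dx' := delta_xg u
  have k12 := btdef_key12 h
  have k02 := btdef_key02 h
  unfold Bm Bt nuf Bnum Ct
  unfold xf at dx ⊢
  unfold xg at dx' ⊢
  simp only [btdef_inv, btdef_pow]
  generalize Ring.inverse (D1 h) = i1 at *
  generalize Ring.inverse (D2 h) = i2 at *
  generalize Ring.inverse (E1 h) = e1 at *
  generalize Ring.inverse ζ = z1 at *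
  have hv0 : v = E1 h * η * i1 ^ 2 := by
    have : v = v * (D1 h * i1) ^ 2 := by rw [h1]; ring
    rw [this]; linear_combination i1 ^ 2 * hv
  have hv0' : v' = E2 h * ζ * i2 ^ 2 := by
    have : v' = v' * (D2 h * i2) ^ 2 := by rw [h2]; ring
    rw [this]; linear_combination i2 ^ 2 * hv'
  have hx : 1 - 1728 * (h * i1 ^ 3) = E0 h * E1 h ^ 2 * i1 ^ 3 := by
    have : 1 - 1728 * (h * i1 ^ 3) = (1 - 1728 * (h * i1 ^ 3)) * (D1 h * i1) ^ 3 := by
      rw [h1]; ring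
    rw [this]; linear_combination i1 ^ 3 * dx
  have hx' : 1 - 1728 * (h ^ 5 * i2 ^ 3) = E0 h * E2 h ^ 2 * i2 ^ 3 := by
    have : 1 - 1728 * (h ^ 5 * i2 ^ 3) = (1 - 1728 * (h ^ 5 * i2 ^ 3)) * (D2 h * i2) ^ 3 := by
      rw [h2]; ring
    rw [this]; linear_combination i2 ^ 3 * dx'
  rw [hx, hx', hv0, hv0']
  have one1 : (D1 h * i1) = 1 := h1
  -- the entries
  have e00 : i2 ^ 2 * e1 ^ 3 * (D2 h ^ 2 * E1 h ^ 3) = 1 := by
    calc _ = (D2 h * i2) ^ 2 * (E1 h * e1) ^ 3 := by ring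
      _ = 1 := by rw [h2, h3]; ring
  have e01 : i2 ^ 2 * e1 ^ 3 * (120 * h * (1 + 26 * h + 125 * h ^ 2) * D2 h * E1 h ^ 2) *
      (E1 h * η * i1 ^ 2) = η * (120 * h * (1 + 26 * h + 125 * h ^ 2) * (i1 * i2)) * i1 := by
    calc _ = η * (120 * h * (1 + 26 * h + 125 * h ^ 2) * (i1 * i2)) * i1 *
          ((D2 h * i2) * (E1 h * e1) ^ 3) := by ring
      _ = _ := by rw [h2, h3]; ring
  have e11 : i2 ^ 2 * e1 ^ 3 * (5 * E2 h * D1 h * D2 h * E1 h ^ 2) * (E1 h * η * i1 ^ 2)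
      = E2 h * ζ * i2 ^ 2 * (5 * η * D2 h * (i1 * z1)) := by
    calc _ = 5 * E2 h * η * i1 * i2 * ((D1 h * i1) * (D2 h * i2) * (E1 h * e1) ^ 3) := by ring
      _ = 5 * E2 h * η * i1 * i2 * ((ζ * z1) * (D2 h * i2)) := by rw [h1, h2, h3, h4]; ring
      _ = _ := by ring
  have e22 : i2 ^ 2 * e1 ^ 3 * (25 * E2 h ^ 2 * D1 h ^ 2 * E1 h) *
      (2 * (E0 h * E1 h ^ 2 * i1 ^ 3)) =
      2 * (E0 h * E2 h ^ 2 * i2 ^ 3) * (25 * D2 h * i1) := by
    calc _ = 50 * E0 h * E2 h ^ 2 * i1 * i2 ^ 2 * ((D1 h * i1) ^ 2 * (E1 h * e1) ^ 3) := by ring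
      _ = 50 * E0 h * E2 h ^ 2 * i1 * i2 ^ 2 * (D2 h * i2) := by rw [h1, h2, h3]; ring
      _ = _ := by ring
  have e12 : -(i2 ^ 2 * e1 ^ 3 * (5 * E2 h * D1 h * D2 h * E1 h ^ 2) * (1728 * (h * i1 ^ 3))) +
      i2 ^ 2 * e1 ^ 3 * (h * D1 h * N12 h) * (2 * (E0 h * E1 h ^ 2 * i1 ^ 3)) =
      E2 h * ζ * i2 ^ 2 * (h * K12 h * (i1 ^ 2 * z1)) -
        1728 * (h ^ 5 * i2 ^ 3) * (25 * D2 h * i1) := by
    calc _ = h * i1 ^ 2 * i2 ^ 2 * e1 * (-8640 * E2 h * D2 h + 2 * E0 h * N12 h) *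
          ((D1 h * i1) * (E1 h * e1) ^ 2) := by ring
      _ = h * i1 ^ 2 * i2 ^ 2 * e1 * (E2 h * K12 h * E1 h - 43200 * h ^ 4 * D1 h * E1 h) := by
          rw [h1, h3, k12]; ring
      _ = h * i1 ^ 2 * i2 ^ 2 * (E2 h * K12 h) * (E1 h * e1)
          - 43200 * h ^ 5 * i1 * i2 ^ 2 * ((D1 h * i1) * (E1 h * e1)) := by ring
      _ = h * i1 ^ 2 * i2 ^ 2 * (E2 h * K12 h) * (ζ * z1)
          - 43200 * h ^ 5 * i1 * i2 ^ 2 * (D2 h * i2) := by rw [h1, h2, h3, h4]; ring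
      _ = _ := by ring
  have e02 : -(i2 ^ 2 * e1 ^ 3 * (D2 h ^ 2 * E1 h ^ 3) * (240 * (h * i1 ^ 3))) -
      i2 ^ 2 * e1 ^ 3 * (120 * h * (1 + 26 * h + 125 * h ^ 2) * D2 h * E1 h ^ 2) *
        (1728 * (h * i1 ^ 3)) +
      i2 ^ 2 * e1 ^ 3 * (h * N02 h) * (2 * (E0 h * E1 h ^ 2 * i1 ^ 3)) =
      h * K02 h * (i1 ^ 3 * i2 ^ 2) - 240 * (h ^ 5 * i2 ^ 3) * (25 * D2 h * i1) := by
    calc _ = h * i1 ^ 3 * i2 ^ 2 * e1 * (-240 * D2 h ^ 2 * E1 h
            - 1728 * (120 * h * (1 + 26 * h + 125 * h ^ 2)) * D2 h + 2 * E0 h * N02 h) *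
          ((E1 h * e1) ^ 2) := by ring
      _ = h * i1 ^ 3 * i2 ^ 2 * e1 * (E1 h * K02 h - 6000 * h ^ 4 * D1 h ^ 2 * E1 h) := by
          rw [h3, k02]; ring
      _ = h * i1 ^ 3 * i2 ^ 2 * K02 h * (E1 h * e1)
          - 6000 * h ^ 5 * i1 * i2 ^ 2 * ((D1 h * i1) ^ 2 * (E1 h * e1)) := by ring
      _ = h * i1 ^ 3 * i2 ^ 2 * K02 h
          - 6000 * h ^ 5 * i1 * i2 ^ 2 * (D2 h * i2) := by rw [h1, h2, h3]; ring
      _ = _ := by ring
  ext i j
  fin_cases i <;> fin_cases j <;>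
    simp [Matrix.mul_apply, Fin.sum_univ_three, -mul_eq_mul_left_iff, -mul_eq_mul_right_iff]
  · linear_combination e00
  · linear_combination e01
  · linear_combination e02
  · linear_combination e11
  · linear_combination e12
  · linear_combination e22

/-- `Cm u` in terms of `Ct` -/
theorem Cm_Ct {u v : R} (h2 : IsUnit (2 : R)) (hu : 864 * u = 1 - v)
    (hv : IsUnit (1 + v)) :
    Cm u = Ct (xu u) v * Matrix.diagonal ![1, Ring.inverse (1 + v), Ring.inverse (1 + v) ^ 2] := by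
  have hw : 1 + v = 2 * (1 - 432 * u) := by linear_combination hu
  have hwu : IsUnit (1 - 432 * u) := by
    rw [hw] at hv
    exact isUnit_of_mul_isUnit_right hv
  have h3 := Ring.mul_inverse_cancel (1 - 432 * u) hwu
  have h4 := Ring.mul_inverse_cancel (2 : R) h2
  have hv2 : v = 1 - 864 * u := by linear_combination hu
  have hdx : 1 - 1728 * xu u = v ^ 2 := by
    unfold xu; rw [hv2]; ring
  unfold Cm Ct
  rw [hw, btdef_inv, hdx, ← hv2]
  unfold xu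
  generalize Ring.inverse (1 - 432 * u) = i at *
  generalize Ring.inverse (2 : R) = t at *
  ext a b
  fin_cases a <;> fin_cases b <;>
    simp [Matrix.mul_apply, Matrix.diagonal,
      -mul_eq_mul_left_iff, -mul_eq_mul_right_iff]
  · calc 60 * u * i = 60 * u * i * ((1 - 432 * u) * i) * (2 * t) ^ 2 := by rw [h3, h4]; ring
      _ = _ := by ring
  · ring
  · calc 432 * u * i = 432 * u * i * ((1 - 432 * u) * i) * (2 * t) ^ 2 := by rw [h3, h4]; ring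
      _ = _ := by ring
  · calc v ^ 2 * i ^ 2 * t = v ^ 2 * i ^ 2 * t * (2 * t) := by rw [h4]; ring
      _ = _ := by ring

theorem btdef_v2 {h η v a : R} (d1 : IsUnit (D1 h)) (h2 : IsUnit (2 : R)) (h3 : IsUnit (3 : R))
    (hη : η ^ 2 = E0 h * D1 h) (hv : v * D1 h ^ 2 = E1 h * η) (ha : 864 * a = 1 - v)
    {x : R} (dx : (1 - 1728 * x) * D1 h ^ 3 = E0 h * E1 h ^ 2) : xu a = x := by
  have e1 : v ^ 2 = 1 - 1728 * x := by
    have : v ^ 2 * D1 h ^ 4 = (1 - 1728 * x) * D1 h ^ 4 := by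
      calc v ^ 2 * D1 h ^ 4 = (v * D1 h ^ 2) ^ 2 := by ring
        _ = E1 h ^ 2 * η ^ 2 := by rw [hv]; ring
        _ = (E0 h * E1 h ^ 2) * D1 h := by rw [hη]; ring
        _ = (1 - 1728 * x) * D1 h ^ 4 := by rw [← dx]; ring
    exact (d1.pow 4).mul_right_cancel this
  have e2 : 1 - 1728 * xu a = v ^ 2 := by
    have hv2 : v = 1 - 864 * a := by linear_combination ha
    unfold xu; rw [hv2]; ring
  have hu : IsUnit (1728 : R) := by
    have : (1728 : R) = 2 ^ 6 * 3 ^ 3 := by norm_num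
    rw [this]
    exact (h2.pow 6).mul (h3.pow 3)
  apply hu.mul_left_cancel
  linear_combination -e2 - e1

theorem btdef_v2' {h ζ v a : R} (d2 : IsUnit (D2 h)) (h2 : IsUnit (2 : R)) (h3 : IsUnit (3 : R))
    (hζ : ζ ^ 2 = E0 h * D2 h) (hv : v * D2 h ^ 2 = E2 h * ζ) (ha : 864 * a = 1 - v)
    {x : R} (dx : (1 - 1728 * x) * D2 h ^ 3 = E0 h * E2 h ^ 2) : xu a = x := by
  have e1 : v ^ 2 = 1 - 1728 * x := by
    have : v ^ 2 * D2 h ^ 4 = (1 - 1728 * x) * D2 h ^ 4 := by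
      calc v ^ 2 * D2 h ^ 4 = (v * D2 h ^ 2) ^ 2 := by ring
        _ = E2 h ^ 2 * ζ ^ 2 := by rw [hv]; ring
        _ = (E0 h * E2 h ^ 2) * D2 h := by rw [hζ]; ring
        _ = (1 - 1728 * x) * D2 h ^ 4 := by rw [← dx]; ring
    exact (d2.pow 4).mul_right_cancel this
  have e2 : 1 - 1728 * xu a = v ^ 2 := by
    have hv2 : v = 1 - 864 * a := by linear_combination ha
    unfold xu; rw [hv2]; ring
  have hu : IsUnit (1728 : R) := by
    have : (1728 : R) = 2 ^ 6 * 3 ^ 3 := by norm_num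
    rw [this]
    exact (h2.pow 6).mul (h3.pow 3)
  apply hu.mul_left_cancel
  linear_combination -e2 - e1

/-- the relation `B(h) Cm(u) = Cm(u') Bs` -/
theorem Bs_rel {h η ζ v v' a a' : R} (u : U5 h) (h2 : IsUnit (2 : R)) (h3 : IsUnit (3 : R))
    (hη : η ^ 2 = E0 h * D1 h)
    (hζ : ζ ^ 2 = E0 h * D2 h) (hv : v * D1 h ^ 2 = E1 h * η) (hv' : v' * D2 h ^ 2 = E2 h * ζ)
    (ha : 864 * a = 1 - v) (ha' : 864 * a' = 1 - v') (hu : IsUnit (1 + v))
    (hu' : IsUnit (1 + v')) :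
    xu a = xf h ∧ xu a' = xg h ∧ Bm h * Cm a = Cm a' * Bs h η ζ v v' := by
  have q1 : xu a = xf h := btdef_v2 u.d1 h2 h3 hη hv ha (delta_xf u)
  have q2 : xu a' = xg h := btdef_v2' u.d2 h2 h3 hζ hv' ha' (delta_xg u)
  refine ⟨q1, q2, ?_⟩
  rw [Cm_Ct h2 ha hu, Cm_Ct h2 ha' hu', q1, q2, ← Matrix.mul_assoc, Bt_rel u hη hζ hv hv']
  unfold Bs
  have hd : Matrix.diagonal ![1, Ring.inverse (1 + v'), Ring.inverse (1 + v') ^ 2] *
      Matrix.diagonal ![1, 1 + v', (1 + v') ^ 2] = (1 : Matrix (Fin 3) (Fin 3) R) := by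
    have h5 := Ring.inverse_mul_cancel (1 + v') hu'
    rw [Matrix.diagonal_mul_diagonal, ← Matrix.diagonal_one]
    congr 1
    funext i
    fin_cases i
    · simp
    · simpa using h5
    · simp only [Fin.reduceFinMk, Matrix.cons_val]
      rw [← mul_pow, h5, one_pow]
  calc Ct (xg h) v' * Bt h η ζ *
        Matrix.diagonal ![1, Ring.inverse (1 + v), Ring.inverse (1 + v) ^ 2]
      = Ct (xg h) v' * (Matrix.diagonal ![1, Ring.inverse (1 + v'), Ring.inverse (1 + v') ^ 2] *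
          Matrix.diagonal ![1, 1 + v', (1 + v') ^ 2]) * Bt h η ζ *
        Matrix.diagonal ![1, Ring.inverse (1 + v), Ring.inverse (1 + v) ^ 2] := by
        rw [hd, Matrix.mul_one]
    _ = _ := by simp only [Matrix.mul_assoc]

theorem btdef_Bt_map {h η ζ : R} (d1 : IsUnit (D1 h)) (d2 : IsUnit (D2 h)) (hζ : IsUnit ζ)
    (f : R →+* S) : Bt (f h) (f η) (f ζ) = (Bt h η ζ).map f := by
  have k1 : K12 (f h) = f (K12 h) := by simp [K12, map_ofNat]
  have k2 : K02 (f h) = f (K02 h) := by simp [K02, map_ofNat]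
  have i1 := famb_inv_map f d1
  have i2 := famb_inv_map f d2
  have i3 := famb_inv_map f hζ
  unfold Bt nuf
  simp only [btdef_inv, btdef_pow, D1_map, D2_map, i1, i2, i3, k1, k2]
  ext i j
  fin_cases i <;> fin_cases j <;> simp [map_ofNat]

theorem Bs_map {h η ζ v v' : R} (d1 : IsUnit (D1 h)) (d2 : IsUnit (D2 h)) (hζ : IsUnit ζ)
    (hv : IsUnit (1 + v)) (f : R →+* S) :
    Bs (f h) (f η) (f ζ) (f v) (f v') = (Bs h η ζ v v').map f := by
  unfold Bs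
  rw [Matrix.map_mul, Matrix.map_mul, btdef_Bt_map d1 d2 hζ f]
  have i1 := famb_inv_map f hv
  rw [map_add, map_one] at i1
  congr 1
  · congr 1
    ext i j
    fin_cases i <;> fin_cases j <;> simp [Matrix.diagonal]
  · rw [i1]
    ext i j
    fin_cases i <;> fin_cases j <;> simp [Matrix.diagonal]

end Pool.Agent.H.MP_7425ae_nt
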