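import Pool.Agent.H.MP_7425ae_nt.Basic

/-! The integers `t_n` and the denominators. -/

set_option autoImplicit false

open Finset

namespace Pool.Agent.H.MP_7425ae_nt

/-- `t_n = sum_{k<n} (342k+25) (-96^3)^{n-1-k} c_k` -/
def tn (n : ℕ) : ℤ :=
  ∑ k ∈ range n, ((342 * (k : ℤ) + 25) * (-(96 : ℤ) ^ 3) ^ (n - 1 - k) * c3 k)

/-- the denominator `2n (2n+1) C(2n,n)` -/
def Mn (n : ℕ) : ℕ := 2 * n * (2 * n + 1) * (2 * n).choose n

theorem tn_succ (n : ℕ) : tn (n + 1) = (-(96 : ℤ) ^ 3) * tn n + (342 * (n : ℤ) + 25) * c3 n := by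
  unfold tn
  rw [sum_range_succ, mul_sum]
  congr 1
  · refine sum_congr rfl ?_
    intro k hk
    have hk2 := mem_range.1 hk
    rw [show n + 1 - 1 - k = (n - 1 - k) + 1 by omega, pow_succ]
    ring
  · rw [show n + 1 - 1 - n = 0 by omega, pow_zero, mul_one]

/-- `C(2n,n) (2n+1)` divides `c_n`: `c_n = C(2n,n) (2n+1) h_n`,
`h_n = C(6n,3n) C(3n+1,n) / (3n+1)` and `gcd(2n+1,3n+1) = 1` -/
theorem c3_dvd (n : ℕ) : (((2 * n + 1) * (2 * n).choose n : ℕ) : ℤ) ∣ c3 n := by
  have h1 : (3 * n + 1) * (3 * n).choose n = (3 * n + 1).choose n * (2 * n + 1) := by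
    have h := Nat.add_one_mul_choose_eq (3 * n) (2 * n)
    have e1 : (3 * n).choose (2 * n) = (3 * n).choose n := by
      rw [← Nat.choose_symm (n := 3 * n) (k := n) (by omega), show 3 * n - n = 2 * n by omega]
    have e2 : (3 * n + 1).choose (2 * n + 1) = (3 * n + 1).choose n := by
      rw [← Nat.choose_symm (n := 3 * n + 1) (k := n) (by omega),
        show 3 * n + 1 - n = 2 * n + 1 by omega]
    rw [e1, e2] at h
    exact h
  have hcop : Nat.Coprime (2 * n + 1) (3 * n + 1) := by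
    have h2 : Nat.Coprime (2 * n + 1) n := by
      rw [show 2 * n + 1 = 1 + n * 2 by ring]
      exact (Nat.coprime_add_mul_left_left 1 n 2).2 (Nat.coprime_one_left n)
    have h3 : 3 * n + 1 = n + (2 * n + 1) * 1 := by ring
    rw [h3]
    exact (Nat.coprime_add_mul_left_right (2 * n + 1) n 1).2 h2
  have h4 : (2 * n + 1) ∣ (3 * n).choose n := by
    refine hcop.dvd_of_dvd_mul_left ?_
    rw [h1]
    exact Dvd.intro_left _ rfl
  have h5 : (2 * n + 1) * (2 * n).choose n ∣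
      (6 * n).choose (3 * n) * (3 * n).choose n * (2 * n).choose n :=
    mul_dvd_mul (Dvd.dvd.mul_left h4 _) dvd_rfl
  unfold c3
  exact_mod_cast h5

end Pool.Agent.H.MP_7425ae_nt
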