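import Pool.Agent.H.MP_7425ae_nt.CDef

/-! Integrality at `3`. -/

set_option autoImplicit false

open Finset

namespace Pool.Agent.H.MP_7425ae_nt

private abbrev cthree_v (n : ℕ) : ℕ := padicValNat 3 n

/-- ternary digit sum -/
private def cthree_s (n : ℕ) : ℕ := (Nat.digits 3 n).sum

private theorem cthree_leg (n : ℕ) : 2 * cthree_v n.factorial + cthree_s n = n := by
  have h := sub_one_mul_padicValNat_factorial (p := 3) n
  have h2 := Nat.digit_sum_le 3 n
  unfold cthree_s cthree_v
  omega

private theorem cthree_fac (m r : ℕ) (hr : r < 3) :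
    cthree_v (3 * m + r).factorial = m + cthree_v m.factorial := by
  unfold cthree_v
  rw [padicValNat_factorial_mul_add m hr, padicValNat_factorial_mul m]
  ring

private theorem cthree_s_rec (m r : ℕ) (hr : r < 3) : cthree_s (3 * m + r) = cthree_s m + r := by
  have h1 := cthree_leg (3 * m + r)
  have h2 := cthree_leg m
  have h3 := cthree_fac m r hr
  omega

private theorem cthree_s_zero : cthree_s 0 = 0 := by
  have := cthree_leg 0
  omega

private theorem cthree_s_pos (n : ℕ) : 1 ≤ n → 1 ≤ cthree_s n := by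
  induction n using Nat.strong_induction_on with
  | _ n ih =>
    intro hn
    obtain ⟨m, r, hr, rfl⟩ : ∃ m r, r < 3 ∧ n = 3 * m + r := ⟨n / 3, n % 3, by omega, by omega⟩
    rw [cthree_s_rec m r hr]
    rcases Nat.eq_zero_or_pos r with h | h
    · subst h
      have := ih m (by omega) (by omega)
      omega
    · omega

private theorem cthree_s_le (n : ℕ) : cthree_s n ≤ n := by
  have := cthree_leg n
  omega

private theorem cthree_s_add (a b : ℕ) : cthree_s (a + b) ≤ cthree_s a + cthree_s b := by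
  have h1 := cthree_leg (a + b)
  have h2 := cthree_leg a
  have h3 := cthree_leg b
  have h4 : cthree_v a.factorial + cthree_v b.factorial ≤ cthree_v (a + b).factorial := by
    unfold cthree_v
    rw [← padicValNat.mul (Nat.factorial_ne_zero a) (Nat.factorial_ne_zero b)]
    refine (padicValNat_dvd_iff_le (Nat.factorial_ne_zero _)).1 ?_
    exact dvd_trans pow_padicValNat_dvd (Nat.factorial_mul_factorial_dvd_factorial_add a b)
  omega

/-- `2 n + 1 = 3 ^ j (2 m + 1)` -/
private theorem cthree_s_odd (j : ℕ) : ∀ n m : ℕ, 2 * n + 1 = 3 ^ j * (2 * m + 1) →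
    cthree_s n = j + cthree_s m := by
  induction j with
  | zero =>
    intro n m h
    have : n = m := by
      rw [pow_zero, one_mul] at h
      omega
    rw [this, zero_add]
  | succ j ih =>
    intro n m h
    have h1 : 2 * n + 1 = 3 * (3 ^ j * (2 * m + 1)) := by rw [h, pow_succ]; ring
    obtain ⟨n', hn'⟩ : ∃ n', n = 3 * n' + 1 := ⟨n / 3, by omega⟩
    have h2 : 2 * n' + 1 = 3 ^ j * (2 * m + 1) := by
      subst hn'
      omega
    rw [hn', cthree_s_rec n' 1 (by norm_num), ih n' m h2]
    ring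

/-- natural number version of `c3` -/
private def cthree_c (k : ℕ) : ℕ := (6 * k).choose (3 * k) * (3 * k).choose k * (2 * k).choose k

private theorem cthree_c_cast (k : ℕ) : c3 k = (cthree_c k : ℤ) := rfl

private theorem cthree_c_ne (k : ℕ) : cthree_c k ≠ 0 := by
  unfold cthree_c
  refine Nat.mul_ne_zero (Nat.mul_ne_zero ?_ ?_) ?_
  · exact (Nat.choose_pos (by omega)).ne'
  · exact (Nat.choose_pos (by omega)).ne'
  · exact (Nat.choose_pos (by omega)).ne'

private theorem cthree_cen (k : ℕ) :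
    cthree_v ((2 * k).choose k) + 2 * cthree_v k.factorial = cthree_v (2 * k).factorial := by
  have h : (2 * k).choose k * k.factorial * k.factorial = (2 * k).factorial := by
    have := Nat.choose_mul_factorial_mul_factorial (n := 2 * k) (k := k) (by omega)
    rw [show 2 * k - k = k by omega] at this
    exact this
  rw [← h]
  unfold cthree_v
  rw [padicValNat.mul (Nat.mul_ne_zero (Nat.choose_pos (by omega)).ne' (Nat.factorial_ne_zero _))
    (Nat.factorial_ne_zero _), padicValNat.mul (Nat.choose_pos (by omega)).ne'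
    (Nat.factorial_ne_zero _)]
  ring

private theorem cthree_vc (k : ℕ) :
    cthree_v (cthree_c k) = cthree_s k + cthree_v ((2 * k).choose k) := by
  have h : cthree_c k * ((3 * k).factorial * (k.factorial * k.factorial * k.factorial)) =
      (6 * k).factorial := by
    have h1 := Nat.choose_mul_factorial_mul_factorial (n := 6 * k) (k := 3 * k) (by omega)
    have h2 := Nat.choose_mul_factorial_mul_factorial (n := 3 * k) (k := k) (by omega)
    have h3 := Nat.choose_mul_factorial_mul_factorial (n := 2 * k) (k := k) (by omega)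
    rw [show 6 * k - 3 * k = 3 * k by omega] at h1
    rw [show 3 * k - k = 2 * k by omega] at h2
    rw [show 2 * k - k = k by omega] at h3
    unfold cthree_c
    calc (6 * k).choose (3 * k) * (3 * k).choose k * (2 * k).choose k *
          ((3 * k).factorial * (k.factorial * k.factorial * k.factorial))
        = (6 * k).choose (3 * k) * (3 * k).factorial * ((3 * k).choose k * k.factorial *
          ((2 * k).choose k * k.factorial * k.factorial)) := by ring
      _ = (6 * k).factorial := by rw [h3, h2, h1]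
  have h4 := cthree_leg k
  have h5 : cthree_v (cthree_c k) + (cthree_v (3 * k).factorial +
      (cthree_v k.factorial + cthree_v k.factorial + cthree_v k.factorial)) =
      cthree_v (6 * k).factorial := by
    rw [← h]
    unfold cthree_v
    have hk := Nat.factorial_ne_zero k
    rw [padicValNat.mul (cthree_c_ne k) (Nat.mul_ne_zero (Nat.factorial_ne_zero _)
      (Nat.mul_ne_zero (Nat.mul_ne_zero hk hk) hk)),
      padicValNat.mul (Nat.factorial_ne_zero _) (Nat.mul_ne_zero (Nat.mul_ne_zero hk hk) hk),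
      padicValNat.mul (Nat.mul_ne_zero hk hk) hk, padicValNat.mul hk hk]
  have h6 := cthree_fac k 0 (by norm_num)
  have h7 := cthree_fac (2 * k) 0 (by norm_num)
  have h8 := cthree_cen k
  rw [add_zero] at h6 h7
  rw [show 3 * (2 * k) = 6 * k by ring] at h7
  omega

private theorem cthree_vc2 (k : ℕ) :
    2 * cthree_v (cthree_c k) + cthree_s (2 * k) = 4 * cthree_s k := by
  have h1 := cthree_vc k
  have h2 := cthree_cen k
  have h3 := cthree_leg k
  have h4 := cthree_leg (2 * k)
  omega

private theorem cthree_cen_succ (m : ℕ) :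
    (m + 1) * (2 * (m + 1)).choose (m + 1) = 2 * (2 * m + 1) * (2 * m).choose m := by
  have := Nat.succ_mul_centralBinom_succ m
  unfold Nat.centralBinom at this
  exact this

private theorem cthree_M (m : ℕ) :
    Mn (m + 1) = 4 * ((2 * m + 1) * ((2 * m + 3) * (2 * m).choose m)) := by
  unfold Mn
  have h := cthree_cen_succ m
  calc 2 * (m + 1) * (2 * (m + 1) + 1) * (2 * (m + 1)).choose (m + 1)
      = 2 * (2 * (m + 1) + 1) * ((m + 1) * (2 * (m + 1)).choose (m + 1)) := by ring
    _ = _ := by rw [h]; ring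

private theorem cthree_v4 : cthree_v 4 = 0 := by
  unfold cthree_v
  exact padicValNat.eq_zero_of_not_dvd (by norm_num)

private theorem cthree_vM (m : ℕ) :
    cthree_v (Mn (m + 1)) =
      cthree_v (2 * m + 1) + (cthree_v (2 * m + 3) + cthree_v ((2 * m).choose m)) := by
  rw [cthree_M]
  have hc : (2 * m).choose m ≠ 0 := (Nat.choose_pos (by omega)).ne'
  have h4 := cthree_v4
  unfold cthree_v at *
  rw [padicValNat.mul (by norm_num) (Nat.mul_ne_zero (by omega) (Nat.mul_ne_zero (by omega) hc)),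
    padicValNat.mul (by omega) (Nat.mul_ne_zero (by omega) hc), padicValNat.mul (by omega) hc, h4,
    zero_add]

private theorem cthree_vM2 (m : ℕ) :
    2 * cthree_v (Mn (m + 1)) + cthree_s (2 * m + 3) =
      2 + cthree_s (m + 1) + cthree_s m := by
  have h : 4 * (2 * m + 3).factorial * 1 =
      Mn (m + 1) * 2 * ((m + 1).factorial * m.factorial) := by
    have h3 := Nat.choose_mul_factorial_mul_factorial (n := 2 * m) (k := m) (by omega)
    rw [show 2 * m - m = m by omega] at h3
    rw [cthree_M, show (2 * m + 3).factorial = (2 * m + 3) * ((2 * m + 2) * ((2 * m + 1) *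
      (2 * m).factorial)) from rfl, ← h3, Nat.factorial_succ m]
    ring
  have hM : Mn (m + 1) ≠ 0 := by
    rw [cthree_M]
    have hc : (2 * m).choose m ≠ 0 := (Nat.choose_pos (by omega)).ne'
    exact Nat.mul_ne_zero (by norm_num) (Nat.mul_ne_zero (by omega)
      (Nat.mul_ne_zero (by omega) hc))
  have hv : cthree_v (4 * (2 * m + 3).factorial * 1) =
      cthree_v (Mn (m + 1) * 2 * ((m + 1).factorial * m.factorial)) := by rw [h]
  have h4 := cthree_v4
  have h2 : cthree_v 2 = 0 := by
    unfold cthree_v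
    exact padicValNat.eq_zero_of_not_dvd (by norm_num)
  have e1 := cthree_leg (2 * m + 3)
  have e2 := cthree_leg (m + 1)
  have e3 := cthree_leg m
  unfold cthree_v at *
  have hk := Nat.factorial_ne_zero m
  have hk1 := Nat.factorial_ne_zero (m + 1)
  rw [mul_one, padicValNat.mul (by norm_num) (Nat.factorial_ne_zero _),
    padicValNat.mul (Nat.mul_ne_zero hM (by norm_num)) (Nat.mul_ne_zero hk1 hk),
    padicValNat.mul hM (by norm_num), padicValNat.mul hk1 hk, h4, h2] at hv
  omega

/-- the `k`-th term of `tn (m + 1)` -/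
private def cthree_t (m k : ℕ) : ℤ :=
  (342 * (k : ℤ) + 25) * (-(96 : ℤ) ^ 3) ^ (m + 1 - 1 - k) * c3 k

private theorem cthree_tn (m : ℕ) :
    tn (m + 1) = ∑ k ∈ range m, cthree_t m k + cthree_t m m := by
  unfold tn
  rw [sum_range_succ]
  rfl

private theorem cthree_small (m k : ℕ) (hk : k < m) :
    (3 : ℤ) ^ (cthree_v (Mn (m + 1)) + 1) ∣ cthree_t m k := by
  have h1 := cthree_vc2 k
  have h2 := cthree_vM2 m
  have h3 : cthree_s (2 * k) ≤ 2 * cthree_s k := by
    have := cthree_s_add k k
    rw [← two_mul] at this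
    omega
  obtain ⟨d, hd⟩ : ∃ d, m = k + d := ⟨m - k, by omega⟩
  have h4 : cthree_s m ≤ cthree_s k + d := by
    rw [hd]
    have := cthree_s_add k d
    have := cthree_s_le d
    omega
  have h5 : cthree_s (m + 1) ≤ cthree_s k + (d + 1) := by
    rw [hd, add_assoc]
    have := cthree_s_add k (d + 1)
    have := cthree_s_le (d + 1)
    omega
  have h6 : 1 ≤ cthree_s (2 * m + 3) := cthree_s_pos _ (by omega)
  have h7 : cthree_v (Mn (m + 1)) + 1 ≤ 3 * d + cthree_v (cthree_c k) := by omega
  have h8 : (3 : ℤ) ^ (3 * d + cthree_v (cthree_c k)) ∣ cthree_t m k := by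
    unfold cthree_t
    rw [show m + 1 - 1 - k = d by omega, pow_add, mul_assoc]
    refine Dvd.dvd.mul_left (mul_dvd_mul ?_ ?_) _
    · rw [pow_mul]
      refine pow_dvd_pow_of_dvd ?_ d
      norm_num
    · rw [cthree_c_cast]
      exact_mod_cast (pow_padicValNat_dvd : 3 ^ padicValNat 3 (cthree_c k) ∣ cthree_c k)
  exact dvd_trans (pow_dvd_pow 3 h7) h8

private theorem cthree_sum (m : ℕ) :
    (3 : ℤ) ^ (cthree_v (Mn (m + 1)) + 1) ∣ ∑ k ∈ range m, cthree_t m k := by
  refine dvd_sum ?_
  intro k hk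
  exact cthree_small m k (mem_range.1 hk)

private theorem cthree_main_eq (m : ℕ) :
    cthree_t m m = ((342 * m + 25 : ℕ) : ℤ) * (cthree_c m : ℤ) := by
  unfold cthree_t
  rw [show m + 1 - 1 - m = 0 by omega, pow_zero, mul_one, cthree_c_cast]
  push_cast
  ring

private theorem cthree_main (m e : ℕ) : (3 : ℤ) ^ e ∣ cthree_t m m ↔ e ≤ cthree_v (cthree_c m) := by
  rw [cthree_main_eq]
  have h : (3 : ℤ) ^ e ∣ ((342 * m + 25 : ℕ) : ℤ) * (cthree_c m : ℤ) ↔
      3 ^ e ∣ (342 * m + 25) * cthree_c m := by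
    constructor
    · intro h
      exact_mod_cast h
    · intro h
      exact_mod_cast h
  rw [h]
  have hcop : Nat.Coprime (3 ^ e) (342 * m + 25) := by
    refine Nat.Coprime.pow_left e ?_
    refine (Nat.Prime.coprime_iff_not_dvd (by norm_num)).2 ?_
    intro hd
    omega
  rw [hcop.dvd_mul_left]
  exact padicValNat_dvd_iff_le (cthree_c_ne m)

/-- comparison of the last term with the denominator -/
private theorem cthree_cmp (m : ℕ) :
    ((∃ j, 2 * m + 3 = 3 ^ j) → cthree_v (cthree_c m) + 1 = cthree_v (Mn (m + 1))) ∧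
    ((¬ ∃ j, 2 * m + 3 = 3 ^ j) → cthree_v (Mn (m + 1)) ≤ cthree_v (cthree_c m)) := by
  have h1 := cthree_vc m
  have h2 := cthree_vM m
  have hz : ∀ x : ℕ, ¬ 3 ∣ x → cthree_v x = 0 := by
    intro x hx
    exact padicValNat.eq_zero_of_not_dvd hx
  have hfac : ∀ n : ℕ, ∃ u, 2 * n + 1 = 3 ^ cthree_v (2 * n + 1) * (2 * u + 1) := by
    intro n
    obtain ⟨w, hw⟩ := (pow_padicValNat_dvd : 3 ^ padicValNat 3 (2 * n + 1) ∣ 2 * n + 1)
    have hodd : w % 2 = 1 := by
      rcases Nat.mod_two_eq_zero_or_one w with h | h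
      · exfalso
        have h3 : (2 * n + 1) % 2 = 0 := by
          rw [hw, Nat.mul_mod, h, mul_zero, Nat.zero_mod]
        omega
      · exact h
    refine ⟨w / 2, ?_⟩
    rw [show 2 * (w / 2) + 1 = w by omega]
    exact hw
  by_cases h3 : 3 ∣ 2 * m + 3
  · have h4 : cthree_v (2 * m + 1) = 0 := hz _ (by omega)
    obtain ⟨u, hu⟩ := hfac (m + 1)
    have h5 := cthree_s_odd _ _ _ hu
    rw [show 2 * (m + 1) + 1 = 2 * m + 3 by ring] at hu h5
    obtain ⟨m', rfl⟩ : ∃ m', m = 3 * m' := ⟨m / 3, by omega⟩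
    have h6 := cthree_s_rec m' 0 (by norm_num)
    have h7 := cthree_s_rec m' 1 (by norm_num)
    rw [add_zero] at h6
    constructor
    · rintro ⟨j, hj⟩
      have h8 : u = 0 := by
        by_contra hne
        have h9 : (2 * u + 1) ∣ 3 ^ j := by
          rw [← hj, hu]
          exact Dvd.intro_left _ rfl
        obtain ⟨i, _, hi⟩ := (Nat.dvd_prime_pow (by norm_num)).1 h9
        have hi0 : i ≠ 0 := by
          rintro rfl
          rw [pow_zero] at hi
          omega
        have h10 : 3 ^ (cthree_v (2 * (3 * m') + 3) + 1) ∣ 2 * (3 * m') + 3 := by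
          conv_rhs => rw [hu]
          rw [pow_succ]
          refine mul_dvd_mul_left _ ?_
          rw [hi]
          exact dvd_pow_self 3 hi0
        have h11 := (padicValNat_dvd_iff_le (p := 3) (by omega)).1 h10
        unfold cthree_v at h11
        omega
      rw [h8, cthree_s_zero] at h5
      omega
    · intro hne
      have h8 : 1 ≤ u := by
        by_contra h9
        have : u = 0 := by omega
        rw [this, mul_zero, zero_add, mul_one] at hu
        exact hne ⟨_, hu⟩
      have h9 := cthree_s_pos u h8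
      omega
  · have h4 : cthree_v (2 * m + 3) = 0 := hz _ h3
    constructor
    · rintro ⟨j, hj⟩
      exfalso
      apply h3
      rw [hj]
      refine dvd_pow_self 3 ?_
      rintro rfl
      rw [pow_zero] at hj
      omega
    · intro _
      obtain ⟨u, hu⟩ := hfac m
      have h5 := cthree_s_odd _ _ _ hu
      omega

theorem c_three (n : ℕ) (hn : 2 ≤ n) (h : ¬ ∃ m : ℕ, 2 * n + 1 = 3 ^ m) :
    (3 : ℤ) ^ padicValNat 3 (Mn n) ∣ tn n := by
  obtain ⟨m, rfl⟩ : ∃ m, n = m + 1 := ⟨n - 1, by omega⟩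
  rw [cthree_tn]
  refine dvd_add ?_ ?_
  · exact dvd_trans (pow_dvd_pow 3 (Nat.le_succ _)) (cthree_sum m)
  · refine (cthree_main m _).2 ?_
    refine (cthree_cmp m).2 ?_
    rintro ⟨j, hj⟩
    exact h ⟨j, by rw [← hj]; ring⟩

/-- the exceptional case: exactly one factor `3` is missing -/
theorem c_three_exc (n : ℕ) (hn : 2 ≤ n) (h : ∃ m : ℕ, 2 * n + 1 = 3 ^ m) :
    1 ≤ padicValNat 3 (Mn n) ∧ (3 : ℤ) ^ (padicValNat 3 (Mn n) - 1) ∣ tn n ∧
    ¬ (3 : ℤ) ^ padicValNat 3 (Mn n) ∣ tn n := by
  obtain ⟨m, rfl⟩ : ∃ m, n = m + 1 := ⟨n - 1, by omega⟩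
  obtain ⟨j, hj⟩ := h
  have h1 : cthree_v (cthree_c m) + 1 = cthree_v (Mn (m + 1)) :=
    (cthree_cmp m).1 ⟨j, by rw [← hj]; ring⟩
  have hs := cthree_sum m
  change 1 ≤ cthree_v (Mn (m + 1)) ∧ (3 : ℤ) ^ (cthree_v (Mn (m + 1)) - 1) ∣ tn (m + 1) ∧
    ¬ (3 : ℤ) ^ cthree_v (Mn (m + 1)) ∣ tn (m + 1)
  refine ⟨by omega, ?_, ?_⟩
  · rw [cthree_tn]
    refine dvd_add ?_ ?_
    · exact dvd_trans (pow_dvd_pow 3 (by omega)) hs
    · refine (cthree_main m _).2 ?_
      omega
  · intro hd
    rw [cthree_tn] at hd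
    have h2 : (3 : ℤ) ^ cthree_v (Mn (m + 1)) ∣ ∑ k ∈ range m, cthree_t m k :=
      dvd_trans (pow_dvd_pow 3 (Nat.le_succ _)) hs
    have h3 := (Int.dvd_iff_dvd_of_dvd_add hd).1 h2
    have h4 := (cthree_main m _).1 h3
    omega

end Pool.Agent.H.MP_7425ae_nt
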