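import Pool.Agent.H.MP_7425ae_nt.CTwo
import Pool.Agent.H.MP_7425ae_nt.CThree

/-! Local to global. -/

set_option autoImplicit false

open Finset

namespace Pool.Agent.H.MP_7425ae_nt

private theorem cglob_pos (n : ℕ) (hn : 0 < n) : Mn n ≠ 0 := by
  unfold Mn
  exact Nat.mul_ne_zero (Nat.mul_ne_zero (by omega) (by omega)) (Nat.choose_pos (by omega)).ne'

/-- prime power divisors of `Mn n` divide `tn n`, away from `3` -/
private theorem cglob_pow (h5 : ∀ (p : ℕ) [Fact p.Prime], 5 ≤ p → ∀ n : ℕ, 0 < n →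
      (p : ℤ) ^ padicValNat p (Mn n) ∣ tn n) (n : ℕ) (hn : 2 ≤ n) (p k : ℕ) (hp : p.Prime)
    (h3 : p ≠ 3) (hk : p ^ k ∣ Mn n) : (p : ℤ) ^ k ∣ tn n := by
  have hp' : Fact p.Prime := ⟨hp⟩
  have h1 : k ≤ padicValNat p (Mn n) := (padicValNat_dvd_iff_le (cglob_pos n (by omega))).1 hk
  refine dvd_trans (pow_dvd_pow (p : ℤ) h1) ?_
  by_cases h2 : p = 2
  · subst h2
    exact_mod_cast c_two n hn
  · have h4 : 5 ≤ p := by
      have h6 := hp.two_le
      by_contra hcon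
      have h7 : p = 4 := by omega
      rw [h7] at hp
      norm_num at hp
    exact h5 p h4 n (by omega)

/-- local to global -/
theorem c_global (h5 : ∀ (p : ℕ) [Fact p.Prime], 5 ≤ p → ∀ n : ℕ, 0 < n →
      (p : ℤ) ^ padicValNat p (Mn n) ∣ tn n) (n : ℕ) (hn : 2 ≤ n) :
    ((¬ ∃ m : ℕ, 2 * n + 1 = 3 ^ m) →
      ∃ z : ℤ, (z : ℚ) =
        ((∑ k ∈ Finset.range n, ((342 * (k : ℤ) + 25) * (-(96 : ℤ) ^ 3) ^ (n - 1 - k) *
            (((6 * k).choose (3 * k) * (3 * k).choose k * (2 * k).choose k : ℕ) : ℤ)) : ℤ) : ℚ) /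
          ((2 * n * (2 * n + 1) * (2 * n).choose n : ℕ) : ℚ)) ∧
    ((∃ m : ℕ, 2 * n + 1 = 3 ^ m) →
      ∃ z : ℤ, (z : ℚ) = 3 *
        (((∑ k ∈ Finset.range n, ((342 * (k : ℤ) + 25) * (-(96 : ℤ) ^ 3) ^ (n - 1 - k) *
            (((6 * k).choose (3 * k) * (3 * k).choose k * (2 * k).choose k : ℕ) : ℤ)) : ℤ) : ℚ) /
          ((2 * n * (2 * n + 1) * (2 * n).choose n : ℕ) : ℚ)) ∧ ¬ (3 : ℤ) ∣ z) := by
  have hM := cglob_pos n (by omega)
  have hMQ : ((Mn n : ℕ) : ℚ) ≠ 0 := by exact_mod_cast hM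
  constructor
  · intro hne
    change ∃ z : ℤ, (z : ℚ) = ((tn n : ℤ) : ℚ) / ((Mn n : ℕ) : ℚ)
    have hdvd : ((Mn n : ℕ) : ℤ) ∣ tn n := by
      rw [Int.natCast_dvd, Nat.dvd_iff_prime_pow_dvd_dvd]
      intro p k hp hk
      have h1 : (p : ℤ) ^ k ∣ tn n := by
        by_cases h3 : p = 3
        · subst h3
          have hp' : Fact (Nat.Prime 3) := ⟨hp⟩
          have h2 : k ≤ padicValNat 3 (Mn n) := (padicValNat_dvd_iff_le hM).1 hk
          refine dvd_trans (pow_dvd_pow _ h2) ?_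
          exact_mod_cast c_three n hn hne
        · exact cglob_pow h5 n hn p k hp h3 hk
      have h4 : ((p ^ k : ℕ) : ℤ) ∣ tn n := by
        push_cast
        exact h1
      exact Int.natCast_dvd.1 h4
    obtain ⟨z, hz⟩ := hdvd
    refine ⟨z, ?_⟩
    rw [hz, eq_div_iff hMQ]
    push_cast
    ring
  · intro hex
    change ∃ z : ℤ, (z : ℚ) = 3 * (((tn n : ℤ) : ℚ) / ((Mn n : ℕ) : ℚ)) ∧ ¬ (3 : ℤ) ∣ z
    have hp3 : Fact (Nat.Prime 3) := ⟨by norm_num⟩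
    obtain ⟨w1, w2, w3⟩ := c_three_exc n hn hex
    have hdvd : ((Mn n : ℕ) : ℤ) ∣ 3 * tn n := by
      rw [Int.natCast_dvd, Nat.dvd_iff_prime_pow_dvd_dvd]
      intro p k hp hk
      have h1 : (p : ℤ) ^ k ∣ 3 * tn n := by
        by_cases h3 : p = 3
        · subst h3
          have h2 : k ≤ padicValNat 3 (Mn n) := (padicValNat_dvd_iff_le hM).1 hk
          refine dvd_trans (pow_dvd_pow _ h2) ?_
          obtain ⟨w, hw⟩ : ∃ w, padicValNat 3 (Mn n) = w + 1 := ⟨_, (Nat.sub_add_cancel w1).symm⟩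
          rw [hw, Nat.add_sub_cancel] at w2
          rw [hw, pow_succ, mul_comm]
          exact mul_dvd_mul (by norm_num) (by exact_mod_cast w2)
        · exact Dvd.dvd.mul_left (cglob_pow h5 n hn p k hp h3 hk) 3
      have h4 : ((p ^ k : ℕ) : ℤ) ∣ 3 * tn n := by
        push_cast
        exact h1
      exact Int.natCast_dvd.1 h4
    obtain ⟨z, hz⟩ := hdvd
    refine ⟨z, ?_, ?_⟩
    · have hz' : (3 : ℚ) * ((tn n : ℤ) : ℚ) = ((Mn n : ℕ) : ℚ) * (z : ℚ) := by exact_mod_cast hz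
      rw [← mul_div_assoc, eq_div_iff hMQ, hz']
      ring
    · rintro ⟨y, rfl⟩
      apply w3
      have h6 : tn n = ((Mn n : ℕ) : ℤ) * y := by
        have : (3 : ℤ) * tn n = 3 * (((Mn n : ℕ) : ℤ) * y) := by
          rw [hz]
          ring
        exact mul_left_cancel₀ (by norm_num) this
      rw [h6]
      refine Dvd.dvd.mul_right ?_ y
      exact_mod_cast (pow_padicValNat_dvd : 3 ^ padicValNat 3 (Mn n) ∣ Mn n)

end Pool.Agent.H.MP_7425ae_nt
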