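import Pool.Agent.H.MP_7425ae_nt.CDef

/-! Valuations of the denominators. -/

set_option autoImplicit false

open Finset

namespace Pool.Agent.H.MP_7425ae_nt

theorem mnval_fact (p : ℕ) [Fact p.Prime] (m r : ℕ) (h : r < p) :
    padicValNat p (p * m + r).factorial = m + padicValNat p m.factorial := by
  rw [padicValNat_factorial_mul_add m h, padicValNat_factorial_mul]
  omega

theorem mnval_choose (p : ℕ) [Fact p.Prime] (n : ℕ) :
    padicValNat p ((2 * n).choose n) + 2 * padicValNat p n.factorial =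
      padicValNat p (2 * n).factorial := by
  have h := Nat.choose_mul_factorial_mul_factorial (show n ≤ 2 * n by omega)
  have h1 : 2 * n - n = n := by omega
  rw [h1] at h
  have h2 : (2 * n).choose n ≠ 0 := (Nat.choose_pos (by omega)).ne'
  rw [← h, padicValNat.mul (mul_ne_zero h2 (Nat.factorial_ne_zero _)) (Nat.factorial_ne_zero _),
    padicValNat.mul h2 (Nat.factorial_ne_zero _)]
  ring

theorem mnval_low (p : ℕ) [Fact p.Prime] (n1 n0 : ℕ) (h : 2 * n0 < p) :
    padicValNat p ((2 * (p * n1 + n0)).choose (p * n1 + n0)) =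
      padicValNat p ((2 * n1).choose n1) := by
  have h1 := mnval_choose p (p * n1 + n0)
  have h2 := mnval_choose p n1
  rw [mnval_fact p n1 n0 (by omega), show 2 * (p * n1 + n0) = p * (2 * n1) + 2 * n0 by ring,
    mnval_fact p (2 * n1) (2 * n0) h] at h1
  rw [show 2 * (p * n1 + n0) = p * (2 * n1) + 2 * n0 by ring]
  omega

theorem mnval_high (p : ℕ) [Fact p.Prime] (n1 n0 : ℕ) (h : p ≤ 2 * n0) (h' : n0 < p) :
    padicValNat p ((2 * (p * n1 + n0)).choose (p * n1 + n0)) =
      1 + padicValNat p (2 * n1 + 1) + padicValNat p ((2 * n1).choose n1) := by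
  have h1 := mnval_choose p (p * n1 + n0)
  have h2 := mnval_choose p n1
  have h3 : 2 * (p * n1 + n0) = p * (2 * n1 + 1) + (2 * n0 - p) := by
    have : 2 * (p * n1 + n0) = p * (2 * n1) + 2 * n0 := by ring
    rw [this, mul_add]
    omega
  have h4 : padicValNat p (2 * n1 + 1).factorial =
      padicValNat p (2 * n1 + 1) + padicValNat p (2 * n1).factorial := by
    rw [Nat.factorial_succ, padicValNat.mul (by omega) (Nat.factorial_ne_zero _)]
  rw [mnval_fact p n1 n0 h', h3, mnval_fact p (2 * n1 + 1) (2 * n0 - p) (by omega)] at h1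
  rw [h3]
  omega

theorem mnval_nd (p : ℕ) (m r : ℕ) (h : 0 < r) (h' : r < p) :
    padicValNat p (p * m + r) = 0 := by
  apply padicValNat.eq_zero_of_not_dvd
  intro hd
  have := (Nat.dvd_add_right (dvd_mul_right p m)).mp hd
  exact absurd (Nat.le_of_dvd h this) (by omega)

theorem mnval_two (p : ℕ) (hp : 5 ≤ p) : padicValNat p 2 = 0 := by
  apply padicValNat.eq_zero_of_not_dvd
  intro hd
  exact absurd (Nat.le_of_dvd (by omega) hd) (by omega)

theorem mnval_M (p : ℕ) [Fact p.Prime] (hp : 5 ≤ p) (n : ℕ) (h : 0 < n) :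
    padicValNat p (Mn n) = padicValNat p n + padicValNat p (2 * n + 1) +
      padicValNat p ((2 * n).choose n) := by
  have h2 : (2 * n).choose n ≠ 0 := (Nat.choose_pos (by omega)).ne'
  unfold Mn
  rw [padicValNat.mul (by positivity) h2, padicValNat.mul (by positivity) (by omega),
    padicValNat.mul (by omega) (by omega), mnval_two p hp]
  ring

/-- the `p`-adic valuation of the denominators: `n = p n1 + n0`. -/
theorem Mn_val_zero (p : ℕ) [Fact p.Prime] (hp : 5 ≤ p) (n1 : ℕ) (h : 0 < n1) :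
    padicValNat p (Mn (p * n1)) = 1 + padicValNat p (n1 * (2 * n1).choose n1) := by
  have hp0 : p ≠ 0 := by omega
  have h2 : (2 * n1).choose n1 ≠ 0 := (Nat.choose_pos (by omega)).ne'
  have h3 := mnval_low p n1 0 (by omega)
  rw [add_zero] at h3
  rw [mnval_M p hp _ (by positivity), h3, padicValNat.mul hp0 (by omega),
    padicValNat.mul (by omega) h2, padicValNat_self,
    show 2 * (p * n1) + 1 = p * (2 * n1) + 1 by ring,
    mnval_nd p (2 * n1) 1 (by omega) (by omega)]
  ring

theorem Mn_val_low (p : ℕ) [Fact p.Prime] (hp : 5 ≤ p) (n1 n0 : ℕ) (h : 0 < n0)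
    (h' : n0 < (p - 1) / 2) :
    padicValNat p (Mn (p * n1 + n0)) = padicValNat p ((2 * n1).choose n1) := by
  rw [mnval_M p hp _ (by omega), mnval_low p n1 n0 (by omega), mnval_nd p n1 n0 h (by omega),
    show 2 * (p * n1 + n0) + 1 = p * (2 * n1) + (2 * n0 + 1) by ring,
    mnval_nd p (2 * n1) (2 * n0 + 1) (by omega) (by omega)]
  ring

theorem Mn_val_high (p : ℕ) [Fact p.Prime] (hp : 5 ≤ p) (n1 n0 : ℕ) (h : (p - 1) / 2 ≤ n0)
    (h' : n0 < p) :
    padicValNat p (Mn (p * n1 + n0))
      = 1 + padicValNat p ((n1 + 1) * (2 * (n1 + 1)).choose (n1 + 1)) := by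
  have hodd : p % 2 = 1 := by
    rcases (Fact.out : p.Prime).eq_two_or_odd with h1 | h1
    · omega
    · exact h1
  have h2 : (2 * n1).choose n1 ≠ 0 := (Nat.choose_pos (by omega)).ne'
  have hR : padicValNat p ((n1 + 1) * (2 * (n1 + 1)).choose (n1 + 1)) =
      padicValNat p (2 * n1 + 1) + padicValNat p ((2 * n1).choose n1) := by
    have h3 := Nat.succ_mul_centralBinom_succ n1
    rw [Nat.centralBinom_eq_two_mul_choose, Nat.centralBinom_eq_two_mul_choose] at h3
    rw [h3, padicValNat.mul (by omega) h2, padicValNat.mul (by omega) (by omega),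
      mnval_two p hp]
    ring
  rw [mnval_M p hp _ (by omega), hR, mnval_nd p n1 n0 (by omega) h']
  by_cases hc : n0 = (p - 1) / 2
  · rw [mnval_low p n1 n0 (by omega)]
    have h4 : 2 * (p * n1 + n0) + 1 = p * (2 * n1 + 1) := by
      have : 2 * (p * n1 + n0) + 1 = p * (2 * n1) + (2 * n0 + 1) := by ring
      rw [this, mul_add]
      omega
    rw [h4, padicValNat.mul (by omega) (by omega), padicValNat_self]
    ring
  · rw [mnval_high p n1 n0 (by omega) h']
    have h4 : 2 * (p * n1 + n0) + 1 = p * (2 * n1 + 1) + (2 * n0 + 1 - p) := by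
      have : 2 * (p * n1 + n0) + 1 = p * (2 * n1) + (2 * n0 + 1) := by ring
      rw [this, mul_add]
      omega
    rw [h4, mnval_nd p (2 * n1 + 1) (2 * n0 + 1 - p) (by omega) (by omega)]
    ring

end Pool.Agent.H.MP_7425ae_nt
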