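import Pool.Agent.H.MP_7425ae_nt.CVal
import Pool.Agent.H.MP_7425ae_nt.MnVal

/-! The induction for integrality at `p >= 5`. -/

set_option autoImplicit false

open Finset

namespace Pool.Agent.H.MP_7425ae_nt

theorem cind_up (e : ℤ) (m i : ℕ) (h0 : e ∣ tn m) (h : ∀ l < i, e ∣ c3 (m + l)) :
    e ∣ tn (m + i) := by
  induction i with
  | zero => simpa using h0
  | succ i ih =>
    rw [← Nat.add_assoc, tn_succ]
    exact dvd_add (Dvd.dvd.mul_left (ih fun l hl => h l (by omega)) _)
      (Dvd.dvd.mul_left (h i (by omega)) _)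

theorem cind_down (e : ℤ) (he : IsCoprime e (-(96 : ℤ) ^ 3)) (m i : ℕ) (h0 : e ∣ tn (m + i))
    (h : ∀ l < i, e ∣ c3 (m + l)) : e ∣ tn m := by
  induction i with
  | zero => simpa using h0
  | succ i ih =>
    rw [← Nat.add_assoc, tn_succ] at h0
    refine ih ?_ fun l hl => h l (by omega)
    have h1 : e ∣ (-(96 : ℤ) ^ 3) * tn (m + i) := by
      have h2 : e ∣ (342 * ((m + i : ℕ) : ℤ) + 25) * c3 (m + i) :=
        Dvd.dvd.mul_left (h i (by omega)) _
      exact (dvd_add_left h2).1 h0
    exact he.dvd_of_dvd_mul_left h1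

theorem cind_c3_ne (n : ℕ) : c3 n ≠ 0 := by
  unfold c3
  rw [Ne, Nat.cast_eq_zero]
  have h1 : (6 * n).choose (3 * n) ≠ 0 := (Nat.choose_pos (by omega)).ne'
  have h2 : (3 * n).choose n ≠ 0 := (Nat.choose_pos (by omega)).ne'
  have h3 : (2 * n).choose n ≠ 0 := (Nat.choose_pos (by omega)).ne'
  exact mul_ne_zero (mul_ne_zero h1 h2) h3

theorem cind_val_le (p : ℕ) [Fact p.Prime] (n : ℕ) :
    padicValNat p ((2 * n + 1) * (2 * n).choose n) ≤ padicValNat p (c3 n).natAbs := by
  have h1 : ((2 * n + 1) * (2 * n).choose n) ∣ (c3 n).natAbs := by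
    have := c3_dvd n
    exact Int.natCast_dvd.1 this
  exact (padicValNat_dvd_iff_le (Int.natAbs_ne_zero.2 (cind_c3_ne n))).1
    ((pow_padicValNat_dvd).trans h1)

theorem cind_coprime (p : ℕ) [Fact p.Prime] (hp : 5 ≤ p) (E : ℕ) :
    IsCoprime ((p : ℤ) ^ E) (-(96 : ℤ) ^ 3) := by
  have hpp : p.Prime := Fact.out
  have h1 : Nat.Coprime p 96 := by
    rw [Nat.Prime.coprime_iff_not_dvd hpp]
    intro h
    have h2 : (96 : ℕ) = 2 ^ 5 * 3 := by norm_num
    rw [h2, Nat.Prime.dvd_mul hpp] at h
    rcases h with h | h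
    · have := Nat.le_of_dvd (by norm_num) (hpp.dvd_of_dvd_pow h)
      omega
    · have := Nat.le_of_dvd (by norm_num) h
      omega
  have h3 : IsCoprime (p : ℤ) (96 : ℤ) := by
    have := Nat.isCoprime_iff_coprime.2 h1
    simpa using this
  have h4 : IsCoprime ((p : ℤ) ^ E) ((96 : ℤ) ^ 3) := h3.pow
  exact h4.neg_right

/-- the induction: integrality at `p >= 5` follows from the step `N -> pN`. -/
theorem c_ind (p : ℕ) [Fact p.Prime] (hp : 5 ≤ p)
    (H : ∀ N : ℕ, 0 < N → (p : ℤ) ^ padicValNat p (Mn N) ∣ tn N →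
      (p : ℤ) ^ (1 + padicValNat p (N * (2 * N).choose N)) ∣ tn (p * N)) :
    ∀ n : ℕ, 0 < n → (p : ℤ) ^ padicValNat p (Mn n) ∣ tn n := by
  intro n
  induction n using Nat.strong_induction_on with
  | _ n IH =>
    intro hn
    have hp0 : 0 < p := by omega
    obtain ⟨n1, n0, hn0, hdec⟩ : ∃ n1 n0, n0 < p ∧ n = p * n1 + n0 :=
      ⟨n / p, n % p, Nat.mod_lt _ hp0, (Nat.div_add_mod n p).symm⟩
    have hmul : 5 * n1 ≤ p * n1 := Nat.mul_le_mul_right _ hp
    rcases Nat.eq_zero_or_pos n0 with h0 | h0
    · subst h0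
      rw [Nat.add_zero] at hdec
      have h1 : 0 < n1 := by
        rcases Nat.eq_zero_or_pos n1 with h | h
        · subst h
          simp at hdec
          omega
        · exact h
      have h2 := H n1 h1 (IH n1 (by omega) h1)
      rw [hdec, Mn_val_zero p hp n1 h1]
      exact h2
    · rcases Nat.lt_or_ge n0 ((p - 1) / 2) with hlow | hhigh
      · rw [hdec, Mn_val_low p hp n1 n0 h0 hlow]
        have hC : (2 * n1).choose n1 ≠ 0 := (Nat.choose_pos (by omega)).ne'
        refine cind_up _ (p * n1) n0 ?_ ?_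
        · rcases Nat.eq_zero_or_pos n1 with h1 | h1
          · subst h1
            simp [tn]
          · have h2 := H n1 h1 (IH n1 (by omega) h1)
            refine (pow_dvd_pow _ ?_).trans h2
            rw [padicValNat.mul (by omega) hC]
            omega
        · intro l hl
          refine (pow_dvd_pow _ ?_).trans (c3_val_ge p hp n1 l (by omega))
          refine le_trans ?_ (cind_val_le p n1)
          rw [padicValNat.mul (by omega) hC]
          omega
      · rw [hdec, Mn_val_high p hp n1 n0 hhigh hn0]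
        have hlt : n1 + 1 < n := by
          rcases Nat.eq_zero_or_pos n1 with h1 | h1
          · subst h1
            omega
          · omega
        refine cind_down _ (cind_coprime p hp _) (p * n1 + n0) (p - n0) ?_ ?_
        · have h2 := H (n1 + 1) (by omega) (IH (n1 + 1) hlt (by omega))
          have h3 : p * n1 + n0 + (p - n0) = p * (n1 + 1) := by
            rw [mul_add, mul_one]
            omega
          rw [h3]
          exact h2
        · intro l hl
          have h3 := c3_val_gt p hp n1 (n0 + l) (by omega) (by omega)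
          rw [← Nat.add_assoc] at h3
          refine (pow_dvd_pow _ ?_).trans h3
          have h4 := cind_val_le p n1
          have hC : (2 * n1).choose n1 ≠ 0 := (Nat.choose_pos (by omega)).ne'
          have h5 := Nat.succ_mul_centralBinom_succ n1
          rw [Nat.centralBinom_eq_two_mul_choose, Nat.centralBinom_eq_two_mul_choose] at h5
          rw [h5, mul_assoc, padicValNat.mul (by omega) (mul_ne_zero (by omega) hC),
            mnval_two p hp]
          omega

end Pool.Agent.H.MP_7425ae_nt
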