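import Pool.Agent.H.MP_7425ae_nt.CMPoint

/-! The matrix of the isogeny at the CM point. -/

set_option autoImplicit false

open Polynomial

namespace Pool.Agent.H.MP_7425ae_nt

variable {R : Type} [CommRing R]

/-- entry (1,1): polynomial identity modulo `5b^2 - b + 1` -/
theorem cmbm_r11 (b : R) (hb : 5 * b ^ 2 - b + 1 = 0) :
    5 * E2 (-b ^ 3) * D1 (-b ^ 3) * D2 (-b ^ 3) * E1 (-b ^ 3) ^ 2 =
      5 * b ^ 2 * (D2 (-b ^ 3) ^ 2 * E1 (-b ^ 3) ^ 3) := by
  unfold D1 D2 E1 E2
  linear_combination (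
      (5) + (5)*b + (-25)*b^2 + (3630)*b^3 + (3755)*b^4 + (-21795)*b^5 + (-233475)*b^6 +
      (-124500)*b^7 + (-2323300)*b^8 + (-335504600)*b^9 + (-323888100)*b^10 + (1032497900)*b^11 +
      (31518760250)*b^12 + (26356270750)*b^13 + (-68879358750)*b^14 + (-1103135887500)*b^15 +
      (-758739093750)*b^16 + (1784635468750)*b^17 + (18150294531250)*b^18 +
      (9227117187500)*b^19 + (-19748320312500)*b^20 + (-143699609375000)*b^21 +
      (-44958007812500)*b^22 + (85151367187500)*b^23 + (483160400390625)*b^24 +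
      (57403564453125)*b^25 + (-75836181640625)*b^26 + (-398254394531250)*b^27 +
      (-19073486328125)*b^28 + (19073486328125)*b^29 + (95367431640625)*b^30) * hb

/-- entry (2,2) -/
theorem cmbm_r22 (b : R) (hb : 5 * b ^ 2 - b + 1 = 0) :
    25 * E2 (-b ^ 3) ^ 2 * D1 (-b ^ 3) ^ 2 * E1 (-b ^ 3) =
      25 * b ^ 4 * (D2 (-b ^ 3) ^ 2 * E1 (-b ^ 3) ^ 3) := by
  unfold D1 D2 E1 E2
  linear_combination (
      (25) + (25)*b + (-100)*b^2 + (-425)*b^3 + (50)*b^4 + (2175)*b^5 + (-4919600)*b^6 +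
      (-4967475)*b^7 + (19630525)*b^8 + (1099468100)*b^9 + (984484600)*b^10 +
      (-4512855900)*b^11 + (-63771763250)*b^12 + (-42813168750)*b^13 + (276045647500)*b^14 +
      (1605853366250)*b^15 + (537415987500)*b^16 + (-7491850843750)*b^17 +
      (-20490879062500)*b^18 + (2106850781250)*b^19 + (104561246093750)*b^20 +
      (134430351562500)*b^21 + (-79495703125000)*b^22 + (-751647460937500)*b^23 +
      (-401761474609375)*b^24 + (414532470703125)*b^25 + (2423339843750000)*b^26 +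
      (320892333984375)*b^27 + (-382995605468750)*b^28 + (-1987457275390625)*b^29 +
      (-76293945312500)*b^30 + (95367431640625)*b^31 + (476837158203125)*b^32) * hb

/-- relation for the entry (0,1) -/
theorem cmbm_r01 (b : R) (hb : 5 * b ^ 2 - b + 1 = 0) :
    342 * (120 * (-b ^ 3) * (1 + 26 * (-b ^ 3) + 125 * (-b ^ 3) ^ 2) * D2 (-b ^ 3) *
        E1 (-b ^ 3) ^ 2) =
      25 * (5 * b ^ 2 - 1) * (D2 (-b ^ 3) ^ 2 * E1 (-b ^ 3) ^ 3) := by
  unfold D2 E1
  linear_combination (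
      (25) + (25)*b + (-225)*b^2 + (-4390)*b^3 + (-3265)*b^4 + (-166315)*b^5 + (-22881675)*b^6 +
      (-22050100)*b^7 + (8203900)*b^8 + (-5791926200)*b^9 + (-5832945700)*b^10 +
      (15098260300)*b^11 + (680963165250)*b^12 + (605471863750)*b^13 + (-1240389668750)*b^14 +
      (-25955371312500)*b^15 + (-19753422968750)*b^16 + (35715811718750)*b^17 +
      (448756675781250)*b^18 + (270177617187500)*b^19 + (-429204882812500)*b^20 +
      (-3636302734375000)*b^21 + (-1490278320312500)*b^22 + (1981518554687500)*b^23 +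
      (12247833251953125)*b^24 + (2340240478515625)*b^25 + (-1834869384765625)*b^26 +
      (-10032653808593750)*b^27 + (-858306884765625)*b^28 + (476837158203125)*b^29 +
      (2384185791015625)*b^30) * hb

/-- relation for the entry (1,2) -/
theorem cmbm_r12 (b : R) (hb : 5 * b ^ 2 - b + 1 = 0) :
    27 * (-b ^ 3 * D1 (-b ^ 3) * N12 (-b ^ 3)) =
      2 * (25 * b ^ 4 - 5 * b ^ 2) * (D2 (-b ^ 3) ^ 2 * E1 (-b ^ 3) ^ 3) := by
  unfold D1 D2 E1 N12
  linear_combination (
      (10)*b^2 + (-132830)*b^3 + (-132930)*b^4 + (546020)*b^5 + (25873550)*b^6 + (23069450)*b^7 +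
      (-99565950)*b^8 + (1988092400)*b^9 + (2452260400)*b^10 + (-6845927600)*b^11 +
      (-175713472000)*b^12 + (-144695204000)*b^13 + (609155812500)*b^14 + (5286731882500)*b^15 +
      (2864534537500)*b^16 + (-17624515125000)*b^17 + (-76994325312500)*b^18 +
      (-18594798437500)*b^19 + (242824757812500)*b^20 + (556954062500000)*b^21 +
      (-39409375000000)*b^22 + (-1647402343750000)*b^23 + (-1802832031250000)*b^24 +
      (550292968750000)*b^25 + (4999328613281250)*b^26 + (1437072753906250)*b^27 +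
      (-733947753906250)*b^28 + (-4013061523437500)*b^29 + (-343322753906250)*b^30 +
      (190734863281250)*b^31 + (953674316406250)*b^32) * hb

/-- relation for the entry (0,2) -/
theorem cmbm_r02 (b : R) (hb : 5 * b ^ 2 - b + 1 = 0) :
    350892 * (-b ^ 3 * N02 (-b ^ 3)) =
      985 * (25 * b ^ 4 - 1) * (D2 (-b ^ 3) ^ 2 * E1 (-b ^ 3) ^ 3) -
      25992 * (120 * (-b ^ 3) * (1 + 26 * (-b ^ 3) + 125 * (-b ^ 3) ^ 2) * D2 (-b ^ 3) *
        E1 (-b ^ 3) ^ 2) := by
  unfold D2 E1 N02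
  linear_combination (
      (985) + (985)*b + (-3940)*b^2 + (-43777145)*b^3 + (-43782070)*b^4 + (175103655)*b^5 +
      (15819566800)*b^6 + (14907603525)*b^7 + (-64190230475)*b^8 + (590419590500)*b^9 +
      (894792331000)*b^10 + (-2057305621500)*b^11 + (-50424568351250)*b^12 +
      (-41719639968750)*b^13 + (210403201787500)*b^14 + (1424787367006250)*b^15 +
      (679885353937500)*b^16 + (-6444051481093750)*b^17 + (-19491077251562500)*b^18 +
      (-1909421355468750)*b^19 + (95545964902343750)*b^20 + (131028646289062500)*b^21 +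
      (-42454205078125000)*b^22 + (-697597436523437500)*b^23 + (-449925628662109375)*b^24 +
      (140247344970703125)*b^25 + (2389875488281250000)*b^26 + (312471771240234375)*b^27 +
      (-395286560058593750)*b^28 + (-1957645416259765625)*b^29 + (-75149536132812500)*b^30 +
      (93936920166015625)*b^31 + (469684600830078125)*b^32) * hb

variable {β : R}

/-- the matrix of the isogeny at the CM point: upper triangular with diagonal `1, r, r^2`,
`r = 5/beta^2 = (1-beta)/beta`; `(25, 342, 0)` is an eigenvector for `r` and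
`(985/350892, 2/27, 1)` one for `r^2`. -/
theorem cm_Bm (hβ : β ^ 2 = β - 5) (u : IsUnit β) (u2 : IsUnit (2 : R)) (u3 : IsUnit (3 : R))
    (u19 : IsUnit (19 : R)) :
    ∃ b01 b02 b12 : R, Bm (h0 β) = !![1, b01, b02; 0, 5 * Ring.inverse β ^ 2, b12;
        0, 0, (5 * Ring.inverse β ^ 2) ^ 2] ∧
      342 * b01 = 25 * (5 * Ring.inverse β ^ 2 - 1) ∧
      27 * b12 = 2 * ((5 * Ring.inverse β ^ 2) ^ 2 - 5 * Ring.inverse β ^ 2) ∧
      350892 * b02 = 985 * ((5 * Ring.inverse β ^ 2) ^ 2 - 1) - 25992 * b01 := by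
  have U := cm_U5 hβ u u2 u3 u19
  have e := Ring.mul_inverse_cancel β u
  unfold h0 at U ⊢
  unfold Bm Bnum
  generalize Ring.inverse β = b at *
  have hb : 5 * b ^ 2 - b + 1 = 0 := by
    linear_combination b ^ 2 * hβ + (-(b * β) - 1 + b) * e
  have hI := Ring.inverse_mul_cancel (D2 (-b ^ 3) ^ 2 * E1 (-b ^ 3) ^ 3)
    ((U.d2.pow 2).mul (U.e1.pow 3))
  generalize Ring.inverse (D2 (-b ^ 3) ^ 2 * E1 (-b ^ 3) ^ 3) = I at *
  refine ⟨I * (120 * (-b ^ 3) * (1 + 26 * (-b ^ 3) + 125 * (-b ^ 3) ^ 2) * D2 (-b ^ 3) *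
    E1 (-b ^ 3) ^ 2), I * (-b ^ 3 * N02 (-b ^ 3)), I * (-b ^ 3 * D1 (-b ^ 3) * N12 (-b ^ 3)),
    ?_, ?_, ?_, ?_⟩
  · have e11 : I * (5 * E2 (-b ^ 3) * D1 (-b ^ 3) * D2 (-b ^ 3) * E1 (-b ^ 3) ^ 2) =
        5 * b ^ 2 := by
      linear_combination I * cmbm_r11 b hb + 5 * b ^ 2 * hI
    have e22 : I * (25 * E2 (-b ^ 3) ^ 2 * D1 (-b ^ 3) ^ 2 * E1 (-b ^ 3)) =
        (5 * b ^ 2) ^ 2 := by
      linear_combination I * cmbm_r22 b hb + 25 * b ^ 4 * hI
    ext i j
    fin_cases i <;> fin_cases j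
    · exact hI
    · rfl
    · rfl
    · exact mul_zero I
    · exact e11
    · rfl
    · exact mul_zero I
    · exact mul_zero I
    · exact e22
  · linear_combination I * cmbm_r01 b hb + 25 * (5 * b ^ 2 - 1) * hI
  · linear_combination I * cmbm_r12 b hb + 2 * (25 * b ^ 4 - 5 * b ^ 2) * hI
  · linear_combination I * cmbm_r02 b hb + 985 * (25 * b ^ 4 - 1) * hI

end Pool.Agent.H.MP_7425ae_nt
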