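import Pool.Agent.H.MP_7425ae_nt.CMPoint

/-! `kappa` and `z` at the CM point. -/

set_option autoImplicit false

open Polynomial

namespace Pool.Agent.H.MP_7425ae_nt

variable {R : Type} [CommRing R]

variable {β : R}

/-- `kappa` at the CM point -/
theorem cm_kappa {p : ℕ} [Fact p.Prime] (hp : 5 ≤ p) {β' : R} (hβ : β ^ 2 = β - 5)
    (u : IsUnit β) (hβ' : β' ^ 2 = β' - 5) (u' : IsUnit β') (u2 : IsUnit (2 : R))
    (u3 : IsUnit (3 : R)) (hn : IsNilpotent (β' - β ^ p)) :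
    IsKappa p (h0 β) (h0 β') (β' ^ 2 * Ring.inverse β ^ 2) := by
  have hb : β * Ring.inverse β = 1 := Ring.mul_inverse_cancel β u
  have hb' : β' * Ring.inverse β' = 1 := Ring.mul_inverse_cancel β' u'
  have d1 := cm_D1 hβ u
  have d2 := cm_D2 hβ u
  have d1' := cm_D1 hβ' u'
  have d2' := cm_D2 hβ' u'
  set b := Ring.inverse β with hbdef
  set b' := Ring.inverse β' with hbdef'
  have e1 : D1 (h0 β) = 96 * b := by
    linear_combination b * d1 - D1 (h0 β) * hb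
  have e1' : D1 (h0 β') = 96 * b' := by
    linear_combination b' * d1' - D1 (h0 β') * hb'
  have hb5 : β ^ 5 * b ^ 5 = 1 := by rw [← mul_pow, hb, one_pow]
  have hb5' : β' ^ 5 * b' ^ 5 = 1 := by rw [← mul_pow, hb', one_pow]
  have e2 : D2 (h0 β) = 96 * b ^ 5 := by
    linear_combination b ^ 5 * d2 - D2 (h0 β) * hb5
  have e2' : D2 (h0 β') = 96 * b' ^ 5 := by
    linear_combination b' ^ 5 * d2' - D2 (h0 β') * hb5'
  have hodd : ¬ 2 ∣ p := by
    intro h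
    have := (Nat.prime_dvd_prime_iff_eq Nat.prime_two (Fact.out : p.Prime)).1 h
    omega
  obtain ⟨k, hk⟩ : ∃ k, p = 2 * k + 1 := ⟨p / 2, by omega⟩
  constructor
  · rw [e1, e2, e1', e2']
    have hb4' : β' ^ 4 * b' ^ 4 = 1 := by rw [← mul_pow, hb', one_pow]
    linear_combination (96 * 96 * b ^ 5 * b') * hb4'
  · have u96 : IsUnit (96 : R) := by
      have : (96 : R) = 2 ^ 5 * 3 := by norm_num
      rw [this]
      exact (u2.pow 5).mul u3
    have ub : IsUnit b := IsUnit.of_mul_eq_one_right β hb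
    have uD : IsUnit (D2 (h0 β)) := by
      rw [e2]
      exact u96.mul (ub.pow 5)
    have hq : D1 (h0 β) * Ring.inverse (D2 (h0 β)) = β ^ 4 := by
      have h1 : D1 (h0 β) = β ^ 4 * D2 (h0 β) := by
        rw [e1, e2]
        have hb4 : β ^ 4 * b ^ 4 = 1 := by rw [← mul_pow, hb, one_pow]
        linear_combination (-96 * b) * hb4
      rw [h1, mul_assoc, Ring.mul_inverse_cancel _ uD, mul_one]
    rw [hq]
    have hk2 : (p - 1) / 2 = k := by omega
    rw [hk2, ← pow_mul]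
    have h2 : β' ^ 2 * b ^ 2 - β ^ (4 * k) = b ^ 2 * (β' + β ^ p) * (β' - β ^ p) := by
      have hb2 : β ^ 2 * b ^ 2 = 1 := by rw [← mul_pow, hb, one_pow]
      have hp2 : (β ^ p) ^ 2 = β ^ 2 * β ^ (4 * k) := by
        rw [hk, ← pow_mul, ← pow_add]
        congr 1
        ring
      linear_combination b ^ 2 * hp2 + β ^ (4 * k) * hb2
    rw [h2]
    exact (Commute.all _ _).isNilpotent_mul_left hn

/-- the parameter `z` with `h₀(β') = h₀(β)^p (1 + rho z h₀(β))` -/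
theorem cm_z {p : ℕ} [Fact p.Prime] (rho : R) (hr : rho ∣ (p : R)) {β' : R} (u : IsUnit β)
    (u' : IsUnit β') (hF : ∃ e : R, β' = β ^ p + rho * e) :
    ∃ z : R, h0 β' = gf p rho (h0 β) z := by
  have hb : β * Ring.inverse β = 1 := Ring.mul_inverse_cancel β u
  have hb' : β' * Ring.inverse β' = 1 := Ring.mul_inverse_cancel β' u'
  obtain ⟨e, he⟩ := hF
  obtain ⟨s, hs⟩ := hr
  have hsign : ∃ t : R, (-1 : R) ^ p = -1 + rho * t := by
    rcases (Fact.out : p.Prime).eq_two_or_odd' with h2 | h2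
    · refine ⟨s, ?_⟩
      rw [← hs, h2]
      norm_num
    · exact ⟨0, by rw [h2.neg_one_pow]; ring⟩
  obtain ⟨t, ht⟩ := hsign
  unfold h0 gf
  set b := Ring.inverse β with hbdef
  set b' := Ring.inverse β' with hbdef'
  have h1 : (-b ^ 3) ^ p = (-1 + rho * t) * (b ^ p) ^ 3 := by
    rw [← ht, neg_pow, ← pow_mul, ← pow_mul, mul_comm 3 p]
  have hbp : (β ^ p) ^ 3 * (b ^ p) ^ 3 = 1 := by
    rw [← mul_pow, ← mul_pow, hb, one_pow, one_pow]
  have hb3' : β' ^ 3 * b' ^ 3 = 1 := by rw [← mul_pow, hb', one_pow]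
  have h3 : β' ^ 3 = (β ^ p) ^ 3 +
      rho * (e * (3 * (β ^ p) ^ 2 + 3 * β ^ p * (rho * e) + (rho * e) ^ 2)) := by
    rw [he]
    ring
  set g : R := e * (3 * (β ^ p) ^ 2 + 3 * β ^ p * (rho * e) + (rho * e) ^ 2) with hg
  have h4 : -b' ^ 3 = (-b ^ 3) ^ p + rho * (b' ^ 3 * (b ^ p) ^ 3 * g - t * (b ^ p) ^ 3) := by
    rw [h1]
    linear_combination (b' ^ 3 * (b ^ p) ^ 3) * h3 + b' ^ 3 * hbp - (b ^ p) ^ 3 * hb3'
  have hw : (-b ^ 3) * (-β ^ 3) = 1 := by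
    have : β ^ 3 * b ^ 3 = 1 := by rw [← mul_pow, hb, one_pow]
    linear_combination this
  refine ⟨(b' ^ 3 * (b ^ p) ^ 3 * g - t * (b ^ p) ^ 3) * (-β ^ 3) ^ (p + 1), ?_⟩
  rw [h4]
  have hw2 : (-b ^ 3) ^ (p + 1) * (-β ^ 3) ^ (p + 1) = 1 := by
    rw [← mul_pow, hw, one_pow]
  rw [pow_succ (-b ^ 3) p] at hw2
  linear_combination (-rho * (b' ^ 3 * (b ^ p) ^ 3 * g - t * (b ^ p) ^ 3)) * hw2

end Pool.Agent.H.MP_7425ae_nt
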