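import Pool.Agent.H.MP_7425ae_nt.UB
import Pool.Agent.H.MP_7425ae_nt.CMz

/-! The commutation at the CM point. -/

set_option autoImplicit false

open Polynomial

namespace Pool.Agent.H.MP_7425ae_nt

theorem cmcomm_eq {R : Type} [CommRing R] {m x y : R} (hx : m * x = 1) (hy : m * y = 1) :
    x = y := by
  calc x = x * (m * y) := by rw [hy, mul_one]
    _ = (m * x) * y := by ring
    _ = y := by rw [hx, one_mul]

/-- `M0 B(h₀(β)) = (β'^2/β^2) B(h₀(β')) M0` -/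
theorem cm_comm {p : ℕ} [Fact p.Prime] (hp : 5 ≤ p) {W : Type} [CommRing W] {S : Sys W}
    (hS : S.Good p 3 a3 c3) (s : ℕ) (R : Type) [CommRing R] (f : W →+* R)
    (hs : (p : R) ^ s = 0) (β β' : R) (hβ : β ^ 2 = β - 5) (hβ' : β' ^ 2 = β' - 5)
    (u : IsUnit β) (u' : IsUnit β') (u2 : IsUnit (2 : R)) (u3 : IsUnit (3 : R))
    (u19 : IsUnit (19 : R)) (hF : ∃ e : R, β' = β ^ p + f S.rho * e)
    (x0 t0 : R) (hx0 : (-884736) * x0 = 1) (ht0 : (1 + f S.rho * t0) * x0 = x0 ^ p) :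
    Mmat p 3 a3 (S.dat s f) x0 x0 t0 * Bm (h0 β)
      = (β' ^ 2 * Ring.inverse β ^ 2) • (Bm (h0 β') * Mmat p 3 a3 (S.dat s f) x0 x0 t0) := by
  have hok := hS.ok s R f hs
  obtain ⟨z, hz⟩ := cm_z (f S.rho) hok.rho_dvd u u' hF
  have hn : IsNilpotent (β' - β ^ p) := by
    obtain ⟨e, he⟩ := hF
    rw [he, add_sub_cancel_left]
    exact (Commute.all _ _).isNilpotent_mul_right hok.rho_nilp
  have hk := cm_kappa hp hβ u hβ' u' u2 u3 hn
  have e1 : xf (h0 β) = x0 := cmcomm_eq (cm_xf hβ u u2 u3) hx0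
  have e2 : xg (h0 β) = x0 := cmcomm_eq (cm_xg hβ u u2 u3) hx0
  have e3 : xf (h0 β') = x0 := cmcomm_eq (cm_xf hβ' u' u2 u3) hx0
  have e4 : xg (h0 β') = x0 := cmcomm_eq (cm_xg hβ' u' u2 u3) hx0
  rw [hz] at hk e3 e4
  have h := UB hp hS s R f hs (h0 β) z (cm_h0_unit u) (cm_U5 hβ u u2 u3 u19) t0 t0
    (β' ^ 2 * Ring.inverse β ^ 2) (by rw [e3, e1]; exact ht0) (by rw [e4, e2]; exact ht0) hk
  rw [e1, e2, e3, e4, ← hz] at h
  exact h

end Pool.Agent.H.MP_7425ae_nt
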