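import Pool.Agent.H.MP_7425ae_nt.CMComm

/-! Change of level. -/

set_option autoImplicit false

open Polynomial

namespace Pool.Agent.H.MP_7425ae_nt

theorem cmlev_unit {p : ℕ} [Fact p.Prime] (s m : ℕ) (hm : ¬ p ∣ m) :
    IsUnit ((m : ℕ) : ZMod (p ^ s)) := by
  have hp : p.Prime := Fact.out
  have h1 : Nat.Coprime m (p ^ s) := ((hp.coprime_iff_not_dvd.2 hm).symm).pow_right s
  exact (ZMod.isUnit_iff_coprime m (p ^ s)).2 h1

/-- the element `t0` exists at every level -/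
theorem exists_t0 {p : ℕ} [Fact p.Prime] (hp : 5 ≤ p) (s : ℕ) :
    ∃ x0 t0 : ZMod (p ^ s), (-884736) * x0 = 1 ∧ (1 + (p : ZMod (p ^ s)) * t0) * x0 = x0 ^ p := by
  have hpp : p.Prime := Fact.out
  have hnd : ¬ p ∣ 884736 := by
    intro hcon
    have h1 : (884736 : ℕ) = 2 ^ 15 * 3 ^ 3 := by norm_num
    rw [h1] at hcon
    rcases (Nat.Prime.dvd_mul hpp).1 hcon with h | h
    · have := Nat.le_of_dvd (by norm_num) (hpp.dvd_of_dvd_pow h)
      omega
    · have := Nat.le_of_dvd (by norm_num) (hpp.dvd_of_dvd_pow h)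
      omega
  obtain ⟨u, hu⟩ := cmlev_unit (p := p) s 884736 hnd
  have hx : (-884736) * (-(↑u⁻¹ : ZMod (p ^ s))) = 1 := by
    have h2 : (u : ZMod (p ^ s)) * (↑u⁻¹ : ZMod (p ^ s)) = 1 := Units.mul_inv u
    rw [hu] at h2
    push_cast at h2
    rw [← h2]
    ring
  obtain ⟨y, hy⟩ := ZMod.intCast_surjective (-(↑u⁻¹ : ZMod (p ^ s)))
  rw [← hy] at hx
  have h3 : (p : ℤ) ∣ y ^ p - y := by
    rw [← ZMod.intCast_zmod_eq_zero_iff_dvd]
    push_cast
    rw [ZMod.pow_card, sub_self]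
  obtain ⟨z, hz⟩ := h3
  refine ⟨(y : ZMod (p ^ s)), -884736 * (z : ZMod (p ^ s)), hx, ?_⟩
  have h4 : ((y : ZMod (p ^ s))) ^ p - (y : ZMod (p ^ s)) = (p : ZMod (p ^ s)) * (z : ZMod (p ^ s)) := by
    have := congrArg (fun w : ℤ => (w : ZMod (p ^ s))) hz
    push_cast at this
    exact this
  linear_combination (p : ZMod (p ^ s)) * (z : ZMod (p ^ s)) * hx - h4

theorem cmlev_lead {p : ℕ} [Fact p.Prime] (hp : 5 ≤ p) (h19 : p ≠ 19) (s : ℕ)
    (x1 : ZMod (p ^ s)) (hx1 : (-884736) * x1 = 1) : Lead 3 a3 x1 := by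
  have hpp : p.Prime := Fact.out
  have hnd : ¬ p ∣ 513 := by
    intro hcon
    have h1 : (513 : ℕ) = 3 ^ 3 * 19 := by norm_num
    rw [h1] at hcon
    rcases (Nat.Prime.dvd_mul hpp).1 hcon with h | h
    · have := Nat.le_of_dvd (by norm_num) (hpp.dvd_of_dvd_pow h)
      omega
    · have h19' : Nat.Prime 19 := by norm_num
      exact h19 ((Nat.prime_dvd_prime_iff_eq hpp h19').1 h)
  rw [lead3_iff]
  have h2 : IsUnit ((512 : ZMod (p ^ s)) * (1 - 1728 * x1)) := by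
    have h3 : (512 : ZMod (p ^ s)) * (1 - 1728 * x1) = ((513 : ℕ) : ZMod (p ^ s)) := by
      push_cast
      linear_combination hx1
    rw [h3]
    exact cmlev_unit s 513 hnd
  exact isUnit_of_mul_isUnit_right h2

/-- change of level for `M0` -/
theorem M0_level {p : ℕ} [Fact p.Prime] (hp : 5 ≤ p) (h19 : p ≠ 19) {S : Sys ℤ_[p]}
    (hS : S.Good p 3 a3 c3) (hr : S.rho = (p : ℤ_[p])) (s s' : ℕ) (hss : s ≤ s')
    (x0 t0 : ZMod (p ^ s)) (hx0 : (-884736) * x0 = 1)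
    (ht0 : (1 + (p : ZMod (p ^ s)) * t0) * x0 = x0 ^ p)
    (x1 t1 : ZMod (p ^ s')) (hx1 : (-884736) * x1 = 1)
    (ht1 : (1 + (p : ZMod (p ^ s')) * t1) * x1 = x1 ^ p) :
    Mmat p 3 a3 (S.dat s (PadicInt.toZModPow s)) x0 x0 t0
      = (Mmat p 3 a3 (S.dat s' (PadicInt.toZModPow s')) x1 x1 t1).map
          (ZMod.castHom (pow_dvd_pow p hss) (ZMod (p ^ s))) := by
  set φ : ZMod (p ^ s') →+* ZMod (p ^ s) :=
    ZMod.castHom (pow_dvd_pow p hss) (ZMod (p ^ s)) with hφ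
  have hc : φ.comp (PadicInt.toZModPow s') = PadicInt.toZModPow s :=
    PadicInt.zmod_cast_comp_toZModPow s s' hss
  have hp0 : (p : ZMod (p ^ s)) ^ s = 0 := by
    rw [← Nat.cast_pow]
    exact ZMod.natCast_self _
  have h1 : φ x1 = x0 := by
    have h2 : φ ((-884736) * x1) = 1 := by rw [hx1, map_one]
    rw [map_mul, map_neg, map_ofNat] at h2
    linear_combination (-φ x1) * hx0 + x0 * h2
  have h3 : (p : ZMod (p ^ s)) * φ t1 = (p : ZMod (p ^ s)) * t0 := by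
    have h4 : φ ((1 + (p : ZMod (p ^ s')) * t1) * x1) = φ (x1 ^ p) := by rw [ht1]
    rw [map_mul, map_add, map_one, map_mul, map_natCast, map_pow, h1, ← ht0] at h4
    linear_combination (-884736) * h4
      + ((p : ZMod (p ^ s)) * t0 - (p : ZMod (p ^ s)) * φ t1) * hx0
  have hok : (S.dat s (PadicInt.toZModPow s)).OK p 3 a3 c3 :=
    hS.ok s (ZMod (p ^ s)) (PadicInt.toZModPow s) hp0
  have hrho : (S.dat s (PadicInt.toZModPow s)).rho = (p : ZMod (p ^ s)) := by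
    change PadicInt.toZModPow s S.rho = _
    rw [hr, map_natCast]
  have hdat : (S.dat s' (PadicInt.toZModPow s')).map φ = S.dat s (PadicInt.toZModPow s) := by
    rw [← Sys.dat_map, hc]
    exact hS.indep s s' (ZMod (p ^ s)) (PadicInt.toZModPow s) hss hp0
  rw [← Mmat_map (S.dat s' (PadicInt.toZModPow s')) x1 x1 t1 (cmlev_lead hp h19 s' x1 hx1) φ,
    hdat, h1]
  refine Mmat_congr hok x0 x0 t0 (φ t1) ?_
  rw [hrho, h3]

end Pool.Agent.H.MP_7425ae_nt
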