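import Pool.Agent.H.MP_7425ae_nt.FamK

/-! The CM point `h₀ = -1/β^3`, `β^2 = β - 5` of discriminant `-19`. -/

set_option autoImplicit false

open Polynomial

namespace Pool.Agent.H.MP_7425ae_nt

variable {R : Type} [CommRing R]

/-- the CM point -/
noncomputable def h0 (β : R) : R := - Ring.inverse β ^ 3

variable {β : R}

theorem cmpoint_b (u : IsUnit β) : Ring.inverse β ^ 3 * β ^ 3 = 1 := by
  rw [← mul_pow, Ring.inverse_mul_cancel β u, one_pow]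

theorem cm_D1 (hβ : β ^ 2 = β - 5) (u : IsUnit β) : D1 (h0 β) * β = 96 := by
  have hb3 := cmpoint_b u
  refine (u.pow 5).mul_left_cancel ?_
  unfold D1 h0
  linear_combination (-250 * β ^ 3 + 3125 * (Ring.inverse β ^ 3 * β ^ 3 + 1)) * hb3 +
    (β ^ 4 - 95 * β ^ 3 - 100 * β ^ 2 + 125 * β + 625) * hβ

theorem cm_D2 (hβ : β ^ 2 = β - 5) (u : IsUnit β) : D2 (h0 β) * β ^ 5 = 96 := by
  have hb3 := cmpoint_b u
  refine u.mul_left_cancel ?_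
  unfold D2 h0
  linear_combination (-10 * β ^ 3 + 5 * (Ring.inverse β ^ 3 * β ^ 3 + 1)) * hb3 +
    (β ^ 4 + β ^ 3 - 4 * β ^ 2 - 19 * β + 1) * hβ

theorem cm_E0 (hβ : β ^ 2 = β - 5) (u : IsUnit β) : E0 (h0 β) * β ^ 3 = -36 := by
  have hb3 := cmpoint_b u
  refine (u.pow 3).mul_left_cancel ?_
  unfold E0 h0
  linear_combination (-22 * β ^ 3 + 125 * (Ring.inverse β ^ 3 * β ^ 3 + 1)) * hb3 +
    (β ^ 4 + β ^ 3 - 4 * β ^ 2 + 5 * β + 25) * hβ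

theorem cm_E1 (hβ : β ^ 2 = β - 5) (u : IsUnit β) : E1 (h0 β) = 36 * (2 * β - 1) := by
  have hb3 := cmpoint_b u
  refine (u.pow 6).mul_left_cancel ?_
  unfold E1 h0
  linear_combination (500 * β ^ 3 - 15625 * (Ring.inverse β ^ 3 * β ^ 3 + 1)) * hb3 +
    (-72 * β ^ 5 - 35 * β ^ 4 + 325 * β ^ 3 + 500 * β ^ 2 - 625 * β - 3125) * hβ

theorem cm_E2 (hβ : β ^ 2 = β - 5) (u : IsUnit β) :
    E2 (h0 β) * β ^ 6 = 36 * (2 * β - 1) := by
  have hb3 := cmpoint_b u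
  unfold E2 h0
  linear_combination (-4 * β ^ 3 - (Ring.inverse β ^ 3 * β ^ 3 + 1)) * hb3 +
    (β ^ 4 + β ^ 3 - 4 * β ^ 2 - 13 * β + 7) * hβ

/-- `(2 beta - 1)^2 = -19` -/
theorem cm_sq (hβ : β ^ 2 = β - 5) : (2 * β - 1) ^ 2 = -19 := by
  linear_combination 4 * hβ

theorem cmpoint_u96 (u2 : IsUnit (2 : R)) (u3 : IsUnit (3 : R)) : IsUnit (96 : R) := by
  have e : (96 : R) = 2 ^ 5 * 3 := by norm_num
  rw [e]
  exact (u2.pow 5).mul u3

theorem cmpoint_u36 (u2 : IsUnit (2 : R)) (u3 : IsUnit (3 : R)) : IsUnit (36 : R) := by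
  have e : (36 : R) = 2 ^ 2 * 3 ^ 2 := by norm_num
  rw [e]
  exact (u2.pow 2).mul (u3.pow 2)

theorem cmpoint_d1 (hβ : β ^ 2 = β - 5) (u : IsUnit β) (u2 : IsUnit (2 : R))
    (u3 : IsUnit (3 : R)) : IsUnit (D1 (h0 β)) := by
  refine isUnit_of_mul_isUnit_left (y := β) ?_
  rw [cm_D1 hβ u]
  exact cmpoint_u96 u2 u3

theorem cmpoint_d2 (hβ : β ^ 2 = β - 5) (u : IsUnit β) (u2 : IsUnit (2 : R))
    (u3 : IsUnit (3 : R)) : IsUnit (D2 (h0 β)) := by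
  refine isUnit_of_mul_isUnit_left (y := β ^ 5) ?_
  rw [cm_D2 hβ u]
  exact cmpoint_u96 u2 u3

theorem cm_U5 (hβ : β ^ 2 = β - 5) (u : IsUnit β) (u2 : IsUnit (2 : R)) (u3 : IsUnit (3 : R))
    (u19 : IsUnit (19 : R)) : U5 (h0 β) := by
  have hs : IsUnit (2 * β - 1) := by
    refine isUnit_of_mul_isUnit_left (y := 2 * β - 1) ?_
    rw [← pow_two, cm_sq hβ]
    exact u19.neg
  refine ⟨cmpoint_d1 hβ u u2 u3, cmpoint_d2 hβ u u2 u3, ?_, ?_, ?_⟩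
  · refine isUnit_of_mul_isUnit_left (y := β ^ 3) ?_
    rw [cm_E0 hβ u]
    exact (cmpoint_u36 u2 u3).neg
  · rw [cm_E1 hβ u]
    exact (cmpoint_u36 u2 u3).mul hs
  · refine isUnit_of_mul_isUnit_left (y := β ^ 6) ?_
    rw [cm_E2 hβ u]
    exact (cmpoint_u36 u2 u3).mul hs

theorem cm_h0_unit (u : IsUnit β) : IsUnit (h0 β) := by
  unfold h0
  exact (u.ringInverse.pow 3).neg

theorem cm_xf (hβ : β ^ 2 = β - 5) (u : IsUnit β) (u2 : IsUnit (2 : R)) (u3 : IsUnit (3 : R)) :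
    (-884736) * xf (h0 β) = 1 := by
  have hi : D1 (h0 β) * Ring.inverse (D1 (h0 β)) = 1 :=
    Ring.mul_inverse_cancel _ (cmpoint_d1 hβ u u2 u3)
  have h1 := cm_D1 hβ u
  have h96 : 96 * Ring.inverse (D1 (h0 β)) = β := by
    linear_combination β * hi - Ring.inverse (D1 (h0 β)) * h1
  have e : (-884736) * xf (h0 β) =
      Ring.inverse β ^ 3 * (96 * Ring.inverse (D1 (h0 β))) ^ 3 := by
    rw [xf]
    generalize Ring.inverse (D1 (h0 β)) = i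
    unfold h0
    ring
  rw [e, h96, cmpoint_b u]

theorem cm_xg (hβ : β ^ 2 = β - 5) (u : IsUnit β) (u2 : IsUnit (2 : R)) (u3 : IsUnit (3 : R)) :
    (-884736) * xg (h0 β) = 1 := by
  have hi : D2 (h0 β) * Ring.inverse (D2 (h0 β)) = 1 :=
    Ring.mul_inverse_cancel _ (cmpoint_d2 hβ u u2 u3)
  have h1 := cm_D2 hβ u
  have h96 : 96 * Ring.inverse (D2 (h0 β)) = β ^ 5 := by
    linear_combination β ^ 5 * hi - Ring.inverse (D2 (h0 β)) * h1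
  have e : (-884736) * xg (h0 β) =
      (Ring.inverse β ^ 3) ^ 5 * (96 * Ring.inverse (D2 (h0 β))) ^ 3 := by
    rw [xg]
    generalize Ring.inverse (D2 (h0 β)) = i
    unfold h0
    ring
  have e2 : (β ^ 5) ^ 3 = (β ^ 3) ^ 5 := by ring
  rw [e, h96, e2, ← mul_pow, cmpoint_b u, one_pow]

end Pool.Agent.H.MP_7425ae_nt
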