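import Pool.Agent.H.MP_7425ae_nt.Basic

/-! The recurrences of `c_k` and `d_k`. -/

set_option autoImplicit false

open Polynomial

namespace Pool.Agent.H.MP_7425ae_nt

private theorem crec_c2 (k : ℕ) :
    c2 k * (((3 * k).factorial : ℤ) * (k.factorial : ℤ) * ((2 * k).factorial : ℤ)) =
      ((6 * k).factorial : ℤ) := by
  have h1 : (6 * k).choose (3 * k) * (3 * k).factorial * (3 * k).factorial =
      (6 * k).factorial := by
    have h := Nat.choose_mul_factorial_mul_factorial (n := 6 * k) (k := 3 * k) (by omega)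
    have e : 6 * k - 3 * k = 3 * k := by omega
    rwa [e] at h
  have h2 : (3 * k).choose k * k.factorial * (2 * k).factorial = (3 * k).factorial := by
    have h := Nat.choose_mul_factorial_mul_factorial (n := 3 * k) (k := k) (by omega)
    have e : 3 * k - k = 2 * k := by omega
    rwa [e] at h
  have h3 : (6 * k).choose (3 * k) * (3 * k).choose k *
      ((3 * k).factorial * k.factorial * (2 * k).factorial) = (6 * k).factorial := by
    rw [← h1]
    conv_rhs => rw [← h2]
    rw [h2]
    calc (6 * k).choose (3 * k) * (3 * k).choose k *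
          ((3 * k).factorial * k.factorial * (2 * k).factorial)
        = (6 * k).choose (3 * k) * (3 * k).factorial *
          ((3 * k).choose k * k.factorial * (2 * k).factorial) := by ring
      _ = _ := by rw [h2]
  unfold c2
  exact_mod_cast h3

private theorem crec_c3 (k : ℕ) :
    c3 k * (((3 * k).factorial : ℤ) * (k.factorial : ℤ) ^ 3) = ((6 * k).factorial : ℤ) := by
  have h1 := crec_c2 k
  have h2 : (2 * k).choose k * k.factorial * k.factorial = (2 * k).factorial := by
    have h := Nat.choose_mul_factorial_mul_factorial (n := 2 * k) (k := k) (by omega)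
    have e : 2 * k - k = k := by omega
    rwa [e] at h
  have h3 : (((2 * k).choose k : ℕ) : ℤ) * (k.factorial : ℤ) * (k.factorial : ℤ) =
      ((2 * k).factorial : ℤ) := by exact_mod_cast h2
  have h4 : c3 k = c2 k * (((2 * k).choose k : ℕ) : ℤ) := by
    unfold c3 c2
    push_cast
    ring
  rw [← h1, ← h3, h4]
  ring

private theorem crec_f1 (k : ℕ) : ((k + 1).factorial : ℤ) = (k + 1) * (k.factorial : ℤ) := by
  rw [Nat.factorial_succ]
  push_cast
  ring

private theorem crec_f2 (k : ℕ) :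
    ((2 * (k + 1)).factorial : ℤ) = (2 * k + 2) * (2 * k + 1) * ((2 * k).factorial : ℤ) := by
  have e : 2 * (k + 1) = 2 * k + 1 + 1 := by ring
  rw [e, Nat.factorial_succ, Nat.factorial_succ]
  push_cast
  ring

private theorem crec_f3 (k : ℕ) : ((3 * (k + 1)).factorial : ℤ) =
    (3 * k + 3) * (3 * k + 2) * (3 * k + 1) * ((3 * k).factorial : ℤ) := by
  have e : 3 * (k + 1) = 3 * k + 1 + 1 + 1 := by ring
  rw [e, Nat.factorial_succ, Nat.factorial_succ, Nat.factorial_succ]
  push_cast
  ring

private theorem crec_f6 (k : ℕ) : ((6 * (k + 1)).factorial : ℤ) =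
    (6 * k + 6) * (6 * k + 5) * (6 * k + 4) * (6 * k + 3) * (6 * k + 2) * (6 * k + 1) *
      ((6 * k).factorial : ℤ) := by
  have e : 6 * (k + 1) = 6 * k + 1 + 1 + 1 + 1 + 1 + 1 := by ring
  rw [e, Nat.factorial_succ, Nat.factorial_succ, Nat.factorial_succ, Nat.factorial_succ,
    Nat.factorial_succ, Nat.factorial_succ]
  push_cast
  ring

theorem c3_rec (k : ℕ) : ((k : ℤ) + 1) ^ 3 * c3 (k + 1) = a3.eval (k : ℤ) * c3 k := by
  have h1 := crec_c3 k
  have h2 := crec_c3 (k + 1)
  rw [crec_f1, crec_f3, crec_f6, ← h1] at h2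
  have hP : ((3 * k).factorial : ℤ) ≠ 0 := by exact_mod_cast Nat.factorial_ne_zero _
  have hQ : (k.factorial : ℤ) ≠ 0 := by exact_mod_cast Nat.factorial_ne_zero _
  have he : a3.eval (k : ℤ) = 24 * (2 * k + 1) * (6 * k + 1) * (6 * k + 5) := by
    simp [a3]
  rw [he]
  have hk : (0 : ℤ) ≤ k := Int.natCast_nonneg k
  have h5 : (3 * (k : ℤ) + 3) * (3 * k + 2) * (3 * k + 1) *
      (((3 * k).factorial : ℤ) * (k.factorial : ℤ) ^ 3) ≠ 0 := by
    apply mul_ne_zero
    · apply ne_of_gt
      positivity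
    · exact mul_ne_zero hP (pow_ne_zero 3 hQ)
  apply mul_right_cancel₀ h5
  linear_combination h2

theorem c2_rec (k : ℕ) : ((k : ℤ) + 1) ^ 2 * c2 (k + 1) = a2.eval (k : ℤ) * c2 k := by
  have h1 := crec_c2 k
  have h2 := crec_c2 (k + 1)
  rw [crec_f1, crec_f2, crec_f3, crec_f6, ← h1] at h2
  have hP : ((3 * k).factorial : ℤ) ≠ 0 := by exact_mod_cast Nat.factorial_ne_zero _
  have hQ : (k.factorial : ℤ) ≠ 0 := by exact_mod_cast Nat.factorial_ne_zero _
  have hR : ((2 * k).factorial : ℤ) ≠ 0 := by exact_mod_cast Nat.factorial_ne_zero _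
  have he : a2.eval (k : ℤ) = 12 * (6 * k + 1) * (6 * k + 5) := by
    simp [a2]
  rw [he]
  have hk : (0 : ℤ) ≤ k := Int.natCast_nonneg k
  have h5 : 2 * (2 * (k : ℤ) + 1) * ((3 * k + 3) * (3 * k + 2) * (3 * k + 1)) *
      (((3 * k).factorial : ℤ) * (k.factorial : ℤ) * ((2 * k).factorial : ℤ)) ≠ 0 := by
    apply mul_ne_zero
    · apply ne_of_gt
      positivity
    · exact mul_ne_zero (mul_ne_zero hP hQ) hR
  apply mul_right_cancel₀ h5
  linear_combination h2

end Pool.Agent.H.MP_7425ae_nt
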