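import Pool.Agent.H.MP_7425ae_nt.PhiMat
import Pool.Agent.H.MP_7425ae_nt.CRec

/-! The truncated sums as functionals on the sequence module. -/

set_option autoImplicit false

open Polynomial

namespace Pool.Agent.H.MP_7425ae_nt

variable {R : Type} [CommRing R]

/-- `sum_{k < N} F(k) c_k x^k` -/
noncomputable def evN (c : ℕ → ℤ) (N : ℕ) (x : R) (F : R[X]) : R :=
  ∑ k ∈ Finset.range N, F.eval (k : R) * ((c k : ℤ) : R) * x ^ k

theorem evN_add (c : ℕ → ℤ) (N : ℕ) (x : R) (F G : R[X]) :
    evN c N x (F + G) = evN c N x F + evN c N x G := by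
  unfold evN
  rw [← Finset.sum_add_distrib]
  apply Finset.sum_congr rfl
  intro k _
  rw [eval_add]
  ring

theorem evN_C_mul (c : ℕ → ℤ) (N : ℕ) (x a : R) (F : R[X]) :
    evN c N x (C a * F) = a * evN c N x F := by
  unfold evN
  rw [Finset.mul_sum]
  apply Finset.sum_congr rfl
  intro k _
  rw [eval_mul, eval_C]
  ring

theorem evsum_aR (a : ℤ[X]) (k : ℕ) : (aR a R).eval (k : R) = ((a.eval (k : ℤ) : ℤ) : R) := by
  unfold aR
  rw [eval_map, ← Int.cast_natCast (R := R), ← eq_intCast (Int.castRingHom R) (k : ℤ),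
    eval₂_at_apply, eq_intCast]

/-- telescoping -/
theorem evN_tau {n : ℕ} (hn : 0 < n) (a : ℤ[X]) (c : ℕ → ℤ)
    (hc : ∀ k : ℕ, ((k : ℤ) + 1) ^ n * c (k + 1) = a.eval (k : ℤ) * c k)
    (N : ℕ) (x : R) (q : R[X]) :
    evN c N x (tau n a x q) = q.eval (N : R) * (N : R) ^ n * ((c N : ℤ) : R) * x ^ N := by
  unfold evN
  induction N with
  | zero => simp [hn.ne']
  | succ N ih =>
    rw [Finset.sum_range_succ, ih]
    have h1 : ((N : R) + 1) ^ n * ((c (N + 1) : ℤ) : R)
        = ((a.eval (N : ℤ) : ℤ) : R) * ((c N : ℤ) : R) := by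
      have := congrArg (fun z : ℤ => (z : R)) (hc N)
      push_cast at this
      exact this
    have h2 : (tau n a x q).eval (N : R) = x * ((a.eval (N : ℤ) : ℤ) : R) *
        q.eval ((N : R) + 1) - (N : R) ^ n * q.eval (N : R) := by
      unfold tau
      rw [eval_sub, eval_mul, eval_mul, eval_C, evsum_aR, eval_comp, eval_mul, eval_pow, eval_X,
        eval_add, eval_X, eval_one]
    rw [h2]
    push_cast
    rw [pow_succ x N]
    linear_combination (-(q.eval ((N : R) + 1)) * (x ^ N * x)) * h1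

/-- `sum_{k < pN} F(k) c_k x^k = sum_{k < N} (Phi F)(k) c_k y^k` -/
theorem evN_Phi {p n : ℕ} (hp : 0 < p) {a : ℤ[X]} {c : ℕ → ℤ} {D : Dat R}
    (h : D.OK p n a c) (N : ℕ) (x y t : R) (ht : (1 + D.rho * t) * y = x ^ p) (F : R[X]) :
    evN c (p * N) x F = evN c N y (Phi p D x t F) := by
  unfold evN
  induction N with
  | zero => simp
  | succ N ih =>
    rw [Nat.mul_succ, Finset.sum_range_add, ih, Finset.sum_range_succ]
    congr 1
    have h1 : (Phi p D x t F).eval (N : R) = (1 + D.rho * t) ^ N * (D.Th.eval (N : R) *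
        ∑ j ∈ Finset.range p, x ^ j * F.eval (((p * N + j : ℕ)) : R) * (D.r j).eval (N : R)) := by
      unfold Phi Uop
      rw [eval_mul, Ex_eval h, eval_mul, eval_finsetSum]
      congr 2
      apply Finset.sum_congr rfl
      intro j _
      rw [eval_mul, eval_mul, eval_C, eval_comp]
      simp
    rw [h1, Finset.mul_sum, Finset.mul_sum, Finset.sum_mul, Finset.sum_mul]
    apply Finset.sum_congr rfl
    intro j hj
    rw [Finset.mem_range] at hj
    have h2 := h.val N j hj
    rw [eval_mul] at h2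
    rw [← h2, pow_add, pow_mul, ← ht, mul_pow]
    ring

end Pool.Agent.H.MP_7425ae_nt
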