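import Pool.Agent.H.MP_7425ae_nt.EVf
import Pool.Agent.H.MP_7425ae_nt.EvSum

/-! The sums `T_N` and `S_N` at `x0 = -1/96^3`. -/

set_option autoImplicit false

open Polynomial

namespace Pool.Agent.H.MP_7425ae_nt

/-- `sum_{k<N} (342k+25) c_k x0^k` in `ZMod m` -/
noncomputable def Tz (m N : ℕ) (x0 : ZMod m) : ZMod m :=
  ∑ k ∈ Finset.range N, ((342 * k + 25 : ℕ) : ZMod m) * ((c3 k : ℤ) : ZMod m) * x0 ^ k

/-- `sum_{k<N} c_k x0^k` in `ZMod m` -/
noncomputable def Sz (m N : ℕ) (x0 : ZMod m) : ZMod m :=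
  ∑ k ∈ Finset.range N, ((c3 k : ℤ) : ZMod m) * x0 ^ k

theorem sumdef_Tz_eq (m N : ℕ) (x0 : ZMod m) :
    Tz m N x0 = evN c3 N x0 (emb ![25, 342, 0]) := by
  unfold Tz evN emb
  refine Finset.sum_congr rfl (fun k _ => ?_)
  congr 2
  rw [Fin.sum_univ_three, eval_add, eval_add]
  simp only [eval_mul, eval_C, eval_pow, eval_X, Matrix.cons_val_zero, Matrix.cons_val_one,
    Matrix.cons_val, Fin.val_zero, Fin.val_one, pow_zero, mul_one, pow_one, zero_mul, add_zero]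
  push_cast
  ring

theorem sumdef_natDegree : a3.natDegree ≤ 3 := by
  unfold a3
  compute_degree

theorem sumdef_coeff : a3.coeff 3 = 1728 := by
  have h : a3 = C 1728 * X ^ 3 + (C 2592 * X ^ 2 + C 1104 * X + C 120) := by
    unfold a3
    simp only [map_ofNat]
    ring
  rw [h]
  simp only [coeff_add, coeff_C_mul, coeff_X_pow, coeff_X, coeff_C]
  norm_num

theorem sumdef_lead {p : ℕ} [Fact p.Prime] (hp : 5 ≤ p) (h19 : p ≠ 19) (s : ℕ)
    (x0 : ZMod (p ^ s)) (hx0 : (-884736) * x0 = 1) : Lead 3 a3 x0 := by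
  refine ⟨sumdef_natDegree, ?_⟩
  rw [sumdef_coeff]
  have hpp : p.Prime := Fact.out
  have hcop : Nat.Coprime 886464 (p ^ s) := by
    apply Nat.Coprime.pow_right
    have h1 : (886464 : ℕ) = 2 ^ 6 * 3 ^ 6 * 19 := by norm_num
    rw [h1]
    refine Nat.Coprime.mul_left (Nat.Coprime.mul_left ?_ ?_) ?_
    · exact Nat.Coprime.pow_left _ ((Nat.coprime_primes Nat.prime_two hpp).2 (by omega))
    · exact Nat.Coprime.pow_left _ ((Nat.coprime_primes Nat.prime_three hpp).2 (by omega))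
    · exact (Nat.coprime_primes (by norm_num) hpp).2 (by omega)
  have hu : IsUnit ((886464 : ℕ) : ZMod (p ^ s)) := (ZMod.isUnit_iff_coprime _ _).2 hcop
  have he : ((886464 : ℕ) : ZMod (p ^ s)) = 884736 * (1 - ((1728 : ℤ) : ZMod (p ^ s)) * x0) := by
    push_cast
    linear_combination (-1728 : ZMod (p ^ s)) * hx0
  rw [he] at hu
  exact isUnit_of_mul_isUnit_right hu

/-- `T_{pN} = p l T_N + p^3 e N^3 c_N` -/
theorem Tz_step {p : ℕ} [Fact p.Prime] (hp : 5 ≤ p) (h19 : p ≠ 19) {S : Sys ℤ_[p]}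
    (hS : S.Good p 3 a3 c3) (hr : S.rho = (p : ℤ_[p])) (s : ℕ)
    (x0 : ZMod (p ^ s)) (hx0 : (-884736) * x0 = 1) (N : ℕ) :
    ∃ l e : ZMod (p ^ s), Tz (p ^ s) (p * N) x0 = (p : ZMod (p ^ s)) * l * Tz (p ^ s) N x0
      + (p : ZMod (p ^ s)) ^ 3 * e * (N : ZMod (p ^ s)) ^ 3 * ((c3 N : ℤ) : ZMod (p ^ s)) := by
  obtain ⟨x1, t0, hx1, ht1⟩ := exists_t0 (p := p) hp s
  have hx : x1 = x0 := by
    calc x1 = x1 * ((-884736) * x0) := by rw [hx0, mul_one]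
      _ = ((-884736) * x1) * x0 := by ring
      _ = x0 := by rw [hx1, one_mul]
  rw [hx] at ht1
  have hps : ((p : ZMod (p ^ s))) ^ s = 0 := by
    rw [← Nat.cast_pow]
    exact ZMod.natCast_self _
  have hOK := hS.ok s (ZMod (p ^ s)) (PadicInt.toZModPow s) hps
  have hrho : (S.dat s (PadicInt.toZModPow s)).rho = (p : ZMod (p ^ s)) := by
    show (PadicInt.toZModPow s) S.rho = _
    rw [hr, map_natCast]
  have hL := sumdef_lead hp h19 s x0 hx0
  have ht0 : (1 + (S.dat s (PadicInt.toZModPow s)).rho * t0) * x0 = x0 ^ p := by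
    rw [hrho]
    exact ht1
  obtain ⟨l, hl⟩ := EV hp h19 hS hr s x0 t0 hx0 ht1
  have hp0 : 0 < p := by omega
  have h1 : Tz (p ^ s) (p * N) x0
      = evN c3 N x0 (Phi p (S.dat s (PadicInt.toZModPow s)) x0 t0 (emb ![25, 342, 0])) := by
    rw [sumdef_Tz_eq]
    exact evN_Phi hp0 hOK N x0 x0 t0 ht0 _
  have h2 := red_spec hL (Phi p (S.dat s (PadicInt.toZModPow s)) x0 t0 (emb ![25, 342, 0]))
  have h3 := red_Phi_emb (p := p) (D := S.dat s (PadicInt.toZModPow s)) x0 x0 t0 hL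
    (![25, 342, 0] : Fin 3 → ZMod (p ^ s))
  rw [hl] at h3
  obtain ⟨-, ⟨q', hq'⟩, -⟩ := red_adm hL (S.dat s (PadicInt.toZModPow s)).rho
    (Phi p (S.dat s (PadicInt.toZModPow s)) x0 t0 (emb ![25, 342, 0])) (Phi_adm hOK x0 t0 _)
  rw [h3, hq'] at h2
  refine ⟨l, q'.eval (N : ZMod (p ^ s)) * x0 ^ N, ?_⟩
  rw [h1, h2, evN_add, emb_smul, evN_C_mul, tau_C_mul, evN_C_mul,
    evN_tau (by norm_num) a3 c3 c3_rec, ← sumdef_Tz_eq, hrho]
  ring

end Pool.Agent.H.MP_7425ae_nt
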