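import Pool.Agent.H.MP_7425ae_nt.CDef
import Pool.Agent.H.MP_7425ae_nt.SumDef

/-! The step `N -> pN` from the congruences modulo all powers of `p`. -/

set_option autoImplicit false

open Finset

namespace Pool.Agent.H.MP_7425ae_nt

theorem cstep_tn (m : ℕ) (x0 : ZMod m) (hx : (-884736) * x0 = 1) (n : ℕ) :
    ((tn (n + 1) : ℤ) : ZMod m) = (-884736) ^ n * Tz m (n + 1) x0 := by
  unfold tn Tz
  rw [Finset.mul_sum]
  push_cast
  apply Finset.sum_congr rfl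
  intro k hk
  have hk' : k ≤ n := by
    have := Finset.mem_range.mp hk
    omega
  have h1 : ((-884736 : ZMod m)) ^ n * x0 ^ k = (-884736) ^ (n - k) := by
    have h2 : n = (n - k) + k := by omega
    conv_lhs => rw [h2, pow_add, mul_assoc, ← mul_pow, hx, one_pow, mul_one]
  rw [← h1]
  ring

/-- the step `N -> pN` from the congruences modulo all powers of `p` -/
theorem step_of_Tz (p : ℕ) [Fact p.Prime] (hp : 5 ≤ p)
    (hT : ∀ (s : ℕ) (x0 : ZMod (p ^ s)), (-884736) * x0 = 1 → ∀ N : ℕ,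
      ∃ l e : ZMod (p ^ s), Tz (p ^ s) (p * N) x0 = (p : ZMod (p ^ s)) * l * Tz (p ^ s) N x0
      + (p : ZMod (p ^ s)) * e * (N : ZMod (p ^ s)) ^ 3 * ((c3 N : ℤ) : ZMod (p ^ s)))
    (N : ℕ) (hN : 0 < N) (h : (p : ℤ) ^ padicValNat p (Mn N) ∣ tn N) :
    (p : ℤ) ^ (1 + padicValNat p (N * (2 * N).choose N)) ∣ tn (p * N) := by
  have hpp : p.Prime := Fact.out
  set v := padicValNat p (N * (2 * N).choose N) with hv
  have hcop : Nat.Coprime 884736 (p ^ (1 + v)) := by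
    apply Nat.Coprime.pow_right
    rw [Nat.coprime_comm, Nat.Prime.coprime_iff_not_dvd hpp]
    intro hd
    have h1 : (884736 : ℕ) = 2 ^ 15 * 3 ^ 3 := by norm_num
    rw [h1] at hd
    rcases (Nat.Prime.dvd_mul hpp).mp hd with h2 | h2
    · have := Nat.le_of_dvd (by norm_num) (hpp.dvd_of_dvd_pow h2)
      omega
    · have := Nat.le_of_dvd (by norm_num) (hpp.dvd_of_dvd_pow h2)
      omega
  have hu : ((884736 : ℕ) : ZMod (p ^ (1 + v))) * ((884736 : ℕ) : ZMod (p ^ (1 + v)))⁻¹ = 1 :=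
    ZMod.coe_mul_inv_eq_one 884736 hcop
  obtain ⟨x0, hx0⟩ : ∃ x0 : ZMod (p ^ (1 + v)), (-884736) * x0 = 1 := by
    refine ⟨-(((884736 : ℕ) : ZMod (p ^ (1 + v)))⁻¹), ?_⟩
    rw [neg_mul_neg]
    exact_mod_cast hu
  have hpow : ((p : ZMod (p ^ (1 + v)))) ^ (1 + v) = 0 := by
    have := ZMod.natCast_self (p ^ (1 + v))
    push_cast at this
    exact this
  have hdvd0 : p ^ v ∣ N * (2 * N).choose N := pow_padicValNat_dvd
  -- first fact
  have hA : (p : ZMod (p ^ (1 + v))) * Tz (p ^ (1 + v)) N x0 = 0 := by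
    have h1 : p ^ v ∣ p ^ padicValNat p (Mn N) := by
      apply pow_dvd_pow
      rw [hv]
      have h2 : N * (2 * N).choose N ∣ Mn N := ⟨2 * (2 * N + 1), by unfold Mn; ring⟩
      have h3 : Mn N ≠ 0 := by
        unfold Mn
        have : 0 < (2 * N).choose N := Nat.choose_pos (by omega)
        positivity
      exact (padicValNat_dvd_iff_le h3).mp (dvd_trans pow_padicValNat_dvd h2)
    have h2 : ((p : ℤ)) ^ v ∣ tn N := by
      refine dvd_trans ?_ h
      exact_mod_cast h1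
    obtain ⟨q, hq⟩ := h2
    obtain ⟨n, rfl⟩ : ∃ n, N = n + 1 := ⟨N - 1, by omega⟩
    have h3 := cstep_tn (p ^ (1 + v)) x0 hx0 n
    rw [hq] at h3
    push_cast at h3
    have h4 : (p : ZMod (p ^ (1 + v))) * ((-884736) ^ n * Tz (p ^ (1 + v)) (n + 1) x0) = 0 := by
      rw [← h3, ← mul_assoc, ← pow_succ', add_comm v 1, hpow, zero_mul]
    have h5 : (p : ZMod (p ^ (1 + v))) * Tz (p ^ (1 + v)) (n + 1) x0 =
        x0 ^ n * ((p : ZMod (p ^ (1 + v))) * ((-884736) ^ n * Tz (p ^ (1 + v)) (n + 1) x0)) := by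
      have h6 : x0 ^ n * (-884736) ^ n = 1 := by
        rw [← mul_pow, mul_comm, hx0, one_pow]
      calc (p : ZMod (p ^ (1 + v))) * Tz (p ^ (1 + v)) (n + 1) x0 =
          (x0 ^ n * (-884736) ^ n) * ((p : ZMod (p ^ (1 + v))) * Tz (p ^ (1 + v)) (n + 1) x0) := by
            rw [h6, one_mul]
        _ = _ := by ring
    rw [h5, h4, mul_zero]
  -- second fact
  have hB : (p : ZMod (p ^ (1 + v))) * ((N : ZMod (p ^ (1 + v))) ^ 3 *
      ((c3 N : ℤ) : ZMod (p ^ (1 + v)))) = 0 := by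
    obtain ⟨q, hq⟩ := hdvd0
    have h1 : (N : ℤ) ^ 3 * c3 N = (p : ℤ) ^ v * (q * (N ^ 2 * ((6 * N).choose (3 * N) *
        (3 * N).choose N : ℕ))) := by
      have h2 : ((N * (2 * N).choose N : ℕ) : ℤ) = ((p ^ v * q : ℕ) : ℤ) := by rw [hq]
      push_cast at h2
      unfold c3
      push_cast
      linear_combination ((N : ℤ) ^ 2 * (((6 * N).choose (3 * N) : ℤ) *
        ((3 * N).choose N : ℤ))) * h2
    have h3 : ((((N : ℤ) ^ 3 * c3 N : ℤ)) : ZMod (p ^ (1 + v))) =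
        (p : ZMod (p ^ (1 + v))) ^ v * (((q * (N ^ 2 * ((6 * N).choose (3 * N) *
        (3 * N).choose N : ℕ)) : ℤ)) : ZMod (p ^ (1 + v))) := by
      rw [h1]
      push_cast
      ring
    rw [Int.cast_mul, Int.cast_pow, Int.cast_natCast] at h3
    rw [h3, ← mul_assoc, ← pow_succ', add_comm v 1, hpow, zero_mul]
  obtain ⟨l, e, hle⟩ := hT (1 + v) x0 hx0 N
  have hT0 : Tz (p ^ (1 + v)) (p * N) x0 = 0 := by
    rw [hle]
    calc (p : ZMod (p ^ (1 + v))) * l * Tz (p ^ (1 + v)) N x0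
      + (p : ZMod (p ^ (1 + v))) * e * (N : ZMod (p ^ (1 + v))) ^ 3 *
          ((c3 N : ℤ) : ZMod (p ^ (1 + v))) =
        l * ((p : ZMod (p ^ (1 + v))) * Tz (p ^ (1 + v)) N x0) + e * ((p : ZMod (p ^ (1 + v))) *
          ((N : ZMod (p ^ (1 + v))) ^ 3 * ((c3 N : ℤ) : ZMod (p ^ (1 + v))))) := by ring
      _ = 0 := by rw [hA, hB]; ring
  have hpN : 0 < p * N := Nat.mul_pos hpp.pos hN
  obtain ⟨n, hn⟩ : ∃ n, p * N = n + 1 := ⟨p * N - 1, by omega⟩
  have h7 : ((tn (p * N) : ℤ) : ZMod (p ^ (1 + v))) = 0 := by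
    rw [hn, cstep_tn (p ^ (1 + v)) x0 hx0 n, ← hn, hT0, mul_zero]
  rw [ZMod.intCast_zmod_eq_zero_iff_dvd] at h7
  exact_mod_cast h7

end Pool.Agent.H.MP_7425ae_nt
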