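import Pool.Agent.H.MP_7425ae_nt.CDef

/-! Integrality at `2`. -/

set_option autoImplicit false

open Finset

namespace Pool.Agent.H.MP_7425ae_nt

private abbrev ctwo_v (n : ℕ) : ℕ := padicValNat 2 n

/-- binary digit sum -/
private def ctwo_s (n : ℕ) : ℕ := (Nat.digits 2 n).sum

private theorem ctwo_leg (n : ℕ) : ctwo_v n.factorial + ctwo_s n = n := by
  have h := sub_one_mul_padicValNat_factorial (p := 2) n
  have h2 := Nat.digit_sum_le 2 n
  unfold ctwo_s ctwo_v
  omega

private theorem ctwo_fac (m r : ℕ) (hr : r < 2) :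
    ctwo_v (2 * m + r).factorial = m + ctwo_v m.factorial := by
  unfold ctwo_v
  rw [padicValNat_factorial_mul_add m hr, padicValNat_factorial_mul m]
  ring

private theorem ctwo_s_rec (m r : ℕ) (hr : r < 2) : ctwo_s (2 * m + r) = ctwo_s m + r := by
  have h1 := ctwo_leg (2 * m + r)
  have h2 := ctwo_leg m
  have h3 := ctwo_fac m r hr
  omega

private theorem ctwo_s_pos (n : ℕ) : 1 ≤ n → 1 ≤ ctwo_s n := by
  induction n using Nat.strong_induction_on with
  | _ n ih =>
    intro hn
    obtain ⟨m, r, hr, rfl⟩ : ∃ m r, r < 2 ∧ n = 2 * m + r := ⟨n / 2, n % 2, by omega, by omega⟩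
    rw [ctwo_s_rec m r hr]
    rcases Nat.eq_zero_or_pos r with h | h
    · subst h
      have := ih m (by omega) (by omega)
      omega
    · omega

private theorem ctwo_s_le (n : ℕ) : ctwo_s n ≤ n := by
  have := ctwo_leg n
  omega

private theorem ctwo_s_add (a b : ℕ) : ctwo_s (a + b) ≤ ctwo_s a + ctwo_s b := by
  have h1 := ctwo_leg (a + b)
  have h2 := ctwo_leg a
  have h3 := ctwo_leg b
  have h4 : ctwo_v a.factorial + ctwo_v b.factorial ≤ ctwo_v (a + b).factorial := by
    unfold ctwo_v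
    rw [← padicValNat.mul (Nat.factorial_ne_zero a) (Nat.factorial_ne_zero b)]
    refine (padicValNat_dvd_iff_le (Nat.factorial_ne_zero _)).1 ?_
    exact dvd_trans pow_padicValNat_dvd (Nat.factorial_mul_factorial_dvd_factorial_add a b)
  omega

/-- natural number version of `c3` -/
private def ctwo_c (k : ℕ) : ℕ := (6 * k).choose (3 * k) * (3 * k).choose k * (2 * k).choose k

private theorem ctwo_c_cast (k : ℕ) : c3 k = (ctwo_c k : ℤ) := rfl

private theorem ctwo_c_ne (k : ℕ) : ctwo_c k ≠ 0 := by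
  unfold ctwo_c
  refine Nat.mul_ne_zero (Nat.mul_ne_zero ?_ ?_) ?_
  · exact (Nat.choose_pos (by omega)).ne'
  · exact (Nat.choose_pos (by omega)).ne'
  · exact (Nat.choose_pos (by omega)).ne'

private theorem ctwo_vc (k : ℕ) : ctwo_v (ctwo_c k) = 3 * ctwo_s k := by
  have h : ctwo_c k * ((3 * k).factorial * (k.factorial * k.factorial * k.factorial)) =
      (6 * k).factorial := by
    have h1 := Nat.choose_mul_factorial_mul_factorial (n := 6 * k) (k := 3 * k) (by omega)
    have h2 := Nat.choose_mul_factorial_mul_factorial (n := 3 * k) (k := k) (by omega)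
    have h3 := Nat.choose_mul_factorial_mul_factorial (n := 2 * k) (k := k) (by omega)
    rw [show 6 * k - 3 * k = 3 * k by omega] at h1
    rw [show 3 * k - k = 2 * k by omega] at h2
    rw [show 2 * k - k = k by omega] at h3
    unfold ctwo_c
    calc (6 * k).choose (3 * k) * (3 * k).choose k * (2 * k).choose k *
          ((3 * k).factorial * (k.factorial * k.factorial * k.factorial))
        = (6 * k).choose (3 * k) * (3 * k).factorial * ((3 * k).choose k * k.factorial *
          ((2 * k).choose k * k.factorial * k.factorial)) := by ring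
      _ = (6 * k).factorial := by rw [h3, h2, h1]
  have h4 := ctwo_leg k
  have h5 : ctwo_v (ctwo_c k) + (ctwo_v (3 * k).factorial +
      (ctwo_v k.factorial + ctwo_v k.factorial + ctwo_v k.factorial)) =
      ctwo_v (6 * k).factorial := by
    rw [← h]
    unfold ctwo_v
    have hk := Nat.factorial_ne_zero k
    rw [padicValNat.mul (ctwo_c_ne k) (Nat.mul_ne_zero (Nat.factorial_ne_zero _)
      (Nat.mul_ne_zero (Nat.mul_ne_zero hk hk) hk)),
      padicValNat.mul (Nat.factorial_ne_zero _) (Nat.mul_ne_zero (Nat.mul_ne_zero hk hk) hk),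
      padicValNat.mul (Nat.mul_ne_zero hk hk) hk, padicValNat.mul hk hk]
  have h7 := ctwo_fac (3 * k) 0 (by norm_num)
  rw [add_zero, show 2 * (3 * k) = 6 * k by ring] at h7
  omega

private theorem ctwo_M_ne (m : ℕ) : Mn (m + 1) ≠ 0 := by
  unfold Mn
  exact Nat.mul_ne_zero (Nat.mul_ne_zero (by omega) (by omega))
    (Nat.choose_pos (by omega)).ne'

private theorem ctwo_vM (m : ℕ) : ctwo_v (Mn (m + 1)) = ctwo_s m + 2 := by
  have h : Mn (m + 1) * ((m + 1).factorial * m.factorial) = 2 * (2 * (m + 1) + 1).factorial := by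
    have h3 := Nat.choose_mul_factorial_mul_factorial (n := 2 * (m + 1)) (k := m + 1) (by omega)
    rw [show 2 * (m + 1) - (m + 1) = m + 1 by omega] at h3
    rw [Nat.factorial_succ (2 * (m + 1)), ← h3, Nat.factorial_succ m]
    unfold Mn
    ring
  have hv : ctwo_v (Mn (m + 1) * ((m + 1).factorial * m.factorial)) =
      ctwo_v (2 * (2 * (m + 1) + 1).factorial) := by rw [h]
  have hM := ctwo_M_ne m
  have e1 := ctwo_fac (m + 1) 1 (by norm_num)
  have e2 := ctwo_leg (m + 1)
  have e3 := ctwo_leg m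
  have e4 : ctwo_v 2 = 1 := by
    unfold ctwo_v
    exact padicValNat_self
  unfold ctwo_v at *
  have hk := Nat.factorial_ne_zero m
  have hk1 := Nat.factorial_ne_zero (m + 1)
  rw [padicValNat.mul hM (Nat.mul_ne_zero hk1 hk), padicValNat.mul hk1 hk,
    padicValNat.mul (by norm_num) (Nat.factorial_ne_zero _), e4, e1] at hv
  omega

theorem c_two (n : ℕ) (hn : 2 ≤ n) : (2 : ℤ) ^ padicValNat 2 (Mn n) ∣ tn n := by
  obtain ⟨m, rfl⟩ : ∃ m, n = m + 1 := ⟨n - 1, by omega⟩
  change (2 : ℤ) ^ ctwo_v (Mn (m + 1)) ∣ tn (m + 1)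
  rw [ctwo_vM]
  unfold tn
  refine dvd_sum ?_
  intro k hk
  have hk2 := mem_range.1 hk
  obtain ⟨d, hd⟩ : ∃ d, m = k + d := ⟨m - k, by omega⟩
  have h1 := ctwo_s_add k d
  have h2 := ctwo_s_le d
  have h3 := ctwo_s_pos m (by omega)
  have h4 := ctwo_vc k
  have h7 : ctwo_s m + 2 ≤ 15 * d + ctwo_v (ctwo_c k) := by
    rw [hd] at h3 ⊢
    rcases Nat.eq_zero_or_pos d with h | h
    · subst h
      rw [add_zero] at *
      omega
    · omega
  refine dvd_trans (pow_dvd_pow 2 h7) ?_
  rw [show m + 1 - 1 - k = d by omega, pow_add, mul_assoc]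
  refine Dvd.dvd.mul_left (mul_dvd_mul ?_ ?_) _
  · rw [pow_mul]
    refine pow_dvd_pow_of_dvd ?_ d
    norm_num
  · rw [ctwo_c_cast]
    exact_mod_cast (pow_padicValNat_dvd : 2 ^ padicValNat 2 (ctwo_c k) ∣ ctwo_c k)

end Pool.Agent.H.MP_7425ae_nt
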