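import Pool.Agent.H.MP_7425ae_nt.CDef
import Pool.Agent.H.MP_7425ae_nt.CRec

/-! Valuations of `c_k`. -/

set_option autoImplicit false

open Finset

namespace Pool.Agent.H.MP_7425ae_nt

/-- natural number version of `c3` -/
private def cval_c (k : ℕ) : ℕ := (6 * k).choose (3 * k) * (3 * k).choose k * (2 * k).choose k

private theorem cval_c_cast (k : ℕ) : c3 k = (cval_c k : ℤ) := rfl

private theorem cval_c_ne (k : ℕ) : cval_c k ≠ 0 := by
  unfold cval_c
  refine Nat.mul_ne_zero (Nat.mul_ne_zero ?_ ?_) ?_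
  · exact (Nat.choose_pos (by omega)).ne'
  · exact (Nat.choose_pos (by omega)).ne'
  · exact (Nat.choose_pos (by omega)).ne'

private theorem cval_fac (k : ℕ) :
    cval_c k * ((3 * k).factorial * (k.factorial * k.factorial * k.factorial)) =
      (6 * k).factorial := by
  have h1 := Nat.choose_mul_factorial_mul_factorial (n := 6 * k) (k := 3 * k) (by omega)
  have h2 := Nat.choose_mul_factorial_mul_factorial (n := 3 * k) (k := k) (by omega)
  have h3 := Nat.choose_mul_factorial_mul_factorial (n := 2 * k) (k := k) (by omega)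
  rw [show 6 * k - 3 * k = 3 * k by omega] at h1
  rw [show 3 * k - k = 2 * k by omega] at h2
  rw [show 2 * k - k = k by omega] at h3
  unfold cval_c
  calc (6 * k).choose (3 * k) * (3 * k).choose k * (2 * k).choose k *
        ((3 * k).factorial * (k.factorial * k.factorial * k.factorial))
      = (6 * k).choose (3 * k) * (3 * k).factorial * ((3 * k).choose k * k.factorial *
        ((2 * k).choose k * k.factorial * k.factorial)) := by ring
    _ = (6 * k).factorial := by rw [h3, h2, h1]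

private theorem cval_vfac (p : ℕ) [Fact p.Prime] (k : ℕ) :
    padicValNat p (cval_c k) + (padicValNat p (3 * k).factorial +
      3 * padicValNat p k.factorial) = padicValNat p (6 * k).factorial := by
  rw [← cval_fac k]
  have hk := Nat.factorial_ne_zero k
  rw [padicValNat.mul (cval_c_ne k) (Nat.mul_ne_zero (Nat.factorial_ne_zero _)
    (Nat.mul_ne_zero (Nat.mul_ne_zero hk hk) hk)),
    padicValNat.mul (Nat.factorial_ne_zero _) (Nat.mul_ne_zero (Nat.mul_ne_zero hk hk) hk),
    padicValNat.mul (Nat.mul_ne_zero hk hk) hk, padicValNat.mul hk hk]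
  ring

private theorem cval_zero (p : ℕ) [Fact p.Prime] (k : ℕ) :
    padicValNat p (cval_c (p * k)) = padicValNat p (cval_c k) := by
  have h1 := cval_vfac p k
  have h2 := cval_vfac p (p * k)
  have e1 := padicValNat_factorial_mul (p := p) k
  have e2 := padicValNat_factorial_mul (p := p) (3 * k)
  have e3 := padicValNat_factorial_mul (p := p) (6 * k)
  rw [show 3 * (p * k) = p * (3 * k) by ring, show 6 * (p * k) = p * (6 * k) by ring] at h2
  omega

/-- the number `c` at `k` as a natural number has the valuation in the statement -/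
private theorem cval_abs (k : ℕ) : (c3 k).natAbs = cval_c k := by
  rw [cval_c_cast]
  exact Int.natAbs_natCast _

private theorem cval_step (p : ℕ) [hp : Fact p.Prime] (e k j : ℕ) (hj : j + 1 < p)
    (h : (p : ℤ) ^ e ∣ a3.eval (((p * k + j : ℕ) : ℤ)) * c3 (p * k + j)) :
    (p : ℤ) ^ e ∣ c3 (p * k + (j + 1)) := by
  have h1 := c3_rec (p * k + j)
  rw [← h1] at h
  have hcop : IsCoprime ((p : ℤ) ^ e) ((((p * k + j : ℕ) : ℤ) + 1) ^ 3) := by
    refine IsCoprime.pow ?_
    have h2 : Nat.Coprime p (p * k + j + 1) := by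
      refine (Nat.Prime.coprime_iff_not_dvd hp.out).2 ?_
      intro hd
      have h3 : p ∣ j + 1 := by
        have h4 : p * k + j + 1 = p * k + (j + 1) := by ring
        rw [h4] at hd
        exact (Nat.dvd_add_right (Dvd.intro k rfl)).1 hd
      exact absurd (Nat.le_of_dvd (by omega) h3) (by omega)
    have h5 := Nat.isCoprime_iff_coprime.2 h2
    push_cast at h5 ⊢
    exact h5
  have h6 := hcop.dvd_of_dvd_mul_left h
  exact h6

private theorem cval_base (p : ℕ) [Fact p.Prime] (k : ℕ) :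
    (p : ℤ) ^ padicValNat p (cval_c k) ∣ c3 (p * k) := by
  rw [← cval_zero p k, cval_c_cast]
  exact_mod_cast (pow_padicValNat_dvd : p ^ padicValNat p (cval_c (p * k)) ∣ cval_c (p * k))

/-- `v_p(c_{pk+j}) >= v_p(c_k)` -/
theorem c3_val_ge (p : ℕ) [Fact p.Prime] (hp : 5 ≤ p) (k j : ℕ) (hj : j < p) :
    (p : ℤ) ^ padicValNat p (c3 k).natAbs ∣ c3 (p * k + j) := by
  rw [cval_abs]
  induction j with
  | zero =>
    rw [add_zero]
    exact cval_base p k
  | succ j ih =>
    refine cval_step p _ k j hj ?_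
    exact Dvd.dvd.mul_left (ih (by omega)) _

private theorem cval_gt_aux (p : ℕ) [Fact p.Prime] (hp : 5 ≤ p) (k j0 : ℕ) (hj0 : j0 + 1 < p)
    (h : (p : ℤ) ∣ a3.eval (((p * k + j0 : ℕ) : ℤ))) (i : ℕ) (hi : j0 + 1 + i < p) :
    (p : ℤ) ^ (padicValNat p (cval_c k) + 1) ∣ c3 (p * k + (j0 + 1 + i)) := by
  induction i with
  | zero =>
    rw [add_zero]
    refine cval_step p _ k j0 hj0 ?_
    rw [pow_succ, mul_comm]
    have h1 := c3_val_ge p hp k j0 (by omega)
    rw [cval_abs] at h1
    exact mul_dvd_mul h h1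
  | succ i ih =>
    have h1 := cval_step p (padicValNat p (cval_c k) + 1) k (j0 + 1 + i) (by omega)
      (Dvd.dvd.mul_left (ih (by omega)) _)
    exact h1

/-- `v_p(c_{pk+j}) >= 1 + v_p(c_k)` for `j >= (p-1)/2` -/
theorem c3_val_gt (p : ℕ) [Fact p.Prime] (hp : 5 ≤ p) (k j : ℕ) (hj : j < p)
    (hj2 : (p - 1) / 2 ≤ j) :
    (p : ℤ) ^ (padicValNat p (c3 k).natAbs + 1) ∣ c3 (p * k + j) := by
  rw [cval_abs]
  have hpp : p.Prime := Fact.out
  have h2 : ¬ 2 ∣ p := by
    intro h
    have := (Nat.prime_dvd_prime_iff_eq Nat.prime_two hpp).1 h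
    omega
  have h3 : ¬ 3 ∣ p := by
    intro h
    have := (Nat.prime_dvd_prime_iff_eq Nat.prime_three hpp).1 h
    omega
  have h6 : p % 6 = 1 ∨ p % 6 = 5 := by omega
  have heval : ∀ x : ℤ, a3.eval x = 24 * (2 * x + 1) * (6 * x + 1) * (6 * x + 5) := by
    intro x
    unfold a3
    simp
  obtain ⟨j0, hj0, hd⟩ : ∃ j0, j0 + 1 ≤ (p - 1) / 2 ∧
      (p : ℤ) ∣ a3.eval (((p * k + j0 : ℕ) : ℤ)) := by
    rcases h6 with h6 | h6
    · refine ⟨p / 6, by omega, ?_⟩
      rw [heval]
      have h7 : (p : ℤ) = 6 * ((p / 6 : ℕ) : ℤ) + 1 := by omega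
      refine Dvd.dvd.mul_right (Dvd.dvd.mul_left ?_ _) _
      refine ⟨6 * (k : ℤ) + 1, ?_⟩
      rw [Nat.cast_add, Nat.cast_mul]
      linear_combination - h7
    · refine ⟨p / 6, by omega, ?_⟩
      rw [heval]
      have h7 : (p : ℤ) = 6 * ((p / 6 : ℕ) : ℤ) + 5 := by omega
      refine Dvd.dvd.mul_left ?_ _
      refine ⟨6 * (k : ℤ) + 1, ?_⟩
      rw [Nat.cast_add, Nat.cast_mul]
      linear_combination - h7
  obtain ⟨i, hi⟩ : ∃ i, j = j0 + 1 + i := ⟨j - (j0 + 1), by omega⟩
  rw [hi]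
  exact cval_gt_aux p hp k j0 (by omega) hd i (by omega)

end Pool.Agent.H.MP_7425ae_nt
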