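import Pool.Agent.H.MP_7425ae_nt.TauRed

/-! The matrices of multiplication by `X` in rank three and rank two. -/

set_option autoImplicit false

open Polynomial

namespace Pool.Agent.H.MP_7425ae_nt

variable {R : Type} [CommRing R]

theorem a3_expand : a3 = C 1728 * X ^ 3 + C 2592 * X ^ 2 + C 1104 * X + C 120 := by
  unfold a3
  simp only [map_ofNat]
  ring

theorem a2_expand : a2 = C 432 * X ^ 2 + C 432 * X + C 60 := by
  unfold a2
  simp only [map_ofNat]
  ring

theorem cmpmat_natDegree3 : a3.natDegree ≤ 3 := by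
  rw [a3_expand]
  compute_degree

theorem cmpmat_natDegree2 : a2.natDegree ≤ 2 := by
  rw [a2_expand]
  compute_degree

theorem cmpmat_coeff3 : a3.coeff 3 = 1728 := by
  rw [a3_expand]
  simp [coeff_X]

theorem cmpmat_coeff2 : a2.coeff 2 = 432 := by
  rw [a2_expand]
  simp [coeff_X]

theorem lead3_iff (x : R) : Lead 3 a3 x ↔ IsUnit (1 - 1728 * x) := by
  unfold Lead
  rw [cmpmat_coeff3, and_iff_right cmpmat_natDegree3]
  norm_num

theorem lead2_iff (x : R) : Lead 2 a2 x ↔ IsUnit (1 - 432 * x) := by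
  unfold Lead
  rw [cmpmat_coeff2, and_iff_right cmpmat_natDegree2]
  norm_num

theorem cmpmat_aR3 : aR a3 R = C 1728 * X ^ 3 + C 2592 * X ^ 2 + C 1104 * X + C 120 := by
  unfold aR
  rw [a3_expand]
  simp only [Polynomial.map_add, Polynomial.map_mul, Polynomial.map_pow, Polynomial.map_X,
    Polynomial.map_C]
  simp only [map_ofNat]

theorem cmpmat_aR2 : aR a2 R = C 432 * X ^ 2 + C 432 * X + C 60 := by
  unfold aR
  rw [a2_expand]
  simp only [Polynomial.map_add, Polynomial.map_mul, Polynomial.map_pow, Polynomial.map_X,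
    Polynomial.map_C]
  simp only [map_ofNat]

/-- in `H_x` one has `(1 - 1728 x) X^3 = x (2592 X^2 + 1104 X + 120)` -/
theorem cmp3 (x e : R) (he : (1 - 1728 * x) * e = 1) :
    Cmp 3 a3 x = !![0, 0, 120 * x * e; 1, 0, 1104 * x * e; 0, 1, 2592 * x * e] := by
  have hL : Lead 3 a3 x := (lead3_iff x).2 (IsUnit.of_mul_eq_one e he)
  have hc : (1 - 1728 * C x) * C e = (1 : R[X]) := by
    have h1 := congrArg (C : R → R[X]) he
    simpa only [map_mul, map_sub, map_one, map_ofNat] using h1
  have h0 : red 3 a3 x (X ^ 1) = Pi.single (1 : Fin 3) 1 := red_X_pow hL (1 : Fin 3)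
  have h1 : red 3 a3 x (X ^ 2) = Pi.single (2 : Fin 3) 1 := red_X_pow hL (2 : Fin 3)
  have h2 : red 3 a3 x (X ^ 3) = ![120 * x * e, 1104 * x * e, 2592 * x * e] := by
    refine (red_eq hL (q := C (-e)) ?_).1
    rw [tau, cmpmat_aR3, emb, Fin.sum_univ_three, C_comp]
    simp only [Matrix.cons_val_zero, Matrix.cons_val_one, Matrix.cons_val, Fin.val_zero,
      Fin.val_one, Fin.val_two, map_mul, map_ofNat, map_neg, pow_zero, mul_one, pow_one]
    linear_combination (-X ^ 3) * hc
  ext i j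
  fin_cases j
  · change red 3 a3 x (X ^ 1) i = _
    rw [h0]
    fin_cases i <;> simp
  · change red 3 a3 x (X ^ 2) i = _
    rw [h1]
    fin_cases i <;> simp
  · change red 3 a3 x (X ^ 3) i = _
    rw [h2]
    fin_cases i <;> rfl

theorem cmp2 (x e : R) (he : (1 - 432 * x) * e = 1) :
    Cmp 2 a2 x = !![0, 60 * x * e; 1, 432 * x * e] := by
  have hL : Lead 2 a2 x := (lead2_iff x).2 (IsUnit.of_mul_eq_one e he)
  have hc : (1 - 432 * C x) * C e = (1 : R[X]) := by
    have h1 := congrArg (C : R → R[X]) he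
    simpa only [map_mul, map_sub, map_one, map_ofNat] using h1
  have h0 : red 2 a2 x (X ^ 1) = Pi.single (1 : Fin 2) 1 := red_X_pow hL (1 : Fin 2)
  have h2 : red 2 a2 x (X ^ 2) = ![60 * x * e, 432 * x * e] := by
    refine (red_eq hL (q := C (-e)) ?_).1
    rw [tau, cmpmat_aR2, emb, Fin.sum_univ_two, C_comp]
    simp only [Matrix.cons_val_zero, Matrix.cons_val_one, Fin.val_zero,
      Fin.val_one, map_mul, map_ofNat, map_neg, pow_zero, mul_one, pow_one]
    linear_combination (-X ^ 2) * hc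
  ext i j
  fin_cases j
  · change red 2 a2 x (X ^ 1) i = _
    rw [h0]
    fin_cases i <;> simp
  · change red 2 a2 x (X ^ 2) i = _
    rw [h2]
    fin_cases i <;> rfl

end Pool.Agent.H.MP_7425ae_nt
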