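import Pool.Agent.H.MP_7425ae_nt.Comm19B

/-! The commutation at the CM point for `p = 19`. -/

set_option autoImplicit false

open Polynomial

namespace Pool.Agent.H.MP_7425ae_nt

/-- the element `t` for `a = (1-w)/864`, `aσ = (1-wσ)/864` -/
theorem comm19_t {A : Type} [CommRing A] {rho w wσ a aσ e : A} (hr : rho ^ 2 = -19)
    (h864 : IsUnit (864 : A)) (ha : 864 * a = 1 - w) (haσ : 864 * aσ = 1 - wσ)
    (hw : wσ = w ^ 19 + rho * e) (hu : IsUnit aσ) :
    ∃ t : A, (1 + rho * t) * aσ = a ^ 19 := by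
  obtain ⟨r, hr1⟩ := exists_add_pow_prime_eq (p := 19) (by norm_num) (1 : A) (-w)
  have h1 : (1 - w) ^ 19 = 1 - w ^ 19 + 19 * (-w) * r := by
    have h2 : (1 - w) ^ 19 = (1 + -w) ^ 19 := by ring
    rw [h2, hr1]
    push_cast
    ring
  have h3 : (864 : A) ^ 18 = 1 + 19 * 3788730932104102239101225366482051152955897208387045 := by
    norm_num
  have h4 : (864 : A) ^ 19 * a ^ 19 = (1 - w) ^ 19 := by
    rw [← mul_pow, ha]
  obtain ⟨i, hi⟩ := (h864.pow 19).exists_right_inv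
  obtain ⟨j, hj⟩ := hu.exists_right_inv
  set q : A := e + rho * w * r +
    rho * 3788730932104102239101225366482051152955897208387045 * (1 - wσ) with hq
  have h5 : (864 : A) ^ 19 * (a ^ 19 - aσ) = rho * q := by
    have h6 : (864 : A) ^ 19 * aσ = (864 : A) ^ 18 * (1 - wσ) := by
      rw [← haσ]
      ring
    rw [mul_sub, h4, h1, h6, h3, hq]
    linear_combination hw + (w * r + 3788730932104102239101225366482051152955897208387045
      * (1 - wσ)) * (-hr)
  refine ⟨q * i * j, ?_⟩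
  have h7 : a ^ 19 - aσ = rho * (q * i) := by
    calc a ^ 19 - aσ = ((864 : A) ^ 19 * i) * (a ^ 19 - aσ) := by rw [hi, one_mul]
      _ = ((864 : A) ^ 19 * (a ^ 19 - aσ)) * i := by ring
      _ = rho * (q * i) := by rw [h5]; ring
  calc (1 + rho * (q * i * j)) * aσ = aσ + rho * (q * i) * (aσ * j) := by ring
    _ = aσ + rho * (q * i) := by rw [hj, mul_one]
    _ = a ^ 19 := by rw [← h7]; ring

theorem comm19_rho {R : Type} [CommRing R] {β ι v : R} (H : CM19 β ι v) :
    (2 * β - 1) ^ 2 = -19 := by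
  linear_combination 4 * H.hβ

theorem comm19_864 {R : Type} [CommRing R] {β ι v : R} (H : CM19 β ι v) :
    IsUnit (864 : R) := by
  obtain ⟨h2, h3, -⟩ := H.units
  have h : (864 : R) = 2 ^ 5 * 3 ^ 3 := by norm_num
  rw [h]
  exact (h2.pow 5).mul (h3.pow 3)

/-- the element `t` exists -/
theorem exists_t19 {R : Type} [CommRing R] {β ι v : R} (H : CM19 β ι v) (u u' : R)
    (hu : 864 * u = 1 - v) (hu' : 864 * u' = 1 + v) :
    ∃ t : R, (1 + (2 * β - 1) * t) * u' = u ^ 19 := by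
  have hn := H.units.2.2.2.2.2.1
  obtain ⟨i, hi⟩ := (H.units.1.pow 5).exists_right_inv
  have h32 : (32 : R) * i = 1 := by
    rw [← hi]
    norm_num
  have hv : v = (2 * β - 1) * (3 * ι * i) := by
    linear_combination (-v) * h32 + i * H.hv
  refine comm19_t (w := v) (wσ := -v) (e := -(3 * ι * i) - 3 * ι * i * v ^ 18)
    (comm19_rho H) (comm19_864 H) hu ?_ ?_ ?_
  · rw [hu']
    ring
  · linear_combination (-1 - v ^ 18) * hv
  · apply isUnit_of_mul_isUnit_right (x := (864 : R))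
    rw [hu']
    exact hn

/-- apply `comm_gen` in the localization of `R[[ε]]` at `E1(h) E2(h)`, descend to `R[[ε]]` and
put `ε = 0`. -/
theorem comm19 {W : Type} [CommRing W] {S3 S2 : Sys W}
    (h3 : S3.Good 19 3 a3 c3) (h2 : S2.Good 19 2 a2 c2) (hr : S3.rho = S2.rho) (s : ℕ)
    (R : Type) [CommRing R] (f : W →+* R) (hs : ((19 : ℕ) : R) ^ s = 0)
    {β ι v : R} (H : CM19 β ι v) (hρ : f S3.rho = 2 * β - 1) (u u' t : R)
    (hu : 864 * u = 1 - v) (hu' : 864 * u' = 1 + v) (ht : (1 + f S3.rho * t) * u' = u ^ 19) :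
    Sy2 (Mmat 19 2 a2 (S2.dat s f) u u' t) *
        Bs (h0 β) (24 * ι * Ring.inverse β ^ 2) (24 * ι * Ring.inverse β ^ 4) v v
      = Bs (h0 β) (- (24 * ι * Ring.inverse β ^ 2)) (- (24 * ι * Ring.inverse β ^ 4)) (-v) (-v)
        * Sy2 (Mmat 19 2 a2 (S2.dat s f) u u' t) := by
  obtain ⟨h, z, η, ζ, ησ, ζσ, w, w', wσ, wσ', κ, P, hh, n1, l1, n2, l2, ch, cg, cη, cζ, cησ,
    cζσ, cw, cw', cwσ, cwσ', cκ⟩ := exists_lift19 H
  have u864 : IsUnit (864 : R) := comm19_864 H
  obtain ⟨hU2, hU3, -, -, -, hv1, hv2, -, -⟩ := H.units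
  obtain ⟨i864, hi864⟩ := u864.exists_right_inv
  -- the ring homomorphisms
  set C' : R →+* PowerSeries R := PowerSeries.C with hC'
  set φ0 : PowerSeries R →+* R := PowerSeries.constantCoeff with hφ0
  have hφC : ∀ x : R, φ0 (C' x) = x := fun x => PowerSeries.constantCoeff_C x
  have hfr : (C'.comp f) S3.rho = C' (2 * β - 1) := by
    rw [RingHom.comp_apply, hρ]
  have hcomp : φ0.comp (C'.comp f) = f := by
    ext x
    rw [RingHom.comp_apply, RingHom.comp_apply, hφC]
  have h864C : C' i864 * 864 = 1 := by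
    have h1 : (864 : PowerSeries R) = C' 864 := (map_ofNat C' 864).symm
    rw [h1, ← map_mul, mul_comm i864, hi864, map_one]
  have u864S : IsUnit (864 : PowerSeries R) := IsUnit.of_mul_eq_one_right _ h864C
  set a : PowerSeries R := C' i864 * (1 - w) with ha
  set a' : PowerSeries R := C' i864 * (1 - w') with ha'
  set aσ : PowerSeries R := C' i864 * (1 - wσ) with haσ
  set aσ' : PowerSeries R := C' i864 * (1 - wσ') with haσ'
  have ea : 864 * a = 1 - w := by rw [ha]; linear_combination (1 - w) * h864C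
  have ea' : 864 * a' = 1 - w' := by rw [ha']; linear_combination (1 - w') * h864C
  have eaσ : 864 * aσ = 1 - wσ := by rw [haσ]; linear_combination (1 - wσ) * h864C
  have eaσ' : 864 * aσ' = 1 - wσ' := by rw [haσ']; linear_combination (1 - wσ') * h864C
  clear_value a a' aσ aσ'
  have hρ2 : (C' (2 * β - 1)) ^ 2 = -19 := by
    rw [← map_pow, comm19_rho H, map_neg, map_ofNat]
  have iaσ : IsUnit aσ := by
    apply isUnit_of_mul_isUnit_right (x := (864 : PowerSeries R))
    rw [eaσ, PowerSeries.isUnit_iff_constantCoeff, map_sub, map_one, cwσ]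
    rw [sub_neg_eq_add]
    exact hv1
  have iaσ' : IsUnit aσ' := by
    apply isUnit_of_mul_isUnit_right (x := (864 : PowerSeries R))
    rw [eaσ', PowerSeries.isUnit_iff_constantCoeff, map_sub, map_one, cwσ']
    rw [sub_neg_eq_add]
    exact hv1
  obtain ⟨e1, he1⟩ := P.fv
  obtain ⟨e2, he2⟩ := P.fv'
  obtain ⟨tt, htt⟩ := comm19_t hρ2 u864S ea eaσ he1 iaσ
  obtain ⟨tt', htt'⟩ := comm19_t hρ2 u864S ea' eaσ' he2 iaσ'
  -- the localization
  obtain ⟨L, iL, i, hinj, hFu, -⟩ := loc_nzd (E1 h * E2 h) (by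
    intro G hG
    apply ps_nzd (E2 h) G n2 l2
    apply ps_nzd (E1 h) _ n1 l1
    rw [← mul_assoc]
    exact hG)
  rw [map_mul, IsUnit.mul_iff] at hFu
  have hsL : ((19 : ℕ) : L) ^ s = 0 := by
    have h1 : ((19 : ℕ) : L) ^ s = i (C' (((19 : ℕ) : R) ^ s)) := by
      rw [map_pow, map_pow, map_natCast, map_natCast]
    rw [h1, hs, map_zero, map_zero]
  have hfrL : (i.comp (C'.comp f)) S3.rho = i (C' (2 * β - 1)) := by
    rw [RingHom.comp_apply, hfr]
  have PL := P.map i
  have eg : i (gf 19 (C' (2 * β - 1)) h z)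
      = gf 19 ((i.comp (C'.comp f)) S3.rho) (i h) (i z) := by
    rw [hfrL, gf_map]

  rw [eg, ← hfrL] at PL
  have key := comm_gen (p := 19) (by norm_num) h3 h2 hr s L (i.comp (C'.comp f)) hsL
    (i h) (i z) (i η) (i ζ) (i ησ) (i ζσ) (i w) (i w') (i wσ) (i wσ') (i κ) (hh.map i) PL
    (by rw [E1_map]; exact hFu.1) (by rw [E2_map]; exact hFu.2)
    (i a) (i a') (i aσ) (i aσ') (i tt) (i tt')
    (by rw [← map_ofNat i 864, ← map_mul, ea, map_sub, map_one])
    (by rw [← map_ofNat i 864, ← map_mul, ea', map_sub, map_one])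
    (by rw [← map_ofNat i 864, ← map_mul, eaσ, map_sub, map_one])
    (by rw [← map_ofNat i 864, ← map_mul, eaσ', map_sub, map_one])
    (by rw [hfrL, ← map_pow, ← htt, map_mul, map_add, map_one, map_mul])
    (by rw [hfrL, ← map_pow, ← htt', map_mul, map_add, map_one, map_mul])
  -- leading coefficients
  have two : IsUnit (2 : PowerSeries R) := by
    have h1 := hU2.map C'
    rwa [map_ofNat] at h1
  have lead : ∀ x v1 : PowerSeries R, 864 * x = 1 - v1 → IsUnit (1 + v1) → Lead 2 a2 x := by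
    intro x v1 hx hv
    rw [lead2_iff]
    apply isUnit_of_mul_isUnit_right (x := (2 : PowerSeries R))
    have h1 : (2 : PowerSeries R) * (1 - 432 * x) = 1 + v1 := by linear_combination -hx
    rw [h1]
    exact hv
  have lσ : Lead 2 a2 aσ := lead aσ wσ eaσ P.uvσ
  have lσ' : Lead 2 a2 aσ' := lead aσ' wσ' eaσ' P.uvσ'
  have zu : IsUnit ζ := (isUnit_pow_iff (n := 2) two_ne_zero).1 (by
    rw [P.hζ]; exact P.e0.mul P.d2)
  have zuσ : IsUnit ζσ := (isUnit_pow_iff (n := 2) two_ne_zero).1 (by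
    rw [P.hζσ]; exact P.e0g.mul P.d2g)
  -- the identity over the power series
  have keyS : Sy2 (Mmat 19 2 a2 (S2.dat s (C'.comp f)) a' aσ' tt') * Bs h η ζ w w'
      = κ • (Bs (gf 19 (C' (2 * β - 1)) h z) ησ ζσ wσ wσ' *
        Sy2 (Mmat 19 2 a2 (S2.dat s (C'.comp f)) a aσ tt)) := by
    apply Matrix.map_injective hinj
    rw [Sys.dat_map, Mmat_map _ _ _ _ lσ', Mmat_map _ _ _ _ lσ, Sy2_map, Sy2_map,
      Bs_map P.d1 P.d2 zu P.uv, ← eg, Bs_map P.d1g P.d2g zuσ P.uvσ, ← Matrix.map_mul,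
      ← Matrix.map_mul] at key
    beta_reduce
    rw [key]
    ext x y
    rw [Matrix.map_apply, Matrix.smul_apply, Matrix.smul_apply, smul_eq_mul, smul_eq_mul,
      Matrix.map_apply, map_mul]
  -- put the variable equal to zero
  have key0 : (Sy2 (Mmat 19 2 a2 (S2.dat s (C'.comp f)) a' aσ' tt') * Bs h η ζ w w').map φ0
      = (κ • (Bs (gf 19 (C' (2 * β - 1)) h z) ησ ζσ wσ wσ' *
        Sy2 (Mmat 19 2 a2 (S2.dat s (C'.comp f)) a aσ tt))).map φ0 := by rw [keyS]
  have sm : ∀ (c : PowerSeries R) (M : Matrix (Fin 3) (Fin 3) (PowerSeries R)),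
      (c • M).map φ0 = φ0 c • M.map φ0 := by
    intro c M
    ext x y
    rw [Matrix.map_apply, Matrix.smul_apply, Matrix.smul_apply, smul_eq_mul, smul_eq_mul,
      Matrix.map_apply, map_mul]
  rw [Matrix.map_mul, sm, Matrix.map_mul, ← Sy2_map, ← Sy2_map, ← Mmat_map _ _ _ _ lσ',
    ← Mmat_map _ _ _ _ lσ, ← Sys.dat_map, hcomp, ← Bs_map P.d1 P.d2 zu P.uv,
    ← Bs_map P.d1g P.d2g zuσ P.uvσ, cκ, one_smul, ch, cg, cη, cζ, cησ, cζσ, cw, cw', cwσ,
    cwσ'] at key0
  have fu : ∀ x v1 : PowerSeries R, 864 * x = 1 - v1 → ∀ y : R, 864 * y = 1 - φ0 v1 →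
      φ0 x = y := by
    intro x v1 hx y hy
    have h1 := congrArg φ0 hx
    rw [map_mul, map_ofNat, map_sub, map_one, ← hy] at h1
    exact u864.mul_left_cancel h1
  have fa : φ0 a = u := fu a w ea u (by rw [cw]; exact hu)
  have fa' : φ0 a' = u := fu a' w' ea' u (by rw [cw']; exact hu)
  have faσ : φ0 aσ = u' := fu aσ wσ eaσ u' (by rw [cwσ, sub_neg_eq_add]; exact hu')
  have faσ' : φ0 aσ' = u' := fu aσ' wσ' eaσ' u' (by rw [cwσ', sub_neg_eq_add]; exact hu')
  have iu' : IsUnit u' := by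
    apply isUnit_of_mul_isUnit_right (x := (864 : R))
    rw [hu']
    exact hv1
  have tcmp : ∀ x : PowerSeries R, (1 + C' (2 * β - 1) * x) * aσ = a ^ 19 ∨
      (1 + C' (2 * β - 1) * x) * aσ' = a' ^ 19 →
      (S2.dat s f).rho * φ0 x = (S2.dat s f).rho * t := by
    intro x hx
    have h5 : (1 + (2 * β - 1) * φ0 x) * u' = u ^ 19 := by
      rcases hx with hx | hx
      · have h1 := congrArg φ0 hx
        rw [map_mul, map_add, map_one, map_mul, hφC, map_pow, fa, faσ] at h1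
        exact h1
      · have h1 := congrArg φ0 hx
        rw [map_mul, map_add, map_one, map_mul, hφC, map_pow, fa', faσ'] at h1
        exact h1
    rw [← ht, hρ] at h5
    have h6 := iu'.mul_right_cancel h5
    have h7 := add_left_cancel h6
    have h8 : (S2.dat s f).rho = 2 * β - 1 := by
      show f S2.rho = 2 * β - 1
      rw [← hr, hρ]
    rw [h8]
    exact h7
  have hok := h2.ok s R f hs
  rw [fa, fa', faσ, faσ', Mmat_congr hok u u' (φ0 tt) t (tcmp tt (Or.inl htt)),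
    Mmat_congr hok u u' (φ0 tt') t (tcmp tt' (Or.inr htt'))] at key0
  exact key0

end Pool.Agent.H.MP_7425ae_nt
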