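import Pool.Agent.H.MP_7425ae_nt.UBPs

/-! Frobenius commutes with the 5-isogeny: `M_{x'} B(h) = kappa B(g) M_x`. -/

set_option autoImplicit false

open Polynomial

namespace Pool.Agent.H.MP_7425ae_nt

/-- the denominator of the family -/
noncomputable def ub_b (R : Type) [CommRing R] (h : R) : R := D1 h * D2 h * E0 h * E1 h * E2 h

theorem ub_b_map {R S : Type} [CommRing R] [CommRing S] (f : R →+* S) (h : R) :
    ub_b S (f h) = f (ub_b R h) := by
  unfold ub_b
  rw [D1_map, D2_map, E0_map, E1_map, E2_map, map_mul, map_mul, map_mul, map_mul]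

theorem ub_zero (R : Type) [CommRing R] : ub_b R 0 = 1 := by
  simp [ub_b, D1, D2, E0, E1, E2]

theorem ub_U5 {R : Type} [CommRing R] {h : R} (u : IsUnit (ub_b R h)) : U5 h := by
  unfold ub_b at u
  rw [IsUnit.mul_iff, IsUnit.mul_iff, IsUnit.mul_iff, IsUnit.mul_iff] at u
  exact ⟨u.1.1.1.1, u.1.1.1.2, u.1.1.2, u.1.2, u.2⟩

theorem ub_U5' {R : Type} [CommRing R] {h : R} (u : U5 h) : IsUnit (ub_b R h) :=
  (((u.d1.mul u.d2).mul u.e0).mul u.e1).mul u.e2

theorem ub_ev2 {W R : Type} [CommRing W] [CommRing R] (f : W →+* R) (h z : R) :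
    ev2 f (ub_b W[X][X] X) h z = ub_b R h := by
  unfold ev2
  have h1 := ub_b_map (eval₂RingHom (eval₂RingHom f z) h) (X : W[X][X])
  rw [coe_eval₂RingHom, eval₂_X] at h1
  exact h1.symm

theorem ub_coeff (W : Type) [CommRing W] : (ub_b W[X][X] X).coeff 0 = 1 := by
  have h1 := ub_b_map (Polynomial.constantCoeff (R := W[X])) (X : W[X][X])
  rw [Polynomial.constantCoeff_apply, Polynomial.constantCoeff_apply, Polynomial.coeff_X_zero,
    ub_zero] at h1
  exact h1.symm

theorem ub_psi {p : ℕ} [Fact p.Prime] (hp : 5 ≤ p) {W : Type} [CommRing W] {S : Sys W}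
    (hS : S.Good p 3 a3 c3) (s : ℕ) (R : Type) [CommRing R] (f : W →+* R)
    (hs : (p : R) ^ s = 0) (h z : R) (u : U5 h) : PsiB p S s R f h z = 0 := by
  refine universal (W := W) p s 3 (ub_b W[X][X] X) ?_
    (fun R _ f h z => PsiB p S s R f h z) ?_ (PsiB_ps hp hS s) R f h z hs ?_
  · rw [ub_coeff]
    exact isUnit_one
  · intro R R' _ _ f φ h z hs hu
    rw [ub_ev2] at hu
    exact PsiB_nat hp hS s R R' f φ h z hs (ub_U5 hu)
  · rw [ub_ev2]
    exact ub_U5' u

/-- the universal commutation -/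
theorem UB {p : ℕ} [Fact p.Prime] (hp : 5 ≤ p) {W : Type} [CommRing W] {S : Sys W}
    (hS : S.Good p 3 a3 c3) (s : ℕ) (R : Type) [CommRing R] (f : W →+* R)
    (hs : (p : R) ^ s = 0) (h z : R) (hh : IsUnit h) (u : U5 h) (t t' κ : R)
    (ht : (1 + f S.rho * t) * xf (gf p (f S.rho) h z) = xf h ^ p)
    (ht' : (1 + f S.rho * t') * xg (gf p (f S.rho) h z) = xg h ^ p)
    (hκ : IsKappa p h (gf p (f S.rho) h z) κ) :
    Mmat p 3 a3 (S.dat s f) (xg h) (xg (gf p (f S.rho) h z)) t' * Bm h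
      = κ • (Bm (gf p (f S.rho) h z) *
        Mmat p 3 a3 (S.dat s f) (xf h) (xf (gf p (f S.rho) h z)) t) := by
  have hok := hS.ok s R f hs
  have hr : f S.rho ∣ (p : R) := hok.rho_dvd
  have hn : IsNilpotent (f S.rho) := hok.rho_nilp
  have h2 : IsUnit (2 : R) := ubps_two hp hS f
  have ug := U5_gf p (f S.rho) h z hr hn u
  have hz := ub_psi hp hS s R f hs h z u
  have h1 := tf_spec p (f S.rho) h z _ hr hn u (ubps_tF p (f S.rho) h z hr hn u)
  have h3 := tg_spec p (f S.rho) h z _ hr hn u (ubps_tG p (f S.rho) h z hr hn u)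
  have h4 := kappa_unique p (by omega) (f S.rho) h z κ _ hr hn h2 u hκ
    (ubps_kap p (by omega) (f S.rho) h z hr hn h2 u)
  have hgu : IsUnit (gf p (f S.rho) h z) := by
    unfold gf
    have := ubps_unit_add hn (z * h)
    rw [← mul_assoc] at this
    exact (hh.pow p).mul this
  have hxf : IsUnit (xf (gf p (f S.rho) h z)) := by
    unfold xf
    exact hgu.mul ((ug.d1.ringInverse).pow 3)
  have hxg : IsUnit (xg (gf p (f S.rho) h z)) := by
    unfold xg
    exact (hgu.pow 5).mul ((ug.d2.ringInverse).pow 3)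
  have e1 : f S.rho * t = f S.rho * tF p (f S.rho) h z := by
    rw [← h1] at ht
    have := hxf.mul_right_cancel ht
    exact add_left_cancel this
  have e2 : f S.rho * t' = f S.rho * tG p (f S.rho) h z := by
    rw [← h3] at ht'
    have := hxg.mul_right_cancel ht'
    exact add_left_cancel this
  rw [Mmat_congr hok (xf h) (xf (gf p (f S.rho) h z)) t (tF p (f S.rho) h z) e1,
    Mmat_congr hok (xg h) (xg (gf p (f S.rho) h z)) t' (tG p (f S.rho) h z) e2, h4]
  unfold PsiB at hz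
  exact sub_eq_zero.mp hz

end Pool.Agent.H.MP_7425ae_nt
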