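import Pool.Agent.H.MP_7425ae_nt.USPs

/-! Frobenius on `H_x` is the symmetric square of Frobenius on `H_u`. -/

set_option autoImplicit false

open Polynomial

namespace Pool.Agent.H.MP_7425ae_nt

/-- the denominator of the family -/
noncomputable def us_b (R : Type) [CommRing R] (h : R) : R := (1 - 432 * h) * (1 - 864 * h)

theorem us_b_map {R S : Type} [CommRing R] [CommRing S] (f : R →+* S) (h : R) :
    us_b S (f h) = f (us_b R h) := by
  simp [us_b, map_ofNat]

theorem us_UU {R : Type} [CommRing R] {h : R} (u : IsUnit (us_b R h)) : UU h := by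
  unfold us_b at u
  rw [IsUnit.mul_iff] at u
  exact ⟨u.1, u.2⟩

theorem us_UU' {R : Type} [CommRing R] {h : R} (u : UU h) : IsUnit (us_b R h) := u.a.mul u.b

theorem us_ev2 {W R : Type} [CommRing W] [CommRing R] (f : W →+* R) (h z : R) :
    ev2 f (us_b W[X][X] X) h z = us_b R h := by
  unfold ev2
  have h1 := us_b_map (eval₂RingHom (eval₂RingHom f z) h) (X : W[X][X])
  rw [coe_eval₂RingHom, eval₂_X] at h1
  exact h1.symm

theorem us_coeff (W : Type) [CommRing W] : (us_b W[X][X] X).coeff 0 = 1 := by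
  have h1 := us_b_map (Polynomial.constantCoeff (R := W[X])) (X : W[X][X])
  rw [Polynomial.constantCoeff_apply, Polynomial.constantCoeff_apply, Polynomial.coeff_X_zero] at h1
  rw [← h1]
  simp [us_b]

theorem us_psi {p : ℕ} [Fact p.Prime] (hp : 5 ≤ p) {W : Type} [CommRing W] {S3 S2 : Sys W}
    (h3 : S3.Good p 3 a3 c3) (h2 : S2.Good p 2 a2 c2) (hr : S3.rho = S2.rho) (s : ℕ)
    (R : Type) [CommRing R] (f : W →+* R) (hs : (p : R) ^ s = 0) (h z : R) (u : UU h) :
    PsiS p S3 S2 s R f h z = 0 := by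
  refine universal (W := W) p s 3 (us_b W[X][X] X) ?_
    (fun R _ f h z => PsiS p S3 S2 s R f h z) ?_ (PsiS_ps hp h3 h2 hr s) R f h z hs ?_
  · rw [us_coeff]
    exact isUnit_one
  · intro R R' _ _ f φ h z hs hu
    rw [us_ev2] at hu
    exact PsiS_nat hp h3 h2 hr s R R' f φ h z hs (us_UU hu)
  · rw [us_ev2]
    exact us_UU' u

/-- `M_x Cm(u) = Cm(u') Sy2(M_u)` for `x = u (1 - 432 u)` -/
theorem US {p : ℕ} [Fact p.Prime] (hp : 5 ≤ p) {W : Type} [CommRing W] {S3 S2 : Sys W}
    (h3 : S3.Good p 3 a3 c3) (h2 : S2.Good p 2 a2 c2) (hr : S3.rho = S2.rho) (s : ℕ)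
    (R : Type) [CommRing R] (f : W →+* R) (hs : (p : R) ^ s = 0) (u u' t t' : R)
    (hu : IsUnit u) (huu : UU u) (ht : (1 + f S3.rho * t) * u' = u ^ p)
    (ht' : (1 + f S3.rho * t') * xu u' = xu u ^ p) :
    Mmat p 3 a3 (S3.dat s f) (xu u) (xu u') t' * Cm u
      = Cm u' * Sy2 (Mmat p 2 a2 (S2.dat s f) u u' t) := by
  have ok3 := h3.ok s R f hs
  have ok2 := h2.ok s R f hs
  have hrd : f S3.rho ∣ (p : R) := ok3.rho_dvd
  have hn : IsNilpotent (f S3.rho) := ok3.rho_nilp
  have hut : IsUnit (1 + f S3.rho * t) :=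
    famt_unit (e := t) (isUnit_one (M := R)) hn
  have hi : Ring.inverse (1 + f S3.rho * t) * (1 + f S3.rho * t) = 1 :=
    Ring.inverse_mul_cancel _ hut
  have hiu : Ring.inverse u * u = 1 := Ring.inverse_mul_cancel _ hu
  obtain ⟨z, hz⟩ : ∃ z, z = -(t * Ring.inverse (1 + f S3.rho * t) * Ring.inverse u) := ⟨_, rfl⟩
  have e0 : 1 + f S3.rho * z * u = Ring.inverse (1 + f S3.rho * t) := by
    rw [hz]
    linear_combination (-(f S3.rho * t * Ring.inverse (1 + f S3.rho * t))) * hiu - hi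
  have hg : gf p (f S3.rho) u z = u' := by
    unfold gf
    rw [e0, ← ht]
    linear_combination u' * hi
  have uu' : UU u' := by
    rw [← hg]
    exact UU_gf p _ u z hrd hn huu
  have un : IsUnit (1 + f S3.rho * z * u) := usdef_unit _ _ _ hn
  have hu' : IsUnit u' := by
    rw [← hg]
    exact (hu.pow p).mul un
  have hxu : IsUnit (xu u') := hu'.mul uu'.a
  have sU := tU_spec (f S3.rho) u z hn
  have sX := tX_spec p (f S3.rho) u z hrd hn huu
  have e1 : f S3.rho * t = f S3.rho * tU (f S3.rho) u z := by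
    refine usdef_t_eq _ _ _ _ _ un ?_ sU
    rw [e0]
    linear_combination hi
  have e2 : f S3.rho * t' = f S3.rho * tX p (f S3.rho) u z := by
    refine usdef_t_eq _ _ _ _ _ hxu ht' ?_
    rw [hg] at sX
    have hg' : u ^ p * (1 + f S3.rho * z * u) = u' := hg
    unfold xu
    rw [mul_pow, ← sX]
    linear_combination (-(1 + f S3.rho * tX p (f S3.rho) u z) * (1 - 432 * u')) * hg'
  have hz0 := us_psi hp h3 h2 hr s R f hs u z huu
  unfold PsiS at hz0
  rw [hg] at hz0
  rw [Mmat_congr ok3 (xu u) (xu u') t' (tX p (f S3.rho) u z) e2,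
    Mmat_congr ok2 u u' t (tU (f S3.rho) u z) (by
      have hrd2 : (S2.dat s f).rho = f S3.rho := by
        rw [hr]
        rfl
      rw [hrd2]
      exact e1)]
  exact sub_eq_zero.mp hz0

end Pool.Agent.H.MP_7425ae_nt
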