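import Pool.Agent.H.MP_7425ae_nt.BtDef
import Pool.Agent.H.MP_7425ae_nt.UB
import Pool.Agent.H.MP_7425ae_nt.US

/-! The commutation of Frobenius with the 5-isogeny on the symmetric squares. -/

set_option autoImplicit false

open Polynomial

namespace Pool.Agent.H.MP_7425ae_nt

/-- points of the curve `η^2 = E0 D1`, `ζ^2 = E0 D2` over `h` and over `g`, compatible with
Frobenius; `v = E1 η / D1^2`, `v' = E2 ζ / D2^2`. The polynomials `E1`, `E2` need not be units. -/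
structure Pt19 {A : Type} [CommRing A] (p : ℕ) (rho h g η ζ ησ ζσ v v' vσ vσ' κ : A) : Prop where
  d1 : IsUnit (D1 h)
  d2 : IsUnit (D2 h)
  e0 : IsUnit (E0 h)
  d1g : IsUnit (D1 g)
  d2g : IsUnit (D2 g)
  e0g : IsUnit (E0 g)
  hη : η ^ 2 = E0 h * D1 h
  hζ : ζ ^ 2 = E0 h * D2 h
  hησ : ησ ^ 2 = E0 g * D1 g
  hζσ : ζσ ^ 2 = E0 g * D2 g
  hv : v * D1 h ^ 2 = E1 h * η
  hv' : v' * D2 h ^ 2 = E2 h * ζ
  hvσ : vσ * D1 g ^ 2 = E1 g * ησ
  hvσ' : vσ' * D2 g ^ 2 = E2 g * ζσ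
  fv : ∃ e : A, vσ = v ^ p + rho * e
  fv' : ∃ e : A, vσ' = v' ^ p + rho * e
  uv : IsUnit (1 + v)
  uv' : IsUnit (1 + v')
  uvσ : IsUnit (1 + vσ)
  uvσ' : IsUnit (1 + vσ')
  kap : κ ^ 2 * (D1 h * D2 g) = D1 g * D2 h
  kapn : IsNilpotent (κ - (D1 h * Ring.inverse (D2 h)) ^ ((p - 1) / 2))

theorem Pt19.map {A B : Type} [CommRing A] [CommRing B] {p : ℕ}
    {rho h g η ζ ησ ζσ v v' vσ vσ' κ : A} (H : Pt19 p rho h g η ζ ησ ζσ v v' vσ vσ' κ)
    (i : A →+* B) :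
    Pt19 p (i rho) (i h) (i g) (i η) (i ζ) (i ησ) (i ζσ) (i v) (i v') (i vσ) (i vσ') (i κ) where
  d1 := by rw [D1_map]; exact H.d1.map i
  d2 := by rw [D2_map]; exact H.d2.map i
  e0 := by rw [E0_map]; exact H.e0.map i
  d1g := by rw [D1_map]; exact H.d1g.map i
  d2g := by rw [D2_map]; exact H.d2g.map i
  e0g := by rw [E0_map]; exact H.e0g.map i
  hη := by rw [E0_map, D1_map, ← map_pow, H.hη, map_mul]
  hζ := by rw [E0_map, D2_map, ← map_pow, H.hζ, map_mul]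
  hησ := by rw [E0_map, D1_map, ← map_pow, H.hησ, map_mul]
  hζσ := by rw [E0_map, D2_map, ← map_pow, H.hζσ, map_mul]
  hv := by rw [D1_map, E1_map, ← map_pow, ← map_mul, H.hv, map_mul]
  hv' := by rw [D2_map, E2_map, ← map_pow, ← map_mul, H.hv', map_mul]
  hvσ := by rw [D1_map, E1_map, ← map_pow, ← map_mul, H.hvσ, map_mul]
  hvσ' := by rw [D2_map, E2_map, ← map_pow, ← map_mul, H.hvσ', map_mul]
  fv := by
    obtain ⟨e, he⟩ := H.fv
    exact ⟨i e, by rw [he, map_add, map_pow, map_mul]⟩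
  fv' := by
    obtain ⟨e, he⟩ := H.fv'
    exact ⟨i e, by rw [he, map_add, map_pow, map_mul]⟩
  uv := by
    have h := H.uv.map i
    rwa [map_add, map_one] at h
  uv' := by
    have h := H.uv'.map i
    rwa [map_add, map_one] at h
  uvσ := by
    have h := H.uvσ.map i
    rwa [map_add, map_one] at h
  uvσ' := by
    have h := H.uvσ'.map i
    rwa [map_add, map_one] at h
  kap := by
    rw [D1_map, D2_map, D1_map, D2_map, ← map_pow, ← map_mul, ← map_mul, ← map_mul, H.kap]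
  kapn := by
    have h := H.kapn.map i
    rw [map_sub, map_pow, map_mul, ← famb_inv_map i H.d2] at h
    rw [D1_map, D2_map]
    exact h

/-- the half of a unit relation -/
theorem comm19a_UU {A : Type} [CommRing A] {a v : A} (ha : 864 * a = 1 - v)
    (hv1 : IsUnit (1 + v)) (hv : IsUnit v) : UU a := by
  constructor
  · apply isUnit_of_mul_isUnit_right (x := (2 : A))
    have h1 : (2 : A) * (1 - 432 * a) = 1 + v := by linear_combination -ha
    rw [h1]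
    exact hv1
  · have h1 : 1 - 864 * a = v := by linear_combination -ha
    rw [h1]
    exact hv

/-- `v` is a unit when `E` is -/
theorem comm19a_v {A : Type} [CommRing A] {v D E E0' η : A} (hη : η ^ 2 = E0' * D)
    (hv : v * D ^ 2 = E * η) (hD : IsUnit D) (hE : IsUnit E) (hE0 : IsUnit E0') : IsUnit v := by
  have h1 : IsUnit (η ^ 2) := by
    rw [hη]
    exact hE0.mul hD
  have h2 : IsUnit η := (isUnit_pow_iff two_ne_zero).1 h1
  apply isUnit_of_mul_isUnit_left (y := D ^ 2)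
  rw [hv]
  exact hE.mul h2

/-- `Cm u` is invertible -/
theorem comm19a_Cm {A : Type} [CommRing A] {u : A} (h2 : IsUnit (2 : A)) (hu : UU u) :
    IsUnit (Cm u) := by
  rw [Matrix.isUnit_iff_isUnit_det]
  have h1 : (Cm u).det = ((1 - 864 * u) * Ring.inverse (1 - 432 * u) * Ring.inverse 2) *
      ((1 - 864 * u) ^ 2 * Ring.inverse (1 - 432 * u) ^ 2 * Ring.inverse 2) := by
    rw [Matrix.det_fin_three]
    simp [Cm]
  rw [h1]
  have i2 : IsUnit (Ring.inverse (2 : A)) := h2.ringInverse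
  have iu : IsUnit (Ring.inverse (1 - 432 * u)) := hu.a.ringInverse
  exact ((hu.b.mul iu).mul i2).mul (((hu.b.pow 2).mul (iu.pow 2)).mul i2)

/-- the commutation when `E1`, `E2` are units: combine `UB`, `US` at `u = (1-v)/864` and at
`u' = (1-v')/864`, and `Bs_rel`. -/
theorem comm_gen {p : ℕ} [Fact p.Prime] (hp : 5 ≤ p) {W : Type} [CommRing W] {S3 S2 : Sys W}
    (h3 : S3.Good p 3 a3 c3) (h2 : S2.Good p 2 a2 c2) (hr : S3.rho = S2.rho) (s : ℕ)
    (A : Type) [CommRing A] (f : W →+* A) (hs : (p : A) ^ s = 0)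
    (h z η ζ ησ ζσ v v' vσ vσ' κ : A) (hh : IsUnit h)
    (H : Pt19 p (f S3.rho) h (gf p (f S3.rho) h z) η ζ ησ ζσ v v' vσ vσ' κ)
    (hE1 : IsUnit (E1 h)) (hE2 : IsUnit (E2 h))
    (a a' aσ aσ' t t' : A) (ha : 864 * a = 1 - v) (ha' : 864 * a' = 1 - v')
    (haσ : 864 * aσ = 1 - vσ) (haσ' : 864 * aσ' = 1 - vσ')
    (ht : (1 + f S3.rho * t) * aσ = a ^ p) (ht' : (1 + f S3.rho * t') * aσ' = a' ^ p) :
    Sy2 (Mmat p 2 a2 (S2.dat s f) a' aσ' t') * Bs h η ζ v v'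
      = κ • (Bs (gf p (f S3.rho) h z) ησ ζσ vσ vσ' * Sy2 (Mmat p 2 a2 (S2.dat s f) a aσ t)) := by
  have hok := h3.ok s A f hs
  have hrd : f S3.rho ∣ (p : A) := hok.rho_dvd
  have hrn : IsNilpotent (f S3.rho) := hok.rho_nilp
  have hu2 : IsUnit (2 : A) := ubps_two hp h3 f
  have hu3 : IsUnit (3 : A) := by
    have h1 : Nat.Coprime 3 p := by
      rw [Nat.coprime_primes Nat.prime_three Fact.out]
      omega
    have h4 := (h3.unit 3 h1).map f
    rwa [map_natCast] at h4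
  have u : U5 h := ⟨H.d1, H.d2, H.e0, hE1, hE2⟩
  have ug : U5 (gf p (f S3.rho) h z) := U5_gf p (f S3.rho) h z hrd hrn u
  obtain ⟨ex, ex', e3⟩ := Bs_rel u hu2 hu3 H.hη H.hζ H.hv H.hv' ha ha' H.uv H.uv'
  obtain ⟨exσ, exσ', e4⟩ := Bs_rel ug hu2 hu3 H.hησ H.hζσ H.hvσ H.hvσ' haσ haσ' H.uvσ H.uvσ'
  have ua : UU a := comm19a_UU ha H.uv (comm19a_v H.hη H.hv u.d1 u.e1 u.e0)
  have ua' : UU a' := comm19a_UU ha' H.uv' (comm19a_v H.hζ H.hv' u.d2 u.e2 u.e0)
  have uaσ' : UU aσ' := comm19a_UU haσ' H.uvσ' (comm19a_v H.hζσ H.hvσ' ug.d2 ug.e2 ug.e0)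
  have hxf : IsUnit (xf h) := by
    unfold xf
    exact hh.mul (u.d1.ringInverse.pow 3)
  have hxg : IsUnit (xg h) := by
    unfold xg
    exact (hh.pow 5).mul (u.d2.ringInverse.pow 3)
  have iau : IsUnit a := by
    rw [← ex] at hxf
    exact isUnit_of_mul_isUnit_left hxf
  have iau' : IsUnit a' := by
    rw [← ex'] at hxg
    exact isUnit_of_mul_isUnit_left hxg
  have ht3 := tf_spec p (f S3.rho) h z _ hrd hrn u (ubps_tF p (f S3.rho) h z hrd hrn u)
  have ht3' := tg_spec p (f S3.rho) h z _ hrd hrn u (ubps_tG p (f S3.rho) h z hrd hrn u)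
  have e5 := UB hp h3 s A f hs h z hh u _ _ κ ht3 ht3' ⟨H.kap, H.kapn⟩
  have e1 := US hp h3 h2 hr s A f hs a aσ t (tF p (f S3.rho) h z) iau ua ht
    (by rw [exσ, ex]; exact ht3)
  have e2 := US hp h3 h2 hr s A f hs a' aσ' t' (tG p (f S3.rho) h z) iau' ua' ht'
    (by rw [exσ', ex']; exact ht3')
  rw [exσ, ex] at e1
  rw [exσ', ex'] at e2
  apply (comm19a_Cm hu2 uaσ').mul_left_cancel
  rw [← Matrix.mul_assoc, ← e2, Matrix.mul_assoc, ← e3, ← Matrix.mul_assoc, e5,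
    Matrix.smul_mul, Matrix.mul_assoc, e1, ← Matrix.mul_assoc, e4, Matrix.mul_assoc,
    Matrix.mul_smul]

end Pool.Agent.H.MP_7425ae_nt
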