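import Mathlib

/-! Power series rings as deformation rings. -/

set_option autoImplicit false

open Polynomial

namespace Pool.Agent.H.MP_7425ae_nt

variable {R : Type} [CommRing R]

/-- a power series with nilpotent constant coefficient and unit linear coefficient is a
nonzerodivisor -/
theorem ps_nzd (F G : PowerSeries R) (h0 : IsNilpotent (PowerSeries.constantCoeff F))
    (h1 : IsUnit (PowerSeries.coeff 1 F)) (h : F * G = 0) : G = 0 := by
  obtain ⟨e, he⟩ := h0
  have key : ∀ k n : ℕ, PowerSeries.coeff n G ∈
      Ideal.span {PowerSeries.constantCoeff F ^ k} := by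
    intro k
    induction k with
    | zero =>
      intro n
      rw [pow_zero, Ideal.span_singleton_one]
      trivial
    | succ k ih =>
      intro n
      induction n using Nat.strong_induction_on with
      | _ n ihn =>
        have hc : PowerSeries.coeff (n + 1) (F * G) = 0 := by rw [h, map_zero]
        rw [PowerSeries.coeff_mul] at hc
        have hm : ((1, n) : ℕ × ℕ) ∈ Finset.HasAntidiagonal.antidiagonal (n + 1) := by
          rw [Finset.HasAntidiagonal.mem_antidiagonal]
          omega
        rw [← Finset.add_sum_erase _ _ hm] at hc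
        have hc' : PowerSeries.coeff 1 F * PowerSeries.coeff n G =
            - ∑ p ∈ (Finset.HasAntidiagonal.antidiagonal (n + 1)).erase (1, n),
              PowerSeries.coeff p.1 F * PowerSeries.coeff p.2 G := eq_neg_of_add_eq_zero_left hc
        have hI : PowerSeries.coeff 1 F * PowerSeries.coeff n G ∈
            Ideal.span {PowerSeries.constantCoeff F ^ (k + 1)} := by
          rw [hc']
          apply neg_mem
          apply Ideal.sum_mem
          rintro ⟨i, j⟩ hp
          rw [Finset.mem_erase, Finset.HasAntidiagonal.mem_antidiagonal] at hp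
          obtain ⟨hp1, hp2⟩ := hp
          change PowerSeries.coeff i F * PowerSeries.coeff j G ∈ _
          simp only at hp2
          rcases Nat.eq_zero_or_pos i with hi | hi
          · subst hi
            obtain ⟨c, hcc⟩ := Ideal.mem_span_singleton'.1 (ih j)
            rw [Ideal.mem_span_singleton', ← hcc, PowerSeries.coeff_zero_eq_constantCoeff_apply]
            exact ⟨c, by ring⟩
          · apply Ideal.mul_mem_left
            apply ihn
            by_contra hj
            apply hp1
            have h3 : i = 1 := by omega
            have h4 : j = n := by omega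
            rw [h3, h4]
        obtain ⟨u, hu⟩ := h1
        rw [← hu] at hI
        have := Ideal.mul_mem_left _ (↑u⁻¹ : R) hI
        rwa [← mul_assoc, Units.inv_mul, one_mul] at this
  ext n
  have := key e n
  rw [he, Ideal.mem_span_singleton', ] at this
  obtain ⟨c, hc⟩ := this
  rw [← hc, mul_zero, map_zero]

/-- the same modulo an element `a` of `R` -/
theorem ps_div (a : R) (F G H : PowerSeries R)
    (h0 : IsNilpotent (PowerSeries.constantCoeff F))
    (h1 : IsUnit (PowerSeries.coeff 1 F)) (k : ℕ) (h : F ^ k * G = PowerSeries.C a * H) :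
    ∃ G' : PowerSeries R, G = PowerSeries.C a * G' := by
  let q : R →+* R ⧸ Ideal.span {a} := Ideal.Quotient.mk (Ideal.span {a})
  let F' := PowerSeries.map q F
  let G' := PowerSeries.map q G
  have hF0 : IsNilpotent (PowerSeries.constantCoeff F') := by
    change IsNilpotent (PowerSeries.constantCoeff (PowerSeries.map q F))
    rw [← PowerSeries.coeff_zero_eq_constantCoeff_apply, PowerSeries.coeff_map,
      PowerSeries.coeff_zero_eq_constantCoeff_apply]
    exact h0.map q
  have hF1 : IsUnit (PowerSeries.coeff 1 F') := by
    change IsUnit (PowerSeries.coeff 1 (PowerSeries.map q F))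
    rw [PowerSeries.coeff_map]
    exact h1.map q
  have hqa : q a = 0 := Ideal.Quotient.eq_zero_iff_mem.2 (Ideal.mem_span_singleton_self a)
  have hFG : F' ^ k * G' = 0 := by
    change (PowerSeries.map q F) ^ k * PowerSeries.map q G = 0
    rw [← map_pow, ← map_mul, h, map_mul, PowerSeries.map_C, hqa, map_zero, zero_mul]
  have hG : ∀ k : ℕ, F' ^ k * G' = 0 → G' = 0 := by
    intro k
    induction k with
    | zero => intro hk; rwa [pow_zero, one_mul] at hk
    | succ k ih =>
      intro hk
      apply ih
      apply ps_nzd F' _ hF0 hF1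
      rw [← mul_assoc, ← pow_succ', hk]
  have hG0 := hG k hFG
  have hdiv : ∀ n, ∃ c, PowerSeries.coeff n G = a * c := by
    intro n
    have h2 : q (PowerSeries.coeff n G) = 0 := by
      have h3 : PowerSeries.coeff n (PowerSeries.map q G) = 0 := by
        change PowerSeries.coeff n G' = 0
        rw [hG0, map_zero]
      rwa [PowerSeries.coeff_map] at h3
    obtain ⟨c, hc⟩ := Ideal.mem_span_singleton'.1 (Ideal.Quotient.eq_zero_iff_mem.1 h2)
    exact ⟨c, by rw [← hc, mul_comm]⟩
  choose c hc using hdiv
  refine ⟨PowerSeries.mk c, ?_⟩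
  ext n
  rw [PowerSeries.coeff_C_mul, PowerSeries.coeff_mk, hc]

/-- the coefficients of the square root -/
noncomputable def psring_c (a : PowerSeries R) (b u : R) : ℕ → R
  | 0 => b
  | n + 1 => u * (PowerSeries.coeff (n + 1) a -
      ∑ i : Fin n, psring_c a b u (i + 1) * psring_c a b u (n - i))
termination_by n => n
decreasing_by
  · have := i.2
    omega
  · omega

theorem psring_c_zero (a : PowerSeries R) (b u : R) : psring_c a b u 0 = b := by
  rw [psring_c]

theorem psring_c_succ (a : PowerSeries R) (b u : R) (n : ℕ) : psring_c a b u (n + 1) =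
    u * (PowerSeries.coeff (n + 1) a -
      ∑ i : Fin n, psring_c a b u (i + 1) * psring_c a b u (n - i)) := by
  rw [psring_c]

/-- square roots of power series -/
theorem ps_sqrt (a : PowerSeries R) (b : R) (hb : IsUnit b) (h2 : IsUnit (2 : R))
    (ha : PowerSeries.constantCoeff a = b ^ 2) :
    ∃ η : PowerSeries R, η ^ 2 = a ∧ PowerSeries.constantCoeff η = b := by
  obtain ⟨v, hv⟩ := h2.mul hb
  have hu : (↑v⁻¹ : R) * (2 * b) = 1 := by rw [← hv, Units.inv_mul]
  set u : R := ↑v⁻¹ with hudef
  refine ⟨PowerSeries.mk (psring_c a b u), ?_, ?_⟩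
  · ext n
    rw [pow_two, PowerSeries.coeff_mul]
    simp only [PowerSeries.coeff_mk]
    rw [Finset.Nat.sum_antidiagonal_eq_sum_range_succ
      (fun i j => psring_c a b u i * psring_c a b u j)]
    cases n with
    | zero =>
      rw [Finset.sum_range_one, psring_c_zero, PowerSeries.coeff_zero_eq_constantCoeff_apply, ha,
        pow_two]
    | succ n =>
      rw [Finset.sum_range_succ, Finset.sum_range_succ', Nat.sub_self, psring_c_zero,
        Nat.sub_zero]
      have h3 : ∑ k ∈ Finset.range n, psring_c a b u (k + 1) * psring_c a b u (n + 1 - (k + 1)) =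
          ∑ i : Fin n, psring_c a b u (i + 1) * psring_c a b u (n - i) := by
        rw [Finset.sum_range]
        refine Finset.sum_congr rfl fun i _ => ?_
        rw [Nat.add_sub_add_right]
      rw [h3]
      have h4 := psring_c_succ a b u n
      linear_combination (2 * b) * h4 + (PowerSeries.coeff (n + 1) a -
        ∑ i : Fin n, psring_c a b u (i + 1) * psring_c a b u (n - i)) * hu
  · rw [← PowerSeries.coeff_zero_eq_constantCoeff_apply, PowerSeries.coeff_mk, psring_c_zero]

/-- localization at a nonzerodivisor -/
theorem loc_nzd {A : Type} [CommRing A] (F : A) (hF : ∀ G : A, F * G = 0 → G = 0) :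
    ∃ (L : Type) (_ : CommRing L) (i : A →+* L), Function.Injective i ∧ IsUnit (i F) ∧
      ∀ x : L, ∃ (G : A) (k : ℕ), x * i F ^ k = i G := by
  have hF' : F ∈ nonZeroDivisors A := by
    rw [mem_nonZeroDivisors_iff_right]
    intro G hG
    apply hF
    rw [mul_comm, hG]
  refine ⟨Localization.Away F, inferInstance, algebraMap A (Localization.Away F), ?_, ?_, ?_⟩
  · apply IsLocalization.injective (Localization.Away F) (M := Submonoid.powers F)
    rw [Submonoid.powers_le]
    exact hF'
  · exact IsLocalization.Away.algebraMap_isUnit F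
  · intro x
    obtain ⟨n, G, hG⟩ := IsLocalization.Away.surj F x
    exact ⟨G, n, hG⟩

end Pool.Agent.H.MP_7425ae_nt
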