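import Pool.Agent.H.MP_7425ae_nt.Comm19A
import Pool.Agent.H.MP_7425ae_nt.PsRing
import Pool.Agent.H.MP_7425ae_nt.CMz

/-! The deformation of the CM point at `p = 19`. -/

set_option autoImplicit false

open Polynomial

namespace Pool.Agent.H.MP_7425ae_nt

instance fact19 : Fact (Nat.Prime 19) := ⟨by norm_num⟩

/-- the CM point over a ring with `19` nilpotent; `r = 2 β - 1`, `ι^2 = -6` -/
structure CM19 {R : Type} [CommRing R] (β ι v : R) : Prop where
  nil : IsNilpotent ((19 : ℕ) : R)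
  hβ : β ^ 2 = β - 5
  hι : ι ^ 2 = -6
  hv : 32 * v = 3 * (2 * β - 1) * ι

section aux19

variable {R : Type} [CommRing R]

private theorem comm19b_int (hn : IsNilpotent ((19 : ℕ) : R)) (m a b : ℤ)
    (h : a * m + b * 19 = 1) : IsUnit (m : R) := by
  have h1 : ((a * m + b * 19 : ℤ) : R) = 1 := by rw [h]; simp
  push_cast at h1
  have h2 : IsNilpotent ((b : R) * 19) := by
    have h3 : ((19 : ℕ) : R) = 19 := by norm_num
    rw [h3] at hn
    exact (Commute.all _ _).isNilpotent_mul_left hn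
  have h4 : (a : R) * m = 1 - (b : R) * 19 := by linear_combination h1
  have h5 : IsUnit ((a : R) * m) := by
    rw [h4]
    exact h2.isUnit_one_sub
  exact isUnit_of_mul_isUnit_right h5

private theorem comm19b_addnil {a b : R} (ha : IsUnit a) (hb : IsNilpotent b) :
    IsUnit (a + b) :=
  IsNilpotent.isUnit_add_left_of_commute hb ha (Commute.all _ _)

private theorem comm19b_ml {a b : R} (hb : IsNilpotent b) : IsNilpotent (a * b) :=
  (Commute.all _ _).isNilpotent_mul_left hb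

private theorem comm19b_mr {a b : R} (ha : IsNilpotent a) : IsNilpotent (a * b) :=
  (Commute.all _ _).isNilpotent_mul_right ha

private theorem comm19b_ex {r a b : R}
    (h : Ideal.Quotient.mk (Ideal.span {r}) a = Ideal.Quotient.mk (Ideal.span {r}) b) :
    ∃ e, a = b + r * e := by
  rw [Ideal.Quotient.eq, Ideal.mem_span_singleton] at h
  obtain ⟨e, he⟩ := h
  exact ⟨e, by linear_combination he⟩

private theorem comm19b_eq {r a b : R} (h : ∃ e, a = b + r * e) :
    Ideal.Quotient.mk (Ideal.span {r}) a = Ideal.Quotient.mk (Ideal.span {r}) b := by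
  rw [Ideal.Quotient.eq, Ideal.mem_span_singleton]
  obtain ⟨e, he⟩ := h
  exact ⟨e, by rw [he]; ring⟩

/-- the congruence for `w` -/
private theorem comm19b_frob {r Eh Eg Dh Dg Fh Fg η ησ w wσ : R} (hη : η ^ 2 = Fh * Dh)
    (hησ : ησ ^ 2 = Fg * Dg) (hw : w * Dh ^ 2 = Eh * η) (hwσ : wσ * Dg ^ 2 = Eg * ησ)
    (hF : ∃ e, Fg = Fh ^ 19 + r * e) (hD : ∃ e, Dg = Dh ^ 19 + r * e)
    (hE : ∃ e, Eg = Eh ^ 19 + r * e) (uD : IsUnit Dg) (uη : IsUnit (ησ + η ^ 19)) :
    ∃ e, wσ = w ^ 19 + r * e := by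
  apply comm19b_ex
  have hF' := comm19b_eq hF
  have hD' := comm19b_eq hD
  have hE' := comm19b_eq hE
  have c1 := congrArg (Ideal.Quotient.mk (Ideal.span {r})) hη
  have c2 := congrArg (Ideal.Quotient.mk (Ideal.span {r})) hησ
  have c3 := congrArg (Ideal.Quotient.mk (Ideal.span {r})) hw
  have c4 := congrArg (Ideal.Quotient.mk (Ideal.span {r})) hwσ
  have uD' := uD.map (Ideal.Quotient.mk (Ideal.span {r}))
  have uη' := uη.map (Ideal.Quotient.mk (Ideal.span {r}))
  simp only [map_pow, map_mul, map_add] at hF' hD' hE' c1 c2 c3 c4 uη' ⊢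
  generalize (Ideal.Quotient.mk (Ideal.span {r})) Fg = Fg' at *
  generalize (Ideal.Quotient.mk (Ideal.span {r})) Fh = Fh' at *
  generalize (Ideal.Quotient.mk (Ideal.span {r})) Dg = Dg' at *
  generalize (Ideal.Quotient.mk (Ideal.span {r})) Dh = Dh' at *
  generalize (Ideal.Quotient.mk (Ideal.span {r})) Eg = Eg' at *
  generalize (Ideal.Quotient.mk (Ideal.span {r})) Eh = Eh' at *
  generalize (Ideal.Quotient.mk (Ideal.span {r})) η = η' at *
  generalize (Ideal.Quotient.mk (Ideal.span {r})) ησ = ησ' at *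
  generalize (Ideal.Quotient.mk (Ideal.span {r})) w = w' at *
  generalize (Ideal.Quotient.mk (Ideal.span {r})) wσ = wσ' at *
  have h1 : (ησ' - η' ^ 19) * (ησ' + η' ^ 19) = 0 := by
    have h2 : (ησ' - η' ^ 19) * (ησ' + η' ^ 19) = ησ' ^ 2 - (η' ^ 2) ^ 19 := by ring
    rw [h2, c1, c2, hF', hD']
    ring
  have h3 : ησ' = η' ^ 19 := by
    have := (uη'.mul_left_eq_zero).1 h1
    linear_combination this
  apply (uD'.pow 2).mul_right_cancel
  rw [c4, hE', h3, ← mul_pow, ← c3, hD']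
  ring

/-- the element `kappa` -/
private theorem comm19b_kappa {r D D' G G' : R} (hn : IsNilpotent r) (h2 : IsUnit (2 : R))
    (uD : IsUnit D) (uD' : IsUnit D') (uG' : IsUnit G') (hD : ∃ e, G = D ^ 19 + r * e)
    (hD' : ∃ e, G' = D' ^ 19 + r * e) :
    ∃ κ f : R, κ ^ 2 * (D * G') = G * D' ∧ κ = (D * Ring.inverse D') ^ 9 * (1 + r * f) := by
  have hi : D' * Ring.inverse D' = 1 := Ring.mul_inverse_cancel _ uD'
  have uT : IsUnit (((D * Ring.inverse D') ^ 9) ^ 2 * (D * G')) :=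
    (((uD.mul uD'.ringInverse).pow 9).pow 2).mul (uD.mul uG')
  have hT := Ring.mul_inverse_cancel _ uT
  have hc : ∃ e, G * D' = ((D * Ring.inverse D') ^ 9) ^ 2 * (D * G') + r * e := by
    apply comm19b_ex
    have c1 := comm19b_eq hD
    have c2 := comm19b_eq hD'
    have c3 := congrArg (Ideal.Quotient.mk (Ideal.span {r})) hi
    simp only [map_pow, map_mul, map_one] at c1 c2 c3 ⊢
    rw [c1, c2]
    generalize (Ideal.Quotient.mk (Ideal.span {r})) D = x at *
    generalize (Ideal.Quotient.mk (Ideal.span {r})) D' = y at *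
    generalize (Ideal.Quotient.mk (Ideal.span {r})) (Ring.inverse D') = z at *
    have h1 : ((x * z) ^ 9) ^ 2 * (x * y ^ 19) = x ^ 19 * y * (y * z) ^ 18 := by ring
    rw [h1, c3]
    ring
  obtain ⟨e', he'⟩ := hc
  obtain ⟨f, hf⟩ := sqrt_exists r
    (e' * Ring.inverse (((D * Ring.inverse D') ^ 9) ^ 2 * (D * G'))) h2 hn
  refine ⟨_, f, ?_, rfl⟩
  have h3 : ((D * Ring.inverse D') ^ 9 * (1 + r * f)) ^ 2 * (D * G')
      = (1 + r * f) ^ 2 * (((D * Ring.inverse D') ^ 9) ^ 2 * (D * G')) := by ring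
  rw [h3, hf, he']
  linear_combination (r * e') * hT

private theorem comm19b_q {β : R} (hβ : β ^ 2 = β - 5) :
    2 * Ideal.Quotient.mk (Ideal.span {2 * β - 1}) β = 1 ∧
      (19 : R ⧸ Ideal.span {2 * β - 1}) = 0 := by
  have h1 : Ideal.Quotient.mk (Ideal.span {2 * β - 1}) (2 * β) =
      Ideal.Quotient.mk (Ideal.span {2 * β - 1}) 1 :=
    comm19b_eq ⟨1, by ring⟩
  have h2 : Ideal.Quotient.mk (Ideal.span {2 * β - 1}) 19 =
      Ideal.Quotient.mk (Ideal.span {2 * β - 1}) 0 :=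
    comm19b_eq ⟨-(2 * β - 1), by linear_combination cm_sq hβ⟩
  simp only [map_mul, map_one, map_ofNat, map_zero] at h1 h2
  exact ⟨h1, h2⟩

private theorem comm19b_b {β : R} (hβ : β ^ 2 = β - 5) :
    ∃ e, β = β ^ 19 + (2 * β - 1) * e := by
  apply comm19b_ex
  obtain ⟨h1, h2⟩ := comm19b_q hβ
  rw [map_pow]
  generalize Ideal.Quotient.mk (Ideal.span {2 * β - 1}) β = x at *
  have h3 : x = x * (2 * x) ^ 18 := by rw [h1]; ring
  linear_combination h3 + 13797 * x ^ 19 * h2

private theorem comm19b_b36 {β : R} (hβ : β ^ 2 = β - 5) :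
    ∃ e, (β ^ 4) ^ 9 = 1 + (2 * β - 1) * e := by
  apply comm19b_ex
  obtain ⟨h1, h2⟩ := comm19b_q hβ
  rw [map_pow, map_pow, map_one]
  generalize Ideal.Quotient.mk (Ideal.span {2 * β - 1}) β = x at *
  have h3 : (1 : R ⧸ Ideal.span {2 * β - 1}) = (2 * x) ^ 36 := by rw [h1]; ring
  linear_combination (-1) * h3 - 3616814565 * x ^ 36 * h2

private theorem comm19b_i {β ι : R} (hβ : β ^ 2 = β - 5) (u : IsUnit β) (hι : ι ^ 2 = -6) :
    Ideal.Quotient.mk (Ideal.span {2 * β - 1}) (Ring.inverse β) = 2 ∧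
    (Ideal.Quotient.mk (Ideal.span {2 * β - 1}) ι) ^ 19 =
      (Ideal.Quotient.mk (Ideal.span {2 * β - 1}) ι) * (-6) ^ 9 := by
  obtain ⟨h1, h2⟩ := comm19b_q hβ
  have h3 := congrArg (Ideal.Quotient.mk (Ideal.span {2 * β - 1})) (Ring.mul_inverse_cancel β u)
  have h4 := congrArg (Ideal.Quotient.mk (Ideal.span {2 * β - 1})) hι
  simp only [map_mul, map_one, map_pow, map_neg, map_ofNat] at h3 h4
  generalize Ideal.Quotient.mk (Ideal.span {2 * β - 1}) β = x at *
  generalize Ideal.Quotient.mk (Ideal.span {2 * β - 1}) ι = y at *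
  generalize Ideal.Quotient.mk (Ideal.span {2 * β - 1}) (Ring.inverse β) = z at *
  refine ⟨by linear_combination 2 * h3 - z * h1, ?_⟩
  rw [← h4]
  ring

private theorem comm19b_n2 {β ι : R} (hβ : β ^ 2 = β - 5) (u : IsUnit β) (hι : ι ^ 2 = -6) :
    ∃ e, (24 * ι * Ring.inverse β ^ 2) ^ 19 =
      -(24 * ι * Ring.inverse β ^ 2) + (2 * β - 1) * e := by
  apply comm19b_ex
  obtain ⟨h1, h2⟩ := comm19b_q hβ
  obtain ⟨h3, h4⟩ := comm19b_i hβ u hι
  simp only [map_mul, map_pow, map_neg, map_ofNat]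
  rw [h3]
  generalize Ideal.Quotient.mk (Ideal.span {2 * β - 1}) ι = y at *
  linear_combination (96 ^ 19) * h4 - 24420867104697213706745300757441364895217120 * y * h2

private theorem comm19b_n4 {β ι : R} (hβ : β ^ 2 = β - 5) (u : IsUnit β) (hι : ι ^ 2 = -6) :
    ∃ e, (24 * ι * Ring.inverse β ^ 4) ^ 19 =
      -(24 * ι * Ring.inverse β ^ 4) + (2 * β - 1) * e := by
  apply comm19b_ex
  obtain ⟨h1, h2⟩ := comm19b_q hβ
  obtain ⟨h3, h4⟩ := comm19b_i hβ u hι
  simp only [map_mul, map_pow, map_neg, map_ofNat]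
  rw [h3]
  generalize Ideal.Quotient.mk (Ideal.span {2 * β - 1}) ι = y at *
  linear_combination (384 ^ 19) * h4 -
    6712756835496751414578816086713260215203841210892474240 * y * h2

/-- the unit `ησ + η^19` -/
private theorem comm19b_un {r n e : R} (h2 : IsUnit (2 : R)) (un : IsUnit n) (hr : IsNilpotent r)
    (h : n ^ 19 = -n + r * e) : IsUnit (-n + n ^ 19) := by
  have h3 : -n + n ^ 19 = -(2 * n) + r * e := by rw [h]; ring
  rw [h3]
  exact comm19b_addnil (h2.mul un).neg (comm19b_mr hr)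

end aux19

theorem CM19.units {R : Type} [CommRing R] {β ι v : R} (H : CM19 β ι v) :
    IsUnit (2 : R) ∧ IsUnit (3 : R) ∧ IsUnit (5 : R) ∧ IsUnit β ∧ IsUnit ι ∧
      IsUnit (1 + v) ∧ IsUnit (1 - v) ∧ IsNilpotent v ∧ IsNilpotent (2 * β - 1) := by
  have h2 : IsUnit (2 : R) := by
    have := comm19b_int H.nil 2 (-9) 1 (by norm_num)
    exact_mod_cast this
  have h3 : IsUnit (3 : R) := by
    have := comm19b_int H.nil 3 (-6) 1 (by norm_num)
    exact_mod_cast this
  have h5 : IsUnit (5 : R) := by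
    have := comm19b_int H.nil 5 4 (-1) (by norm_num)
    exact_mod_cast this
  have hβ : IsUnit β := by
    apply isUnit_of_mul_isUnit_left (y := 1 - β)
    have : β * (1 - β) = 5 := by linear_combination -H.hβ
    rw [this]
    exact h5
  have hι : IsUnit ι := by
    apply isUnit_of_mul_isUnit_left (y := ι)
    have : ι * ι = -(2 * 3) := by linear_combination H.hι
    rw [this]
    exact (h2.mul h3).neg
  have hr : IsNilpotent (2 * β - 1) := by
    have h6 : (2 * β - 1) ^ 2 = -((19 : ℕ) : R) := by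
      rw [cm_sq H.hβ]
      norm_num
    have h7 : IsNilpotent ((2 * β - 1) ^ 2) := by
      rw [h6]
      exact H.nil.neg
    obtain ⟨n, hn⟩ := h7
    exact ⟨2 * n, by rw [pow_mul]; exact hn⟩
  have hv : IsNilpotent v := by
    have h8 : IsUnit (32 : R) := by
      have : (32 : R) = 2 ^ 5 := by norm_num
      rw [this]
      exact h2.pow 5
    obtain ⟨i, hi⟩ := h8.exists_left_inv
    have h9 : v = (2 * β - 1) * (i * 3 * ι) := by
      linear_combination (-v) * hi + i * H.hv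
    rw [h9]
    exact comm19b_mr hr
  exact ⟨h2, h3, h5, hβ, hι, comm19b_addnil isUnit_one hv, hv.isUnit_one_sub, hv, hr⟩

/-- the deformation: a point over `R[[ε]]` with `h = h₀ + ε` and its Frobenius transform -/
theorem exists_lift19 {R : Type} [CommRing R] {β ι v : R} (H : CM19 β ι v) :
    ∃ (h z η ζ ησ ζσ w w' wσ wσ' κ : PowerSeries R),
      Pt19 19 (PowerSeries.C (2 * β - 1)) h (gf 19 (PowerSeries.C (2 * β - 1)) h z)
        η ζ ησ ζσ w w' wσ wσ' κ ∧ IsUnit h ∧
      IsNilpotent (PowerSeries.constantCoeff (E1 h)) ∧ IsUnit (PowerSeries.coeff 1 (E1 h)) ∧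
      IsNilpotent (PowerSeries.constantCoeff (E2 h)) ∧ IsUnit (PowerSeries.coeff 1 (E2 h)) ∧
      PowerSeries.constantCoeff h = h0 β ∧
      PowerSeries.constantCoeff (gf 19 (PowerSeries.C (2 * β - 1)) h z) = h0 β ∧
      PowerSeries.constantCoeff η = 24 * ι * Ring.inverse β ^ 2 ∧
      PowerSeries.constantCoeff ζ = 24 * ι * Ring.inverse β ^ 4 ∧
      PowerSeries.constantCoeff ησ = - (24 * ι * Ring.inverse β ^ 2) ∧
      PowerSeries.constantCoeff ζσ = - (24 * ι * Ring.inverse β ^ 4) ∧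
      PowerSeries.constantCoeff w = v ∧ PowerSeries.constantCoeff w' = v ∧
      PowerSeries.constantCoeff wσ = - v ∧ PowerSeries.constantCoeff wσ' = - v ∧
      PowerSeries.constantCoeff κ = 1 := by
  obtain ⟨h2, h3, h5, hb, hi, hv1, hv2, hvn, hr⟩ := H.units
  have hβ := H.hβ
  have hι := H.hι
  -- constants at the CM point
  have bb : β * Ring.inverse β = 1 := Ring.mul_inverse_cancel β hb
  set b := Ring.inverse β with hbdef
  have ub : IsUnit b := hb.ringInverse
  have kD1 : D1 (h0 β) = 96 * b := by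
    linear_combination b * cm_D1 hβ hb - D1 (h0 β) * bb
  have bb5 : β ^ 5 * b ^ 5 = 1 := by rw [← mul_pow, bb, one_pow]
  have bb3 : β ^ 3 * b ^ 3 = 1 := by rw [← mul_pow, bb, one_pow]
  have bb6 : β ^ 6 * b ^ 6 = 1 := by rw [← mul_pow, bb, one_pow]
  have kD2 : D2 (h0 β) = 96 * b ^ 5 := by
    linear_combination b ^ 5 * cm_D2 hβ hb - D2 (h0 β) * bb5
  have kE0 : E0 (h0 β) = -36 * b ^ 3 := by
    linear_combination b ^ 3 * cm_E0 hβ hb - E0 (h0 β) * bb3
  have kE1 : E1 (h0 β) = 36 * (2 * β - 1) := cm_E1 hβ hb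
  have kE2 : E2 (h0 β) = 36 * (2 * β - 1) * b ^ 6 := by
    linear_combination b ^ 6 * cm_E2 hβ hb - E2 (h0 β) * bb6
  have u96 : IsUnit (96 : R) := cmpoint_u96 h2 h3
  have u36 : IsUnit (36 : R) := cmpoint_u36 h2 h3
  have u24 : IsUnit (24 : R) := by
    have : (24 : R) = 2 ^ 3 * 3 := by norm_num
    rw [this]
    exact (h2.pow 3).mul h3
  have u32 : IsUnit (32 : R) := by
    have : (32 : R) = 2 ^ 5 := by norm_num
    rw [this]
    exact h2.pow 5
  have ud1 : IsUnit (D1 (h0 β)) := cmpoint_d1 hβ hb h2 h3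
  have ud2 : IsUnit (D2 (h0 β)) := cmpoint_d2 hβ hb h2 h3
  have ue0 : IsUnit (E0 (h0 β)) := by
    rw [kE0]
    exact u36.neg.mul (ub.pow 3)
  -- the Frobenius parameter
  have hdv : (2 * β - 1) ∣ ((19 : ℕ) : R) :=
    ⟨-(2 * β - 1), by push_cast; linear_combination cm_sq hβ⟩
  obtain ⟨z0, hz0⟩ := cm_z (p := 19) (2 * β - 1) hdv hb hb (comm19b_b hβ)
  have hr' : IsNilpotent (PowerSeries.C (2 * β - 1)) := hr.map PowerSeries.C
  have hdv' : (PowerSeries.C (2 * β - 1)) ∣ ((19 : ℕ) : PowerSeries R) := by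
    have := map_dvd (PowerSeries.C (R := R)) hdv
    rwa [map_natCast] at this
  have U : ∀ φ : PowerSeries R, IsUnit (PowerSeries.constantCoeff φ) → IsUnit φ :=
    fun φ => PowerSeries.isUnit_iff_constantCoeff.2
  have h2' : IsUnit (2 : PowerSeries R) := by
    apply U
    rw [map_ofNat]
    exact h2
  -- the points
  obtain ⟨h, hh⟩ : ∃ h : PowerSeries R, h = PowerSeries.C (h0 β) + PowerSeries.X := ⟨_, rfl⟩
  have ch : PowerSeries.constantCoeff h = h0 β := by
    rw [hh]
    simp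
  obtain ⟨z, hz⟩ : ∃ z : PowerSeries R, z = PowerSeries.C z0 := ⟨_, rfl⟩
  have cz : PowerSeries.constantCoeff z = z0 := by
    rw [hz]
    simp
  obtain ⟨g, hg⟩ : ∃ g : PowerSeries R, g = gf 19 (PowerSeries.C (2 * β - 1)) h z := ⟨_, rfl⟩
  have cg : PowerSeries.constantCoeff g = h0 β := by
    rw [hg, ← gf_map, ch, cz, PowerSeries.constantCoeff_C]
    exact hz0.symm
  have cD1h : PowerSeries.constantCoeff (D1 h) = 96 * b := by rw [← D1_map, ch, kD1]
  have cD2h : PowerSeries.constantCoeff (D2 h) = 96 * b ^ 5 := by rw [← D2_map, ch, kD2]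
  have cE0h : PowerSeries.constantCoeff (E0 h) = -36 * b ^ 3 := by rw [← E0_map, ch, kE0]
  have cE1h : PowerSeries.constantCoeff (E1 h) = 36 * (2 * β - 1) := by rw [← E1_map, ch, kE1]
  have cE2h : PowerSeries.constantCoeff (E2 h) = 36 * (2 * β - 1) * b ^ 6 := by
    rw [← E2_map, ch, kE2]
  have cD1g : PowerSeries.constantCoeff (D1 g) = 96 * b := by rw [← D1_map, cg, kD1]
  have cD2g : PowerSeries.constantCoeff (D2 g) = 96 * b ^ 5 := by rw [← D2_map, cg, kD2]
  have cE0g : PowerSeries.constantCoeff (E0 g) = -36 * b ^ 3 := by rw [← E0_map, cg, kE0]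
  have cE1g : PowerSeries.constantCoeff (E1 g) = 36 * (2 * β - 1) := by rw [← E1_map, cg, kE1]
  have cE2g : PowerSeries.constantCoeff (E2 g) = 36 * (2 * β - 1) * b ^ 6 := by
    rw [← E2_map, cg, kE2]
  have u1 : IsUnit (96 * b) := u96.mul ub
  have u2 : IsUnit (96 * b ^ 5) := u96.mul (ub.pow 5)
  have u0 : IsUnit (-36 * b ^ 3) := u36.neg.mul (ub.pow 3)
  have uD1h : IsUnit (D1 h) := U _ (by rw [cD1h]; exact u1)
  have uD2h : IsUnit (D2 h) := U _ (by rw [cD2h]; exact u2)
  have uE0h : IsUnit (E0 h) := U _ (by rw [cE0h]; exact u0)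
  have uD1g : IsUnit (D1 g) := U _ (by rw [cD1g]; exact u1)
  have uD2g : IsUnit (D2 g) := U _ (by rw [cD2g]; exact u2)
  have uE0g : IsUnit (E0 g) := U _ (by rw [cE0g]; exact u0)
  have un2 : IsUnit (24 * ι * b ^ 2) := (u24.mul hi).mul (ub.pow 2)
  have un4 : IsUnit (24 * ι * b ^ 4) := (u24.mul hi).mul (ub.pow 4)
  obtain ⟨η, hη, cη⟩ := ps_sqrt (E0 h * D1 h) (24 * ι * b ^ 2) un2 h2
    (by rw [map_mul, cE0h, cD1h]; linear_combination (-576 * b ^ 4) * hι)
  obtain ⟨ζ, hζ, cζ⟩ := ps_sqrt (E0 h * D2 h) (24 * ι * b ^ 4) un4 h2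
    (by rw [map_mul, cE0h, cD2h]; linear_combination (-576 * b ^ 8) * hι)
  obtain ⟨ησ, hησ, cησ⟩ := ps_sqrt (E0 g * D1 g) (-(24 * ι * b ^ 2)) un2.neg h2
    (by rw [map_mul, cE0g, cD1g]; linear_combination (-576 * b ^ 4) * hι)
  obtain ⟨ζσ, hζσ, cζσ⟩ := ps_sqrt (E0 g * D2 g) (-(24 * ι * b ^ 4)) un4.neg h2
    (by rw [map_mul, cE0g, cD2g]; linear_combination (-576 * b ^ 8) * hι)
  -- the values v
  have hdiv : ∀ (E n D : PowerSeries R), IsUnit D → ∃ w : PowerSeries R, w * D ^ 2 = E * n := by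
    intro E n D uD
    refine ⟨E * n * Ring.inverse D ^ 2, ?_⟩
    have : Ring.inverse D * D = 1 := Ring.inverse_mul_cancel _ uD
    have h4 : Ring.inverse D ^ 2 * D ^ 2 = 1 := by rw [← mul_pow, this, one_pow]
    rw [mul_assoc, h4, mul_one]
  obtain ⟨w, hw⟩ := hdiv (E1 h) η (D1 h) uD1h
  obtain ⟨w', hw'⟩ := hdiv (E2 h) ζ (D2 h) uD2h
  obtain ⟨wσ, hwσ⟩ := hdiv (E1 g) ησ (D1 g) uD1g
  obtain ⟨wσ', hwσ'⟩ := hdiv (E2 g) ζσ (D2 g) uD2g
  have cw : PowerSeries.constantCoeff w = v := by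
    have := congrArg PowerSeries.constantCoeff hw
    rw [map_mul, map_mul, map_pow, cD1h, cE1h, cη] at this
    apply (u1.pow 2).mul_right_cancel
    rw [this]
    linear_combination (-288 * b ^ 2) * H.hv
  have cw' : PowerSeries.constantCoeff w' = v := by
    have := congrArg PowerSeries.constantCoeff hw'
    rw [map_mul, map_mul, map_pow, cD2h, cE2h, cζ] at this
    apply (u2.pow 2).mul_right_cancel
    rw [this]
    linear_combination (-288 * b ^ 10) * H.hv
  have cwσ : PowerSeries.constantCoeff wσ = -v := by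
    have := congrArg PowerSeries.constantCoeff hwσ
    rw [map_mul, map_mul, map_pow, cD1g, cE1g, cησ] at this
    apply (u1.pow 2).mul_right_cancel
    rw [this]
    linear_combination (288 * b ^ 2) * H.hv
  have cwσ' : PowerSeries.constantCoeff wσ' = -v := by
    have := congrArg PowerSeries.constantCoeff hwσ'
    rw [map_mul, map_mul, map_pow, cD2g, cE2g, cζσ] at this
    apply (u2.pow 2).mul_right_cancel
    rw [this]
    linear_combination (288 * b ^ 10) * H.hv
  -- congruences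
  have fD1 : ∃ e, D1 g = D1 h ^ 19 + PowerSeries.C (2 * β - 1) * e := by
    rw [hg]
    exact D1_gf 19 _ h z hdv'
  have fD2 : ∃ e, D2 g = D2 h ^ 19 + PowerSeries.C (2 * β - 1) * e := by
    rw [hg]
    exact D2_gf 19 _ h z hdv'
  have fE0 : ∃ e, E0 g = E0 h ^ 19 + PowerSeries.C (2 * β - 1) * e := by
    rw [hg]
    exact famt_E0 19 _ h z hdv'
  have fE1 : ∃ e, E1 g = E1 h ^ 19 + PowerSeries.C (2 * β - 1) * e := by
    rw [hg]
    exact famt_E1 19 _ h z hdv'
  have fE2 : ∃ e, E2 g = E2 h ^ 19 + PowerSeries.C (2 * β - 1) * e := by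
    rw [hg]
    exact famt_E2 19 _ h z hdv'
  have uη : IsUnit (ησ + η ^ 19) := by
    apply U
    rw [map_add, map_pow, cησ, cη]
    obtain ⟨e, he⟩ := comm19b_n2 hβ hb hι
    exact comm19b_un h2 un2 hr he
  have uζ : IsUnit (ζσ + ζ ^ 19) := by
    apply U
    rw [map_add, map_pow, cζσ, cζ]
    obtain ⟨e, he⟩ := comm19b_n4 hβ hb hι
    exact comm19b_un h2 un4 hr he
  have fv := comm19b_frob hη hησ hw hwσ fE0 fD1 fE1 uD1g uη
  have fv' := comm19b_frob hζ hζσ hw' hwσ' fE0 fD2 fE2 uD2g uζ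
  -- kappa
  obtain ⟨κ, f, hκ, hκ'⟩ := comm19b_kappa hr' h2' uD1h uD2h uD2g fD1 fD2
  have hDi : PowerSeries.constantCoeff (D1 h * Ring.inverse (D2 h)) = β ^ 4 := by
    have h6 := congrArg PowerSeries.constantCoeff (Ring.mul_inverse_cancel _ uD2h)
    rw [map_mul, map_one, cD2h] at h6
    rw [map_mul, cD1h]
    apply u2.mul_right_cancel
    have h7 : β ^ 4 * b ^ 4 = 1 := by rw [← mul_pow, bb, one_pow]
    linear_combination (96 * b) * h6 - (96 * b) * h7
  have cκ : PowerSeries.constantCoeff κ = 1 := by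
    have h8 := congrArg PowerSeries.constantCoeff hκ
    simp only [map_mul, map_pow, cD1h, cD2h, cD1g, cD2g] at h8
    have h9 : (1 : R) ^ 2 = PowerSeries.constantCoeff κ ^ 2 := by
      apply (u1.mul u2).mul_right_cancel
      rw [h8]
      ring
    refine (sqrt_unique _ _ h2 isUnit_one h9 ?_).symm
    obtain ⟨e, he⟩ := comm19b_b36 hβ
    rw [hκ', map_mul, map_pow, hDi, he, map_add, map_one, map_mul, PowerSeries.constantCoeff_C]
    have h10 : 1 - (1 + (2 * β - 1) * e) * (1 + (2 * β - 1) * PowerSeries.constantCoeff f)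
        = (2 * β - 1) * (-(e + PowerSeries.constantCoeff f
          + (2 * β - 1) * e * PowerSeries.constantCoeff f)) := by ring
    rw [h10]
    exact comm19b_mr hr
  have kn : IsNilpotent (κ - (D1 h * Ring.inverse (D2 h)) ^ ((19 - 1) / 2)) := by
    have h11 : (19 - 1) / 2 = 9 := by norm_num
    rw [h11, hκ']
    have h12 : (D1 h * Ring.inverse (D2 h)) ^ 9 * (1 + PowerSeries.C (2 * β - 1) * f) -
        (D1 h * Ring.inverse (D2 h)) ^ 9 =
        PowerSeries.C (2 * β - 1) * ((D1 h * Ring.inverse (D2 h)) ^ 9 * f) := by ring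
    rw [h12]
    exact comm19b_mr hr'
  -- linear coefficients
  have hn8 : IsNilpotent (h0 β + 8) := by
    have h13 : h0 β + 8 = (2 * β - 1) * (b * (4 + 2 * b + b ^ 2)) := by
      have h14 : h0 β = -b ^ 3 := rfl
      rw [h14]
      linear_combination (-2 * (4 + 2 * b + b ^ 2)) * bb
    rw [h13]
    exact comm19b_mr hr
  have lE1 : PowerSeries.coeff 1 (E1 h) = 249500 + (-31250) * (h0 β + 8) := by
    have h15 : E1 h = PowerSeries.C (1 - 500 * h0 β - 15625 * h0 β ^ 2)
        + PowerSeries.C (-500 - 31250 * h0 β) * PowerSeries.X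
        + PowerSeries.C (-15625) * PowerSeries.X ^ 2 := by
      rw [hh]
      unfold E1
      simp only [map_sub, map_one, map_mul, map_ofNat, map_pow, map_neg]
      ring
    rw [h15]
    simp only [map_add, PowerSeries.coeff_C_mul, PowerSeries.coeff_X, PowerSeries.coeff_X_pow,
      PowerSeries.coeff_C]
    norm_num
    ring
  have lE2 : PowerSeries.coeff 1 (E2 h) = 20 + (-2) * (h0 β + 8) := by
    have h15 : E2 h = PowerSeries.C (1 + 4 * h0 β - h0 β ^ 2)
        + PowerSeries.C (4 - 2 * h0 β) * PowerSeries.X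
        + PowerSeries.C (-1) * PowerSeries.X ^ 2 := by
      rw [hh]
      unfold E2
      simp only [map_add, map_sub, map_one, map_mul, map_ofNat, map_pow, map_neg]
      ring
    rw [h15]
    simp only [map_add, PowerSeries.coeff_C_mul, PowerSeries.coeff_X, PowerSeries.coeff_X_pow,
      PowerSeries.coeff_C]
    norm_num
    ring
  have u249 : IsUnit (249500 : R) := by
    have := comm19b_int H.nil 249500 7 (-91921) (by norm_num)
    exact_mod_cast this
  have u20 : IsUnit (20 : R) := by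
    have := comm19b_int H.nil 20 1 (-1) (by norm_num)
    exact_mod_cast this
  refine ⟨h, z, η, ζ, ησ, ζσ, w, w', wσ, wσ', κ, ?_, ?_, ?_, ?_, ?_, ?_, ch, ?_, cη, cζ, cησ, cζσ,
    cw, cw', cwσ, cwσ', cκ⟩
  · rw [← hg]
    exact {
      d1 := uD1h
      d2 := uD2h
      e0 := uE0h
      d1g := uD1g
      d2g := uD2g
      e0g := uE0g
      hη := hη
      hζ := hζ
      hησ := hησ
      hζσ := hζσ
      hv := hw
      hv' := hw'
      hvσ := hwσ
      hvσ' := hwσ'
      fv := fv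
      fv' := fv'
      uv := U _ (by rw [map_add, map_one, cw]; exact hv1)
      uv' := U _ (by rw [map_add, map_one, cw']; exact hv1)
      uvσ := U _ (by rw [map_add, map_one, cwσ, ← sub_eq_add_neg]; exact hv2)
      uvσ' := U _ (by rw [map_add, map_one, cwσ', ← sub_eq_add_neg]; exact hv2)
      kap := hκ
      kapn := kn }
  · exact U _ (by rw [ch]; exact cm_h0_unit hb)
  · rw [cE1h]
    exact comm19b_ml hr
  · rw [lE1]
    exact comm19b_addnil u249 (comm19b_ml hn8)
  · rw [cE2h]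
    exact comm19b_mr (comm19b_ml hr)
  · rw [lE2]
    exact comm19b_addnil u20 (comm19b_ml hn8)
  · rw [← hg]
    exact cg

end Pool.Agent.H.MP_7425ae_nt
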