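import Pool.Agent.H.MP_7425ae_nt.Basic

/-! Divided powers of `rho`. -/

set_option autoImplicit false

open Polynomial Finset

namespace Pool.Agent.H.MP_7425ae_nt

/-- divided powers of `rho` in `W`: polynomials `dp s` with coefficients `rho^i/i!` -/
structure IsDP {W : Type} [CommRing W] (p : ℕ) (rho : W) (dp : ℕ → W[X]) : Prop where
  zero : ∀ s, (dp s).coeff 0 = 1
  succ : ∀ s i : ℕ, (p : W) ^ s ∣ ((i : W) + 1) * (dp s).coeff (i + 1) - rho * (dp s).coeff i
  dvd : ∀ s i : ℕ, rho ^ (min i 3) ∣ (dp s).coeff i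
  indep : ∀ s s', s ≤ s' → C ((p : W) ^ s) ∣ dp s' - dp s
  rho_dvd : rho ∣ (p : W)
  nilp : ∃ e : ℕ, (p : W) ∣ rho ^ e

private theorem dpp_beta (p : ℕ) [Fact p.Prime] (hp : 5 ≤ p) (i : ℕ) :
    ∃ β : ℤ_[p], ((i.factorial : ℕ) : ℤ_[p]) * β = (p : ℤ_[p]) ^ i ∧
      ∀ k : ℕ, (k ≤ i ∧ (i ≤ 4 ∨ 4 * k ≤ 3 * i + 1)) → (p : ℤ_[p]) ^ k ∣ β := by
  have hpp : p.Prime := Fact.out
  have hf0 : i.factorial ≠ 0 := Nat.factorial_ne_zero i
  obtain ⟨v, u, hu, he⟩ := Nat.exists_eq_pow_mul_and_not_dvd hf0 p hpp.ne_one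
  have hv : padicValNat p i.factorial = v := by
    have hu0 : u ≠ 0 := by
      rintro rfl
      exact hu (dvd_zero p)
    rw [he, padicValNat.mul (pow_ne_zero _ hpp.ne_zero) hu0, padicValNat.prime_pow,
      padicValNat.eq_zero_of_not_dvd hu, add_zero]
  have hleg : (p - 1) * v = i - (p.digits i).sum := by
    rw [← hv]
    exact sub_one_mul_padicValNat_factorial i
  have h4 : 4 * v ≤ i - (p.digits i).sum := by
    rw [← hleg]
    exact Nat.mul_le_mul_right _ (by omega)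
  have hvi : 4 * v ≤ i := by omega
  have hds : i ≠ 0 → 1 ≤ (p.digits i).sum := by
    intro h0
    by_contra hc
    have hs : (p.digits i).sum = 0 := by omega
    have hm := Nat.modEq_digits_sum p i
    have hall : ∀ d ∈ p.digits i, d = 0 := by
      intro d hd
      have := List.single_le_sum (l := p.digits i) (fun x _ => Nat.zero_le x) d hd
      omega
    have hne : p.digits i ≠ [] := Nat.digits_ne_nil_iff_ne_zero.mpr h0
    exact Nat.getLast_digit_ne_zero p h0 (hall _ (List.getLast_mem hne))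
  have hunit : IsUnit ((u : ℕ) : ℤ_[p]) := by
    rw [PadicInt.isUnit_iff]
    have h1 : ¬ ‖((u : ℤ) : ℤ_[p])‖ < 1 := by
      rw [PadicInt.norm_int_lt_one_iff_dvd]
      exact_mod_cast hu
    have h2 := PadicInt.norm_le_one ((u : ℤ) : ℤ_[p])
    rw [show ((u : ℕ) : ℤ_[p]) = ((u : ℤ) : ℤ_[p]) by push_cast; rfl]
    linarith [le_antisymm h2 (not_lt.mp h1)]
  obtain ⟨w, hw⟩ := hunit.exists_right_inv
  refine ⟨(p : ℤ_[p]) ^ (i - v) * w, ?_, ?_⟩
  · have h1 : ((i.factorial : ℕ) : ℤ_[p]) = (p : ℤ_[p]) ^ v * ((u : ℕ) : ℤ_[p]) := by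
      rw [he]
      push_cast
      ring
    rw [h1]
    calc (p : ℤ_[p]) ^ v * ((u : ℕ) : ℤ_[p]) * ((p : ℤ_[p]) ^ (i - v) * w)
        = (p : ℤ_[p]) ^ (v + (i - v)) * (((u : ℕ) : ℤ_[p]) * w) := by
          rw [pow_add]
          ring
      _ = (p : ℤ_[p]) ^ i := by
          rw [hw, mul_one, show v + (i - v) = i by omega]
  · rintro k ⟨hk1, hk2⟩
    apply Dvd.dvd.mul_right
    apply pow_dvd_pow
    by_cases hi : i = 0
    · omega
    · have := hds hi
      rcases hk2 with h0 | h0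
      · omega
      · omega

/-- for `rho = p` -/
theorem exists_dp_p (p : ℕ) [Fact p.Prime] (hp : 5 ≤ p) :
    ∃ dp : ℕ → ℤ_[p][X], IsDP p (p : ℤ_[p]) dp := by
  classical
  choose β hβ hβd using dpp_beta p hp
  have hco : ∀ s i : ℕ, (∑ j ∈ range (2 * s + 1), monomial j (β j) : ℤ_[p][X]).coeff i
      = if i < 2 * s + 1 then β i else 0 := by
    intro s i
    rw [finsetSum_coeff]
    simp only [coeff_monomial]
    by_cases h : i < 2 * s + 1
    · rw [Finset.sum_ite_eq' (range (2 * s + 1)) i β, if_pos (mem_range.mpr h), if_pos h]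
    · rw [Finset.sum_ite_eq' (range (2 * s + 1)) i β, if_neg (fun hc => h (mem_range.mp hc)),
        if_neg h]
  have hrec : ∀ i : ℕ, ((i : ℤ_[p]) + 1) * β (i + 1) = (p : ℤ_[p]) * β i := by
    intro i
    have hne : ((i.factorial : ℕ) : ℤ_[p]) ≠ 0 := by
      exact_mod_cast Nat.factorial_ne_zero i
    apply mul_left_cancel₀ hne
    have h1 := hβ (i + 1)
    rw [Nat.factorial_succ] at h1
    push_cast at h1
    calc ((i.factorial : ℕ) : ℤ_[p]) * (((i : ℤ_[p]) + 1) * β (i + 1))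
        = ((i : ℤ_[p]) + 1) * ((i.factorial : ℕ) : ℤ_[p]) * β (i + 1) := by ring
      _ = (p : ℤ_[p]) ^ (i + 1) := h1
      _ = (p : ℤ_[p]) * (p : ℤ_[p]) ^ i := by ring
      _ = (p : ℤ_[p]) * (((i.factorial : ℕ) : ℤ_[p]) * β i) := by rw [hβ i]
      _ = _ := by ring
  refine ⟨fun s => ∑ j ∈ range (2 * s + 1), monomial j (β j), ?_, ?_, ?_, ?_, dvd_rfl, 1, ?_⟩
  · intro s
    rw [hco, if_pos (by omega)]
    have := hβ 0
    simpa using this
  · intro s i
    show (p : ℤ_[p]) ^ s ∣ ((i : ℤ_[p]) + 1) *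
      (∑ j ∈ range (2 * s + 1), monomial j (β j) : ℤ_[p][X]).coeff (i + 1)
      - (p : ℤ_[p]) * (∑ j ∈ range (2 * s + 1), monomial j (β j) : ℤ_[p][X]).coeff i
    rw [hco, hco]
    by_cases h1 : i + 1 < 2 * s + 1
    · rw [if_pos h1, if_pos (by omega), hrec, sub_self]
      exact dvd_zero _
    · rw [if_neg h1]
      by_cases h2 : i < 2 * s + 1
      · rw [if_pos h2]
        have h3 : i = 2 * s := by omega
        have h4 : (p : ℤ_[p]) ^ s ∣ β i := hβd i s ⟨by omega, by omega⟩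
        rw [mul_zero, zero_sub]
        exact (dvd_neg.mpr (h4.mul_left _))
      · rw [if_neg h2, mul_zero, mul_zero, sub_zero]
        exact dvd_zero _
  · intro s i
    show (p : ℤ_[p]) ^ (min i 3) ∣ (∑ j ∈ range (2 * s + 1), monomial j (β j) : ℤ_[p][X]).coeff i
    rw [hco]
    by_cases h : i < 2 * s + 1
    · rw [if_pos h]
      refine hβd i _ ⟨min_le_left _ _, ?_⟩
      omega
    · rw [if_neg h]
      exact dvd_zero _
  · intro s s' hss
    rw [Polynomial.C_dvd_iff_dvd_coeff]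
    intro i
    show (p : ℤ_[p]) ^ s ∣ ((∑ j ∈ range (2 * s' + 1), monomial j (β j) : ℤ_[p][X])
      - (∑ j ∈ range (2 * s + 1), monomial j (β j) : ℤ_[p][X])).coeff i
    rw [coeff_sub, hco, hco]
    by_cases h1 : i < 2 * s + 1
    · rw [if_pos h1, if_pos (by omega), sub_self]
      exact dvd_zero _
    · rw [if_neg h1, sub_zero]
      by_cases h2 : i < 2 * s' + 1
      · rw [if_pos h2]
        exact hβd i _ ⟨by omega, by omega⟩
      · rw [if_neg h2]
        exact dvd_zero _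
  · rw [pow_one]

end Pool.Agent.H.MP_7425ae_nt
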