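import Pool.Agent.H.MP_7425ae_nt.Basic

/-! Derivations of a commutative ring and their action on polynomials. -/

set_option autoImplicit false

open Polynomial

namespace Pool.Agent.H.MP_7425ae_nt

variable {R : Type} [CommRing R]

theorem IsDer.zero {d : R → R} (hd : IsDer d) : d 0 = 0 := by
  have h := hd.add 0 0
  rw [add_zero] at h
  exact left_eq_add.1 h

theorem IsDer.one {d : R → R} (hd : IsDer d) : d 1 = 0 := by
  have h := hd.mul 1 1
  rw [mul_one, one_mul, mul_one] at h
  exact left_eq_add.1 h

theorem IsDer.natCast {d : R → R} (hd : IsDer d) (n : ℕ) : d (n : R) = 0 := by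
  induction n with
  | zero => rw [Nat.cast_zero, hd.zero]
  | succ n ih => rw [Nat.cast_succ, hd.add, ih, hd.one, add_zero]

theorem IsDer.neg {d : R → R} (hd : IsDer d) (a : R) : d (-a) = - d a := by
  have h := hd.add (-a) a
  rw [neg_add_cancel, hd.zero] at h
  exact eq_neg_of_add_eq_zero_left h.symm

theorem IsDer.intCast {d : R → R} (hd : IsDer d) (n : ℤ) : d (n : R) = 0 := by
  rcases Int.eq_nat_or_neg n with ⟨m, h | h⟩
  · rw [h, Int.cast_natCast, hd.natCast]
  · rw [h, Int.cast_neg, Int.cast_natCast, hd.neg, hd.natCast, neg_zero]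

theorem IsDer.sub {d : R → R} (hd : IsDer d) (a b : R) : d (a - b) = d a - d b := by
  rw [sub_eq_add_neg, hd.add, hd.neg, ← sub_eq_add_neg]

theorem IsDer.sum {d : R → R} (hd : IsDer d) {ι : Type} (s : Finset ι) (f : ι → R) :
    d (∑ i ∈ s, f i) = ∑ i ∈ s, d (f i) := by
  classical
  induction s using Finset.induction_on with
  | empty => rw [Finset.sum_empty, Finset.sum_empty, hd.zero]
  | insert a s ha ih => rw [Finset.sum_insert ha, Finset.sum_insert ha, hd.add, ih]

theorem IsDer.pow {d : R → R} (hd : IsDer d) (a : R) (n : ℕ) :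
    d (a ^ (n + 1)) = ((n : R) + 1) * a ^ n * d a := by
  induction n with
  | zero => simp
  | succ n ih =>
    rw [pow_succ, hd.mul, ih, Nat.cast_succ]
    ring

/-- derivative of the inverse of a unit -/
theorem IsDer.inverse {d : R → R} (hd : IsDer d) {a : R} (ha : IsUnit a) :
    d (Ring.inverse a) = - Ring.inverse a ^ 2 * d a := by
  have h1 : a * Ring.inverse a = 1 := Ring.mul_inverse_cancel a ha
  have h2 : d (a * Ring.inverse a) = 0 := by rw [h1, hd.one]
  rw [hd.mul] at h2
  have h3 : Ring.inverse a * (a * d (Ring.inverse a) + d a * Ring.inverse a) = 0 := by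
    rw [h2, mul_zero]
  linear_combination h3 - d (Ring.inverse a) * h1

theorem coeff_pD {d : R → R} (hd : IsDer d) (P : R[X]) (i : ℕ) :
    (pD d P).coeff i = d (P.coeff i) := by
  unfold pD
  rw [Polynomial.finsetSum_coeff]
  simp only [Polynomial.coeff_monomial]
  rw [Finset.sum_ite_eq']
  split_ifs with h
  · rfl
  · rw [Polynomial.notMem_support_iff.1 h, hd.zero]

theorem pD_isDer {d : R → R} (hd : IsDer d) : IsDer (pD d) where
  add := by
    intro P Q
    ext i
    rw [coeff_pD hd, Polynomial.coeff_add, hd.add, Polynomial.coeff_add, coeff_pD hd, coeff_pD hd]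
  mul := by
    intro P Q
    ext i
    rw [coeff_pD hd, Polynomial.coeff_mul, hd.sum, Polynomial.coeff_add, Polynomial.coeff_mul,
      Polynomial.coeff_mul, ← Finset.sum_add_distrib]
    refine Finset.sum_congr rfl (fun x _ => ?_)
    rw [hd.mul, coeff_pD hd, coeff_pD hd]

end Pool.Agent.H.MP_7425ae_nt
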