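import Pool.Agent.H.MP_7425ae_nt.GamA

/-! Congruences and symmetry of `E`. -/

set_option autoImplicit false

open Polynomial Finset

namespace Pool.Agent.H.MP_7425ae_nt

variable (p : ℕ) [Fact p.Prime]

theorem gamb_prod : ∏ i ∈ range (p - 1), (X + C ((i + 1 : ℕ) : ZMod p)) = X ^ (p - 1) - C 1 := by
  have hp : p.Prime := Fact.out
  have hp2 := hp.two_le
  have hm : (∏ i ∈ range (p - 1), (X + C ((i + 1 : ℕ) : ZMod p))).Monic :=
    monic_prod_of_monic _ _ fun i _ => monic_X_add_C _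
  have hd : (∏ i ∈ range (p - 1), (X + C ((i + 1 : ℕ) : ZMod p))).natDegree = p - 1 := by
    rw [natDegree_prod_of_monic _ _ fun i _ => monic_X_add_C _,
      Finset.sum_congr rfl fun i _ => natDegree_X_add_C _]
    simp
  have hm2 : (X ^ (p - 1) - C 1 : (ZMod p)[X]).Monic := monic_X_pow_sub_C 1 (by omega)
  have hd2 : (X ^ (p - 1) - C 1 : (ZMod p)[X]).degree = ((p - 1 : ℕ) : WithBot ℕ) :=
    degree_X_pow_sub_C (by omega) 1
  have hd1 : (∏ i ∈ range (p - 1), (X + C ((i + 1 : ℕ) : ZMod p))).degree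
      = ((p - 1 : ℕ) : WithBot ℕ) := by
    rw [degree_eq_natDegree hm.ne_zero, hd]
  apply eq_of_degree_sub_lt_of_eval_finset_eq (univ.erase (0 : ZMod p))
  · have hc : (univ.erase (0 : ZMod p)).card = p - 1 := by
      rw [Finset.card_erase_of_mem (Finset.mem_univ _), Finset.card_univ, ZMod.card]
    rw [hc, ← hd1]
    exact degree_sub_lt (by rw [hd1, hd2]) hm.ne_zero (by rw [hm.leadingCoeff, hm2.leadingCoeff])
  · intro a ha
    have ha0 : a ≠ 0 := (Finset.mem_erase.1 ha).1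
    rw [eval_sub, eval_pow, eval_X, eval_C, ZMod.pow_card_sub_one_eq_one ha0, sub_self, eval_prod]
    have hna : -a ≠ 0 := neg_ne_zero.2 ha0
    have hv : (-a).val < p := ZMod.val_lt _
    have hv0 : (-a).val ≠ 0 := by
      rw [Ne, ZMod.val_eq_zero]
      exact hna
    apply Finset.prod_eq_zero (i := (-a).val - 1)
    · rw [Finset.mem_range]
      omega
    · have e : (-a).val - 1 + 1 = (-a).val := by omega
      rw [e, ZMod.natCast_zmod_val]
      simp

/-- `E(T) = 1 - T^{p-1}` modulo `p` -/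
theorem Ep_coeff_dvd (m : ℕ) (h1 : 1 ≤ m) (h2 : m < p - 1) : (p : ℤ_[p]) ∣ (Ep p).coeff m := by
  have h := congrArg (Polynomial.map (PadicInt.toZMod (p := p))) (Ep_fact p)
  simp only [Polynomial.map_mul, Polynomial.map_prod, Polynomial.map_add, Polynomial.map_C,
    Polynomial.map_X] at h
  simp only [map_natCast (PadicInt.toZMod (p := p))] at h
  rw [gamb_prod, ZMod.wilsons_lemma] at h
  have h3 := congrArg (fun P => P.coeff m) h
  simp only [coeff_C_mul, coeff_map, coeff_sub, coeff_X_pow, coeff_C] at h3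
  rw [if_neg (by omega), if_neg (by omega)] at h3
  have h4 : PadicInt.toZMod ((Ep p).coeff m) = 0 := by
    linear_combination (-1 : ZMod p) * h3
  have h5 : (Ep p).coeff m ∈ RingHom.ker (PadicInt.toZMod : ℤ_[p] →+* ZMod p) := h4
  rw [PadicInt.ker_toZMod, PadicInt.maximalIdeal_eq_span_p, Ideal.mem_span_singleton] at h5
  exact h5

/-- the symmetry `E(-p-T) = E(T)` -/
theorem Ep_symm (hp : 3 ≤ p) : (Ep p).comp (- C (p : ℤ_[p]) - X) = Ep p := by
  have hpp : p.Prime := Fact.out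
  have hf : (C (((p - 1).factorial : ℕ) : ℤ_[p])) ≠ 0 := by
    rw [Ne, C_eq_zero, Nat.cast_eq_zero]
    exact Nat.factorial_ne_zero _
  apply mul_left_cancel₀ hf
  have h := congrArg (fun P => P.comp (- C (p : ℤ_[p]) - X)) (Ep_fact p)
  simp only [mul_comp, C_comp, Polynomial.prod_comp, add_comp, X_comp] at h
  rw [h, Ep_fact]
  have hodd : Even (p - 1) := by
    rcases hpp.eq_two_or_odd' with h2 | h2
    · omega
    · exact Nat.Odd.sub_odd h2 odd_one
  have h1 : ∏ i ∈ range (p - 1), (- C (p : ℤ_[p]) - X + C ((i + 1 : ℕ) : ℤ_[p]))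
      = ∏ i ∈ range (p - 1), ((-1) * (X + C ((p - 1 - 1 - i + 1 : ℕ) : ℤ_[p]))) := by
    refine Finset.prod_congr rfl fun i hi => ?_
    have hi2 : i < p - 1 := Finset.mem_range.1 hi
    have e : ((p - 1 - 1 - i + 1 : ℕ) : ℤ_[p]) = (p : ℤ_[p]) - ((i + 1 : ℕ) : ℤ_[p]) := by
      rw [← Nat.cast_sub (by omega)]
      congr 1
      omega
    rw [e, C_sub]
    ring
  rw [h1, Finset.prod_mul_distrib, Finset.prod_const, Finset.card_range, hodd.neg_one_pow, one_mul]
  exact Finset.prod_range_reflect (fun i => (X + C ((i + 1 : ℕ) : ℤ_[p]) : ℤ_[p][X])) (p - 1)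

theorem Ep_coeff_one (hp : 5 ≤ p) : (p : ℤ_[p]) ^ 2 ∣ (Ep p).coeff 1 := by
  have h0 := Ep_coeff_zero p
  have hE : (Ep p).eval (-(p : ℤ_[p])) = 1 := by
    have h := congrArg (fun P => P.eval 0) (Ep_symm p (by omega))
    simp only [eval_comp, eval_sub, eval_neg, eval_C, eval_X, sub_zero] at h
    rw [h, ← coeff_zero_eq_eval_zero, h0]
  have h2 := Ep_coeff_dvd p 2 (by norm_num) (by omega)
  have hdeg : (Ep p).natDegree < p := lt_of_le_of_lt (Ep_natDegree p) (by omega)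
  rw [eval_eq_sum_range' hdeg] at hE
  obtain ⟨q, hq⟩ : ∃ q, p = q + 3 := ⟨p - 3, by omega⟩
  have e : ∑ i ∈ range p, (Ep p).coeff i * (-(p : ℤ_[p])) ^ i
      = ∑ i ∈ range (q + 3), (Ep p).coeff i * (-(p : ℤ_[p])) ^ i := by
    rw [← hq]
  rw [e, Finset.sum_range_succ', Finset.sum_range_succ', Finset.sum_range_succ'] at hE
  have e2 : (Ep p).coeff 1 * (p : ℤ_[p])
      = ∑ k ∈ range q, (Ep p).coeff (k + 1 + 1 + 1) * (-(p : ℤ_[p])) ^ (k + 1 + 1 + 1)
        + (Ep p).coeff 2 * (p : ℤ_[p]) ^ 2 := by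
    rw [h0] at hE
    linear_combination (-1 : ℤ_[p]) * hE
  have h3 : (p : ℤ_[p]) ^ 2 * (p : ℤ_[p]) ∣ (Ep p).coeff 1 * (p : ℤ_[p]) := by
    rw [e2]
    refine dvd_add ?_ ?_
    · refine Finset.dvd_sum fun k _ => ?_
      refine Dvd.dvd.mul_left ?_ _
      rw [neg_pow]
      refine Dvd.dvd.mul_left ?_ _
      rw [← pow_succ]
      exact pow_dvd_pow _ (by omega)
    · have := mul_dvd_mul h2 (dvd_refl ((p : ℤ_[p]) ^ 2))
      refine dvd_trans (dvd_of_eq ?_) this
      ring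
  have hp0 : (p : ℤ_[p]) ≠ 0 := by
    rw [Ne, Nat.cast_eq_zero]
    omega
  exact (mul_dvd_mul_iff_right hp0).1 h3

end Pool.Agent.H.MP_7425ae_nt
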