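import Pool.Agent.H.MP_7425ae_nt.ErDef
import Pool.Agent.H.MP_7425ae_nt.GamB

/-! `e_{pk}` for `(p^2-1)/2` is congruent to `e_k` for `(p-1)/2` modulo `p^2`. -/

set_option autoImplicit false

open Polynomial

namespace Pool.Agent.H.MP_7425ae_nt

theorem erfrob_prod {R : Type*} [CommRing R] {P : R} (hP : P * P = 0) (s : Finset ℕ)
    (u v c : ℕ → R) (h : ∀ i ∈ s, u i * v i = 1) :
    ∏ i ∈ s, (u i + P * c i) = (∏ i ∈ s, u i) * (1 + P * ∑ i ∈ s, c i * v i) := by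
  classical
  induction s using Finset.induction_on with
  | empty => simp
  | insert j s hj ih =>
    rw [Finset.prod_insert hj, Finset.prod_insert hj, Finset.sum_insert hj,
      ih fun i hi => h i (Finset.mem_insert_of_mem hi)]
    have h1 := h j (Finset.mem_insert_self j s)
    linear_combination (-(P * c j * (∏ i ∈ s, u i))) * h1
      + ((∏ i ∈ s, u i) * c j * ∑ i ∈ s, c i * v i) * hP

theorem erfrob_pow {R : Type*} [CommRing R] {P : R} (hP : P * P = 0) (x : R) (n : ℕ) :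
    (1 - P * x) ^ n = 1 - (n : R) * (P * x) := by
  induction n with
  | zero => simp
  | succ n ih =>
    rw [pow_succ, ih]
    push_cast
    linear_combination ((n : R) * x * x) * hP

theorem erfrob_fact (m : ℕ) : (2 * m).factorial =
    (∏ i ∈ Finset.range m, (2 * (i + 1))) * ∏ i ∈ Finset.range m, (2 * i + 1) := by
  induction m with
  | zero => simp
  | succ m ih =>
    rw [Finset.prod_range_succ, Finset.prod_range_succ]
    have e : 2 * (m + 1) = (2 * m + 1) + 1 := by ring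
    rw [e, Nat.factorial_succ, Nat.factorial_succ, ih]
    ring

/-- the main congruence for powers of `2` -/
theorem erfrob_key {R : Type*} [CommRing R] {P : R} (hP : P * P = 0) (m : ℕ)
    (hm : (2 * m + 1 : ℕ) = P) (v : ℕ → R) (w : R) (hw : 2 * w = 1)
    (hv : ∀ i ∈ Finset.range m, ((i + 1 : ℕ) : R) * v i = 1) :
    (4 : R) ^ m = 1 - P * (w * ∑ i ∈ Finset.range m, v i) := by
  obtain ⟨H, hH⟩ : ∃ H, H = ∑ i ∈ Finset.range m, v i := ⟨_, rfl⟩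
  obtain ⟨F, hF⟩ : ∃ F : R, F = ((m.factorial : ℕ) : R) := ⟨_, rfl⟩
  have hF' : ∏ i ∈ Finset.range m, ((i + 1 : ℕ) : R) = F := by
    rw [hF, ← Finset.prod_range_add_one_eq_factorial, Nat.cast_prod]
  have hFu : F * ∏ i ∈ Finset.range m, v i = 1 := by
    rw [← hF', ← Finset.prod_mul_distrib]
    exact Finset.prod_eq_one hv
  -- first evaluation
  have e1 : ((2 * m).factorial : R) = F * ((-1) ^ m * (F * (1 - P * H))) := by
    have a1 : (2 * m).factorial = m.factorial * ∏ i ∈ Finset.range m, (2 * m - i) := by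
      have b1 := gama_fact m m
      rw [← two_mul] at b1
      rw [b1]
      congr 1
      rw [← Finset.prod_range_reflect]
      refine Finset.prod_congr rfl fun i hi => ?_
      have := Finset.mem_range.1 hi
      omega
    have a2 : ((∏ i ∈ Finset.range m, (2 * m - i) : ℕ) : R) =
        ∏ i ∈ Finset.range m, ((-1 : R) * (((i + 1 : ℕ) : R) + P * (-1))) := by
      rw [Nat.cast_prod]
      refine Finset.prod_congr rfl fun i hi => ?_
      have h3 := Finset.mem_range.1 hi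
      have h4 : (2 * m - i) + (i + 1) = 2 * m + 1 := by omega
      have h5 := congrArg (Nat.cast (R := R)) h4
      rw [hm, Nat.cast_add] at h5
      linear_combination h5
    rw [a1, Nat.cast_mul, a2, Finset.prod_mul_distrib, Finset.prod_const, Finset.card_range,
      erfrob_prod hP _ _ v (fun _ => -1) hv, hF', ← hF]
    have e : ∑ i ∈ Finset.range m, (-1 : R) * v i = -H := by
      rw [hH, ← Finset.mul_sum]
      ring
    rw [e]
    ring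
  -- second evaluation
  have e2 : ((2 * m).factorial : R) = (2 ^ m * F) * ((-1) ^ m * (2 ^ m * F * (1 - P * (w * H)))) := by
    have a2 : ((∏ i ∈ Finset.range m, (2 * i + 1) : ℕ) : R) =
        ∏ i ∈ Finset.range m, ((-1 : R) * ((2 * ((i + 1 : ℕ) : R)) + P * (-1))) := by
      rw [← Finset.prod_range_reflect, Nat.cast_prod]
      refine Finset.prod_congr rfl fun i hi => ?_
      have h3 := Finset.mem_range.1 hi
      have h4 : (2 * (m - 1 - i) + 1) + 2 * (i + 1) = 2 * m + 1 := by omega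
      have h5 := congrArg (Nat.cast (R := R)) h4
      rw [hm, Nat.cast_add, Nat.cast_mul] at h5
      push_cast at h5 ⊢
      linear_combination h5
    have a3 : ∏ i ∈ Finset.range m, (2 * ((i + 1 : ℕ) : R)) = 2 ^ m * F := by
      rw [Finset.prod_mul_distrib, Finset.prod_const, Finset.card_range, hF']
    have a4 : ((∏ i ∈ Finset.range m, (2 * (i + 1)) : ℕ) : R) = 2 ^ m * F := by
      rw [← a3, Nat.cast_prod]
      refine Finset.prod_congr rfl fun i _ => ?_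
      push_cast
      ring
    rw [erfrob_fact, Nat.cast_mul, a2, a4, Finset.prod_mul_distrib, Finset.prod_const,
      Finset.card_range,
      erfrob_prod hP _ _ (fun i => w * v i) (fun _ => -1) (fun i hi => by
        linear_combination (2 * w) * hv i hi + hw), a3]
    have e : ∑ i ∈ Finset.range m, (-1 : R) * (w * v i) = -(w * H) := by
      rw [hH, ← Finset.mul_sum, ← Finset.mul_sum]
      ring
    rw [e]
    ring
  obtain ⟨V, hV⟩ : ∃ V, V = ∏ i ∈ Finset.range m, v i := ⟨_, rfl⟩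
  rw [← hV] at hFu
  rw [← hH]
  have e3 : 1 - P * H = 4 ^ m * (1 - P * (w * H)) := by
    have h4 : (4 : R) ^ m = 2 ^ m * 2 ^ m := by
      rw [← mul_pow]
      norm_num
    have h5 := e1.symm.trans e2
    have h6 : ((-1 : R) ^ m) * ((-1) ^ m) = 1 := by
      rw [← mul_pow]
      simp
    have h7 : (F * ((-1) ^ m * (F * (1 - P * H)))) * (V * V * (-1) ^ m) =
        ((2 ^ m * F) * ((-1) ^ m * (2 ^ m * F * (1 - P * (w * H))))) * (V * V * (-1) ^ m) := by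
      rw [h5]
    have h8 : (F * ((-1) ^ m * (F * (1 - P * H)))) * (V * V * (-1) ^ m) =
        ((F * V) * (F * V)) * ((-1 : R) ^ m * (-1) ^ m) * (1 - P * H) := by ring
    have h9 : ((2 ^ m * F) * ((-1) ^ m * (2 ^ m * F * (1 - P * (w * H))))) * (V * V * (-1) ^ m) =
        ((F * V) * (F * V)) * ((-1 : R) ^ m * (-1) ^ m) * ((2 ^ m * 2 ^ m) * (1 - P * (w * H))) := by
      ring
    rw [h8, h9, hFu, h6, ← h4] at h7
    linear_combination h7
  have hPH : P * H = 2 * (P * (w * H)) := by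
    linear_combination (-(P * H)) * hw
  obtain ⟨Q, hQ⟩ : ∃ Q, Q = (4 : R) ^ m := ⟨_, rfl⟩
  rw [← hQ] at e3 ⊢
  rw [hPH] at e3
  linear_combination (-(1 + P * (w * H))) * e3 + (Q * w * H * w * H - 2 * w * H * w * H) * hP

theorem erfrob_four {R : Type*} [CommRing R] {P : R} (hP : P * P = 0) (m k : ℕ)
    (hm : (2 * m + 1 : ℕ) = P) (v : ℕ → R) (w : R) (hw : 2 * w = 1)
    (hv : ∀ i ∈ Finset.range m, ((i + 1 : ℕ) : R) * v i = 1) :
    (64 : R) ^ (2 * m * k) = 1 - 3 * (k : R) * (P * ∑ i ∈ Finset.range m, v i) := by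
  have h1 : (64 : R) ^ (2 * m * k) = (4 ^ m) ^ (6 * k) := by
    have e : (64 : R) = 4 ^ 3 := by norm_num
    rw [e, ← pow_mul, ← pow_mul]
    congr 1
    ring
  rw [h1, erfrob_key hP m hm v w hw hv, erfrob_pow hP]
  push_cast
  linear_combination (-(3 * (k : R) * (P * ∑ i ∈ Finset.range m, v i))) * hw

/-- the identity of `prod_half` in a ring -/
theorem erfrob_half {R : Type*} [CommRing R] {P : R} (hP : P * P = 0) (m k : ℕ)
    (hm : (2 * m + 1 : ℕ) = P) (v : ℕ → R) (w : R) (hw : 2 * w = 1)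
    (hv : ∀ i ∈ Finset.range m, ((i + 1 : ℕ) : R) * v i = 1) :
    (∏ i ∈ Finset.range m, (P * (m : R) + (i : R) + 1)) * 64 ^ (2 * m * k) =
      ∏ i ∈ Finset.range m, (P * ((m : R) - 3 * (k : R)) + (i : R) + 1) := by
  have h1 : ∀ a : R, ∏ i ∈ Finset.range m, (P * a + (i : R) + 1) =
      (∏ i ∈ Finset.range m, ((i + 1 : ℕ) : R)) * (1 + P * ∑ i ∈ Finset.range m, a * v i) := by
    intro a
    rw [← erfrob_prod hP _ _ v (fun _ => a) hv]
    refine Finset.prod_congr rfl fun i _ => ?_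
    push_cast
    ring
  rw [h1, h1, erfrob_four hP m k hm v w hw hv, ← Finset.mul_sum, ← Finset.mul_sum]
  obtain ⟨H, hH⟩ : ∃ H, H = ∑ i ∈ Finset.range m, v i := ⟨_, rfl⟩
  obtain ⟨F, hF⟩ : ∃ F, F = ∏ i ∈ Finset.range m, ((i + 1 : ℕ) : R) := ⟨_, rfl⟩
  rw [← hH, ← hF]
  linear_combination (-(3 * F * (m : R) * (k : R) * H * H)) * hP

theorem erfrob_half_p (p : ℕ) [Fact p.Prime] (hp : 5 ≤ p) (k : ℕ) {R : Type*} [CommRing R]
    (hP : (p : R) * (p : R) = 0) (hu : ∀ i : ℕ, 1 ≤ i → i < p → IsUnit (i : R)) :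
    (∏ i ∈ Finset.range ((p - 1) / 2), ((p : R) * (((p - 1) / 2 : ℕ) : R) + (i : R) + 1)) *
        64 ^ ((p - 1) * k) =
      ∏ i ∈ Finset.range ((p - 1) / 2),
        ((p : R) * ((((p - 1) / 2 : ℕ) : R) - 3 * (k : R)) + (i : R) + 1) := by
  have hodd : p % 2 = 1 := by
    rcases (Fact.out : p.Prime).eq_two_or_odd with h2 | h2
    · omega
    · exact h2
  have hm : 2 * ((p - 1) / 2) + 1 = p := by omega
  have hm2 : p - 1 = 2 * ((p - 1) / 2) := by omega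
  have h := erfrob_half hP ((p - 1) / 2) k (by rw [hm]) (fun i => Ring.inverse ((i + 1 : ℕ) : R))
    (Ring.inverse (2 : R))
    (by
      have := hu 2 (by norm_num) (by omega)
      rw [Nat.cast_ofNat] at this
      exact Ring.mul_inverse_cancel _ this)
    (fun i hi => Ring.mul_inverse_cancel _ (hu (i + 1) (by omega) (by
      have := Finset.mem_range.1 hi
      omega)))
  rw [← hm2] at h
  exact h

/-- `(pm+1)...(pm+m') 64^{(p-1)k} = (p(m-3k)+1)...(p(m-3k)+m)` modulo `p^2`, `m = (p-1)/2` -/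
theorem prod_half (p : ℕ) [Fact p.Prime] (hp : 5 ≤ p) (k : ℕ) (hk : 3 * k ≤ (p - 1) / 2) :
    (p : ℤ) ^ 2 ∣ (∏ i ∈ Finset.range ((p - 1) / 2),
        ((p : ℤ) * (((p - 1) / 2 : ℕ) : ℤ) + (i : ℤ) + 1)) * 64 ^ ((p - 1) * k)
      - ∏ i ∈ Finset.range ((p - 1) / 2),
        ((p : ℤ) * ((((p - 1) / 2 : ℕ) : ℤ) - 3 * (k : ℤ)) + (i : ℤ) + 1) := by
  have h := erfrob_half_p p hp k (R := ZMod (p ^ 2))
    (by
      have h1 : ((p ^ 2 : ℕ) : ZMod (p ^ 2)) = 0 := ZMod.natCast_self _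
      rw [Nat.cast_pow] at h1
      exact (pow_two (p : ZMod (p ^ 2))).symm.trans h1)
    (fun i h1 h2 => by
      rw [ZMod.isUnit_iff_coprime]
      exact Nat.Coprime.pow_right 2
        ((Nat.Prime.coprime_iff_not_dvd Fact.out).2 (Nat.not_dvd_of_pos_of_lt h1 h2)).symm)
  have h3 : (((p ^ 2 : ℕ)) : ℤ) ∣ (∏ i ∈ Finset.range ((p - 1) / 2),
        ((p : ℤ) * (((p - 1) / 2 : ℕ) : ℤ) + (i : ℤ) + 1)) * 64 ^ ((p - 1) * k)
      - ∏ i ∈ Finset.range ((p - 1) / 2),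
        ((p : ℤ) * ((((p - 1) / 2 : ℕ) : ℤ) - 3 * (k : ℤ)) + (i : ℤ) + 1) := by
    rw [← ZMod.intCast_zmod_eq_zero_iff_dvd]
    obtain ⟨m, hm⟩ : ∃ m, m = (p - 1) / 2 := ⟨_, rfl⟩
    rw [← hm] at h ⊢
    push_cast
    rw [sub_eq_zero]
    exact h
  rw [Nat.cast_pow] at h3
  exact h3

theorem erfrob_Gv (p : ℕ) [Fact p.Prime] (hp : 5 ≤ p) (k : ℕ) :
    (p : ℤ_[p]) ^ 2 ∣ Gv p k - 1 := by
  induction k with
  | zero => simp [Gv_zero]
  | succ k ih =>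
    have h1 : (p : ℤ_[p]) ^ 2 ∣ (Ep p).eval ((p * k : ℕ) : ℤ_[p]) - 1 := by
      have e1 : (Ep p).eval ((p * k : ℕ) : ℤ_[p]) =
          ((divX (divX (Ep p))).eval ((p * k : ℕ) : ℤ_[p]) * ((p * k : ℕ) : ℤ_[p]) +
            (Ep p).coeff 1) * ((p * k : ℕ) : ℤ_[p]) + 1 := by
        have e2 := congrArg (fun P => P.eval ((p * k : ℕ) : ℤ_[p])) (divX_mul_X_add (Ep p))
        have e3 := congrArg (fun P => P.eval ((p * k : ℕ) : ℤ_[p]))
          (divX_mul_X_add (divX (Ep p)))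
        simp only [eval_add, eval_mul, eval_X, eval_C, coeff_divX, zero_add, Ep_coeff_zero]
          at e2 e3
        rw [← e2, ← e3]
      rw [e1]
      obtain ⟨c, hc⟩ := Ep_coeff_one p hp
      rw [hc]
      push_cast
      exact ⟨(divX (divX (Ep p))).eval ((p : ℤ_[p]) * (k : ℤ_[p])) * k * k +
        c * (p * k), by ring⟩
    rw [Gv_succ]
    have e : Gv p k * (Ep p).eval ((p * k : ℕ) : ℤ_[p]) - 1 =
        (Gv p k - 1) * (Ep p).eval ((p * k : ℕ) : ℤ_[p]) +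
          ((Ep p).eval ((p * k : ℕ) : ℤ_[p]) - 1) := by ring
    rw [e]
    exact dvd_add (Dvd.dvd.mul_right ih _) h1

theorem erfrob_unit (p : ℕ) [Fact p.Prime] (a m : ℕ) (hm : m < p) :
    IsUnit (∏ i ∈ Finset.range m, ((p : ℤ_[p]) * (a : ℤ_[p]) + (i : ℤ_[p]) + 1)) := by
  refine Finset.prod_induction _ IsUnit (fun _ _ h1 h2 => h1.mul h2) isUnit_one ?_
  intro i hi
  have hi2 := Finset.mem_range.1 hi
  have e : (p : ℤ_[p]) * (a : ℤ_[p]) + (i : ℤ_[p]) + 1 = ((p * a + (i + 1) : ℕ) : ℤ_[p]) := by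
    push_cast
    ring
  rw [e, PadicInt.isUnit_iff, PadicInt.norm_natCast_eq_one_iff]
  refine (Nat.Prime.coprime_iff_not_dvd Fact.out).2 ?_
  rw [Nat.dvd_add_right (Dvd.intro _ rfl)]
  exact Nat.not_dvd_of_pos_of_lt (by omega) (by omega)

theorem erfrob_id (p : ℕ) [Fact p.Prime] (m k : ℕ) (hk : 3 * k ≤ m) (hp : p = 2 * m + 1) :
    ((er (p * m + m) (p * k) : ℤ) : ℤ_[p]) * (Gv p k * Gv p (2 * k) * Gv p (m - 3 * k)) *
        (∏ i ∈ Finset.range m, ((p : ℤ_[p]) * ((m - 3 * k : ℕ) : ℤ_[p]) + (i : ℤ_[p]) + 1)) =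
      ((er m k : ℤ) : ℤ_[p]) * Gv p m *
        ((∏ i ∈ Finset.range m, ((p : ℤ_[p]) * (m : ℤ_[p]) + (i : ℤ_[p]) + 1)) *
          64 ^ ((p - 1) * k)) := by
  have hpp : p.Prime := Fact.out
  have hA := er_fact (p * m + m) (p * k) (by nlinarith)
  have hB := er_fact m k hk
  have hs : p * m + m - 3 * (p * k) = p * (m - 3 * k) + m := by
    rw [Nat.mul_sub]
    have h1 : p * (3 * k) ≤ p * m := Nat.mul_le_mul_left _ hk
    have h2 : p * (3 * k) = 3 * (p * k) := by ring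
    omega
  have h2k : 2 * (p * k) = p * (2 * k) := by ring
  rw [hs, h2k, gama_fact (p * m) m, gama_fact (p * (m - 3 * k)) m] at hA
  have hA' := congrArg (Int.cast (R := ℤ_[p])) hA
  have hB' := congrArg (Int.cast (R := ℤ_[p])) hB
  obtain ⟨E, hE⟩ : ∃ E, E = er (p * m + m) (p * k) := ⟨_, rfl⟩
  obtain ⟨e, he⟩ : ∃ e, e = er m k := ⟨_, rfl⟩
  rw [← hE] at hA' ⊢
  rw [← he] at hB' ⊢
  rw [Int.cast_mul, Int.cast_mul, Int.cast_pow, Int.cast_natCast, Int.cast_natCast,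
    Nat.cast_mul, Nat.cast_mul, Nat.cast_mul, Nat.cast_mul, Nat.cast_prod, Nat.cast_prod,
    Gv_fact, Gv_fact, Gv_fact, Gv_fact] at hA'
  rw [Int.cast_mul, Int.cast_mul, Int.cast_pow, Int.cast_natCast, Int.cast_natCast,
    Nat.cast_mul, Nat.cast_mul] at hB'
  have hP1 : ∏ i ∈ Finset.range m, ((p : ℤ_[p]) * (m : ℤ_[p]) + (i : ℤ_[p]) + 1) =
      ∏ i ∈ Finset.range m, ((p * m + (i + 1) : ℕ) : ℤ_[p]) :=
    Finset.prod_congr rfl fun i _ => by push_cast; ring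
  have hP2 : ∏ i ∈ Finset.range m,
      ((p : ℤ_[p]) * ((m - 3 * k : ℕ) : ℤ_[p]) + (i : ℤ_[p]) + 1) =
      ∏ i ∈ Finset.range m, ((p * (m - 3 * k) + (i + 1) : ℕ) : ℤ_[p]) :=
    Finset.prod_congr rfl fun i _ => by
      rw [Nat.cast_add, Nat.cast_mul, Nat.cast_add, Nat.cast_one]
      ring
  rw [hP1, hP2]
  obtain ⟨Q1, hQ1⟩ : ∃ Q1, Q1 = ∏ i ∈ Finset.range m, ((p * m + (i + 1) : ℕ) : ℤ_[p]) :=
    ⟨_, rfl⟩
  obtain ⟨Q2, hQ2⟩ : ∃ Q2, Q2 =
      ∏ i ∈ Finset.range m, ((p * (m - 3 * k) + (i + 1) : ℕ) : ℤ_[p]) := ⟨_, rfl⟩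
  rw [← hQ1, ← hQ2] at hA'
  rw [← hQ1, ← hQ2]
  have hx : ∀ x : ℤ_[p], x ^ m = x ^ k * x ^ (2 * k) * x ^ (m - 3 * k) := by
    intro x
    rw [← pow_add, ← pow_add]
    congr 1
    omega
  have h64 : ((-64 : ℤ) : ℤ_[p]) ^ (p * k) =
      ((-64 : ℤ) : ℤ_[p]) ^ k * 64 ^ ((p - 1) * k) := by
    have h1 : p * k = k + (p - 1) * k := by
      rw [hp]
      simp
      ring
    have h2 : (p - 1) * k = 2 * (m * k) := by
      rw [hp]
      simp
      ring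
    rw [h1, pow_add]
    congr 1
    have h3 : ((-64 : ℤ) : ℤ_[p]) ^ 2 = 64 ^ 2 := by
      push_cast
      ring
    rw [h2, pow_mul ((-64 : ℤ) : ℤ_[p]), pow_mul (64 : ℤ_[p]), h3]
  rw [h64, hx (p : ℤ_[p]), hx (((p - 1).factorial : ℕ) : ℤ_[p])] at hA'
  have hf : ∀ n : ℕ, ((n.factorial : ℕ) : ℤ_[p]) ≠ 0 := fun n => by
    rw [Ne, Nat.cast_eq_zero]
    exact Nat.factorial_ne_zero _
  have hp0 : (p : ℤ_[p]) ≠ 0 := by
    rw [Ne, Nat.cast_eq_zero]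
    exact hpp.ne_zero
  have h1 := hf (p - 1)
  have h2 := hf k
  have h3 := hf (2 * k)
  have h4 := hf (m - 3 * k)
  have h5 := hf m
  obtain ⟨f1, hf1⟩ : ∃ f1, f1 = (((p - 1).factorial : ℕ) : ℤ_[p]) := ⟨_, rfl⟩
  obtain ⟨f2, hf2⟩ : ∃ f2, f2 = ((k.factorial : ℕ) : ℤ_[p]) := ⟨_, rfl⟩
  obtain ⟨f3, hf3⟩ : ∃ f3, f3 = (((2 * k).factorial : ℕ) : ℤ_[p]) := ⟨_, rfl⟩
  obtain ⟨f4, hf4⟩ : ∃ f4, f4 = (((m - 3 * k).factorial : ℕ) : ℤ_[p]) := ⟨_, rfl⟩
  obtain ⟨f5, hf5⟩ : ∃ f5, f5 = ((m.factorial : ℕ) : ℤ_[p]) := ⟨_, rfl⟩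
  rw [← hf1] at h1 hA'
  rw [← hf2] at h2 hA' hB'
  rw [← hf3] at h3 hA' hB'
  rw [← hf4] at h4 hA' hB'
  rw [← hf5] at h5 hA' hB'
  have hc : (f1 ^ k * f1 ^ (2 * k) * f1 ^ (m - 3 * k)) *
      ((p : ℤ_[p]) ^ k * (p : ℤ_[p]) ^ (2 * k) * (p : ℤ_[p]) ^ (m - 3 * k)) *
      (f2 * f3 * f4) ≠ 0 := by
    refine mul_ne_zero (mul_ne_zero ?_ ?_) (mul_ne_zero (mul_ne_zero h2 h3) h4)
    · exact mul_ne_zero (mul_ne_zero (pow_ne_zero _ h1) (pow_ne_zero _ h1)) (pow_ne_zero _ h1)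
    · exact mul_ne_zero (mul_ne_zero (pow_ne_zero _ hp0) (pow_ne_zero _ hp0)) (pow_ne_zero _ hp0)
  apply mul_left_cancel₀ hc
  obtain ⟨z, hz⟩ : ∃ z, z = ((-64 : ℤ) : ℤ_[p]) ^ k := ⟨_, rfl⟩
  obtain ⟨y, hy⟩ : ∃ y, y = (64 : ℤ_[p]) ^ ((p - 1) * k) := ⟨_, rfl⟩
  rw [← hz, ← hy] at hA'
  rw [← hz] at hB'
  rw [← hy]
  linear_combination hA' - ((f1 ^ k * f1 ^ (2 * k) * f1 ^ (m - 3 * k)) *
      ((p : ℤ_[p]) ^ k * (p : ℤ_[p]) ^ (2 * k) * (p : ℤ_[p]) ^ (m - 3 * k)) *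
      Gv p m * Q1 * y) * hB'

theorem er_frob (p : ℕ) [Fact p.Prime] (hp : 5 ≤ p) (k : ℕ) (hk : 3 * k ≤ (p - 1) / 2) :
    (p : ℤ) ^ 2 ∣ er ((p ^ 2 - 1) / 2) (p * k) - er ((p - 1) / 2) k := by
  have hpp : p.Prime := Fact.out
  have hodd : p % 2 = 1 := by
    rcases hpp.eq_two_or_odd with h2 | h2
    · omega
    · exact h2
  have hh := prod_half p hp k hk
  obtain ⟨m, hm⟩ : ∃ m, m = (p - 1) / 2 := ⟨_, rfl⟩
  have hm1 : p = 2 * m + 1 := by omega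
  have hM : (p ^ 2 - 1) / 2 = p * m + m := by
    have h1 : p ^ 2 - 1 = 2 * (p * m + m) := by
      have h2 : p ^ 2 = 2 * (p * m + m) + 1 := by
        rw [hm1]
        ring
      omega
    rw [h1]
    omega
  rw [hM, ← hm]
  rw [← hm] at hh hk
  have hid := erfrob_id p m k hk hm1
  have hu := erfrob_unit p (m - 3 * k) m (by omega)
  have hG : (p : ℤ_[p]) ^ 2 ∣ Gv p k * Gv p (2 * k) * Gv p (m - 3 * k) - 1 := by
    obtain ⟨a, ha⟩ := erfrob_Gv p hp k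
    obtain ⟨b, hb⟩ := erfrob_Gv p hp (2 * k)
    obtain ⟨c, hc⟩ := erfrob_Gv p hp (m - 3 * k)
    exact ⟨a * Gv p (2 * k) * Gv p (m - 3 * k) + b * Gv p (m - 3 * k) + c, by
      linear_combination (Gv p (2 * k) * Gv p (m - 3 * k)) * ha + (Gv p (m - 3 * k)) * hb + hc⟩
  have hG1 := erfrob_Gv p hp m
  have hh' : (p : ℤ_[p]) ^ 2 ∣
      (∏ i ∈ Finset.range m, ((p : ℤ_[p]) * (m : ℤ_[p]) + (i : ℤ_[p]) + 1)) *
          64 ^ ((p - 1) * k) -
      (∏ i ∈ Finset.range m, ((p : ℤ_[p]) * ((m - 3 * k : ℕ) : ℤ_[p]) + (i : ℤ_[p]) + 1)) := by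
    obtain ⟨c, hc⟩ := hh
    have hc' := congrArg (Int.cast (R := ℤ_[p])) hc
    rw [Nat.cast_sub hk]
    refine ⟨(c : ℤ_[p]), ?_⟩
    push_cast at hc' ⊢
    exact hc'
  obtain ⟨Q1, hQ1⟩ : ∃ Q1, Q1 = (∏ i ∈ Finset.range m,
      ((p : ℤ_[p]) * (m : ℤ_[p]) + (i : ℤ_[p]) + 1)) * 64 ^ ((p - 1) * k) := ⟨_, rfl⟩
  obtain ⟨Q2, hQ2⟩ : ∃ Q2, Q2 = ∏ i ∈ Finset.range m,
      ((p : ℤ_[p]) * ((m - 3 * k : ℕ) : ℤ_[p]) + (i : ℤ_[p]) + 1) := ⟨_, rfl⟩
  rw [← hQ1, ← hQ2] at hid hh'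
  rw [← hQ2] at hu
  rw [← PadicInt.pow_p_dvd_int_iff, Int.cast_sub, ← hu.dvd_mul_right]
  obtain ⟨E, hE⟩ : ∃ E : ℤ_[p], E = ((er (p * m + m) (p * k) : ℤ) : ℤ_[p]) := ⟨_, rfl⟩
  obtain ⟨e, he⟩ : ∃ e : ℤ_[p], e = ((er m k : ℤ) : ℤ_[p]) := ⟨_, rfl⟩
  rw [← hE, ← he] at hid ⊢
  obtain ⟨a, ha⟩ := hG
  obtain ⟨b, hb⟩ := hG1
  obtain ⟨c, hc⟩ := hh'
  refine ⟨e * b * Q1 + e * c - E * Q2 * a, ?_⟩
  linear_combination hid - (E * Q2) * ha + (e * Q1) * hb + e * hc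

end Pool.Agent.H.MP_7425ae_nt
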