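import Pool.Agent.H.MP_7425ae_nt.TauA

/-! The operator `U_x`: linearity, base change, divisibility of coefficients. -/

set_option autoImplicit false

open Polynomial

namespace Pool.Agent.H.MP_7425ae_nt

variable {R S : Type} [CommRing R] [CommRing S]

theorem Uop_add (p : ℕ) (D : Dat R) (x : R) (F G : R[X]) :
    Uop p D x (F + G) = Uop p D x F + Uop p D x G := by
  unfold Uop
  rw [← mul_add, ← Finset.sum_add_distrib]
  congr 1
  apply Finset.sum_congr rfl
  intro j _
  rw [add_comp]
  ring

theorem Uop_C_mul (p : ℕ) (D : Dat R) (x c : R) (F : R[X]) :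
    Uop p D x (C c * F) = C c * Uop p D x F := by
  unfold Uop
  rw [mul_left_comm (C c) D.Th, Finset.mul_sum (Finset.range p) _ (C c)]
  congr 1
  apply Finset.sum_congr rfl
  intro j _
  rw [mul_comp, C_comp]
  ring

theorem Uop_map (p : ℕ) (D : Dat R) (x : R) (F : R[X]) (f : R →+* S) :
    (Uop p D x F).map f = Uop p (D.map f) (f x) (F.map f) := by
  unfold Uop
  rw [Polynomial.map_mul, Polynomial.map_sum]
  congr 1
  apply Finset.sum_congr rfl
  intro j _
  simp only [Polynomial.map_mul, Polynomial.map_comp, Polynomial.map_add, Polynomial.map_C, map_X,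
    map_pow f, map_natCast f, Dat.map]

theorem utaua_eval_map (f : R →+* S) (P : R[X]) (k : ℕ) :
    (P.map f).eval (k : S) = f (P.eval (k : R)) := by
  rw [← map_natCast f k, eval_map_apply]

theorem Dat.OK.map {p n : ℕ} {a : ℤ[X]} {c : ℕ → ℤ} {D : Dat R} (h : D.OK p n a c)
    (f : R →+* S) : (D.map f).OK p n a c := by
  have haR : (aR a R).map f = aR a S := aR_map a f
  constructor
  · have := h.nilp.map f
    rwa [map_natCast] at this
  · change (D.r 0).map f = 1
    rw [h.r_zero, Polynomial.map_one]
  · intro j hj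
    have := congrArg (Polynomial.map f) (h.r_succ j hj)
    simp only [Polynomial.map_mul, Polynomial.map_comp, Polynomial.map_add, Polynomial.map_C,
      map_X, Polynomial.map_pow, map_natCast f, haR, map_add f, map_one f] at this
    exact this
  · have := congrArg (Polynomial.map f) h.fe
    simp only [Polynomial.map_mul, Polynomial.map_comp, Polynomial.map_add, Polynomial.map_C,
      map_X, map_pow f, map_natCast f, haR, map_sub f, map_one f, Polynomial.map_one] at this
    exact this
  · intro i hi
    change ((D.Th).map f).coeff i = _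
    rw [coeff_map, h.th_low i hi]
    split_ifs
    · exact map_one f
    · exact map_zero f
  · intro i
    change _ ∣ ((D.Th).map f).coeff i
    rw [coeff_map]
    have := map_dvd f (h.th_adm i)
    rwa [map_pow, map_natCast] at this
  · intro j hj i
    change _ ∣ ((D.r j).map f).coeff i
    rw [coeff_map]
    have := map_dvd f (h.r_adm j hj i)
    rwa [map_pow, map_natCast] at this
  · intro k j hj
    have := congrArg f (h.val k j hj)
    rw [map_mul, map_intCast, map_intCast, ← utaua_eval_map, Polynomial.map_mul] at this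
    exact this
  · change (D.dp.map f).coeff 0 = 1
    rw [coeff_map, h.dp_zero, map_one]
  · intro i
    change ((i : S) + 1) * (D.dp.map f).coeff (i + 1) = f D.rho * (D.dp.map f).coeff i
    have := congrArg f (h.dp_succ i)
    rw [coeff_map, coeff_map]
    simp only [map_mul, map_add, map_natCast, map_one] at this
    exact this
  · intro i
    change (f D.rho) ^ (min i 3) ∣ (D.dp.map f).coeff i
    rw [coeff_map, ← map_pow]
    exact map_dvd f (h.dp_dvd i)
  · change f D.rho ∣ (p : S)
    have := map_dvd f h.rho_dvd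
    rwa [map_natCast] at this
  · exact h.rho_nilp.map f

/-- products of admissible polynomials are admissible -/
theorem adm_mul (rho : R) (F G : R[X]) (hF : ∀ i : ℕ, rho ^ (min i 3) ∣ F.coeff i)
    (hG : ∀ i : ℕ, rho ^ (min i 3) ∣ G.coeff i) :
    ∀ i : ℕ, rho ^ (min i 3) ∣ (F * G).coeff i := by
  intro i
  rw [coeff_mul]
  apply Finset.dvd_sum
  intro ⟨u, v⟩ huv
  have huv : u + v = i := by simpa using huv
  change _ ∣ F.coeff u * G.coeff v
  have h1 := mul_dvd_mul (hF u) (hG v)
  rw [← pow_add] at h1
  exact (pow_dvd_pow rho (by omega)).trans h1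

theorem utaua_sum {ι : Type} (rho : R) (s : Finset ι) (F : ι → R[X])
    (hF : ∀ j ∈ s, ∀ i : ℕ, rho ^ (min i 3) ∣ (F j).coeff i) :
    ∀ i : ℕ, rho ^ (min i 3) ∣ (∑ j ∈ s, F j).coeff i := by
  intro i
  rw [finset_sum_coeff]
  exact Finset.dvd_sum (fun j hj => hF j hj i)

theorem utaua_C (rho c : R) : ∀ i : ℕ, rho ^ (min i 3) ∣ (C c : R[X]).coeff i := by
  intro i
  rw [coeff_C]
  split_ifs with h
  · subst h
    simp
  · exact dvd_zero _

theorem utaua_comp (p : ℕ) (c : R) (F : R[X]) :
    ∀ i : ℕ, (p : R) ^ (min i 3) ∣ (F.comp (C (p : R) * X + C c)).coeff i := by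
  intro i
  have h : F.comp (C (p : R) * X + C c) = (F.comp (X + C c)).comp (C (p : R) * X) := by
    rw [comp_assoc]
    simp
  rw [h, comp_C_mul_X_coeff]
  exact ((pow_dvd_pow _ (min_le_left i 3))).trans (dvd_mul_left _ _)

/-- the coefficient of `X^i` in `U_x F` is divisible by `p^{min(i,3)}` -/
theorem Uop_adm {p n : ℕ} {a : ℤ[X]} {c : ℕ → ℤ} {D : Dat R} (h : D.OK p n a c)
    (x : R) (F : R[X]) : ∀ i : ℕ, (p : R) ^ (min i 3) ∣ (Uop p D x F).coeff i := by
  unfold Uop
  apply adm_mul
  · exact h.th_adm
  · apply utaua_sum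
    intro j hj
    apply adm_mul
    · apply adm_mul
      · exact utaua_C _ _
      · exact utaua_comp p _ F
    · exact h.r_adm j (Finset.mem_range.1 hj)

end Pool.Agent.H.MP_7425ae_nt
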