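import Pool.Agent.H.MP_7425ae_nt.ErStep
import Pool.Agent.H.MP_7425ae_nt.ErFrob
import Pool.Agent.H.MP_7425ae_nt.UTauA

/-! The Dwork congruence modulo `p^2` for the numbers `e_k`. -/

set_option autoImplicit false

open Polynomial

namespace Pool.Agent.H.MP_7425ae_nt

theorem Th_one {p n : ℕ} (hn : 2 ≤ n) {a : ℤ[X]} {c : ℕ → ℤ} {R : Type} [CommRing R] {D : Dat R}
    (hD : D.OK p n a c) (h2 : (p : R) ^ 2 = 0) : D.Th = 1 := by
  ext i
  rw [coeff_one]
  by_cases hi : i < n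
  · exact hD.th_low i hi
  · push Not at hi
    have h0 : i ≠ 0 := by omega
    rw [if_neg h0]
    obtain ⟨w, hw⟩ := hD.th_adm i
    have h3 : min i 3 = 2 + (min i 3 - 2) := by omega
    rw [hw, h3, pow_add, h2, zero_mul, zero_mul]

theorem dwrel_unit {p : ℕ} {R : Type} [CommRing R] (h2 : (p : R) ^ 2 = 0) {m : ℕ}
    (hm : Nat.Coprime m p) : IsUnit ((m : ℕ) : R) := by
  have h : Nat.Coprime m (p ^ 2) := Nat.Coprime.pow_right 2 hm
  obtain ⟨u, v, huv⟩ := Nat.isCoprime_iff_coprime.2 h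
  have h3 := congrArg (Int.cast : ℤ → R) huv
  push_cast at h3
  rw [h2, mul_zero, add_zero] at h3
  exact IsUnit.of_mul_eq_one (u : R) (by rw [mul_comm]; exact h3)

theorem dwrel_cast {p : ℕ} {R : Type} [CommRing R] (h2 : (p : R) ^ 2 = 0) {a b : ℤ}
    (h : (p : ℤ) ^ 2 ∣ a - b) : (a : R) = (b : R) := by
  obtain ⟨w, hw⟩ := h
  have h3 := congrArg (Int.cast : ℤ → R) hw
  push_cast at h3
  rw [h2, zero_mul] at h3
  exact sub_eq_zero.1 h3

theorem dwrel_evalA {R : Type} [CommRing R] (a : ℤ[X]) (m : ℕ) :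
    (aR a R).eval ((m : ℕ) : R) = ((a.eval (m : ℤ) : ℤ) : R) := by
  unfold aR
  have h : ((m : ℕ) : R) = Int.castRingHom R (m : ℤ) := by simp
  rw [h, eval_map_apply]
  rfl

theorem dw_rel {p : ℕ} [Fact p.Prime] (hp : 5 ≤ p) {R : Type} [CommRing R] {D : Dat R}
    (hD : D.OK p 2 a2 c2) (h2 : (p : R) ^ 2 = 0) (k j : ℕ) (hj : j < p) :
    ((er ((p ^ 2 - 1) / 2) (p * k + j) : ℤ) : R)
      = ((er ((p - 1) / 2) k : ℤ) : R) * (D.Th * D.r j).eval (k : R) := by
  have hpp : p.Prime := Fact.out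
  have hodd : p % 2 = 1 := by
    rcases hpp.eq_two_or_odd with h | h
    · omega
    · exact h
  rw [Th_one le_rfl hD h2, one_mul]
  rcases lt_or_ge ((p - 1) / 2) (3 * k) with hk | hk
  · rw [er_zero_of_lt _ k hk, er_zero_of_lt, Int.cast_zero, zero_mul]
    obtain ⟨q, rfl⟩ : ∃ q, p = 2 * q + 1 := ⟨p / 2, by omega⟩
    have h3 : (2 * q + 1 - 1) / 2 = q := by omega
    rw [h3] at hk
    have h4 : ((2 * q + 1) ^ 2 - 1) / 2 = 2 * q ^ 2 + 2 * q := by
      have : (2 * q + 1) ^ 2 = 2 * (2 * q ^ 2 + 2 * q) + 1 := by ring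
      omega
    rw [h4]
    nlinarith
  · induction j with
    | zero =>
      rw [hD.r_zero, eval_one, mul_one, add_zero]
      exact dwrel_cast h2 (er_frob p hp k hk)
    | succ j ih =>
      have ih := ih (by omega)
      have hu : IsUnit (((p * k + j + 1 : ℕ) : ℕ) : R) := by
        apply dwrel_unit h2
        rw [Nat.coprime_comm, hpp.coprime_iff_not_dvd]
        intro hd
        have h5 : p ∣ j + 1 := (Nat.dvd_add_right (Dvd.intro k rfl)).1 (by rw [← add_assoc]; exact hd)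
        have := Nat.le_of_dvd (by omega) h5
        omega
      have h6 := congrArg (fun P : R[X] => P.eval (k : R)) (hD.r_succ j hj)
      simp only [eval_mul, eval_pow, eval_comp, eval_add, eval_C, eval_X] at h6
      have h7 : (p : R) * (k : R) + (j : R) = ((p * k + j : ℕ) : R) := by push_cast; ring
      have h8 : (p : R) * (k : R) + ((j : R) + 1) = ((p * k + j + 1 : ℕ) : R) := by
        push_cast; ring
      rw [h7, h8, dwrel_evalA] at h6
      have h9 := dwrel_cast h2 (er_step p hp k j hk hj)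
      rw [Int.cast_mul, Int.cast_mul, ih, Int.cast_pow, Int.cast_natCast] at h9
      have hu2 : IsUnit ((((p * k + j + 1 : ℕ) : ℕ) : R) ^ 2) := hu.pow 2
      apply hu2.mul_left_cancel
      rw [← add_assoc, h9]
      linear_combination -((er ((p - 1) / 2) k : ℤ) : R) * h6

end Pool.Agent.H.MP_7425ae_nt
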