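import Pool.Agent.H.MP_7425ae_nt.CMLev
import Pool.Agent.H.MP_7425ae_nt.CMBm
import Pool.Agent.H.MP_7425ae_nt.BetaS
import Pool.Agent.H.MP_7425ae_nt.BetaI

/-! The first column of the Frobenius matrix at the CM point. -/

set_option autoImplicit false

open Polynomial

namespace Pool.Agent.H.MP_7425ae_nt

private theorem eif_unit {p : ℕ} [Fact p.Prime] (hp : 5 ≤ p) (h19 : p ≠ 19) {R : Type}
    [CommRing R] (s : ℕ) (f : ZMod (p ^ s) →+* R) (a b c : ℕ) :
    IsUnit ((2 : R) ^ a * 3 ^ b * 19 ^ c) := by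
  have hpp : p.Prime := Fact.out
  have key : ∀ q : ℕ, q.Prime → q ≠ p → IsUnit ((q : ℕ) : R) := by
    intro q hq hqp
    have h1 : IsUnit ((q : ℕ) : ZMod (p ^ s)) :=
      (ZMod.isUnit_iff_coprime q (p ^ s)).2
        (((Nat.coprime_primes hq hpp).2 hqp).pow_right s)
    have h2 := h1.map f
    rwa [map_natCast] at h2
  have h2 : IsUnit (2 : R) := by exact_mod_cast key 2 Nat.prime_two (by omega)
  have h3 : IsUnit (3 : R) := by exact_mod_cast key 3 Nat.prime_three (by omega)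
  have h19' : IsUnit (19 : R) := by exact_mod_cast key 19 (by norm_num) (by omega)
  exact ((h2.pow a).mul (h3.pow b)).mul (h19'.pow c)

private theorem eif_lead {p : ℕ} [Fact p.Prime] (hp : 5 ≤ p) (h19 : p ≠ 19) (s : ℕ)
    (x0 : ZMod (p ^ s)) (hx0 : (-884736) * x0 = 1) : Lead 3 a3 x0 := by
  rw [lead3_iff]
  have h1 := eif_unit hp h19 s (RingHom.id (ZMod (p ^ s))) 6 6 1
  have h2 : (2 : ZMod (p ^ s)) ^ 6 * 3 ^ 6 * 19 ^ 1 = 884736 * (1 - 1728 * x0) := by
    linear_combination (-1728) * hx0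
  rw [h2] at h1
  exact isUnit_of_mul_isUnit_right h1

private theorem eif_ne19 {p : ℕ} {e : ℤ} (he : e ≠ 0) (hj : jacobiSym (p : ℤ) 19 = e) :
    p ≠ 19 := by
  rintro rfl
  apply he
  rw [← hj]
  norm_num

private theorem eif_vec {R : Type} [CommRing R] (M B B' : Matrix (Fin 3) (Fin 3) R) (k : R)
    (h : M * B = k • (B' * M)) (h00 : B 0 0 = 1) (h10 : B 1 0 = 0) (h20 : B 2 0 = 0)
    (i : Fin 3) : M i 0 = k * (B' i 0 * M 0 0 + B' i 1 * M 1 0 + B' i 2 * M 2 0) := by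
  have h1 := congrFun (congrFun h i) 0
  rw [Matrix.mul_apply, Matrix.smul_apply, Matrix.mul_apply, Fin.sum_univ_three,
    Fin.sum_univ_three, h00, h10, h20, smul_eq_mul] at h1
  rw [← h1]
  ring

/-- inert case: the first column of `M0` is divisible by `p^2` -/
theorem EI {p : ℕ} [Fact p.Prime] (hp : 5 ≤ p) (hj : jacobiSym (p : ℤ) 19 = -1) {S : Sys ℤ_[p]}
    (hS : S.Good p 3 a3 c3) (hr : S.rho = (p : ℤ_[p])) (s : ℕ)
    (x0 t0 : ZMod (p ^ s)) (hx0 : (-884736) * x0 = 1)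
    (ht0 : (1 + (p : ZMod (p ^ s)) * t0) * x0 = x0 ^ p) (i : Fin 3) :
    (p : ZMod (p ^ s)) ^ 2 ∣ Mmat p 3 a3 (S.dat s (PadicInt.toZModPow s)) x0 x0 t0 i 0 := by
  have h19 : p ≠ 19 := eif_ne19 (by norm_num) hj
  have hps : (p : ZMod (p ^ s)) ^ s = 0 := by
    rw [← Nat.cast_pow]
    exact ZMod.natCast_self _
  obtain ⟨R, _, f, β, hf, hβ, u, u', e, he⟩ := exists_beta_inert hp hj s
  have hβ' : (1 - β) ^ 2 = (1 - β) - 5 := by linear_combination hβ
  have u2 : IsUnit (2 : R) := by simpa using eif_unit hp h19 s f 1 0 0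
  have u3 : IsUnit (3 : R) := by simpa using eif_unit hp h19 s f 0 1 0
  have u19 : IsUnit (19 : R) := by simpa using eif_unit hp h19 s f 0 0 1
  have hrho : (f.comp (PadicInt.toZModPow s)) S.rho = (p : R) := by
    rw [hr, map_natCast]
  have hsR : (p : R) ^ s = 0 := by
    have := congrArg f hps
    simpa using this
  have hlead := eif_lead hp h19 s x0 hx0
  have hcomm := cm_comm hp hS s R (f.comp (PadicInt.toZModPow s)) hsR β (1 - β) hβ hβ' u u' u2 u3
    u19 ⟨e, by rw [hrho]; exact he⟩ (f x0) (f t0) (by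
      have := congrArg f hx0
      simpa [map_ofNat] using this) (by
      rw [hrho]
      have := congrArg f ht0
      simpa using this)
  rw [S.dat_map s (PadicInt.toZModPow s) f, Mmat_map _ x0 x0 t0 hlead f] at hcomm
  set M := Mmat p 3 a3 (S.dat s (PadicInt.toZModPow s)) x0 x0 t0 with hM
  obtain ⟨a01, a02, a12, hB, -, -, -⟩ := cm_Bm hβ u u2 u3 u19
  obtain ⟨b01, b02, b12, hB', hb01, hb12, hb02⟩ := cm_Bm hβ' u' u2 u3 u19
  have hvec := eif_vec _ _ _ _ hcomm (by rw [hB]; rfl) (by rw [hB]; rfl) (by rw [hB]; rfl)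
  have hv0 := hvec 0
  have hv1 := hvec 1
  rw [hB'] at hv0 hv1
  simp only [Matrix.of_apply, Matrix.cons_val', Matrix.cons_val_zero, Matrix.cons_val_one,
    Matrix.cons_val_fin_one, Matrix.cons_val, Matrix.map_apply] at hv0 hv1
  -- the inverses
  set b := Ring.inverse β with hb
  set c := Ring.inverse (1 - β) with hc
  have hbβ : β * b = 1 := Ring.mul_inverse_cancel β u
  have hcβ : (1 - β) * c = 1 := Ring.mul_inverse_cancel (1 - β) u'
  have hprod : β * (1 - β) = 5 := by linear_combination -hβ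
  -- `r = 5 c^2 = β c`
  have hr1 : 5 * c ^ 2 = β * c := by
    linear_combination (-(c ^ 2)) * hprod + β * c * hcβ
  have hk : ((1 - β) ^ 2 * b ^ 2) * (β * c) ^ 2 = 1 := by
    have : ((1 - β) ^ 2 * b ^ 2) * (β * c) ^ 2 = (β * b) ^ 2 * ((1 - β) * c) ^ 2 := by ring
    rw [this, hbβ, hcβ]
    ring
  rw [hr1] at hb01 hb12 hb02 hv1
  -- units
  have hsq : (2 * β - 1) ^ 2 = -19 := by linear_combination 4 * hβ
  have hunit1 : IsUnit (2 * β - 1) := by
    have : IsUnit ((2 * β - 1) ^ 2) := by rw [hsq]; exact u19.neg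
    exact (isUnit_pow_iff two_ne_zero).1 this
  have hcu : IsUnit c := IsUnit.of_mul_eq_one (1 - β) (by rw [mul_comm]; exact hcβ)
  have hrm : β * c - 1 = (2 * β - 1) * c := by linear_combination hcβ
  have hrp : β * c + 1 = c := by linear_combination -hcβ
  have hrm_u : IsUnit (β * c - 1) := by rw [hrm]; exact hunit1.mul hcu
  have hrp_u : IsUnit (β * c + 1) := by rw [hrp]; exact hcu
  have hr_u : IsUnit (β * c) := u.mul hcu
  -- second coordinate
  have e1 : (27 : R) * f (M 1 0) = 2 * f (M 2 0) := by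
    have h1 : (β * c) ^ 2 * f (M 1 0) = β * c * f (M 1 0) + b12 * f (M 2 0) := by
      linear_combination ((β * c) ^ 2) * hv1 + (β * c * f (M 1 0) + b12 * f (M 2 0)) * hk
    have h2 : (β * c * (β * c - 1)) * (27 * f (M 1 0)) =
        (β * c * (β * c - 1)) * (2 * f (M 2 0)) := by
      linear_combination 27 * h1 + f (M 2 0) * hb12
    exact (hr_u.mul hrm_u).mul_left_cancel h2
  have e0 : (350892 : R) * f (M 0 0) = 985 * f (M 2 0) := by
    have h1 : (β * c) ^ 2 * f (M 0 0) = f (M 0 0) + b01 * f (M 1 0) + b02 * f (M 2 0) := by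
      linear_combination ((β * c) ^ 2) * hv0 +
        (f (M 0 0) + b01 * f (M 1 0) + b02 * f (M 2 0)) * hk
    have h2 : ((β * c + 1) * (β * c - 1)) * (350892 * f (M 0 0)) =
        ((β * c + 1) * (β * c - 1)) * (985 * f (M 2 0)) := by
      linear_combination 350892 * h1 + f (M 2 0) * hb02 + (1026 * f (M 1 0)) * hb01
        - 76 * f (M 2 0) * hb01 + 950 * (β * c - 1) * e1
    exact (hrp_u.mul hrm_u).mul_left_cancel h2
  have g1 : (27 : ZMod (p ^ s)) * M 1 0 = 2 * M 2 0 := by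
    apply hf
    simpa [map_ofNat] using e1
  have g0 : (350892 : ZMod (p ^ s)) * M 0 0 = 985 * M 2 0 := by
    apply hf
    simpa [map_ofNat] using e0
  have hOK := hS.ok s (ZMod (p ^ s)) (PadicInt.toZModPow s) hps
  have hadm := Mmat_adm hOK x0 x0 t0 hlead 2 0
  have hrho' : (S.dat s (PadicInt.toZModPow s)).rho = (p : ZMod (p ^ s)) := by
    show (PadicInt.toZModPow s) S.rho = _
    rw [hr, map_natCast]
  rw [hrho', ← hM] at hadm
  have hadm2 : (p : ZMod (p ^ s)) ^ 2 ∣ M 2 0 := hadm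
  have un1 : IsUnit (27 : ZMod (p ^ s)) := by
    have := eif_unit hp h19 s (RingHom.id (ZMod (p ^ s))) 0 3 0
    norm_num at this
    exact this
  have un0 : IsUnit (350892 : ZMod (p ^ s)) := by
    have := eif_unit hp h19 s (RingHom.id (ZMod (p ^ s))) 2 5 2
    norm_num at this
    exact this
  fin_cases i
  · have : (p : ZMod (p ^ s)) ^ 2 ∣ 350892 * M 0 0 := by
      rw [g0]
      exact Dvd.dvd.mul_left hadm2 _
    exact un0.dvd_mul_left.1 this
  · have : (p : ZMod (p ^ s)) ^ 2 ∣ 27 * M 1 0 := by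
      rw [g1]
      exact Dvd.dvd.mul_left hadm2 _
    exact un1.dvd_mul_left.1 this
  · exact hadm2

/-- split case: `M0 e_0 = lambda_1 e_0` -/
theorem ES {p : ℕ} [Fact p.Prime] (hp : 5 ≤ p) (hj : jacobiSym (p : ℤ) 19 = 1) {S : Sys ℤ_[p]}
    (hS : S.Good p 3 a3 c3) (hr : S.rho = (p : ℤ_[p])) (s : ℕ)
    (x0 t0 : ZMod (p ^ s)) (hx0 : (-884736) * x0 = 1)
    (ht0 : (1 + (p : ZMod (p ^ s)) * t0) * x0 = x0 ^ p) :
    Mmat p 3 a3 (S.dat s (PadicInt.toZModPow s)) x0 x0 t0 1 0 = 0 ∧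
    Mmat p 3 a3 (S.dat s (PadicInt.toZModPow s)) x0 x0 t0 2 0 = 0 := by
  have h19 : p ≠ 19 := eif_ne19 (by norm_num) hj
  have hps : (p : ZMod (p ^ s)) ^ s = 0 := by
    rw [← Nat.cast_pow]
    exact ZMod.natCast_self _
  obtain ⟨β, hβ, u, e, he⟩ := exists_beta_split hp hj s
  have u2 : IsUnit (2 : ZMod (p ^ s)) := by simpa using eif_unit hp h19 s (RingHom.id _) 1 0 0
  have u3 : IsUnit (3 : ZMod (p ^ s)) := by simpa using eif_unit hp h19 s (RingHom.id _) 0 1 0
  have u19 : IsUnit (19 : ZMod (p ^ s)) := by simpa using eif_unit hp h19 s (RingHom.id _) 0 0 1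
  have hrho : (PadicInt.toZModPow s) S.rho = (p : ZMod (p ^ s)) := by
    rw [hr, map_natCast]
  have hcomm := cm_comm hp hS s (ZMod (p ^ s)) (PadicInt.toZModPow s) hps β β hβ hβ u u u2 u3
    u19 ⟨e, by rw [hrho]; exact he⟩ x0 t0 hx0 (by rw [hrho]; exact ht0)
  set M := Mmat p 3 a3 (S.dat s (PadicInt.toZModPow s)) x0 x0 t0 with hM
  obtain ⟨b01, b02, b12, hB, -, -, -⟩ := cm_Bm hβ u u2 u3 u19
  have hvec := eif_vec _ _ _ _ hcomm (by rw [hB]; rfl) (by rw [hB]; rfl) (by rw [hB]; rfl)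
  have hv1 := hvec 1
  have hv2 := hvec 2
  rw [hB] at hv1 hv2
  simp only [Matrix.of_apply, Matrix.cons_val', Matrix.cons_val_zero, Matrix.cons_val_one,
    Matrix.cons_val_fin_one, Matrix.cons_val] at hv1 hv2
  set b := Ring.inverse β with hb
  have hbβ : β * b = 1 := Ring.mul_inverse_cancel β u
  have hprod : β * (1 - β) = 5 := by linear_combination -hβ
  have hr1 : 5 * b ^ 2 = (1 - β) * b := by
    linear_combination (-(b ^ 2)) * hprod + (1 - β) * b * hbβ
  have hk : β ^ 2 * b ^ 2 = 1 := by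
    have : β ^ 2 * b ^ 2 = (β * b) ^ 2 := by ring
    rw [this, hbβ]
    ring
  rw [hr1, hk] at hv1 hv2
  have hsq : (2 * β - 1) ^ 2 = -19 := by linear_combination 4 * hβ
  have hunit1 : IsUnit (2 * β - 1) := by
    have : IsUnit ((2 * β - 1) ^ 2) := by rw [hsq]; exact u19.neg
    exact (isUnit_pow_iff two_ne_zero).1 this
  have hbu : IsUnit b := IsUnit.of_mul_eq_one β (by rw [mul_comm]; exact hbβ)
  have hrm : (1 - β) * b - 1 = -((2 * β - 1) * b) := by linear_combination hbβ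
  have hrp : (1 - β) * b + 1 = b := by linear_combination -hbβ
  have hrm_u : IsUnit ((1 - β) * b - 1) := by rw [hrm]; exact (hunit1.mul hbu).neg
  have hrp_u : IsUnit ((1 - β) * b + 1) := by rw [hrp]; exact hbu
  have e2 : M 2 0 = 0 := by
    have h2 : (((1 - β) * b - 1) * ((1 - β) * b + 1)) * M 2 0 =
        (((1 - β) * b - 1) * ((1 - β) * b + 1)) * 0 := by
      linear_combination -hv2
    exact (hrm_u.mul hrp_u).mul_left_cancel h2
  refine ⟨?_, e2⟩
  rw [e2] at hv1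
  have h1 : ((1 - β) * b - 1) * M 1 0 = ((1 - β) * b - 1) * 0 := by
    linear_combination -hv1
  exact hrm_u.mul_left_cancel h1

end Pool.Agent.H.MP_7425ae_nt
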