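import Pool.Agent.H.MP_7425ae_nt.FamT

/-! The element `kappa`. -/

set_option autoImplicit false

open Polynomial

namespace Pool.Agent.H.MP_7425ae_nt

variable {R S : Type} [CommRing R] [CommRing S]

/-- `kappa^2 = (D1/D2)(g) / (D1/D2)(h)` and `kappa = (D1/D2)(h)^{(p-1)/2}` up to nilpotents -/
structure IsKappa (p : ℕ) (h g κ : R) : Prop where
  sq : κ ^ 2 * (D1 h * D2 g) = D1 g * D2 h
  nil : IsNilpotent (κ - (D1 h * Ring.inverse (D2 h)) ^ ((p - 1) / 2))

/-- the inverse of a unit is mapped to the inverse -/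
theorem famk_inv_map (f : R →+* S) {u : R} (hu : IsUnit u) :
    Ring.inverse (f u) = f (Ring.inverse u) := by
  have h1 : f u * f (Ring.inverse u) = 1 := by
    rw [← map_mul, Ring.mul_inverse_cancel u hu, map_one]
  have h2 : Ring.inverse (f u) * f u = 1 := Ring.inverse_mul_cancel _ (hu.map f)
  calc Ring.inverse (f u) = Ring.inverse (f u) * (f u * f (Ring.inverse u)) := by
        rw [h1, mul_one]
    _ = (Ring.inverse (f u) * f u) * f (Ring.inverse u) := by ring
    _ = f (Ring.inverse u) := by rw [h2, one_mul]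

/-- a unit plus a nilpotent is a unit -/
theorem famk_unit_add {a b : R} (ha : IsUnit a) (hb : IsNilpotent (b - a)) : IsUnit b := by
  have h := IsNilpotent.isUnit_add_left_of_commute hb ha (Commute.all _ _)
  have h2 : a + (b - a) = b := by ring
  rw [h2] at h
  exact h

/-- square roots congruent modulo nilpotents are equal when `2` is a unit -/
theorem sqrt_unique (a b : R) (h2 : IsUnit (2 : R)) (ha : IsUnit a) (hab : a ^ 2 = b ^ 2)
    (hn : IsNilpotent (a - b)) : a = b := by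
  have h1 : IsUnit (a + b) := by
    apply famk_unit_add (h2.mul ha)
    have h3 : a + b - 2 * a = -(a - b) := by ring
    rw [h3]
    exact hn.neg
  have h4 : (a - b) * (a + b) = 0 := by
    have h5 : (a - b) * (a + b) = a ^ 2 - b ^ 2 := by ring
    rw [h5, hab, sub_self]
  have h6 : a - b = 0 := (h1.mul_left_eq_zero).1 h4
  exact sub_eq_zero.1 h6

/-- square roots of `1 + rho e` exist when `rho` is nilpotent and `2` is a unit -/
theorem sqrt_exists (rho e : R) (h2 : IsUnit (2 : R)) (hn : IsNilpotent rho) :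
    ∃ f : R, (1 + rho * f) ^ 2 = 1 + rho * e := by
  obtain ⟨N, hN⟩ := hn
  obtain ⟨i, hi⟩ := h2.exists_right_inv
  let F : ℕ → R := fun n => Nat.rec 0 (fun _ f => i * (e - rho * f ^ 2)) n
  have hF : ∀ n, F (n + 1) = i * (e - rho * F n ^ 2) := fun n => rfl
  have hd : ∀ n, rho ^ n ∣ F (n + 1) - F n := by
    intro n
    induction n with
    | zero => simp
    | succ n ih =>
      obtain ⟨q, hq⟩ := ih
      refine ⟨-(i * q * (F (n + 1) + F n)), ?_⟩
      have h3 : F (n + 1 + 1) - F (n + 1) =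
          -(i * rho * ((F (n + 1) - F n) * (F (n + 1) + F n))) := by
        rw [hF (n + 1)]
        have h4 : F (n + 1) = i * (e - rho * F n ^ 2) := hF n
        linear_combination -h4
      rw [h3, hq]
      ring
  obtain ⟨q, hq⟩ := hd N
  rw [hN, zero_mul] at hq
  have h5 : F N = i * (e - rho * F N ^ 2) := by
    rw [← hF N]
    exact (sub_eq_zero.1 hq).symm
  refine ⟨F N, ?_⟩
  linear_combination (2 * rho) * h5 + rho * (e - rho * F N ^ 2) * hi

theorem exists_kappa (p : ℕ) [Fact p.Prime] (hp : 3 ≤ p) (rho h z : R) (hr : rho ∣ (p : R))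
    (hn : IsNilpotent rho) (h2 : IsUnit (2 : R)) (u : U5 h) :
    ∃ κ : R, IsKappa p h (gf p rho h z) κ := by
  have hpp : p.Prime := Fact.out
  obtain ⟨e1, he1⟩ := D1_gf p rho h z hr
  obtain ⟨e2, he2⟩ := D2_gf p rho h z hr
  have ug := U5_gf p rho h z hr hn u
  obtain ⟨q, hq⟩ : ∃ q, p = 2 * q + 1 := by
    rcases hpp.eq_two_or_odd' with h3 | h3
    · omega
    · exact h3
  have hq' : (p - 1) / 2 = q := by omega
  have hB : D2 h * Ring.inverse (D2 h) = 1 := Ring.mul_inverse_cancel _ u.d2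
  have hiB : IsUnit (Ring.inverse (D2 h)) := u.d2.ringInverse
  obtain ⟨V, hV⟩ := ((((u.d1.mul hiB).pow q).pow 2).mul (u.d1.mul ug.d2)).exists_right_inv
  obtain ⟨f, hf⟩ := sqrt_exists rho
    ((e1 * D2 h - (D1 h * Ring.inverse (D2 h)) ^ (2 * q) * D1 h * e2) * V) h2 hn
  have hBq : D2 h ^ (2 * q) * Ring.inverse (D2 h) ^ (2 * q) = 1 := by
    rw [← mul_pow, hB, one_pow]
  refine ⟨(D1 h * Ring.inverse (D2 h)) ^ q * (1 + rho * f), ?_, ?_⟩
  · have hA : D1 h ^ p = D1 h ^ (2 * q) * D1 h := by rw [hq, pow_succ]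
    have hBp : D2 h ^ p = D2 h ^ (2 * q) * D2 h := by
      have h9 : D2 h ^ p = D2 h ^ (2 * q + 1) := by rw [hq]
      rw [h9, pow_succ]
    generalize hc : (D1 h * Ring.inverse (D2 h)) ^ q = c at *
    have hc2 : (D1 h * Ring.inverse (D2 h)) ^ (2 * q) = c ^ 2 := by
      rw [mul_comm 2 q, pow_mul, hc]
    have hc3 : c ^ 2 * D2 h ^ (2 * q) = D1 h ^ (2 * q) := by
      rw [← hc2, mul_pow]
      linear_combination D1 h ^ (2 * q) * hBq
    rw [hc2] at hf
    rw [he1, hA]
    have h10 : D2 (gf p rho h z) = D2 h ^ (2 * q) * D2 h + rho * e2 := by rw [he2, hBp]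
    calc (c * (1 + rho * f)) ^ 2 * (D1 h * D2 (gf p rho h z))
        = (1 + rho * f) ^ 2 * (c ^ 2 * (D1 h * D2 (gf p rho h z))) := by ring
      _ = c ^ 2 * (D1 h * D2 (gf p rho h z)) + rho * (e1 * D2 h - c ^ 2 * D1 h * e2) *
          (c ^ 2 * (D1 h * D2 (gf p rho h z)) * V) := by
          rw [hf]
          ring
      _ = c ^ 2 * (D1 h * D2 (gf p rho h z)) + rho * (e1 * D2 h - c ^ 2 * D1 h * e2) := by
          rw [hV, mul_one]
      _ = (c ^ 2 * D2 h ^ (2 * q)) * (D1 h * D2 h) + rho * (e1 * D2 h) := by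
          rw [h10]
          ring
      _ = (D1 h ^ (2 * q) * D1 h + rho * e1) * D2 h := by
          rw [hc3]
          ring
  · rw [hq']
    have h11 : (D1 h * Ring.inverse (D2 h)) ^ q * (1 + rho * f) -
        (D1 h * Ring.inverse (D2 h)) ^ q = rho * ((D1 h * Ring.inverse (D2 h)) ^ q * f) := by
      ring
    rw [h11]
    exact (Commute.all _ _).isNilpotent_mul_right hn

theorem kappa_unit (p : ℕ) [Fact p.Prime] (rho h z κ : R)
    (hr : rho ∣ (p : R)) (hn : IsNilpotent rho) (u : U5 h)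
    (hκ : IsKappa p h (gf p rho h z) κ) : IsUnit κ :=
  famk_unit_add ((u.d1.mul u.d2.ringInverse).pow _) hκ.nil

theorem kappa_unique (p : ℕ) [Fact p.Prime] (hp : 3 ≤ p) (rho h z κ κ' : R)
    (hr : rho ∣ (p : R)) (hn : IsNilpotent rho) (h2 : IsUnit (2 : R)) (u : U5 h)
    (hκ : IsKappa p h (gf p rho h z) κ) (hκ' : IsKappa p h (gf p rho h z) κ') : κ = κ' := by
  have ug := U5_gf p rho h z hr hn u
  apply sqrt_unique κ κ' h2 (kappa_unit p rho h z κ hr hn u hκ)
  · have h3 : κ ^ 2 * (D1 h * D2 (gf p rho h z)) = κ' ^ 2 * (D1 h * D2 (gf p rho h z)) := by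
      rw [hκ.sq, hκ'.sq]
    exact (u.d1.mul ug.d2).mul_right_cancel h3
  · have h4 : κ - κ' = (κ - (D1 h * Ring.inverse (D2 h)) ^ ((p - 1) / 2)) -
        (κ' - (D1 h * Ring.inverse (D2 h)) ^ ((p - 1) / 2)) := by ring
    rw [h4]
    exact (Commute.all _ _).isNilpotent_sub hκ.nil hκ'.nil

theorem IsKappa.map {p : ℕ} {h g κ : R} (u : U5 h) (hκ : IsKappa p h g κ) (f : R →+* S) :
    IsKappa p (f h) (f g) (f κ) := by
  refine ⟨?_, ?_⟩
  · rw [D1_map, D2_map, D1_map, D2_map, ← map_pow, ← map_mul, ← map_mul, ← map_mul, hκ.sq]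
  · rw [D1_map, D2_map, famk_inv_map f u.d2, ← map_mul, ← map_pow, ← map_sub]
    exact hκ.nil.map f

end Pool.Agent.H.MP_7425ae_nt
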