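import Pool.Agent.H.MP_7425ae_nt.Univ
import Pool.Agent.H.MP_7425ae_nt.FamK

/-! The determinant of `M`. -/

set_option autoImplicit false

open Polynomial

namespace Pool.Agent.H.MP_7425ae_nt

section

variable {R R' : Type} [CommRing R] [CommRing R']

private theorem ud_isUnit_add {a b : R} (ha : IsUnit a) (hb : IsNilpotent b) : IsUnit (a + b) :=
  hb.isUnit_add_left_of_commute ha (Commute.all _ _)

private theorem ud_isUnit_of_sub {a b : R} (ha : IsUnit a) (hb : IsNilpotent (b - a)) :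
    IsUnit b := by
  have h := ud_isUnit_add ha hb
  rwa [add_sub_cancel] at h

private theorem ud_one_add_unit (rho c : R) (hn : IsNilpotent rho) : IsUnit (1 + rho * c) :=
  ud_isUnit_add isUnit_one ((Commute.all rho c).isNilpotent_mul_right hn)

/-- the polynomial `1 - 1728 X` at `gf` -/
private theorem ud_frob (p : ℕ) [Fact p.Prime] (rho h z : R) (hr : rho ∣ (p : R)) :
    ∃ c : R, 1 - 1728 * gf p rho h z = (1 - 1728 * h) ^ p + rho * c := by
  obtain ⟨c, hc⟩ := frob_gf p (1 - C 1728 * X) rho h z hr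
  refine ⟨c, ?_⟩
  simpa using hc

private theorem ud_unit_gf (p : ℕ) [Fact p.Prime] (rho h z : R) (hr : rho ∣ (p : R))
    (hn : IsNilpotent rho) (hu : IsUnit (1 - 1728 * h)) : IsUnit (1 - 1728 * gf p rho h z) := by
  obtain ⟨c, hc⟩ := ud_frob p rho h z hr
  rw [hc]
  exact ud_isUnit_add (hu.pow p) ((Commute.all rho c).isNilpotent_mul_right hn)

/-- choice of `t` -/
private noncomputable def ud_t (rho h z : R) : R :=
  Classical.epsilon (fun t : R => (1 + rho * t) * (1 + rho * z * h) = 1)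

private theorem ud_t_spec (rho h z : R) (hn : IsNilpotent rho) :
    (1 + rho * ud_t rho h z) * (1 + rho * z * h) = 1 := by
  have hex : ∃ t : R, (1 + rho * t) * (1 + rho * z * h) = 1 := by
    have hu : IsUnit (1 + rho * (z * h)) := ud_one_add_unit rho (z * h) hn
    obtain ⟨v, hv⟩ := hu.exists_right_inv
    exact ⟨- z * h * v, by linear_combination (-(rho * z * h)) * hv⟩
  exact Classical.epsilon_spec hex

/-- two choices of `t` differ by something killed by `rho` -/
private theorem ud_t_unique (rho h z t t' : R) (ht : (1 + rho * t) * (1 + rho * z * h) = 1)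
    (ht' : (1 + rho * t') * (1 + rho * z * h) = 1) : rho * t = rho * t' := by
  linear_combination (1 + rho * t') * ht - (1 + rho * t) * ht'

/-- the properties of the determinant up to `p^3` -/
private def ud_IsE (p : ℕ) (x y e : R) : Prop :=
  e ^ 2 * (1 - 1728 * x) ^ 3 = (1 - 1728 * y) ^ 3 ∧
    IsNilpotent (e - (1 - 1728 * x) ^ (3 * ((p - 1) / 2)))

private noncomputable def ud_e (p : ℕ) (x y : R) : R :=
  Classical.epsilon (fun e : R => ud_IsE p x y e)

private theorem ud_IsE_unit {p : ℕ} {x y e : R} (hu : IsUnit (1 - 1728 * x))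
    (he : ud_IsE p x y e) : IsUnit e :=
  ud_isUnit_of_sub (hu.pow _) he.2

private theorem ud_IsE_unique {p : ℕ} {x y e e' : R} (h2 : IsUnit (2 : R))
    (hu : IsUnit (1 - 1728 * x)) (he : ud_IsE p x y e) (he' : ud_IsE p x y e') : e = e' := by
  refine sqrt_unique e e' h2 (ud_IsE_unit hu he) ?_ ?_
  · have h1 : e ^ 2 * (1 - 1728 * x) ^ 3 = e' ^ 2 * (1 - 1728 * x) ^ 3 := by
      rw [he.1, he'.1]
    exact (hu.pow 3).mul_right_cancel h1
  · have h1 : e - e' = (e - (1 - 1728 * x) ^ (3 * ((p - 1) / 2)))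
        - (e' - (1 - 1728 * x) ^ (3 * ((p - 1) / 2))) := by ring
    rw [h1]
    exact (Commute.all _ _).isNilpotent_sub he.2 he'.2

private theorem ud_IsE_exists (p : ℕ) [Fact p.Prime] (hp : 5 ≤ p) (rho x z : R)
    (hr : rho ∣ (p : R)) (hn : IsNilpotent rho) (h2 : IsUnit (2 : R))
    (hu : IsUnit (1 - 1728 * x)) : ∃ e : R, ud_IsE p x (gf p rho x z) e := by
  obtain ⟨c, hc⟩ := ud_frob p rho x z hr
  obtain ⟨v, hv⟩ := hu.exists_right_inv
  have hodd : p = 2 * ((p - 1) / 2) + 1 := by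
    have h1 : p % 2 = 1 := (Fact.out : p.Prime).eq_two_or_odd.resolve_left (by omega)
    omega
  obtain ⟨f, hf⟩ := sqrt_exists rho
    (3 * (c * v ^ p) + 3 * rho * (c * v ^ p) ^ 2 + rho ^ 2 * (c * v ^ p) ^ 3) h2 hn
  refine ⟨(1 - 1728 * x) ^ (3 * ((p - 1) / 2)) * (1 + rho * f), ?_, ?_⟩
  · have h3 : (1 - 1728 * gf p rho x z) ^ 3
        = (1 - 1728 * x) ^ (3 * p) * (1 + rho * (c * v ^ p)) ^ 3 := by
      have h4 : (1 - 1728 * gf p rho x z) = (1 - 1728 * x) ^ p * (1 + rho * (c * v ^ p)) := by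
        have h5 : (1 - 1728 * x) ^ p * v ^ p = 1 := by rw [← mul_pow, hv, one_pow]
        rw [hc]
        linear_combination (- rho * c) * h5
      rw [h4, mul_pow, ← pow_mul, mul_comm p 3]
    rw [h3]
    have h6 : (1 - 1728 * x) ^ (3 * p)
        = ((1 - 1728 * x) ^ (3 * ((p - 1) / 2))) ^ 2 * (1 - 1728 * x) ^ 3 := by
      rw [← pow_mul, ← pow_add]
      congr 1
      omega
    rw [h6, mul_pow, hf]
    ring
  · have h7 : (1 - 1728 * x) ^ (3 * ((p - 1) / 2)) * (1 + rho * f)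
        - (1 - 1728 * x) ^ (3 * ((p - 1) / 2))
        = rho * ((1 - 1728 * x) ^ (3 * ((p - 1) / 2)) * f) := by ring
    rw [h7]
    exact (Commute.all _ _).isNilpotent_mul_right hn

private theorem ud_e_spec (p : ℕ) [Fact p.Prime] (hp : 5 ≤ p) (rho x z : R)
    (hr : rho ∣ (p : R)) (hn : IsNilpotent rho) (h2 : IsUnit (2 : R))
    (hu : IsUnit (1 - 1728 * x)) : ud_IsE p x (gf p rho x z) (ud_e p x (gf p rho x z)) :=
  Classical.epsilon_spec (ud_IsE_exists p hp rho x z hr hn h2 hu)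

private theorem ud_IsE_map {p : ℕ} {x y e : R} (he : ud_IsE p x y e) (φ : R →+* R') :
    ud_IsE p (φ x) (φ y) (φ e) := by
  refine ⟨?_, ?_⟩
  · have h := congrArg φ he.1
    simpa [map_ofNat] using h
  · have h := he.2.map φ
    simpa [map_ofNat] using h

end

/-- the difference of the two sides -/
private noncomputable def ud_Psi (p : ℕ) {W : Type} [CommRing W] (S : Sys W) (s : ℕ)
    (R : Type) [CommRing R] (f : W →+* R) (h z : R) : Matrix (Fin 1) (Fin 1) R :=
  fun _ _ => (Mmat p 3 a3 (S.dat s f) h (gf p (f S.rho) h z) (ud_t (f S.rho) h z)).det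
    - (p : R) ^ 3 * ud_e p h (gf p (f S.rho) h z)

section

variable {p : ℕ} [Fact p.Prime] {W : Type} [CommRing W] {S : Sys W}

omit [Fact p.Prime] in
private theorem ud_rho (hS : S.Good p 3 a3 c3) (s : ℕ) {R : Type} [CommRing R] (f : W →+* R)
    (hs : (p : R) ^ s = 0) : f S.rho ∣ (p : R) ∧ IsNilpotent (f S.rho) :=
  ⟨(hS.ok s R f hs).rho_dvd, (hS.ok s R f hs).rho_nilp⟩

private theorem ud_two (hp : 5 ≤ p) (hS : S.Good p 3 a3 c3) {R : Type} [CommRing R]
    (f : W →+* R) : IsUnit (2 : R) := by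
  have h1 : Nat.Coprime 2 p := by
    rw [Nat.coprime_primes Nat.prime_two (Fact.out : p.Prime)]
    omega
  have h2 := (hS.unit 2 h1).map f
  simpa [map_ofNat] using h2

omit [Fact p.Prime] in
private theorem ud_pow_map (s : ℕ) {R R' : Type} [CommRing R] [CommRing R'] (φ : R →+* R')
    (hs : (p : R) ^ s = 0) : (p : R') ^ s = 0 := by
  have h := congrArg φ hs
  simpa using h

private theorem ud_nat (hp : 5 ≤ p) (hS : S.Good p 3 a3 c3) (s : ℕ) (R R' : Type) [CommRing R]
    [CommRing R'] (f : W →+* R) (φ : R →+* R') (h z : R) (hs : (p : R) ^ s = 0)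
    (hu : IsUnit (1 - 1728 * h)) :
    ud_Psi p S s R' (φ.comp f) (φ h) (φ z) = (ud_Psi p S s R f h z).map φ := by
  have hs' : (p : R') ^ s = 0 := ud_pow_map s φ hs
  obtain ⟨hr, hn⟩ := ud_rho hS s f hs
  obtain ⟨hr', hn'⟩ := ud_rho hS s (φ.comp f) hs'
  have h2 : IsUnit (2 : R) := ud_two hp hS f
  have h2' : IsUnit (2 : R') := ud_two hp hS (φ.comp f)
  have hu' : IsUnit (1 - 1728 * φ h) := by
    have := hu.map φ
    simpa [map_ofNat] using this
  have hy : gf p ((φ.comp f) S.rho) (φ h) (φ z) = φ (gf p (f S.rho) h z) :=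
    gf_map p (f S.rho) h z φ
  have hlead : Lead 3 a3 (gf p (f S.rho) h z) :=
    (lead3_iff _).2 (ud_unit_gf p (f S.rho) h z hr hn hu)
  have hok' := hS.ok s R' (φ.comp f) hs'
  have ht : (φ.comp f) S.rho * ud_t ((φ.comp f) S.rho) (φ h) (φ z)
      = (φ.comp f) S.rho * φ (ud_t (f S.rho) h z) := by
    apply ud_t_unique _ _ _ _ _ (ud_t_spec _ _ _ hn')
    have h3 := congrArg φ (ud_t_spec (f S.rho) h z hn)
    simpa using h3
  have hM : Mmat p 3 a3 (S.dat s (φ.comp f)) (φ h) (gf p ((φ.comp f) S.rho) (φ h) (φ z))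
      (ud_t ((φ.comp f) S.rho) (φ h) (φ z))
      = (Mmat p 3 a3 (S.dat s f) h (gf p (f S.rho) h z) (ud_t (f S.rho) h z)).map φ := by
    rw [Mmat_congr hok' _ _ _ _ ht, hy, Sys.dat_map, Mmat_map _ _ _ _ hlead]
  have hE : ud_e p (φ h) (gf p ((φ.comp f) S.rho) (φ h) (φ z))
      = φ (ud_e p h (gf p (f S.rho) h z)) := by
    refine ud_IsE_unique (p := p) h2' hu' (ud_e_spec p hp _ _ _ hr' hn' h2' hu') ?_
    rw [hy]
    exact ud_IsE_map (ud_e_spec p hp _ _ _ hr hn h2 hu) φ
  ext i j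
  show (Mmat p 3 a3 (S.dat s (φ.comp f)) (φ h) (gf p ((φ.comp f) S.rho) (φ h) (φ z))
      (ud_t ((φ.comp f) S.rho) (φ h) (φ z))).det
      - (p : R') ^ 3 * ud_e p (φ h) (gf p ((φ.comp f) S.rho) (φ h) (φ z)) =
    φ ((Mmat p 3 a3 (S.dat s f) h (gf p (f S.rho) h z) (ud_t (f S.rho) h z)).det
      - (p : R) ^ 3 * ud_e p h (gf p (f S.rho) h z))
  rw [hM, hE, map_sub, map_mul, map_pow, map_natCast, RingHom.map_det]
  rfl

private theorem ud_det {R : Type} [CommRing R] {d : R → R} (hd : IsDer d)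
    (M A B : Matrix (Fin 3) (Fin 3) R) (h : M.map d = M * A - B * M) :
    d M.det = (A 0 0 + A 1 1 + A 2 2 - (B 0 0 + B 1 1 + B 2 2)) * M.det := by
  have hij : ∀ i j, d (M i j) = (M i 0 * A 0 j + M i 1 * A 1 j + M i 2 * A 2 j)
      - (B i 0 * M 0 j + B i 1 * M 1 j + B i 2 * M 2 j) := by
    intro i j
    have h1 := congrFun (congrFun h i) j
    simpa [Matrix.mul_apply, Fin.sum_univ_three] using h1
  rw [Matrix.det_fin_three]
  simp only [hd.add, hd.sub, hd.mul, hij]
  ring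

private theorem ud_d_num {R : Type} [CommRing R] {d : R → R} (hd : IsDer d) (x : R) :
    d (1 - 1728 * x) = - (1728 * d x) := by
  have h1 : d (1728 : R) = 0 := by
    have := hd.natCast 1728
    simpa using this
  rw [hd.sub, hd.one, hd.mul, h1]
  ring

/-- the differential equation -/
private theorem ud_ode (hp : 5 ≤ p) (hS : S.Good p 3 a3 c3) (s : ℕ) (R : Type) [CommRing R]
    (f : W →+* R) (hs : (p : R) ^ s = 0) (h z : R) (hu : IsUnit (1 - 1728 * h))
    (d : R → R) (hd : IsDer d) (hk : Killed d (S.dat s f)) (hh : d h = h) (hz : d z = 0) :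
    d (ud_Psi p S s R f h z 0 0) =
      (- (2592 * ((p : R) + f S.rho * z * h * (1 + f S.rho * ud_t (f S.rho) h z)) *
          gf p (f S.rho) h z * Ring.inverse (1 - 1728 * gf p (f S.rho) h z))) *
        ud_Psi p S s R f h z 0 0
      + ud_Psi p S s R f h z 0 0 * (2592 * h * Ring.inverse (1 - 1728 * h)) := by
  obtain ⟨hr, hn⟩ := ud_rho hS s f hs
  have h2 : IsUnit (2 : R) := ud_two hp hS f
  have hok := hS.ok s R f hs
  have hρ : d (f S.rho) = 0 := hk.2.2.2
  have hD : (S.dat s f).rho = f S.rho := rfl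
  set ρ := f S.rho with hρdef
  set t := ud_t ρ h z with htdef
  have hts : (1 + ρ * t) * (1 + ρ * z * h) = 1 := ud_t_spec ρ h z hn
  set θ := (p : R) + ρ * z * h * (1 + ρ * t) with hθdef
  set y := gf p ρ h z with hydef
  have huy : IsUnit (1 - 1728 * y) := ud_unit_gf p ρ h z hr hn hu
  have hd1 : d (1 + ρ * z * h) = ρ * z * h := by
    rw [hd.add, hd.one, hd.mul, hd.mul, hρ, hz, hh]
    ring
  have hpn : p = (p - 1) + 1 := by omega
  have hcast : (((p - 1 : ℕ) : R) + 1) = (p : R) := by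
    rw [← Nat.cast_succ, Nat.succ_eq_add_one, ← hpn]
  have hdp : d (h ^ p) = (p : R) * h ^ p := by
    have h3 := hd.pow h (p - 1)
    rw [← hpn, hcast, hh] at h3
    have h4 : h ^ (p - 1) * h = h ^ p := by
      rw [← pow_succ, ← hpn]
    rw [h3, mul_assoc, h4]
  have hdy : d y = θ * y := by
    have h3 : d y = h ^ p * (ρ * z * h) + ((p : R) * h ^ p) * (1 + ρ * z * h) := by
      rw [hydef, gf, hd.mul, hd1, hdp]
    rw [h3, hθdef, hydef, gf]
    linear_combination (- (h ^ p * (ρ * z * h))) * hts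
  have hxy : (1 + ρ * t) * y = h ^ p := by
    rw [hydef, gf]
    linear_combination (h ^ p) * hts
  have hdt : ρ * d t = ((p : R) * 1 - θ) * (1 + ρ * t) := by
    have h3 := congrArg d hts
    rw [hd.mul, hd1, hd.add, hd.one, hd.mul ρ t, hρ] at h3
    rw [hθdef]
    linear_combination (1 + ρ * t) * h3 - (ρ * d t) * hts
  have hode := Mmat_ode (p := p) (by omega) hok hd hk h y t 1 θ (by rw [hh, one_mul]) hdy
    ((lead3_iff _).2 hu) ((lead3_iff _).2 huy) hxy hdt
  have hvx := Ring.mul_inverse_cancel _ hu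
  have hvy := Ring.mul_inverse_cancel _ huy
  set vx := Ring.inverse (1 - 1728 * h) with hvxdef
  set vy := Ring.inverse (1 - 1728 * y) with hvydef
  have hdet := ud_det hd _ _ _ hode
  rw [cmp3 h vx hvx, cmp3 y vy hvy] at hdet
  have hdet2 : d (Mmat p 3 a3 (S.dat s f) h y t).det
      = (1 * 0 + 1 * 0 + 1 * (2592 * h * vx) - (θ * 0 + θ * 0 + θ * (2592 * y * vy)))
        * (Mmat p 3 a3 (S.dat s f) h y t).det := hdet
  have he := ud_e_spec p hp ρ h z hr hn h2 hu
  have heu := ud_IsE_unit hu he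
  have he1 := he.1
  have hde : d (ud_e p h y) = (2592 * h * vx - 2592 * θ * y * vy) * ud_e p h y := by
    have h3 := congrArg d he1
    have h4 : d ((1 - 1728 * h) ^ 3) = 3 * (1 - 1728 * h) ^ 2 * (- (1728 * h)) := by
      have := hd.pow (1 - 1728 * h) 2
      rw [ud_d_num hd, hh] at this
      rw [this]
      norm_num
    have h5 : d ((1 - 1728 * y) ^ 3) = 3 * (1 - 1728 * y) ^ 2 * (- (1728 * (θ * y))) := by
      have := hd.pow (1 - 1728 * y) 2
      rw [ud_d_num hd, hdy] at this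
      rw [this]
      norm_num
    rw [hd.mul, h4, h5, pow_two (ud_e p h y), hd.mul] at h3
    have h6 : IsUnit (2 * ud_e p h y * (1 - 1728 * h) ^ 3) := (h2.mul heu).mul (hu.pow 3)
    apply h6.mul_left_cancel
    linear_combination h3 + (- 5184 * ud_e p h y ^ 2 * (1 - 1728 * h) ^ 2 * h) * hvx
      + (5184 * θ * y * vy) * he1 + (5184 * (1 - 1728 * y) ^ 2 * θ * y) * hvy
  have hp3 : d ((p : R) ^ 3) = 0 := by
    have := hd.natCast (p ^ 3)
    simpa using this
  show d ((Mmat p 3 a3 (S.dat s f) h y t).det - (p : R) ^ 3 * ud_e p h y) = 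
    (- (2592 * θ * y * vy)) *
        ((Mmat p 3 a3 (S.dat s f) h y t).det - (p : R) ^ 3 * ud_e p h y)
      + ((Mmat p 3 a3 (S.dat s f) h y t).det - (p : R) ^ 3 * ud_e p h y) * (2592 * h * vx)
  rw [hd.sub, hd.mul, hp3, hde, hdet2]
  ring

private theorem ud_zero (hp : 5 ≤ p) (hS : S.Good p 3 a3 c3) (s : ℕ) (R : Type) [CommRing R]
    (f : W →+* R) (hs : (p : R) ^ s = 0) (z : R) : ud_Psi p S s R f 0 z = 0 := by
  obtain ⟨hr, hn⟩ := ud_rho hS s f hs
  have h2 : IsUnit (2 : R) := ud_two hp hS f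
  have hok := hS.ok s R f hs
  have hy : gf p (f S.rho) 0 z = 0 := by
    rw [gf, zero_pow (by omega), zero_mul]
  have ht : (S.dat s f).rho * ud_t (f S.rho) 0 z = (S.dat s f).rho * 0 := by
    show f S.rho * ud_t (f S.rho) 0 z = f S.rho * 0
    exact ud_t_unique (f S.rho) 0 z _ _ (ud_t_spec _ _ _ hn) (by ring)
  have hM : Mmat p 3 a3 (S.dat s f) 0 (gf p (f S.rho) 0 z) (ud_t (f S.rho) 0 z)
      = Matrix.diagonal (fun i : Fin 3 => (p : R) ^ (i : ℕ)) := by
    rw [Mmat_congr hok _ _ _ _ ht, hy]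
    refine Mmat_zero (by omega) ?_ hok
    exact ((lead3_iff (0 : ℤ)).2 (by simp)).1
  have hE : ud_e p 0 (gf p (f S.rho) 0 z) = 1 := by
    refine ud_IsE_unique (p := p) h2 (by simp) (ud_e_spec p hp _ _ _ hr hn h2 (by simp)) ?_
    rw [hy]
    refine ⟨by ring, ?_⟩
    simp
  ext i j
  show (Mmat p 3 a3 (S.dat s f) 0 (gf p (f S.rho) 0 z) (ud_t (f S.rho) 0 z)).det
    - (p : R) ^ 3 * ud_e p 0 (gf p (f S.rho) 0 z) = 0
  rw [hM, hE, Matrix.det_diagonal, Fin.prod_univ_three]
  show (p : R) ^ 0 * (p : R) ^ 1 * (p : R) ^ 2 - (p : R) ^ 3 * 1 = 0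
  ring

omit [Fact p.Prime] in
private theorem ud_level (hS : S.Good p 3 a3 c3) (s s' : ℕ) (R : Type) [CommRing R]
    (f : W →+* R) (h : s ≤ s') (hs : (p : R) ^ s = 0) (x z : R) :
    ud_Psi p S s' R f x z = ud_Psi p S s R f x z := by
  ext i j
  show (Mmat p 3 a3 (S.dat s' f) x (gf p (f S.rho) x z) (ud_t (f S.rho) x z)).det
    - (p : R) ^ 3 * ud_e p x (gf p (f S.rho) x z) =
    (Mmat p 3 a3 (S.dat s f) x (gf p (f S.rho) x z) (ud_t (f S.rho) x z)).det
    - (p : R) ^ 3 * ud_e p x (gf p (f S.rho) x z)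
  rw [hS.indep s s' R f h hs]

private theorem ud_ps_pow (W : Type) [CommRing W] (p s : ℕ) :
    (p : PowerSeries (Qs W[X] p s)) ^ s = 0 := by
  have h1 : (p : Qs W[X] p s) ^ s = 0 := by
    have h2 : Ideal.Quotient.mk (Ideal.span {(p : W[X]) ^ s}) ((p : W[X]) ^ s) = 0 :=
      Ideal.Quotient.eq_zero_iff_mem.2 (Ideal.mem_span_singleton_self _)
    rw [map_pow, map_natCast] at h2
    exact h2
  have h3 := congrArg (PowerSeries.C (R := Qs W[X] p s)) h1
  simpa using h3

private theorem ud_unit_X (W : Type) [CommRing W] (p s : ℕ) :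
    IsUnit (1 - 1728 * (PowerSeries.X : PowerSeries (Qs W[X] p s))) := by
  rw [PowerSeries.isUnit_iff_constantCoeff]
  simp

private theorem ud_compat (hp : 5 ≤ p) (hS : S.Good p 3 a3 c3) (s s' : ℕ) (h : s ≤ s') :
    (ud_Psi p S s' (PowerSeries (Qs W[X] p s')) (psMap W p s') PowerSeries.X (psZ W p s')).map
      (PowerSeries.map (qsMap W[X] p h)) =
    ud_Psi p S s (PowerSeries (Qs W[X] p s)) (psMap W p s) PowerSeries.X (psZ W p s) := by
  have h1 := ud_nat hp hS s' _ _ (psMap W p s') (PowerSeries.map (qsMap W[X] p h)) PowerSeries.X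
    (psZ W p s') (ud_ps_pow W p s') (ud_unit_X W p s')
  have h2 : (PowerSeries.map (qsMap W[X] p h)).comp (psMap W p s') = psMap W p s := by
    ext w
    simp [psMap, qsMap]
  have h3 : PowerSeries.map (qsMap W[X] p h) (psZ W p s') = psZ W p s := by
    simp [psZ, qsMap]
  rw [h2, h3, PowerSeries.map_X] at h1
  rw [← h1]
  exact ud_level hS s s' _ _ h (ud_ps_pow W p s) _ _

private theorem ud_ps (hp : 5 ≤ p) (hS : S.Good p 3 a3 c3) (s : ℕ) :
    ud_Psi p S s (PowerSeries (Qs W[X] p s)) (psMap W p s) PowerSeries.X (psZ W p s) = 0 := by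
  have hG := hS.mapPoly
  refine rigid p hG.tf hG.unit 1
    (fun s => ud_Psi p S s (PowerSeries (Qs W[X] p s)) (psMap W p s) PowerSeries.X (psZ W p s))
    (fun s => fun _ _ => (- (2592 * ((p : PowerSeries (Qs W[X] p s)) +
        psMap W p s S.rho * psZ W p s * PowerSeries.X *
          (1 + psMap W p s S.rho * ud_t (psMap W p s S.rho) PowerSeries.X (psZ W p s))) *
        gf p (psMap W p s S.rho) PowerSeries.X (psZ W p s) *
        Ring.inverse (1 - 1728 * gf p (psMap W p s S.rho) PowerSeries.X (psZ W p s)))))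
    (fun s => fun _ _ => 2592 * PowerSeries.X *
      Ring.inverse (1 - 1728 * (PowerSeries.X : PowerSeries (Qs W[X] p s))))
    ?_ ?_ ?_ ?_ ?_ s
  · intro s s' h
    exact ud_compat hp hS s s' h
  · intro s
    ext1 i j
    have h1 := ud_ode hp hS s (PowerSeries (Qs W[X] p s)) (psMap W p s) (ud_ps_pow W p s)
      PowerSeries.X (psZ W p s) (ud_unit_X W p s) (thd (Qs W[X] p s)) (thd_isDer _)
      (psKilled S p s) (thd_X _) (thd_C _ _)
    rw [Subsingleton.elim i 0, Subsingleton.elim j 0]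
    simp only [Matrix.map_apply, Matrix.add_apply, Matrix.mul_apply, Fin.sum_univ_one]
    exact h1
  · intro s
    rw [pow_one]
    ext1 i j
    simp only [Matrix.map_apply, Matrix.zero_apply]
    have hg : PowerSeries.constantCoeff
        (gf p (psMap W p s S.rho) PowerSeries.X (psZ W p s)) = 0 := by
      rw [gf, map_mul, map_pow, PowerSeries.constantCoeff_X, zero_pow (by omega), zero_mul]
    rw [map_neg, map_mul, map_mul, hg]
    simp
  · intro s
    rw [pow_one]
    ext1 i j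
    simp
  · intro s
    have h1 := ud_nat hp hS s _ _ (psMap W p s)
      (PowerSeries.constantCoeff (R := Qs W[X] p s)) PowerSeries.X
      (psZ W p s) (ud_ps_pow W p s) (ud_unit_X W p s)
    rw [PowerSeries.constantCoeff_X] at h1
    rw [← h1]
    refine ud_zero hp hS s _ _ ?_ _
    have h2 := congrArg (PowerSeries.constantCoeff (R := Qs W[X] p s)) (ud_ps_pow W p s)
    simpa using h2

end

/-- the determinant: `det M = p^3 e` with `e^2 = ((1-1728y)/(1-1728x))^3` and
`e = (1-1728x)^{3(p-1)/2}` up to nilpotents -/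
theorem UD {p : ℕ} [Fact p.Prime] (hp : 5 ≤ p) {W : Type} [CommRing W] {S : Sys W}
    (hS : S.Good p 3 a3 c3) (s : ℕ) (R : Type) [CommRing R] (f : W →+* R)
    (hs : (p : R) ^ s = 0) (x y t e : R) (hx : IsUnit x) (hl : IsUnit (1 - 1728 * x))
    (ht : (1 + f S.rho * t) * y = x ^ p)
    (he : e ^ 2 * (1 - 1728 * x) ^ 3 = (1 - 1728 * y) ^ 3)
    (hen : IsNilpotent (e - (1 - 1728 * x) ^ (3 * ((p - 1) / 2)))) :
    (Mmat p 3 a3 (S.dat s f) x y t).det = (p : R) ^ 3 * e := by
  obtain ⟨hr, hn⟩ := ud_rho hS s f hs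
  have h2 : IsUnit (2 : R) := ud_two hp hS f
  have hok := hS.ok s R f hs
  have hu1 : IsUnit (1 + f S.rho * t) := ud_one_add_unit _ _ hn
  obtain ⟨v, hv⟩ := hu1.exists_right_inv
  obtain ⟨w, hw⟩ := hx.exists_right_inv
  have hz : (1 + f S.rho * t) * (1 + f S.rho * (- t * v * w) * x) = 1 := by
    linear_combination (- (f S.rho * t) * x * w) * hv + (- (f S.rho * t)) * hw
  have hy : gf p (f S.rho) x (- t * v * w) = y := by
    rw [gf]
    have h1 : (1 + f S.rho * t) * (x ^ p * (1 + f S.rho * (- t * v * w) * x))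
        = (1 + f S.rho * t) * y := by
      rw [ht]
      linear_combination (x ^ p) * hz
    exact hu1.mul_left_cancel h1
  have hU := universal p s 1 (1 - 1728 * X : W[X][X]) (by simp)
    (fun R _ f h z => ud_Psi p S s R f h z)
    (by
      intro R R' _ _ f φ h z hs hu
      refine ud_nat hp hS s R R' f φ h z hs ?_
      simpa [ev2] using hu)
    (ud_ps hp hS s) R f x (- t * v * w) hs (by simpa [ev2] using hl)
  have hU0 := congrFun (congrFun hU 0) 0
  have hU1 : (Mmat p 3 a3 (S.dat s f) x (gf p (f S.rho) x (- t * v * w))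
      (ud_t (f S.rho) x (- t * v * w))).det
      - (p : R) ^ 3 * ud_e p x (gf p (f S.rho) x (- t * v * w)) = 0 := hU0
  have ht' : (S.dat s f).rho * ud_t (f S.rho) x (- t * v * w) = (S.dat s f).rho * t :=
    ud_t_unique (f S.rho) x (- t * v * w) _ _ (ud_t_spec _ _ _ hn) hz
  have hee : ud_e p x y = e := by
    refine ud_IsE_unique (p := p) h2 hl ?_ ⟨he, hen⟩
    have := ud_e_spec p hp (f S.rho) x (- t * v * w) hr hn h2 hl
    rwa [hy] at this
  rw [hy, Mmat_congr hok _ _ _ _ ht', hee] at hU1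
  exact sub_eq_zero.1 hU1

end Pool.Agent.H.MP_7425ae_nt
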