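import Pool.Agent.H.MP_7425ae_nt.FamB

/-! The Frobenius lift `g = h^p (1 + rho z h)`. -/

set_option autoImplicit false

open Polynomial

namespace Pool.Agent.H.MP_7425ae_nt

variable {R S : Type} [CommRing R] [CommRing S]

/-- the Frobenius lift -/
def gf (p : ℕ) (rho h z : R) : R := h ^ p * (1 + rho * z * h)

theorem gf_map (p : ℕ) (rho h z : R) (f : R →+* S) :
    gf p (f rho) (f h) (f z) = f (gf p rho h z) := by
  simp [gf]

/-- `P(h)^p = P(h^p)` modulo `p` for integer polynomials -/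
theorem frob_int (p : ℕ) [Fact p.Prime] (P : ℤ[X]) :
    ∃ Q : ℤ[X], P ^ p = P.expand ℤ p + C (p : ℤ) * Q := by
  have h1 : (P ^ p).map (Int.castRingHom (ZMod p)) =
      (Polynomial.expand ℤ p P).map (Int.castRingHom (ZMod p)) := by
    rw [Polynomial.map_pow, Polynomial.map_expand, ZMod.expand_card]
  have h2 : C (p : ℤ) ∣ P ^ p - Polynomial.expand ℤ p P := by
    rw [Polynomial.C_dvd_iff_dvd_coeff]
    intro i
    have h3 := congrArg (fun q => Polynomial.coeff q i) h1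
    simp only [Polynomial.coeff_map, eq_intCast] at h3
    rw [Polynomial.coeff_sub, ← ZMod.intCast_zmod_eq_zero_iff_dvd]
    push_cast
    rw [h3, sub_self]
  obtain ⟨Q, hQ⟩ := h2
  exact ⟨Q, by rw [← hQ]; ring⟩

/-- `P(h)^p = P(g)` modulo `rho` -/
theorem frob_gf (p : ℕ) [Fact p.Prime] (P : ℤ[X]) (rho h z : R) (hr : rho ∣ (p : R)) :
    ∃ e : R, P.eval₂ (Int.castRingHom R) (gf p rho h z)
      = (P.eval₂ (Int.castRingHom R) h) ^ p + rho * e := by
  obtain ⟨Q, hQ⟩ := frob_int p P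
  obtain ⟨k, hk⟩ := hr
  have h1 : gf p rho h z - h ^ p ∣ (P.map (Int.castRingHom R)).eval (gf p rho h z) -
      (P.map (Int.castRingHom R)).eval (h ^ p) := Polynomial.sub_dvd_eval_sub _ _ _
  obtain ⟨c, hc⟩ := h1
  have h2 : (P.map (Int.castRingHom R)).eval (h ^ p) =
      (Polynomial.expand ℤ p P).eval₂ (Int.castRingHom R) h := by
    rw [Polynomial.eval₂_eq_eval_map, Polynomial.map_expand, Polynomial.expand_eval]
  have h3 : (P.eval₂ (Int.castRingHom R) h) ^ p =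
      (Polynomial.expand ℤ p P).eval₂ (Int.castRingHom R) h +
        (p : R) * Q.eval₂ (Int.castRingHom R) h := by
    rw [← Polynomial.eval₂_pow, hQ, Polynomial.eval₂_add, Polynomial.eval₂_mul,
      Polynomial.eval₂_C]
    simp
  refine ⟨z * h ^ (p + 1) * c - k * Q.eval₂ (Int.castRingHom R) h, ?_⟩
  rw [h3, Polynomial.eval₂_eq_eval_map, hk, ← h2]
  have h4 : (P.map (Int.castRingHom R)).eval (gf p rho h z) =
      (gf p rho h z - h ^ p) * c + (P.map (Int.castRingHom R)).eval (h ^ p) := by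
    rw [← hc]; ring
  rw [h4]
  unfold gf
  ring

theorem D1_gf (p : ℕ) [Fact p.Prime] (rho h z : R) (hr : rho ∣ (p : R)) :
    ∃ e : R, D1 (gf p rho h z) = D1 h ^ p + rho * e := by
  obtain ⟨e, he⟩ := frob_gf p (1 + C 250 * X + C 3125 * X ^ 2) rho h z hr
  refine ⟨e, ?_⟩
  simpa [D1, Polynomial.eval₂_add, Polynomial.eval₂_mul, Polynomial.eval₂_pow] using he

theorem D2_gf (p : ℕ) [Fact p.Prime] (rho h z : R) (hr : rho ∣ (p : R)) :
    ∃ e : R, D2 (gf p rho h z) = D2 h ^ p + rho * e := by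
  obtain ⟨e, he⟩ := frob_gf p (1 + C 10 * X + C 5 * X ^ 2) rho h z hr
  refine ⟨e, ?_⟩
  simpa [D2, Polynomial.eval₂_add, Polynomial.eval₂_mul, Polynomial.eval₂_pow] using he

theorem famt_E0 (p : ℕ) [Fact p.Prime] (rho h z : R) (hr : rho ∣ (p : R)) :
    ∃ e : R, E0 (gf p rho h z) = E0 h ^ p + rho * e := by
  obtain ⟨e, he⟩ := frob_gf p (1 + C 22 * X + C 125 * X ^ 2) rho h z hr
  refine ⟨e, ?_⟩
  simpa [E0, Polynomial.eval₂_add, Polynomial.eval₂_mul, Polynomial.eval₂_pow] using he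

theorem famt_E1 (p : ℕ) [Fact p.Prime] (rho h z : R) (hr : rho ∣ (p : R)) :
    ∃ e : R, E1 (gf p rho h z) = E1 h ^ p + rho * e := by
  obtain ⟨e, he⟩ := frob_gf p (1 - C 500 * X - C 15625 * X ^ 2) rho h z hr
  refine ⟨e, ?_⟩
  simpa [E1, Polynomial.eval₂_sub, Polynomial.eval₂_mul, Polynomial.eval₂_pow] using he

theorem famt_E2 (p : ℕ) [Fact p.Prime] (rho h z : R) (hr : rho ∣ (p : R)) :
    ∃ e : R, E2 (gf p rho h z) = E2 h ^ p + rho * e := by
  obtain ⟨e, he⟩ := frob_gf p (1 + C 4 * X - X ^ 2) rho h z hr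
  refine ⟨e, ?_⟩
  simpa [E2, Polynomial.eval₂_add, Polynomial.eval₂_sub, Polynomial.eval₂_mul,
    Polynomial.eval₂_pow] using he

theorem famt_unit {a rho e : R} (ha : IsUnit a) (hn : IsNilpotent rho) :
    IsUnit (a + rho * e) := by
  apply IsNilpotent.isUnit_add_left_of_commute _ ha (Commute.all _ _)
  exact (Commute.all rho e).isNilpotent_mul_right hn

/-- units at `h` are units at `g` when `rho` is nilpotent -/
theorem U5_gf (p : ℕ) [Fact p.Prime] (rho h z : R) (hr : rho ∣ (p : R)) (hn : IsNilpotent rho)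
    (u : U5 h) : U5 (gf p rho h z) := by
  refine ⟨?_, ?_, ?_, ?_, ?_⟩
  · obtain ⟨e, he⟩ := D1_gf p rho h z hr
    rw [he]
    exact famt_unit (u.d1.pow p) hn
  · obtain ⟨e, he⟩ := D2_gf p rho h z hr
    rw [he]
    exact famt_unit (u.d2.pow p) hn
  · obtain ⟨e, he⟩ := famt_E0 p rho h z hr
    rw [he]
    exact famt_unit (u.e0.pow p) hn
  · obtain ⟨e, he⟩ := famt_E1 p rho h z hr
    rw [he]
    exact famt_unit (u.e1.pow p) hn
  · obtain ⟨e, he⟩ := famt_E2 p rho h z hr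
    rw [he]
    exact famt_unit (u.e2.pow p) hn

theorem famt_solve {rho D G V a q : R} (hV : IsUnit V) (h1 : G = D + rho * a)
    (h2 : V = D + rho * q) : ∃ t : R, (1 + rho * t) * V = G := by
  refine ⟨(a - q) * Ring.inverse V, ?_⟩
  have h3 : Ring.inverse V * V = 1 := Ring.inverse_mul_cancel V hV
  calc (1 + rho * ((a - q) * Ring.inverse V)) * V
      = V + rho * (a - q) * (Ring.inverse V * V) := by ring
    _ = V + rho * (a - q) := by rw [h3, mul_one]
    _ = (D + rho * q) + rho * (a - q) := by rw [← h2]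
    _ = G := by rw [h1]; ring

/-- `t` for the pair `(xf h, xf g)`: `1 + rho t = D1(g)^3 / (D1(h)^{3p} (1 + rho z h))` -/
theorem exists_tf (p : ℕ) [Fact p.Prime] (rho h z : R) (hr : rho ∣ (p : R))
    (hn : IsNilpotent rho) (u : U5 h) :
    ∃ t : R, (1 + rho * t) * ((1 + rho * z * h) * D1 h ^ (3 * p)) = D1 (gf p rho h z) ^ 3 := by
  obtain ⟨e, he⟩ := D1_gf p rho h z hr
  have hu : IsUnit (1 + rho * z * h) := by
    have := famt_unit (e := z * h) (isUnit_one (M := R)) hn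
    rwa [← mul_assoc] at this
  refine famt_solve (D := D1 h ^ (3 * p)) (a := 3 * (D1 h ^ p) ^ 2 * e
    + 3 * D1 h ^ p * rho * e ^ 2 + rho ^ 2 * e ^ 3) (q := z * h * D1 h ^ (3 * p))
    (hu.mul (u.d1.pow _)) ?_ ?_
  · rw [he, mul_comm 3 p, pow_mul]
    ring
  · ring

/-- `t'` for the pair `(xg h, xg g)`:
`1 + rho t' = D2(g)^3 / (D2(h)^{3p} (1 + rho z h)^5)` -/
theorem exists_tg (p : ℕ) [Fact p.Prime] (rho h z : R) (hr : rho ∣ (p : R))
    (hn : IsNilpotent rho) (u : U5 h) :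
    ∃ t : R, (1 + rho * t) * ((1 + rho * z * h) ^ 5 * D2 h ^ (3 * p))
      = D2 (gf p rho h z) ^ 3 := by
  obtain ⟨e, he⟩ := D2_gf p rho h z hr
  have hu : IsUnit (1 + rho * z * h) := by
    have := famt_unit (e := z * h) (isUnit_one (M := R)) hn
    rwa [← mul_assoc] at this
  refine famt_solve (D := D2 h ^ (3 * p)) (a := 3 * (D2 h ^ p) ^ 2 * e
    + 3 * D2 h ^ p * rho * e ^ 2 + rho ^ 2 * e ^ 3)
    (q := z * h * (5 + 10 * (rho * z * h) + 10 * (rho * z * h) ^ 2 + 5 * (rho * z * h) ^ 3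
      + (rho * z * h) ^ 4) * D2 h ^ (3 * p))
    ((hu.pow 5).mul (u.d2.pow _)) ?_ ?_
  · rw [he, mul_comm 3 p, pow_mul]
    ring
  · ring

theorem tf_spec (p : ℕ) [Fact p.Prime] (rho h z t : R) (hr : rho ∣ (p : R))
    (hn : IsNilpotent rho) (u : U5 h)
    (ht : (1 + rho * t) * ((1 + rho * z * h) * D1 h ^ (3 * p)) = D1 (gf p rho h z) ^ 3) :
    (1 + rho * t) * xf (gf p rho h z) = xf h ^ p := by
  have hg := U5_gf p rho h z hr hn u
  have h1 : Ring.inverse (D1 h) * D1 h = 1 := Ring.inverse_mul_cancel _ u.d1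
  have h2 : D1 (gf p rho h z) * Ring.inverse (D1 (gf p rho h z)) = 1 :=
    Ring.mul_inverse_cancel _ hg.d1
  have h3 : Ring.inverse (D1 h) ^ (3 * p) * D1 h ^ (3 * p) = 1 := by
    rw [← mul_pow, h1, one_pow]
  have h4 : D1 (gf p rho h z) ^ 3 * Ring.inverse (D1 (gf p rho h z)) ^ 3 = 1 := by
    rw [← mul_pow, h2, one_pow]
  unfold xf
  calc (1 + rho * t) * (gf p rho h z * Ring.inverse (D1 (gf p rho h z)) ^ 3)
      = (1 + rho * t) * (gf p rho h z * Ring.inverse (D1 (gf p rho h z)) ^ 3) *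
        (Ring.inverse (D1 h) ^ (3 * p) * D1 h ^ (3 * p)) := by rw [h3, mul_one]
    _ = ((1 + rho * t) * ((1 + rho * z * h) * D1 h ^ (3 * p))) * h ^ p *
        Ring.inverse (D1 (gf p rho h z)) ^ 3 * Ring.inverse (D1 h) ^ (3 * p) := by
        rw [show gf p rho h z * Ring.inverse (D1 (gf p rho h z)) ^ 3 =
          (h ^ p * (1 + rho * z * h)) * Ring.inverse (D1 (gf p rho h z)) ^ 3 from rfl]
        ring
    _ = (D1 (gf p rho h z) ^ 3 * Ring.inverse (D1 (gf p rho h z)) ^ 3) *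
        (h ^ p * Ring.inverse (D1 h) ^ (3 * p)) := by rw [ht]; ring
    _ = h ^ p * Ring.inverse (D1 h) ^ (3 * p) := by rw [h4, one_mul]
    _ = (h * Ring.inverse (D1 h) ^ 3) ^ p := by rw [mul_pow, ← pow_mul]

theorem tg_spec (p : ℕ) [Fact p.Prime] (rho h z t : R) (hr : rho ∣ (p : R))
    (hn : IsNilpotent rho) (u : U5 h)
    (ht : (1 + rho * t) * ((1 + rho * z * h) ^ 5 * D2 h ^ (3 * p)) = D2 (gf p rho h z) ^ 3) :
    (1 + rho * t) * xg (gf p rho h z) = xg h ^ p := by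
  have hg := U5_gf p rho h z hr hn u
  have h1 : Ring.inverse (D2 h) * D2 h = 1 := Ring.inverse_mul_cancel _ u.d2
  have h2 : D2 (gf p rho h z) * Ring.inverse (D2 (gf p rho h z)) = 1 :=
    Ring.mul_inverse_cancel _ hg.d2
  have h3 : Ring.inverse (D2 h) ^ (3 * p) * D2 h ^ (3 * p) = 1 := by
    rw [← mul_pow, h1, one_pow]
  have h4 : D2 (gf p rho h z) ^ 3 * Ring.inverse (D2 (gf p rho h z)) ^ 3 = 1 := by
    rw [← mul_pow, h2, one_pow]
  have h5 : gf p rho h z ^ 5 = (h ^ p) ^ 5 * (1 + rho * z * h) ^ 5 := by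
    rw [← mul_pow]
    rfl
  unfold xg
  calc (1 + rho * t) * (gf p rho h z ^ 5 * Ring.inverse (D2 (gf p rho h z)) ^ 3)
      = (1 + rho * t) * (gf p rho h z ^ 5 * Ring.inverse (D2 (gf p rho h z)) ^ 3) *
        (Ring.inverse (D2 h) ^ (3 * p) * D2 h ^ (3 * p)) := by rw [h3, mul_one]
    _ = ((1 + rho * t) * ((1 + rho * z * h) ^ 5 * D2 h ^ (3 * p))) * (h ^ p) ^ 5 *
        Ring.inverse (D2 (gf p rho h z)) ^ 3 * Ring.inverse (D2 h) ^ (3 * p) := by
        rw [h5]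
        ring
    _ = (D2 (gf p rho h z) ^ 3 * Ring.inverse (D2 (gf p rho h z)) ^ 3) *
        ((h ^ p) ^ 5 * Ring.inverse (D2 h) ^ (3 * p)) := by rw [ht]; ring
    _ = (h ^ p) ^ 5 * Ring.inverse (D2 h) ^ (3 * p) := by rw [h4, one_mul]
    _ = (h ^ 5 * Ring.inverse (D2 h) ^ 3) ^ p := by
        rw [mul_pow, ← pow_mul, ← pow_mul, ← pow_mul, mul_comm p 5]

end Pool.Agent.H.MP_7425ae_nt
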