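import Pool.Agent.H.MP_7425ae_nt.NabA

/-! `Phi` is horizontal; the differential equation of its matrix. -/

set_option autoImplicit false

open Polynomial

namespace Pool.Agent.H.MP_7425ae_nt

variable {R : Type} [CommRing R]

/-- the derivation kills the coefficients of the data -/
def Killed (d : R → R) (D : Dat R) : Prop :=
  pD d D.Th = 0 ∧ (∀ j, pD d (D.r j) = 0) ∧ (∀ i, d (D.dp.coeff i) = 0) ∧ d D.rho = 0

theorem nabla_dpow {d : R → R} (hd : IsDer d) (x w : R) (hx : d x = w * x) (j : ℕ) :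
    d (x ^ j) = (j : R) * w * x ^ j := by
  cases j with
  | zero => simp [hd.one]
  | succ k =>
    rw [hd.pow, hx]
    push_cast
    ring

theorem nabla_lin {d : R → R} (hd : IsDer d) (p j : ℕ) :
    pD d (C (p : R) * X + C (j : R)) = 0 := by
  have hD := pD_isDer hd
  rw [hD.add, hD.mul, pD_C hd, pD_C hd, pD_X hd, hd.natCast, hd.natCast]
  simp

/-- `Phi nabla_x = nabla_y Phi` -/
theorem Phi_nab {p n : ℕ} {a : ℤ[X]} {c : ℕ → ℤ} {D : Dat R} (h : D.OK p n a c)
    {d : R → R} (hd : IsDer d) (hk : Killed d D) (x t w w' : R) (hx : d x = w * x)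
    (ht : D.rho * d t = ((p : R) * w - w') * (1 + D.rho * t)) (F : R[X]) :
    Phi p D x t (nab d w F) = nab d w' (Phi p D x t F) := by
  obtain ⟨hTh, hr, hdp, hrho⟩ := hk
  have hD := pD_isDer hd
  have hEx := Ex_deriv h hd hdp t ((p : R) * w - w') ht
  unfold nab Phi Uop
  rw [hD.mul, hD.mul, hEx, hTh, hD.sum]
  have hterm : ∀ j ∈ Finset.range p,
      pD d (C (x ^ j) * F.comp (C (p : R) * X + C (j : R)) * D.r j)
        = C (x ^ j) * (pD d F + C w * X * F).comp (C (p : R) * X + C (j : R)) * D.r j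
          - C ((p : R) * w) * X
            * (C (x ^ j) * F.comp (C (p : R) * X + C (j : R)) * D.r j) := by
    intro j _
    rw [hD.mul, hD.mul, hr j, pD_C hd, nabla_dpow hd x w hx j,
      pD_comp hd F _ (nabla_lin hd p j)]
    simp only [add_comp, mul_comp, C_comp, X_comp, map_mul]
    ring
  rw [Finset.sum_congr rfl hterm, Finset.sum_sub_distrib, ← Finset.mul_sum]
  simp only [map_sub, map_mul]
  ring

/-- the matrix of `Phi` is horizontal: `dM + w' Cmp_y M = M w Cmp_x`. -/
theorem Mmat_ode {p n : ℕ} (hp : 0 < p) {a : ℤ[X]} {c : ℕ → ℤ} {D : Dat R} (h : D.OK p n a c)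
    {d : R → R} (hd : IsDer d) (hk : Killed d D) (x y t w w' : R)
    (hx : d x = w * x) (hy : d y = w' * y) (lx : Lead n a x) (ly : Lead n a y)
    (hxy : (1 + D.rho * t) * y = x ^ p)
    (ht : D.rho * d t = ((p : R) * w - w') * (1 + D.rho * t)) :
    (Mmat p n a D x y t).map d
      = Mmat p n a D x y t * (w • Cmp n a x) - (w' • Cmp n a y) * Mmat p n a D x y t := by
  have hD := pD_isDer hd
  ext i j
  -- the column
  set m : Fin n → R := fun i => Mmat p n a D x y t i j with hm
  have hP := red_spec ly (Phi p D x t (X ^ (j : ℕ)))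
  have hmred : red n a y (Phi p D x t (X ^ (j : ℕ))) = m := rfl
  rw [hmred] at hP
  set q := quo n a y (Phi p D x t (X ^ (j : ℕ))) with hq
  -- left side
  have hpow : ∀ k : ℕ, pD d (X ^ k : R[X]) = 0 := by
    intro k
    cases k with
    | zero => simp [hD.one]
    | succ k => rw [hD.pow, pD_X hd]; simp
  have hL : nab d w (X ^ (j : ℕ) : R[X]) = C w * X ^ ((j : ℕ) + 1) := by
    unfold nab
    rw [hpow, pow_succ]
    ring
  have h1 : red n a y (Phi p D x t (nab d w (X ^ (j : ℕ) : R[X])))
      = (Mmat p n a D x y t).mulVec (w • fun i => Cmp n a x i j) := by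
    rw [hL, red_Phi hp h x y t lx ly hxy, (red_C_mul lx _ _).1]
    rfl
  -- right side
  have h2 : nab d w' (Phi p D x t (X ^ (j : ℕ)))
      = emb (fun i => d (m i)) + C w' * ∑ k : Fin n, C (m k) * X ^ ((k : ℕ) + 1)
        + tau n a y (nab d w' q) := by
    rw [← nab_tau n a hd y w' hy q, hP]
    unfold nab
    rw [hD.add]
    have he : pD d (emb m) = emb (fun i => d (m i)) := by
      unfold emb
      rw [hD.sum]
      refine Finset.sum_congr rfl fun k _ => ?_
      rw [hD.mul, hpow, pD_C hd]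
      simp
    rw [he]
    have hX : X * emb m = ∑ k : Fin n, C (m k) * X ^ ((k : ℕ) + 1) := by
      unfold emb
      rw [Finset.mul_sum]
      refine Finset.sum_congr rfl fun k _ => ?_
      rw [pow_succ]
      ring
    rw [← hX]
    ring
  have h3 : red n a y (nab d w' (Phi p D x t (X ^ (j : ℕ))))
      = (fun i => d (m i)) + w' • (Cmp n a y).mulVec m := by
    rw [h2, (red_add ly _ _).1, (red_add ly _ _).1, (red_emb ly _).1, (red_tau ly _).1,
      (red_C_mul ly _ _).1, red_sum ly]
    rw [add_zero]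
    congr 2
    funext i
    rw [Finset.sum_apply, Matrix.mulVec, dotProduct]
    refine Finset.sum_congr rfl fun k _ => ?_
    rw [(red_C_mul ly _ _).1]
    simp only [Pi.smul_apply, smul_eq_mul, Cmp]
    ring
  have hmain := Phi_nab h hd hk x t w w' hx ht (X ^ (j : ℕ))
  rw [hmain, h3] at h1
  have hi := congrFun h1 i
  simp only [Pi.add_apply, Pi.smul_apply, smul_eq_mul] at hi
  rw [Matrix.map_apply, Matrix.sub_apply]
  have e1 : (Mmat p n a D x y t * (w • Cmp n a x)) i j
      = (Mmat p n a D x y t).mulVec (w • fun i => Cmp n a x i j) i := by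
    rw [Matrix.mul_apply, Matrix.mulVec, dotProduct]
    rfl
  have e2 : ((w' • Cmp n a y) * Mmat p n a D x y t) i j = w' * (Cmp n a y).mulVec m i := by
    rw [Matrix.smul_mul, Matrix.smul_apply, smul_eq_mul, Matrix.mul_apply, Matrix.mulVec,
      dotProduct]
  rw [e1, e2, ← hi]
  ring

end Pool.Agent.H.MP_7425ae_nt
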