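import Pool.Agent.H.MP_7425ae_nt.RigidA

/-! Rigidity: a compatible family of matrices over `(W/p^s)[[h]]` which satisfies a linear
differential equation with nilpotent residues and vanishes at `h = 0` is zero. -/

set_option autoImplicit false

open Polynomial

namespace Pool.Agent.H.MP_7425ae_nt

/-- coefficient `N` of a product when all lower coefficients of the second factor vanish -/
theorem rigid_coeff_right {k : Type} [CommRing k] {m : ℕ} (N : ℕ)
    (A D : Matrix (Fin m) (Fin m) (PowerSeries k))
    (h : ∀ b < N, D.map (PowerSeries.coeff b) = 0) :
    (A * D).map (PowerSeries.coeff N) =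
      A.map (PowerSeries.constantCoeff (R := k)) * D.map (PowerSeries.coeff N) := by
  ext i j
  rw [Matrix.map_apply, Matrix.mul_apply, Matrix.mul_apply, map_sum]
  refine Finset.sum_congr rfl fun l _ => ?_
  rw [PowerSeries.coeff_mul, Finset.sum_eq_single (0, N)]
  · simp only [Matrix.map_apply, PowerSeries.coeff_zero_eq_constantCoeff_apply]
  · rintro ⟨a, b⟩ hab hne
    rw [Finset.HasAntidiagonal.mem_antidiagonal] at hab
    simp only at hab
    have hb : b < N := by
      rcases Nat.eq_zero_or_pos a with ha | ha
      · subst ha
        exfalso
        apply hne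
        simp only [zero_add] at hab
        rw [hab]
      · omega
    have h1 : PowerSeries.coeff b (D l j) = 0 := by
      have := congrFun (congrFun (h b hb) l) j
      simpa using this
    simp only
    rw [h1, mul_zero]
  · intro hn
    exfalso
    apply hn
    simp

theorem rigid_coeff_left {k : Type} [CommRing k] {m : ℕ} (N : ℕ)
    (D A : Matrix (Fin m) (Fin m) (PowerSeries k))
    (h : ∀ b < N, D.map (PowerSeries.coeff b) = 0) :
    (D * A).map (PowerSeries.coeff N) =
      D.map (PowerSeries.coeff N) * A.map (PowerSeries.constantCoeff (R := k)) := by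
  ext i j
  rw [Matrix.map_apply, Matrix.mul_apply, Matrix.mul_apply, map_sum]
  refine Finset.sum_congr rfl fun l _ => ?_
  rw [PowerSeries.coeff_mul, Finset.sum_eq_single (N, 0)]
  · simp only [Matrix.map_apply, PowerSeries.coeff_zero_eq_constantCoeff_apply]
  · rintro ⟨a, b⟩ hab hne
    rw [Finset.HasAntidiagonal.mem_antidiagonal] at hab
    simp only at hab
    have ha : a < N := by
      rcases Nat.eq_zero_or_pos b with hb | hb
      · subst hb
        exfalso
        apply hne
        simp only [add_zero] at hab
        rw [hab]
      · omega
    have h1 : PowerSeries.coeff a (D i l) = 0 := by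
      have := congrFun (congrFun (h a ha) i) l
      simpa using this
    simp only
    rw [h1, zero_mul]
  · intro hn
    exfalso
    apply hn
    simp

theorem rigid {W : Type} [CommRing W] (p : ℕ) [Fact p.Prime]
    (tf : ∀ w : W, (p : W) * w = 0 → w = 0) (unit : ∀ m : ℕ, Nat.Coprime m p → IsUnit (m : W))
    (m : ℕ) (D P Q : ∀ s : ℕ, Matrix (Fin m) (Fin m) (PowerSeries (Qs W p s)))
    (hc : ∀ (s s' : ℕ) (h : s ≤ s'), (D s').map (PowerSeries.map (qsMap W p h)) = D s)
    (hode : ∀ s, (D s).map (thd (Qs W p s)) = P s * D s + D s * Q s)
    (hP : ∀ s, ((P s).map (PowerSeries.constantCoeff (R := Qs W p s))) ^ m = 0)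
    (hQ : ∀ s, ((Q s).map (PowerSeries.constantCoeff (R := Qs W p s))) ^ m = 0)
    (h0 : ∀ s, (D s).map (PowerSeries.constantCoeff (R := Qs W p s)) = 0) :
    ∀ s, D s = 0 := by
  have key : ∀ N s, (D s).map (PowerSeries.coeff N) = 0 := by
    intro N
    induction N using Nat.strong_induction_on with
    | _ N ih =>
      intro s
      rcases Nat.eq_zero_or_pos N with hN | hN
      · subst hN
        have := h0 s
        ext i j
        have h1 := congrFun (congrFun this i) j
        simpa using h1
      · set s' := s + 2 * m * N with hs'
        have hlow : ∀ b < N, (D s').map (PowerSeries.coeff b) = 0 := fun b hb => ih b hb s'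
        have hode' : ((N : ℕ) : Qs W p s') • (D s').map (PowerSeries.coeff N) =
            (P s').map (PowerSeries.constantCoeff (R := Qs W p s')) *
              (D s').map (PowerSeries.coeff N) +
            (D s').map (PowerSeries.coeff N) *
              (Q s').map (PowerSeries.constantCoeff (R := Qs W p s')) := by
          rw [← rigid_coeff_right N (P s') (D s') hlow, ← rigid_coeff_left N (D s') (Q s') hlow]
          have h1 := congrArg (fun M => M.map (PowerSeries.coeff N)) (hode s')
          ext i j
          have h2 := congrFun (congrFun h1 i) j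
          simp only [Matrix.map_apply, coeff_thd, Matrix.add_apply, map_add] at h2
          simp only [Matrix.smul_apply, Matrix.map_apply, Matrix.add_apply, smul_eq_mul]
          exact h2
        have h3 := nilp_step ((N : ℕ) : Qs W p s') _ _ _ (hP s') (hQ s') hode'
        have hle : s ≤ s' := Nat.le_add_right s (2 * m * N)
        ext i j
        have h4 : PowerSeries.coeff N (D s i j) = qsMap W p hle (PowerSeries.coeff N (D s' i j)) := by
          rw [← hc s s' hle]
          simp
        rw [Matrix.map_apply, h4]
        have h5 : ((N : ℕ) : Qs W p s') ^ (2 * m) * PowerSeries.coeff N (D s' i j) = 0 := by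
          have := congrFun (congrFun h3 i) j
          simpa using this
        exact tors p tf unit s (2 * m) N hN _ h5
  intro s
  ext i j n
  have := congrFun (congrFun (key n s) i) j
  simpa using this

end Pool.Agent.H.MP_7425ae_nt
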