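import Pool.Agent.H.MP_7425ae_nt.UnivA
import Pool.Agent.H.MP_7425ae_nt.Rigid
import Pool.Agent.H.MP_7425ae_nt.Nabla

/-! Base change of good systems. -/

set_option autoImplicit false

open Polynomial

namespace Pool.Agent.H.MP_7425ae_nt

private theorem univ_map_dat {W W' : Type} [CommRing W] [CommRing W'] (S : Sys W) (g : W →+* W')
    (s : ℕ) {R : Type} [CommRing R] (f : W' →+* R) : (S.map g).dat s f = S.dat s (f.comp g) := by
  unfold Sys.map Sys.dat
  simp only [Polynomial.map_map, RingHom.comp_apply]

/-- base change of good systems to a polynomial ring -/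
theorem Sys.Good.mapPoly {W : Type} [CommRing W] {S : Sys W} {p n : ℕ} {a : ℤ[X]} {c : ℕ → ℤ}
    (h : S.Good p n a c) : (S.map (Polynomial.C (R := W))).Good p n a c := by
  refine ⟨?_, ?_, ?_, ?_⟩
  · intro s R _ f hs
    rw [univ_map_dat]
    exact h.ok s R _ hs
  · intro s s' R _ f hss hs
    rw [univ_map_dat, univ_map_dat]
    exact h.indep s s' R _ hss hs
  · intro w hw
    ext i
    rw [coeff_zero]
    apply h.tf
    have h1 : ((p : W[X]) * w).coeff i = 0 := by rw [hw, coeff_zero]
    have h2 : (p : W[X]) = C (p : W) := (map_natCast C p).symm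
    rwa [h2, coeff_C_mul] at h1
  · intro m hm
    have h2 : (m : W[X]) = C (m : W) := (map_natCast C m).symm
    rw [h2]
    exact (h.unit m hm).map C

theorem Sys.map_dat {W W' : Type} [CommRing W] [CommRing W'] (S : Sys W) (g : W →+* W') (s : ℕ)
    {R : Type} [CommRing R] (f : W' →+* R) : (S.map g).dat s f = S.dat s (f.comp g) :=
  univ_map_dat S g s f

theorem Sys.dat_map {W : Type} [CommRing W] (S : Sys W) (s : ℕ)
    {R R' : Type} [CommRing R] [CommRing R'] (f : W →+* R) (φ : R →+* R') :
    S.dat s (φ.comp f) = (S.dat s f).map φ := by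
  unfold Sys.dat Dat.map
  simp only [Polynomial.map_map, RingHom.comp_apply]

private theorem univ_pD_map {W : Type} [CommRing W] (p s : ℕ) (P : W[X]) :
    pD (thd (Qs W[X] p s)) (P.map (psMap W p s)) = 0 := by
  unfold pD
  refine Finset.sum_eq_zero fun i _ => ?_
  rw [Polynomial.coeff_map]
  have h1 : psMap W p s (P.coeff i)
      = PowerSeries.C (Ideal.Quotient.mk (Ideal.span {(p : W[X]) ^ s}) (C (P.coeff i))) := rfl
  rw [h1, thd_C, monomial_zero_right]

/-- the derivation `h d/dh` kills the data with constant coefficients -/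
theorem psKilled {W : Type} [CommRing W] (S : Sys W) (p s : ℕ) :
    Killed (thd (Qs W[X] p s)) (S.dat s (psMap W p s)) := by
  refine ⟨?_, ?_, ?_, ?_⟩
  · exact univ_pD_map p s _
  · intro j
    exact univ_pD_map p s _
  · intro i
    show thd (Qs W[X] p s) (((S.dp s).map (psMap W p s)).coeff i) = 0
    rw [Polynomial.coeff_map]
    exact thd_C _ _
  · exact thd_C _ _

end Pool.Agent.H.MP_7425ae_nt
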