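import Pool.Agent.H.MP_7425ae_nt.UPDef
import Pool.Agent.H.MP_7425ae_nt.Univ
import Pool.Agent.H.MP_7425ae_nt.FamT

/-! `M^T Q_y M = p^2 Q_x`. -/

set_option autoImplicit false

open Polynomial

namespace Pool.Agent.H.MP_7425ae_nt

/-! ### auxiliary lemmas -/

theorem up_isUnit_add {R : Type} [CommRing R] {u n : R} (hu : IsUnit u) (hn : IsNilpotent n) :
    IsUnit (u + n) := by
  exact hn.isUnit_add_left_of_commute hu (Commute.all _ _)

theorem up_map_inverse {R R' : Type} [CommRing R] [CommRing R'] (φ : R →+* R') {u : R}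
    (hu : IsUnit u) : φ (Ring.inverse u) = Ring.inverse (φ u) := by
  have h1 : φ u * φ (Ring.inverse u) = 1 := by
    rw [← map_mul, Ring.mul_inverse_cancel u hu, map_one]
  have h2 : Ring.inverse (φ u) * φ u = 1 := Ring.inverse_mul_cancel _ (hu.map φ)
  calc φ (Ring.inverse u) = (Ring.inverse (φ u) * φ u) * φ (Ring.inverse u) := by
        rw [h2, one_mul]
    _ = Ring.inverse (φ u) * (φ u * φ (Ring.inverse u)) := by ring
    _ = Ring.inverse (φ u) := by rw [h1, mul_one]

/-- the Gram matrix is natural -/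
theorem up_Qm_map {R R' : Type} [CommRing R] [CommRing R'] (φ : R →+* R') (x : R)
    (hl : IsUnit (1 - 1728 * x)) : Qm (φ x) = (Qm x).map φ := by
  have h1 : Ring.inverse (1 - 1728 * φ x) = φ (Ring.inverse (1 - 1728 * x)) := by
    rw [up_map_inverse φ hl]
    simp [map_ofNat]
  unfold Qm
  rw [h1]
  ext i j
  fin_cases i <;> fin_cases j <;> simp [map_ofNat]

/-- product rule for matrices -/
theorem up_map_mul {R : Type} [CommRing R] {d : R → R} (hd : IsDer d) {m : ℕ}
    (A B : Matrix (Fin m) (Fin m) R) : (A * B).map d = A.map d * B + A * B.map d := by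
  ext i j
  simp only [Matrix.map_apply, Matrix.mul_apply, Matrix.add_apply]
  rw [hd.sum, ← Finset.sum_add_distrib]
  refine Finset.sum_congr rfl fun k _ => ?_
  rw [hd.mul]
  ring

theorem up_map_sub {R : Type} [CommRing R] {d : R → R} (hd : IsDer d) {m : ℕ}
    (A B : Matrix (Fin m) (Fin m) R) : (A - B).map d = A.map d - B.map d := by
  ext i j
  simp only [Matrix.map_apply, Matrix.sub_apply]
  rw [hd.sub]

theorem up_map_smul {R : Type} [CommRing R] {d : R → R} (hd : IsDer d) {m : ℕ}
    (c : R) (hc : d c = 0) (A : Matrix (Fin m) (Fin m) R) : (c • A).map d = c • A.map d := by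
  ext i j
  simp only [Matrix.map_apply, Matrix.smul_apply, smul_eq_mul]
  rw [hd.mul, hc]
  ring

theorem up_lead_gf {R : Type} [CommRing R] (p : ℕ) [Fact p.Prime] (rho h z : R)
    (hr : rho ∣ (p : R)) (hn : IsNilpotent rho) (hl : IsUnit (1 - 1728 * h)) :
    IsUnit (1 - 1728 * gf p rho h z) := by
  obtain ⟨e, he⟩ := frob_gf p (1 - 1728 * X : ℤ[X]) rho h z hr
  have h1 : ∀ y : R, (1 - 1728 * X : ℤ[X]).eval₂ (Int.castRingHom R) y = 1 - 1728 * y := by
    intro y
    simp [eval₂_sub, eval₂_mul]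
  rw [h1, h1] at he
  rw [he]
  exact up_isUnit_add (hl.pow p) ((Commute.all rho e).isNilpotent_mul_right hn)

/-- the parameter `t` of the pair `(h, gf h)` -/
noncomputable def up_t {R : Type} [CommRing R] (rho h z : R) : R :=
  Classical.epsilon (fun t : R => (1 + rho * t) * (1 + rho * z * h) = 1)

theorem up_unit {R : Type} [CommRing R] {rho h z : R} (hn : IsNilpotent rho) :
    IsUnit (1 + rho * z * h) := by
  rw [mul_assoc]
  exact up_isUnit_add isUnit_one ((Commute.all rho (z * h)).isNilpotent_mul_right hn)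

theorem up_t_spec {R : Type} [CommRing R] {rho : R} (h z : R) (hn : IsNilpotent rho) :
    (1 + rho * up_t rho h z) * (1 + rho * z * h) = 1 := by
  refine Classical.epsilon_spec (p := fun t : R => (1 + rho * t) * (1 + rho * z * h) = 1) ?_
  have hu : IsUnit (1 + rho * z * h) := up_unit hn
  refine ⟨-(z * h) * Ring.inverse (1 + rho * z * h), ?_⟩
  have h1 := Ring.mul_inverse_cancel _ hu
  linear_combination (-rho * z * h) * h1

/-- uniqueness of `rho t` -/
theorem up_t_unique {R : Type} [CommRing R] {rho h z t t' : R} (hn : IsNilpotent rho)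
    (h1 : (1 + rho * t) * (1 + rho * z * h) = 1) (h2 : (1 + rho * t') * (1 + rho * z * h) = 1) :
    rho * t = rho * t' := by
  have hu : IsUnit (1 + rho * z * h) := up_unit hn
  have h3 := hu.mul_right_cancel (h1.trans h2.symm)
  exact add_left_cancel h3

/-- the difference of the two sides -/
noncomputable def up_Psi (p : ℕ) {W : Type} [CommRing W] (S : Sys W) (s : ℕ)
    (R : Type) [CommRing R] (f : W →+* R) (h z : R) : Matrix (Fin 3) (Fin 3) R :=
  (Mmat p 3 a3 (S.dat s f) h (gf p (f S.rho) h z) (up_t (f S.rho) h z)).transpose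
      * Qm (gf p (f S.rho) h z)
      * Mmat p 3 a3 (S.dat s f) h (gf p (f S.rho) h z) (up_t (f S.rho) h z)
    - (p : R) ^ 2 • Qm h

section

variable {p : ℕ} [Fact p.Prime] {W : Type} [CommRing W] {S : Sys W}

set_option linter.unusedSectionVars false

theorem up_rho_nilp (hS : S.Good p 3 a3 c3) (s : ℕ) (R : Type) [CommRing R] (f : W →+* R)
    (hs : (p : R) ^ s = 0) : IsNilpotent (f S.rho) := (hS.ok s R f hs).rho_nilp

theorem up_rho_dvd (hS : S.Good p 3 a3 c3) (s : ℕ) (R : Type) [CommRing R] (f : W →+* R)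
    (hs : (p : R) ^ s = 0) : f S.rho ∣ (p : R) := (hS.ok s R f hs).rho_dvd

theorem up_nat (hS : S.Good p 3 a3 c3) (s : ℕ) (R R' : Type) [CommRing R] [CommRing R']
    (f : W →+* R) (φ : R →+* R') (h z : R) (hs : (p : R) ^ s = 0)
    (hl : IsUnit (1 - 1728 * h)) :
    up_Psi p S s R' (φ.comp f) (φ h) (φ z) = (up_Psi p S s R f h z).map φ := by
  have hs' : (p : R') ^ s = 0 := by
    have := congrArg φ hs
    simpa using this
  have hn := up_rho_nilp hS s R f hs
  have hdv := up_rho_dvd hS s R f hs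
  have hn' : IsNilpotent (φ (f S.rho)) := hn.map φ
  have hok' := hS.ok s R' (φ.comp f) hs'
  have hly : IsUnit (1 - 1728 * gf p (f S.rho) h z) := up_lead_gf p _ h z hdv hn hl
  have hleady : Lead 3 a3 (gf p (f S.rho) h z) := (lead3_iff _).2 hly
  have hg : gf p ((φ.comp f) S.rho) (φ h) (φ z) = φ (gf p (f S.rho) h z) := by
    rw [RingHom.comp_apply, gf_map]
  have hM : Mmat p 3 a3 (S.dat s (φ.comp f)) (φ h) (gf p ((φ.comp f) S.rho) (φ h) (φ z))
      (up_t ((φ.comp f) S.rho) (φ h) (φ z))
      = (Mmat p 3 a3 (S.dat s f) h (gf p (f S.rho) h z) (up_t (f S.rho) h z)).map φ := by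
    rw [hg, ← Mmat_map _ _ _ _ hleady, ← Sys.dat_map]
    refine Mmat_congr hok' _ _ _ _ ?_
    change φ (f S.rho) * up_t (φ (f S.rho)) (φ h) (φ z) = φ (f S.rho) * φ (up_t (f S.rho) h z)
    refine up_t_unique hn' (up_t_spec _ _ hn') ?_
    have h2 := congrArg φ (up_t_spec h z hn)
    simpa using h2
  unfold up_Psi
  rw [hM, hg, up_Qm_map φ _ hly, up_Qm_map φ _ hl]
  ext i j
  simp [Matrix.mul_apply, map_sum]

theorem up_zero (hp : 5 ≤ p) (hS : S.Good p 3 a3 c3) (s : ℕ) (R : Type) [CommRing R]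
    (f : W →+* R) (z : R) (hs : (p : R) ^ s = 0) : up_Psi p S s R f 0 z = 0 := by
  have hok := hS.ok s R f hs
  have hn := up_rho_nilp hS s R f hs
  have hg : gf p (f S.rho) 0 z = 0 := by
    unfold gf
    rw [zero_pow (by omega : p ≠ 0), zero_mul]
  have hM : Mmat p 3 a3 (S.dat s f) 0 0 (up_t (f S.rho) 0 z)
      = Matrix.diagonal (fun i : Fin 3 => (p : R) ^ (i : ℕ)) := by
    rw [← Mmat_zero (by omega) _ hok]
    · refine Mmat_congr hok _ _ _ _ ?_
      change f S.rho * up_t (f S.rho) 0 z = f S.rho * 0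
      refine up_t_unique (h := 0) (z := z) hn (up_t_spec _ _ hn) ?_
      simp
    · exact ((lead3_iff (0 : R)).2 (by simp)).1
  unfold up_Psi
  rw [hg, hM]
  ext i j
  fin_cases i <;> fin_cases j <;>
    simp [Qm, Matrix.mul_apply, Matrix.diagonal, pow_two]

theorem up_pow_zero (s : ℕ) : (p : PowerSeries (Qs W[X] p s)) ^ s = 0 := by
  have h1 : (p : Qs W[X] p s) ^ s = 0 := by
    have : (p : Qs W[X] p s) ^ s
        = Ideal.Quotient.mk (Ideal.span {(p : W[X]) ^ s}) ((p : W[X]) ^ s) := by
      rw [map_pow, map_natCast]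
    rw [this, Ideal.Quotient.eq_zero_iff_mem]
    exact Ideal.mem_span_singleton_self _
  have h2 := congrArg (PowerSeries.C (R := Qs W[X] p s)) h1
  simpa using h2

theorem up_unit_ps (k : Type) [CommRing k] :
    IsUnit (1 - 1728 * (PowerSeries.X : PowerSeries k)) := by
  rw [PowerSeries.isUnit_iff_constantCoeff]
  simp

theorem up_ode (hS : S.Good p 3 a3 c3) (hp : 5 ≤ p) (s : ℕ) :
    (up_Psi p S s (PowerSeries (Qs W[X] p s)) (psMap W p s) PowerSeries.X (psZ W p s)).map
        (thd (Qs W[X] p s))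
      = (Cmp 3 a3 (PowerSeries.X : PowerSeries (Qs W[X] p s))).transpose
          * up_Psi p S s (PowerSeries (Qs W[X] p s)) (psMap W p s) PowerSeries.X (psZ W p s)
        + up_Psi p S s (PowerSeries (Qs W[X] p s)) (psMap W p s) PowerSeries.X (psZ W p s)
          * Cmp 3 a3 (PowerSeries.X : PowerSeries (Qs W[X] p s)) := by
  have hs := up_pow_zero (p := p) (W := W) s
  have hok := hS.ok s _ (psMap W p s) hs
  have hn := up_rho_nilp hS s _ (psMap W p s) hs
  have hdv := up_rho_dvd hS s _ (psMap W p s) hs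
  have hd := thd_isDer (Qs W[X] p s)
  have hl := up_unit_ps (Qs W[X] p s)
  have hly := up_lead_gf p (psMap W p s S.rho) PowerSeries.X (psZ W p s) hdv hn hl
  have hk := psKilled S p s
  have hts := up_t_spec (PowerSeries.X) (psZ W p s) hn
  unfold up_Psi
  generalize hrho : psMap W p s S.rho = rho at *
  generalize ht : up_t rho PowerSeries.X (psZ W p s) = t at *
  generalize hy : gf p rho PowerSeries.X (psZ W p s) = y at *
  have hdr : thd (Qs W[X] p s) rho = 0 := by
    have := hk.2.2.2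
    rw [← hrho]
    exact this
  have hdz : thd (Qs W[X] p s) (psZ W p s) = 0 := thd_C _ _
  have hdX := thd_X (Qs W[X] p s)
  generalize psZ W p s = z at *
  have hu : IsUnit (1 + rho * z * PowerSeries.X) := up_unit hn
  have hv := Ring.mul_inverse_cancel _ hu
  generalize Ring.inverse (1 + rho * z * PowerSeries.X) = v at *
  have hdu : thd (Qs W[X] p s) (1 + rho * z * PowerSeries.X) = rho * z * PowerSeries.X := by
    rw [hd.add, hd.one, hd.mul, hd.mul, hdX, hdr, hdz]
    ring
  have hdXp : thd (Qs W[X] p s) ((PowerSeries.X : PowerSeries (Qs W[X] p s)) ^ p)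
      = (p : PowerSeries (Qs W[X] p s)) * PowerSeries.X ^ p := by
    obtain ⟨q, rfl⟩ : ∃ q, p = q + 1 := ⟨p - 1, by omega⟩
    rw [hd.pow, hdX]
    push_cast
    ring
  have hdy : thd (Qs W[X] p s) y = ((p : PowerSeries (Qs W[X] p s))
      + rho * z * PowerSeries.X * v) * y := by
    rw [← hy]
    unfold gf
    rw [hd.mul, hdu, hdXp]
    linear_combination (-(PowerSeries.X ^ p * rho * z * PowerSeries.X)) * hv
  have hdt : rho * thd (Qs W[X] p s) t = ((p : PowerSeries (Qs W[X] p s)) * 1
      - ((p : PowerSeries (Qs W[X] p s)) + rho * z * PowerSeries.X * v)) * (1 + rho * t) := by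
    have h1 := congrArg (thd (Qs W[X] p s)) hts
    rw [hd.mul, hdu, hd.add, hd.one, hd.mul, hdr] at h1
    refine hu.mul_right_cancel ?_
    linear_combination h1 + (rho * z * PowerSeries.X * (1 + rho * t)) * hv
  have hxy : (1 + rho * t) * y = PowerSeries.X ^ p := by
    rw [← hy]
    unfold gf
    linear_combination (PowerSeries.X ^ p) * hts
  have hM := Mmat_ode (by omega : 0 < p) hok hd hk PowerSeries.X y t 1
    ((p : PowerSeries (Qs W[X] p s)) + rho * z * PowerSeries.X * v) (by rw [hdX, one_mul]) hdy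
    ((lead3_iff _).2 hl) ((lead3_iff _).2 hly)
    (by
      change (1 + psMap W p s S.rho * t) * y = _
      rw [hrho]; exact hxy)
    (by
      change psMap W p s S.rho * thd (Qs W[X] p s) t = _ * (1 + psMap W p s S.rho * t)
      rw [hrho]; exact hdt)
  have hQx := Qm_ode hd (PowerSeries.X : PowerSeries (Qs W[X] p s)) 1
    (by rw [hdX, one_mul]) hl
  have hQy := Qm_ode hd y _ hdy hly
  have hp2 : thd (Qs W[X] p s) ((p : PowerSeries (Qs W[X] p s)) ^ 2) = 0 := by
    have h3 := hd.natCast (p ^ 2)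
    rwa [Nat.cast_pow] at h3
  rw [up_map_sub hd, up_map_smul hd _ hp2, up_map_mul hd, up_map_mul hd, hQx, hQy,
    Matrix.transpose_map, hM, one_smul]
  generalize Mmat p 3 a3 (S.dat s (psMap W p s)) PowerSeries.X y t = M at *
  generalize Cmp 3 a3 (PowerSeries.X : PowerSeries (Qs W[X] p s)) = A at *
  generalize ((p : PowerSeries (Qs W[X] p s)) + rho * z * PowerSeries.X * v) • Cmp 3 a3 y = B at *
  generalize Qm y = Q at *
  generalize Qm (PowerSeries.X : PowerSeries (Qs W[X] p s)) = Q' at *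
  simp only [Matrix.transpose_sub, Matrix.transpose_mul, Matrix.mul_sub, Matrix.sub_mul,
    smul_add, Matrix.mul_smul, Matrix.smul_mul, Matrix.mul_add, Matrix.add_mul, Matrix.mul_assoc]
  abel

theorem up_comp (hS : S.Good p 3 a3 c3) (s s' : ℕ) (h : s ≤ s') :
    (up_Psi p S s' (PowerSeries (Qs W[X] p s')) (psMap W p s') PowerSeries.X (psZ W p s')).map
        (PowerSeries.map (qsMap W[X] p h))
      = up_Psi p S s (PowerSeries (Qs W[X] p s)) (psMap W p s) PowerSeries.X (psZ W p s) := by
  rw [← up_nat hS s' _ _ _ _ _ _ (up_pow_zero s') (up_unit_ps _)]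
  have h1 : (PowerSeries.map (qsMap W[X] p h)).comp (psMap W p s') = psMap W p s := by
    ext w
    simp [psMap, qsMap]
  have h2 : PowerSeries.map (qsMap W[X] p h) PowerSeries.X = PowerSeries.X := by simp
  have h3 : PowerSeries.map (qsMap W[X] p h) (psZ W p s') = psZ W p s := by
    simp [psZ, qsMap]
  rw [h1, h2, h3]
  unfold up_Psi
  rw [hS.indep s s' _ (psMap W p s) h (up_pow_zero s)]

theorem up_cmp0 (k : Type) [CommRing k] :
    ((Cmp 3 a3 (PowerSeries.X : PowerSeries k)).map (PowerSeries.constantCoeff (R := k)))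
      = !![0, 0, 0; 1, 0, 0; 0, 1, 0] := by
  obtain ⟨e, he⟩ := (up_unit_ps k).exists_right_inv
  rw [cmp3 _ e he]
  ext i j
  fin_cases i <;> fin_cases j <;> simp

theorem up_ps (hp : 5 ≤ p) (hS : S.Good p 3 a3 c3) (s : ℕ) :
    up_Psi p S s (PowerSeries (Qs W[X] p s)) (psMap W p s) PowerSeries.X (psZ W p s) = 0 := by
  have hS' := hS.mapPoly
  refine rigid (W := W[X]) p hS'.tf hS'.unit 3
    (fun s => up_Psi p S s (PowerSeries (Qs W[X] p s)) (psMap W p s) PowerSeries.X (psZ W p s))
    (fun s => (Cmp 3 a3 (PowerSeries.X : PowerSeries (Qs W[X] p s))).transpose)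
    (fun s => Cmp 3 a3 (PowerSeries.X : PowerSeries (Qs W[X] p s)))
    (fun s s' h => up_comp hS s s' h) (fun s => up_ode hS hp s) ?_ ?_ ?_ s
  · intro s
    rw [Matrix.transpose_map, up_cmp0]
    ext i j
    fin_cases i <;> fin_cases j <;>
      simp [pow_succ, Matrix.mul_apply, Fin.sum_univ_three]
  · intro s
    rw [up_cmp0]
    ext i j
    fin_cases i <;> fin_cases j <;>
      simp [pow_succ, Matrix.mul_apply, Fin.sum_univ_three]
  · intro s
    have h1 := up_nat hS s _ _ (psMap W p s) (PowerSeries.constantCoeff (R := Qs W[X] p s))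
      PowerSeries.X (psZ W p s) (up_pow_zero s) (up_unit_ps _)
    change (up_Psi p S s (PowerSeries (Qs W[X] p s)) (psMap W p s) PowerSeries.X
      (psZ W p s)).map (PowerSeries.constantCoeff (R := Qs W[X] p s)) = 0
    rw [← h1, PowerSeries.constantCoeff_X]
    refine up_zero hp hS s _ _ _ ?_
    have h2 := congrArg (PowerSeries.constantCoeff (R := Qs W[X] p s))
      (up_pow_zero (p := p) (W := W) s)
    simpa using h2

theorem up_univ (hp : 5 ≤ p) (hS : S.Good p 3 a3 c3) (s : ℕ) (R : Type) [CommRing R]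
    (f : W →+* R) (h z : R) (hs : (p : R) ^ s = 0) (hl : IsUnit (1 - 1728 * h)) :
    up_Psi p S s R f h z = 0 := by
  have hev : ∀ (R : Type) [CommRing R] (f : W →+* R) (h z : R),
      ev2 f (1 - 1728 * X : W[X][X]) h z = 1 - 1728 * h := by
    intro R _ f h z
    simp [ev2, eval₂_sub, eval₂_mul]
  refine universal p s 3 (1 - 1728 * X : W[X][X]) ?_ (fun R _ f h z => up_Psi p S s R f h z)
    ?_ (up_ps hp hS s) R f h z hs ?_
  · simp
  · intro R R' _ _ f φ h z hs hu
    rw [hev] at hu
    exact up_nat hS s R R' f φ h z hs hu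
  · rw [hev]; exact hl

end

/-- the pairing is multiplied by `p^2` by Frobenius (for unit `x`) -/
theorem UP {p : ℕ} [Fact p.Prime] (hp : 5 ≤ p) {W : Type} [CommRing W] {S : Sys W}
    (hS : S.Good p 3 a3 c3) (s : ℕ) (R : Type) [CommRing R] (f : W →+* R)
    (hs : (p : R) ^ s = 0) (x y t : R) (hx : IsUnit x) (hl : IsUnit (1 - 1728 * x))
    (ht : (1 + f S.rho * t) * y = x ^ p) :
    (Mmat p 3 a3 (S.dat s f) x y t).transpose * Qm y * Mmat p 3 a3 (S.dat s f) x y t
      = (p : R) ^ 2 • Qm x := by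
  have hok := hS.ok s R f hs
  have hn := up_rho_nilp hS s R f hs
  have hu : IsUnit (1 + f S.rho * t) := by
    refine up_isUnit_add isUnit_one ((Commute.all _ _).isNilpotent_mul_right hn)
  have hux : IsUnit ((1 + f S.rho * t) * x) := hu.mul hx
  have hv := Ring.mul_inverse_cancel _ hux
  set v := Ring.inverse ((1 + f S.rho * t) * x) with hvdef
  have h1 := up_univ hp hS s R f x (-t * v) hs hl
  have h2 : (1 + f S.rho * t) * (1 + f S.rho * (-t * v) * x) = 1 := by
    linear_combination (-(f S.rho * t)) * hv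
  have hg : gf p (f S.rho) x (-t * v) = y := by
    unfold gf
    refine hu.mul_left_cancel ?_
    rw [ht]
    linear_combination (x ^ p) * h2
  have hM : Mmat p 3 a3 (S.dat s f) x y (up_t (f S.rho) x (-t * v))
      = Mmat p 3 a3 (S.dat s f) x y t := by
    refine Mmat_congr hok _ _ _ _ ?_
    change f S.rho * up_t (f S.rho) x (-t * v) = f S.rho * t
    exact up_t_unique hn (up_t_spec _ _ hn) h2
  unfold up_Psi at h1
  rw [hg, hM] at h1
  exact sub_eq_zero.1 h1

end Pool.Agent.H.MP_7425ae_nt
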