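import Pool.Agent.H.MP_7425ae_nt.EVf
import Pool.Agent.H.MP_7425ae_nt.EIf
import Pool.Agent.H.MP_7425ae_nt.UP
import Pool.Agent.H.MP_7425ae_nt.UD

/-! The eigenvalue of `v`. -/

set_option autoImplicit false

open Polynomial

namespace Pool.Agent.H.MP_7425ae_nt

open scoped NumberTheorySymbols

private theorem ebf_recip {p : ℕ} [Fact p.Prime] (hp : 5 ≤ p) :
    jacobiSym (-19) p = jacobiSym (p : ℤ) 19 := by
  have hodd : Odd p := (Fact.out : p.Prime).odd_of_ne_two (by omega)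
  have h1 : jacobiSym (-19) p = ZMod.χ₄ p * jacobiSym 19 p := jacobiSym.neg 19 hodd
  rcases Nat.odd_mod_four_iff.1 (Nat.odd_iff.1 hodd) with h | h
  · have h2 := jacobiSym.quadratic_reciprocity_one_mod_four (a := p) (b := 19) h (by decide)
    rw [h1, ZMod.χ₄_nat_one_mod_four h, h2, one_mul]
    rfl
  · have h2 := jacobiSym.quadratic_reciprocity_three_mod_four (a := p) (b := 19) h (by decide)
    rw [h1, ZMod.χ₄_nat_three_mod_four h, h2, neg_one_mul]
    rfl

private theorem ebf_cop {p : ℕ} [Fact p.Prime] (hp : 5 ≤ p) (h19 : p ≠ 19) :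
    IsCoprime (114 : ℤ) (p : ℤ) := by
  have hpp : p.Prime := Fact.out
  have h2 : Nat.Coprime 2 p := (Nat.coprime_primes Nat.prime_two hpp).2 (by omega)
  have h3 : Nat.Coprime 3 p := (Nat.coprime_primes Nat.prime_three hpp).2 (by omega)
  have h19' : Nat.Coprime 19 p := (Nat.coprime_primes (by norm_num) hpp).2 (by omega)
  have h : Nat.Coprime 114 p := by
    have : 114 = 2 * 3 * 19 := by norm_num
    rw [this]
    exact (h2.mul_left h3).mul_left h19'
  exact Nat.isCoprime_iff_coprime.2 h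

private theorem ebf_jac {p : ℕ} [Fact p.Prime] (hp : 5 ≤ p) (h19 : p ≠ 19) :
    jacobiSym (-6) p = jacobiSym 114 p * jacobiSym (p : ℤ) 19 := by
  have h1 : jacobiSym (-6) p * jacobiSym (19 ^ 2) p = jacobiSym 114 p * jacobiSym (-19) p := by
    rw [← jacobiSym.mul_left, ← jacobiSym.mul_left]
    norm_num
  have h2 : jacobiSym (19 ^ 2) p = 1 := by
    apply jacobiSym.sq_one'
    have h3 := ebf_cop hp h19
    have h4 : (114 : ℤ) = 6 * 19 := by norm_num
    rw [h4] at h3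
    exact Int.isCoprime_iff_gcd_eq_one.1 h3.of_mul_left_right
  rw [h2, mul_one, ebf_recip hp] at h1
  exact h1

/-- an element of `ZMod (p^s)` that vanishes modulo `p` is nilpotent -/
private theorem ebf_nil {p : ℕ} [Fact p.Prime] (s : ℕ) (hs : s ≠ 0) (w : ZMod (p ^ s))
    (hw : ZMod.castHom (dvd_pow_self p hs) (ZMod p) w = 0) : IsNilpotent w := by
  have : NeZero (p ^ s) := ⟨pow_ne_zero _ (Fact.out : p.Prime).ne_zero⟩
  have h1 : ((w.val : ℕ) : ZMod (p ^ s)) = w := ZMod.natCast_zmod_val w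
  rw [← h1, map_natCast, ZMod.natCast_eq_zero_iff] at hw
  obtain ⟨c, hc⟩ := hw
  refine ⟨s, ?_⟩
  rw [← h1, hc, Nat.cast_mul, mul_pow, ← Nat.cast_pow, ZMod.natCast_self, zero_mul]

/-- if `p^2 w = 0` in `ZMod (p^12)` then `w` vanishes modulo `p^3` -/
private theorem ebf_lift {p : ℕ} [Fact p.Prime] (w : ZMod (p ^ 12))
    (hw : (p : ZMod (p ^ 12)) ^ 2 * w = 0) :
    ZMod.castHom (pow_dvd_pow p (by norm_num : 3 ≤ 12)) (ZMod (p ^ 3)) w = 0 := by
  have hp0 : 0 < p := (Fact.out : p.Prime).pos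
  have : NeZero (p ^ 12) := ⟨pow_ne_zero _ hp0.ne'⟩
  have h1 : ((w.val : ℕ) : ZMod (p ^ 12)) = w := ZMod.natCast_zmod_val w
  rw [← h1, ← Nat.cast_pow, ← Nat.cast_mul, ZMod.natCast_eq_zero_iff] at hw
  have h2 : p ^ 10 ∣ w.val := by
    have h3 : p ^ 2 * p ^ 10 ∣ p ^ 2 * w.val := by
      rw [← pow_add]
      exact hw
    exact Nat.dvd_of_mul_dvd_mul_left (pow_pos hp0 2) h3
  rw [← h1, map_natCast, ZMod.natCast_eq_zero_iff]
  exact (pow_dvd_pow p (by norm_num)).trans h2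

/-- Euler's criterion for `(1 - 1728 x0)^(3(p-1)/2)` in `ZMod p` -/
private theorem ebf_euler {p : ℕ} [Fact p.Prime] (hp : 5 ≤ p) (h19 : p ≠ 19) (δ : ZMod p)
    (hδ : 512 * δ = 513) :
    ((jacobiSym 114 p : ℤ) : ZMod p) = δ ^ (3 * ((p - 1) / 2)) := by
  have hpp : p.Prime := Fact.out
  have hodd : p % 2 = 1 := hpp.eq_two_or_odd.resolve_left (by omega)
  have hhalf : p / 2 = (p - 1) / 2 := by omega
  have hdbl : (p - 1) / 2 * 2 = p - 1 := by omega
  have hne : ∀ q : ℕ, q.Prime → q ≠ p → (q : ZMod p) ≠ 0 := by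
    intro q hq hqp h
    rw [ZMod.natCast_eq_zero_iff] at h
    exact hqp ((Nat.prime_dvd_prime_iff_eq hpp hq).1 h).symm
  have h2 : (2 : ZMod p) ≠ 0 := by exact_mod_cast hne 2 Nat.prime_two (by omega)
  have h3 : (3 : ZMod p) ≠ 0 := by exact_mod_cast hne 3 Nat.prime_three (by omega)
  have h1 : ((jacobiSym 114 p : ℤ) : ZMod p) = (114 : ZMod p) ^ ((p - 1) / 2) := by
    rw [← jacobiSym.legendreSym.to_jacobiSym, legendreSym.eq_pow, hhalf]
    norm_num
  have h4 : (32 ^ 2 * δ) ^ ((p - 1) / 2) = (114 * 3 ^ 2 : ZMod p) ^ ((p - 1) / 2) := by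
    congr 1
    linear_combination 2 * hδ
  have h5 : ((32 : ZMod p) ^ 2) ^ ((p - 1) / 2) = 1 := by
    rw [← pow_mul, mul_comm, hdbl]
    apply ZMod.pow_card_sub_one_eq_one
    have : (32 : ZMod p) = 2 ^ 5 := by norm_num
    rw [this]
    exact pow_ne_zero _ h2
  have h6 : ((3 : ZMod p) ^ 2) ^ ((p - 1) / 2) = 1 := by
    rw [← pow_mul, mul_comm, hdbl]
    exact ZMod.pow_card_sub_one_eq_one h3
  rw [mul_pow, mul_pow, h5, h6, one_mul, mul_one] at h4
  have h7 : ((jacobiSym 114 p : ℤ) : ZMod p) ^ 2 = 1 := by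
    have h8 : jacobiSym 114 p ^ 2 = 1 :=
      jacobiSym.sq_one (Int.isCoprime_iff_gcd_eq_one.1 (ebf_cop hp h19))
    exact_mod_cast congrArg (Int.cast : ℤ → ZMod p) h8
  rw [mul_comm 3, pow_mul, h4, ← h1, pow_succ, h7, one_mul]

private theorem ebf_entry {A : Type} [CommRing A] (M Q : Matrix (Fin 3) (Fin 3) A) (k : A)
    (hQ : M.transpose * Q * M = k • Q) (j : Fin 3) :
    (M 0 0 * Q 0 0 + M 1 0 * Q 1 0 + M 2 0 * Q 2 0) * M 0 j +
    (M 0 0 * Q 0 1 + M 1 0 * Q 1 1 + M 2 0 * Q 2 1) * M 1 j +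
    (M 0 0 * Q 0 2 + M 1 0 * Q 1 2 + M 2 0 * Q 2 2) * M 2 j = k * Q 0 j := by
  have h1 := congrFun (congrFun hQ 0) j
  simpa [Matrix.mul_apply, Fin.sum_univ_three, Matrix.transpose_apply] using h1

/-- the determinant in the split case -/
private theorem ebf_split {A : Type} [CommRing A] (M Q : Matrix (Fin 3) (Fin 3) A)
    (p l e E : A) (h342 : IsUnit (342 : A)) (hE : IsUnit E)
    (hdet : M.det = p ^ 3 * e) (h10 : M 1 0 = 0) (h20 : M 2 0 = 0)
    (v1 : 25 * M 1 0 + 342 * M 1 1 = 342 * l) (v2 : 25 * M 2 0 + 342 * M 2 1 = 0)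
    (q00 : Q 0 0 = 0) (q01 : Q 0 1 = 0) (q02 : Q 0 2 = E)
    (hQ : M.transpose * Q * M = p ^ 2 • Q) :
    p ^ 2 * (l - p * e) = 0 := by
  have hq := ebf_entry M Q (p ^ 2) hQ 2
  rw [h10, h20, q00, q01, q02] at hq
  rw [h10, mul_zero, zero_add] at v1
  rw [h20, mul_zero, zero_add] at v2
  have e1 : M 1 1 = l := h342.mul_left_cancel v1
  have e2 : M 2 1 = 0 := h342.mul_left_cancel (by rw [v2, mul_zero])
  rw [Matrix.det_fin_three, h10, h20, e1, e2] at hdet
  apply hE.mul_left_cancel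
  linear_combination E * hdet - l * hq

/-- the determinant in the inert case -/
private theorem ebf_inert {A : Type} [CommRing A] (M Q : Matrix (Fin 3) (Fin 3) A)
    (p l e E : A) (h1 : IsUnit (342 * 350892 : A)) (hE : IsUnit E)
    (hdet : M.det = p ^ 3 * e)
    (w1 : 985 * M 1 0 + 25992 * M 1 1 + 350892 * M 1 2 = 0)
    (w2 : 985 * M 2 0 + 25992 * M 2 1 + 350892 * M 2 2 = 0)
    (v0 : 25 * M 0 0 + 342 * M 0 1 = 25 * l)
    (v1 : 25 * M 1 0 + 342 * M 1 1 = 342 * l) (v2 : 25 * M 2 0 + 342 * M 2 1 = 0)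
    (q00 : Q 0 0 = 0) (q01 : Q 0 1 = 0) (q10 : Q 1 0 = 0) (q02 : Q 0 2 = E) (q20 : Q 2 0 = E)
    (hQ : M.transpose * Q * M = p ^ 2 • Q) :
    p ^ 2 * (l + p * e) = 0 := by
  have hq0 := ebf_entry M Q (p ^ 2) hQ 0
  have hq1 := ebf_entry M Q (p ^ 2) hQ 1
  have hq2 := ebf_entry M Q (p ^ 2) hQ 2
  have hN : (M * !![1, 25, 985; 0, 342, 25992; 0, 0, 350892]).det
      = M.det * (342 * 350892) := by
    rw [Matrix.det_mul]
    congr 1
    rw [Matrix.det_fin_three]
    simp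
  have hMN : M * !![1, 25, 985; 0, 342, 25992; 0, 0, 350892]
      = !![M 0 0, 25 * l, 985 * M 0 0 + 25992 * M 0 1 + 350892 * M 0 2;
           M 1 0, 342 * l, 0; M 2 0, 0, 0] := by
    ext i j
    fin_cases i <;> fin_cases j <;>
      simp only [Matrix.mul_apply, Fin.sum_univ_three, Matrix.of_apply, Matrix.cons_val',
        Matrix.cons_val_zero, Matrix.cons_val_one, Matrix.cons_val_fin_one, Matrix.cons_val,
        Fin.zero_eta, Fin.mk_one, Fin.reduceFinMk]
    · ring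
    · linear_combination v0
    · ring
    · ring
    · linear_combination v1
    · linear_combination w1
    · ring
    · linear_combination v2
    · linear_combination w2
  have hD : M.det * (342 * 350892) = - (342 * l * M 2 0 *
      (985 * M 0 0 + 25992 * M 0 1 + 350892 * M 0 2)) := by
    rw [← hN, hMN, Matrix.det_fin_three]
    simp
    ring
  have hE2 : E * (M 2 0 * (985 * M 0 0 + 25992 * M 0 1 + 350892 * M 0 2))
      = E * (350892 * p ^ 2) := by
    simp only [q00, q01, q02, q10, q20] at hq0 hq1 hq2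
    linear_combination 985 * hq0 + 25992 * hq1 + 350892 * hq2
      - (M 0 0 * 0 + M 1 0 * Q 1 1 + M 2 0 * Q 2 1) * w1
      - (M 0 0 * E + M 1 0 * Q 1 2 + M 2 0 * Q 2 2) * w2
  have hW := hE.mul_left_cancel hE2
  apply h1.mul_left_cancel
  rw [hdet] at hD
  linear_combination hD - 342 * l * hW

private theorem ebf_unit {p : ℕ} [Fact p.Prime] (hp : 5 ≤ p) (h19 : p ≠ 19) {R : Type}
    [CommRing R] (s : ℕ) (f : ZMod (p ^ s) →+* R) (a b c : ℕ) :
    IsUnit ((2 : R) ^ a * 3 ^ b * 19 ^ c) := by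
  have hpp : p.Prime := Fact.out
  have key : ∀ q : ℕ, q.Prime → q ≠ p → IsUnit ((q : ℕ) : R) := by
    intro q hq hqp
    have h1 : IsUnit ((q : ℕ) : ZMod (p ^ s)) :=
      (ZMod.isUnit_iff_coprime q (p ^ s)).2
        (((Nat.coprime_primes hq hpp).2 hqp).pow_right s)
    have h2 := h1.map f
    rwa [map_natCast] at h2
  have h2 : IsUnit (2 : R) := by exact_mod_cast key 2 Nat.prime_two (by omega)
  have h3 : IsUnit (3 : R) := by exact_mod_cast key 3 Nat.prime_three (by omega)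
  have h19' : IsUnit (19 : R) := by exact_mod_cast key 19 (by norm_num) (by omega)
  exact ((h2.pow a).mul (h3.pow b)).mul (h19'.pow c)

/-- inert case: `M` maps `e3` to a multiple of `e0` -/
private theorem ebf_e3 {p : ℕ} [Fact p.Prime] (hp : 5 ≤ p) (h19 : p ≠ 19)
    (hj : jacobiSym (p : ℤ) 19 = -1) {S : Sys ℤ_[p]}
    (hS : S.Good p 3 a3 c3) (hr : S.rho = (p : ℤ_[p])) (s : ℕ)
    (x0 t0 : ZMod (p ^ s)) (hx0 : (-884736) * x0 = 1) (hlead : Lead 3 a3 x0)
    (ht0 : (1 + (p : ZMod (p ^ s)) * t0) * x0 = x0 ^ p) (M : Matrix (Fin 3) (Fin 3) (ZMod (p ^ s)))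
    (hM : M = Mmat p 3 a3 (S.dat s (PadicInt.toZModPow s)) x0 x0 t0) :
    985 * M 1 0 + 25992 * M 1 1 + 350892 * M 1 2 = 0 ∧
    985 * M 2 0 + 25992 * M 2 1 + 350892 * M 2 2 = 0 := by
  have hps : (p : ZMod (p ^ s)) ^ s = 0 := by
    rw [← Nat.cast_pow]
    exact ZMod.natCast_self _
  obtain ⟨R, _, f, β, hf, hβ, u, u', e, he⟩ := exists_beta_inert hp hj s
  have hβ' : (1 - β) ^ 2 = (1 - β) - 5 := by linear_combination hβ
  have u2 : IsUnit (2 : R) := by simpa using ebf_unit hp h19 s f 1 0 0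
  have u3 : IsUnit (3 : R) := by simpa using ebf_unit hp h19 s f 0 1 0
  have u19 : IsUnit (19 : R) := by simpa using ebf_unit hp h19 s f 0 0 1
  have hrho : (f.comp (PadicInt.toZModPow s)) S.rho = (p : R) := by
    rw [hr, map_natCast]
  have hsR : (p : R) ^ s = 0 := by
    have := congrArg f hps
    simpa using this
  have hcomm := cm_comm hp hS s R (f.comp (PadicInt.toZModPow s)) hsR β (1 - β) hβ hβ' u u' u2 u3
    u19 ⟨e, by rw [hrho]; exact he⟩ (f x0) (f t0) (by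
      have := congrArg f hx0
      simpa [map_ofNat] using this) (by
      rw [hrho]
      have := congrArg f ht0
      simpa using this)
  rw [S.dat_map s (PadicInt.toZModPow s) f, Mmat_map _ x0 x0 t0 hlead f, ← hM] at hcomm
  obtain ⟨a01, a02, a12, hB, ha01, ha12, ha02⟩ := cm_Bm hβ u u2 u3 u19
  obtain ⟨b01, b02, b12, hB', -, -, -⟩ := cm_Bm hβ' u' u2 u3 u19
  have hent : ∀ i j, (M.map f * Bm (h0 β)) i j
      = ((1 - β) ^ 2 * Ring.inverse β ^ 2) * (Bm (h0 (1 - β)) * M.map f) i j := by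
    intro i j
    rw [hcomm]
    rfl
  rw [hB, hB'] at hent
  simp only [Matrix.mul_apply, Fin.sum_univ_three, Matrix.map_apply, Matrix.of_apply,
    Matrix.cons_val', Matrix.cons_val_zero, Matrix.cons_val_one,
    Matrix.cons_val_fin_one, Matrix.cons_val] at hent
  have g10 := hent 1 0
  have g11 := hent 1 1
  have g12 := hent 1 2
  have g20 := hent 2 0
  have g21 := hent 2 1
  have g22 := hent 2 2
  simp only [Matrix.cons_val_zero, Matrix.cons_val_one, Matrix.cons_val] at g10 g11 g12 g20 g21 g22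
  -- the inverses
  set b := Ring.inverse β with hb
  set c := Ring.inverse (1 - β) with hc
  have hbβ : β * b = 1 := Ring.mul_inverse_cancel β u
  have hcβ : (1 - β) * c = 1 := Ring.mul_inverse_cancel (1 - β) u'
  have hprod : β * (1 - β) = 5 := by linear_combination -hβ
  have hr1 : 5 * c ^ 2 = β * c := by
    linear_combination (-(c ^ 2)) * hprod + β * c * hcβ
  have hr2 : 5 * b ^ 2 = (1 - β) * b := by
    linear_combination (-(b ^ 2)) * hprod + (1 - β) * b * hbβ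
  have hsq : (2 * β - 1) ^ 2 = -19 := by linear_combination 4 * hβ
  have hunit1 : IsUnit (2 * β - 1) := by
    have : IsUnit ((2 * β - 1) ^ 2) := by rw [hsq]; exact u19.neg
    exact (isUnit_pow_iff two_ne_zero).1 this
  have hbu : IsUnit b := IsUnit.of_mul_eq_one β (by rw [mul_comm]; exact hbβ)
  have hcu : IsUnit c := IsUnit.of_mul_eq_one (1 - β) (by rw [mul_comm]; exact hcβ)
  have hrm : β * c - 1 = (2 * β - 1) * c := by linear_combination hcβ
  have hrp : β * c + 1 = c := by linear_combination -hcβ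
  have hrm_u : IsUnit (β * c - 1) := by rw [hrm]; exact hunit1.mul hcu
  have hrp_u : IsUnit (β * c + 1) := by rw [hrp]; exact hcu
  have hr_u : IsUnit (((1 - β) * b) ^ 2) := (u'.mul hbu).pow 2
  have A2 : (5 * b ^ 2) ^ 2 * (985 * f (M 2 0) + 25992 * f (M 2 1) + 350892 * f (M 2 2))
      = ((1 - β) ^ 2 * b ^ 2) * ((5 * c ^ 2) ^ 2 *
        (985 * f (M 2 0) + 25992 * f (M 2 1) + 350892 * f (M 2 2))) := by
    linear_combination 985 * g20 + 25992 * g21 + 350892 * g22 - f (M 2 0) * ha02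
      - 12996 * f (M 2 1) * ha12
  have A1 : (5 * b ^ 2) ^ 2 * (985 * f (M 1 0) + 25992 * f (M 1 1) + 350892 * f (M 1 2))
      = ((1 - β) ^ 2 * b ^ 2) * ((5 * c ^ 2) *
        (985 * f (M 1 0) + 25992 * f (M 1 1) + 350892 * f (M 1 2)) + b12 *
        (985 * f (M 2 0) + 25992 * f (M 2 1) + 350892 * f (M 2 2))) := by
    linear_combination 985 * g10 + 25992 * g11 + 350892 * g12 - f (M 1 0) * ha02
      - 12996 * f (M 1 1) * ha12
  rw [hr1, hr2] at A2 A1
  have B2 : 985 * f (M 2 0) + 25992 * f (M 2 1) + 350892 * f (M 2 2) = 0 := by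
    apply (hr_u.mul (hrm_u.mul hrp_u)).mul_left_cancel
    linear_combination - A2
  rw [B2] at A1
  have B1 : 985 * f (M 1 0) + 25992 * f (M 1 1) + 350892 * f (M 1 2) = 0 := by
    apply (hr_u.mul hrm_u).mul_left_cancel
    linear_combination - A1
  constructor
  · apply hf
    simpa [map_ofNat] using B1
  · apply hf
    simpa [map_ofNat] using B2

/-- the eigenvalue of `v` is `(-6/p) p` modulo `p^3` -/
theorem EB {p : ℕ} [Fact p.Prime] (hp : 5 ≤ p) (h19 : p ≠ 19) {S : Sys ℤ_[p]}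
    (hS : S.Good p 3 a3 c3) (hr : S.rho = (p : ℤ_[p]))
    (x0 t0 : ZMod (p ^ 3)) (hx0 : (-884736) * x0 = 1)
    (ht0 : (1 + (p : ZMod (p ^ 3)) * t0) * x0 = x0 ^ p) :
    (Mmat p 3 a3 (S.dat 3 (PadicInt.toZModPow 3)) x0 x0 t0).mulVec ![25, 342, 0]
      = ((p : ZMod (p ^ 3)) * ((jacobiSym (-6) p : ℤ) : ZMod (p ^ 3))) • ![25, 342, 0] := by
  have hps : (p : ZMod (p ^ 12)) ^ 12 = 0 := by
    rw [← Nat.cast_pow]
    exact ZMod.natCast_self _
  obtain ⟨x1, t1, hx1, ht1⟩ := exists_t0 (p := p) hp 12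
  have hlev := M0_level hp h19 hS hr 3 12 (by norm_num) x0 t0 hx0 ht0 x1 t1 hx1 ht1
  obtain ⟨l, hl⟩ := EV hp h19 hS hr 12 x1 t1 hx1 ht1
  have hu := fun a b c => ebf_unit hp h19 12 (RingHom.id (ZMod (p ^ 12))) a b c
  have h512 : (512 : ZMod (p ^ 12)) * (1 - 1728 * x1) = 513 := by
    linear_combination hx1
  have hux : IsUnit x1 := IsUnit.of_mul_eq_one (-884736) (by rw [mul_comm]; exact hx1)
  have hul : IsUnit (1 - 1728 * x1) := by
    have h1 := hu 0 3 1
    have h2 : (2 : ZMod (p ^ 12)) ^ 0 * 3 ^ 3 * 19 ^ 1 = 512 * (1 - 1728 * x1) := by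
      rw [h512]; norm_num
    rw [h2] at h1
    exact isUnit_of_mul_isUnit_right h1
  have hrho : (PadicInt.toZModPow 12) S.rho = (p : ZMod (p ^ 12)) := by
    rw [hr, map_natCast]
  have hUP := UP hp hS 12 (ZMod (p ^ 12)) (PadicInt.toZModPow 12) hps x1 x1 t1 hux hul
    (by rw [hrho]; exact ht1)
  have hj2 : jacobiSym 114 p ^ 2 = 1 :=
    jacobiSym.sq_one (Int.isCoprime_iff_gcd_eq_one.1 (ebf_cop hp h19))
  have hUD := UD hp hS 12 (ZMod (p ^ 12)) (PadicInt.toZModPow 12) hps x1 x1 t1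
    ((jacobiSym 114 p : ℤ) : ZMod (p ^ 12)) hux hul (by rw [hrho]; exact ht1)
    (by
      have h1 : (((jacobiSym 114 p : ℤ) : ZMod (p ^ 12))) ^ 2 = 1 := by
        exact_mod_cast congrArg (Int.cast : ℤ → ZMod (p ^ 12)) hj2
      rw [h1, one_mul])
    (by
      apply ebf_nil 12 (by norm_num)
      have h1 := congrArg (ZMod.castHom (dvd_pow_self p (by norm_num : 12 ≠ 0)) (ZMod p)) h512
      rw [map_mul, map_ofNat, map_ofNat] at h1
      rw [map_sub, map_pow, map_intCast, ebf_euler hp h19 _ h1, sub_self])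
  have hlead : Lead 3 a3 x1 := (lead3_iff x1).2 hul
  set M := Mmat p 3 a3 (S.dat 12 (PadicInt.toZModPow 12)) x1 x1 t1 with hM
  have v0 := congrFun hl 0
  have v1 := congrFun hl 1
  have v2 := congrFun hl 2
  simp only [Matrix.mulVec, dotProduct, Fin.sum_univ_three, Pi.smul_apply, smul_eq_mul,
    Matrix.cons_val_zero, Matrix.cons_val_one, Matrix.cons_val] at v0 v1 v2
  have w0 : 25 * M 0 0 + 342 * M 0 1 = 25 * ((p : ZMod (p ^ 12)) * l) := by
    linear_combination v0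
  have w1 : 25 * M 1 0 + 342 * M 1 1 = 342 * ((p : ZMod (p ^ 12)) * l) := by
    linear_combination v1
  have w2 : 25 * M 2 0 + 342 * M 2 1 = 0 := by
    linear_combination v2
  have h342 : IsUnit (342 : ZMod (p ^ 12)) := by
    have := hu 1 2 1
    norm_num at this
    exact this
  have hbig : IsUnit (342 * 350892 : ZMod (p ^ 12)) := by
    have := hu 3 7 3
    norm_num at this
    norm_num
    exact this
  have hE : IsUnit (Ring.inverse (1 - 1728 * x1)) := hul.ringInverse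
  have key : ZMod.castHom (pow_dvd_pow p (by norm_num : 3 ≤ 12)) (ZMod (p ^ 3))
      ((p : ZMod (p ^ 12)) * l)
      = (p : ZMod (p ^ 3)) * ((jacobiSym (-6) p : ℤ) : ZMod (p ^ 3)) := by
    have hgcd : Int.gcd (p : ℤ) 19 = 1 := by
      have h1 : Nat.Coprime p 19 :=
        (Nat.coprime_primes (Fact.out : p.Prime) (by norm_num)).2 h19
      exact h1
    rw [ebf_jac hp h19]
    rcases jacobiSym.eq_one_or_neg_one (a := (p : ℤ)) (b := 19) hgcd with hj | hj
    · obtain ⟨h10, h20⟩ := ES hp hj hS hr 12 x1 t1 hx1 ht1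
      have h1 := ebf_split M (Qm x1) (p : ZMod (p ^ 12)) ((p : ZMod (p ^ 12)) * l)
        ((jacobiSym 114 p : ℤ) : ZMod (p ^ 12)) (Ring.inverse (1 - 1728 * x1)) h342 hE hUD h10 h20
        w1 w2 rfl rfl rfl hUP
      have h2 := ebf_lift _ h1
      rw [map_sub, map_mul _ (p : ZMod (p ^ 12)) ((jacobiSym 114 p : ℤ) : ZMod (p ^ 12)),
        map_natCast, map_intCast, sub_eq_zero] at h2
      rw [h2, hj, mul_one]
    · obtain ⟨g1, g2⟩ := ebf_e3 hp h19 hj hS hr 12 x1 t1 hx1 hlead ht1 M hM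
      have h1 := ebf_inert M (Qm x1) (p : ZMod (p ^ 12)) ((p : ZMod (p ^ 12)) * l)
        ((jacobiSym 114 p : ℤ) : ZMod (p ^ 12)) (Ring.inverse (1 - 1728 * x1)) hbig hE hUD
        g1 g2 w0 w1 w2 rfl rfl rfl rfl rfl hUP
      have h2 := ebf_lift _ h1
      rw [map_add, map_mul _ (p : ZMod (p ^ 12)) ((jacobiSym 114 p : ℤ) : ZMod (p ^ 12)),
        map_natCast, map_intCast] at h2
      rw [hj]
      push_cast
      linear_combination h2
  rw [hlev]
  have hv : (![25, 342, 0] : Fin 3 → ZMod (p ^ 3))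
      = (ZMod.castHom (pow_dvd_pow p (by norm_num : 3 ≤ 12)) (ZMod (p ^ 3))) ∘
        (![25, 342, 0] : Fin 3 → ZMod (p ^ 12)) := by
    funext i
    fin_cases i
    · exact (map_ofNat (ZMod.castHom (pow_dvd_pow p (by norm_num : 3 ≤ 12)) (ZMod (p ^ 3))) 25).symm
    · exact (map_ofNat (ZMod.castHom (pow_dvd_pow p (by norm_num : 3 ≤ 12)) (ZMod (p ^ 3))) 342).symm
    · exact (map_zero (ZMod.castHom (pow_dvd_pow p (by norm_num : 3 ≤ 12)) (ZMod (p ^ 3)))).symm
  rw [← key]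
  conv_lhs => rw [hv]
  funext i
  rw [← RingHom.map_mulVec, hl, Pi.smul_apply, Pi.smul_apply, smul_eq_mul, smul_eq_mul, map_mul]
  congr 1
  exact (congrFun hv i).symm

end Pool.Agent.H.MP_7425ae_nt
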