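import Pool.Agent.H.MP_7425ae_nt.PhiA

/-! The matrix of `Phi_{x -> y}`. -/

set_option autoImplicit false

open Polynomial

namespace Pool.Agent.H.MP_7425ae_nt

variable {R S : Type} [CommRing R] [CommRing S]

theorem phimat_zero (p : ℕ) (D : Dat R) (x t : R) : Phi p D x t 0 = 0 := by
  have h := Phi_C_mul p D x t 0 0
  simpa using h

theorem phimat_sum (p : ℕ) (D : Dat R) (x t : R) {ι : Type} (s : Finset ι) (F : ι → R[X]) :
    Phi p D x t (∑ i ∈ s, F i) = ∑ i ∈ s, Phi p D x t (F i) := by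
  classical
  induction s using Finset.induction_on with
  | empty =>
    rw [Finset.sum_empty, Finset.sum_empty]
    exact phimat_zero p D x t
  | insert i s hi ih =>
    rw [Finset.sum_insert hi, Finset.sum_insert hi, Phi_add, ih]

/-- the same without the hypothesis on `x`, for `F = emb v` -/
theorem phimat_emb {p n : ℕ} {a : ℤ[X]} {D : Dat R}
    (x y t : R) (hy : Lead n a y) (v : Fin n → R) :
    red n a y (Phi p D x t (emb v)) = (Mmat p n a D x y t).mulVec v := by
  unfold emb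
  rw [phimat_sum, red_sum hy]
  funext i
  rw [Finset.sum_apply]
  change _ = ∑ j : Fin n, Mmat p n a D x y t i j * v j
  apply Finset.sum_congr rfl
  intro j _
  rw [Phi_C_mul, (red_C_mul hy _ _).1, Pi.smul_apply, smul_eq_mul, mul_comm]
  rfl

/-- `red_y (Phi F) = M red_x F` -/
theorem red_Phi {p n : ℕ} (hp : 0 < p) {a : ℤ[X]} {c : ℕ → ℤ} {D : Dat R} (h : D.OK p n a c)
    (x y t : R) (hx : Lead n a x) (hy : Lead n a y) (ht : (1 + D.rho * t) * y = x ^ p)
    (F : R[X]) :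
    red n a y (Phi p D x t F) = (Mmat p n a D x y t).mulVec (red n a x F) := by
  conv_lhs => rw [red_spec hx F]
  rw [Phi_add, Phi_tau hp h x y t ht, (red_add hy _ _).1, (red_tau hy _).1, add_zero,
    phimat_emb x y t hy]

/-- the same without the hypothesis on `x`, for `F = emb v` -/
theorem red_Phi_emb {p n : ℕ} {a : ℤ[X]} {D : Dat R}
    (x y t : R) (hy : Lead n a y) (v : Fin n → R) :
    red n a y (Phi p D x t (emb v)) = (Mmat p n a D x y t).mulVec v :=
  phimat_emb x y t hy v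

theorem Mmat_map {p n : ℕ} {a : ℤ[X]} (D : Dat R)
    (x y t : R) (hy : Lead n a y) (f : R →+* S) :
    Mmat p n a (D.map f) (f x) (f y) (f t) = (Mmat p n a D x y t).map f := by
  ext i j
  change red n a (f y) (Phi p (D.map f) (f x) (f t) (X ^ (j : ℕ))) i =
    f (red n a y (Phi p D x t (X ^ (j : ℕ))) i)
  have h1 : (X ^ (j : ℕ) : S[X]) = (X ^ (j : ℕ) : R[X]).map f := by
    rw [Polynomial.map_pow, map_X]
  rw [h1, ← Phi_map, (red_map hy f _).1]

theorem phimat_Phi_zero {p n : ℕ} (hp : 0 < p) {a : ℤ[X]} {c : ℕ → ℤ}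
    {D : Dat R} (h : D.OK p n a c) (F : R[X]) :
    Phi p D 0 0 F = D.Th * F.comp (C (p : R) * X) := by
  unfold Phi
  rw [Ex_zero h, one_mul]
  unfold Uop
  congr 1
  rw [Finset.sum_eq_single 0]
  · rw [h.r_zero, pow_zero, C_1, one_mul, mul_one, Nat.cast_zero, C_0, add_zero]
  · intro j _ hj
    rw [zero_pow hj, C_0, zero_mul, zero_mul]
  · intro h0
    exact absurd (Finset.mem_range.2 hp) h0

/-- at `x = y = t = 0` the matrix is `diag(1, p, ..., p^{n-1})` -/
theorem Mmat_zero {p n : ℕ} (hp : 0 < p) {a : ℤ[X]} (ha : a.natDegree ≤ n) {c : ℕ → ℤ}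
    {D : Dat R} (h : D.OK p n a c) :
    Mmat p n a D 0 0 0 = Matrix.diagonal (fun i : Fin n => (p : R) ^ (i : ℕ)) := by
  have hlead : Lead n a (0 : R) := ⟨ha, by simp⟩
  have hdvd : (X ^ n : R[X]) ∣ D.Th - 1 := by
    rw [X_pow_dvd_iff]
    intro i hi
    rw [coeff_sub, h.th_low i hi, coeff_one]
    split_ifs <;> simp
  obtain ⟨G, hG⟩ := hdvd
  have hTh : D.Th = 1 + X ^ n * G := by
    rw [← hG]
    ring
  ext i j
  change red n a 0 (Phi p D 0 0 (X ^ (j : ℕ))) i = _
  rw [phimat_Phi_zero hp h]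
  have hemb : emb (Pi.single j ((p : R) ^ (j : ℕ))) = C ((p : R) ^ (j : ℕ)) * X ^ (j : ℕ) := by
    unfold emb
    rw [Finset.sum_eq_single j]
    · rw [Pi.single_eq_same]
    · intro i _ hi
      rw [Pi.single_eq_of_ne hi, C_0, zero_mul]
    · intro hj
      exact absurd (Finset.mem_univ j) hj
  have key : D.Th * (X ^ (j : ℕ) : R[X]).comp (C (p : R) * X) =
      emb (Pi.single j ((p : R) ^ (j : ℕ))) +
        tau n a 0 (-(G * (C ((p : R) ^ (j : ℕ)) * X ^ (j : ℕ)))) := by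
    rw [hemb, hTh]
    unfold tau
    rw [X_pow_comp, mul_pow, ← C_pow, C_0]
    ring
  rw [(red_eq hlead key).1]
  rw [Matrix.diagonal_apply]
  by_cases hij : i = j
  · subst hij
    rw [Pi.single_eq_same, if_pos rfl]
  · rw [Pi.single_eq_of_ne hij, if_neg hij]

/-- row `i` of the matrix is divisible by `rho^i` (`n = 3`) -/
theorem Mmat_adm {p : ℕ} {a : ℤ[X]} {c : ℕ → ℤ} {D : Dat R} (h : D.OK p 3 a c)
    (x y t : R) (hy : Lead 3 a y) (i j : Fin 3) :
    D.rho ^ (i : ℕ) ∣ Mmat p 3 a D x y t i j :=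
  (red_adm hy D.rho _ (Phi_adm h x t _)).1 i

end Pool.Agent.H.MP_7425ae_nt
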