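import Pool.Agent.H.MP_7425ae_nt.CMLev
import Pool.Agent.H.MP_7425ae_nt.CMBm
import Pool.Agent.H.MP_7425ae_nt.BetaS
import Pool.Agent.H.MP_7425ae_nt.BetaI
import Pool.Agent.H.MP_7425ae_nt.PhiMat
import Pool.Agent.H.MP_7425ae_nt.Univ

/-! `v = (25, 342, 0)` is an eigenvector of Frobenius at the CM point. -/

set_option autoImplicit false

open Polynomial

namespace Pool.Agent.H.MP_7425ae_nt

theorem evf_unit {R : Type} [CommRing R] {p : ℕ} [Fact p.Prime] {S : Sys ℤ_[p]}
    (hS : S.Good p 3 a3 c3) (F : ℤ_[p] →+* R) (m : ℕ) (hm : Nat.Coprime m p) :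
    IsUnit (m : R) := by
  have h1 := (hS.unit m hm).map F
  rwa [map_natCast] at h1

theorem evf_cop {p : ℕ} [Fact p.Prime] {q : ℕ} (hq : q.Prime) (hqp : q ≠ p) :
    Nat.Coprime q p := (Nat.coprime_primes hq (Fact.out)).2 hqp

/-- the linear algebra -/
theorem evf_core {R : Type} [CommRing R] (p : ℕ) (hp5 : p = 5 ∨ IsUnit (5 : R))
    (u19 : IsUnit (19 : R)) (β β' : R) (hβ' : β' ^ 2 = β' - 5) (u : IsUnit β) (u' : IsUnit β')
    (M : Matrix (Fin 3) (Fin 3) R) (b01 b02 b12 c01 c02 c12 : R)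
    (hb : 342 * b01 = 25 * (5 * Ring.inverse β ^ 2 - 1))
    (hc : 342 * c01 = 25 * (5 * Ring.inverse β' ^ 2 - 1))
    (hM : M * !![1, b01, b02; 0, 5 * Ring.inverse β ^ 2, b12;
        0, 0, (5 * Ring.inverse β ^ 2) ^ 2] = (β' ^ 2 * Ring.inverse β ^ 2) •
          (!![1, c01, c02; 0, 5 * Ring.inverse β' ^ 2, c12;
        0, 0, (5 * Ring.inverse β' ^ 2) ^ 2] * M)) :
    (p : R) * M.mulVec ![25, 342, 0] 2 = 0 ∧
      (p : R) * (342 * M.mulVec ![25, 342, 0] 0 - 25 * M.mulVec ![25, 342, 0] 1) = 0 := by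
  set v : Fin 3 → R := ![25, 342, 0] with hv
  set w := M.mulVec v with hw
  have hinv : β * Ring.inverse β = 1 := Ring.mul_inverse_cancel _ u
  have hinv' : β' * Ring.inverse β' = 1 := Ring.mul_inverse_cancel _ u'
  set i := Ring.inverse β with hi
  set i' := Ring.inverse β' with hi'
  have hBv : (!![1, b01, b02; 0, 5 * i ^ 2, b12; 0, 0, (5 * i ^ 2) ^ 2] :
      Matrix (Fin 3) (Fin 3) R).mulVec v = (5 * i ^ 2) • v := by
    funext j
    fin_cases j
    · simp [Matrix.mulVec, dotProduct, Fin.sum_univ_three, hv]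
      linear_combination hb
    · simp [Matrix.mulVec, dotProduct, Fin.sum_univ_three, hv]
    · simp [Matrix.mulVec, dotProduct, Fin.sum_univ_three, hv]
  have h1 : (M * !![1, b01, b02; 0, 5 * i ^ 2, b12; 0, 0, (5 * i ^ 2) ^ 2]).mulVec v =
      ((β' ^ 2 * i ^ 2) • (!![1, c01, c02; 0, 5 * i' ^ 2, c12; 0, 0, (5 * i' ^ 2) ^ 2] *
        M)).mulVec v := congrArg (fun N : Matrix (Fin 3) (Fin 3) R => N.mulVec v) hM
  rw [← Matrix.mulVec_mulVec, hBv, Matrix.mulVec_smul, Matrix.smul_mulVec,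
    ← Matrix.mulVec_mulVec, ← hw] at h1
  -- the three coordinates
  have e0 := congrFun h1 0
  have e2 := congrFun h1 2
  simp [Matrix.mulVec, dotProduct, Fin.sum_univ_three] at e0 e2
  -- cancel
  have hk : ∀ a b : R, (5 * i ^ 2) * a = (β' ^ 2 * i ^ 2) * b → (5 * i' ^ 2) * a = b := by
    intro a b hab
    have h2 : (5 * i' ^ 2) * a = (β' * i') ^ 2 * (β * i) ^ 2 * b := by
      have : (5 * i' ^ 2) * a = (5 * i' ^ 2) * a * (β * i) ^ 2 := by rw [hinv]; ring
      rw [this]
      linear_combination (i' ^ 2 * β ^ 2) * hab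
    rw [h2, hinv, hinv']
    ring
  have e0' := hk _ _ e0
  have e2' := hk _ _ e2
  -- `r' - 1` is a unit
  set r := 5 * i' ^ 2 with hr
  have hrb : r * β' = 1 - β' := by
    have h2 : r * β' = 5 * i' * (β' * i') := by rw [hr]; ring
    have h3 : (1 - β') * β' = 5 := by linear_combination -hβ'
    rw [h2, hinv', mul_one, ← h3]
    linear_combination (1 - β') * hinv'
  have hru : IsUnit (r - 1) := by
    have h2 : (r - 1) * β' = 1 - 2 * β' := by linear_combination hrb
    have h3 : IsUnit ((r - 1) * β') := by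
      have h4 : (r - 1) * β' * ((r - 1) * β') = -19 := by
        rw [h2]
        linear_combination 4 * hβ'
      have h5 : IsUnit ((r - 1) * β' * ((r - 1) * β')) := by
        rw [h4]
        exact u19.neg
      exact isUnit_of_mul_isUnit_left h5
    exact isUnit_of_mul_isUnit_left h3
  have h5w : 5 * w 2 = 0 := by
    have h2 : (r - 1) * (r * w 2) = 0 := by linear_combination -e2'
    have h3 : r * w 2 = 0 := by
      have := hru.mul_left_cancel (h2.trans (mul_zero (r - 1)).symm)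
      exact this
    have h4 : 5 * w 2 = β' ^ 2 * (r * w 2) := by
      have : β' ^ 2 * (r * w 2) = 5 * w 2 * (β' * i') ^ 2 := by rw [hr]; ring
      rw [this, hinv']
      ring
    rw [h4, h3, mul_zero]
  have hpw : (p : R) * w 2 = 0 := by
    rcases hp5 with h | h
    · rw [h]
      push_cast
      exact h5w
    · have h2 : w 2 = 0 := h.mul_left_cancel (h5w.trans (mul_zero 5).symm)
      rw [h2, mul_zero]
  refine ⟨hpw, ?_⟩
  have h2 : (r - 1) * ((p : R) * (342 * w 0 - 25 * w 1)) = 0 := by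
    linear_combination (342 * (p : R)) * e0' + (p : R) * w 1 * hc + 342 * c02 * hpw
  exact hru.mul_left_cancel (h2.trans (mul_zero (r - 1)).symm)

theorem evf_level {p s : ℕ} [Fact p.Prime] (w : ZMod (p ^ (s + 1)))
    (h : (p : ZMod (p ^ (s + 1))) * w = 0) :
    ZMod.castHom (pow_dvd_pow p (Nat.le_succ s)) (ZMod (p ^ s)) w = 0 := by
  have hp : 0 < p := (Fact.out : p.Prime).pos
  have : NeZero (p ^ (s + 1)) := ⟨(pow_pos hp _).ne'⟩
  have : NeZero (p ^ s) := ⟨(pow_pos hp _).ne'⟩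
  have h1 : ((w.val : ℕ) : ZMod (p ^ (s + 1))) = w := ZMod.natCast_zmod_val w
  rw [← h1, ← Nat.cast_mul, ZMod.natCast_eq_zero_iff] at h
  have h3 : p * p ^ s ∣ p * w.val := (dvd_of_eq (pow_succ' p s).symm).trans h
  have h2 : p ^ s ∣ w.val := Nat.dvd_of_mul_dvd_mul_left hp h3
  rw [← h1, map_natCast, ZMod.natCast_eq_zero_iff]
  exact h2

/-- `v = (25, 342, 0)` is an eigenvector of `M0`, with eigenvalue divisible by `p` -/
theorem EV {p : ℕ} [Fact p.Prime] (hp : 5 ≤ p) (h19 : p ≠ 19) {S : Sys ℤ_[p]}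
    (hS : S.Good p 3 a3 c3) (hr : S.rho = (p : ℤ_[p])) (s : ℕ)
    (x0 t0 : ZMod (p ^ s)) (hx0 : (-884736) * x0 = 1)
    (ht0 : (1 + (p : ZMod (p ^ s)) * t0) * x0 = x0 ^ p) :
    ∃ l : ZMod (p ^ s), (Mmat p 3 a3 (S.dat s (PadicInt.toZModPow s)) x0 x0 t0).mulVec
      ![25, 342, 0] = ((p : ZMod (p ^ s)) * l) • ![25, 342, 0] := by
  have hpp : p.Prime := Fact.out
  obtain ⟨x1, t1, hx1, ht1⟩ := exists_t0 hp (s + 1)
  have hlev := M0_level hp h19 hS hr s (s + 1) (Nat.le_succ s) x0 t0 hx0 ht0 x1 t1 hx1 ht1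
  set D := S.dat (s + 1) (PadicInt.toZModPow (p := p) (s + 1)) with hD
  set M1 := Mmat p 3 a3 D x1 x1 t1 with hM1
  have hps : ((p : ZMod (p ^ (s + 1))) : ZMod (p ^ (s + 1))) ^ (s + 1) = 0 := by
    rw [← Nat.cast_pow]
    exact ZMod.natCast_self _
  have c2 : Nat.Coprime 2 p := evf_cop Nat.prime_two (by omega)
  have c3' : Nat.Coprime 3 p := evf_cop Nat.prime_three (by omega)
  have c19 : Nat.Coprime 19 p := evf_cop (by norm_num) (by omega)
  have hx1u : IsUnit (1 - 1728 * x1) := by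
    have h1 : 512 * (1 - 1728 * x1) = ((513 : ℕ) : ZMod (p ^ (s + 1))) := by
      push_cast
      linear_combination hx1
    have h2 : IsUnit ((513 : ℕ) : ZMod (p ^ (s + 1))) := by
      apply evf_unit hS (PadicInt.toZModPow (p := p) (s + 1))
      have : (513 : ℕ) = 3 ^ 3 * 19 := by norm_num
      rw [this]
      exact Nat.Coprime.mul_left (Nat.Coprime.pow_left 3 c3') c19
    rw [← h1] at h2
    exact isUnit_of_mul_isUnit_right h2
  have hlead : Lead 3 a3 x1 := (lead3_iff x1).2 hx1u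
  -- the claims at the level `s + 1`
  have hrhoR : ∀ (R : Type) [CommRing R] (f : ZMod (p ^ (s + 1)) →+* R),
      (f.comp (PadicInt.toZModPow (p := p) (s + 1))) S.rho = (p : R) := by
    intro R _ f
    rw [hr]
    simp
  have key : ∀ (R : Type) [CommRing R] (f : ZMod (p ^ (s + 1)) →+* R) (β β' : R),
      Function.Injective f → β ^ 2 = β - 5 → β' ^ 2 = β' - 5 → IsUnit β → IsUnit β' →
      (∃ e : R, β' = β ^ p + (p : R) * e) →
      (p : ZMod (p ^ (s + 1))) * M1.mulVec ![25, 342, 0] 2 = 0 ∧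
      (p : ZMod (p ^ (s + 1))) *
        (342 * M1.mulVec ![25, 342, 0] 0 - 25 * M1.mulVec ![25, 342, 0] 1) = 0 := by
    intro R _ f β β' hf hβ hβ' u u' hF
    set F := f.comp (PadicInt.toZModPow (p := p) (s + 1)) with hFdef
    have u2 : IsUnit (2 : R) := by
      have := evf_unit hS F 2 c2
      exact_mod_cast this
    have u3 : IsUnit (3 : R) := by
      have := evf_unit hS F 3 c3'
      exact_mod_cast this
    have u19 : IsUnit (19 : R) := by
      have := evf_unit hS F 19 c19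
      exact_mod_cast this
    have hpR : (p : R) ^ (s + 1) = 0 := by
      have := congrArg f hps
      simpa using this
    have hMmap : Mmat p 3 a3 (S.dat (s + 1) F) (f x1) (f x1) (f t1) = M1.map f := by
      rw [hFdef, Sys.dat_map, ← hD]
      exact Mmat_map D x1 x1 t1 hlead f
    have hx1R : (-884736) * f x1 = 1 := by
      have := congrArg f hx1
      rw [map_mul, map_neg, map_ofNat, map_one] at this
      exact this
    have ht1R : (1 + F S.rho * f t1) * f x1 = (f x1) ^ p := by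
      rw [hFdef, hrhoR R f]
      have := congrArg f ht1
      simpa using this
    have hcomm := cm_comm hp hS (s + 1) R F hpR β β' hβ hβ' u u' u2 u3 u19
      (by rw [hFdef, hrhoR R f]; exact hF) (f x1) (f t1) hx1R ht1R
    obtain ⟨b01, b02, b12, hB, hb1, _, _⟩ := cm_Bm hβ u u2 u3 u19
    obtain ⟨c01, c02, c12, hB', hc1, _, _⟩ := cm_Bm hβ' u' u2 u3 u19
    rw [hMmap, hB, hB'] at hcomm
    have hp5 : p = 5 ∨ IsUnit (5 : R) := by
      by_cases h : p = 5
      · exact Or.inl h
      · right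
        have := evf_unit hS F 5 (evf_cop (by norm_num) (by omega))
        exact_mod_cast this
    obtain ⟨g1, g2⟩ := evf_core p hp5 u19 β β' hβ' u u' (M1.map f) b01 b02 b12 c01 c02 c12
      hb1 hc1 hcomm
    have hmv : ∀ j, (M1.map f).mulVec ![25, 342, 0] j = f (M1.mulVec ![25, 342, 0] j) := by
      intro j
      simp only [Matrix.mulVec, dotProduct, Fin.sum_univ_three, Matrix.map_apply, map_add,
        map_mul]
      simp only [Matrix.cons_val_zero, Matrix.cons_val_one, Matrix.cons_val_two,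
        Matrix.cons_val, Matrix.tail_cons, Matrix.head_cons, map_zero]
      rw [map_ofNat, map_ofNat]
    rw [hmv] at g1
    rw [hmv, hmv] at g2
    constructor
    · apply hf
      rw [map_mul, map_natCast, g1, map_zero]
    · apply hf
      rw [map_mul, map_natCast, map_sub, map_mul, map_mul, map_ofNat, map_ofNat, g2, map_zero]
  have hkey : (p : ZMod (p ^ (s + 1))) * M1.mulVec ![25, 342, 0] 2 = 0 ∧
      (p : ZMod (p ^ (s + 1))) *
        (342 * M1.mulVec ![25, 342, 0] 0 - 25 * M1.mulVec ![25, 342, 0] 1) = 0 := by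
    have hj : jacobiSym (p : ℤ) 19 = 1 ∨ jacobiSym (p : ℤ) 19 = -1 := by
      apply jacobiSym.eq_one_or_neg_one
      rw [Int.gcd_natCast_natCast]
      exact Nat.Coprime.symm c19
    rcases hj with hj | hj
    · obtain ⟨β, hβ, u, hF⟩ := exists_beta_split hp hj (s + 1)
      exact key _ (RingHom.id _) β β (fun _ _ h => h) hβ hβ u u hF
    · obtain ⟨R, _, f, β, hf, hβ, u, u', hF⟩ := exists_beta_inert hp hj (s + 1)
      exact key R f β (1 - β) hf hβ (by linear_combination hβ) u u' hF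
  obtain ⟨k1, k2⟩ := hkey
  -- divisibility of the second coordinate
  have hOK := hS.ok (s + 1) (ZMod (p ^ (s + 1))) (PadicInt.toZModPow (p := p) (s + 1)) hps
  have hadm : ∀ j, (p : ZMod (p ^ (s + 1))) ∣ M1 1 j := by
    intro j
    have h1 := Mmat_adm hOK x1 x1 t1 hlead 1 j
    have h2 : (S.dat (s + 1) (PadicInt.toZModPow (p := p) (s + 1))).rho =
        (p : ZMod (p ^ (s + 1))) := by
      have := hrhoR (ZMod (p ^ (s + 1))) (RingHom.id _)
      simpa [Sys.dat] using this
    rw [h2] at h1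
    simpa using h1
  have hdiv : (p : ZMod (p ^ (s + 1))) ∣ M1.mulVec ![25, 342, 0] 1 := by
    have h1 : M1.mulVec ![25, 342, 0] 1 = M1 1 0 * 25 + M1 1 1 * 342 := by
      simp [Matrix.mulVec, dotProduct, Fin.sum_univ_three]
    rw [h1]
    exact dvd_add (Dvd.dvd.mul_right (hadm 0) _) (Dvd.dvd.mul_right (hadm 1) _)
  obtain ⟨l1, hl1⟩ := hdiv
  set π := ZMod.castHom (pow_dvd_pow p (Nat.le_succ s)) (ZMod (p ^ s)) with hπ
  have hmv : ∀ j, (M1.map π).mulVec ![25, 342, 0] j = π (M1.mulVec ![25, 342, 0] j) := by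
    intro j
    simp only [Matrix.mulVec, dotProduct, Fin.sum_univ_three, Matrix.map_apply, map_add,
      map_mul]
    simp only [Matrix.cons_val_zero, Matrix.cons_val_one, Matrix.cons_val_two,
      Matrix.cons_val, Matrix.tail_cons, Matrix.head_cons, map_zero]
    rw [map_ofNat, map_ofNat]
  have q2 : π (M1.mulVec ![25, 342, 0] 2) = 0 := evf_level _ k1
  have q1 : 342 * π (M1.mulVec ![25, 342, 0] 0) = 25 * π (M1.mulVec ![25, 342, 0] 1) := by
    have h1 := evf_level _ k2
    rw [← hπ, map_sub, map_mul, map_mul, map_ofNat, map_ofNat, sub_eq_zero] at h1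
    exact h1
  have q3 : π (M1.mulVec ![25, 342, 0] 1) = (p : ZMod (p ^ s)) * π l1 := by
    rw [hl1, map_mul, map_natCast]
  have u342 : IsUnit (342 : ZMod (p ^ s)) := by
    have h1 : IsUnit ((342 : ℕ) : ZMod (p ^ s)) := by
      apply evf_unit hS (PadicInt.toZModPow (p := p) s)
      have : (342 : ℕ) = 2 * (3 ^ 2 * 19) := by norm_num
      rw [this]
      exact Nat.Coprime.mul_left c2 (Nat.Coprime.mul_left (Nat.Coprime.pow_left 2 c3') c19)
    exact_mod_cast h1
  obtain ⟨j, hj⟩ := u342.exists_right_inv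
  refine ⟨j * π l1, ?_⟩
  rw [hlev]
  funext a
  rw [hmv a]
  fin_cases a
  · show π (M1.mulVec ![25, 342, 0] 0) = _
    have h1 : π (M1.mulVec ![25, 342, 0] 0) =
        j * (342 * π (M1.mulVec ![25, 342, 0] 0)) := by
      linear_combination -(π (M1.mulVec ![25, 342, 0] 0)) * hj
    rw [h1, q1, q3]
    simp
    ring
  · show π (M1.mulVec ![25, 342, 0] 1) = _
    rw [q3]
    simp
    linear_combination -((p : ZMod (p ^ s)) * π l1) * hj
  · show π (M1.mulVec ![25, 342, 0] 2) = _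
    rw [q2]
    simp

end Pool.Agent.H.MP_7425ae_nt
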