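import Pool.Agent.H.MP_7425ae_nt.Comm19

/-! The eigenvector at `p = 19`. -/

set_option autoImplicit false

open Polynomial

namespace Pool.Agent.H.MP_7425ae_nt

theorem eig19_D1 {R : Type} [CommRing R] {β : R} (hβ : β ^ 2 = β - 5) (u : IsUnit β) :
    D1 (h0 β) = 96 * Ring.inverse β := by
  have hb : β * Ring.inverse β = 1 := Ring.mul_inverse_cancel β u
  linear_combination Ring.inverse β * cm_D1 hβ u - D1 (h0 β) * hb

theorem eig19_D2 {R : Type} [CommRing R] {β : R} (hβ : β ^ 2 = β - 5) (u : IsUnit β) :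
    D2 (h0 β) = 96 * Ring.inverse β ^ 5 := by
  have hb : β ^ 5 * Ring.inverse β ^ 5 = 1 := by
    rw [← mul_pow, Ring.mul_inverse_cancel β u, one_pow]
  linear_combination Ring.inverse β ^ 5 * cm_D2 hβ u - D2 (h0 β) * hb

theorem eig19_E0 {R : Type} [CommRing R] {β : R} (hβ : β ^ 2 = β - 5) (u : IsUnit β) :
    E0 (h0 β) = -36 * Ring.inverse β ^ 3 := by
  have hb : β ^ 3 * Ring.inverse β ^ 3 = 1 := by
    rw [← mul_pow, Ring.mul_inverse_cancel β u, one_pow]
  linear_combination Ring.inverse β ^ 3 * cm_E0 hβ u - E0 (h0 β) * hb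

theorem eig19_u4608 {R : Type} [CommRing R] (u2 : IsUnit (2 : R)) (u3 : IsUnit (3 : R)) :
    IsUnit (4608 : R) := by
  have e : (4608 : R) = 2 ^ 9 * 3 ^ 2 := by norm_num
  rw [e]
  exact (u2.pow 9).mul (u3.pow 2)

/-- the `(0,1)` entry -/
theorem eig19_e01 {R : Type} [CommRing R] {β ι v : R} (H : CM19 β ι v) :
    24 * ι * Ring.inverse β ^ 2 * nuf (h0 β) * Ring.inverse (D1 (h0 β)) * Ring.inverse (1 + v)
      = - (25 * Ring.inverse (32 * ι * (1 + v) * β)) := by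
  obtain ⟨u2, u3, u5, uβ, uι, uv, uv', -, -⟩ := H.units
  have hb : β * Ring.inverse β = 1 := Ring.mul_inverse_cancel β uβ
  have hk : (1 + v) * Ring.inverse (1 + v) = 1 := Ring.mul_inverse_cancel _ uv
  have u32 : IsUnit (32 : R) := by
    have e : (32 : R) = 2 ^ 5 := by norm_num
    rw [e]
    exact u2.pow 5
  have hm : (32 * ι * (1 + v) * β) * Ring.inverse (32 * ι * (1 + v) * β) = 1 :=
    Ring.mul_inverse_cancel _ (((u32.mul uι).mul uv).mul uβ)
  have d1 := eig19_D1 H.hβ uβ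
  have d2 := eig19_D2 H.hβ uβ
  have e0 := eig19_E0 H.hβ uβ
  have ud1 := cmpoint_d1 H.hβ uβ u2 u3
  have ud2 := cmpoint_d2 H.hβ uβ u2 u3
  have hi : D1 (h0 β) * Ring.inverse (D1 (h0 β)) = 1 := Ring.mul_inverse_cancel _ ud1
  have hj : (D1 (h0 β) * D2 (h0 β)) * Ring.inverse (D1 (h0 β) * D2 (h0 β)) = 1 :=
    Ring.mul_inverse_cancel _ (ud1.mul ud2)
  have hn : 48 * nuf (h0 β) = 25 := by
    unfold nuf
    have hq : 1 + 26 * h0 β + 125 * h0 β ^ 2 = -40 * Ring.inverse β ^ 3 := by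
      have : 1 + 26 * h0 β + 125 * h0 β ^ 2 = E0 (h0 β) + 4 * h0 β := by
        unfold E0
        ring
      rw [this, e0]
      unfold h0
      ring
    rw [hq]
    have hj' : 9216 * Ring.inverse β ^ 6 * Ring.inverse (D1 (h0 β) * D2 (h0 β)) = 1 := by
      calc 9216 * Ring.inverse β ^ 6 * Ring.inverse (D1 (h0 β) * D2 (h0 β))
          = (96 * Ring.inverse β) * (96 * Ring.inverse β ^ 5) *
            Ring.inverse (D1 (h0 β) * D2 (h0 β)) := by ring
        _ = 1 := by rw [← d1, ← d2]; exact hj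
    generalize Ring.inverse (D1 (h0 β) * D2 (h0 β)) = j at *
    unfold h0
    linear_combination 25 * hj'
  have hi96 : 96 * Ring.inverse (D1 (h0 β)) = β := by
    rw [d1] at hi ⊢
    linear_combination β * hi - (96 * Ring.inverse (96 * Ring.inverse β)) * hb
  have hι := H.hι
  refine (eig19_u4608 u2 u3).mul_left_cancel ?_
  generalize nuf (h0 β) = n at *
  generalize Ring.inverse (D1 (h0 β)) = i at *
  generalize Ring.inverse (32 * ι * (1 + v) * β) = m at *
  generalize Ring.inverse (1 + v) = k at *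
  generalize Ring.inverse β = b at *
  have h1 : -192 * m = ι * b * k := by
    linear_combination (ι * b * k) * hm - (32 * ι ^ 2 * m) * (hk * (b * β) + hb) +
      32 * m * (-hι)
  calc 4608 * (24 * ι * b ^ 2 * n * i * k)
      = 24 * ι * b ^ 2 * (48 * n) * (96 * i) * k := by ring
    _ = 24 * ι * b ^ 2 * 25 * β * k := by rw [hn, hi96]
    _ = 600 * (ι * b * k) * (β * b) := by ring
    _ = 600 * (-192 * m) := by rw [hb, h1]; ring
    _ = 4608 * (-(25 * m)) := by ring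

/-- the `(1,1)` entry before conjugation -/
theorem eig19_e11 {R : Type} [CommRing R] {β ι v : R} (H : CM19 β ι v) :
    5 * (24 * ι * Ring.inverse β ^ 2) * D2 (h0 β) *
      Ring.inverse (D1 (h0 β) * (24 * ι * Ring.inverse β ^ 4)) = 5 * Ring.inverse β ^ 2 := by
  obtain ⟨u2, u3, u5, uβ, uι, uv, uv', -, -⟩ := H.units
  have d1 := eig19_D1 H.hβ uβ
  have d2 := eig19_D2 H.hβ uβ
  have ud1 := cmpoint_d1 H.hβ uβ u2 u3
  have u24 : IsUnit (24 : R) := by
    have e : (24 : R) = 2 ^ 3 * 3 := by norm_num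
    rw [e]
    exact (u2.pow 3).mul u3
  have hi : (D1 (h0 β) * (24 * ι * Ring.inverse β ^ 4)) *
      Ring.inverse (D1 (h0 β) * (24 * ι * Ring.inverse β ^ 4)) = 1 :=
    Ring.mul_inverse_cancel _ (ud1.mul ((u24.mul uι).mul (uβ.ringInverse.pow 4)))
  generalize Ring.inverse (D1 (h0 β) * (24 * ι * Ring.inverse β ^ 4)) = i at *
  rw [d1] at hi
  rw [d2]
  linear_combination (5 * Ring.inverse β ^ 2) * hi

/-- the `(2,2)` entry before conjugation -/
theorem eig19_e22 {R : Type} [CommRing R] {β ι v : R} (H : CM19 β ι v) :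
    25 * D2 (h0 β) * Ring.inverse (D1 (h0 β)) = (5 * Ring.inverse β ^ 2) ^ 2 := by
  obtain ⟨u2, u3, u5, uβ, uι, uv, uv', -, -⟩ := H.units
  have d1 := eig19_D1 H.hβ uβ
  have d2 := eig19_D2 H.hβ uβ
  have ud1 := cmpoint_d1 H.hβ uβ u2 u3
  have hi : D1 (h0 β) * Ring.inverse (D1 (h0 β)) = 1 := Ring.mul_inverse_cancel _ ud1
  generalize Ring.inverse (D1 (h0 β)) = i at *
  rw [d1] at hi
  rw [d2]
  linear_combination (25 * Ring.inverse β ^ 4) * hi

/-- the first two columns of the matrix of the isogeny at the CM point -/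
theorem Bs_cm {R : Type} [CommRing R] {β ι v : R} (H : CM19 β ι v) :
    ∃ b02 b12 : R, Bs (h0 β) (24 * ι * Ring.inverse β ^ 2) (24 * ι * Ring.inverse β ^ 4) v v
      = !![1, - (25 * Ring.inverse (32 * ι * (1 + v) * β)), b02;
           0, 5 * Ring.inverse β ^ 2, b12; 0, 0, (5 * Ring.inverse β ^ 2) ^ 2] := by
  obtain ⟨u2, u3, u5, uβ, uι, uv, uv', -, -⟩ := H.units
  have hk : (1 + v) * Ring.inverse (1 + v) = 1 := Ring.mul_inverse_cancel _ uv
  have e01 := eig19_e01 H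
  have e11 := eig19_e11 H
  have e22 := eig19_e22 H
  refine ⟨h0 β * K02 (h0 β) * Ring.inverse (D1 (h0 β) ^ 3 * D2 (h0 β) ^ 2) *
    Ring.inverse (1 + v) ^ 2, (1 + v) * (h0 β * K12 (h0 β) *
    Ring.inverse (D1 (h0 β) ^ 2 * (24 * ι * Ring.inverse β ^ 4))) * Ring.inverse (1 + v) ^ 2, ?_⟩
  unfold Bs Bt
  rw [← e01, ← e22]
  generalize hX : 24 * ι * Ring.inverse β ^ 2 * nuf (h0 β) * Ring.inverse (D1 (h0 β)) = X
  rw [e11]
  generalize h0 β * K02 (h0 β) * Ring.inverse (D1 (h0 β) ^ 3 * D2 (h0 β) ^ 2) = Y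
  generalize h0 β * K12 (h0 β) *
    Ring.inverse (D1 (h0 β) ^ 2 * (24 * ι * Ring.inverse β ^ 4)) = Z
  generalize 25 * D2 (h0 β) * Ring.inverse (D1 (h0 β)) = W
  generalize 5 * Ring.inverse β ^ 2 = V
  generalize Ring.inverse (1 + v) = k at *
  ext i j
  fin_cases i <;> fin_cases j <;> simp [Matrix.mul_apply, Fin.sum_univ_three]
  · linear_combination V * hk
  · linear_combination W * (hk * ((1 + v) * k + 1))

theorem eig19_neg {R : Type} [CommRing R] {β ι v : R} (H : CM19 β ι v) :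
    CM19 β (-ι) (-v) := by
  refine ⟨H.nil, H.hβ, ?_, ?_⟩
  · rw [neg_pow_two, H.hι]
  · linear_combination - H.hv

theorem eig19_inv_neg {R : Type} [CommRing R] {x : R} (hx : IsUnit x) :
    Ring.inverse (-x) = - Ring.inverse x := by
  have h1 : x * Ring.inverse x = 1 := Ring.mul_inverse_cancel x hx
  have h2 : (-x) * Ring.inverse (-x) = 1 := Ring.mul_inverse_cancel (-x) hx.neg
  linear_combination - Ring.inverse x * h2 - Ring.inverse (-x) * h1

theorem Bs_cm' {R : Type} [CommRing R] {β ι v : R} (H : CM19 β ι v) :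
    ∃ b02 b12 : R,
      Bs (h0 β) (- (24 * ι * Ring.inverse β ^ 2)) (- (24 * ι * Ring.inverse β ^ 4)) (-v) (-v)
      = !![1, 25 * Ring.inverse (32 * ι * (1 - v) * β), b02;
           0, 5 * Ring.inverse β ^ 2, b12; 0, 0, (5 * Ring.inverse β ^ 2) ^ 2] := by
  obtain ⟨u2, u3, u5, uβ, uι, uv, uv', -, -⟩ := H.units
  obtain ⟨b02, b12, h⟩ := Bs_cm (eig19_neg H)
  refine ⟨b02, b12, ?_⟩
  have u32 : IsUnit (32 : R) := by
    have e : (32 : R) = 2 ^ 5 := by norm_num
    rw [e]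
    exact u2.pow 5
  have e1 : 24 * (-ι) * Ring.inverse β ^ 2 = - (24 * ι * Ring.inverse β ^ 2) := by ring
  have e2 : 24 * (-ι) * Ring.inverse β ^ 4 = - (24 * ι * Ring.inverse β ^ 4) := by ring
  have e3 : - (25 * Ring.inverse (32 * (-ι) * (1 + -v) * β)) =
      25 * Ring.inverse (32 * ι * (1 - v) * β) := by
    have e4 : 32 * (-ι) * (1 + -v) * β = - (32 * ι * (1 - v) * β) := by ring
    rw [e4, eig19_inv_neg (((u32.mul uι).mul uv').mul uβ)]
    ring
  rw [e1, e2, e3] at h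
  exact h

/-- the eigenvector: `32 (2 β - 1) ι (1 + v)` is the coefficient of `e0 e1` -/
theorem eig19 {R R' : Type} [CommRing R] [CommRing R'] (φ : R' →+* R) {β ι v : R'}
    (H : CM19 β ι v) (hφ : ∀ x : R', (2 * β - 1) * x = 0 → φ x = 0)
    (S : Matrix (Fin 3) (Fin 3) R')
    (hS : S * Bs (h0 β) (24 * ι * Ring.inverse β ^ 2) (24 * ι * Ring.inverse β ^ 4) v v
      = Bs (h0 β) (- (24 * ι * Ring.inverse β ^ 2)) (- (24 * ι * Ring.inverse β ^ 4)) (-v) (-v)
        * S) :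
    ∃ l : R, (S.map φ).mulVec ![25, φ (32 * (2 * β - 1) * ι * (1 + v)), 0]
      = l • ![25, φ (- (32 * (2 * β - 1) * ι * (1 - v))), 0] := by
  obtain ⟨u2, u3, u5, uβ, uι, uv, uv', -, -⟩ := H.units
  obtain ⟨b02, b12, hB⟩ := Bs_cm H
  obtain ⟨b02', b12', hB'⟩ := Bs_cm' H
  rw [hB, hB'] at hS
  have u32 : IsUnit (32 : R') := by
    have e : (32 : R') = 2 ^ 5 := by norm_num
    rw [e]
    exact u2.pow 5
  have hb : β * Ring.inverse β = 1 := Ring.mul_inverse_cancel β uβ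
  have hm : (32 * ι * (1 + v) * β) * Ring.inverse (32 * ι * (1 + v) * β) = 1 :=
    Ring.mul_inverse_cancel _ (((u32.mul uι).mul uv).mul uβ)
  have hm' : (32 * ι * (1 - v) * β) * Ring.inverse (32 * ι * (1 - v) * β) = 1 :=
    Ring.mul_inverse_cancel _ (((u32.mul uι).mul uv').mul uβ)
  have ub : IsUnit (Ring.inverse β) := uβ.ringInverse
  have hβ := H.hβ
  generalize Ring.inverse (32 * ι * (1 + v) * β) = m at *
  generalize Ring.inverse (32 * ι * (1 - v) * β) = m' at *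
  generalize Ring.inverse β = b at *
  have hr : 5 * b ^ 2 = b - 1 := by
    linear_combination b ^ 2 * hβ - (1 + b * β - b) * hb
  have ur : IsUnit (5 * b ^ 2) := u5.mul (ub.pow 2)
  -- the vector
  have E : ∀ i j, (S * !![1, - (25 * m), b02; 0, 5 * b ^ 2, b12; 0, 0, (5 * b ^ 2) ^ 2]) i j =
      (!![1, 25 * m', b02'; 0, 5 * b ^ 2, b12'; 0, 0, (5 * b ^ 2) ^ 2] * S) i j := by
    intro i j
    rw [hS]
  have E00 := E 0 0
  have E01 := E 0 1
  have E10 := E 1 0
  have E11 := E 1 1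
  have E20 := E 2 0
  have E21 := E 2 1
  simp [Matrix.mul_apply, Fin.sum_univ_three] at E00 E01 E10 E11 E20 E21
  obtain ⟨q, hq⟩ : ∃ q, q = 2 * β - 1 := ⟨_, rfl⟩
  obtain ⟨c, hc⟩ : ∃ c, c = 32 * (2 * β - 1) * ι * (1 + v) := ⟨_, rfl⟩
  obtain ⟨w0, hw0⟩ : ∃ w, w = S 0 0 * 25 + S 0 1 * c := ⟨_, rfl⟩
  obtain ⟨w1, hw1⟩ : ∃ w, w = S 1 0 * 25 + S 1 1 * c := ⟨_, rfl⟩
  obtain ⟨w2, hw2⟩ : ∃ w, w = S 2 0 * 25 + S 2 1 * c := ⟨_, rfl⟩
  have hmc : m * c = q * b := by
    rw [hc, hq]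
    linear_combination ((2 * β - 1) * b) * hm - (32 * (2 * β - 1) * ι * (1 + v) * m) * hb
  have hqb : q * b = 1 - 5 * b ^ 2 := by
    rw [hr, hq]
    linear_combination 2 * hb
  have hmc1 : m * c = 1 - 5 * b ^ 2 := hmc.trans hqb
  have k2 : (5 * b ^ 2) * w2 = (5 * b ^ 2) ^ 2 * w2 := by
    rw [hw2]
    linear_combination 25 * E20 + c * E21 + 25 * S 2 0 * hmc1
  have k2' : q * w2 = 0 := by
    refine (ur.mul ub).mul_left_cancel ?_
    linear_combination k2 + (5 * b ^ 2) * w2 * hqb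
  have k2φ : φ w2 = 0 := hφ w2 (by rw [← hq]; exact k2')
  have k0 : (q * b) * w0 + 25 * m' * w1 + b02' * w2 = 0 := by
    rw [hqb, hw0, hw1, hw2]
    linear_combination - 25 * E00 - c * E01 - 25 * S 0 0 * hmc1
  have k0' : (32 * (2 * β - 1) * ι * (1 - v)) * w0 + 25 * w1 +
      (32 * ι * (1 - v) * β * b02') * w2 = 0 := by
    rw [← hq]
    linear_combination (32 * ι * (1 - v) * β) * k0 - 25 * w1 * hm' -
      (32 * q * ι * (1 - v) * w0) * hb
  have k0φ : φ (32 * (2 * β - 1) * ι * (1 - v)) * φ w0 + 25 * φ w1 = 0 := by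
    have h := congrArg φ k0'
    rw [map_add, map_add, map_mul φ (32 * (2 * β - 1) * ι * (1 - v)) w0, map_mul φ 25 w1,
      map_mul φ (32 * ι * (1 - v) * β * b02') w2, k2φ, map_zero, mul_zero, add_zero,
      map_ofNat φ 25] at h
    exact h
  have u25 : IsUnit (25 : R) := by
    have e : (25 : R) = φ 5 ^ 2 := by
      rw [map_ofNat]
      norm_num
    rw [e]
    exact (u5.map φ).pow 2
  have h25 : (25 : R) * Ring.inverse 25 = 1 := Ring.mul_inverse_cancel _ u25
  have h25φ : φ 25 = 25 := map_ofNat φ 25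
  have g0 : φ (S 0 0) * 25 + φ (S 0 1) * φ c = φ w0 := by
    rw [hw0, map_add, map_mul, map_mul, h25φ]
  have g1 : φ (S 1 0) * 25 + φ (S 1 1) * φ c = φ w1 := by
    rw [hw1, map_add, map_mul, map_mul, h25φ]
  have g2 : φ (S 2 0) * 25 + φ (S 2 1) * φ c = φ w2 := by
    rw [hw2, map_add, map_mul, map_mul, h25φ]
  refine ⟨Ring.inverse 25 * φ w0, ?_⟩
  rw [← hc, map_neg]
  generalize φ (32 * (2 * β - 1) * ι * (1 - v)) = d at *
  ext i
  fin_cases i
  · simp [Matrix.mulVec, dotProduct, Fin.sum_univ_three]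
    rw [g0]
    linear_combination - φ w0 * h25
  · simp [Matrix.mulVec, dotProduct, Fin.sum_univ_three]
    rw [g1]
    linear_combination Ring.inverse 25 * k0φ - φ w1 * h25
  · simp [Matrix.mulVec, dotProduct, Fin.sum_univ_three]
    rw [g2, k2φ]

/-- `Cm u` maps the eigenvector to `(25, 342, 0)` -/
theorem Cm_eig19 {R : Type} [CommRing R] {β ι v : R} (H : CM19 β ι v) (u : R)
    (hu : 864 * u = 1 - v) :
    (Cm u).mulVec ![25, 32 * (2 * β - 1) * ι * (1 + v), 0] = ![25, 342, 0] := by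
  obtain ⟨u2, u3, u5, uβ, uι, uv, uv', -, -⟩ := H.units
  have h1 : (2 : R) * (1 - 432 * u) = 1 + v := by linear_combination - hu
  have u1 : IsUnit (1 - 432 * u) := by
    refine isUnit_of_mul_isUnit_right (x := 2) ?_
    rw [h1]
    exact uv
  have hk : (1 - 432 * u) * Ring.inverse (1 - 432 * u) = 1 := Ring.mul_inverse_cancel _ u1
  have h2 : (2 : R) * Ring.inverse 2 = 1 := Ring.mul_inverse_cancel _ u2
  have hι := H.hι
  have hβ := H.hβ
  have hv := H.hv
  have key : (1 - 864 * u) * Ring.inverse (1 - 432 * u) * Ring.inverse 2 *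
      (32 * (2 * β - 1) * ι * (1 + v)) = 342 := by
    generalize Ring.inverse (1 - 432 * u) = k at *
    generalize Ring.inverse (2 : R) = t at *
    have e1 : (1 - 864 * u) = v := by linear_combination - hu
    rw [e1, ← h1]
    calc v * k * t * (32 * (2 * β - 1) * ι * (2 * (1 - 432 * u)))
        = (32 * v) * ((2 * β - 1) * ι) * ((1 - 432 * u) * k) * (2 * t) := by ring
      _ = 3 * (2 * β - 1) ^ 2 * ι ^ 2 := by rw [hv, hk, h2]; ring
      _ = 342 := by rw [cm_sq hβ, hι]; norm_num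
  unfold Cm
  ext i
  fin_cases i
  · simp [Matrix.mulVec, dotProduct, Fin.sum_univ_three]
  · simp only [Matrix.mulVec, dotProduct, Fin.sum_univ_three]
    simpa using key
  · simp [Matrix.mulVec, dotProduct, Fin.sum_univ_three]

theorem xu_cm19 {R : Type} [CommRing R] {β ι v : R} (H : CM19 β ι v) (u : R)
    (hu : 864 * u = 1 - v) : (-884736) * xu u = 1 := by
  obtain ⟨u2, u3, u5, uβ, uι, uv, uv', -, -⟩ := H.units
  have hι := H.hι
  have hβ := cm_sq H.hβ
  have hv := H.hv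
  have h1 : 1024 * v ^ 2 = 1026 := by
    calc 1024 * v ^ 2 = (32 * v) ^ 2 := by ring
      _ = 9 * (2 * β - 1) ^ 2 * ι ^ 2 := by rw [hv]; ring
      _ = 1026 := by rw [hβ, hι]; norm_num
  have h2 : (1 - 864 * u) ^ 2 = v ^ 2 := by
    have e1 : (1 - 864 * u) = v := by linear_combination - hu
    rw [e1]
  refine u2.mul_left_cancel ?_
  unfold xu
  linear_combination 1024 * h2 + h1

end Pool.Agent.H.MP_7425ae_nt
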