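import Pool.Agent.H.MP_7425ae_nt.Basic

/-! The integers `e_k = C(m,3k) C(3k,k) (-64)^k`. -/

set_option autoImplicit false

open Polynomial

namespace Pool.Agent.H.MP_7425ae_nt

/-- `e_k = C(m,3k) C(3k,k) (-64)^k` -/
def er (m k : ℕ) : ℤ := ((m.choose (3 * k) * (3 * k).choose k : ℕ) : ℤ) * (-64) ^ k

theorem er_zero_of_lt (m k : ℕ) (h : m < 3 * k) : er m k = 0 := by
  unfold er
  rw [Nat.choose_eq_zero_of_lt h]
  simp

private theorem erdef_fact (m k : ℕ) (h : 3 * k ≤ m) :
    er m k * ((k.factorial * (2 * k).factorial * (m - 3 * k).factorial : ℕ) : ℤ)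
      = (m.factorial : ℤ) * (-64) ^ k := by
  have h1 := Nat.choose_mul_factorial_mul_factorial h
  have h2 := Nat.choose_mul_factorial_mul_factorial (show k ≤ 3 * k by omega)
  have h3 : 3 * k - k = 2 * k := by omega
  rw [h3] at h2
  unfold er
  have h4 : m.choose (3 * k) * (3 * k).choose k
      * (k.factorial * (2 * k).factorial * (m - 3 * k).factorial) = m.factorial := by
    rw [← h1]
    conv_rhs => rw [← h2]
    ring
  rw [← h4]
  push_cast
  ring

theorem er_rec (m k : ℕ) : ((k : ℤ) + 1) ^ 2 * (2 * (k : ℤ) + 1) * er m (k + 1)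
    = -32 * ((m : ℤ) - 3 * k) * ((m : ℤ) - 3 * k - 1) * ((m : ℤ) - 3 * k - 2) * er m k := by
  rcases lt_or_ge m (3 * k) with h | h
  · rw [er_zero_of_lt m k h, er_zero_of_lt m (k + 1) (by omega)]
    ring
  · obtain ⟨r, rfl⟩ := Nat.exists_eq_add_of_le h
    rcases lt_or_ge r 3 with hr | hr
    · rw [er_zero_of_lt _ (k + 1) (by omega)]
      interval_cases r <;> push_cast <;> ring
    · obtain ⟨n, rfl⟩ := Nat.exists_eq_add_of_le hr
      have e1 := erdef_fact (3 * k + (3 + n)) (k + 1) (by omega)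
      have e0 := erdef_fact (3 * k + (3 + n)) k (by omega)
      have f1 : 3 * k + (3 + n) - 3 * (k + 1) = n := by omega
      have f0 : 3 * k + (3 + n) - 3 * k = n + 1 + 1 + 1 := by omega
      have f2 : 2 * (k + 1) = 2 * k + 1 + 1 := by ring
      rw [f1, f2] at e1
      rw [f0] at e0
      simp only [Nat.factorial_succ] at e1 e0
      generalize er (3 * k + (3 + n)) (k + 1) = x at *
      generalize er (3 * k + (3 + n)) k = y at *
      have hk : ((k.factorial : ℕ) : ℤ) ≠ 0 := by exact_mod_cast Nat.factorial_ne_zero k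
      have h2k : (((2 * k).factorial : ℕ) : ℤ) ≠ 0 := by
        exact_mod_cast Nat.factorial_ne_zero (2 * k)
      have hn : ((n.factorial : ℕ) : ℤ) ≠ 0 := by exact_mod_cast Nat.factorial_ne_zero n
      have hprod : ((k.factorial : ℕ) : ℤ) * (((2 * k).factorial : ℕ) : ℤ)
          * ((n.factorial : ℕ) : ℤ) * 2 ≠ 0 :=
        mul_ne_zero (mul_ne_zero (mul_ne_zero hk h2k) hn) two_ne_zero
      apply mul_left_cancel₀ hprod
      push_cast at e1 e0 ⊢
      rw [pow_succ] at e1
      linear_combination e1 + 64 * e0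

/-- `e_k k! (2k)! (m-3k)! = m! (-64)^k` -/
theorem er_fact (m k : ℕ) (h : 3 * k ≤ m) :
    er m k * ((k.factorial * (2 * k).factorial * (m - 3 * k).factorial : ℕ) : ℤ)
      = (m.factorial : ℤ) * (-64) ^ k := erdef_fact m k h

end Pool.Agent.H.MP_7425ae_nt
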