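import Pool.Agent.H.MP_7425ae_nt.ErDef

/-! The recurrence of `e_n`, `m = (p^2-1)/2`, modulo `p^2`. -/

set_option autoImplicit false

open Polynomial

namespace Pool.Agent.H.MP_7425ae_nt

lemma erstep_a2 (n : ℤ) : a2.eval n = 12 * (6 * n + 1) * (6 * n + 5) := by
  simp [a2]

/-- the exact recurrence -/
lemma erstep_exact (p : ℕ) (h : p % 2 = 1) (n : ℕ) :
    ((n : ℤ) + 1) ^ 2 * (2 * (n : ℤ) + 1) * er ((p ^ 2 - 1) / 2) (n + 1)
      = 4 * (6 * (n : ℤ) + 1 - (p : ℤ) ^ 2) * (6 * (n : ℤ) + 3 - (p : ℤ) ^ 2) *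
        (6 * (n : ℤ) + 5 - (p : ℤ) ^ 2) * er ((p ^ 2 - 1) / 2) n := by
  have h1 := er_rec ((p ^ 2 - 1) / 2) n
  have h2 : 2 * (((p ^ 2 - 1) / 2 : ℕ) : ℤ) = (p : ℤ) ^ 2 - 1 := by
    have h3 : p ^ 2 % 2 = 1 := by rw [Nat.pow_mod, h]
    have h4 : 2 * ((p ^ 2 - 1) / 2) + 1 = p ^ 2 := by omega
    generalize (p ^ 2 - 1) / 2 = q at h4
    have h5 : ((2 * q + 1 : ℕ) : ℤ) = ((p ^ 2 : ℕ) : ℤ) := by rw [h4]
    push_cast at h5
    linarith
  rw [h1]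
  set M : ℤ := (((p ^ 2 - 1) / 2 : ℕ) : ℤ) with hM
  have h3 : (p : ℤ) ^ 2 = 2 * M + 1 := by linarith
  rw [h3]
  ring

/-- `p` divides `e_n` if `n = p k + (p-1)/2` -/
lemma erstep_dvd (p : ℕ) [Fact p.Prime] (hp : 5 ≤ p) (m k j : ℕ) (hj : 2 * j + 1 = p) :
    (p : ℤ) ∣ er m (p * k + j) := by
  have h1 : (3 * (p * k + j)) % p = j - 1 := by
    have : 3 * (p * k + j) = (j - 1) + p * (3 * k + 1) := by
      have : 3 * j = p + (j - 1) := by omega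
      have : 3 * (p * k + j) = p * (3 * k) + 3 * j := by ring
      rw [this, Nat.mul_add, Nat.mul_one]
      omega
    rw [this, Nat.add_mul_mod_self_left, Nat.mod_eq_of_lt (by omega)]
  have h2 : (p * k + j) % p = j := by
    rw [Nat.mul_add_mod, Nat.mod_eq_of_lt (by omega)]
  have h3 : p ∣ (3 * (p * k + j)).choose (p * k + j) := by
    have h4 := Choose.choose_modEq_choose_mod_mul_choose_div_nat (p := p)
      (n := 3 * (p * k + j)) (k := p * k + j)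
    have h5 : (j - 1).choose j = 0 := Nat.choose_eq_zero_of_lt (by omega)
    rw [h1, h2, h5, zero_mul] at h4
    exact (Nat.modEq_zero_iff_dvd).1 h4
  unfold er
  apply Dvd.dvd.mul_right
  exact_mod_cast Dvd.dvd.mul_left h3 _

/-- the numbers `e_{pk+j}` (`m = (p^2-1)/2`) satisfy the recurrence of `d_{pk+j}` modulo `p^2` -/
theorem er_step (p : ℕ) [Fact p.Prime] (hp : 5 ≤ p) (k j : ℕ) (hk : 3 * k ≤ (p - 1) / 2)
    (hj : j + 1 < p) :
    (p : ℤ) ^ 2 ∣ ((p * k + j + 1 : ℕ) : ℤ) ^ 2 * er ((p ^ 2 - 1) / 2) (p * k + j + 1)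
      - a2.eval ((p * k + j : ℕ) : ℤ) * er ((p ^ 2 - 1) / 2) (p * k + j) := by
  have hpp : p.Prime := Fact.out
  have hodd : p % 2 = 1 := by
    rcases hpp.eq_two_or_odd with h | h
    · omega
    · exact h
  have hpZ : Prime (p : ℤ) := Nat.prime_iff_prime_int.1 hpp
  have hex := erstep_exact p hodd (p * k + j)
  rw [erstep_a2]
  set n : ℕ := p * k + j with hn
  set m2 : ℕ := (p ^ 2 - 1) / 2 with hm2
  by_cases hdiv : (p : ℤ) ∣ 2 * (n : ℤ) + 1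
  · -- `2 j + 1 = p`
    have hjp : 2 * j + 1 = p := by
      have h1 : (p : ℤ) ∣ ((2 * j + 1 : ℕ) : ℤ) := by
        have h2 : ((2 * j + 1 : ℕ) : ℤ) = (2 * (n : ℤ) + 1) - (p : ℤ) * (2 * k) := by
          rw [hn]; push_cast; ring
        rw [h2]
        exact dvd_sub hdiv (Dvd.intro _ rfl)
      rw [Int.natCast_dvd_natCast] at h1
      obtain ⟨c, hc⟩ := h1
      have hc1 : c < 2 := by
        by_contra hcon
        push Not at hcon
        have : p * 2 ≤ p * c := Nat.mul_le_mul_left p hcon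
        omega
      have hc0 : c ≠ 0 := by
        rintro rfl
        omega
      have : c = 1 := by omega
      rw [this] at hc
      omega
    have hpe := erstep_dvd p hp m2 k j hjp
    rw [← hn] at hpe
    obtain ⟨w, hw⟩ := hpe
    have hj2 : (2 : ℤ) * (j : ℤ) + 1 = (p : ℤ) := by exact_mod_cast hjp
    have hn1 : 2 * (n : ℤ) + 1 = (p : ℤ) * (2 * (k : ℤ) + 1) := by
      rw [hn]; push_cast; linear_combination hj2
    have hp0 : (p : ℤ) ≠ 0 := by exact_mod_cast hpp.ne_zero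
    have hex2 : ((n : ℤ) + 1) ^ 2 * (2 * (k : ℤ) + 1) * er m2 (n + 1)
        = 4 * (6 * (n : ℤ) + 1 - (p : ℤ) ^ 2) * (3 * (2 * (k : ℤ) + 1) - (p : ℤ)) *
          (6 * (n : ℤ) + 5 - (p : ℤ) ^ 2) * er m2 n := by
      apply mul_left_cancel₀ hp0
      have h6 : 6 * (n : ℤ) + 3 = 3 * (p : ℤ) * (2 * (k : ℤ) + 1) := by
        linear_combination 3 * hn1
      rw [h6, hn1] at hex
      linear_combination hex
    have hcop : IsCoprime ((p : ℤ) ^ 2) (2 * (k : ℤ) + 1) := by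
      apply IsCoprime.pow_left
      have h1 : Nat.Coprime p (2 * k + 1) := by
        rw [Nat.Prime.coprime_iff_not_dvd hpp]
        intro h
        have := Nat.le_of_dvd (by omega) h
        omega
      have h2 : IsCoprime ((p : ℕ) : ℤ) ((2 * k + 1 : ℕ) : ℤ) := Nat.isCoprime_iff_coprime.2 h1
      push_cast at h2
      exact h2
    apply hcop.dvd_of_dvd_mul_left
    have hcast : ((n + 1 : ℕ) : ℤ) = (n : ℤ) + 1 := by push_cast; ring
    rw [hcast]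
    have hfin : (2 * (k : ℤ) + 1) * (((n : ℤ) + 1) ^ 2 * er m2 (n + 1) -
        12 * (6 * (n : ℤ) + 1) * (6 * (n : ℤ) + 5) * er m2 n) =
        4 * (6 * (n : ℤ) + 1 - (p : ℤ) ^ 2) * (3 * (2 * (k : ℤ) + 1) - (p : ℤ)) *
          (6 * (n : ℤ) + 5 - (p : ℤ) ^ 2) * er m2 n -
        (2 * (k : ℤ) + 1) * (12 * (6 * (n : ℤ) + 1) * (6 * (n : ℤ) + 5) * er m2 n) := by
      linear_combination hex2
    rw [hfin]
    -- modulo `p^2`
    refine ⟨4 * ((3 * (2 * (k : ℤ) + 1) - (p : ℤ)) *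
      (-(6 * (n : ℤ) + 1) - (6 * (n : ℤ) + 5) + (p : ℤ) ^ 2)) * er m2 n -
      4 * (6 * (n : ℤ) + 1) * (6 * (n : ℤ) + 5) * w, ?_⟩
    rw [hw]
    ring
  · have hcop : IsCoprime ((p : ℤ) ^ 2) (2 * (n : ℤ) + 1) := by
      apply IsCoprime.pow_left
      exact (Prime.coprime_iff_not_dvd hpZ).2 hdiv
    apply hcop.dvd_of_dvd_mul_left
    have hcast : ((n + 1 : ℕ) : ℤ) = (n : ℤ) + 1 := by push_cast; ring
    rw [hcast]
    have hfin : (2 * (n : ℤ) + 1) * (((n : ℤ) + 1) ^ 2 * er m2 (n + 1) -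
        12 * (6 * (n : ℤ) + 1) * (6 * (n : ℤ) + 5) * er m2 n) =
        4 * (6 * (n : ℤ) + 1 - (p : ℤ) ^ 2) * (6 * (n : ℤ) + 3 - (p : ℤ) ^ 2) *
          (6 * (n : ℤ) + 5 - (p : ℤ) ^ 2) * er m2 n -
        (2 * (n : ℤ) + 1) * (12 * (6 * (n : ℤ) + 1) * (6 * (n : ℤ) + 5) * er m2 n) := by
      linear_combination hex
    rw [hfin]
    refine ⟨4 * (-((6 * (n : ℤ) + 1) * (6 * (n : ℤ) + 3)) - (6 * (n : ℤ) + 1) * (6 * (n : ℤ) + 5)
      - (6 * (n : ℤ) + 3) * (6 * (n : ℤ) + 5) + (p : ℤ) ^ 2 * ((6 * (n : ℤ) + 1) +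
      (6 * (n : ℤ) + 3) + (6 * (n : ℤ) + 5)) - (p : ℤ) ^ 4) * er m2 n, ?_⟩
    ring

end Pool.Agent.H.MP_7425ae_nt
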