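import Pool.Agent.H.MP_7425ae_nt.PsRing
import Pool.Agent.H.MP_7425ae_nt.US
import Pool.Agent.H.MP_7425ae_nt.EvSum

/-! The functional identity on the `u`-line at points where `1 - 864 u` is nilpotent. -/

set_option autoImplicit false

open Polynomial

namespace Pool.Agent.H.MP_7425ae_nt

/-- Frobenius of `1 - c x` -/
theorem evu_frob {A : Type} [CommRing A] (p : ℕ) [Fact p.Prime] (hp : 5 ≤ p) {rho T x y : A}
    (hr : rho ∣ (p : A)) (hT : (1 + rho * T) * y = x ^ p) (c : ℤ) :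
    ∃ q : A, (1 - (c : A) * x) ^ p = (1 - (c : A) * y) + rho * q := by
  have hpp : p.Prime := Fact.out
  obtain ⟨d, hd⟩ := hr
  obtain ⟨r, hr1⟩ := exists_add_pow_prime_eq (p := p) hpp (1 : A) (-((c : A) * x))
  have h1 : (1 - (c : A) * x) ^ p = 1 - (c : A) ^ p * x ^ p + p * (-((c : A) * x)) * r := by
    have h2 : (1 - (c : A) * x) ^ p = (1 + -((c : A) * x)) ^ p := by ring
    have hodd : Odd p := hpp.odd_of_ne_two (by omega)
    rw [h2, hr1, Odd.neg_pow hodd, mul_pow, one_pow]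
    ring
  have h3 : (p : ℤ) ∣ c ^ p - c := by
    rw [← ZMod.intCast_zmod_eq_zero_iff_dvd, Int.cast_sub, Int.cast_pow, ZMod.pow_card, sub_self]
  obtain ⟨m, hm⟩ := h3
  have h4 : (c : A) ^ p = c + p * m := by
    have h5 : c ^ p = c + p * m := by linear_combination hm
    have h6 := congrArg (fun z : ℤ => (z : A)) h5
    push_cast at h6
    exact h6
  refine ⟨-((c : A) * T * y) - d * m * ((1 + rho * T) * y) - d * (c * x) * r, ?_⟩
  rw [h1, h4, ← hT, hd]
  ring

/-- base change of the sums -/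
theorem evu_evN_map {A B : Type} [CommRing A] [CommRing B] (g : A →+* B) (c : ℕ → ℤ) (N : ℕ)
    (x : A) (F : A[X]) : evN c N (g x) (F.map g) = g (evN c N x F) := by
  unfold evN
  rw [map_sum]
  apply Finset.sum_congr rfl
  intro k _
  rw [map_mul, map_mul, map_pow, map_intCast, ← map_natCast g k, eval_map, eval₂_at_apply]

theorem evu_mulVec {A B : Type} [CommRing A] [CommRing B] (g : A →+* B)
    (M : Matrix (Fin 3) (Fin 3) A) (v : Fin 3 → A) :
    (M.map g).mulVec (fun j => g (v j)) = fun j => g (M.mulVec v j) := by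
  funext j
  exact (RingHom.map_mulVec g M v j).symm

theorem evu_nat1 {A B : Type} [CommRing A] [CommRing B] (g : A →+* B) (c : ℕ → ℤ) (N : ℕ)
    (U : A) (h2 : IsUnit (2 : A)) (hU : IsUnit (1 - 432 * U)) (v : Fin 3 → A) :
    evN c N (xu (g U)) (emb ((Cm (g U)).mulVec (fun j => g (v j))))
      = g (evN c N (xu U) (emb ((Cm U).mulVec v))) := by
  rw [xu_map, Cm_map h2 hU, evu_mulVec, ← emb_map, evu_evN_map]

theorem evu_nat2 {A B W : Type} [CommRing A] [CommRing B] [CommRing W] (g : A →+* B) (p : ℕ)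
    (S2 : Sys W) (s : ℕ) (f : W →+* A) (c : ℕ → ℤ) (N : ℕ)
    (U U' T : A) (h2 : IsUnit (2 : A)) (hU : IsUnit (1 - 432 * U')) (v : Fin 3 → A) :
    evN c N (xu (g U')) (emb ((Cm (g U')).mulVec
        ((Sy2 (Mmat p 2 a2 (S2.dat s (g.comp f)) (g U) (g U') (g T))).mulVec
          (fun j => g (v j)))))
      = g (evN c N (xu U') (emb ((Cm U').mulVec
        ((Sy2 (Mmat p 2 a2 (S2.dat s f) U U' T)).mulVec v)))) := by
  have hl : Lead 2 a2 U' := (lead2_iff U').2 hU
  rw [Sys.dat_map, Mmat_map _ _ _ _ hl, Sy2_map, evu_mulVec, evu_nat1 g c N U' h2 hU]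

/-- the identity in a ring where `1 - 864 u` is a unit -/
theorem evu_gen {p : ℕ} [Fact p.Prime] (hp : 5 ≤ p) {W : Type} [CommRing W] {S3 S2 : Sys W}
    (h3 : S3.Good p 3 a3 c3) (h2 : S2.Good p 2 a2 c2) (hr : S3.rho = S2.rho) (s : ℕ)
    (R : Type) [CommRing R] (f : W →+* R) (hs : (p : R) ^ s = 0) (u u' t t' : R)
    (hu : IsUnit u) (hu1 : IsUnit (1 - 432 * u)) (hv : IsUnit (1 - 864 * u))
    (ht : (1 + f S3.rho * t) * u' = u ^ p)
    (ht' : (1 + f S3.rho * t') * xu u' = xu u ^ p) (N : ℕ) (v : Fin 3 → R) :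
    ∃ e : R, evN c3 (p * N) (xu u) (emb ((Cm u).mulVec v))
      = evN c3 N (xu u') (emb ((Cm u').mulVec
          ((Sy2 (Mmat p 2 a2 (S2.dat s f) u u' t)).mulVec v)))
        + f S3.rho ^ 3 * e * (N : R) ^ 3 * ((c3 N : ℤ) : R) := by
  have hpp : p.Prime := Fact.out
  have hok := h3.ok s R f hs
  have hrd : f S3.rho ∣ (p : R) := hok.rho_dvd
  have hrn : IsNilpotent (f S3.rho) := hok.rho_nilp
  have hUS := US hp h3 h2 hr s R f hs u u' t t' hu ⟨hu1, hv⟩ ht ht'
  have hl : Lead 3 a3 (xu u') := by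
    rw [lead3_iff, delta_xu]
    obtain ⟨q, hq⟩ := evu_frob p hp hrd ht 864
    push_cast at hq
    have h5 : 1 - 864 * u' = (1 - 864 * u) ^ p - f S3.rho * q := by rw [hq]; ring
    rw [h5]
    apply IsUnit.pow
    have h6 : IsNilpotent (-(f S3.rho * q)) := ((Commute.all _ _).isNilpotent_mul_right hrn).neg
    rw [sub_eq_add_neg]
    exact h6.isUnit_add_left_of_commute (hv.pow p) (Commute.all _ _)
  set F : R[X] := Phi p (S3.dat s f) (xu u) t' (emb ((Cm u).mulVec v)) with hF
  have e1 : evN c3 (p * N) (xu u) (emb ((Cm u).mulVec v)) = evN c3 N (xu u') F :=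
    evN_Phi hpp.pos hok N (xu u) (xu u') t' ht' _
  have e2 := red_spec hl F
  have e3 : red 3 a3 (xu u') F = (Cm u').mulVec
      ((Sy2 (Mmat p 2 a2 (S2.dat s f) u u' t)).mulVec v) := by
    rw [hF, red_Phi_emb (xu u) (xu u') t' hl, Matrix.mulVec_mulVec, hUS, Matrix.mulVec_mulVec]
  obtain ⟨q', hq'⟩ := (red_adm hl (f S3.rho) F (Phi_adm hok (xu u) t' _)).2.1
  rw [e3, hq'] at e2
  refine ⟨q'.eval (N : R) * xu u' ^ N, ?_⟩
  rw [e1]
  conv_lhs => rw [e2]
  rw [evN_add, evN_tau (by norm_num) a3 c3 c3_rec, eval_mul, eval_C]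
  ring

theorem evU {p : ℕ} [Fact p.Prime] (hp : 5 ≤ p) {W : Type} [CommRing W] {S3 S2 : Sys W}
    (h3 : S3.Good p 3 a3 c3) (h2 : S2.Good p 2 a2 c2) (hr : S3.rho = S2.rho) (s : ℕ)
    (R : Type) [CommRing R] (f : W →+* R) (hs : (p : R) ^ s = 0) (u u' t : R)
    (hu : IsUnit u) (hu1 : IsUnit (1 - 432 * u)) (hv : IsNilpotent (1 - 864 * u))
    (ht : (1 + f S3.rho * t) * u' = u ^ p) (N : ℕ) (v : Fin 3 → R) :
    ∃ e : R, evN c3 (p * N) (xu u) (emb ((Cm u).mulVec v))
      = evN c3 N (xu u') (emb ((Cm u').mulVec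
          ((Sy2 (Mmat p 2 a2 (S2.dat s f) u u' t)).mulVec v)))
        + f S3.rho ^ 3 * e * (N : R) ^ 3 * ((c3 N : ℤ) : R) := by
  have hpp : p.Prime := Fact.out
  have hok := h3.ok s R f hs
  have hrd : f S3.rho ∣ (p : R) := hok.rho_dvd
  have hrn : IsNilpotent (f S3.rho) := hok.rho_nilp
  have two : IsUnit (2 : R) := by
    have h1 : Nat.Coprime 2 p := by
      rw [Nat.coprime_primes Nat.prime_two Fact.out]
      omega
    have h4 := (h3.unit 2 h1).map f
    rwa [map_natCast] at h4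
  have three : IsUnit (3 : R) := by
    have h1 : Nat.Coprime 3 p := by
      rw [Nat.coprime_primes Nat.prime_three Fact.out]
      omega
    have h4 := (h3.unit 3 h1).map f
    rwa [map_natCast] at h4
  have u864 : IsUnit (864 : R) := by
    have h : (864 : R) = 2 ^ 5 * 3 ^ 3 := by norm_num
    rw [h]
    exact (two.pow 5).mul (three.pow 3)
  set C' : R →+* PowerSeries R := PowerSeries.C with hC'
  set φ0 : PowerSeries R →+* R := PowerSeries.constantCoeff with hφ0
  have hφC : ∀ x : R, φ0 (C' x) = x := fun x => PowerSeries.constantCoeff_C x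
  have hcomp : φ0.comp (C'.comp f) = f := by
    ext x
    rw [RingHom.comp_apply, RingHom.comp_apply, hφC]
  -- the unit `1 + rho t`
  have u1 : IsUnit (1 + f S3.rho * t) := by
    have h6 : IsNilpotent (f S3.rho * t) := (Commute.all _ _).isNilpotent_mul_right hrn
    exact h6.isUnit_one_add
  obtain ⟨w, hw⟩ := u1.exists_right_inv
  set U : PowerSeries R := C' u + PowerSeries.X with hU
  set U' : PowerSeries R := U ^ p * C' w with hU'
  have fU : φ0 U = u := by
    rw [hU, map_add, hφC, hφ0, PowerSeries.constantCoeff_X, add_zero]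
  have fU' : φ0 U' = u' := by
    rw [hU', map_mul, map_pow, fU, hφC, ← ht]
    linear_combination u' * hw
  have hT : (1 + C' (f S3.rho) * C' t) * U' = U ^ p := by
    have h1 : (1 + C' (f S3.rho) * C' t) * C' w = 1 := by
      rw [← map_mul, ← map_one C', ← map_add, ← map_mul, hw]
    rw [hU']
    linear_combination U ^ p * h1
  clear_value U'
  have hrdS : C' (f S3.rho) ∣ (p : PowerSeries R) := by
    have h1 := map_dvd C' hrd
    rwa [map_natCast] at h1
  obtain ⟨q, hq⟩ := evu_frob p hp hrdS hT 432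
  push_cast at hq
  have iU : IsUnit U := by
    rw [PowerSeries.isUnit_iff_constantCoeff]
    change IsUnit (φ0 U)
    rw [fU]
    exact hu
  have iU1 : IsUnit (1 - 432 * U) := by
    rw [PowerSeries.isUnit_iff_constantCoeff]
    change IsUnit (φ0 (1 - 432 * U))
    rw [map_sub, map_one, map_mul, map_ofNat, fU]
    exact hu1
  have nS : IsNilpotent (C' (f S3.rho)) := hrn.map C'
  have iU1' : IsUnit (1 - 432 * U') := by
    have h5 : 1 - 432 * U' = (1 - 432 * U) ^ p + -(C' (f S3.rho) * q) := by rw [hq]; ring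
    rw [h5]
    have h6 : IsNilpotent (-(C' (f S3.rho) * q)) :=
      ((Commute.all _ _).isNilpotent_mul_right nS).neg
    exact h6.isUnit_add_left_of_commute (iU1.pow p) (Commute.all _ _)
  obtain ⟨j, hj⟩ := iU1'.exists_right_inv
  -- the element `t3`
  obtain ⟨T3, hT3⟩ : ∃ T3 : PowerSeries R,
      (1 + C' (f S3.rho) * T3) * xu U' = xu U ^ p := by
    refine ⟨C' t + (1 + C' (f S3.rho) * C' t) * q * j, ?_⟩
    unfold xu
    rw [mul_pow, ← hT, hq]
    linear_combination (C' (f S3.rho) * (1 + C' (f S3.rho) * C' t) * q * U') * hj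
  -- the localization
  have c1 : PowerSeries.coeff 1 (1 - 864 * U) = -864 := by
    have h1 : (864 : PowerSeries R) = C' 864 := (map_ofNat C' 864).symm
    rw [hU, h1, mul_add, ← map_mul, map_sub, map_add]
    rw [hC', PowerSeries.coeff_C_mul, PowerSeries.coeff_one_X, PowerSeries.coeff_C,
      PowerSeries.coeff_one]
    simp
  have n0 : IsNilpotent (PowerSeries.constantCoeff (1 - 864 * U)) := by
    change IsNilpotent (φ0 (1 - 864 * U))
    rw [map_sub, map_one, map_mul, map_ofNat, fU]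
    exact hv
  have l1 : IsUnit (PowerSeries.coeff 1 (1 - 864 * U)) := by
    rw [c1]
    exact u864.neg
  obtain ⟨L, iL, i, hinj, hFu, hfr⟩ := loc_nzd (1 - 864 * U)
    (fun G hG => ps_nzd (1 - 864 * U) G n0 l1 hG)
  have hsL : (p : L) ^ s = 0 := by
    have h1 : (p : L) ^ s = i (C' ((p : R) ^ s)) := by
      rw [map_pow, map_pow, map_natCast, map_natCast]
    rw [h1, hs, map_zero, map_zero]
  have twoS : IsUnit (2 : PowerSeries R) := by
    have h1 := two.map C'
    rwa [map_ofNat] at h1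
  obtain ⟨x, hx⟩ := evu_gen hp h3 h2 hr s L (i.comp (C'.comp f)) hsL (i U) (i U') (i (C' t))
    (i T3) (iU.map i) (by rw [← map_ofNat i 432, ← map_mul, ← map_one i, ← map_sub]; exact iU1.map i)
    (by rw [← map_ofNat i 864, ← map_mul, ← map_one i, ← map_sub]; exact hFu)
    (by
      rw [RingHom.comp_apply, RingHom.comp_apply, ← map_pow, ← hT, map_mul, map_add, map_one,
        map_mul])
    (by
      rw [RingHom.comp_apply, RingHom.comp_apply, xu_map, xu_map, ← map_pow, ← hT3, map_mul,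
        map_add, map_one, map_mul]) N (fun j => i (C' (v j)))
  rw [evu_nat1 i c3 (p * N) U twoS iU1 (fun j => C' (v j)),
    evu_nat2 i p S2 s (C'.comp f) c3 N U U' (C' t) twoS iU1' (fun j => C' (v j))] at hx
  obtain ⟨G, k, hG⟩ := hfr x
  set A1 : PowerSeries R := evN c3 (p * N) (xu U) (emb ((Cm U).mulVec (fun j => C' (v j))))
    with hA1
  set A2 : PowerSeries R := evN c3 N (xu U') (emb ((Cm U').mulVec
        ((Sy2 (Mmat p 2 a2 (S2.dat s (C'.comp f)) U U' (C' t))).mulVec (fun j => C' (v j)))))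
    with hA2
  have key : (1 - 864 * U) ^ k * (A1 - A2)
      = PowerSeries.C (f S3.rho ^ 3 * (N : R) ^ 3 * ((c3 N : ℤ) : R)) * G := by
    apply hinj
    have h1 : i (PowerSeries.C (f S3.rho ^ 3 * (N : R) ^ 3 * ((c3 N : ℤ) : R)))
        = (i.comp (C'.comp f)) S3.rho ^ 3 * (N : L) ^ 3 * ((c3 N : ℤ) : L) := by
      rw [← hC', map_mul, map_mul, map_mul, map_mul, map_pow, map_pow, map_pow, map_pow,
        map_natCast, map_natCast, map_intCast, map_intCast, RingHom.comp_apply,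
        RingHom.comp_apply]
    rw [map_mul, map_mul, map_sub, hx, h1, ← hG, map_pow]
    ring
  obtain ⟨G', hG'⟩ := ps_div _ _ _ _ n0 l1 k key
  refine ⟨φ0 G', ?_⟩
  have h7 : A1 = A2 + C' (f S3.rho ^ 3 * (N : R) ^ 3 * ((c3 N : ℤ) : R)) * G' := by
    rw [hC', ← hG']
    ring
  have h8 := congrArg φ0 h7
  rw [map_add, map_mul, hφC] at h8
  have b1 : φ0 A1 = evN c3 (p * N) (xu u) (emb ((Cm u).mulVec v)) := by
    have h9 := evu_nat1 φ0 c3 (p * N) U twoS iU1 (fun j => C' (v j))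
    rw [fU] at h9
    simp only [hφC] at h9
    exact h9.symm
  have b2 : φ0 A2 = evN c3 N (xu u') (emb ((Cm u').mulVec
          ((Sy2 (Mmat p 2 a2 (S2.dat s f) u u' t)).mulVec v))) := by
    have h9 := evu_nat2 φ0 p S2 s (C'.comp f) c3 N U U' (C' t) twoS iU1' (fun j => C' (v j))
    rw [fU, fU', hcomp, hφC] at h9
    simp only [hφC] at h9
    exact h9.symm
  rw [b1, b2] at h8
  rw [h8]
  ring

end Pool.Agent.H.MP_7425ae_nt
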