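import Pool.Agent.H.MP_7425ae_nt.Der

/-! The polynomial `Ex_t(X) = (1 + rho t)^X = sum_i (rho^i / i!) t^i X(X-1)...(X-i+1)`. -/

set_option autoImplicit false

open Polynomial

namespace Pool.Agent.H.MP_7425ae_nt

variable {R S : Type} [CommRing R] [CommRing S]

theorem expoly_sum (D : Dat R) (t : R) (N : ℕ) (hN : D.dp.natDegree < N) :
    Ex D t = ∑ i ∈ Finset.range N, C (D.dp.coeff i * t ^ i) * descPochhammer R i := by
  rw [Ex, Polynomial.sum_over_range' D.dp (fun n => by simp) N hN]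

theorem expoly_comp (i : ℕ) : (descPochhammer R (i + 1)).comp (X + 1) =
    descPochhammer R (i + 1) + C ((i : R) + 1) * descPochhammer R i := by
  rw [descPochhammer_succ_left, mul_comp, X_comp, comp_assoc]
  have h : ((X : R[X]) - 1).comp (X + 1) = X := by simp
  rw [h, comp_X, ← descPochhammer_succ_left, descPochhammer_succ_right, C_add, C_1,
    map_natCast]
  ring

theorem expoly_coeff_low {i j : ℕ} (h : j < i) : (descPochhammer R j).coeff i = 0 := by
  rw [← descPochhammer_map (Int.castRingHom R) j]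
  rw [coeff_map, coeff_eq_zero_of_natDegree_lt (by rwa [descPochhammer_natDegree]), map_zero]

theorem expoly_coeff_zero {i : ℕ} (h : i ≠ 0) : (descPochhammer R i).coeff 0 = 0 := by
  rw [coeff_zero_eq_eval_zero, descPochhammer_ne_zero_eval_zero _ h]

theorem Ex_map (D : Dat R) (t : R) (f : R →+* S) :
    (Ex D t).map f = Ex (D.map f) (f t) := by
  rw [expoly_sum D t (D.dp.natDegree + 1) (Nat.lt_succ_self _),
    expoly_sum (D.map f) (f t) (D.dp.natDegree + 1)
      (Nat.lt_succ_of_le (natDegree_map_le (f := f) (p := D.dp))), Polynomial.map_sum]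
  refine Finset.sum_congr rfl fun i _ => ?_
  rw [Polynomial.map_mul, map_C, descPochhammer_map, map_mul, map_pow]
  show _ = C ((D.dp.map f).coeff i * f t ^ i) * descPochhammer S i
  rw [coeff_map]

/-- from `(X+1)_i = (X)_i + i (X)_{i-1}` and `i dp_i = rho dp_{i-1}` -/
theorem Ex_shift {p n : ℕ} {a : ℤ[X]} {c : ℕ → ℤ} {D : Dat R} (h : D.OK p n a c) (t : R) :
    (Ex D t).comp (X + 1) = C (1 + D.rho * t) * Ex D t := by
  have h1 := expoly_sum D t (D.dp.natDegree + 1) (Nat.lt_succ_self _)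
  have h2 := expoly_sum D t (D.dp.natDegree + 1 + 1) (by omega)
  have h3 : (Ex D t).comp (X + 1) = Ex D t +
      ∑ i ∈ Finset.range (D.dp.natDegree + 1),
        C (D.dp.coeff (i + 1) * t ^ (i + 1)) * (C ((i : R) + 1) * descPochhammer R i) := by
    conv_lhs => rw [h2]
    conv_rhs => rw [h2]
    rw [Finset.sum_range_succ', add_comp, Polynomial.sum_comp]
    have h4 : ∀ i ∈ Finset.range (D.dp.natDegree + 1),
        (C (D.dp.coeff (i + 1) * t ^ (i + 1)) * descPochhammer R (i + 1)).comp (X + 1) =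
        C (D.dp.coeff (i + 1) * t ^ (i + 1)) * descPochhammer R (i + 1) +
        C (D.dp.coeff (i + 1) * t ^ (i + 1)) * (C ((i : R) + 1) * descPochhammer R i) := by
      intro i _
      rw [mul_comp, C_comp, expoly_comp, mul_add]
    rw [Finset.sum_congr rfl h4, Finset.sum_add_distrib]
    have h5 : (C (D.dp.coeff 0 * t ^ 0) * descPochhammer R 0).comp (X + 1) =
        C (D.dp.coeff 0 * t ^ 0) * descPochhammer R 0 := by
      rw [descPochhammer_zero, mul_one, C_comp]
    rw [h5]
    ring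
  rw [h3, C_add, C_1, add_mul, one_mul]
  congr 1
  rw [h1, Finset.mul_sum]
  refine Finset.sum_congr rfl fun i _ => ?_
  rw [← mul_assoc, ← mul_assoc, ← C_mul, ← C_mul]
  congr 2
  have := h.dp_succ i
  calc D.dp.coeff (i + 1) * t ^ (i + 1) * ((i : R) + 1)
      = (((i : R) + 1) * D.dp.coeff (i + 1)) * t ^ (i + 1) := by ring
    _ = _ := by rw [this]; ring

theorem Ex_coeff_zero {p n : ℕ} {a : ℤ[X]} {c : ℕ → ℤ} {D : Dat R} (h : D.OK p n a c) (t : R) :
    (Ex D t).coeff 0 = 1 := by
  rw [expoly_sum D t (D.dp.natDegree + 1) (Nat.lt_succ_self _), Finset.sum_range_succ',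
    coeff_add, finsetSum_coeff, Finset.sum_eq_zero, zero_add, descPochhammer_zero, mul_one,
    pow_zero, mul_one, coeff_C_zero, h.dp_zero]
  intro i _
  rw [coeff_C_mul, expoly_coeff_zero (Nat.succ_ne_zero i), mul_zero]

theorem Ex_eval {p n : ℕ} {a : ℤ[X]} {c : ℕ → ℤ} {D : Dat R} (h : D.OK p n a c) (t : R)
    (k : ℕ) : (Ex D t).eval (k : R) = (1 + D.rho * t) ^ k := by
  induction k with
  | zero => rw [Nat.cast_zero, ← coeff_zero_eq_eval_zero, Ex_coeff_zero h, pow_zero]
  | succ k ih =>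
    have h1 := congrArg (fun P => eval (k : R) P) (Ex_shift h t)
    simp only [eval_comp, eval_add, eval_X, eval_one, eval_mul, eval_C] at h1
    rw [Nat.cast_add, Nat.cast_one, h1, ih, pow_succ]
    ring

theorem Ex_adm {p n : ℕ} {a : ℤ[X]} {c : ℕ → ℤ} {D : Dat R} (h : D.OK p n a c) (t : R) :
    ∀ i : ℕ, D.rho ^ (min i 3) ∣ (Ex D t).coeff i := by
  intro i
  rw [expoly_sum D t (D.dp.natDegree + 1) (Nat.lt_succ_self _), finsetSum_coeff]
  refine Finset.dvd_sum fun j _ => ?_
  rw [coeff_C_mul]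
  rcases lt_or_ge j i with hj | hj
  · rw [expoly_coeff_low hj, mul_zero]
    exact dvd_zero _
  · refine Dvd.dvd.mul_right (Dvd.dvd.mul_right ?_ _) _
    exact (pow_dvd_pow D.rho (by omega)).trans (h.dp_dvd j)

theorem Ex_zero {p n : ℕ} {a : ℤ[X]} {c : ℕ → ℤ} {D : Dat R} (h : D.OK p n a c) :
    Ex D 0 = 1 := by
  rw [expoly_sum D 0 (D.dp.natDegree + 1) (Nat.lt_succ_self _), Finset.sum_range_succ',
    Finset.sum_eq_zero, zero_add, descPochhammer_zero, mul_one, pow_zero, mul_one, h.dp_zero, C_1]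
  intro i _
  rw [pow_succ, mul_zero, mul_zero, C_0, zero_mul]

/-- `Ex_t` depends only on `rho t`: for `i >= 1` the coefficient `dp_i` is a multiple of `rho` -/
theorem Ex_congr {p n : ℕ} {a : ℤ[X]} {c : ℕ → ℤ} {D : Dat R} (h : D.OK p n a c) (t t' : R)
    (ht : D.rho * t = D.rho * t') : Ex D t = Ex D t' := by
  have hp : ∀ i : ℕ, D.rho * t ^ i = D.rho * t' ^ i := by
    intro i
    induction i with
    | zero => rw [pow_zero, pow_zero]
    | succ i ih =>
      calc D.rho * t ^ (i + 1) = (D.rho * t ^ i) * t := by ring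
        _ = (D.rho * t) * t' ^ i := by rw [ih]; ring
        _ = D.rho * t' ^ (i + 1) := by rw [ht]; ring
  rw [expoly_sum D t (D.dp.natDegree + 1) (Nat.lt_succ_self _),
    expoly_sum D t' (D.dp.natDegree + 1) (Nat.lt_succ_self _)]
  refine Finset.sum_congr rfl fun i _ => ?_
  congr 2
  rcases Nat.eq_zero_or_pos i with hi | hi
  · subst hi
    rw [pow_zero, pow_zero]
  · have h1 : D.rho ∣ D.dp.coeff i :=
      (dvd_pow_self D.rho (by omega : min i 3 ≠ 0)).trans (h.dp_dvd i)
    obtain ⟨e, he⟩ := h1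
    rw [he]
    calc D.rho * e * t ^ i = e * (D.rho * t ^ i) := by ring
      _ = _ := by rw [hp]; ring

/-- if `d` kills the coefficients `dp_i` and `rho dt = theta (1 + rho t)` then
`d Ex_t = theta X Ex_t`; uses `i dp_i (X)_i = rho (X - i + 1) dp_{i-1} (X)_{i-1}`. -/
theorem Ex_deriv {p n : ℕ} {a : ℤ[X]} {c : ℕ → ℤ} {D : Dat R} (h : D.OK p n a c)
    {d : R → R} (hd : IsDer d) (hk : ∀ i, d (D.dp.coeff i) = 0) (t θ : R)
    (ht : D.rho * d t = θ * (1 + D.rho * t)) :
    pD d (Ex D t) = C θ * X * Ex D t := by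
  have hpd := pD_isDer hd
  have hC : ∀ x : R, pD d (C x) = C (d x) := by
    intro x
    ext i
    rw [coeff_pD hd, coeff_C, coeff_C]
    split_ifs
    · rfl
    · exact hd.zero
  have hdes : ∀ i : ℕ, pD d (descPochhammer R i) = 0 := by
    intro i
    ext j
    rw [coeff_pD hd, ← descPochhammer_map (Int.castRingHom R) i, coeff_map, eq_intCast,
      hd.intCast, coeff_zero]
  set M := D.dp.natDegree + 1 with hM
  have h1 := expoly_sum D t M (Nat.lt_succ_self _)
  have h2 := expoly_sum D t (M + 1) (by omega)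
  -- the derivative of the sum
  have h3 : pD d (Ex D t) = ∑ i ∈ Finset.range M,
      C (D.dp.coeff i * t ^ i * (θ * (1 + D.rho * t))) *
        (descPochhammer R i * (X - (i : R[X]))) := by
    rw [h2, hpd.sum, Finset.sum_range_succ']
    have h4 : pD d (C (D.dp.coeff 0 * t ^ 0) * descPochhammer R 0) = 0 := by
      rw [pow_zero, mul_one, descPochhammer_zero, mul_one, hC, hk, C_0]
    rw [h4, add_zero]
    refine Finset.sum_congr rfl fun i _ => ?_
    rw [hpd.mul, hdes, mul_zero, zero_add, hC, hd.mul, hk, zero_mul, add_zero, hd.pow,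
      ← descPochhammer_succ_right]
    congr 2
    have := h.dp_succ i
    calc D.dp.coeff (i + 1) * (((i : R) + 1) * t ^ i * d t)
        = (((i : R) + 1) * D.dp.coeff (i + 1)) * t ^ i * d t := by ring
      _ = D.dp.coeff i * t ^ i * (D.rho * d t) := by rw [this]; ring
      _ = _ := by rw [ht]
  -- the auxiliary sum
  obtain ⟨E', hE'⟩ : ∃ E' : R[X], E' = ∑ i ∈ Finset.range M,
      C (D.dp.coeff i * t ^ i) * ((i : R[X]) * descPochhammer R i) := ⟨_, rfl⟩
  have hXE : ∑ i ∈ Finset.range M,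
      C (D.dp.coeff i * t ^ i) * (descPochhammer R i * (X - (i : R[X]))) = X * Ex D t - E' := by
    rw [h1, hE', Finset.mul_sum, ← Finset.sum_sub_distrib]
    refine Finset.sum_congr rfl fun i _ => ?_
    ring
  have h5 : pD d (Ex D t) = C (θ * (1 + D.rho * t)) * (X * Ex D t - E') := by
    rw [h3, ← hXE, Finset.mul_sum]
    refine Finset.sum_congr rfl fun i _ => ?_
    rw [C_mul (a := D.dp.coeff i * t ^ i)]
    ring
  have h6 : E' = C (D.rho * t) * (X * Ex D t - E') := by
    have hz : D.dp.coeff M = 0 := coeff_eq_zero_of_natDegree_lt (by omega)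
    have h7 : E' = ∑ i ∈ Finset.range (M + 1),
        C (D.dp.coeff i * t ^ i) * ((i : R[X]) * descPochhammer R i) := by
      rw [Finset.sum_range_succ, ← hE', hz, zero_mul, C_0, zero_mul, add_zero]
    conv_lhs => rw [h7]
    rw [Finset.sum_range_succ', Nat.cast_zero, zero_mul, mul_zero, add_zero, ← hXE,
      Finset.mul_sum]
    refine Finset.sum_congr rfl fun i _ => ?_
    rw [descPochhammer_succ_right]
    have := h.dp_succ i
    have h8 : C (D.dp.coeff (i + 1) * t ^ (i + 1)) * (((i + 1 : ℕ) : R[X])) =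
        C (D.rho * t) * C (D.dp.coeff i * t ^ i) := by
      rw [← C_eq_natCast, ← C_mul, ← C_mul]
      congr 1
      rw [Nat.cast_add, Nat.cast_one]
      calc D.dp.coeff (i + 1) * t ^ (i + 1) * ((i : R) + 1)
          = (((i : R) + 1) * D.dp.coeff (i + 1)) * t ^ (i + 1) := by ring
        _ = _ := by rw [this]; ring
    rw [← mul_assoc, h8]
    ring
  have h9 : C (1 + D.rho * t) * (X * Ex D t - E') = X * Ex D t := by
    rw [C_add, C_1, add_mul, one_mul, ← h6]
    ring
  rw [h5, C_mul, mul_assoc, h9]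
  ring

end Pool.Agent.H.MP_7425ae_nt
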