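import Mathlib

/-! Functions on the naturals with integral falling factorial expansions over `ℤ_[p]`. -/

set_option autoImplicit false

open Polynomial Finset

namespace Pool.Agent.H.MP_7425ae_nt

variable {p : ℕ} [Fact p.Prime]

/-- `f(k) = sum_j a_j k(k-1)...(k-j+1)` with `a_j` in `ℤ_[p]` -/
def FI (f : ℕ → ℤ_[p]) : Prop :=
  ∃ a : ℕ → ℤ_[p], ∀ k : ℕ, f k = ∑ j ∈ range (k + 1), a j * ((k.descFactorial j : ℕ) : ℤ_[p])

theorem falla_zero (k j : ℕ) (h : k < j) : ((k.descFactorial j : ℕ) : ℤ_[p]) = 0 := by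
  rw [Nat.descFactorial_eq_zero_iff_lt.2 h, Nat.cast_zero]

theorem falla_ext (a : ℕ → ℤ_[p]) (k : ℕ) :
    ∑ j ∈ range (k + 2), a j * ((k.descFactorial j : ℕ) : ℤ_[p])
      = ∑ j ∈ range (k + 1), a j * ((k.descFactorial j : ℕ) : ℤ_[p]) := by
  rw [Finset.sum_range_succ _ (k + 1), falla_zero k (k + 1) (Nat.lt_succ_self k), mul_zero,
    add_zero]

theorem falla_succ (k l : ℕ) :
    ((k.descFactorial (l + 1) : ℕ) : ℤ_[p])
      = ((k : ℤ_[p]) - l) * ((k.descFactorial l : ℕ) : ℤ_[p]) := by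
  rcases Nat.lt_or_ge k l with h | h
  · rw [falla_zero k (l + 1) (by omega), falla_zero k l h, mul_zero]
  · rw [Nat.descFactorial_succ, Nat.cast_mul, Nat.cast_sub h]

theorem FI.const (c : ℤ_[p]) : FI (fun _ => c) := by
  refine ⟨fun j => if j = 0 then c else 0, ?_⟩
  intro k
  rw [Finset.sum_eq_single 0]
  · simp
  · intro j _ hj
    simp [hj]
  · intro h
    simp at h

theorem FI.natCast : FI (fun k => ((k : ℕ) : ℤ_[p])) := by
  refine ⟨fun j => if j = 1 then 1 else 0, ?_⟩
  intro k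
  rcases Nat.eq_zero_or_pos k with h | h
  · subst h
    simp
  · rw [Finset.sum_eq_single 1]
    · simp
    · intro j _ hj
      simp [hj]
    · intro h1
      exact absurd (Finset.mem_range.2 (by omega)) h1

theorem FI.add {f g : ℕ → ℤ_[p]} (hf : FI f) (hg : FI g) : FI (fun k => f k + g k) := by
  obtain ⟨a, ha⟩ := hf
  obtain ⟨b, hb⟩ := hg
  refine ⟨fun j => a j + b j, ?_⟩
  intro k
  simp only [ha k, hb k, add_mul, Finset.sum_add_distrib]

theorem FI.neg {f : ℕ → ℤ_[p]} (hf : FI f) : FI (fun k => - f k) := by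
  obtain ⟨a, ha⟩ := hf
  refine ⟨fun j => - a j, ?_⟩
  intro k
  simp only [ha k, neg_mul, Finset.sum_neg_distrib]

theorem falla_mul_desc {f : ℕ → ℤ_[p]} (hf : FI f) (j : ℕ) :
    ∃ c : ℕ → ℤ_[p], (∀ l < j, c l = 0) ∧ ∀ k : ℕ, f k * ((k.descFactorial j : ℕ) : ℤ_[p])
      = ∑ l ∈ range (k + 1), c l * ((k.descFactorial l : ℕ) : ℤ_[p]) := by
  induction j with
  | zero =>
    obtain ⟨a, ha⟩ := hf
    refine ⟨a, fun l hl => absurd hl (Nat.not_lt_zero l), ?_⟩
    intro k
    simp [ha k]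
  | succ j ih =>
    obtain ⟨c, hc0, hc⟩ := ih
    refine ⟨fun l => match l with
      | 0 => (0 - (j : ℤ_[p])) * c 0
      | (l + 1) => c l + (((l : ℤ_[p]) + 1) - j) * c (l + 1), ?_, ?_⟩
    · intro l hl
      cases l with
      | zero =>
        show (0 - (j : ℤ_[p])) * c 0 = 0
        rcases Nat.eq_zero_or_pos j with h | h
        · subst h; simp
        · rw [hc0 0 h, mul_zero]
      | succ l =>
        show c l + (((l : ℤ_[p]) + 1) - j) * c (l + 1) = 0
        rw [hc0 l (by omega), zero_add]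
        rcases Nat.lt_or_ge (l + 1) j with h | h
        · rw [hc0 (l + 1) h, mul_zero]
        · have hj : j = l + 1 := by omega
          subst hj
          push_cast
          ring
    · intro k
      rw [← falla_ext, Finset.sum_range_succ']
      rw [falla_succ k j]
      have h1 : f k * (((k : ℤ_[p]) - j) * ((k.descFactorial j : ℕ) : ℤ_[p]))
          = ∑ l ∈ range (k + 1), c l * (((k : ℤ_[p]) - j) * ((k.descFactorial l : ℕ) : ℤ_[p])) := by
        have := hc k
        calc f k * (((k : ℤ_[p]) - j) * ((k.descFactorial j : ℕ) : ℤ_[p]))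
            = ((k : ℤ_[p]) - j) * (f k * ((k.descFactorial j : ℕ) : ℤ_[p])) := by ring
          _ = _ := by
            rw [this, Finset.mul_sum]
            exact Finset.sum_congr rfl (fun l _ => by ring)
      rw [h1]
      have h2 : ∀ l : ℕ, c l * (((k : ℤ_[p]) - j) * ((k.descFactorial l : ℕ) : ℤ_[p]))
          = c l * ((k.descFactorial (l + 1) : ℕ) : ℤ_[p])
            + ((l : ℤ_[p]) - j) * c l * ((k.descFactorial l : ℕ) : ℤ_[p]) := by
        intro l
        rw [falla_succ k l]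
        ring
      simp only [h2, Finset.sum_add_distrib]
      have h3 : ∑ l ∈ range (k + 1), ((l : ℤ_[p]) - j) * c l * ((k.descFactorial l : ℕ) : ℤ_[p])
          = ∑ l ∈ range (k + 2), ((l : ℤ_[p]) - j) * c l * ((k.descFactorial l : ℕ) : ℤ_[p]) :=
        (falla_ext (fun l : ℕ => ((l : ℤ_[p]) - (j : ℤ_[p])) * c l) k).symm
      rw [h3, Finset.sum_range_succ' _ (k + 1), ← add_assoc, ← Finset.sum_add_distrib]
      congr 1
      · refine Finset.sum_congr rfl ?_
        intro l _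
        push_cast
        ring

/-- `(k)_i (k)_j = sum_l C(i,l) C(j,l) l! (k)_{i+j-l}` -/
theorem FI.mul {f g : ℕ → ℤ_[p]} (hf : FI f) (hg : FI g) : FI (fun k => f k * g k) := by
  obtain ⟨b, hb⟩ := hg
  choose c hc0 hc using falla_mul_desc hf
  refine ⟨fun l => ∑ j ∈ range (l + 1), b j * c j l, ?_⟩
  intro k
  have h1 : f k * g k = ∑ j ∈ range (k + 1), ∑ l ∈ range (k + 1),
      b j * c j l * ((k.descFactorial l : ℕ) : ℤ_[p]) := by
    rw [hb k, Finset.mul_sum]
    refine Finset.sum_congr rfl ?_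
    intro j _
    calc f k * (b j * ((k.descFactorial j : ℕ) : ℤ_[p]))
        = b j * (f k * ((k.descFactorial j : ℕ) : ℤ_[p])) := by ring
      _ = _ := by
        rw [hc j k, Finset.mul_sum]
        exact Finset.sum_congr rfl (fun l _ => by ring)
  show f k * g k = _
  rw [h1, Finset.sum_comm]
  refine Finset.sum_congr rfl ?_
  intro l hl
  rw [Finset.sum_mul]
  symm
  apply Finset.sum_subset
  · intro j hj
    simp only [Finset.mem_range] at hj hl ⊢
    omega
  · intro j _ hj2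
    have hlj : l < j := by
      simp only [Finset.mem_range] at hj2
      omega
    rw [hc0 j l hlj, mul_zero, zero_mul]

/-- `(k+1)_j = (k)_j + j (k)_{j-1}` -/
theorem FI.shift {f : ℕ → ℤ_[p]} (hf : FI f) : FI (fun k => f (k + 1)) := by
  obtain ⟨a, ha⟩ := hf
  refine ⟨fun j => a j + ((j : ℤ_[p]) + 1) * a (j + 1), ?_⟩
  intro k
  show f (k + 1) = _
  rw [ha (k + 1), Finset.sum_range_succ' _ (k + 1)]
  have h1 : ∀ j : ℕ, (((k + 1).descFactorial (j + 1) : ℕ) : ℤ_[p])
      = ((k.descFactorial (j + 1) : ℕ) : ℤ_[p])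
        + ((j : ℤ_[p]) + 1) * ((k.descFactorial j : ℕ) : ℤ_[p]) := by
    intro j
    rw [Nat.succ_descFactorial_succ, falla_succ k j]
    push_cast
    ring
  simp only [h1, mul_add, add_mul, Finset.sum_add_distrib]
  rw [← falla_ext a k, Finset.sum_range_succ' _ (k + 1)]
  simp only [Nat.descFactorial_zero]
  have h2 : ∑ x ∈ range (k + 1), a (x + 1) * (((x : ℤ_[p]) + 1) * ((k.descFactorial x : ℕ) : ℤ_[p]))
      = ∑ x ∈ range (k + 1), ((x : ℤ_[p]) * a (x + 1) * ((k.descFactorial x : ℕ) : ℤ_[p])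
        + 1 * a (x + 1) * ((k.descFactorial x : ℕ) : ℤ_[p])) :=
    Finset.sum_congr rfl (fun x _ => by ring)
  have h3 : ∑ x ∈ range (k + 1), a (x + 1) * ((x : ℤ_[p]) * ((k.descFactorial x : ℕ) : ℤ_[p])
        + 1 * ((k.descFactorial x : ℕ) : ℤ_[p]))
      = ∑ x ∈ range (k + 1), ((x : ℤ_[p]) * a (x + 1) * ((k.descFactorial x : ℕ) : ℤ_[p])
        + 1 * a (x + 1) * ((k.descFactorial x : ℕ) : ℤ_[p])) :=
    Finset.sum_congr rfl (fun x _ => by ring)
  have h4 : ∑ x ∈ range (k + 1), (a (x + 1) * ((x : ℤ_[p]) * ((k.descFactorial x : ℕ) : ℤ_[p]))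
        + a (x + 1) * (1 * ((k.descFactorial x : ℕ) : ℤ_[p])))
      = ∑ x ∈ range (k + 1), ((x : ℤ_[p]) * a (x + 1) * ((k.descFactorial x : ℕ) : ℤ_[p])
        + 1 * a (x + 1) * ((k.descFactorial x : ℕ) : ℤ_[p])) :=
    Finset.sum_congr rfl (fun x _ => by ring)
  rw [Finset.sum_add_distrib] at h4
  rw [Finset.sum_add_distrib] at h4
  linear_combination h4

theorem falla_pow (n : ℕ) : FI (fun k => (((k : ℕ) : ℤ_[p])) ^ n) := by
  induction n with
  | zero => simpa using FI.const (p := p) 1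
  | succ n ih =>
    have := FI.mul ih (FI.natCast (p := p))
    simpa [pow_succ] using this

theorem FI.poly (P : ℤ_[p][X]) : FI (fun k => P.eval (k : ℤ_[p])) := by
  induction P using Polynomial.induction_on' with
  | add P Q hP hQ =>
    have := FI.add hP hQ
    simpa [Polynomial.eval_add] using this
  | monomial n a =>
    have := FI.mul (FI.const (p := p) a) (falla_pow n)
    simpa [Polynomial.eval_monomial] using this

end Pool.Agent.H.MP_7425ae_nt
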