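import Pool.Agent.H.MP_7425ae_nt.FallA

/-! Divisibility of polynomials from their values. -/

set_option autoImplicit false

open Polynomial Finset

namespace Pool.Agent.H.MP_7425ae_nt

variable {p : ℕ} [Fact p.Prime]

theorem fallb_expand (n : ℕ) : ∀ P : ℤ_[p][X], P.natDegree ≤ n →
    ∃ b : ℕ → ℤ_[p], (∀ j, n < j → b j = 0) ∧
      P = ∑ j ∈ range (n + 1), C (b j) * descPochhammer ℤ_[p] j := by
  induction n with
  | zero =>
    intro P hP
    refine ⟨fun j => if j = 0 then P.coeff 0 else 0, ?_, ?_⟩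
    · intro j hj
      show (if j = 0 then P.coeff 0 else 0) = 0
      rw [if_neg (by omega)]
    · simp only [zero_add, Finset.sum_range_one, if_true, descPochhammer_zero, mul_one]
      exact Polynomial.eq_C_of_natDegree_le_zero hP
  | succ n ih =>
    intro P hP
    have hmonic := monic_descPochhammer ℤ_[p] (n + 1)
    have hdeg : (descPochhammer ℤ_[p] (n + 1)).natDegree = n + 1 := descPochhammer_natDegree _ _
    obtain ⟨b, hb0, hb⟩ := ih (P - C (P.coeff (n + 1)) * descPochhammer ℤ_[p] (n + 1)) (by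
      rw [Polynomial.natDegree_le_iff_coeff_eq_zero]
      intro N hN
      rw [Polynomial.coeff_sub, Polynomial.coeff_C_mul]
      rcases Nat.lt_or_ge (n + 1) N with h | h
      · have g1 : P.coeff N = 0 :=
          Polynomial.coeff_eq_zero_of_natDegree_lt (lt_of_le_of_lt hP h)
        have g2 : (descPochhammer ℤ_[p] (n + 1)).coeff N = 0 :=
          Polynomial.coeff_eq_zero_of_natDegree_lt (by rw [hdeg]; exact h)
        rw [g1, g2]
        simp
      · have hN' : N = n + 1 := by omega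
        subst hN'
        have h1 : (descPochhammer ℤ_[p] (n + 1)).coeff (n + 1) = 1 := by
          have := hmonic.coeff_natDegree
          rwa [hdeg] at this
        rw [h1]
        ring)
    refine ⟨fun j => if j = n + 1 then P.coeff (n + 1) else b j, ?_, ?_⟩
    · intro j hj
      show (if j = n + 1 then P.coeff (n + 1) else b j) = 0
      rw [if_neg (by omega)]
      exact hb0 j (by omega)
    · show P = ∑ x ∈ range (n + 1 + 1), C (if x = n + 1 then P.coeff (n + 1) else b x)
          * descPochhammer ℤ_[p] x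
      rw [Finset.sum_range_succ, if_pos rfl]
      have h2 : ∑ x ∈ range (n + 1), C (if x = n + 1 then P.coeff (n + 1) else b x)
          * descPochhammer ℤ_[p] x = ∑ x ∈ range (n + 1), C (b x) * descPochhammer ℤ_[p] x := by
        refine Finset.sum_congr rfl ?_
        intro x hx
        have := Finset.mem_range.1 hx
        rw [if_neg (by omega)]
      rw [h2, ← hb]
      ring

theorem fallb_eval (n : ℕ) (b : ℕ → ℤ_[p]) (hb : ∀ j, n < j → b j = 0) (k : ℕ) :
    (∑ j ∈ range (n + 1), C (b j) * descPochhammer ℤ_[p] j).eval (k : ℤ_[p])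
      = ∑ j ∈ range (k + 1), b j * ((k.descFactorial j : ℕ) : ℤ_[p]) := by
  rw [Polynomial.eval_finsetSum]
  have h1 : ∀ j ∈ range (n + 1), (C (b j) * descPochhammer ℤ_[p] j).eval (k : ℤ_[p])
      = b j * ((k.descFactorial j : ℕ) : ℤ_[p]) := by
    intro j _
    rw [Polynomial.eval_mul, Polynomial.eval_C, descPochhammer_eval_eq_descFactorial]
  rw [Finset.sum_congr rfl h1]
  have hA : ∑ j ∈ range (n + 1), b j * ((k.descFactorial j : ℕ) : ℤ_[p])
      = ∑ j ∈ range (max n k + 1), b j * ((k.descFactorial j : ℕ) : ℤ_[p]) := by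
    apply Finset.sum_subset
    · intro j hj
      simp only [Finset.mem_range] at hj ⊢
      omega
    · intro j _ hj
      have : n < j := by
        simp only [Finset.mem_range] at hj
        omega
      rw [hb j this, zero_mul]
  have hB : ∑ j ∈ range (k + 1), b j * ((k.descFactorial j : ℕ) : ℤ_[p])
      = ∑ j ∈ range (max n k + 1), b j * ((k.descFactorial j : ℕ) : ℤ_[p]) := by
    apply Finset.sum_subset
    · intro j hj
      simp only [Finset.mem_range] at hj ⊢
      omega
    · intro j _ hj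
      have : k < j := by
        simp only [Finset.mem_range] at hj
        omega
      rw [falla_zero k j this, mul_zero]
  rw [hA, hB]

theorem fallb_unique (u v : ℕ → ℤ_[p])
    (h : ∀ k : ℕ, ∑ j ∈ range (k + 1), u j * ((k.descFactorial j : ℕ) : ℤ_[p])
      = ∑ j ∈ range (k + 1), v j * ((k.descFactorial j : ℕ) : ℤ_[p])) (j : ℕ) : u j = v j := by
  induction j using Nat.strong_induction_on with
  | _ j ih =>
    have h1 := h j
    rw [Finset.sum_range_succ, Finset.sum_range_succ] at h1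
    have h2 : ∑ i ∈ range j, u i * ((j.descFactorial i : ℕ) : ℤ_[p])
        = ∑ i ∈ range j, v i * ((j.descFactorial i : ℕ) : ℤ_[p]) := by
      refine Finset.sum_congr rfl ?_
      intro i hi
      rw [ih i (Finset.mem_range.1 hi)]
    rw [h2] at h1
    have h3 := add_left_cancel h1
    have h4 : ((j.descFactorial j : ℕ) : ℤ_[p]) ≠ 0 := by
      rw [Nat.descFactorial_self]
      exact_mod_cast Nat.factorial_ne_zero j
    exact mul_right_cancel₀ h4 h3

/-- a polynomial whose values at the naturals are `c` times a function with integral falling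
factorial coefficients is divisible by `c` -/
theorem dvd_of_eval (P : ℤ_[p][X]) (c : ℤ_[p]) (f : ℕ → ℤ_[p]) (hf : FI f)
    (h : ∀ k : ℕ, P.eval (k : ℤ_[p]) = c * f k) : C c ∣ P := by
  obtain ⟨a, ha⟩ := hf
  obtain ⟨b, hb0, hb⟩ := fallb_expand P.natDegree P le_rfl
  have h1 : ∀ j, b j = c * a j := by
    apply fallb_unique
    intro k
    rw [← fallb_eval P.natDegree b hb0 k, ← hb, h k, ha k, Finset.mul_sum]
    exact Finset.sum_congr rfl (fun j _ => by ring)
  refine ⟨∑ j ∈ range (P.natDegree + 1), C (a j) * descPochhammer ℤ_[p] j, ?_⟩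
  rw [Finset.mul_sum]
  conv_lhs => rw [hb]
  refine Finset.sum_congr rfl ?_
  intro j _
  rw [h1 j, C_mul]
  ring

theorem fallb_dvd (m e v : ℕ) (hv : v < p ^ (e + 1)) (hv0 : 0 < v) (b : ℤ_[p])
    (h : ((p : ℤ_[p]) ^ m) ∣ ((v : ℕ) : ℤ_[p]) * b) : ((p : ℤ_[p]) ^ (m - e)) ∣ b := by
  have hp : p.Prime := Fact.out
  obtain ⟨w, u, hu, hvu⟩ := Nat.exists_eq_pow_mul_and_not_dvd hv0.ne' p hp.ne_one
  have hw : w ≤ e := by
    by_contra hcon
    have h1 : p ^ (e + 1) ≤ p ^ w := Nat.pow_le_pow_right hp.pos (by omega)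
    have h2 : 0 < u := by
      rcases Nat.eq_zero_or_pos u with h3 | h3
      · subst h3
        simp at hu
      · exact h3
    have h3 : p ^ w ≤ v := by
      rw [hvu]
      exact Nat.le_mul_of_pos_right _ h2
    omega
  rcases Nat.lt_or_ge m w with hmw | hmw
  · have : m - e = 0 := by omega
    rw [this, pow_zero]
    exact one_dvd _
  have hpp : Prime (p : ℤ_[p]) := PadicInt.prime_p
  have hu' : ¬ (p : ℤ_[p]) ∣ ((u : ℕ) : ℤ_[p]) := by
    intro hcon
    have h1 : ((p : ℤ_[p]) ^ 1) ∣ (((u : ℤ)) : ℤ_[p]) := by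
      rw [pow_one]
      exact_mod_cast hcon
    have h2 := (PadicInt.pow_p_dvd_int_iff 1 (u : ℤ)).1 h1
    rw [pow_one] at h2
    exact hu (by exact_mod_cast h2)
  have h1 : ((p : ℤ_[p]) ^ w) * ((p : ℤ_[p]) ^ (m - w))
      ∣ ((p : ℤ_[p]) ^ w) * (((u : ℕ) : ℤ_[p]) * b) := by
    rw [← pow_add, Nat.add_sub_cancel' hmw]
    have h2 : ((v : ℕ) : ℤ_[p]) * b = ((p : ℤ_[p]) ^ w) * (((u : ℕ) : ℤ_[p]) * b) := by
      rw [hvu]
      push_cast
      ring
    rw [← h2]
    exact h
  have h2 : ((p : ℤ_[p]) ^ (m - w)) ∣ ((u : ℕ) : ℤ_[p]) * b :=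
    (mul_dvd_mul_iff_left (pow_ne_zero w hpp.ne_zero)).1 h1
  have h3 := hpp.pow_dvd_of_dvd_mul_left (m - w) hu' h2
  exact (pow_dvd_pow _ (by omega)).trans h3

/-- a polynomial of degree at most `d` with `P(X+1) - P(X)` divisible by `p^m` is, up to a
constant, divisible by `p^(m - e)` if `p^(e+1) > d` -/
theorem dvd_of_shift (P : ℤ_[p][X]) (m e : ℕ) (hd : P.natDegree < p ^ (e + 1))
    (h : C ((p : ℤ_[p]) ^ m) ∣ P.comp (X + 1) - P) :
    C ((p : ℤ_[p]) ^ (m - e)) ∣ P - C (P.coeff 0) := by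
  obtain ⟨Q, hQ⟩ := h
  obtain ⟨b, hb0, hb⟩ := fallb_expand P.natDegree P le_rfl
  obtain ⟨q, hq0, hq⟩ := fallb_expand Q.natDegree Q le_rfl
  have hev : ∀ k : ℕ, P.eval (k : ℤ_[p])
      = ∑ j ∈ range (k + 1), b j * ((k.descFactorial j : ℕ) : ℤ_[p]) := by
    intro k
    conv_lhs => rw [hb]
    exact fallb_eval P.natDegree b hb0 k
  have hqv : ∀ k : ℕ, Q.eval (k : ℤ_[p])
      = ∑ j ∈ range (k + 1), q j * ((k.descFactorial j : ℕ) : ℤ_[p]) := by
    intro k
    conv_lhs => rw [hq]
    exact fallb_eval Q.natDegree q hq0 k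
  have hrel : ∀ j : ℕ, ((j : ℤ_[p]) + 1) * b (j + 1) = (p : ℤ_[p]) ^ m * q j := by
    apply fallb_unique (fun j : ℕ => ((j : ℤ_[p]) + 1) * b (j + 1))
      (fun j : ℕ => (p : ℤ_[p]) ^ m * q j)
    intro k
    have h1 : P.eval ((k : ℤ_[p]) + 1) - P.eval (k : ℤ_[p]) = (p : ℤ_[p]) ^ m * Q.eval (k : ℤ_[p]) := by
      have := congrArg (fun R : ℤ_[p][X] => R.eval (k : ℤ_[p])) hQ
      simpa [Polynomial.eval_comp] using this
    have h2 : P.eval ((k : ℤ_[p]) + 1)
        = ∑ j ∈ range (k + 2), b j * (((k + 1).descFactorial j : ℕ) : ℤ_[p]) := by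
      have := hev (k + 1)
      push_cast at this
      exact this
    have h3 : P.eval (k : ℤ_[p])
        = ∑ j ∈ range (k + 2), b j * ((k.descFactorial j : ℕ) : ℤ_[p]) := by
      rw [hev k, falla_ext]
    rw [h2, h3, ← Finset.sum_sub_distrib, Finset.sum_range_succ'] at h1
    have h4 : ∀ j : ℕ, b (j + 1) * (((k + 1).descFactorial (j + 1) : ℕ) : ℤ_[p])
        - b (j + 1) * ((k.descFactorial (j + 1) : ℕ) : ℤ_[p])
        = ((j : ℤ_[p]) + 1) * b (j + 1) * ((k.descFactorial j : ℕ) : ℤ_[p]) := by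
      intro j
      rw [Nat.succ_descFactorial_succ, falla_succ k j]
      push_cast
      ring
    simp only [h4, Nat.descFactorial_zero, sub_self, add_zero] at h1
    rw [h1, hqv k, Finset.mul_sum]
    exact Finset.sum_congr rfl (fun j _ => by ring)
  have hb0' : P.coeff 0 = b 0 := by
    rw [Polynomial.coeff_zero_eq_eval_zero]
    have := hev 0
    simpa using this
  have hexp : P - C (P.coeff 0)
      = ∑ j ∈ range P.natDegree, C (b (j + 1)) * descPochhammer ℤ_[p] (j + 1) := by
    rw [hb0']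
    conv_lhs => rw [hb, Finset.sum_range_succ']
    simp
  rw [hexp]
  apply Finset.dvd_sum
  intro j hj
  have hj' : j < P.natDegree := Finset.mem_range.1 hj
  apply dvd_mul_of_dvd_left
  apply _root_.map_dvd (C : ℤ_[p] →+* ℤ_[p][X])
  apply fallb_dvd m e (j + 1) (by omega) (by omega)
  push_cast
  rw [hrel j]
  exact dvd_mul_right _ _

end Pool.Agent.H.MP_7425ae_nt
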