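import Pool.Agent.H.MP_7425ae_nt.CmpMat

/-! The 5-isogeny family on the level 5 modular curve (coordinate `h`):
`x = h / D1^3`, `x' = h^5 / D2^3`, and the matrix `Bm h` of the isogeny `H_x -> H_{x'}`. -/

set_option autoImplicit false

open Polynomial

namespace Pool.Agent.H.MP_7425ae_nt

variable {R S : Type} [CommRing R] [CommRing S]

def D1 (h : R) : R := 1 + 250 * h + 3125 * h ^ 2
def D2 (h : R) : R := 1 + 10 * h + 5 * h ^ 2
def E0 (h : R) : R := 1 + 22 * h + 125 * h ^ 2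
def E1 (h : R) : R := 1 - 500 * h - 15625 * h ^ 2
def E2 (h : R) : R := 1 + 4 * h - h ^ 2

/-- all five polynomials are units at `h` -/
structure U5 (h : R) : Prop where
  d1 : IsUnit (D1 h)
  d2 : IsUnit (D2 h)
  e0 : IsUnit (E0 h)
  e1 : IsUnit (E1 h)
  e2 : IsUnit (E2 h)

noncomputable def xf (h : R) : R := h * Ring.inverse (D1 h) ^ 3
noncomputable def xg (h : R) : R := h ^ 5 * Ring.inverse (D2 h) ^ 3
noncomputable def wf (h : R) : R := E1 h * Ring.inverse (D1 h)
noncomputable def wg (h : R) : R := 5 * E2 h * Ring.inverse (D2 h)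
noncomputable def nuf (h : R) : R :=
  120 * h * (1 + 26 * h + 125 * h ^ 2) * Ring.inverse (D1 h * D2 h)

def N02 (h : R) : R := 120 + 50640 * h - 3525600 * h ^ 2 - 295515600 * h ^ 3
  - 9113850000 * h ^ 4 - 127781250000 * h ^ 5 - 782812500000 * h ^ 6 - 1699218750000 * h ^ 7
  + 3662109375000 * h ^ 8

def N12 (h : R) : R := 4920 - 316560 * h - 17827800 * h ^ 2 - 354031200 * h ^ 3
  - 2228475000 * h ^ 4 - 4946250000 * h ^ 5 + 9609375000 * h ^ 6

/-- the numerators of the matrix of the isogeny, common denominator `D2^2 E1^3` -/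
def Bnum (h : R) : Matrix (Fin 3) (Fin 3) R :=
  !![D2 h ^ 2 * E1 h ^ 3, 120 * h * (1 + 26 * h + 125 * h ^ 2) * D2 h * E1 h ^ 2, h * N02 h;
     0, 5 * E2 h * D1 h * D2 h * E1 h ^ 2, h * D1 h * N12 h;
     0, 0, 25 * E2 h ^ 2 * D1 h ^ 2 * E1 h]

/-- the matrix of the isogeny `H_x -> H_{x'}` in the bases `1, X, X^2` -/
noncomputable def Bm (h : R) : Matrix (Fin 3) (Fin 3) R :=
  Ring.inverse (D2 h ^ 2 * E1 h ^ 3) • Bnum h

theorem D1_map (f : R →+* S) (h : R) : D1 (f h) = f (D1 h) := by simp [D1, map_ofNat]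
theorem D2_map (f : R →+* S) (h : R) : D2 (f h) = f (D2 h) := by simp [D2, map_ofNat]
theorem E0_map (f : R →+* S) (h : R) : E0 (f h) = f (E0 h) := by simp [E0, map_ofNat]
theorem E1_map (f : R →+* S) (h : R) : E1 (f h) = f (E1 h) := by simp [E1, map_ofNat]
theorem E2_map (f : R →+* S) (h : R) : E2 (f h) = f (E2 h) := by simp [E2, map_ofNat]

theorem famb_inv_map (f : R →+* S) {u : R} (hu : IsUnit u) :
    Ring.inverse (f u) = f (Ring.inverse u) := by
  have h1 : u * Ring.inverse u = 1 := Ring.mul_inverse_cancel u hu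
  have h2 : f u * f (Ring.inverse u) = 1 := by rw [← map_mul, h1, map_one]
  have h3 : Ring.inverse (f u) * f u = 1 := Ring.inverse_mul_cancel _ (hu.map f)
  calc Ring.inverse (f u) = Ring.inverse (f u) * (f u * f (Ring.inverse u)) := by
        rw [h2, mul_one]
    _ = f (Ring.inverse u) := by rw [← mul_assoc, h3, one_mul]

theorem U5.map {h : R} (u : U5 h) (f : R →+* S) : U5 (f h) := by
  refine ⟨?_, ?_, ?_, ?_, ?_⟩
  · rw [D1_map]; exact u.d1.map f
  · rw [D2_map]; exact u.d2.map f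
  · rw [E0_map]; exact u.e0.map f
  · rw [E1_map]; exact u.e1.map f
  · rw [E2_map]; exact u.e2.map f

theorem xf_map {h : R} (u : U5 h) (f : R →+* S) : xf (f h) = f (xf h) := by
  unfold xf
  rw [D1_map, famb_inv_map f u.d1, map_mul, map_pow]

theorem xg_map {h : R} (u : U5 h) (f : R →+* S) : xg (f h) = f (xg h) := by
  unfold xg
  rw [D2_map, famb_inv_map f u.d2, map_mul, map_pow, map_pow]

theorem famb_Bnum_map (f : R →+* S) (h : R) (i j : Fin 3) :
    Bnum (f h) i j = f (Bnum h i j) := by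
  have e1 : N02 (f h) = f (N02 h) := by simp [N02, map_ofNat]
  have e2 : N12 (f h) = f (N12 h) := by simp [N12, map_ofNat]
  fin_cases i <;> fin_cases j <;>
    simp [Bnum, D1_map, D2_map, E1_map, E2_map, e1, e2, map_ofNat]

theorem Bm_map {h : R} (u : U5 h) (f : R →+* S) : Bm (f h) = (Bm h).map f := by
  have hu : IsUnit (D2 h ^ 2 * E1 h ^ 3) := (u.d2.pow 2).mul (u.e1.pow 3)
  have h1 : Ring.inverse (D2 (f h) ^ 2 * E1 (f h) ^ 3) = f (Ring.inverse (D2 h ^ 2 * E1 h ^ 3)) := by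
    rw [← famb_inv_map f hu, D2_map, E1_map, map_mul, map_pow, map_pow]
  ext i j
  unfold Bm
  rw [Matrix.map_apply, Matrix.smul_apply, Matrix.smul_apply, smul_eq_mul, smul_eq_mul, map_mul,
    h1, famb_Bnum_map]

/-- `1 - 1728 x = E0 E1^2 / D1^3` and `1 - 1728 x' = E0 E2^2 / D2^3` -/
theorem delta_xf {h : R} (u : U5 h) : (1 - 1728 * xf h) * D1 h ^ 3 = E0 h * E1 h ^ 2 := by
  have e := Ring.mul_inverse_cancel (D1 h) u.d1
  unfold xf
  generalize Ring.inverse (D1 h) = i at e ⊢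
  have key : D1 h ^ 3 - 1728 * h = E0 h * E1 h ^ 2 := by
    unfold D1 E0 E1
    ring
  linear_combination (-1728 * h * ((D1 h * i) ^ 2 + D1 h * i + 1)) * e + key

theorem delta_xg {h : R} (u : U5 h) : (1 - 1728 * xg h) * D2 h ^ 3 = E0 h * E2 h ^ 2 := by
  have e := Ring.mul_inverse_cancel (D2 h) u.d2
  unfold xg
  generalize Ring.inverse (D2 h) = i at e ⊢
  have key : D2 h ^ 3 - 1728 * h ^ 5 = E0 h * E2 h ^ 2 := by
    unfold D2 E0 E2
    ring
  linear_combination (-1728 * h ^ 5 * ((D2 h * i) ^ 2 + D2 h * i + 1)) * e + key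

theorem lead_xf {h : R} (u : U5 h) : Lead 3 a3 (xf h) := by
  rw [lead3_iff]
  refine isUnit_of_mul_isUnit_left (y := D1 h ^ 3) ?_
  rw [delta_xf u]
  exact u.e0.mul (u.e1.pow 2)

theorem lead_xg {h : R} (u : U5 h) : Lead 3 a3 (xg h) := by
  rw [lead3_iff]
  refine isUnit_of_mul_isUnit_left (y := D2 h ^ 3) ?_
  rw [delta_xg u]
  exact u.e0.mul (u.e2.pow 2)

end Pool.Agent.H.MP_7425ae_nt
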