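import Pool.Agent.H.MP_7425ae_nt.FamB
import Pool.Agent.H.MP_7425ae_nt.Der

/-! Derivatives of the functions of the family. -/

set_option autoImplicit false

open Polynomial

namespace Pool.Agent.H.MP_7425ae_nt

variable {R : Type} [CommRing R]

theorem famd_poly {h : R} {d : R → R} (hd : IsDer d) (θ : R) (hh : d h = θ * h) (a b : ℕ) :
    d (1 + (a : R) * h + (b : R) * h ^ 2) = θ * ((a : R) * h + 2 * (b : R) * h ^ 2) := by
  have h2 : d (h ^ 2) = 2 * h * d h := by
    have h3 := hd.pow h 1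
    rw [Nat.cast_one, pow_one] at h3
    rw [h3]
    ring
  rw [hd.add, hd.add, hd.one, hd.mul, hd.mul, hd.natCast, hd.natCast, h2, hh]
  ring

theorem famd_D1 {h : R} {d : R → R} (hd : IsDer d) (θ : R) (hh : d h = θ * h) :
    d (D1 h) = θ * (250 * h + 6250 * h ^ 2) := by
  have h1 := famd_poly hd θ hh 250 3125
  rw [Nat.cast_ofNat, Nat.cast_ofNat] at h1
  unfold D1
  rw [h1]
  ring

theorem famd_D2 {h : R} {d : R → R} (hd : IsDer d) (θ : R) (hh : d h = θ * h) :
    d (D2 h) = θ * (10 * h + 10 * h ^ 2) := by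
  have h1 := famd_poly hd θ hh 10 5
  rw [Nat.cast_ofNat, Nat.cast_ofNat] at h1
  unfold D2
  rw [h1]
  ring

theorem d_xf {h : R} (u : U5 h) {d : R → R} (hd : IsDer d) (θ : R) (hh : d h = θ * h) :
    d (xf h) = θ * wf h * xf h := by
  have h1 := Ring.mul_inverse_cancel (D1 h) u.d1
  have h2 := hd.inverse u.d1
  rw [famd_D1 hd θ hh] at h2
  unfold xf wf
  have h3 := hd.pow (Ring.inverse (D1 h)) 2
  rw [Nat.cast_ofNat, h2] at h3
  rw [hd.mul, h3, hh]
  generalize Ring.inverse (D1 h) = I at *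
  unfold D1 at h1
  unfold E1
  linear_combination (-(θ * h * I ^ 3)) * h1

theorem d_xg {h : R} (u : U5 h) {d : R → R} (hd : IsDer d) (θ : R) (hh : d h = θ * h) :
    d (xg h) = θ * wg h * xg h := by
  have h1 := Ring.mul_inverse_cancel (D2 h) u.d2
  have h2 := hd.inverse u.d2
  rw [famd_D2 hd θ hh] at h2
  unfold xg wg
  have h3 := hd.pow (Ring.inverse (D2 h)) 2
  have h4 := hd.pow h 4
  rw [Nat.cast_ofNat, h2] at h3
  rw [Nat.cast_ofNat, hh] at h4
  rw [hd.mul, h3, h4]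
  generalize Ring.inverse (D2 h) = J at *
  unfold D2 at h1
  unfold E2
  linear_combination (-(5 * θ * h ^ 5 * J ^ 3)) * h1

/-- `nu = (1/2) (dD1/D1 - dD2/D2)` -/
theorem nuf_eq {h : R} (u : U5 h) {d : R → R} (hd : IsDer d) (θ : R) (hh : d h = θ * h) :
    2 * θ * nuf h = d (D1 h) * Ring.inverse (D1 h) - d (D2 h) * Ring.inverse (D2 h) := by
  have h1 := Ring.mul_inverse_cancel (D1 h) u.d1
  have h2 := Ring.mul_inverse_cancel (D2 h) u.d2
  unfold nuf
  rw [famd_D1 hd θ hh, famd_D2 hd θ hh, Ring.mul_inverse_rev]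
  generalize Ring.inverse (D1 h) = I at *
  generalize Ring.inverse (D2 h) = J at *
  unfold D1 at h1
  unfold D2 at h2
  linear_combination (θ * (250 * h + 6250 * h ^ 2) * I) * h2 -
    (θ * (10 * h + 10 * h ^ 2) * J) * h1

theorem Bm_zero : Bm (0 : R) = Matrix.diagonal (fun i : Fin 3 => (5 : R) ^ (i : ℕ)) := by
  have e1 : D1 (0 : R) = 1 := by simp [D1]
  have e2 : D2 (0 : R) = 1 := by simp [D2]
  have e3 : E1 (0 : R) = 1 := by simp [E1]
  have e4 : E2 (0 : R) = 1 := by simp [E2]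
  unfold Bm Bnum
  rw [e1, e2, e3, e4]
  ext i j
  fin_cases i <;> fin_cases j <;> simp [Ring.inverse_one]
  norm_num

end Pool.Agent.H.MP_7425ae_nt
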