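import Pool.Agent.H.MP_7425ae_nt.FamD

/-! The isogeny is horizontal. -/

set_option autoImplicit false
set_option linter.unusedSimpArgs false

open Polynomial

namespace Pool.Agent.H.MP_7425ae_nt

variable {R : Type} [CommRing R]

private theorem famo_num {d : R → R} (hd : IsDer d) (n : ℕ) [n.AtLeastTwo] :
    d (OfNat.ofNat n : R) = 0 := by
  have h := hd.natCast (OfNat.ofNat n)
  rwa [Nat.cast_ofNat] at h

private theorem famo_pow {h : R} {d : R → R} (hd : IsDer d) (θ : R) (hh : d h = θ * h) (n : ℕ) :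
    d (h ^ n) = θ * ((n : R) * h ^ n) := by
  induction n with
  | zero => simp [hd.one]
  | succ n ih =>
    rw [pow_succ, hd.mul, ih, hh]
    push_cast
    ring

section derivs

variable {h : R} {d : R → R} (hd : IsDer d) (θ : R) (hh : d h = θ * h)
include hd hh

private theorem famo_dD1 : d (D1 h) = θ * (250 * h + 6250 * h ^ 2) := by
  unfold D1
  simp only [hd.add, hd.sub, hd.mul, famo_num hd, famo_pow hd θ hh, hd.one, hh]
  push_cast
  ring

private theorem famo_dD2 : d (D2 h) = θ * (10 * h + 10 * h ^ 2) := by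
  unfold D2
  simp only [hd.add, hd.sub, hd.mul, famo_num hd, famo_pow hd θ hh, hd.one, hh]
  push_cast
  ring

private theorem famo_dE1 : d (E1 h) = θ * (-500 * h - 31250 * h ^ 2) := by
  unfold E1
  simp only [hd.add, hd.sub, hd.mul, famo_num hd, famo_pow hd θ hh, hd.one, hh]
  push_cast
  ring

private theorem famo_dE2 : d (E2 h) = θ * (4 * h - 2 * h ^ 2) := by
  unfold E2
  simp only [hd.add, hd.sub, hd.mul, famo_num hd, famo_pow hd θ hh, hd.one, hh]
  push_cast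
  ring

private theorem famo_dF : d (120 * h * (1 + 26 * h + 125 * h ^ 2))
    = θ * (120 * h * (1 + 52 * h + 375 * h ^ 2)) := by
  simp only [hd.add, hd.sub, hd.mul, famo_num hd, famo_pow hd θ hh, hd.one, hh]
  push_cast
  ring

private theorem famo_dN02 : d (h * N02 h) = θ * (h * (120 + 2 * 50640 * h - 3 * 3525600 * h ^ 2
    - 4 * 295515600 * h ^ 3 - 5 * 9113850000 * h ^ 4 - 6 * 127781250000 * h ^ 5
    - 7 * 782812500000 * h ^ 6 - 8 * 1699218750000 * h ^ 7 + 9 * 3662109375000 * h ^ 8)) := by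
  unfold N02
  simp only [hd.add, hd.sub, hd.mul, famo_num hd, famo_pow hd θ hh, hd.one, hh]
  push_cast
  ring

private theorem famo_dN12 : d (h * N12 h) = θ * (h * (4920 - 2 * 316560 * h - 3 * 17827800 * h ^ 2
    - 4 * 354031200 * h ^ 3 - 5 * 2228475000 * h ^ 4 - 6 * 4946250000 * h ^ 5
    + 7 * 9609375000 * h ^ 6)) := by
  unfold N12
  simp only [hd.add, hd.sub, hd.mul, famo_num hd, famo_pow hd θ hh, hd.one, hh]
  push_cast
  ring

end derivs

/-- derivative of `D1` etc. -/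
private def fD1 (h : R) : R := 250 * h + 6250 * h ^ 2
private def fD2 (h : R) : R := 10 * h + 10 * h ^ 2
private def fE1 (h : R) : R := -500 * h - 31250 * h ^ 2
private def fE2 (h : R) : R := 4 * h - 2 * h ^ 2
private def fF (h : R) : R := 120 * h * (1 + 26 * h + 125 * h ^ 2)
private def fFd (h : R) : R := 120 * h * (1 + 52 * h + 375 * h ^ 2)
private def fN02 (h : R) : R := h * (120 + 2 * 50640 * h - 3 * 3525600 * h ^ 2
    - 4 * 295515600 * h ^ 3 - 5 * 9113850000 * h ^ 4 - 6 * 127781250000 * h ^ 5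
    - 7 * 782812500000 * h ^ 6 - 8 * 1699218750000 * h ^ 7 + 9 * 3662109375000 * h ^ 8)
private def fN12 (h : R) : R := h * (4920 - 2 * 316560 * h - 3 * 17827800 * h ^ 2
    - 4 * 354031200 * h ^ 3 - 5 * 2228475000 * h ^ 4 - 6 * 4946250000 * h ^ 5
    + 7 * 9609375000 * h ^ 6)

/-- the derivative of the numerator matrix -/
private def fN (h : R) : Matrix (Fin 3) (Fin 3) R :=
  !![2 * D2 h * fD2 h * E1 h ^ 3 + 3 * D2 h ^ 2 * E1 h ^ 2 * fE1 h,
      fFd h * D2 h * E1 h ^ 2 + fF h * fD2 h * E1 h ^ 2 + 2 * fF h * D2 h * E1 h * fE1 h, fN02 h;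
     0, 5 * fE2 h * D1 h * D2 h * E1 h ^ 2 + 5 * E2 h * fD1 h * D2 h * E1 h ^ 2
        + 5 * E2 h * D1 h * fD2 h * E1 h ^ 2 + 10 * E2 h * D1 h * D2 h * E1 h * fE1 h,
      fD1 h * (h * N12 h) + D1 h * fN12 h;
     0, 0, 50 * E2 h * fE2 h * D1 h ^ 2 * E1 h + 50 * E2 h ^ 2 * D1 h * fD1 h * E1 h
        + 25 * E2 h ^ 2 * D1 h ^ 2 * fE1 h]

private theorem famo_dBnum {h : R} {d : R → R} (hd : IsDer d) (θ : R) (hh : d h = θ * h)
    (i j : Fin 3) : d (Bnum h i j) = θ * fN h i j := by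
  have e1 := famo_dD1 hd θ hh
  have e2 := famo_dD2 hd θ hh
  have e3 := famo_dE1 hd θ hh
  have e4 := famo_dE2 hd θ hh
  have e5 := famo_dF hd θ hh
  have e6 := famo_dN02 hd θ hh
  have e7 := famo_dN12 hd θ hh
  rw [← fD1] at e1
  rw [← fD2] at e2
  rw [← fE1] at e3
  rw [← fE2] at e4
  rw [← fF, ← fFd] at e5
  rw [← fN02] at e6
  rw [← fN12] at e7
  have p1 : d (D1 h ^ 2) = θ * (2 * D1 h * fD1 h) := by
    rw [pow_two, hd.mul, e1]; ring
  have p2 : d (D2 h ^ 2) = θ * (2 * D2 h * fD2 h) := by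
    rw [pow_two, hd.mul, e2]; ring
  have p3 : d (E1 h ^ 2) = θ * (2 * E1 h * fE1 h) := by
    rw [pow_two, hd.mul, e3]; ring
  have p4 : d (E1 h ^ 3) = θ * (3 * E1 h ^ 2 * fE1 h) := by
    rw [show E1 h ^ 3 = E1 h ^ 2 * E1 h by ring, hd.mul, p3, e3]; ring
  have p5 : d (E2 h ^ 2) = θ * (2 * E2 h * fE2 h) := by
    rw [pow_two, hd.mul, e4]; ring
  fin_cases i <;> fin_cases j
  · show d (D2 h ^ 2 * E1 h ^ 3) = θ * (2 * D2 h * fD2 h * E1 h ^ 3
      + 3 * D2 h ^ 2 * E1 h ^ 2 * fE1 h)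
    rw [hd.mul, p2, p4]; ring
  · show d (fF h * D2 h * E1 h ^ 2) = θ * (fFd h * D2 h * E1 h ^ 2 + fF h * fD2 h * E1 h ^ 2
      + 2 * fF h * D2 h * E1 h * fE1 h)
    rw [hd.mul, hd.mul, e5, e2, p3]; ring
  · show d (h * N02 h) = θ * fN02 h
    exact e6
  · show d (0 : R) = θ * 0
    rw [hd.zero, mul_zero]
  · show d (5 * E2 h * D1 h * D2 h * E1 h ^ 2) = θ * (5 * fE2 h * D1 h * D2 h * E1 h ^ 2
        + 5 * E2 h * fD1 h * D2 h * E1 h ^ 2
        + 5 * E2 h * D1 h * fD2 h * E1 h ^ 2 + 10 * E2 h * D1 h * D2 h * E1 h * fE1 h)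
    rw [hd.mul, hd.mul, hd.mul, hd.mul, famo_num hd, e4, e1, e2, p3]; ring
  · show d (h * D1 h * N12 h) = θ * (fD1 h * (h * N12 h) + D1 h * fN12 h)
    rw [show h * D1 h * N12 h = D1 h * (h * N12 h) by ring, hd.mul, e7, e1]; ring
  · show d (0 : R) = θ * 0
    rw [hd.zero, mul_zero]
  · show d (0 : R) = θ * 0
    rw [hd.zero, mul_zero]
  · show d (25 * E2 h ^ 2 * D1 h ^ 2 * E1 h) = θ * (50 * E2 h * fE2 h * D1 h ^ 2 * E1 h
        + 50 * E2 h ^ 2 * D1 h * fD1 h * E1 h + 25 * E2 h ^ 2 * D1 h ^ 2 * fE1 h)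
    rw [hd.mul, hd.mul, hd.mul, famo_num hd, p5, p1, e3]; ring

/-- the entries: after multiplication by `U = D1 D2 E0 E1 E2` everything is a polynomial
identity -/
private theorem famo_entries {h i1 i2 a b c : R} (h1 : D1 h * i1 = 1) (h2 : D2 h * i2 = 1)
    (ha : E0 h * a = 1) (hb : E1 h * b = 1) (hc : E2 h * c = 1) :
    fN h - (2 * fD2 h * i2 + 3 * fE1 h * b) • Bnum h
      = Bnum h * !![0, 0, 120 * (h * (a * b * i1)); E1 h * i1, 0, 1104 * (h * (a * b * i1));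
          0, E1 h * i1, 2592 * (h * (a * b * i1))]
        - !![0, 0, 600 * (h ^ 5 * (a * c * i2)); 5 * E2 h * i2, 0, 5520 * (h ^ 5 * (a * c * i2));
          0, 5 * E2 h * i2, 12960 * (h ^ 5 * (a * c * i2))] * Bnum h
        - (fF h * (i1 * i2)) • Bnum h := by
  have u1 : IsUnit (D1 h) := IsUnit.of_mul_eq_one _ h1
  have u2 : IsUnit (D2 h) := IsUnit.of_mul_eq_one _ h2
  have ua : IsUnit (E0 h) := IsUnit.of_mul_eq_one _ ha
  have ub : IsUnit (E1 h) := IsUnit.of_mul_eq_one _ hb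
  have uc : IsUnit (E2 h) := IsUnit.of_mul_eq_one _ hc
  have uU : IsUnit (D1 h * D2 h * E0 h * E1 h * E2 h) :=
    (((u1.mul u2).mul ua).mul ub).mul uc
  have k2 : D1 h * D2 h * E0 h * E1 h * E2 h * i2 = D1 h * E0 h * E1 h * E2 h := by
    linear_combination (D1 h * E0 h * E1 h * E2 h) * h2
  have kb : D1 h * D2 h * E0 h * E1 h * E2 h * b = D1 h * D2 h * E0 h * E2 h := by
    linear_combination (D1 h * D2 h * E0 h * E2 h) * hb
  have k1 : D1 h * D2 h * E0 h * E1 h * E2 h * i1 = D2 h * E0 h * E1 h * E2 h := by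
    linear_combination (D2 h * E0 h * E1 h * E2 h) * h1
  have k12 : D1 h * D2 h * E0 h * E1 h * E2 h * (i1 * i2) = E0 h * E1 h * E2 h := by
    linear_combination (D2 h * E0 h * E1 h * E2 h * i2) * h1 + (E0 h * E1 h * E2 h) * h2
  have kf : D1 h * D2 h * E0 h * E1 h * E2 h * (a * b * i1) = D2 h * E2 h := by
    linear_combination (D2 h * E0 h * E1 h * E2 h * a * b) * h1
      + (D2 h * E1 h * E2 h * b) * ha + (D2 h * E2 h) * hb
  have kg : D1 h * D2 h * E0 h * E1 h * E2 h * (a * c * i2) = D1 h * E1 h := by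
    linear_combination (D1 h * E0 h * E1 h * E2 h * a * c) * h2
      + (D1 h * E1 h * E2 h * c) * ha + (D1 h * E1 h) * hc
  ext i j
  apply uU.mul_left_cancel
  fin_cases i <;> fin_cases j
  all_goals
    simp only [Matrix.sub_apply, Matrix.smul_apply, Matrix.mul_apply, Fin.sum_univ_three,
      smul_eq_mul]
    simp only [fN, Bnum, Matrix.of_apply, Matrix.cons_val', Matrix.cons_val_zero,
      Matrix.cons_val_one, Matrix.cons_val, Fin.zero_eta, Fin.mk_one, Fin.reduceFinMk,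
      Matrix.cons_val_fin_one]
  · linear_combination (norm := skip) (-2 * fD2 h * (D2 h ^ 2 * E1 h ^ 3)) * k2 +
        (-3 * fE1 h * (D2 h ^ 2 * E1 h ^ 3)) * kb +
        (-E1 h * (120 * h * (1 + 26 * h + 125 * h ^ 2) * D2 h * E1 h ^ 2)) * k1 +
        (fF h * (D2 h ^ 2 * E1 h ^ 3)) * k12
    simp only [fD1, fD2, fE1, fE2, fF, fFd, fN02, fN12, D1, D2, E0, E1, E2, N02, N12]
    ring1
  · linear_combination (norm := skip) (-2 * fD2 h * (120 * h * (1 + 26 * h + 125 * h ^ 2) * D2 h * E1 h ^ 2)) * k2 +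
        (-3 * fE1 h * (120 * h * (1 + 26 * h + 125 * h ^ 2) * D2 h * E1 h ^ 2)) * kb +
        (-E1 h * (h * N02 h)) * k1 +
        (fF h * (120 * h * (1 + 26 * h + 125 * h ^ 2) * D2 h * E1 h ^ 2)) * k12
    simp only [fD1, fD2, fE1, fE2, fF, fFd, fN02, fN12, D1, D2, E0, E1, E2, N02, N12]
    ring1
  · linear_combination (norm := skip) (-2 * fD2 h * (h * N02 h)) * k2 +
        (-3 * fE1 h * (h * N02 h)) * kb +
        (-h * (120 * (D2 h ^ 2 * E1 h ^ 3) + 1104 * (120 * h * (1 + 26 * h + 125 * h ^ 2) * D2 h * E1 h ^ 2) + 2592 * (h * N02 h))) * kf +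
        (600 * h ^ 5 * (25 * E2 h ^ 2 * D1 h ^ 2 * E1 h)) * kg +
        (fF h * (h * N02 h)) * k12
    simp only [fD1, fD2, fE1, fE2, fF, fFd, fN02, fN12, D1, D2, E0, E1, E2, N02, N12]
    ring1
  · linear_combination (norm := skip) (-E1 h * (5 * E2 h * D1 h * D2 h * E1 h ^ 2)) * k1 +
        (5 * E2 h * (D2 h ^ 2 * E1 h ^ 3)) * k2
    simp only [fD1, fD2, fE1, fE2, fF, fFd, fN02, fN12, D1, D2, E0, E1, E2, N02, N12]
    ring1
  · linear_combination (norm := skip) (-2 * fD2 h * (5 * E2 h * D1 h * D2 h * E1 h ^ 2)) * k2 +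
        (-3 * fE1 h * (5 * E2 h * D1 h * D2 h * E1 h ^ 2)) * kb +
        (-E1 h * (h * D1 h * N12 h)) * k1 +
        (5 * E2 h * (120 * h * (1 + 26 * h + 125 * h ^ 2) * D2 h * E1 h ^ 2)) * k2 +
        (fF h * (5 * E2 h * D1 h * D2 h * E1 h ^ 2)) * k12
    simp only [fD1, fD2, fE1, fE2, fF, fFd, fN02, fN12, D1, D2, E0, E1, E2, N02, N12]
    ring1
  · linear_combination (norm := skip) (-2 * fD2 h * (h * D1 h * N12 h)) * k2 +
        (-3 * fE1 h * (h * D1 h * N12 h)) * kb +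
        (-h * (120 * (0 : R) + 1104 * (5 * E2 h * D1 h * D2 h * E1 h ^ 2) + 2592 * (h * D1 h * N12 h))) * kf +
        (5 * E2 h * (h * N02 h)) * k2 +
        (5520 * h ^ 5 * (25 * E2 h ^ 2 * D1 h ^ 2 * E1 h)) * kg +
        (fF h * (h * D1 h * N12 h)) * k12
    simp only [fD1, fD2, fE1, fE2, fF, fFd, fN02, fN12, D1, D2, E0, E1, E2, N02, N12]
    ring1
  · linear_combination (norm := skip) (0 : R) * k1
    simp only [fD1, fD2, fE1, fE2, fF, fFd, fN02, fN12, D1, D2, E0, E1, E2, N02, N12]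
    ring1
  · linear_combination (norm := skip) (-E1 h * (25 * E2 h ^ 2 * D1 h ^ 2 * E1 h)) * k1 +
        (5 * E2 h * (5 * E2 h * D1 h * D2 h * E1 h ^ 2)) * k2
    simp only [fD1, fD2, fE1, fE2, fF, fFd, fN02, fN12, D1, D2, E0, E1, E2, N02, N12]
    ring1
  · linear_combination (norm := skip) (-2 * fD2 h * (25 * E2 h ^ 2 * D1 h ^ 2 * E1 h)) * k2 +
        (-3 * fE1 h * (25 * E2 h ^ 2 * D1 h ^ 2 * E1 h)) * kb +
        (-h * (120 * (0 : R) + 1104 * (0 : R) + 2592 * (25 * E2 h ^ 2 * D1 h ^ 2 * E1 h))) * kf +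
        (5 * E2 h * (h * D1 h * N12 h)) * k2 +
        (12960 * h ^ 5 * (25 * E2 h ^ 2 * D1 h ^ 2 * E1 h)) * kg +
        (fF h * (25 * E2 h ^ 2 * D1 h ^ 2 * E1 h)) * k12
    simp only [fD1, fD2, fE1, fE2, fF, fFd, fN02, fN12, D1, D2, E0, E1, E2, N02, N12]
    ring1

/-- the isogeny is horizontal up to the twist `nu`; after clearing denominators this is a
polynomial identity in `h`. -/
theorem Bm_ode {h : R} (u : U5 h) {d : R → R} (hd : IsDer d) (θ : R) (hh : d h = θ * h) :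
    (Bm h).map d = θ • (Bm h * (wf h • Cmp 3 a3 (xf h)) - (wg h • Cmp 3 a3 (xg h)) * Bm h
      - nuf h • Bm h) := by
  have h1 : D1 h * Ring.inverse (D1 h) = 1 := Ring.mul_inverse_cancel _ u.d1
  have h2 : D2 h * Ring.inverse (D2 h) = 1 := Ring.mul_inverse_cancel _ u.d2
  have ha : E0 h * Ring.inverse (E0 h) = 1 := Ring.mul_inverse_cancel _ u.e0
  have hb : E1 h * Ring.inverse (E1 h) = 1 := Ring.mul_inverse_cancel _ u.e1
  have hc : E2 h * Ring.inverse (E2 h) = 1 := Ring.mul_inverse_cancel _ u.e2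
  have uDel : IsUnit (D2 h ^ 2 * E1 h ^ 3) := (u.d2.pow 2).mul (u.e1.pow 3)
  have hDel : D2 h ^ 2 * E1 h ^ 3 * Ring.inverse (D2 h ^ 2 * E1 h ^ 3) = 1 :=
    Ring.mul_inverse_cancel _ uDel
  have hnu : nuf h = fF h * (Ring.inverse (D1 h) * Ring.inverse (D2 h)) := by
    unfold nuf fF
    rw [Ring.mul_inverse_rev]
    ring
  have hDd : d (Ring.inverse (D2 h ^ 2 * E1 h ^ 3))
      = - Ring.inverse (D2 h ^ 2 * E1 h ^ 3) ^ 2 * (θ * fN h 0 0) := by
    rw [hd.inverse uDel]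
    congr 1
    exact famo_dBnum hd θ hh 0 0
  have hW1 : wf h • Cmp 3 a3 (xf h) = !![0, 0, 120 * (h * (Ring.inverse (E0 h) *
        Ring.inverse (E1 h) * Ring.inverse (D1 h)));
      E1 h * Ring.inverse (D1 h), 0, 1104 * (h * (Ring.inverse (E0 h) *
        Ring.inverse (E1 h) * Ring.inverse (D1 h)));
      0, E1 h * Ring.inverse (D1 h), 2592 * (h * (Ring.inverse (E0 h) *
        Ring.inverse (E1 h) * Ring.inverse (D1 h)))] := by
    rw [cmp3 (xf h) (D1 h ^ 3 * (Ring.inverse (E0 h) * Ring.inverse (E1 h) ^ 2)) (by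
      linear_combination (Ring.inverse (E0 h) * Ring.inverse (E1 h) ^ 2) * delta_xf u
        + (E1 h * Ring.inverse (E1 h)) ^ 2 * ha + (E1 h * Ring.inverse (E1 h) + 1) * hb)]
    have key : wf h * (xf h * (D1 h ^ 3 * (Ring.inverse (E0 h) * Ring.inverse (E1 h) ^ 2)))
        = h * (Ring.inverse (E0 h) * Ring.inverse (E1 h) * Ring.inverse (D1 h)) := by
      unfold wf xf
      linear_combination (h * (Ring.inverse (E0 h) * Ring.inverse (E1 h) * Ring.inverse (D1 h)))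
        * (((D1 h * Ring.inverse (D1 h)) ^ 2 + D1 h * Ring.inverse (D1 h) + 1)
          * (E1 h * Ring.inverse (E1 h)) * h1 + hb)
    ext i j
    fin_cases i <;> fin_cases j <;>
      simp only [Matrix.smul_apply, Matrix.of_apply, Matrix.cons_val', Matrix.cons_val_zero,
        Matrix.cons_val_one, Matrix.cons_val, Fin.zero_eta, Fin.mk_one, Fin.reduceFinMk,
        Matrix.cons_val_fin_one, smul_eq_mul, mul_zero, mul_one]
    · linear_combination 120 * key
    · rfl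
    · linear_combination 1104 * key
    · rfl
    · linear_combination 2592 * key
  have hW2 : wg h • Cmp 3 a3 (xg h) = !![0, 0, 600 * (h ^ 5 * (Ring.inverse (E0 h) *
        Ring.inverse (E2 h) * Ring.inverse (D2 h)));
      5 * E2 h * Ring.inverse (D2 h), 0, 5520 * (h ^ 5 * (Ring.inverse (E0 h) *
        Ring.inverse (E2 h) * Ring.inverse (D2 h)));
      0, 5 * E2 h * Ring.inverse (D2 h), 12960 * (h ^ 5 * (Ring.inverse (E0 h) *
        Ring.inverse (E2 h) * Ring.inverse (D2 h)))] := by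
    rw [cmp3 (xg h) (D2 h ^ 3 * (Ring.inverse (E0 h) * Ring.inverse (E2 h) ^ 2)) (by
      linear_combination (Ring.inverse (E0 h) * Ring.inverse (E2 h) ^ 2) * delta_xg u
        + (E2 h * Ring.inverse (E2 h)) ^ 2 * ha + (E2 h * Ring.inverse (E2 h) + 1) * hc)]
    have key : wg h * (xg h * (D2 h ^ 3 * (Ring.inverse (E0 h) * Ring.inverse (E2 h) ^ 2)))
        = 5 * (h ^ 5 * (Ring.inverse (E0 h) * Ring.inverse (E2 h) * Ring.inverse (D2 h))) := by
      unfold wg xg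
      linear_combination (5 * h ^ 5 * (Ring.inverse (E0 h) * Ring.inverse (E2 h)
          * Ring.inverse (D2 h)))
        * (((D2 h * Ring.inverse (D2 h)) ^ 2 + D2 h * Ring.inverse (D2 h) + 1)
          * (E2 h * Ring.inverse (E2 h)) * h2 + hc)
    ext i j
    fin_cases i <;> fin_cases j <;>
      simp only [Matrix.smul_apply, Matrix.of_apply, Matrix.cons_val', Matrix.cons_val_zero,
        Matrix.cons_val_one, Matrix.cons_val, Fin.zero_eta, Fin.mk_one, Fin.reduceFinMk,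
        Matrix.cons_val_fin_one, smul_eq_mul, mul_zero, mul_one]
    · linear_combination 120 * key
    · rfl
    · linear_combination 1104 * key
    · rfl
    · linear_combination 2592 * key
  have key := famo_entries h1 h2 ha hb hc
  rw [← hW1, ← hW2, ← hnu] at key
  have hk : Ring.inverse (D2 h ^ 2 * E1 h ^ 3) * fN h 0 0
      = 2 * fD2 h * Ring.inverse (D2 h) + 3 * fE1 h * Ring.inverse (E1 h) := by
    show Ring.inverse (D2 h ^ 2 * E1 h ^ 3) * (2 * D2 h * fD2 h * E1 h ^ 3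
      + 3 * D2 h ^ 2 * E1 h ^ 2 * fE1 h) = _
    linear_combination (2 * fD2 h) * (-(Ring.inverse (D2 h ^ 2 * E1 h ^ 3) * D2 h * E1 h ^ 3) * h2
      + Ring.inverse (D2 h) * hDel)
      + (3 * fE1 h) * (-(Ring.inverse (D2 h ^ 2 * E1 h ^ 3) * D2 h ^ 2 * E1 h ^ 2) * hb
      + Ring.inverse (E1 h) * hDel)
  have hR : θ • (Bm h * (wf h • Cmp 3 a3 (xf h)) - (wg h • Cmp 3 a3 (xg h)) * Bm h
      - nuf h • Bm h) = (θ * Ring.inverse (D2 h ^ 2 * E1 h ^ 3)) •
        (fN h - (2 * fD2 h * Ring.inverse (D2 h) + 3 * fE1 h * Ring.inverse (E1 h)) • Bnum h) := by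
    rw [key]
    unfold Bm
    generalize wf h • Cmp 3 a3 (xf h) = W1
    generalize wg h • Cmp 3 a3 (xg h) = W2
    rw [Matrix.smul_mul, Matrix.mul_smul, smul_comm (nuf h), ← smul_sub, ← smul_sub, smul_smul]
  rw [hR, ← hk]
  ext i j
  show d (Ring.inverse (D2 h ^ 2 * E1 h ^ 3) * Bnum h i j) = (θ * Ring.inverse (D2 h ^ 2 * E1 h ^ 3))
    * (fN h i j - (Ring.inverse (D2 h ^ 2 * E1 h ^ 3) * fN h 0 0) * Bnum h i j)
  rw [hd.mul, hDd, famo_dBnum hd θ hh i j]
  ring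

end Pool.Agent.H.MP_7425ae_nt
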