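import Pool.Agent.H.MP_7425ae_nt.SumDef

/-! The case `p = 19` of (b). -/

set_option autoImplicit false

open Polynomial

namespace Pool.Agent.H.MP_7425ae_nt

/-- the product of the binomial coefficients as a quotient of factorials -/
theorem sum19_fact (k : ℕ) :
    (6 * k).choose (3 * k) * (3 * k).choose k * (2 * k).choose k =
      (6 * k).factorial / ((3 * k).factorial * k.factorial ^ 3) := by
  symm
  apply Nat.div_eq_of_eq_mul_left
  · positivity
  · have h1 := Nat.choose_mul_factorial_mul_factorial (n := 6 * k) (k := 3 * k) (by omega)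
    have h2 := Nat.choose_mul_factorial_mul_factorial (n := 3 * k) (k := k) (by omega)
    have h3 := Nat.choose_mul_factorial_mul_factorial (n := 2 * k) (k := k) (by omega)
    have e1 : 6 * k - 3 * k = 3 * k := by omega
    have e2 : 3 * k - k = 2 * k := by omega
    have e3 : 2 * k - k = k := by omega
    rw [e1] at h1
    rw [e2] at h2
    rw [e3] at h3
    calc (6 * k).factorial
        = (6 * k).choose (3 * k) * (3 * k).factorial * (3 * k).factorial := h1.symm
      _ = (6 * k).choose (3 * k) * (3 * k).factorial *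
          ((3 * k).choose k * k.factorial * (2 * k).factorial) := by rw [h2]
      _ = (6 * k).choose (3 * k) * (3 * k).factorial *
          ((3 * k).choose k * k.factorial * ((2 * k).choose k * k.factorial * k.factorial)) := by
        rw [h3]
      _ = _ := by ring

/-- (b) for `p = 19`, a finite computation -/
theorem Tz_19 (x0 : ZMod (19 ^ 3)) (hx0 : (-884736) * x0 = 1) :
    Tz (19 ^ 3) 19 x0 = 25 * ((19 : ZMod (19 ^ 3)) * ((jacobiSym (-6) 19 : ℤ) : ZMod (19 ^ 3))) := by
  have hj : jacobiSym (-6) 19 = -1 := by norm_num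
  have hx : x0 = ((1006 : ℕ) : ZMod (19 ^ 3)) := by
    have h1 : ((1006 : ℕ) : ZMod (19 ^ 3)) * (-884736) = 1 := by decide +kernel
    calc x0 = ((1006 : ℕ) : ZMod (19 ^ 3)) * (-884736) * x0 := by rw [h1, one_mul]
      _ = ((1006 : ℕ) : ZMod (19 ^ 3)) := by rw [mul_assoc, hx0, mul_one]
  have h2 : Tz (19 ^ 3) 19 x0 = ((∑ k ∈ Finset.range 19, (342 * k + 25) *
      ((6 * k).factorial / ((3 * k).factorial * k.factorial ^ 3)) * 1006 ^ k : ℕ) :
        ZMod (19 ^ 3)) := by
    unfold Tz
    rw [Nat.cast_sum]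
    refine Finset.sum_congr rfl fun k _ => ?_
    rw [hx, Nat.cast_mul, Nat.cast_mul, Nat.cast_pow, ← sum19_fact]
    unfold c3
    rw [Int.cast_natCast]
  have h3 : ((∑ k ∈ Finset.range 19, (342 * k + 25) *
      ((6 * k).factorial / ((3 * k).factorial * k.factorial ^ 3)) * 1006 ^ k : ℕ) :
        ZMod (19 ^ 3)) = ((6384 : ℕ) : ZMod (19 ^ 3)) := by
    rw [ZMod.natCast_eq_natCast_iff]
    decide +kernel
  rw [h2, h3, hj]
  decide +kernel

end Pool.Agent.H.MP_7425ae_nt
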