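import Pool.Agent.H.MP_7425ae_nt.SumDef
import Pool.Agent.H.MP_7425ae_nt.EBf

/-! The congruences for `T_p` and `S_p`. -/

set_option autoImplicit false

open Polynomial

namespace Pool.Agent.H.MP_7425ae_nt

theorem sumb_unit {p : ℕ} [Fact p.Prime] (s m : ℕ) (hm : ¬ p ∣ m) :
    IsUnit ((m : ℕ) : ZMod (p ^ s)) := by
  rw [ZMod.isUnit_iff_coprime]
  exact Nat.Coprime.pow_right _ (((Fact.out : p.Prime).coprime_iff_not_dvd.2 hm).symm)

theorem sumb_not_dvd {p : ℕ} [Fact p.Prime] (hp : 5 ≤ p) : ¬ p ∣ 884736 := by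
  intro h
  have h2 : (884736 : ℕ) = 2 ^ 15 * 3 ^ 3 := by norm_num
  rw [h2, Nat.Prime.dvd_mul Fact.out] at h
  rcases h with h | h
  · have := Nat.le_of_dvd (by norm_num) ((Fact.out : p.Prime).dvd_of_dvd_pow h)
    omega
  · have := Nat.le_of_dvd (by norm_num) ((Fact.out : p.Prime).dvd_of_dvd_pow h)
    omega

theorem sumb_lead {p : ℕ} [Fact p.Prime] (hp : 5 ≤ p) (h19 : p ≠ 19) (s : ℕ)
    (x0 : ZMod (p ^ s)) (hx0 : (-884736) * x0 = 1) : Lead 3 a3 x0 := by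
  rw [lead3_iff]
  have h1 : ¬ p ∣ 886464 := by
    intro h
    have h2 : (886464 : ℕ) = 2 ^ 6 * 3 ^ 6 * 19 := by norm_num
    rw [h2, Nat.Prime.dvd_mul Fact.out, Nat.Prime.dvd_mul Fact.out] at h
    rcases h with (h | h) | h
    · have := Nat.le_of_dvd (by norm_num) ((Fact.out : p.Prime).dvd_of_dvd_pow h)
      omega
    · have := Nat.le_of_dvd (by norm_num) ((Fact.out : p.Prime).dvd_of_dvd_pow h)
      omega
    · exact h19 ((Nat.prime_dvd_prime_iff_eq Fact.out (by norm_num)).1 h)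
  have h3 := sumb_unit s _ h1
  have h4 : ((886464 : ℕ) : ZMod (p ^ s)) = 884736 * (1 - 1728 * x0) := by
    push_cast
    linear_combination (-1728 : ZMod (p ^ s)) * hx0
  rw [h4] at h3
  exact isUnit_of_mul_isUnit_right h3

theorem sumb_t0 {p : ℕ} [Fact p.Prime] (hp : 5 ≤ p) (s : ℕ) (x0 : ZMod (p ^ s))
    (hx0 : (-884736) * x0 = 1) :
    ∃ t0 : ZMod (p ^ s), (1 + (p : ZMod (p ^ s)) * t0) * x0 = x0 ^ p := by
  obtain ⟨x1, t0, hx1, ht0⟩ := exists_t0 hp s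
  have hu : IsUnit (884736 : ZMod (p ^ s)) := by
    have := sumb_unit s _ (sumb_not_dvd hp)
    simpa using this
  have h1 : x0 = x1 := by
    apply hu.mul_left_cancel
    linear_combination (-1 : ZMod (p ^ s)) * hx0 + hx1
  subst h1
  exact ⟨t0, ht0⟩

theorem sumb_key {p : ℕ} [Fact p.Prime] (hp : 5 ≤ p) (h19 : p ≠ 19) {S : Sys ℤ_[p]}
    (hS : S.Good p 3 a3 c3) (hr : S.rho = (p : ℤ_[p])) (s : ℕ) (hs : s ≤ 3)
    (x0 t0 : ZMod (p ^ s)) (hx0 : (-884736) * x0 = 1)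
    (ht0 : (1 + (p : ZMod (p ^ s)) * t0) * x0 = x0 ^ p) (F : (ZMod (p ^ s))[X]) :
    evN c3 p x0 F = red 3 a3 x0
      (Phi p (S.dat s (PadicInt.toZModPow s)) x0 t0 F) 0 := by
  have hps : (p : ZMod (p ^ s)) ^ s = 0 := by
    have := ZMod.natCast_self (p ^ s)
    rwa [Nat.cast_pow] at this
  have hok := hS.ok s (ZMod (p ^ s)) (PadicInt.toZModPow s) hps
  have hrho : (S.dat s (PadicInt.toZModPow s)).rho = (p : ZMod (p ^ s)) := by
    change (PadicInt.toZModPow s) S.rho = _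
    rw [hr, map_natCast]
  have hlead := sumb_lead hp h19 s x0 hx0
  have h1 := evN_Phi (by omega : 0 < p) hok 1 x0 x0 t0 (by rw [hrho]; exact ht0) F
  rw [mul_one] at h1
  rw [h1]
  set G := Phi p (S.dat s (PadicInt.toZModPow s)) x0 t0 F with hG
  have h2 := red_spec hlead G
  have hadm := red_adm hlead (S.dat s (PadicInt.toZModPow s)).rho G
    (by rw [hG]; exact Phi_adm hok x0 t0 F)
  have hq : quo 3 a3 x0 G = 0 := by
    have h3 := hadm.2.1
    rw [hrho] at h3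
    have h4 : (p : ZMod (p ^ s)) ^ 3 = 0 := by
      obtain ⟨k, hk⟩ := Nat.exists_eq_add_of_le hs
      rw [hk, pow_add, hps, zero_mul]
    rw [h4, C_0, zero_dvd_iff] at h3
    exact h3
  rw [hq, tau_zero, add_zero] at h2
  have hc0 : c3 0 = 1 := by simp [c3]
  have h5 : evN c3 1 x0 G = G.eval 0 := by
    unfold evN
    simp [hc0]
  rw [h5]
  conv_lhs => rw [h2]
  unfold emb
  rw [eval_finsetSum]
  simp [Fin.sum_univ_three]

/-- (b) for `p <> 19` -/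
theorem Tz_p {p : ℕ} [Fact p.Prime] (hp : 5 ≤ p) (h19 : p ≠ 19) {S : Sys ℤ_[p]}
    (hS : S.Good p 3 a3 c3) (hr : S.rho = (p : ℤ_[p]))
    (x0 : ZMod (p ^ 3)) (hx0 : (-884736) * x0 = 1) :
    Tz (p ^ 3) p x0 = 25 * ((p : ZMod (p ^ 3)) * ((jacobiSym (-6) p : ℤ) : ZMod (p ^ 3))) := by
  obtain ⟨t0, ht0⟩ := sumb_t0 hp 3 x0 hx0
  have h1 := sumb_key hp h19 hS hr 3 le_rfl x0 t0 hx0 ht0 (emb ![25, 342, 0])
  have hlead := sumb_lead hp h19 3 x0 hx0
  rw [red_Phi_emb x0 x0 t0 hlead, EB hp h19 hS hr x0 t0 hx0 ht0] at h1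
  have h2 : Tz (p ^ 3) p x0 = evN c3 p x0 (emb ![25, 342, 0]) := by
    unfold Tz evN
    apply Finset.sum_congr rfl
    intro k _
    congr 2
    unfold emb
    rw [eval_finsetSum]
    simp only [Fin.sum_univ_three, eval_mul, eval_C, eval_pow, eval_X]
    simp
    ring
  rw [h2, h1]
  simp
  ring

/-- (a), inert case -/
theorem Sz_inert {p : ℕ} [Fact p.Prime] (hp : 5 ≤ p) (hj : jacobiSym (p : ℤ) 19 = -1)
    {S : Sys ℤ_[p]} (hS : S.Good p 3 a3 c3) (hr : S.rho = (p : ℤ_[p]))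
    (x0 : ZMod (p ^ 2)) (hx0 : (-884736) * x0 = 1) : Sz (p ^ 2) p x0 = 0 := by
  have h19 : p ≠ 19 := by
    rintro rfl
    revert hj
    have : jacobiSym ((19 : ℕ) : ℤ) 19 = 0 := by norm_num
    rw [this]
    norm_num
  obtain ⟨t0, ht0⟩ := sumb_t0 hp 2 x0 hx0
  have h1 := sumb_key hp h19 hS hr 2 (by norm_num) x0 t0 hx0 ht0 1
  have h2 : Sz (p ^ 2) p x0 = evN c3 p x0 1 := by
    unfold Sz evN
    apply Finset.sum_congr rfl
    intro k _
    simp
  rw [h2, h1]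
  have h3 := EI hp hj hS hr 2 x0 t0 hx0 ht0 0
  have h4 : (p : ZMod (p ^ 2)) ^ 2 = 0 := by
    have := ZMod.natCast_self (p ^ 2)
    rwa [Nat.cast_pow] at this
  rw [h4, zero_dvd_iff] at h3
  unfold Mmat at h3
  simpa using h3

end Pool.Agent.H.MP_7425ae_nt
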