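import Pool.Agent.H.MP_7425ae_nt.RSeqA

/-! Products and values of `r_j`. -/

set_option autoImplicit false

open Polynomial Finset

namespace Pool.Agent.H.MP_7425ae_nt

variable {p : ℕ} [Fact p.Prime] {R : Type} [CommRing R]

theorem rseqb_prod_aux (n : ℕ) (a : ℤ[X]) (s : ℕ) (f : ℤ_[p] →+* R) (hs : (p : R) ^ s = 0)
    (j : ℕ) (hj : j < p) :
    (rr p n a s j).map f * (∏ i ∈ range j, (C (p : R) * X + C ((i : R) + 1))) ^ n
      = ∏ i ∈ range j, (aR a R).comp (C (p : R) * X + C (i : R)) := by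
  induction j with
  | zero => simp [rr_zero]
  | succ j ih =>
    have h1 := ih (by omega)
    have h2 := rr_succ n a s j hj f hs
    rw [prod_range_succ, prod_range_succ, mul_pow, ← h1]
    calc (rr p n a s (j + 1)).map f *
          ((∏ i ∈ range j, (C (p : R) * X + C ((i : R) + 1))) ^ n *
            (C (p : R) * X + C ((j : R) + 1)) ^ n)
        = ((rr p n a s (j + 1)).map f * (C (p : R) * X + C ((j : R) + 1)) ^ n) *
          (∏ i ∈ range j, (C (p : R) * X + C ((i : R) + 1))) ^ n := by ring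
      _ = ((rr p n a s j).map f * (aR a R).comp (C (p : R) * X + C (j : R))) *
          (∏ i ∈ range j, (C (p : R) * X + C ((i : R) + 1))) ^ n := by rw [h2]
      _ = _ := by ring

/-- `prod_{i<p} a(pX+i) = a(pX+p-1) r_{p-1}(X) prod_{1<=i<p} (pX+i)^n` -/
theorem rr_prod (n : ℕ) (a : ℤ[X]) (s : ℕ) (f : ℤ_[p] →+* R) (hs : (p : R) ^ s = 0) :
    (aR a R).comp (C (p : R) * X + C ((p : R) - 1)) * (rr p n a s (p - 1)).map f
        * (∏ i ∈ range (p - 1), (C (p : R) * X + C ((i : R) + 1))) ^ n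
      = ∏ i ∈ range p, (aR a R).comp (C (p : R) * X + C (i : R)) := by
  have hp : 0 < p := (Fact.out : p.Prime).pos
  obtain ⟨m, hm⟩ : ∃ m, p = m + 1 := ⟨p - 1, by omega⟩
  have h1 := rseqb_prod_aux n a s f hs (p - 1) (by omega)
  rw [mul_assoc, h1]
  have h2 : ((p : R) - 1) = ((p - 1 : ℕ) : R) := by
    rw [Nat.cast_sub (by omega), Nat.cast_one]
  have h3 : range p = range (p - 1 + 1) := by
    congr 1
    omega
  rw [h3, prod_range_succ, h2]
  ring

omit [Fact p.Prime] in
theorem rseqb_unit (m s : ℕ) (hm : Nat.Coprime m p) (hs : (p : R) ^ s = 0) :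
    IsUnit (m : R) := by
  have h1 : IsCoprime (m : ℤ) ((p ^ s : ℕ) : ℤ) :=
    Nat.isCoprime_iff_coprime.2 (Nat.Coprime.pow_right s hm)
  obtain ⟨u, v, huv⟩ := h1
  have h2 : ((u : ℤ) : R) * (m : R) = 1 := by
    have h3 := congrArg (Int.cast : ℤ → R) huv
    push_cast at h3
    rw [hs, mul_zero, add_zero] at h3
    exact h3
  exact IsUnit.of_mul_eq_one _ (by rw [mul_comm]; exact h2)

/-- values: `r_j(k) c_{pk} = c_{pk+j}` -/
theorem rr_val {n : ℕ} {a : ℤ[X]} {c : ℕ → ℤ}
    (hc : ∀ k : ℕ, ((k : ℤ) + 1) ^ n * c (k + 1) = a.eval (k : ℤ) * c k)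
    (s : ℕ) (f : ℤ_[p] →+* R) (hs : (p : R) ^ s = 0) (k j : ℕ) (hj : j < p) :
    ((rr p n a s j).map f).eval (k : R) * ((c (p * k) : ℤ) : R) = ((c (p * k + j) : ℤ) : R) := by
  induction j with
  | zero => simp [rr_zero]
  | succ j ih =>
    have h1 := ih (by omega)
    have h2 := congrArg (fun q : R[X] => q.eval (k : R)) (rr_succ n a s j hj f hs)
    simp only [eval_mul, eval_pow, eval_add, eval_C, eval_X, eval_comp] at h2
    have h3 : (aR a R).eval ((p : R) * (k : R) + (j : R)) =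
        ((a.eval ((p * k + j : ℕ) : ℤ) : ℤ) : R) := by
      have h4 := eval_intCast_map (Int.castRingHom R) a ((p * k + j : ℕ) : ℤ)
      simp only [eq_intCast, Int.cast_id] at h4
      rw [← h4]
      unfold aR
      congr 1
      push_cast
      ring
    have h5 : (((p * k + j + 1 : ℕ) : R)) ^ n * ((c (p * k + j + 1) : ℤ) : R) =
        ((a.eval ((p * k + j : ℕ) : ℤ) : ℤ) : R) * ((c (p * k + j) : ℤ) : R) := by
      have h6 := congrArg (Int.cast : ℤ → R) (hc (p * k + j))
      push_cast at h6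
      push_cast
      exact h6
    have hcop : Nat.Coprime (p * k + j + 1) p := by
      have hprime : p.Prime := Fact.out
      rw [Nat.coprime_comm, hprime.coprime_iff_not_dvd]
      intro hdvd
      have h7 : p ∣ j + 1 := by
        have h8 : p ∣ p * k + (j + 1) := by rwa [add_assoc] at hdvd
        exact (Nat.dvd_add_right (dvd_mul_right p k)).1 h8
      exact absurd (Nat.le_of_dvd (by omega) h7) (by omega)
    have hu : IsUnit ((((p * k + j + 1 : ℕ) : R)) ^ n) := (rseqb_unit _ s hcop hs).pow n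
    have hcast : (p : R) * (k : R) + ((j : R) + 1) = ((p * k + j + 1 : ℕ) : R) := by
      push_cast
      ring
    rw [hcast, h3] at h2
    apply hu.mul_left_cancel
    rw [← add_assoc, h5, ← h1]
    calc (((p * k + j + 1 : ℕ) : R)) ^ n *
          (((rr p n a s (j + 1)).map f).eval (k : R) * ((c (p * k) : ℤ) : R))
        = (((rr p n a s (j + 1)).map f).eval (k : R) * (((p * k + j + 1 : ℕ) : R)) ^ n) *
          ((c (p * k) : ℤ) : R) := by ring
      _ = _ := by rw [h2]; ring

end Pool.Agent.H.MP_7425ae_nt
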