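import Pool.Agent.H.MP_7425ae_nt.ThDef

/-! The functional equation of `Theta`. -/

set_option autoImplicit false

open Polynomial Finset

namespace Pool.Agent.H.MP_7425ae_nt

variable {p : ℕ} [Fact p.Prime] {R : Type} [CommRing R]

theorem thfe_block {M : Type*} [CommMonoid M] (F : ℕ → M) (m n : ℕ) :
    ∏ l ∈ range (m * n), F l = ∏ i ∈ range n, ∏ j ∈ range m, F (m * i + j) := by
  induction n with
  | zero => simp
  | succ n ih => rw [Nat.mul_succ, Finset.prod_range_add, ih, Finset.prod_range_succ]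

/-- `B_m = (mX+1)(mX+2)...(mX+m)` -/
noncomputable def thfe_B (p : ℕ) [Fact p.Prime] (m : ℕ) : ℤ_[p][X] :=
  ∏ j ∈ range m, (C ((m : ℕ) : ℤ_[p]) * X + C ((j + 1 : ℕ) : ℤ_[p]))

/-- `N_m` -/
noncomputable def thfe_N (p : ℕ) [Fact p.Prime] (m : ℕ) : ℤ_[p][X] :=
  ∏ t ∈ range m, ∏ i ∈ range (p - 1),
    (C ((m * p : ℕ) : ℤ_[p]) * X + C ((p * t + i + 1 : ℕ) : ℤ_[p]))

theorem thfe_QB (m : ℕ) : ∏ i ∈ range p, (thfe_B p m).comp (C (p : ℤ_[p]) * X + C (i : ℤ_[p]))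
    = C ((p : ℤ_[p]) ^ m) * thfe_B p m * thfe_N p m := by
  set F : ℕ → ℤ_[p][X] := fun l => C ((m * p : ℕ) : ℤ_[p]) * X + C ((l + 1 : ℕ) : ℤ_[p]) with hF
  have e1 : ∏ i ∈ range p, (thfe_B p m).comp (C (p : ℤ_[p]) * X + C (i : ℤ_[p]))
      = ∏ l ∈ range (m * p), F l := by
    rw [thfe_block]
    apply Finset.prod_congr rfl
    intro i _
    unfold thfe_B
    rw [Polynomial.prod_comp]
    apply Finset.prod_congr rfl
    intro j _
    simp only [hF, add_comp, mul_comp, C_comp, X_comp]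
    push_cast
    simp only [C_add, C_mul, C_1, map_natCast]
    ring
  have hp1 : p - 1 + 1 = p := Nat.sub_add_cancel (Fact.out : p.Prime).one_lt.le
  have e2 : ∏ l ∈ range (m * p), F l
      = ∏ t ∈ range m, ((∏ i ∈ range (p - 1), F (p * t + i)) * F (p * t + (p - 1))) := by
    rw [mul_comm m p, thfe_block]
    apply Finset.prod_congr rfl
    intro t _
    rw [← Finset.prod_range_succ, hp1]
  have e3 : ∀ t : ℕ, F (p * t + (p - 1))
      = C (p : ℤ_[p]) * (C ((m : ℕ) : ℤ_[p]) * X + C ((t + 1 : ℕ) : ℤ_[p])) := by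
    intro t
    simp only [hF]
    rw [show p * t + (p - 1) + 1 = p * (t + 1) by
      have : p * (t + 1) = p * t + p := by ring
      omega]
    push_cast
    simp only [C_add, C_mul, C_1]
    ring
  rw [e1, e2, Finset.prod_mul_distrib]
  simp only [e3]
  rw [Finset.prod_mul_distrib, Finset.prod_const, Finset.card_range, ← C_pow]
  unfold thfe_B thfe_N
  ring

theorem thfe_B_ne (m : ℕ) : thfe_B p m ≠ 0 := by
  unfold thfe_B
  rw [Finset.prod_ne_zero_iff]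
  intro j _ h
  have h0 := congrArg (fun P => P.coeff 0) h
  simp at h0
  have : ((j + 1 : ℕ) : ℤ_[p]) ≠ 0 := by exact_mod_cast Nat.succ_ne_zero j
  apply this
  push_cast
  exact h0

theorem thfe_p_ne (m : ℕ) : (C ((p : ℤ_[p]) ^ m)) ≠ 0 := by
  rw [Ne, C_eq_zero]
  apply pow_ne_zero
  exact_mod_cast (Fact.out : p.Prime).ne_zero

theorem thfe_B36 : aR a3 ℤ_[p] * thfe_B p 3 = thfe_B p 6 := by
  unfold thfe_B aR a3
  have c3 : (C (3 : ℤ_[p])) = 3 := map_ofNat C 3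
  have c6 : (C (6 : ℤ_[p])) = 6 := map_ofNat C 6
  simp [Finset.prod_range_succ, c3, c6]
  ring

theorem thfe_B26 : aR a2 ℤ_[p] * thfe_B p 3 * thfe_B p 2 = thfe_B p 1 * thfe_B p 6 := by
  unfold thfe_B aR a2
  have c2 : (C (2 : ℤ_[p])) = 2 := map_ofNat C 2
  have c3 : (C (3 : ℤ_[p])) = 3 := map_ofNat C 3
  have c6 : (C (6 : ℤ_[p])) = 6 := map_ofNat C 6
  simp [Finset.prod_range_succ, c2, c3, c6]
  ring

theorem thfe_poly3 : (∏ i ∈ range p, (aR a3 ℤ_[p]).comp (C (p : ℤ_[p]) * X + C (i : ℤ_[p])))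
    * thfe_N p 3 = C ((p : ℤ_[p]) ^ 3) * aR a3 ℤ_[p] * thfe_N p 6 := by
  have h6 := thfe_QB (p := p) 6
  rw [← thfe_B36] at h6
  simp only [mul_comp] at h6
  rw [Finset.prod_mul_distrib, thfe_QB 3] at h6
  have hne : C ((p : ℤ_[p]) ^ 3) * thfe_B p 3 ≠ 0 := mul_ne_zero (thfe_p_ne 3) (thfe_B_ne 3)
  apply mul_left_cancel₀ hne
  rw [show (p : ℤ_[p]) ^ 6 = (p : ℤ_[p]) ^ 3 * (p : ℤ_[p]) ^ 3 by ring, C_mul] at h6
  linear_combination h6

theorem thfe_poly2 : (∏ i ∈ range p, (aR a2 ℤ_[p]).comp (C (p : ℤ_[p]) * X + C (i : ℤ_[p])))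
    * (thfe_N p 3 * thfe_N p 2)
    = C ((p : ℤ_[p]) ^ 2) * aR a2 ℤ_[p] * (thfe_N p 1 * thfe_N p 6) := by
  have h6 : ∏ i ∈ range p, (thfe_B p 1 * thfe_B p 6).comp (C (p : ℤ_[p]) * X + C (i : ℤ_[p]))
      = C ((p : ℤ_[p]) ^ 1) * thfe_B p 1 * thfe_N p 1
        * (C ((p : ℤ_[p]) ^ 6) * thfe_B p 6 * thfe_N p 6) := by
    simp only [mul_comp]
    rw [Finset.prod_mul_distrib, thfe_QB 6, thfe_QB 1]
  rw [← thfe_B26] at h6
  simp only [mul_comp] at h6
  rw [Finset.prod_mul_distrib, Finset.prod_mul_distrib, thfe_QB 3, thfe_QB 2] at h6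
  have hne : C ((p : ℤ_[p]) ^ 5) * (thfe_B p 3 * thfe_B p 2) ≠ 0 :=
    mul_ne_zero (thfe_p_ne 5) (mul_ne_zero (thfe_B_ne 3) (thfe_B_ne 2))
  apply mul_left_cancel₀ hne
  have hB := thfe_B26 (p := p)
  have q5 : C ((p : ℤ_[p]) ^ 5) = C ((p : ℤ_[p]) ^ 3) * C ((p : ℤ_[p]) ^ 2) := by
    rw [← C_mul]; congr 1; ring
  have q7 : C ((p : ℤ_[p]) ^ 1) * C ((p : ℤ_[p]) ^ 6)
      = C ((p : ℤ_[p]) ^ 3) * C ((p : ℤ_[p]) ^ 2) * C ((p : ℤ_[p]) ^ 2) := by
    rw [← C_mul, ← C_mul, ← C_mul]; congr 1; ring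
  rw [q5]
  calc C ((p : ℤ_[p]) ^ 3) * C ((p : ℤ_[p]) ^ 2) * (thfe_B p 3 * thfe_B p 2)
        * ((∏ i ∈ range p, (aR a2 ℤ_[p]).comp (C (p : ℤ_[p]) * X + C (i : ℤ_[p])))
          * (thfe_N p 3 * thfe_N p 2))
      = (∏ i ∈ range p, (aR a2 ℤ_[p]).comp (C (p : ℤ_[p]) * X + C (i : ℤ_[p])))
          * (C ((p : ℤ_[p]) ^ 3) * thfe_B p 3 * thfe_N p 3)
          * (C ((p : ℤ_[p]) ^ 2) * thfe_B p 2 * thfe_N p 2) := by ring
    _ = _ := h6
    _ = (C ((p : ℤ_[p]) ^ 1) * C ((p : ℤ_[p]) ^ 6)) * (thfe_B p 1 * thfe_B p 6)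
        * (thfe_N p 1 * thfe_N p 6) := by ring
    _ = _ := by rw [q7, ← hB]; ring

/-- `N_m G(mX) = w^m G(mX+m)` -/
theorem thfe_NG {G : ℕ → ℤ_[p][X]} (hG : IsGs p G) (s m : ℕ) (f : ℤ_[p] →+* R)
    (hs : (p : R) ^ s = 0) :
    (thfe_N p m).map f * ((G s).comp (C (m : ℤ_[p]) * X)).map f
      = C (f (((p - 1).factorial : ℕ) : ℤ_[p]) ^ m)
        * (((G s).comp (C (m : ℤ_[p]) * X)).map f).comp (X + 1) := by
  set w : ℤ_[p] := (((p - 1).factorial : ℕ) : ℤ_[p]) with hw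
  -- the factors of `N_m`
  have e1 : ∀ t : ℕ, ∏ i ∈ range (p - 1),
      (C ((m * p : ℕ) : ℤ_[p]) * X + C ((p * t + i + 1 : ℕ) : ℤ_[p]))
      = C w * ((Ep p).comp (C (p : ℤ_[p]) * X)).comp (C (m : ℤ_[p]) * X + C (t : ℤ_[p])) := by
    intro t
    have h := congrArg (fun P => (P.comp (C (p : ℤ_[p]) * X)).comp
      (C (m : ℤ_[p]) * X + C (t : ℤ_[p]))) (Ep_fact p)
    simp only [mul_comp, C_comp, Polynomial.prod_comp, add_comp, X_comp] at h
    rw [comp_assoc] at h ⊢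
    simp only [mul_comp, C_comp, X_comp] at h ⊢
    rw [← hw] at h
    rw [h]
    apply Finset.prod_congr rfl
    intro i _
    push_cast
    simp only [C_add, C_mul, C_1, map_natCast]
    ring
  have hsh : ((G s).comp (X + 1)).map f = ((G s) * (Ep p).comp (C (p : ℤ_[p]) * X)).map f := by
    obtain ⟨A, hA⟩ := hG.shift s
    have h1 : (G s).comp (X + 1) = G s * (Ep p).comp (C (p : ℤ_[p]) * X)
        + C ((p : ℤ_[p]) ^ s) * A := by rw [← hA]; ring
    have h2 : (C ((p : ℤ_[p]) ^ s)).map f = 0 := by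
      rw [map_C, map_pow, map_natCast, hs, C_0]
    rw [h1, Polynomial.map_add, Polynomial.map_mul (p := C ((p : ℤ_[p]) ^ s)), h2, zero_mul,
      add_zero]
  -- the shift composed with `mX + t`
  have e2 : ∀ t : ℕ, ((G s).comp (C (m : ℤ_[p]) * X + C ((t + 1 : ℕ) : ℤ_[p]))).map f
      = ((G s).comp (C (m : ℤ_[p]) * X + C (t : ℤ_[p]))).map f
        * (((Ep p).comp (C (p : ℤ_[p]) * X)).comp
          (C (m : ℤ_[p]) * X + C (t : ℤ_[p]))).map f := by
    intro t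
    have h1 : (G s).comp (C (m : ℤ_[p]) * X + C ((t + 1 : ℕ) : ℤ_[p]))
        = ((G s).comp (X + 1)).comp (C (m : ℤ_[p]) * X + C (t : ℤ_[p])) := by
      rw [comp_assoc]
      congr 1
      simp only [add_comp, X_comp, one_comp]
      push_cast
      rw [C_add, C_1]
      ring
    rw [h1, Polynomial.map_comp, hsh, Polynomial.map_mul, mul_comp, ← Polynomial.map_comp,
      ← Polynomial.map_comp]
  have e3 : ∀ k : ℕ, ((G s).comp (C (m : ℤ_[p]) * X + C (k : ℤ_[p]))).map f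
      = ((G s).comp (C (m : ℤ_[p]) * X)).map f
        * ∏ t ∈ range k, (((Ep p).comp (C (p : ℤ_[p]) * X)).comp
          (C (m : ℤ_[p]) * X + C (t : ℤ_[p]))).map f := by
    intro k
    induction k with
    | zero => simp
    | succ k ih => rw [e2, ih, Finset.prod_range_succ, mul_assoc]
  have e4 : (thfe_N p m).map f = C (f w ^ m) * ∏ t ∈ range m,
      (((Ep p).comp (C (p : ℤ_[p]) * X)).comp (C (m : ℤ_[p]) * X + C (t : ℤ_[p]))).map f := by
    unfold thfe_N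
    simp only [e1]
    rw [Finset.prod_mul_distrib, Finset.prod_const, Finset.card_range, Polynomial.map_mul,
      Polynomial.map_pow, map_C, Polynomial.map_prod, C_pow]
  have e5 : (((G s).comp (C (m : ℤ_[p]) * X)).map f).comp (X + 1)
      = ((G s).comp (C (m : ℤ_[p]) * X + C (m : ℤ_[p]))).map f := by
    have h1 : (G s).comp (C (m : ℤ_[p]) * X + C (m : ℤ_[p]))
        = ((G s).comp (C (m : ℤ_[p]) * X)).comp (X + 1) := by
      rw [comp_assoc]
      congr 1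
      simp only [mul_comp, C_comp, X_comp]
      ring
    rw [h1, Polynomial.map_comp (q := X + 1)]
    simp
  rw [e4, e5, e3 m]
  ring

theorem thfe_w_unit (f : ℤ_[p] →+* R) : IsUnit (f (((p - 1).factorial : ℕ) : ℤ_[p])) := by
  apply IsUnit.map
  rw [PadicInt.isUnit_iff, PadicInt.norm_natCast_eq_one_iff]
  rw [Nat.Prime.coprime_iff_not_dvd Fact.out, Nat.Prime.dvd_factorial Fact.out, not_le]
  exact Nat.sub_lt (Fact.out : p.Prime).pos one_pos

theorem thfe_comp_unit {P : R[X]} (h : IsUnit P) (Q : R[X]) : IsUnit (P.comp Q) := by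
  obtain ⟨u, hu⟩ := h.exists_right_inv
  refine IsUnit.of_mul_eq_one (u.comp Q) ?_
  rw [← mul_comp, hu, one_comp]

/-- `N_m G(mX)` is a unit -/
theorem thfe_NG_unit {G : ℕ → ℤ_[p][X]} (hG : IsGs p G) (s m : ℕ) (f : ℤ_[p] →+* R)
    (hs : (p : R) ^ s = 0) (hu : IsUnit (((G s).comp (C (m : ℤ_[p]) * X)).map f)) :
    IsUnit ((thfe_N p m).map f * ((G s).comp (C (m : ℤ_[p]) * X)).map f) := by
  rw [thfe_NG hG s m f hs]
  exact ((thfe_w_unit f).pow m |>.map C).mul (thfe_comp_unit hu _)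

theorem thfe_N1 (f : ℤ_[p] →+* R) : (thfe_N p 1).map f
    = ∏ i ∈ range (p - 1), (C (p : R) * X + C ((i : R) + 1)) := by
  unfold thfe_N
  rw [Finset.prod_range_one, Polynomial.map_prod]
  apply Finset.prod_congr rfl
  intro i _
  simp

theorem thfe_mapP (a : ℤ[X]) (f : ℤ_[p] →+* R) :
    (∏ i ∈ range p, (aR a ℤ_[p]).comp (C (p : ℤ_[p]) * X + C (i : ℤ_[p]))).map f
    = ∏ i ∈ range p, (aR a R).comp (C (p : R) * X + C (i : R)) := by
  have h : (aR a ℤ_[p]).map f = aR a R := by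
    unfold aR
    rw [Polynomial.map_map]
    congr 1
    exact RingHom.ext_int _ _
  rw [Polynomial.map_prod]
  apply Finset.prod_congr rfl
  intro i _
  rw [Polynomial.map_comp, h]
  simp

theorem thfe_mapa (a : ℤ[X]) (f : ℤ_[p] →+* R) : (aR a ℤ_[p]).map f = aR a R := by
  unfold aR
  rw [Polynomial.map_map]
  congr 1
  exact RingHom.ext_int _ _

/-- the functional equation of `Theta`, with `prod_{i<p} a(pX+i)` in terms of the products
`N_m = prod_{t<m} prod_{0<i<p} (mpX+pt+i)`: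
`prod_{i<p} a(pX+i) N_3 = p^3 a(X) N_6` in `ℤ[X]`. -/
theorem Th3_fe (hp : 5 ≤ p) {G : ℕ → ℤ_[p][X]} (hG : IsGs p G) (s : ℕ) (f : ℤ_[p] →+* R)
    (hs : (p : R) ^ s = 0) :
    (Th3 G s).map f * (∏ i ∈ range p, (aR a3 R).comp (C (p : R) * X + C (i : R)))
      = C ((p : R) ^ 3) * aR a3 R * ((Th3 G s).map f).comp (X + 1)
        * (∏ i ∈ range (p - 1), (C (p : R) * X + C ((i : R) + 1))) ^ 3 := by
  have hT := Th3_spec hp hG s f hs
  have hinv := thdef_geo_mul (thdef_H3 hG s) s f hs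
  have hT1 := congrArg (fun P => P.comp (X + 1)) hT
  have hP := congrArg (Polynomial.map f) (thfe_poly3 (p := p))
  have n6 := thfe_NG hG s 6 f hs
  have n3 := thfe_NG hG s 3 f hs
  have n1 := thfe_NG hG s 1 f hs
  have hU3 := fun hu => thfe_NG_unit hG s 3 f hs hu
  rw [Nat.cast_one, C_1, one_mul, comp_X] at n1
  push_cast at n6 n3 hU3
  simp only [Polynomial.map_mul, mul_comp, Polynomial.map_pow, pow_comp] at hT hT1 hinv
  have hc : (C ((p : ℤ_[p]) ^ 3)).map f = C ((p : R) ^ 3) := by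
    rw [map_C, map_pow, map_natCast]
  rw [Polynomial.map_mul, Polynomial.map_mul, Polynomial.map_mul, thfe_mapP, thfe_mapa, hc] at hP
  rw [thfe_N1] at n1
  set T := (Th3 G s).map f
  set g := (G s).map f
  set g3 := ((G s).comp (C 3 * X)).map f
  set g6 := ((G s).comp (C 6 * X)).map f
  set P := ∏ i ∈ range p, (aR a3 R).comp (C (p : R) * X + C (i : R))
  set μ := ∏ i ∈ range (p - 1), (C (p : R) * X + C ((i : R) + 1))
  set N3 := (thfe_N p 3).map f
  set N6 := (thfe_N p 6).map f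
  set W := f (((p - 1).factorial : ℕ) : ℤ_[p])
  have hu : IsUnit (g3 * g ^ 3) :=
    IsUnit.of_mul_eq_one _ ((mul_comm _ _).trans hinv)
  have hug3 : IsUnit g3 := isUnit_of_mul_isUnit_left hu
  have hug : IsUnit (g ^ 3) := isUnit_of_mul_isUnit_right hu
  have hK : IsUnit (N3 * g3 * g ^ 3) := (hU3 hug3).mul hug
  apply hK.mul_right_cancel
  have W6 : C (W ^ 6) = C (W ^ 3) * C (W ^ 1) ^ 3 := by
    rw [← C_pow, ← C_mul]; congr 1; ring
  calc T * P * (N3 * g3 * g ^ 3) = (P * N3) * (T * (g3 * g ^ 3)) := by ring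
    _ = C ((p : R) ^ 3) * aR a3 R * (N6 * g6) := by rw [hP, hT]; ring
    _ = C ((p : R) ^ 3) * aR a3 R * (C (W ^ 3) * C (W ^ 1) ^ 3
        * (T.comp (X + 1) * (g3.comp (X + 1) * g.comp (X + 1) ^ 3))) := by
        rw [n6, W6, hT1]
    _ = C ((p : R) ^ 3) * aR a3 R * T.comp (X + 1) * (C (W ^ 3) * g3.comp (X + 1))
        * (C (W ^ 1) * g.comp (X + 1)) ^ 3 := by ring
    _ = C ((p : R) ^ 3) * aR a3 R * T.comp (X + 1) * μ ^ 3 * (N3 * g3 * g ^ 3) := by
        rw [← n3, ← n1]; ring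

theorem Th2_fe (hp : 5 ≤ p) {G : ℕ → ℤ_[p][X]} (hG : IsGs p G) (s : ℕ) (f : ℤ_[p] →+* R)
    (hs : (p : R) ^ s = 0) :
    (Th2 G s).map f * (∏ i ∈ range p, (aR a2 R).comp (C (p : R) * X + C (i : R)))
      = C ((p : R) ^ 2) * aR a2 R * ((Th2 G s).map f).comp (X + 1)
        * (∏ i ∈ range (p - 1), (C (p : R) * X + C ((i : R) + 1))) ^ 2 := by
  have hT := Th2_spec hp hG s f hs
  have hinv := thdef_geo_mul (thdef_H2 hG s) s f hs
  have hT1 := congrArg (fun P => P.comp (X + 1)) hT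
  have hP := congrArg (Polynomial.map f) (thfe_poly2 (p := p))
  have n6 := thfe_NG hG s 6 f hs
  have n3 := thfe_NG hG s 3 f hs
  have n2 := thfe_NG hG s 2 f hs
  have n1 := thfe_NG hG s 1 f hs
  have hU3 := fun hu => thfe_NG_unit hG s 3 f hs hu
  have hU2 := fun hu => thfe_NG_unit hG s 2 f hs hu
  rw [Nat.cast_one, C_1, one_mul, comp_X] at n1
  push_cast at n6 n3 n2 hU3 hU2
  simp only [Polynomial.map_mul, mul_comp, Polynomial.map_pow, pow_comp] at hT hT1 hinv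
  have hc : (C ((p : ℤ_[p]) ^ 2)).map f = C ((p : R) ^ 2) := by
    rw [map_C, map_pow, map_natCast]
  rw [Polynomial.map_mul, Polynomial.map_mul, Polynomial.map_mul, Polynomial.map_mul,
    Polynomial.map_mul, thfe_mapP, thfe_mapa, hc, thfe_N1] at hP
  rw [thfe_N1] at n1
  set T := (Th2 G s).map f
  set g := (G s).map f
  set g3 := ((G s).comp (C 3 * X)).map f
  set g2 := ((G s).comp (C 2 * X)).map f
  set g6 := ((G s).comp (C 6 * X)).map f
  set P := ∏ i ∈ range p, (aR a2 R).comp (C (p : R) * X + C (i : R))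
  set μ := ∏ i ∈ range (p - 1), (C (p : R) * X + C ((i : R) + 1))
  set N2 := (thfe_N p 2).map f
  set N3 := (thfe_N p 3).map f
  set N6 := (thfe_N p 6).map f
  set W := f (((p - 1).factorial : ℕ) : ℤ_[p])
  have hu : IsUnit (g3 * g2 * g) :=
    IsUnit.of_mul_eq_one _ ((mul_comm _ _).trans hinv)
  have hug : IsUnit g := isUnit_of_mul_isUnit_right hu
  have hu32 : IsUnit (g3 * g2) := isUnit_of_mul_isUnit_left hu
  have hug3 : IsUnit g3 := isUnit_of_mul_isUnit_left hu32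
  have hug2 : IsUnit g2 := isUnit_of_mul_isUnit_right hu32
  have hK : IsUnit ((N3 * g3) * (N2 * g2) * g) := ((hU3 hug3).mul (hU2 hug2)).mul hug
  apply hK.mul_right_cancel
  have W6 : C (W ^ 6) = C (W ^ 3) * C (W ^ 2) * C (W ^ 1) := by
    rw [← C_mul, ← C_mul]; congr 1; ring
  calc T * P * ((N3 * g3) * (N2 * g2) * g) = (P * (N3 * N2)) * (T * (g3 * g2 * g)) := by ring
    _ = C ((p : R) ^ 2) * aR a2 R * μ * (N6 * g6) := by rw [hP, hT]; ring
    _ = C ((p : R) ^ 2) * aR a2 R * μ * (C (W ^ 3) * C (W ^ 2) * C (W ^ 1)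
        * (T.comp (X + 1) * (g3.comp (X + 1) * g2.comp (X + 1) * g.comp (X + 1)))) := by
        rw [n6, W6, hT1]
    _ = C ((p : R) ^ 2) * aR a2 R * T.comp (X + 1) * μ * (C (W ^ 3) * g3.comp (X + 1))
        * (C (W ^ 2) * g2.comp (X + 1)) * (C (W ^ 1) * g.comp (X + 1)) := by ring
    _ = C ((p : R) ^ 2) * aR a2 R * T.comp (X + 1) * μ ^ 2 * ((N3 * g3) * (N2 * g2) * g) := by
        rw [← n3, ← n2, ← n1]; ring

end Pool.Agent.H.MP_7425ae_nt
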