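import Pool.Agent.H.MP_7425ae_nt.ThDef

/-! The values of `Theta`. -/

set_option autoImplicit false

open Polynomial Finset

namespace Pool.Agent.H.MP_7425ae_nt

variable {p : ℕ} [Fact p.Prime] {R : Type} [CommRing R]

theorem thval_c3 (k : ℕ) : ((6 * k).choose (3 * k) * (3 * k).choose k * (2 * k).choose k)
    * ((3 * k).factorial * k.factorial ^ 3) = (6 * k).factorial := by
  have h1 := Nat.choose_mul_factorial_mul_factorial (show 3 * k ≤ 6 * k by omega)
  have h2 := Nat.choose_mul_factorial_mul_factorial (show k ≤ 3 * k by omega)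
  have h3 := Nat.choose_mul_factorial_mul_factorial (show k ≤ 2 * k by omega)
  rw [show 6 * k - 3 * k = 3 * k by omega] at h1
  rw [show 3 * k - k = 2 * k by omega] at h2
  rw [show 2 * k - k = k by omega] at h3
  calc ((6 * k).choose (3 * k) * (3 * k).choose k * (2 * k).choose k)
        * ((3 * k).factorial * k.factorial ^ 3)
      = (6 * k).choose (3 * k) * (3 * k).factorial
        * ((3 * k).choose k * k.factorial * ((2 * k).choose k * k.factorial * k.factorial)) := by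
        ring
    _ = (6 * k).factorial := by rw [h3, h2, h1]

theorem thval_c2 (k : ℕ) : ((6 * k).choose (3 * k) * (3 * k).choose k)
    * ((3 * k).factorial * (2 * k).factorial * k.factorial) = (6 * k).factorial := by
  have h1 := Nat.choose_mul_factorial_mul_factorial (show 3 * k ≤ 6 * k by omega)
  have h2 := Nat.choose_mul_factorial_mul_factorial (show k ≤ 3 * k by omega)
  rw [show 6 * k - 3 * k = 3 * k by omega] at h1
  rw [show 3 * k - k = 2 * k by omega] at h2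
  calc ((6 * k).choose (3 * k) * (3 * k).choose k)
        * ((3 * k).factorial * (2 * k).factorial * k.factorial)
      = (6 * k).choose (3 * k) * (3 * k).factorial
        * ((3 * k).choose k * k.factorial * (2 * k).factorial) := by ring
    _ = (6 * k).factorial := by rw [h2, h1]

/-- values of `G_s` in `R` -/
theorem thval_G {G : ℕ → ℤ_[p][X]} (hG : IsGs p G) (s : ℕ) (f : ℤ_[p] →+* R)
    (hs : (p : R) ^ s = 0) (m : ℕ) : ((G s).map f).eval (m : R) = f (Gv p m) := by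
  obtain ⟨u, hu⟩ := hG.val s m
  have h1 : (G s).eval (m : ℤ_[p]) = Gv p m + (p : ℤ_[p]) ^ s * u := by rw [← hu]; ring
  rw [eval_natCast_map, h1, map_add, map_mul, map_pow, map_natCast, hs, zero_mul, add_zero]

theorem thval_Gc {G : ℕ → ℤ_[p][X]} (hG : IsGs p G) (s : ℕ) (f : ℤ_[p] →+* R)
    (hs : (p : R) ^ s = 0) (c : ℕ) (k : ℕ) :
    (((G s).comp (C (c : ℤ_[p]) * X)).map f).eval (k : R) = f (Gv p (c * k)) := by
  rw [← thval_G hG s f hs, Polynomial.map_comp, eval_comp]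
  congr 1
  simp

theorem thval_fact_ne (n : ℕ) : ((n.factorial : ℕ) : ℤ_[p]) ≠ 0 := by
  exact_mod_cast Nat.factorial_ne_zero n

theorem thval_p_ne : (p : ℤ_[p]) ≠ 0 := by
  exact_mod_cast (Fact.out : p.Prime).ne_zero

theorem thval_id3 (k : ℕ) : ((c3 (p * k) : ℤ) : ℤ_[p]) * (Gv p (3 * k) * Gv p k ^ 3)
    = ((c3 k : ℤ) : ℤ_[p]) * Gv p (6 * k) := by
  have e1 : ((c3 (p * k) : ℤ) : ℤ_[p])
      * ((((p * (3 * k)).factorial : ℕ) : ℤ_[p]) * (((p * k).factorial : ℕ) : ℤ_[p]) ^ 3)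
      = (((p * (6 * k)).factorial : ℕ) : ℤ_[p]) := by
    have h := thval_c3 (p * k)
    rw [show 3 * (p * k) = p * (3 * k) by ring, show 6 * (p * k) = p * (6 * k) by ring,
      show 2 * (p * k) = p * (2 * k) by ring] at h
    unfold c3
    rw [show 3 * (p * k) = p * (3 * k) by ring, show 6 * (p * k) = p * (6 * k) by ring,
      show 2 * (p * k) = p * (2 * k) by ring, ← h]
    push_cast
    ring
  have e2 : ((c3 k : ℤ) : ℤ_[p])
      * ((((3 * k).factorial : ℕ) : ℤ_[p]) * (((k).factorial : ℕ) : ℤ_[p]) ^ 3)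
      = (((6 * k).factorial : ℕ) : ℤ_[p]) := by
    have h := thval_c3 k
    unfold c3
    rw [← h]
    push_cast
    ring
  rw [Gv_fact, Gv_fact, Gv_fact, ← e2] at e1
  set w := ((((p - 1).factorial : ℕ)) : ℤ_[p]) with hw
  have hw0 : w ≠ 0 := thval_fact_ne _
  have h3 := thval_fact_ne (p := p) (3 * k)
  have h1 := thval_fact_ne (p := p) k
  have hne : (((3 * k).factorial : ℕ) : ℤ_[p]) * (((k).factorial : ℕ) : ℤ_[p]) ^ 3
      * ((p : ℤ_[p]) ^ (6 * k) * w ^ (6 * k)) ≠ 0 :=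
    mul_ne_zero (mul_ne_zero h3 (pow_ne_zero _ h1))
      (mul_ne_zero (pow_ne_zero _ thval_p_ne) (pow_ne_zero _ hw0))
  apply mul_left_cancel₀ hne
  have hp6 : (p : ℤ_[p]) ^ (6 * k) = (p : ℤ_[p]) ^ (3 * k) * ((p : ℤ_[p]) ^ k) ^ 3 := by
    rw [← pow_mul, ← pow_add]; congr 1; ring
  have hw6 : w ^ (6 * k) = w ^ (3 * k) * (w ^ k) ^ 3 := by
    rw [← pow_mul, ← pow_add]; congr 1; ring
  rw [hp6, hw6] at e1 ⊢
  linear_combination e1

theorem thval_id2 (k : ℕ) :
    ((c2 (p * k) : ℤ) : ℤ_[p]) * (Gv p (3 * k) * Gv p (2 * k) * Gv p k)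
    = ((c2 k : ℤ) : ℤ_[p]) * Gv p (6 * k) := by
  have e1 : ((c2 (p * k) : ℤ) : ℤ_[p])
      * ((((p * (3 * k)).factorial : ℕ) : ℤ_[p]) * (((p * (2 * k)).factorial : ℕ) : ℤ_[p])
        * (((p * k).factorial : ℕ) : ℤ_[p]))
      = (((p * (6 * k)).factorial : ℕ) : ℤ_[p]) := by
    have h := thval_c2 (p * k)
    rw [show 3 * (p * k) = p * (3 * k) by ring, show 6 * (p * k) = p * (6 * k) by ring,
      show 2 * (p * k) = p * (2 * k) by ring] at h
    unfold c2
    rw [show 3 * (p * k) = p * (3 * k) by ring, show 6 * (p * k) = p * (6 * k) by ring, ← h]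
    push_cast
    ring
  have e2 : ((c2 k : ℤ) : ℤ_[p])
      * ((((3 * k).factorial : ℕ) : ℤ_[p]) * (((2 * k).factorial : ℕ) : ℤ_[p])
        * (((k).factorial : ℕ) : ℤ_[p]))
      = (((6 * k).factorial : ℕ) : ℤ_[p]) := by
    have h := thval_c2 k
    unfold c2
    rw [← h]
    push_cast
    ring
  rw [Gv_fact, Gv_fact, Gv_fact, Gv_fact, ← e2] at e1
  set w := ((((p - 1).factorial : ℕ)) : ℤ_[p]) with hw
  have hw0 : w ≠ 0 := thval_fact_ne _
  have h3 := thval_fact_ne (p := p) (3 * k)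
  have h2 := thval_fact_ne (p := p) (2 * k)
  have h1 := thval_fact_ne (p := p) k
  have hne : (((3 * k).factorial : ℕ) : ℤ_[p]) * (((2 * k).factorial : ℕ) : ℤ_[p])
      * (((k).factorial : ℕ) : ℤ_[p])
      * ((p : ℤ_[p]) ^ (6 * k) * w ^ (6 * k)) ≠ 0 :=
    mul_ne_zero (mul_ne_zero (mul_ne_zero h3 h2) h1)
      (mul_ne_zero (pow_ne_zero _ thval_p_ne) (pow_ne_zero _ hw0))
  apply mul_left_cancel₀ hne
  have hp6 : (p : ℤ_[p]) ^ (6 * k)
      = (p : ℤ_[p]) ^ (3 * k) * (p : ℤ_[p]) ^ (2 * k) * (p : ℤ_[p]) ^ k := by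
    rw [← pow_add, ← pow_add]; congr 1; ring
  have hw6 : w ^ (6 * k) = w ^ (3 * k) * w ^ (2 * k) * w ^ k := by
    rw [← pow_add, ← pow_add]; congr 1; ring
  rw [hp6, hw6] at e1 ⊢
  linear_combination e1

/-- `Theta(k) c_k = c_{pk}` -/
theorem Th3_val (hp : 5 ≤ p) {G : ℕ → ℤ_[p][X]} (hG : IsGs p G) (s : ℕ) (f : ℤ_[p] →+* R)
    (hs : (p : R) ^ s = 0) (k : ℕ) :
    ((Th3 G s).map f).eval (k : R) * ((c3 k : ℤ) : R) = ((c3 (p * k) : ℤ) : R) := by
  have hu := congrArg (eval (k : R)) (thdef_geo_mul (thdef_H3 hG s) s f hs)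
  have hT := congrArg (eval (k : R)) (Th3_spec hp hG s f hs)
  have h6 := thval_Gc hG s f hs 6 k
  have h3 := thval_Gc hG s f hs 3 k
  have h1 := thval_G hG s f hs k
  push_cast at h6 h3
  rw [eval_mul, Polynomial.map_mul, eval_mul, Polynomial.map_pow, eval_pow, h3, h1] at hu hT
  rw [h6] at hT
  rw [eval_one] at hu
  have hid := congrArg f (thval_id3 (p := p) k)
  rw [map_mul, map_mul, map_mul, map_pow, map_intCast, map_intCast] at hid
  set U := f (Gv p (3 * k)) * f (Gv p k) ^ 3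
  set v := eval (k : R) (Polynomial.map f (geo s ((G s).comp (C 3 * X) * G s ^ 3)))
  set t := eval (k : R) (Polynomial.map f (Th3 G s))
  calc t * ((c3 k : ℤ) : R) = t * ((c3 k : ℤ) : R) * (v * U) := by rw [hu, mul_one]
    _ = ((c3 k : ℤ) : R) * (t * U) * v := by ring
    _ = ((c3 (p * k) : ℤ) : R) * U * v := by rw [hT, ← hid]
    _ = ((c3 (p * k) : ℤ) : R) * (v * U) := by ring
    _ = ((c3 (p * k) : ℤ) : R) := by rw [hu, mul_one]

theorem Th2_val (hp : 5 ≤ p) {G : ℕ → ℤ_[p][X]} (hG : IsGs p G) (s : ℕ) (f : ℤ_[p] →+* R)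
    (hs : (p : R) ^ s = 0) (k : ℕ) :
    ((Th2 G s).map f).eval (k : R) * ((c2 k : ℤ) : R) = ((c2 (p * k) : ℤ) : R) := by
  have hu := congrArg (eval (k : R)) (thdef_geo_mul (thdef_H2 hG s) s f hs)
  have hT := congrArg (eval (k : R)) (Th2_spec hp hG s f hs)
  have h6 := thval_Gc hG s f hs 6 k
  have h3 := thval_Gc hG s f hs 3 k
  have h2 := thval_Gc hG s f hs 2 k
  have h1 := thval_G hG s f hs k
  push_cast at h6 h3 h2
  rw [eval_mul, Polynomial.map_mul, eval_mul, Polynomial.map_mul, eval_mul, h3, h2, h1] at hu hT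
  rw [h6] at hT
  rw [eval_one] at hu
  have hid := congrArg f (thval_id2 (p := p) k)
  rw [map_mul, map_mul, map_mul, map_mul, map_intCast, map_intCast] at hid
  set U := f (Gv p (3 * k)) * f (Gv p (2 * k)) * f (Gv p k)
  set v := eval (k : R)
    (Polynomial.map f (geo s ((G s).comp (C 3 * X) * (G s).comp (C 2 * X) * G s)))
  set t := eval (k : R) (Polynomial.map f (Th2 G s))
  calc t * ((c2 k : ℤ) : R) = t * ((c2 k : ℤ) : R) * (v * U) := by rw [hu, mul_one]
    _ = ((c2 k : ℤ) : R) * (t * U) * v := by ring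
    _ = ((c2 (p * k) : ℤ) : R) * U * v := by rw [hT, ← hid]
    _ = ((c2 (p * k) : ℤ) : R) * (v * U) := by ring
    _ = ((c2 (p * k) : ℤ) : R) := by rw [hu, mul_one]

end Pool.Agent.H.MP_7425ae_nt
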