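import Pool.Agent.H.MP_7425ae_nt.ThLow
import Pool.Agent.H.MP_7425ae_nt.ThVal
import Pool.Agent.H.MP_7425ae_nt.ThFe
import Pool.Agent.H.MP_7425ae_nt.RSeqB
import Pool.Agent.H.MP_7425ae_nt.DPp
import Pool.Agent.H.MP_7425ae_nt.CRec

/-! Existence of good systems of Frobenius data. -/

set_option autoImplicit false

open Polynomial Finset

namespace Pool.Agent.H.MP_7425ae_nt

theorem sysex_unit (p : ℕ) [Fact p.Prime] (m : ℕ) (h : Nat.Coprime m p) :
    IsUnit (m : ℤ_[p]) := by
  rw [PadicInt.isUnit_iff, PadicInt.norm_natCast_eq_one_iff]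
  exact h.symm

theorem sysex_mu (p : ℕ) [Fact p.Prime] {R : Type} [CommRing R] (s : ℕ) (f : ℤ_[p] →+* R)
    (hs : (p : R) ^ s = 0) :
    IsUnit (∏ i ∈ range (p - 1), (C (p : R) * X + C ((i : R) + 1))) := by
  rw [IsUnit.prod_iff]
  intro i hi
  rw [mem_range] at hi
  exact IsUnit.of_mul_eq_one_right _ (inv1_spec s i (by omega) f hs)

theorem sysex_dvd_zero {R : Type} [CommRing R] {W : Type} [CommRing W] (f : W →+* R)
    (p s : ℕ) (hs : (p : R) ^ s = 0) (P Q : W[X]) (h : C ((p : W) ^ s) ∣ P - Q) :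
    P.map f = Q.map f := by
  obtain ⟨T, hT⟩ := h
  have h1 : P = Q + C ((p : W) ^ s) * T := by rw [← hT]; ring
  rw [h1, Polynomial.map_add, Polynomial.map_mul, Polynomial.map_C, map_pow, map_natCast, hs,
    C_0, zero_mul, add_zero]

theorem sysex_main (p : ℕ) [Fact p.Prime] (W : Type) [CommRing W]
    (g : ℤ_[p] →+* W) (rho : W) (dp : ℕ → W[X]) (hdp : IsDP p rho dp)
    (tf : ∀ w : W, (p : W) * w = 0 → w = 0) (n : ℕ) (a : ℤ[X]) (c : ℕ → ℤ)
    (Th : ℕ → ℤ_[p][X])
    (hrec : ∀ k : ℕ, ((k : ℤ) + 1) ^ n * c (k + 1) = a.eval (k : ℤ) * c k)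
    (hlow : ∀ (s : ℕ) (R : Type) [CommRing R] (f : ℤ_[p] →+* R), (p : R) ^ s = 0 →
      ∀ i : ℕ, i < n → ((Th s).map f).coeff i = if i = 0 then 1 else 0)
    (hval : ∀ (s : ℕ) (R : Type) [CommRing R] (f : ℤ_[p] →+* R), (p : R) ^ s = 0 →
      ∀ k : ℕ, ((Th s).map f).eval (k : R) * ((c k : ℤ) : R) = ((c (p * k) : ℤ) : R))
    (hfe : ∀ (s : ℕ) (R : Type) [CommRing R] (f : ℤ_[p] →+* R), (p : R) ^ s = 0 →
      (Th s).map f * (∏ i ∈ range p, (aR a R).comp (C (p : R) * X + C (i : R)))
      = C ((p : R) ^ n) * aR a R * ((Th s).map f).comp (X + 1)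
        * (∏ i ∈ range (p - 1), (C (p : R) * X + C ((i : R) + 1))) ^ n)
    (hadm : ∀ s i : ℕ, (p : ℤ_[p]) ^ (min i 3) ∣ (Th s).coeff i)
    (hind : ∀ (s s' : ℕ) (R : Type) [CommRing R] (f : ℤ_[p] →+* R), s ≤ s' →
      (p : R) ^ s = 0 → (Th s').map f = (Th s).map f) :
    ∃ S : Sys W, S.Good p n a c ∧ S.rho = rho := by
  refine ⟨⟨fun s => (Th s).map g, fun s j => (rr p n a s j).map g, dp, rho⟩,
    ⟨?_, ?_, tf, ?_⟩, rfl⟩
  · intro s R _ f hs
    have hmm : ∀ P : ℤ_[p][X], (P.map g).map f = P.map (f.comp g) := fun P =>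
      Polynomial.map_map g f P
    refine ⟨⟨s, hs⟩, ?_, ?_, ?_, ?_, ?_, ?_, ?_, ?_, ?_, ?_, ?_, ?_⟩
    · show ((rr p n a s 0).map g).map f = 1
      rw [rr_zero, Polynomial.map_one, Polynomial.map_one]
    · intro j hj
      show ((rr p n a s (j + 1)).map g).map f * _ = ((rr p n a s j).map g).map f * _
      rw [hmm, hmm]
      exact rr_succ n a s j hj (f.comp g) hs
    · show ((Th s).map g).map f * _ * ((rr p n a s (p - 1)).map g).map f
        = C ((p : R) ^ n) * aR a R * (((Th s).map g).map f).comp (X + 1)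
      rw [hmm, hmm]
      have hu := (sysex_mu p s (f.comp g) hs).pow n
      apply hu.mul_right_cancel
      rw [← hfe s R (f.comp g) hs, ← rr_prod n a s (f.comp g) hs]
      ring
    · intro i hi
      show (((Th s).map g).map f).coeff i = _
      rw [hmm]
      exact hlow s R (f.comp g) hs i hi
    · intro i
      show _ ∣ (((Th s).map g).map f).coeff i
      rw [hmm, coeff_map]
      have h := _root_.map_dvd (f.comp g) (hadm s i)
      rw [map_pow, map_natCast] at h
      exact h
    · intro j _ i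
      show _ ∣ (((rr p n a s j).map g).map f).coeff i
      rw [hmm, coeff_map]
      have h := _root_.map_dvd (f.comp g) (rr_adm (p := p) n a s j i)
      rw [map_pow, map_natCast] at h
      exact h
    · intro k j hj
      show (((Th s).map g).map f * ((rr p n a s j).map g).map f).eval (k : R) * _ = _
      rw [hmm, hmm, eval_mul]
      have h1 := hval s R (f.comp g) hs k
      have h2 := rr_val hrec s (f.comp g) hs k j hj
      rw [← h2, ← h1]
      ring
    · show ((dp s).map f).coeff 0 = 1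
      rw [coeff_map, hdp.zero, map_one]
    · intro i
      show ((i : R) + 1) * ((dp s).map f).coeff (i + 1) = f rho * ((dp s).map f).coeff i
      rw [coeff_map, coeff_map]
      obtain ⟨w, hw⟩ := hdp.succ s i
      have h := congrArg f hw
      rw [map_mul, map_pow, map_natCast, hs, zero_mul, map_sub, map_mul, map_mul, map_add,
        map_natCast, map_one] at h
      exact sub_eq_zero.mp h
    · intro i
      show f rho ^ (min i 3) ∣ ((dp s).map f).coeff i
      rw [coeff_map]
      have h := _root_.map_dvd f (hdp.dvd s i)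
      rw [map_pow] at h
      exact h
    · show f rho ∣ (p : R)
      have h := _root_.map_dvd f hdp.rho_dvd
      rw [map_natCast] at h
      exact h
    · show IsNilpotent (f rho)
      obtain ⟨e, w, hw⟩ := hdp.nilp
      refine ⟨e * s, ?_⟩
      rw [pow_mul, ← map_pow, hw, map_mul, map_natCast, mul_pow, hs, zero_mul]
  · intro s s' R _ f hss hs
    have hmm : ∀ P : ℤ_[p][X], (P.map g).map f = P.map (f.comp g) := fun P =>
      Polynomial.map_map g f P
    have h1 : ((Th s').map g).map f = ((Th s).map g).map f := by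
      rw [hmm, hmm]
      exact hind s s' R (f.comp g) hss hs
    have h2 : (fun j => ((rr p n a s' j).map g).map f)
        = fun j => ((rr p n a s j).map g).map f := by
      funext j
      rw [hmm, hmm]
      exact rr_indep n a s s' j hss (f.comp g) hs
    have h3 : (dp s').map f = (dp s).map f :=
      sysex_dvd_zero f p s hs _ _ (hdp.indep s s' hss)
    show Dat.mk (((Th s').map g).map f) (fun j => ((rr p n a s' j).map g).map f)
      ((dp s').map f) (f rho) = Dat.mk (((Th s).map g).map f)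
      (fun j => ((rr p n a s j).map g).map f) ((dp s).map f) (f rho)
    rw [h1, h2, h3]
  · intro m hm
    have h := (sysex_unit p m hm).map g
    rwa [map_natCast] at h

/-- good systems over any `ℤ_[p]`-algebra with divided powers of `rho` -/
theorem exists_sys3 (p : ℕ) [Fact p.Prime] (hp : 5 ≤ p) (W : Type) [CommRing W]
    (g : ℤ_[p] →+* W) (rho : W) (dp : ℕ → W[X]) (hdp : IsDP p rho dp)
    (tf : ∀ w : W, (p : W) * w = 0 → w = 0) :
    ∃ S : Sys W, S.Good p 3 a3 c3 ∧ S.rho = rho := by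
  obtain ⟨G, hG⟩ := exists_Gs p hp
  exact sysex_main p W g rho dp hdp tf 3 a3 c3 (Th3 G) c3_rec
    (fun s R _ f hs i hi => Th3_low hp hG s f hs i hi)
    (fun s R _ f hs k => Th3_val hp hG s f hs k)
    (fun s R _ f hs => Th3_fe hp hG s f hs)
    (fun s i => Th3_adm hp hG s i)
    (fun s s' R _ f h hs => Th3_indep hp hG s s' h f hs)

theorem exists_sys2 (p : ℕ) [Fact p.Prime] (hp : 5 ≤ p) (W : Type) [CommRing W]
    (g : ℤ_[p] →+* W) (rho : W) (dp : ℕ → W[X]) (hdp : IsDP p rho dp)
    (tf : ∀ w : W, (p : W) * w = 0 → w = 0) :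
    ∃ S : Sys W, S.Good p 2 a2 c2 ∧ S.rho = rho := by
  obtain ⟨G, hG⟩ := exists_Gs p hp
  exact sysex_main p W g rho dp hdp tf 2 a2 c2 (Th2 G) c2_rec
    (fun s R _ f hs i hi => Th2_low hp hG s f hs i hi)
    (fun s R _ f hs k => Th2_val hp hG s f hs k)
    (fun s R _ f hs => Th2_fe hp hG s f hs)
    (fun s i => Th2_adm hp hG s i)
    (fun s s' R _ f h hs => Th2_indep hp hG s s' h f hs)

end Pool.Agent.H.MP_7425ae_nt
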