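import Pool.Agent.H.MP_7425ae_nt.R19
import Pool.Agent.H.MP_7425ae_nt.Eig19
import Pool.Agent.H.MP_7425ae_nt.EvU
import Pool.Agent.H.MP_7425ae_nt.SumDef
import Pool.Agent.H.MP_7425ae_nt.SysEx
import Pool.Agent.H.MP_7425ae_nt.CDef

/-! The step `N -> 19 N` for the sums `T_N`. -/

set_option autoImplicit false

open Polynomial

namespace Pool.Agent.H.MP_7425ae_nt

theorem tz19_a3 (k : ℤ) : a3.eval k = 24 * (2 * k + 1) * (6 * k + 1) * (6 * k + 5) := by
  unfold a3
  simp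

/-- `c3 (k+1)` from `c3 k` modulo `19` -/
theorem tz19_mod (k : ℕ) (hk : k + 1 < 19)
    (h : (19 : ℤ) ∣ c3 k ∨ (19 : ℤ) ∣ a3.eval (k : ℤ)) : (19 : ℤ) ∣ c3 (k + 1) := by
  have hp : Prime (19 : ℤ) := by norm_num
  have h1 := c3_rec k
  have h2 : (19 : ℤ) ∣ ((k : ℤ) + 1) ^ 3 * c3 (k + 1) := by
    rw [h1]
    rcases h with h | h
    · exact Dvd.dvd.mul_left h _
    · exact Dvd.dvd.mul_right h _
  refine (hp.dvd_or_dvd h2).resolve_left (fun h3 => ?_)
  have h4 := hp.dvd_of_dvd_pow h3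
  have h5 := Int.le_of_dvd (by omega) h4
  omega

theorem tz19_c3 (n : ℕ) (h4 : 4 ≤ n) : n < 19 → (19 : ℤ) ∣ c3 n := by
  induction n, h4 using Nat.le_induction with
  | base =>
    intro _
    apply tz19_mod 3 (by norm_num)
    right
    rw [tz19_a3]
    norm_num
  | succ n _ ih =>
    intro h
    exact tz19_mod n h (Or.inl (ih (by omega)))

theorem tz19_tn4 : (19 : ℤ) ∣ tn 4 := by
  have c0 : c3 0 = 1 := by
    unfold c3
    simp
  have c1 : c3 1 = 120 := by
    have h := c3_rec 0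
    rw [tz19_a3, c0] at h
    norm_num at h
    exact h
  have c2 : c3 2 = 83160 := by
    have h := c3_rec 1
    rw [tz19_a3, c1] at h
    norm_num at h
    omega
  have c3' : c3 3 = 81681600 := by
    have h := c3_rec 2
    rw [tz19_a3, c2] at h
    norm_num at h
    omega
  have h0 : tn 0 = 0 := by
    unfold tn
    simp
  rw [tn_succ, tn_succ, tn_succ, tn_succ, h0, c0, c1, c2, c3']
  norm_num

theorem tz19_tn (n : ℕ) (h4 : 4 ≤ n) : n ≤ 19 → (19 : ℤ) ∣ tn n := by
  induction n, h4 using Nat.le_induction with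
  | base =>
    intro _
    exact tz19_tn4
  | succ n hn ih =>
    intro h
    rw [tn_succ]
    exact dvd_add (Dvd.dvd.mul_left (ih (by omega)) _)
      (Dvd.dvd.mul_left (tz19_c3 n hn (by omega)) _)

/-- a finite computation -/
theorem tn_19 : (19 : ℤ) ∣ tn 19 := tz19_tn 19 (by norm_num) le_rfl

/-- the sum `T_19` is divisible by `19` -/
theorem Tz19_dvd (s : ℕ) (x0 : ZMod (19 ^ s)) (hx0 : (-884736) * x0 = 1) :
    ((19 : ℕ) : ZMod (19 ^ s)) ∣ Tz (19 ^ s) 19 x0 := by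
  have h1 : ((tn 19 : ℤ) : ZMod (19 ^ s)) = (-884736) ^ 18 * Tz (19 ^ s) 19 x0 := by
    unfold tn Tz
    rw [Finset.mul_sum]
    push_cast
    apply Finset.sum_congr rfl
    intro k hk
    have hk' : k ≤ 18 := by
      have := Finset.mem_range.mp hk
      omega
    have h1 : ((-884736 : ZMod (19 ^ s))) ^ 18 * x0 ^ k = (-884736) ^ (18 - k) := by
      have h2 : 18 = (18 - k) + k := by omega
      conv_lhs => rw [h2, pow_add, mul_assoc, ← mul_pow, hx0, one_pow, mul_one]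
    rw [← h1]
    ring
  obtain ⟨w, hw⟩ := tn_19
  refine ⟨x0 ^ 18 * (w : ZMod (19 ^ s)), ?_⟩
  have h3 : x0 ^ 18 * (-884736) ^ 18 = 1 := by
    rw [← mul_pow, mul_comm, hx0, one_pow]
  have h4 : x0 ^ 18 * ((tn 19 : ℤ) : ZMod (19 ^ s)) = Tz (19 ^ s) 19 x0 := by
    rw [h1, ← mul_assoc, h3, one_mul]
  rw [← h4, hw]
  push_cast
  ring

/-- base change of the point -/
theorem tz19_map {R R' : Type} [CommRing R] [CommRing R'] (φ : R' →+* R) {β ι v : R'}
    (H : CM19 β ι v) : CM19 (φ β) (φ ι) (φ v) where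
  nil := by
    have h := H.nil.map φ
    rwa [map_natCast] at h
  hβ := by rw [← map_pow, H.hβ, map_sub, map_ofNat]
  hι := by rw [← map_pow, H.hι, map_neg, map_ofNat]
  hv := by
    have h := congrArg φ H.hv
    rw [map_mul, map_mul, map_mul, map_sub, map_mul, map_ofNat, map_ofNat, map_ofNat,
      map_one] at h
    exact h

/-- the conjugate point -/
theorem tz19_neg {R : Type} [CommRing R] {β ι v : R} (H : CM19 β ι v) : CM19 β (-ι) (-v) where
  nil := H.nil
  hβ := H.hβ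
  hι := by rw [neg_sq, H.hι]
  hv := by linear_combination -H.hv

/-- the step in the big ring -/
theorem Tz19_big (s : ℕ) (R' R : Type) [CommRing R'] [CommRing R]
    (f : W19 →+* R') (φ : R' →+* R) (i : ZMod (19 ^ s) →+* R) (ι v : R')
    (hs : ((19 : ℕ) : R') ^ (s + 1) = 0) (hs' : ((19 : ℕ) : R) ^ s = 0)
    (H : CM19 (f be19) ι v) (hφ : ∀ x : R', (2 * f be19 - 1) * x = 0 → φ x = 0)
    (x0 : ZMod (19 ^ s)) (hx0 : (-884736) * x0 = 1) :
    ∃ l : R, ∀ N : ℕ, ∃ e : R, i (Tz (19 ^ s) (19 * N) x0)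
      = l * i (Tz (19 ^ s) N x0)
        + (φ (2 * f be19 - 1)) ^ 3 * e * (N : R) ^ 3 * ((c3 N : ℤ) : R) := by
  obtain ⟨dp, hdp⟩ := exists_dp19
  obtain ⟨S3, h3, r3⟩ := exists_sys3 19 (by norm_num) W19 (algebraMap ℤ_[19] W19)
    (2 * be19 - 1) dp hdp W19_tf
  obtain ⟨S2, h2, r2⟩ := exists_sys2 19 (by norm_num) W19 (algebraMap ℤ_[19] W19)
    (2 * be19 - 1) dp hdp W19_tf
  have hr : S3.rho = S2.rho := r3.trans r2.symm
  have hρ : f S3.rho = 2 * f be19 - 1 := by
    rw [r3, map_sub, map_mul, map_ofNat, map_one]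
  obtain ⟨j, hj⟩ := (comm19_864 H).exists_right_inv
  obtain ⟨two, three, -, -, -, up, um, nv, nr⟩ := H.units
  set u : R' := j * (1 - v) with hu0
  set u' : R' := j * (1 + v) with hu0'
  have hu : 864 * u = 1 - v := by rw [hu0]; linear_combination (1 - v) * hj
  have hu' : 864 * u' = 1 + v := by rw [hu0']; linear_combination (1 + v) * hj
  clear_value u u'
  obtain ⟨t, ht⟩ := exists_t19 H u u' hu hu'
  rw [← hρ] at ht
  have com := comm19 h3 h2 hr (s + 1) R' f hs H hρ u u' t hu hu' ht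
  obtain ⟨l, hl⟩ := eig19 φ H hφ _ com
  have lead : Lead 2 a2 u' := by
    rw [lead2_iff]
    apply isUnit_of_mul_isUnit_right (x := (2 : R'))
    have h1 : (2 : R') * (1 - 432 * u') = 1 - v := by linear_combination -hu'
    rw [h1]
    exact um
  have hdat : S2.dat (s + 1) (φ.comp f) = S2.dat s (φ.comp f) :=
    h2.indep s (s + 1) R (φ.comp f) (by omega) hs'
  rw [← Sy2_map, ← Mmat_map _ _ _ _ lead, ← Sys.dat_map, hdat] at hl
  have Hφ := tz19_map φ H
  have Hn := tz19_neg Hφ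
  have k1 : 864 * φ u = 1 - φ v := by
    rw [← map_ofNat φ 864, ← map_mul, hu, map_sub, map_one]
  have k2 : 864 * φ u' = 1 - (- φ v) := by
    rw [← map_ofNat φ 864, ← map_mul, hu', map_add, map_one, sub_neg_eq_add]
  have c1 := Cm_eig19 Hφ (φ u) k1
  have c2 := Cm_eig19 Hn (φ u') k2
  have x1 := xu_cm19 Hφ (φ u) k1
  have x2 := xu_cm19 Hn (φ u') k2
  have x3 : (-884736) * i x0 = 1 := by
    have h := congrArg i hx0
    rw [map_mul, map_neg, map_ofNat, map_one] at h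
    exact h
  have y1 : xu (φ u) = i x0 := by
    linear_combination (i x0) * x1 - (xu (φ u)) * x3
  have y2 : xu (φ u') = i x0 := by
    linear_combination (i x0) * x2 - (xu (φ u')) * x3
  have b1 : φ (32 * (2 * f be19 - 1) * ι * (1 + v))
      = 32 * (2 * φ (f be19) - 1) * φ ι * (1 + φ v) := by
    simp only [map_mul, map_sub, map_add, map_one, map_ofNat]
  have b2 : φ (-(32 * (2 * f be19 - 1) * ι * (1 - v)))
      = 32 * (2 * φ (f be19) - 1) * (-φ ι) * (1 + (-φ v)) := by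
    simp only [map_mul, map_sub, map_neg, map_one, map_ofNat]
    ring
  rw [b1, b2] at hl
  have e1 : ∀ M : ℕ, i (Tz (19 ^ s) M x0) = evN c3 M (i x0) (emb ![25, 342, 0]) := by
    intro M
    rw [sumdef_Tz_eq, ← evu_evN_map, emb_map]
    congr 2
    funext a
    fin_cases a
    · show i 25 = 25
      exact map_ofNat i 25
    · show i 342 = 342
      exact map_ofNat i 342
    · show i 0 = 0
      exact map_zero i
  refine ⟨l, fun N => ?_⟩
  obtain ⟨e, he⟩ := evU (p := 19) (by norm_num) h3 h2 hr s R (φ.comp f) hs' (φ u) (φ u') (φ t)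
    (by
      apply isUnit_of_mul_isUnit_right (x := (864 : R))
      rw [k1]
      have h := um.map φ
      rwa [map_sub, map_one] at h)
    (by
      apply isUnit_of_mul_isUnit_right (x := (2 : R))
      have h1 : (2 : R) * (1 - 432 * φ u) = 1 + φ v := by linear_combination -k1
      rw [h1]
      have h := up.map φ
      rwa [map_add, map_one] at h)
    (by
      have h1 : 1 - 864 * φ u = φ v := by linear_combination -k1
      rw [h1]
      exact nv.map φ)
    (by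
      rw [RingHom.comp_apply, ← map_pow, ← ht, map_mul, map_add, map_one, map_mul])
    N ![25, 32 * (2 * φ (f be19) - 1) * φ ι * (1 + φ v), 0]
  rw [c1, y1, ← e1, hl, Matrix.mulVec_smul, c2, y2, emb_smul, evN_C_mul, ← e1,
    RingHom.comp_apply, hρ] at he
  exact ⟨e, he⟩

/-- the step `N -> 19 N` -/
theorem Tz19_step (s : ℕ) (x0 : ZMod (19 ^ s)) (hx0 : (-884736) * x0 = 1) (N : ℕ) :
    ∃ l e : ZMod (19 ^ s), Tz (19 ^ s) (19 * N) x0
      = ((19 : ℕ) : ZMod (19 ^ s)) * l * Tz (19 ^ s) N x0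
        + ((19 : ℕ) : ZMod (19 ^ s)) * e * (N : ZMod (19 ^ s)) ^ 3
          * ((c3 N : ℤ) : ZMod (19 ^ s)) := by
  obtain ⟨R', R, iR', iR, f, φ, i, π, ι, v, hs, hs', H, hφ, pa, pm, p1⟩ := exists_R19 s
  obtain ⟨l, hl⟩ := Tz19_big s R' R f φ i ι v hs hs' H hφ x0 hx0
  have Hφ := tz19_map φ H
  have hρ : φ (2 * f be19 - 1) ^ 2 = -19 := by
    rw [← map_pow, comm19_rho H, map_neg, map_ofNat]
  set ρ : R := φ (2 * f be19 - 1) with hρ0
  clear_value ρ
  have u5 : IsUnit (5 : R) := Hφ.units.2.2.1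
  obtain ⟨j, hj⟩ := (u5.pow 2).exists_right_inv
  obtain ⟨w, hw⟩ := Tz19_dvd s x0 hx0
  obtain ⟨e1, he1⟩ := hl 1
  have t1 : Tz (19 ^ s) 1 x0 = 25 := by
    unfold Tz
    rw [Finset.sum_range_one]
    have : c3 0 = 1 := by
      unfold c3
      simp
    rw [this]
    norm_num
  rw [mul_one, t1, hw, map_mul, map_natCast, map_ofNat] at he1
  -- `l` is divisible by `19`
  have hl19 : l = 19 * (j * (i w + ρ * e1 * ((c3 1 : ℤ) : R))) := by
    have h1 : l * 25 = 19 * (i w + ρ * e1 * ((c3 1 : ℤ) : R)) := by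
      push_cast at he1
      linear_combination -he1 - (ρ * e1 * ((c3 1 : ℤ) : R)) * hρ
    linear_combination (-l) * hj + j * h1
  obtain ⟨e, he⟩ := hl N
  set l' : R := j * (i w + ρ * e1 * ((c3 1 : ℤ) : R)) with hl'
  clear_value l'
  refine ⟨π l', π (-(ρ * e)), ?_⟩
  have h2 : i (Tz (19 ^ s) (19 * N) x0) * 1
      = i (((19 : ℕ) : ZMod (19 ^ s)) * Tz (19 ^ s) N x0) * l'
        + i (((19 : ℕ) : ZMod (19 ^ s)) * (N : ZMod (19 ^ s)) ^ 3 *
          ((c3 N : ℤ) : ZMod (19 ^ s))) * (-(ρ * e)) := by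
    rw [he, map_mul, map_mul, map_mul, map_natCast, map_pow, map_natCast, map_intCast, hl19]
    push_cast
    linear_combination (ρ * e * (N : R) ^ 3 * ((c3 N : ℤ) : R)) * hρ
  have h3 := congrArg π h2
  rw [pa, pm, pm, pm, p1, mul_one] at h3
  rw [h3]
  ring

end Pool.Agent.H.MP_7425ae_nt
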