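import Pool.Agent.H.MP_7425ae_nt.SzSplit
import Pool.Agent.H.MP_7425ae_nt.Tz19
import Pool.Agent.H.MP_7425ae_nt.Sum19
import Pool.Agent.H.MP_7425ae_nt.SumB
import Pool.Agent.H.MP_7425ae_nt.CInd
import Pool.Agent.H.MP_7425ae_nt.CStep
import Pool.Agent.H.MP_7425ae_nt.CGlob
import Pool.Agent.H.MP_7425ae_nt.SysEx

/-! The final assembly. -/

set_option autoImplicit false

open Finset

namespace Pool.Agent.H.MP_7425ae_nt

/-- good systems over `Z_p` -/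
theorem exists_sys_p (p : ℕ) [Fact p.Prime] (hp : 5 ≤ p) : ∃ S3 S2 : Sys ℤ_[p],
    S3.Good p 3 a3 c3 ∧ S2.Good p 2 a2 c2 ∧ S3.rho = (p : ℤ_[p]) ∧ S2.rho = (p : ℤ_[p]) := by
  have tf : ∀ w : ℤ_[p], (p : ℤ_[p]) * w = 0 → w = 0 := by
    intro w hw
    rcases mul_eq_zero.mp hw with h | h
    · exact absurd h (by exact_mod_cast (Fact.out : p.Prime).ne_zero)
    · exact h
  obtain ⟨dp, hdp⟩ := exists_dp_p p hp
  obtain ⟨S3, h3, r3⟩ := exists_sys3 p hp ℤ_[p] (RingHom.id _) (p : ℤ_[p]) dp hdp tf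
  obtain ⟨S2, h2, r2⟩ := exists_sys2 p hp ℤ_[p] (RingHom.id _) (p : ℤ_[p]) dp hdp tf
  exact ⟨S3, S2, h3, h2, r3, r2⟩

theorem exists_x0 (m : ℕ) (hm : Nat.Coprime m 96) : ∃ x0 : ZMod m, (-884736) * x0 = 1 := by
  have h : Nat.Coprime 884736 m := by
    have h1 : (884736 : ℕ) = 96 ^ 3 := by norm_num
    rw [h1]
    exact Nat.Coprime.pow_left _ hm.symm
  have hu : IsUnit ((884736 : ℕ) : ZMod m) := (ZMod.isUnit_iff_coprime _ _).2 h
  obtain ⟨u, hu⟩ := hu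
  refine ⟨-(↑(u⁻¹) : ZMod m), ?_⟩
  have h2 : ((884736 : ℕ) : ZMod m) * (↑(u⁻¹) : ZMod m) = 1 := by
    rw [← hu]
    exact u.mul_inv
  push_cast at h2
  linear_combination h2

/-- `((-96)^(3k))⁻¹ = x0^k` -/
theorem inv_pow_eq (m k : ℕ) (hm : Nat.Coprime m 96) (x0 : ZMod m)
    (hx0 : (-884736) * x0 = 1) : ((-96 : ZMod m) ^ (3 * k))⁻¹ = x0 ^ k := by
  have h1 : ((-96 : ZMod m) ^ (3 * k)) * x0 ^ k = 1 := by
    rw [pow_mul, ← mul_pow]
    have h2 : ((-96 : ZMod m)) ^ 3 * x0 = 1 := by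
      linear_combination hx0
    rw [h2, one_pow]
  have hu : IsUnit ((-96 : ZMod m) ^ (3 * k)) := IsUnit.of_mul_eq_one _ h1
  have h3 : ((-96 : ZMod m) ^ (3 * k)) * ((-96 : ZMod m) ^ (3 * k))⁻¹ = 1 :=
    ZMod.mul_inv_of_unit _ hu
  exact hu.mul_left_cancel (h3.trans h1.symm)

theorem final_cop (p s : ℕ) (hp : p.Prime) (h3 : 3 < p) : Nat.Coprime (p ^ s) 96 := by
  apply Nat.Coprime.pow_left
  rw [Nat.Prime.coprime_iff_not_dvd hp]
  intro h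
  have h96 : (96 : ℕ) = 2 ^ 5 * 3 := by norm_num
  rw [h96] at h
  rcases (Nat.Prime.dvd_mul hp).1 h with h1 | h1
  · have := Nat.le_of_dvd (by norm_num) (hp.dvd_of_dvd_pow h1)
    omega
  · have := Nat.le_of_dvd (by norm_num) h1
    omega

theorem final_five (p : ℕ) (hp : p.Prime) (h3 : 3 < p) : 5 ≤ p := by
  by_contra h
  have h4 : p = 4 := by omega
  rw [h4] at hp
  exact absurd hp (by norm_num)

theorem final_sum (m N : ℕ) (hm : Nat.Coprime m 96) (x0 : ZMod m)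
    (hx0 : (-884736) * x0 = 1) :
    (∑ k ∈ Finset.range N,
        (((6 * k).choose (3 * k) * (3 * k).choose k * (2 * k).choose k : ℕ) : ZMod m) *
          ((-96 : ZMod m) ^ (3 * k))⁻¹) = Sz m N x0 := by
  unfold Sz
  refine Finset.sum_congr rfl (fun k _ => ?_)
  rw [inv_pow_eq m k hm x0 hx0]
  unfold c3
  push_cast
  rfl

theorem final_sum' (m N : ℕ) (hm : Nat.Coprime m 96) (x0 : ZMod m)
    (hx0 : (-884736) * x0 = 1) :
    (∑ k ∈ Finset.range N,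
        ((342 * k + 25 : ℕ) : ZMod m) *
        (((6 * k).choose (3 * k) * (3 * k).choose k * (2 * k).choose k : ℕ) : ZMod m) *
          ((-96 : ZMod m) ^ (3 * k))⁻¹) = Tz m N x0 := by
  unfold Tz
  refine Finset.sum_congr rfl (fun k _ => ?_)
  rw [inv_pow_eq m k hm x0 hx0]
  unfold c3
  push_cast
  rfl

/-- (a), split primes -/
theorem part_a_split (p : ℕ) (hp : p.Prime) (h3 : 3 < p) (hj : jacobiSym (p : ℤ) 19 = 1)
    (x y : ℤ) (hxy : 4 * (p : ℤ) = x ^ 2 + 19 * y ^ 2) :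
    (∑ k ∈ Finset.range p,
        (((6 * k).choose (3 * k) * (3 * k).choose k * (2 * k).choose k : ℕ) : ZMod (p ^ 2)) *
          ((-96 : ZMod (p ^ 2)) ^ (3 * k))⁻¹)
        = ((jacobiSym (-6) p * (x ^ 2 - 2 * (p : ℤ)) : ℤ) : ZMod (p ^ 2)) := by
  haveI : Fact p.Prime := ⟨hp⟩
  have h5 := final_five p hp h3
  have hc := final_cop p 2 hp h3
  obtain ⟨x0, hx0⟩ := exists_x0 (p ^ 2) hc
  obtain ⟨S3, S2, g3, g2, r3, r2⟩ := exists_sys_p p h5
  rw [final_sum _ _ hc x0 hx0]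
  exact Sz_split h5 hj g3 g2 r3 r2 x0 hx0 x y hxy

/-- (a), inert primes -/
theorem part_a_inert (p : ℕ) (hp : p.Prime) (h3 : 3 < p) (hj : jacobiSym (p : ℤ) 19 = -1) :
    (∑ k ∈ Finset.range p,
        (((6 * k).choose (3 * k) * (3 * k).choose k * (2 * k).choose k : ℕ) : ZMod (p ^ 2)) *
          ((-96 : ZMod (p ^ 2)) ^ (3 * k))⁻¹) = 0 := by
  haveI : Fact p.Prime := ⟨hp⟩
  have h5 := final_five p hp h3
  have hc := final_cop p 2 hp h3
  obtain ⟨x0, hx0⟩ := exists_x0 (p ^ 2) hc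
  obtain ⟨S3, S2, g3, g2, r3, r2⟩ := exists_sys_p p h5
  rw [final_sum _ _ hc x0 hx0]
  exact Sz_inert h5 hj g3 r3 x0 hx0

/-- (b) -/
theorem part_b (p : ℕ) (hp : p.Prime) (h3 : 3 < p) :
    (∑ k ∈ Finset.range p,
        ((342 * k + 25 : ℕ) : ZMod (p ^ 3)) *
        (((6 * k).choose (3 * k) * (3 * k).choose k * (2 * k).choose k : ℕ) : ZMod (p ^ 3)) *
          ((-96 : ZMod (p ^ 3)) ^ (3 * k))⁻¹)
        = ((25 * (p : ℤ) * jacobiSym (-6) p : ℤ) : ZMod (p ^ 3)) := by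
  haveI : Fact p.Prime := ⟨hp⟩
  have h5 := final_five p hp h3
  have hc := final_cop p 3 hp h3
  obtain ⟨x0, hx0⟩ := exists_x0 (p ^ 3) hc
  rw [final_sum' _ _ hc x0 hx0]
  by_cases h19 : p = 19
  · subst h19
    rw [Tz_19 x0 hx0]
    push_cast
    ring
  · obtain ⟨S3, S2, g3, g2, r3, r2⟩ := exists_sys_p p h5
    rw [Tz_p h5 h19 g3 r3 x0 hx0]
    push_cast
    ring

/-- integrality at the primes `p >= 5` -/
theorem part_c_p (p : ℕ) [Fact p.Prime] (hp : 5 ≤ p) (n : ℕ) (hn : 0 < n) :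
    (p : ℤ) ^ padicValNat p (Mn n) ∣ tn n := by
  refine c_ind p hp ?_ n hn
  refine fun N hN h => step_of_Tz p hp ?_ N hN h
  intro s x0 hx0 M
  by_cases h19 : p = 19
  · subst h19
    exact Tz19_step s x0 hx0 M
  · obtain ⟨S3, S2, g3, g2, r3, r2⟩ := exists_sys_p p hp
    obtain ⟨l, e, he⟩ := Tz_step hp h19 g3 r3 s x0 hx0 M
    refine ⟨l, (p : ZMod (p ^ s)) ^ 2 * e, ?_⟩
    rw [he]
    ring

end Pool.Agent.H.MP_7425ae_nt
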