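import Mathlib

/-! Reduction modulo `p` of the endomorphism `π` of norm `p`: it is the Frobenius morphism. -/

set_option autoImplicit false

open Polynomial

namespace Pool.Agent.H.MP_7425ae_nt

theorem froba_const (p : ℕ) [Fact p.Prime] (P : (ZMod p)[X]) (h : derivative P = 0)
    (hd : P.degree < p) : P = C (P.coeff 0) := by
  ext i
  rw [coeff_C]
  split_ifs with hi
  · rw [hi]
  · by_cases hip : i < p
    · have h1 := congrArg (fun Q : (ZMod p)[X] => Q.coeff (i - 1)) h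
      simp only [coeff_derivative, coeff_zero] at h1
      have hi1 : i - 1 + 1 = i := by omega
      rw [hi1] at h1
      have h2 : ((i - 1 : ℕ) : ZMod p) + 1 = (i : ZMod p) := by
        have : ((i - 1 + 1 : ℕ) : ZMod p) = (i : ZMod p) := by rw [hi1]
        rw [← this]; push_cast; ring
      rw [h2] at h1
      rcases mul_eq_zero.mp h1 with h3 | h3
      · exact h3
      · exfalso
        rw [ZMod.natCast_eq_zero_iff] at h3
        exact absurd (Nat.le_of_dvd (by omega) h3) (by omega)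
    · have h4 : P.degree < i := lt_of_lt_of_le hd (by exact_mod_cast not_lt.mp hip)
      exact coeff_eq_zero_of_degree_lt h4

theorem froba_disc (p : ℕ) [Fact p.Prime] (hp : 5 ≤ p) (h19 : p ≠ 19) :
    (2 ^ 8 * 19 ^ 3 : ZMod p) ≠ 0 := by
  have hpp := (Fact.out : p.Prime)
  intro h
  have h2 : ((2 ^ 8 * 19 ^ 3 : ℕ) : ZMod p) = 0 := by
    rw [← h]; push_cast; norm_num
  rw [ZMod.natCast_eq_zero_iff] at h2
  rcases (Nat.Prime.dvd_mul hpp).mp h2 with h3 | h3
  · have h4 := hpp.dvd_of_dvd_pow h3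
    exact absurd (Nat.le_of_dvd (by norm_num) h4) (by omega)
  · have h4 := hpp.dvd_of_dvd_pow h3
    exact h19 ((Nat.prime_dvd_prime_iff_eq hpp (by norm_num)).mp h4)

theorem froba_two (p : ℕ) [Fact p.Prime] (hp : 5 ≤ p) (h19 : p ≠ 19) :
    (2 : ZMod p) ≠ 0 ∧ (19 : ZMod p) ≠ 0 := by
  have h := froba_disc p hp h19
  refine ⟨fun h2 => h (by rw [h2]; ring), fun h2 => h (by rw [h2]; ring)⟩

theorem froba_three (p : ℕ) [Fact p.Prime] (hp : 5 ≤ p) : (3 : ZMod p) ≠ 0 := by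
  intro h
  have h2 : ((3 : ℕ) : ZMod p) = 0 := by push_cast; exact h
  rw [ZMod.natCast_eq_zero_iff] at h2
  exact absurd (Nat.le_of_dvd (by norm_num) h2) (by omega)

theorem froba_coef {R : Type*} [CommRing R] (a b c : R) :
    (X ^ 3 + C a * X ^ 2 + C b * X + C c : R[X]).coeff 2 = a ∧
    (X ^ 3 + C a * X ^ 2 + C b * X + C c : R[X]).coeff 1 = b ∧
    (X ^ 3 + C a * X ^ 2 + C b * X + C c : R[X]).coeff 0 = c := by
  refine ⟨?_, ?_, ?_⟩ <;> simp [coeff_X, coeff_C, coeff_X_pow]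

theorem froba_sep (p : ℕ) [Fact p.Prime] (hp : 5 ≤ p) (h19 : p ≠ 19) :
    Squarefree (X ^ 3 + C (-608) * X + C 5776 : (ZMod p)[X]) := by
  apply Polynomial.Separable.squarefree
  have hD := froba_disc p hp h19
  have hder : derivative (X ^ 3 + C (-608) * X + C 5776 : (ZMod p)[X])
      = 3 * X ^ 2 + C (-608) := by
    simp only [derivative_add, derivative_X_pow, derivative_C_mul, derivative_X, derivative_C]
    simp [map_ofNat]
  rw [Polynomial.Separable, hder]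
  refine ⟨C ((2 ^ 8 * 19 ^ 3 : ZMod p)⁻¹) * (C (-18 * (-608)) * X + C (27 * 5776)),
    C ((2 ^ 8 * 19 ^ 3 : ZMod p)⁻¹) * (C (6 * (-608)) * X ^ 2 - C (9 * 5776) * X
      + C (4 * (-608) ^ 2)), ?_⟩
  have h1 : (C ((2 ^ 8 * 19 ^ 3 : ZMod p)⁻¹) : (ZMod p)[X]) * C (2 ^ 8 * 19 ^ 3) = 1 := by
    rw [← C_mul, inv_mul_cancel₀ hD, C_1]
  have h2 : ((C (-18 * (-608)) * X + C (27 * 5776)) * (X ^ 3 + C (-608) * X + C 5776)
      + (C (6 * (-608)) * X ^ 2 - C (9 * 5776) * X + C (4 * (-608) ^ 2))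
        * (3 * X ^ 2 + C (-608)) : (ZMod p)[X]) = C (2 ^ 8 * 19 ^ 3) := by
    simp only [map_mul, map_neg, map_pow, map_ofNat]
    ring
  linear_combination (C ((2 ^ 8 * 19 ^ 3 : ZMod p)⁻¹)) * h2 + h1

/-- polynomials over `F_p`: if `f W^2 = d^4 f((X^p + c)/d)`, `f = X^3 - 608 X + 5776`, then
`c = 0` and `d = 1` and `W = f^{(p-1)/2}` up to sign. -/
theorem frob_modp (p : ℕ) [Fact p.Prime] (hp : 5 ≤ p) (h19 : p ≠ 19)
    (N D W : (ZMod p)[X]) (hN : N.Monic) (hNd : N.natDegree = p) (hD : D.degree < N.degree)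
    (hco : IsCoprime N D) (hder : derivative N * D - N * derivative D = 0)
    (hW : (X ^ 3 + C (-608) * X + C 5776) * W ^ 2
      = D * (N ^ 3 + C (-608) * N * D ^ 2 + C 5776 * D ^ 3)) :
    N = X ^ p ∧ D = 1 ∧ ∃ σ : ZMod p, σ ^ 2 = 1 ∧
      W = C σ * (X ^ 3 + C (-608) * X + C 5776) ^ ((p - 1) / 2) := by
  have hpp := (Fact.out : p.Prime)
  have hN0 : N ≠ 0 := hN.ne_zero
  have hNdeg : N.degree = (p : WithBot ℕ) := by
    rw [degree_eq_natDegree hN0, hNd]
  -- N' = 0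
  have hN' : derivative N = 0 := by
    have h1 : N ∣ derivative N * D := ⟨derivative D, by linear_combination hder⟩
    have h2 : N ∣ derivative N := hco.dvd_of_dvd_mul_right h1
    exact eq_zero_of_dvd_of_degree_lt h2 (degree_derivative_lt hN0)
  have hD' : derivative D = 0 := by
    rw [hN', zero_mul, zero_sub, neg_eq_zero] at hder
    exact (mul_eq_zero.mp hder).resolve_left hN0
  -- the shapes
  obtain ⟨d, hd⟩ : ∃ d : ZMod p, D = C d := ⟨_, froba_const p D hD' (hNdeg ▸ hD)⟩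
  obtain ⟨c, hc⟩ : ∃ c : ZMod p, N = X ^ p + C c := by
    have h1 : derivative (N - X ^ p) = 0 := by
      rw [derivative_sub, hN', derivative_X_pow]
      simp
    have h2 : (N - X ^ p).degree < (p : WithBot ℕ) := by
      have := degree_sub_lt_left (p := N) (q := X ^ p) (by rw [hNdeg, degree_X_pow]) hN0
        (by rw [hN.leadingCoeff, leadingCoeff_X_pow])
      rwa [hNdeg] at this
    have h3 := froba_const p _ h1 h2
    exact ⟨_, by rw [← h3]; ring⟩
  have hd0 : d ≠ 0 := by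
    rintro rfl
    rw [hd, C_0, isCoprime_zero_right] at hco
    have := natDegree_eq_zero_of_isUnit hco
    have := hpp.pos
    omega
  have hcp : c ^ p = c := ZMod.pow_card c
  have hdp : d ^ p = d := ZMod.pow_card d
  set f : (ZMod p)[X] := X ^ 3 + C (-608) * X + C 5776 with hf
  set g : (ZMod p)[X] := (X + C c) ^ 3 + C (-608) * C d ^ 2 * (X + C c) + C 5776 * C d ^ 3
    with hg
  have hXc : (X + C c : (ZMod p)[X]) ^ p = X ^ p + C c := by
    rw [add_pow_char, ← C_pow, hcp]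
  have hCp : ∀ a : ZMod p, (C a : (ZMod p)[X]) ^ p = C a := fun a => by
    rw [← C_pow, ZMod.pow_card]
  have hgp : g ^ p = (X ^ p + C c) ^ 3 + C (-608) * C d ^ 2 * (X ^ p + C c)
      + C 5776 * C d ^ 3 := by
    rw [hg, add_pow_char, add_pow_char, mul_pow, mul_pow, mul_pow, hCp, hCp,
      ← pow_mul, ← pow_mul, ← pow_mul, mul_comm 3 p, mul_comm 2 p, pow_mul, pow_mul, pow_mul,
      hXc, hCp]
  have hW2 : f * W ^ 2 = C d * g ^ p := by
    rw [hW, hgp, hd, hc]; ring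
  -- f divides g
  have hfg : f ∣ g := by
    have h1 : f ∣ C d * g ^ p := ⟨W ^ 2, hW2.symm⟩
    have h2 : f ∣ g ^ p := by
      have h3 : g ^ p = C d⁻¹ * (C d * g ^ p) := by
        rw [← mul_assoc, ← C_mul, inv_mul_cancel₀ hd0, C_1, one_mul]
      rw [h3]
      exact Dvd.dvd.mul_left h1 _
    exact (froba_sep p hp h19).isRadical p g h2
  have hfm : f.Monic := by rw [hf]; monicity!
  have hfd : f.natDegree = 3 := by rw [hf]; compute_degree!
  have hgX : g = X ^ 3 + C (3 * c) * X ^ 2 + C (3 * c ^ 2 - 608 * d ^ 2) * X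
      + C (c ^ 3 - 608 * d ^ 2 * c + 5776 * d ^ 3) := by
    rw [hg]
    simp only [map_mul, map_add, map_sub, map_neg, map_pow, map_ofNat]
    ring
  have hgm : g.Monic := by rw [hgX]; monicity!
  have hgd : g.natDegree = 3 := by rw [hgX]; compute_degree!
  have hgf : g = f := eq_of_monic_of_dvd_of_natDegree_le hfm hgm hfg (by rw [hfd, hgd])
  have h2p := froba_two p hp h19
  have h3p := froba_three p hp
  have hfX : f = X ^ 3 + C 0 * X ^ 2 + C (-608) * X + C 5776 := by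
    rw [hf, C_0]; ring
  obtain ⟨hg2, hg1, hg0⟩ := froba_coef (3 * c) (3 * c ^ 2 - 608 * d ^ 2)
    (c ^ 3 - 608 * d ^ 2 * c + 5776 * d ^ 3)
  obtain ⟨hf2, hf1, hf0⟩ := froba_coef (0 : ZMod p) (-608) 5776
  rw [← hgX, hgf, hfX] at hg2 hg1 hg0
  rw [hf2] at hg2
  rw [hf1] at hg1
  rw [hf0] at hg0
  have hc0 : c = 0 := by
    rcases mul_eq_zero.mp hg2.symm with h1 | h1
    · exact absurd h1 h3p
    · exact h1
  have hd1 : d = 1 := by
    rw [hc0] at hg1 hg0
    have h608 : (608 : ZMod p) ≠ 0 := by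
      have : (608 : ZMod p) = 2 ^ 5 * 19 := by norm_num
      rw [this]
      exact mul_ne_zero (pow_ne_zero _ h2p.1) h2p.2
    have h5776 : (5776 : ZMod p) ≠ 0 := by
      have : (5776 : ZMod p) = 2 ^ 4 * 19 ^ 2 := by norm_num
      rw [this]
      exact mul_ne_zero (pow_ne_zero _ h2p.1) (pow_ne_zero _ h2p.2)
    have hd2 : d ^ 2 = 1 := by
      apply mul_left_cancel₀ h608
      linear_combination hg1
    have hd3 : d ^ 3 = 1 := by
      apply mul_left_cancel₀ h5776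
      linear_combination -hg0
    calc d = d ^ 2 * d := by rw [hd2, one_mul]
      _ = d ^ 3 := by ring
      _ = 1 := hd3
  refine ⟨by rw [hc, hc0, C_0, add_zero], by rw [hd, hd1, C_1], ?_⟩
  -- the square root
  have hf0 : f ≠ 0 := hfm.ne_zero
  have hW3 : W ^ 2 = (f ^ ((p - 1) / 2)) ^ 2 := by
    apply mul_left_cancel₀ hf0
    rw [hW2, hd1, C_1, one_mul, hgf, ← pow_mul, ← pow_succ']
    congr 1
    have hodd : p % 2 = 1 := by
      rcases hpp.eq_two_or_odd with h | h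
      · omega
      · exact h
    omega
  rcases sq_eq_sq_iff_eq_or_eq_neg.mp hW3 with h | h
  · exact ⟨1, by ring, by rw [h, C_1, one_mul]⟩
  · exact ⟨-1, by ring, by rw [h, C_neg, C_1, neg_one_mul]⟩

/-- if `f W'^2 = π^2 G` in `Z_p[X]` with `π` divisible by `p` then `W' = π W` -/
theorem div_pi (p : ℕ) [Fact p.Prime] (hp : 5 ≤ p) (π : ℤ_[p]) (u : ℤ_[p]ˣ)
    (hπ : π = (p : ℤ_[p]) * u) (f W' G : ℤ_[p][X]) (hf : f.Monic)
    (h : f * W' ^ 2 = C (π ^ 2) * G) : ∃ W : ℤ_[p][X], W' = C π * W ∧ f * W ^ 2 = G := by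
  have hpr : Prime (C (p : ℤ_[p]) : ℤ_[p][X]) := prime_C_iff.mpr PadicInt.prime_p
  have hπ0 : π ≠ 0 := by
    rw [hπ]
    exact mul_ne_zero PadicInt.prime_p.ne_zero u.ne_zero
  have h1 : (C (p : ℤ_[p]) : ℤ_[p][X]) ∣ f * W' ^ 2 := by
    rw [h, hπ]
    exact ⟨C ((p : ℤ_[p]) * u ^ 2) * G, by rw [← mul_assoc, ← C_mul]; congr 2; ring⟩
  have h2 : (C (p : ℤ_[p]) : ℤ_[p][X]) ∣ W' := by
    rcases hpr.dvd_or_dvd h1 with h3 | h3
    · exfalso
      rw [C_dvd_iff_dvd_coeff] at h3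
      have h4 := h3 f.natDegree
      rw [hf.coeff_natDegree] at h4
      exact PadicInt.prime_p.not_isUnit (isUnit_of_dvd_one h4)
    · exact hpr.dvd_of_dvd_pow h3
  obtain ⟨W0, hW0⟩ := h2
  have h5 : W' = C π * (C ((u⁻¹ : ℤ_[p]ˣ) : ℤ_[p]) * W0) := by
    rw [hW0, ← mul_assoc, ← C_mul, hπ, mul_assoc, Units.mul_inv, mul_one]
  refine ⟨_, h5, ?_⟩
  have hC : (C (π ^ 2) : ℤ_[p][X]) ≠ 0 := by
    rw [Ne, C_eq_zero]
    exact pow_ne_zero _ hπ0
  apply mul_left_cancel₀ hC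
  rw [← h, h5, C_pow]
  ring

end Pool.Agent.H.MP_7425ae_nt
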