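import Pool.Agent.H.MP_7425ae_nt.HRel

/-! `H_m(u)` as a coefficient of a power of a cubic polynomial. -/

set_option autoImplicit false

open Polynomial

namespace Pool.Agent.H.MP_7425ae_nt

variable {R : Type} [CommRing R]

theorem hcoef_lin (k j : ℕ) :
    ((C 4 * X + 1 : R[X]) ^ k).coeff j = (k.choose j : R) * 4 ^ j := by
  have h1 : ((C 4 * X + 1 : R[X]) ^ k) = ((X + 1 : R[X]) ^ k).comp (C 4 * X) := by
    rw [pow_comp, add_comp, X_comp, one_comp]
  rw [h1, comp_C_mul_X_coeff, coeff_X_add_one_pow]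

theorem hcoef_choose (m c : ℕ) (hc : c ≤ m) :
    m.choose c * (m - c).choose (2 * c) = m.choose (3 * c) * (3 * c).choose c := by
  rcases Nat.lt_or_ge m (3 * c) with h | h
  · rw [Nat.choose_eq_zero_of_lt h, Nat.choose_eq_zero_of_lt (show m - c < 2 * c by omega)]
    simp
  · have h1 := Nat.choose_mul (n := m) (k := 3 * c) (s := c) (by omega)
    rw [h1]
    congr 2
    omega

/-- `H_m(u) = [x^{2m}] (4x^3 + x^2 - 4u)^m` -/
theorem Hr_coeff (m : ℕ) (u : R) :
    Hr m u = ((C 4 * X ^ 3 + X ^ 2 - C (4 * u)) ^ m).coeff (2 * m) := by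
  have h0 : (C 4 * X ^ 3 + X ^ 2 - C (4 * u) : R[X]) = C (-4 * u) + X ^ 2 * (C 4 * X + 1) := by
    have h1 : (C (-4 * u) : R[X]) = - C (4 * u) := by
      rw [← C_neg]
      congr 1
      ring
    rw [h1]
    ring
  rw [h0, add_pow, Hr, finsetSum_coeff]
  refine Finset.sum_congr rfl (fun c hc => ?_)
  have hcm : c ≤ m := by
    have := Finset.mem_range.1 hc
    omega
  have h2 : (C (-4 * u) ^ c * (X ^ 2 * (C 4 * X + 1)) ^ (m - c) * ((m.choose c : ℕ) : R[X]))
      = C ((-4 * u) ^ c * ((m.choose c : ℕ) : R)) * (X ^ (2 * (m - c)) * (C 4 * X + 1) ^ (m - c)) := by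
    rw [mul_pow (X ^ 2 : R[X]), ← pow_mul, C_mul (a := (-4 * u) ^ c), C_pow, C_eq_natCast]
    ring
  rw [h2, coeff_C_mul, coeff_X_pow_mul', if_pos (by omega), hcoef_lin]
  have h3 : 2 * m - 2 * (m - c) = 2 * c := by omega
  rw [h3]
  have h4 := hcoef_choose m c hcm
  have h5 : ((m.choose c : ℕ) : R) * (((m - c).choose (2 * c) : ℕ) : R)
      = ((m.choose (3 * c) * (3 * c).choose c : ℕ) : R) := by
    rw [← h4]
    push_cast
    rfl
  have h6 : ((er m c : ℤ) : R) = ((m.choose (3 * c) * (3 * c).choose c : ℕ) : R) * (-64) ^ c := by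
    unfold er
    push_cast
    rfl
  rw [h6, ← h5, pow_mul]
  have h7 : ((-64 : R)) ^ c = (-4) ^ c * (4 ^ 2) ^ c := by
    rw [← mul_pow]
    norm_num
  rw [h7, mul_pow]
  ring

/-- `X^3 - 608 X + 5776` -/
noncomputable def FQ (R : Type) [CommRing R] : R[X] := X ^ 3 - C 608 * X + C 5776

/-- `[X^{2m}] F(X+c)^m` -/
noncomputable def KK (m : ℕ) (c : R) : R := (((FQ R).comp (X + C c)) ^ m).coeff (2 * m)

theorem hcoef_cancel {a b : R} (k : R) (hk : IsUnit k) (h : k * a = k * b) : a = b :=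
  hk.mul_left_cancel h

/-- scaling: with `γ = 16 g`, `c = γ/12` one has `γ^3 (4x^3+x^2-4u) = 4 F(γ x + c)` -/
theorem Hr_KK (m : ℕ) (g u c : R) (hg : g ^ 2 = 114) (h2 : IsUnit (2 : R)) (h3 : IsUnit (3 : R))
    (h19 : IsUnit (19 : R)) (hu : 27648 * u = 32 - 3 * g) (hc : 3 * c = 4 * g) :
    (16 * g) ^ m * Hr m u = 4 ^ m * KK m c := by
  have hgu : IsUnit g := by
    have h114 : IsUnit (114 : R) := by
      have : (114 : R) = 2 * 3 * 19 := by norm_num
      rw [this]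
      exact (h2.mul h3).mul h19
    rw [← hg, pow_two] at h114
    exact isUnit_of_mul_isUnit_left h114
  have h16 : IsUnit (16 : R) := by
    have : (16 : R) = 2 ^ 4 := by norm_num
    rw [this]
    exact h2.pow 4
  have hγ : IsUnit (16 * g) := h16.mul hgu
  have e1 : (16 * g : R) = 12 * c := by
    linear_combination (-4 : R) * hc
  have e2 : 3 * c ^ 2 = 608 := by
    apply hcoef_cancel 3 h3
    linear_combination (3 * c + 4 * g) * hc + 16 * hg
  have h27 : IsUnit (27 : R) := by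
    have : (27 : R) = 3 ^ 3 := by norm_num
    rw [this]
    exact h3.pow 3
  have e3 : c ^ 3 - 608 * c + 5776 + (16 * g) ^ 3 * u = 0 := by
    apply hcoef_cancel 27 h27
    linear_combination (9 * c ^ 2 + 12 * c * g + 16 * g ^ 2 - 5472) * hc
      + (64 * g + 110592 * g * u - 1368) * hg + 456 * g * hu
  have key : C ((16 * g) ^ 3) * (C 4 * X ^ 3 + X ^ 2 - C (4 * u))
      = C 4 * ((FQ R).comp (X + C c)).comp (C (16 * g) * X) := by
    have hF : ((FQ R).comp (X + C c)).comp (C (16 * g) * X)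
        = (C (16 * g) * X + C c) ^ 3 - C 608 * (C (16 * g) * X + C c) + C 5776 := by
      unfold FQ
      simp only [add_comp, sub_comp, mul_comp, pow_comp, X_comp, C_comp]
    have f1 : (C (16 * g) : R[X]) = C 12 * C c := by rw [← C_mul, e1]
    have f2 : C 3 * (C c : R[X]) ^ 2 = C 608 := by rw [← C_pow, ← C_mul, e2]
    have f3 : (C c : R[X]) ^ 3 - C 608 * C c + C 5776 + C (16 * g) ^ 3 * C u = 0 := by
      rw [← C_pow, ← C_mul, ← C_sub, ← C_add, ← C_pow, ← C_mul, ← C_add, e3, C_0]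
    rw [hF, C_pow, C_mul (a := (4 : R)) (b := u)]
    generalize hγ' : (C (16 * g) : R[X]) = γ at *
    have k12 : (C 12 : R[X]) = 12 := rfl
    have k3 : (C 3 : R[X]) = 3 := rfl
    have k4 : (C 4 : R[X]) = 4 := rfl
    have k608 : (C 608 : R[X]) = 608 := rfl
    have k5776 : (C 5776 : R[X]) = 5776 := rfl
    rw [k12] at f1
    rw [k3, k608] at f2
    rw [k608, k5776] at f3
    rw [k4, k608, k5776]
    linear_combination (γ ^ 2 * X ^ 2) * f1 - 4 * γ * X * f2 - 4 * f3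
  have l1 : ((C ((16 * g) ^ 3) * (C 4 * X ^ 3 + X ^ 2 - C (4 * u)) : R[X]) ^ m).coeff (2 * m)
      = ((16 * g) ^ 3) ^ m * Hr m u := by
    rw [mul_pow, ← C_pow, coeff_C_mul, Hr_coeff]
  have r1 : ((C 4 * ((FQ R).comp (X + C c)).comp (C (16 * g) * X) : R[X]) ^ m).coeff (2 * m)
      = 4 ^ m * ((((FQ R).comp (X + C c)) ^ m).coeff (2 * m) * (16 * g) ^ (2 * m)) := by
    rw [mul_pow, ← C_pow, coeff_C_mul, ← pow_comp, comp_C_mul_X_coeff]
  have key2 : ((16 * g) ^ 3) ^ m * Hr m u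
      = 4 ^ m * ((((FQ R).comp (X + C c)) ^ m).coeff (2 * m) * (16 * g) ^ (2 * m)) := by
    rw [← l1, ← r1, key]
  apply hcoef_cancel ((16 * g) ^ (2 * m)) (hγ.pow _)
  have h8 : ((16 * g) ^ 3) ^ m = (16 * g) ^ (2 * m) * (16 * g) ^ m := by
    rw [← pow_mul, ← pow_add]
    congr 1
    ring
  unfold KK
  calc (16 * g) ^ (2 * m) * ((16 * g) ^ m * Hr m u)
      = ((16 * g) ^ 3) ^ m * Hr m u := by rw [h8]; ring
    _ = 4 ^ m * ((((FQ R).comp (X + C c)) ^ m).coeff (2 * m) * (16 * g) ^ (2 * m)) := key2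
    _ = (16 * g) ^ (2 * m) * (4 ^ m * (((FQ R).comp (X + C c)) ^ m).coeff (2 * m)) := by ring

end Pool.Agent.H.MP_7425ae_nt
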