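import Pool.Agent.H.MP_7425ae_nt.HtDef
import Pool.Agent.H.MP_7425ae_nt.Der

/-! Heights: the derivation `d/dX` of the function field. -/

set_option autoImplicit false

open Polynomial

namespace Pool.Agent.H.MP_7425ae_nt

/-- `P ↦ (P, P')` as a ring homomorphism to the dual numbers over the function field -/
noncomputable def htderff_g (O : Type) [CommRing O] [IsDomain O] :
    O[X] →+* TrivSqZeroExt (FF O) (FF O) where
  toFun P := TrivSqZeroExt.inl (pf P) + TrivSqZeroExt.inr (pf (derivative P))
  map_one' := by
    ext <;> simp
  map_mul' := by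
    intro P Q
    ext
    · simp
    · simp only [TrivSqZeroExt.snd_add, TrivSqZeroExt.snd_inl, TrivSqZeroExt.snd_inr, zero_add,
        TrivSqZeroExt.snd_mul, TrivSqZeroExt.fst_add, TrivSqZeroExt.fst_inl,
        TrivSqZeroExt.fst_inr, add_zero, derivative_mul, map_add, map_mul, smul_eq_mul,
        MulOpposite.smul_eq_mul_unop, MulOpposite.unop_op]
      ring
  map_zero' := by
    ext <;> simp
  map_add' := by
    intro P Q
    ext <;> simp

theorem htderff_g_fst (O : Type) [CommRing O] [IsDomain O] (P : O[X]) :
    (htderff_g O P).fst = pf P := by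
  simp [htderff_g]

theorem htderff_g_snd (O : Type) [CommRing O] [IsDomain O] (P : O[X]) :
    (htderff_g O P).snd = pf (derivative P) := by
  simp [htderff_g]

theorem exists_der (O : Type) [CommRing O] [IsDomain O] :
    ∃ δ : FF O → FF O, IsDer δ ∧ ∀ P : O[X], δ (pf P) = pf (derivative P) := by
  have hu : ∀ y : nonZeroDivisors O[X], IsUnit (htderff_g O y) := by
    intro y
    rw [TrivSqZeroExt.isUnit_iff_isUnit_fst, htderff_g_fst]
    refine isUnit_iff_ne_zero.2 ?_
    intro h
    have h2 : (y : O[X]) = 0 := by
      apply IsFractionRing.injective O[X] (FF O)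
      rw [map_zero]
      exact h
    exact nonZeroDivisors.ne_zero y.2 h2
  let G : FF O →+* TrivSqZeroExt (FF O) (FF O) :=
    IsLocalization.lift (M := nonZeroDivisors O[X]) (S := FF O) hu
  have hG : ∀ P : O[X], G (pf P) = htderff_g O P := by
    intro P
    exact IsLocalization.lift_eq hu P
  have hfst : ∀ x : FF O, (G x).fst = x := by
    have h1 : ((TrivSqZeroExt.fstHom (FF O) (FF O) (FF O)).toRingHom.comp G) = RingHom.id (FF O) := by
      apply IsLocalization.ringHom_ext (nonZeroDivisors O[X])
      ext P
      · simp only [RingHom.comp_apply, RingHom.id_apply]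
        have := hG (C P)
        unfold pf at this
        rw [this]
        exact htderff_g_fst O (C P)
      · simp only [RingHom.comp_apply, RingHom.id_apply]
        have := hG X
        unfold pf at this
        rw [this]
        exact htderff_g_fst O X
    intro x
    exact congrArg (fun f => f x) h1
  refine ⟨fun x => (G x).snd, ⟨?_, ?_⟩, ?_⟩
  · intro a b
    simp
  · intro a b
    simp only [map_mul, TrivSqZeroExt.snd_mul, hfst, smul_eq_mul,
      MulOpposite.smul_eq_mul_unop, MulOpposite.unop_op]
  · intro P
    show (G (pf P)).snd = _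
    rw [hG, htderff_g_snd]

end Pool.Agent.H.MP_7425ae_nt
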