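import Mathlib

/-! Heights: induction on the lattice `Z + Z β`. -/

set_option autoImplicit false

namespace Pool.Agent.H.MP_7425ae_nt

private theorem htlat_nonneg (a b : ℤ) : 0 ≤ a ^ 2 + a * b + 5 * b ^ 2 := by
  nlinarith [sq_nonneg (2 * a + b), sq_nonneg b]

/-- if `g(P1) = 1`, `g(P2) = 5`, `g(P1 - P2) = 5` then `g(a P1 + b P2) = a^2 + a b + 5 b^2` -/
theorem lattice_heights {G : Type} [AddCommGroup G] (good : G → ℕ → Prop)
    (h0 : good 0 0) (hneg : ∀ P h, good P h → good (-P) h)
    (hadd : ∀ P Q m n k, good P m → good Q n → good (P - Q) k →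
      ∃ l : ℕ, good (P + Q) l ∧ k + l = 2 * m + 2 * n)
    (P1 P2 : G) (h1 : good P1 1) (h2 : good P2 5) (h12 : good (P1 - P2) 5) (a b : ℤ) :
    good (a • P1 + b • P2) (a ^ 2 + a * b + 5 * b ^ 2).natAbs := by
  set F : ℤ → ℤ → Prop := fun a b => good (a • P1 + b • P2) (a ^ 2 + a * b + 5 * b ^ 2).natAbs
    with hF
  have R : ∀ a b c d : ℤ, F a b → F c d → F (a - c) (b - d) → F (a + c) (b + d) := by
    intro a b c d hab hcd hd
    simp only [hF] at hab hcd hd ⊢
    have e1 : (a • P1 + b • P2) - (c • P1 + d • P2) = (a - c) • P1 + (b - d) • P2 := by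
      simp only [sub_smul]; abel
    have e2 : (a • P1 + b • P2) + (c • P1 + d • P2) = (a + c) • P1 + (b + d) • P2 := by
      simp only [add_smul]; abel
    obtain ⟨l, hl, hk⟩ := hadd _ _ _ _ _ hab hcd (by rw [e1]; exact hd)
    rw [e2] at hl
    have hll : l = ((a + c) ^ 2 + (a + c) * (b + d) + 5 * (b + d) ^ 2).natAbs := by
      zify at hk ⊢
      rw [abs_of_nonneg (htlat_nonneg _ _), abs_of_nonneg (htlat_nonneg _ _),
        abs_of_nonneg (htlat_nonneg _ _)] at hk
      rw [abs_of_nonneg (htlat_nonneg _ _)]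
      linarith
    rw [← hll]; exact hl
  have N : ∀ a b : ℤ, F a b → F (-a) (-b) := by
    intro a b hab
    simp only [hF] at hab ⊢
    have e1 : (-a) • P1 + (-b) • P2 = -(a • P1 + b • P2) := by
      simp only [neg_smul]; abel
    have e2 : (-a) ^ 2 + (-a) * (-b) + 5 * (-b) ^ 2 = a ^ 2 + a * b + 5 * b ^ 2 := by ring
    rw [e1, e2]; exact hneg _ _ hab
  have F00 : F 0 0 := by simp only [hF]; simpa using h0
  have F10 : F 1 0 := by simp only [hF]; simpa using h1
  have F01 : F 0 1 := by simp only [hF]; simpa using h2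
  have F1m : F 1 (-1) := by
    simp only [hF]
    have : (1 : ℤ) • P1 + (-1 : ℤ) • P2 = P1 - P2 := by simp [sub_eq_add_neg]
    rw [this]; simpa using h12
  have F11 : F 1 1 := by
    have := R 1 0 0 1 F10 F01 (by simpa using F1m)
    simpa using this
  have FA0 : ∀ n : ℕ, F n 0 ∧ F (n + 1) 0 := by
    intro n
    induction n with
    | zero => exact ⟨by simpa using F00, by simpa using F10⟩
    | succ n ih =>
      refine ⟨by simpa using ih.2, ?_⟩
      have := R (n + 1) 0 1 0 ih.2 F10 (by simpa using ih.1)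
      simpa using this
  have FZ0 : ∀ a : ℤ, F a 0 := by
    intro a
    rcases Int.eq_nat_or_neg a with ⟨n, rfl | rfl⟩
    · exact (FA0 n).1
    · simpa using N _ _ (FA0 n).1
  have FU : ∀ n : ℕ, F n 1 ∧ F (n + 1) 1 := by
    intro n
    induction n with
    | zero => exact ⟨by simpa using F01, by simpa using F11⟩
    | succ n ih =>
      refine ⟨by simpa using ih.2, ?_⟩
      have := R (n + 1) 1 1 0 ih.2 F10 (by simpa using ih.1)
      simpa using this
  have Fm10 : F (-1) 0 := by simpa using N _ _ F10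
  have FD : ∀ n : ℕ, F (-(n : ℤ)) 1 ∧ F (-(n : ℤ) + 1) 1 := by
    intro n
    induction n with
    | zero => exact ⟨by simpa using F01, by simpa using F11⟩
    | succ n ih =>
      have := R (-(n : ℤ)) 1 (-1) 0 ih.1 Fm10 (by simpa using ih.2)
      have e1 : -((n + 1 : ℕ) : ℤ) = -(n : ℤ) + -1 := by push_cast; ring
      have e2 : -((n + 1 : ℕ) : ℤ) + 1 = -(n : ℤ) := by push_cast; ring
      refine ⟨?_, ?_⟩
      · rw [e1]; simpa using this
      · rw [e2]; exact ih.1
  have FZ1 : ∀ a : ℤ, F a 1 := by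
    intro a
    rcases Int.eq_nat_or_neg a with ⟨n, rfl | rfl⟩
    · exact (FU n).1
    · exact (FD n).1
  have FN : ∀ (n : ℕ) (a : ℤ), F a n ∧ F a (n + 1) := by
    intro n
    induction n with
    | zero => intro a; exact ⟨by simpa using FZ0 a, by simpa using FZ1 a⟩
    | succ n ih =>
      intro a
      refine ⟨by simpa using (ih a).2, ?_⟩
      have := R a (n + 1) 0 1 (ih a).2 F01 (by simpa using (ih a).1)
      simpa using this
  have hall : ∀ a b : ℤ, F a b := by
    intro a b
    rcases Int.eq_nat_or_neg b with ⟨n, rfl | rfl⟩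
    · exact (FN n a).1
    · have := N _ _ (FN n (-a)).1
      simpa using this
  exact hall a b

/-- lattice induction for a second predicate: `gam γ P` for `P = a P1 + b P2`, `γ = a + b β` -/
theorem lattice_gam {G K : Type} [AddCommGroup G] [Field K] (β : K) (gam : G → K → Prop)
    (P1 P2 : G) (hinj : ∀ a b : ℤ, a • P1 + b • P2 = 0 → a = 0 ∧ b = 0)
    (hneg : ∀ P g, gam P g → gam (-P) (-g))
    (hadd : ∀ P Q g g', gam P g → gam Q g' → P ≠ Q → P ≠ -Q →
      (∃ a b : ℤ, ¬(a = 0 ∧ b = 0) ∧ P + Q = a • P1 + b • P2) → gam (P + Q) (g + g'))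
    (hdbl : ∀ P g, gam P g → (∃ a b : ℤ, ¬(a = 0 ∧ b = 0) ∧ P + P = a • P1 + b • P2) →
      gam (P + P) (g + g))
    (h1 : gam P1 1) (h2 : gam P2 β) (a b : ℤ) (hab : ¬(a = 0 ∧ b = 0)) :
    gam (a • P1 + b • P2) ((a : K) + (b : K) * β) := by
  set F : ℤ → ℤ → Prop := fun a b => gam (a • P1 + b • P2) ((a : K) + (b : K) * β)
    with hF
  have R : ∀ a b c d : ℤ, F a b → F c d → ¬(a + c = 0 ∧ b + d = 0) → F (a + c) (b + d) := by
    intro a b c d h h' hne
    simp only [hF] at h h' ⊢
    have e2 : (a • P1 + b • P2) + (c • P1 + d • P2) = (a + c) • P1 + (b + d) • P2 := by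
      simp only [add_smul]; abel
    have e3 : ((a : K) + (b : K) * β) + ((c : K) + (d : K) * β)
        = (((a + c : ℤ) : K) + ((b + d : ℤ) : K) * β) := by
      push_cast; ring
    by_cases hcase : a = c ∧ b = d
    · obtain ⟨rfl, rfl⟩ := hcase
      have := hdbl _ _ h ⟨a + a, b + b, hne, e2⟩
      rw [e2, e3] at this
      exact this
    · have := hadd _ _ _ _ h h' ?_ ?_ ⟨a + c, b + d, hne, e2⟩
      · rw [e2, e3] at this
        exact this
      · intro he
        apply hcase
        have e4 : (a - c) • P1 + (b - d) • P2 = 0 := by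
          have : (a - c) • P1 + (b - d) • P2 = (a • P1 + b • P2) - (c • P1 + d • P2) := by
            simp only [sub_smul]; abel
          rw [this, he, sub_self]
        obtain ⟨h5, h6⟩ := hinj _ _ e4
        exact ⟨by linarith, by linarith⟩
      · intro he
        apply hne
        apply hinj
        rw [← e2, he]; simp
  have N : ∀ a b : ℤ, F a b → F (-a) (-b) := by
    intro a b hab
    simp only [hF] at hab ⊢
    have e1 : (-a) • P1 + (-b) • P2 = -(a • P1 + b • P2) := by
      simp only [neg_smul]; abel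
    have e2 : (((-a : ℤ) : K) + ((-b : ℤ) : K) * β) = -((a : K) + (b : K) * β) := by
      push_cast; ring
    rw [e1, e2]; exact hneg _ _ hab
  have F10 : F 1 0 := by simp only [hF]; simpa using h1
  have F01 : F 0 1 := by simp only [hF]; simpa using h2
  have Fm10 : F (-1) 0 := by simpa using N _ _ F10
  have FA0 : ∀ n : ℕ, F (n + 1) 0 := by
    intro n
    induction n with
    | zero => simpa using F10
    | succ n ih =>
      have := R (n + 1) 0 1 0 ih F10 (by omega)
      simpa using this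
  have FZ0 : ∀ a : ℤ, a ≠ 0 → F a 0 := by
    intro a ha
    rcases Int.eq_nat_or_neg a with ⟨n, rfl | rfl⟩
    · obtain ⟨m, rfl⟩ : ∃ m, n = m + 1 := ⟨n - 1, by omega⟩
      simpa using FA0 m
    · obtain ⟨m, rfl⟩ : ∃ m, n = m + 1 := ⟨n - 1, by omega⟩
      simpa using N _ _ (FA0 m)
  have FU : ∀ n : ℕ, F n 1 := by
    intro n
    induction n with
    | zero => simpa using F01
    | succ n ih =>
      have := R n 1 1 0 ih F10 (by omega)
      simpa using this
  have FD : ∀ n : ℕ, F (-(n : ℤ)) 1 := by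
    intro n
    induction n with
    | zero => simpa using F01
    | succ n ih =>
      have := R (-(n : ℤ)) 1 (-1) 0 ih Fm10 (by omega)
      have e1 : -((n + 1 : ℕ) : ℤ) = -(n : ℤ) + -1 := by push_cast; ring
      rw [e1]; simpa using this
  have FZ1 : ∀ a : ℤ, F a 1 := by
    intro a
    rcases Int.eq_nat_or_neg a with ⟨n, rfl | rfl⟩
    · exact FU n
    · exact FD n
  have FN : ∀ (n : ℕ) (a : ℤ), F a (n + 1) := by
    intro n
    induction n with
    | zero => intro a; simpa using FZ1 a
    | succ n ih =>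
      intro a
      have := R a (n + 1) 0 1 (ih a) F01 (by omega)
      simpa using this
  have hall : ∀ a b : ℤ, ¬(a = 0 ∧ b = 0) → F a b := by
    intro a b hab
    by_cases hb : b = 0
    · subst hb
      exact FZ0 a (fun h => hab ⟨h, rfl⟩)
    · rcases Int.eq_nat_or_neg b with ⟨n, rfl | rfl⟩
      · obtain ⟨m, rfl⟩ : ∃ m, n = m + 1 := ⟨n - 1, by omega⟩
        simpa using FN m a
      · obtain ⟨m, rfl⟩ : ∃ m, n = m + 1 := ⟨n - 1, by omega⟩
        have := N _ _ (FN m (-a))
        simpa using this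
  exact hall a b hab

end Pool.Agent.H.MP_7425ae_nt
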