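import Pool.Agent.H.MP_7425ae_nt.HtDef

/-! Heights: the parallelogram law for good points. -/

set_option autoImplicit false

open Polynomial

namespace Pool.Agent.H.MP_7425ae_nt

variable {O : Type} [CommRing O] [IsDomain O]

theorem htstep_mul_lt (F G : O[X]) (a b : ℕ) (hF : F.degree < (a : WithBot ℕ))
    (hG : G.degree ≤ (b : WithBot ℕ)) : (F * G).degree < ((a + b : ℕ) : WithBot ℕ) := by
  by_cases hF0 : F = 0
  · rw [hF0, zero_mul, degree_zero]
    exact WithBot.bot_lt_coe _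
  by_cases hG0 : G = 0
  · rw [hG0, mul_zero, degree_zero]
    exact WithBot.bot_lt_coe _
  have h1 : F.natDegree < a := (natDegree_lt_iff_degree_lt hF0).2 hF
  have h2 : G.natDegree ≤ b := natDegree_le_iff_degree_le.2 hG
  rw [← natDegree_lt_iff_degree_lt (mul_ne_zero hF0 hG0), natDegree_mul hF0 hG0]
  omega

theorem htstep_const_lt (c : O) (G : O[X]) (b : ℕ) (hG : G.degree < (b : WithBot ℕ)) :
    (C c * G).degree < (b : WithBot ℕ) := by
  have h := htstep_mul_lt G (C c) b 0 hG (by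
    rw [Nat.cast_zero]
    exact degree_C_le)
  rw [Nat.add_zero] at h
  rwa [mul_comm]

/-- degrees: `q2` is monic of degree `2(m+n)`, the other two forms have smaller degree -/
theorem q_degree (A B : O) (N1 D1 N2 D2 : O[X]) (h1 : N1.Monic) (h2 : N2.Monic)
    (g1 : D1.degree < N1.degree) (g2 : D2.degree < N2.degree) :
    (q2 (C A) (C B) (D1 * D2) (N1 * D2 + N2 * D1) (N1 * N2)).Monic ∧
    (q2 (C A) (C B) (D1 * D2) (N1 * D2 + N2 * D1) (N1 * N2)).natDegree
      = 2 * N1.natDegree + 2 * N2.natDegree ∧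
    (q1 (C A) (C B) (D1 * D2) (N1 * D2 + N2 * D1) (N1 * N2)).degree
      < (q2 (C A) (C B) (D1 * D2) (N1 * D2 + N2 * D1) (N1 * N2)).degree := by
  set m := N1.natDegree with hm
  set n := N2.natDegree with hn
  have d1 : N1.degree = (m : WithBot ℕ) := degree_eq_natDegree h1.ne_zero
  have d2 : N2.degree = (n : WithBot ℕ) := degree_eq_natDegree h2.ne_zero
  rw [d1] at g1
  rw [d2] at g2
  set p0 := D1 * D2 with hp0
  set p1 := N1 * D2 + N2 * D1 with hp1
  set p2 := N1 * N2 with hp2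
  have e0 : p0.degree < ((m + n : ℕ) : WithBot ℕ) := htstep_mul_lt D1 D2 m n g1 g2.le
  have e1 : p1.degree < ((m + n : ℕ) : WithBot ℕ) := by
    refine lt_of_le_of_lt (degree_add_le _ _) (max_lt ?_ ?_)
    · rw [mul_comm, Nat.add_comm]
      exact htstep_mul_lt D2 N1 n m g2 d1.le
    · rw [mul_comm]
      exact htstep_mul_lt D1 N2 m n g1 d2.le
  have hM : p2.Monic := h1.mul h2
  have hMn : p2.natDegree = m + n := h1.natDegree_mul h2
  have e2 : p2.degree = ((m + n : ℕ) : WithBot ℕ) := by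
    rw [degree_eq_natDegree hM.ne_zero, hMn]
  have hW : (p2 - C A * p0).Monic := by
    apply hM.sub_of_left
    rw [e2]
    exact htstep_const_lt A p0 _ e0
  have hWn : (p2 - C A * p0).natDegree = m + n := by
    have : (p2 - C A * p0).degree = p2.degree :=
      degree_sub_eq_left_of_degree_lt (by rw [e2]; exact htstep_const_lt A p0 _ e0)
    rw [natDegree_eq_of_degree_eq this, hMn]
  have hW2 : ((p2 - C A * p0) ^ 2).Monic := hW.pow 2
  have hW2n : ((p2 - C A * p0) ^ 2).natDegree = (m + n) + (m + n) := by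
    rw [hW.natDegree_pow, hWn]
    omega
  have hW2d : ((p2 - C A * p0) ^ 2).degree = (((m + n) + (m + n) : ℕ) : WithBot ℕ) := by
    rw [degree_eq_natDegree hW2.ne_zero, hW2n]
  have hT : (4 * C B * p0 * p1).degree < (((m + n) + (m + n) : ℕ) : WithBot ℕ) := by
    have h4 : (4 * C B : O[X]) = C (4 * B) := by
      rw [C_mul]
      congr 1
    rw [h4]
    exact htstep_mul_lt _ _ _ _ (htstep_const_lt _ _ _ e0) e1.le
  have hq2 : q2 (C A) (C B) p0 p1 p2 = (p2 - C A * p0) ^ 2 - 4 * C B * p0 * p1 := rfl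
  have hq2d : (q2 (C A) (C B) p0 p1 p2).degree = (((m + n) + (m + n) : ℕ) : WithBot ℕ) := by
    rw [hq2, degree_sub_eq_left_of_degree_lt (by rw [hW2d]; exact hT), hW2d]
  refine ⟨?_, ?_, ?_⟩
  · rw [hq2]
    exact hW2.sub_of_left (by rw [hW2d]; exact hT)
  · have := natDegree_eq_of_degree_eq_some hq2d
    rw [this]
    omega
  · rw [hq2d]
    have hq1 : q1 (C A) (C B) p0 p1 p2 =
        C 2 * (p1 * (C A * p0 + p2)) + C (4 * B) * (p0 * p0) := by
      have h2 : (C (2 : O) : O[X]) = 2 := rfl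
      have h4 : (C (4 * B) : O[X]) = 4 * C B := by
        rw [C_mul]
        congr 1
      rw [h2, h4, q1]
      ring
    rw [hq1]
    refine lt_of_le_of_lt (degree_add_le _ _) (max_lt ?_ ?_)
    · apply htstep_const_lt
      apply htstep_mul_lt _ _ _ _ e1
      refine (degree_add_le _ _).trans (max_le ?_ e2.le)
      exact (htstep_const_lt A p0 _ e0).le
    · apply htstep_const_lt
      exact htstep_mul_lt _ _ _ _ e0 e0.le

theorem htstep_rep [UniqueFactorizationMonoid O] {A B : O} (S : PtE A B) :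
    ∃ N D : O[X], IsRelPrime N D ∧ XRep (pf (fX A B)) S (pf N) (pf D) := by
  have hinj : Function.Injective (pf : O[X] →+* FF O) := IsFractionRing.injective O[X] (FF O)
  have hf : pf (fX A B) ≠ 0 := by
    rw [Ne, map_eq_zero_iff _ hinj]
    exact fX_ne_zero A B
  match S with
  | .zero =>
    refine ⟨1, 0, isRelPrime_one_left, ?_⟩
    show pf 0 = 0 ∧ pf 1 ≠ 0
    rw [map_zero, map_one]
    exact ⟨rfl, one_ne_zero⟩
  | .some x y e =>
    refine ⟨IsFractionRing.num O[X] (x / pf (fX A B)),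
      (IsFractionRing.den O[X] (x / pf (fX A B)) : O[X]),
      IsFractionRing.num_den_reduced O[X] _, ?_⟩
    have h0 : pf (IsFractionRing.den O[X] (x / pf (fX A B)) : O[X]) ≠ 0 := by
      rw [Ne, map_eq_zero_iff _ hinj]
      exact nonZeroDivisors.coe_ne_zero _
    refine ⟨h0, ?_⟩
    have h1 := IsFractionRing.mk'_num_den O[X] (x / pf (fX A B))
    rw [IsFractionRing.mk'_eq_div] at h1
    have h2 : pf (IsFractionRing.num O[X] (x / pf (fX A B))) /
        pf (IsFractionRing.den O[X] (x / pf (fX A B)) : O[X]) = x / pf (fX A B) := h1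
    rw [div_eq_div_iff h0 hf] at h2
    rw [← h2]
    ring

theorem htstep_scale {A B : O} (S : PtE A B) (N D : O[X]) (c : O) (hc : c ≠ 0)
    (h : XRep (pf (fX A B)) S (pf N) (pf D)) :
    XRep (pf (fX A B)) S (pf (C c * N)) (pf (C c * D)) := by
  have hinj : Function.Injective (pf : O[X] →+* FF O) := IsFractionRing.injective O[X] (FF O)
  have hc' : pf (C c) ≠ 0 := by
    rw [Ne, map_eq_zero_iff _ hinj, C_eq_zero]
    exact hc
  match S, h with
  | .zero, h =>
    have h1 : pf D = 0 ∧ pf N ≠ 0 := h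
    show pf (C c * D) = 0 ∧ pf (C c * N) ≠ 0
    rw [map_mul, map_mul, h1.1, mul_zero]
    exact ⟨rfl, mul_ne_zero hc' h1.2⟩
  | .some x y e, h =>
    have h1 : pf D ≠ 0 ∧ x * pf D = pf (fX A B) * pf N := h
    show pf (C c * D) ≠ 0 ∧ x * pf (C c * D) = pf (fX A B) * pf (C c * N)
    rw [map_mul, map_mul]
    refine ⟨mul_ne_zero hc' h1.1, ?_⟩
    linear_combination pf (C c) * h1.2

/-- if `P`, `Q` and `P - Q` are good then so is `P + Q` -/
theorem Good.add [UniqueFactorizationMonoid O] {A B : O} (h2 : IsUnit (2 : O))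
    (hd : IsUnit (4 * A ^ 3 + 27 * B ^ 2)) {P Q : PtE A B} {m n k : ℕ} (hP : Good A B P m)
    (hQ : Good A B Q n) (hPQ : Good A B (P - Q) k) :
    ∃ l : ℕ, Good A B (P + Q) l ∧ k + l = 2 * m + 2 * n := by
  have hinj : Function.Injective (pf : O[X] →+* FF O) := IsFractionRing.injective O[X] (FF O)
  have hf : pf (fX A B) ≠ 0 := by
    rw [Ne, map_eq_zero_iff _ hinj]
    exact fX_ne_zero A B
  obtain ⟨N1, D1, m1, n1, g1, c1, r1⟩ := hP
  obtain ⟨N2, D2, m2, n2, g2, c2, r2⟩ := hQ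
  obtain ⟨N3, D3, m3, n3, g3, c3, r3⟩ := hPQ
  obtain ⟨N4, D4, c4, r4⟩ := htstep_rep (P + Q)
  have h2X : IsUnit (2 : O[X]) := by
    have := h2.map (C : O →+* O[X])
    exact this
  have hdX : IsUnit (4 * (C A) ^ 3 + 27 * (C B) ^ 2 : O[X]) := by
    have := hd.map (C : O →+* O[X])
    simpa only [map_add, map_mul, map_pow, map_ofNat] using this
  have h2F : (2 : FF O) ≠ 0 := by
    have := (h2X.map (pf : O[X] →+* FF O)).ne_zero
    simpa only [map_ofNat] using this
  have hdF : 4 * (pf (C A)) ^ 3 + 27 * (pf (C B)) ^ 2 ≠ 0 := by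
    have := (hdX.map (pf : O[X] →+* FF O)).ne_zero
    simpa only [map_add, map_mul, map_pow, map_ofNat] using this
  obtain ⟨μ, hμ, k0, k1, k2⟩ := par (pf (fX A B)) (pf (C A)) (pf (C B)) hf h2F hdF P Q
    (pf N1) (pf D1) (pf N2) (pf D2) (pf N3) (pf D3) (pf N4) (pf D4) r1 r2 r3 r4
  obtain ⟨s, t, ht, hst⟩ := IsFractionRing.div_surjective (A := O[X]) μ
  have ht0 : t ≠ 0 := nonZeroDivisors.ne_zero ht
  have htF : pf t ≠ 0 := by
    rw [Ne, map_eq_zero_iff _ hinj]
    exact ht0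
  have hμs : pf t * μ = pf s := by
    rw [← hst]
    exact mul_div_cancel₀ (pf s) htF
  have hs0 : s ≠ 0 := by
    rintro rfl
    rw [map_zero] at hμs
    exact mul_ne_zero htF hμ hμs
  have e0 : t * (D3 * D4) = s * q0 (D1 * D2) (N1 * D2 + N2 * D1) (N1 * N2) := by
    apply hinj
    simp only [map_mul, q0, map_sub, map_add, map_pow, map_ofNat] at k0 ⊢
    rw [k0, ← hμs]
    ring
  have e1 : t * (N3 * D4 + N4 * D3) =
      s * q1 (C A) (C B) (D1 * D2) (N1 * D2 + N2 * D1) (N1 * N2) := by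
    apply hinj
    simp only [map_mul, q1, map_sub, map_add, map_pow, map_ofNat] at k1 ⊢
    rw [k1, ← hμs]
    ring
  have e2 : t * (N3 * N4) = s * q2 (C A) (C B) (D1 * D2) (N1 * D2 + N2 * D1) (N1 * N2) := by
    apply hinj
    simp only [map_mul, q2, map_sub, map_add, map_pow, map_ofNat] at k2 ⊢
    rw [k2, ← hμs]
    ring
  have hq := q_unimod (C A) (C B) h2X hdX (D1 * D2) (N1 * D2 + N2 * D1) (N1 * N2)
    (sym_unimod N1 D1 N2 D2 c1 c2)
  obtain ⟨ν, -, f1, f2, cc⟩ := ufd_step _ _ _ N3 D3 N4 D4 s t hq c3 c4 ht0 hs0 e0 e1 e2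
  obtain ⟨u, hu, huν⟩ := Polynomial.isUnit_iff.1 ν.isUnit
  rw [← huν] at f1 f2
  obtain ⟨w1, w2, w3⟩ := q_degree A B N1 D1 N2 D2 m1 m2 g1 g2
  set Q1 := q1 (C A) (C B) (D1 * D2) (N1 * D2 + N2 * D1) (N1 * N2)
  set Q2 := q2 (C A) (C B) (D1 * D2) (N1 * D2 + N2 * D1) (N1 * N2)
  have hu0 : u ≠ 0 := hu.ne_zero
  have hlc : N4.leadingCoeff = u := by
    have := congrArg leadingCoeff f2
    rw [leadingCoeff_mul, m3.leadingCoeff, one_mul, leadingCoeff_mul, leadingCoeff_C,
      w1.leadingCoeff, mul_one] at this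
    exact this
  have hN40 : N4 ≠ 0 := by
    rintro rfl
    rw [leadingCoeff_zero] at hlc
    exact hu0 hlc.symm
  have hCQ2 : (C u * Q2).degree = Q2.degree := by
    rw [degree_mul, degree_C hu0, zero_add]
  have hdeg : D4.degree < N4.degree := by
    by_contra hcon
    rw [not_lt] at hcon
    have a1 : (N3 * N4).degree ≤ (N3 * D4).degree := by
      rw [degree_mul, degree_mul]
      exact add_le_add le_rfl hcon
    have a2 : (N4 * D3).degree < (N3 * D4).degree := by
      refine lt_of_lt_of_le ?_ a1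
      rw [mul_comm N3 N4, degree_mul, degree_mul]
      exact WithBot.add_lt_add_left (by rwa [Ne, degree_eq_bot]) g3
    have a3 : (N3 * D4 + N4 * D3).degree = (N3 * D4).degree :=
      degree_add_eq_left_of_degree_lt a2
    have a4 : (C u * Q1).degree < (N3 * D4).degree := by
      refine lt_of_lt_of_le ?_ a1
      rw [f2, hCQ2, degree_mul, degree_C hu0, zero_add]
      exact w3
    rw [← f1, a3] at a4
    exact lt_irrefl _ a4
  obtain ⟨v, hv⟩ := hu
  have hv1 : (↑v⁻¹ : O) * u = 1 := by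
    rw [← hv]
    exact v.inv_mul
  have hv0 : (↑v⁻¹ : O) ≠ 0 := v⁻¹.ne_zero
  refine ⟨N4.natDegree, ⟨C (↑v⁻¹ : O) * N4, C (↑v⁻¹ : O) * D4, ?_, ?_, ?_, ?_, ?_⟩, ?_⟩
  · rw [Monic, leadingCoeff_mul, leadingCoeff_C, hlc, hv1]
  · rw [natDegree_C_mul hv0]
  · rw [degree_mul, degree_mul, degree_C hv0, zero_add, zero_add]
    exact hdeg
  · rw [isCoprime_mul_unit_left]
    · exact cc
    · exact v⁻¹.isUnit.map C
  · exact htstep_scale _ _ _ _ hv0 r4
  · have b1 : (N3 * N4).natDegree = k + N4.natDegree := by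
      rw [natDegree_mul m3.ne_zero hN40, n3]
    have b2 : (C u * Q2).natDegree = Q2.natDegree := natDegree_C_mul hu0
    rw [← b1, f2, b2, w2, n1, n2]

end Pool.Agent.H.MP_7425ae_nt
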