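import Pool.Agent.H.MP_7425ae_nt.HtIsoB
import Pool.Agent.H.MP_7425ae_nt.HtStep
import Pool.Agent.H.MP_7425ae_nt.HtLat
import Pool.Agent.H.MP_7425ae_nt.HtDerFF

/-! The multiplication by `a + b β` in polynomial form. -/

set_option autoImplicit false

open Polynomial

namespace Pool.Agent.H.MP_7425ae_nt

theorem htmain_pf_inj {O : Type} [CommRing O] [IsDomain O] :
    Function.Injective (pf : O[X] →+* FF O) :=
  IsFractionRing.injective O[X] (FF O)

theorem htmain_disc {O : Type} [CommRing O] (h2 : IsUnit (2 : O)) (h19 : IsUnit (19 : O)) :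
    IsUnit (4 * (-608 : O) ^ 3 + 27 * (5776 : O) ^ 2) := by
  have h : 4 * (-608 : O) ^ 3 + 27 * (5776 : O) ^ 2 = 2 ^ 8 * 19 ^ 3 := by norm_num
  rw [h]
  exact (h2.pow 8).mul (h19.pow 3)

/-- the norm form is positive -/
theorem htmain_norm {a b : ℤ} (h : (a ^ 2 + a * b + 5 * b ^ 2).natAbs = 0) : a = 0 ∧ b = 0 := by
  have h1 : a ^ 2 + a * b + 5 * b ^ 2 = 0 := Int.natAbs_eq_zero.mp h
  have hb : b = 0 := by
    have h2 : b ^ 2 = 0 := by nlinarith [sq_nonneg (2 * a + b), sq_nonneg b]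
    exact pow_eq_zero_iff (by norm_num) |>.mp h2
  subst hb
  refine ⟨?_, rfl⟩
  have h2 : a ^ 2 = 0 := by linarith
  exact pow_eq_zero_iff (by norm_num) |>.mp h2

/-- the final computation in the function field -/
theorem htmain_field {K : Type} [Field K] {δ : K → K} (hδ : IsDer δ) (F A B x y n d g : K)
    (hF : F ≠ 0) (hy : y ^ 2 = x ^ 3 + A * F ^ 2 * x + B * F ^ 3) (hx : x * d = F * n)
    (hg : F * δ x - x * δ F = g * y) :
    F * (δ n * d - n * δ d) ^ 2 = g ^ 2 * (d * (n ^ 3 + A * n * d ^ 2 + B * d ^ 3)) := by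
  have h1 : δ (x * d) = δ (F * n) := by rw [hx]
  rw [hδ.mul, hδ.mul] at h1
  have h2 : F ^ 2 * (δ n * d - n * δ d) = g * y * d ^ 2 := by
    linear_combination (-F * d) * h1 + d ^ 2 * hg + (F * δ d + d * δ F) * hx
  have h3 : F ^ 3 * (F * (δ n * d - n * δ d) ^ 2) =
      F ^ 3 * (g ^ 2 * (d * (n ^ 3 + A * n * d ^ 2 + B * d ^ 3))) := by
    have h4 : F ^ 3 * (F * (δ n * d - n * δ d) ^ 2) = (F ^ 2 * (δ n * d - n * δ d)) ^ 2 := by ring
    have h5 : y ^ 2 * d ^ 4 = F ^ 3 * (d * (n ^ 3 + A * n * d ^ 2 + B * d ^ 3)) := by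
      rw [hy]
      linear_combination (d * ((x * d) ^ 2 + (x * d) * (F * n) + (F * n) ^ 2) +
        A * F ^ 2 * d ^ 3) * hx
    rw [h4, h2]
    linear_combination g ^ 2 * h5
  exact mul_left_cancel₀ (pow_ne_zero 3 hF) h3

/-- the endomorphism `a + b β` of `y^2 = x^3 - 608 x + 5776` -/
theorem cm_poly {O : Type} [CommRing O] [IsDomain O] [UniqueFactorizationMonoid O]
    (h2 : IsUnit (2 : O)) (h19 : IsUnit (19 : O)) (β : O) (hβ : β ^ 2 = β - 5) (a b : ℤ)
    (hab : ¬(a = 0 ∧ b = 0)) :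
    ∃ N D : O[X], N.Monic ∧ N.natDegree = (a ^ 2 + a * b + 5 * b ^ 2).natAbs ∧
      D.degree < N.degree ∧ IsCoprime N D ∧
      (X ^ 3 + C (-608) * X + C 5776) * (derivative N * D - N * derivative D) ^ 2
        = C (((a : O) + (b : O) * β) ^ 2) *
          (D * (N ^ 3 + C (-608) * N * D ^ 2 + C 5776 * D ^ 3)) := by
  have hd := htmain_disc h2 h19
  have h12 : P1 h2 - Pb hβ h2 h19 = Pb (conj_eq hβ) h2 h19 := by
    rw [← Pb_add hβ h2 h19]
    abel
  have hlat : ∀ a b : ℤ, Good (-608 : O) 5776 (a • P1 h2 + b • Pb hβ h2 h19)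
      (a ^ 2 + a * b + 5 * b ^ 2).natAbs :=
    lattice_heights (fun P h => Good (-608 : O) 5776 P h) (Good.zero _ _)
      (fun P h hP => hP.neg) (fun P Q m n k hP hQ hPQ => Good.add h2 hd hP hQ hPQ)
      (P1 h2) (Pb hβ h2 h19) (good_P1 h2) (good_Pb hβ h2 h19)
      (by rw [h12]; exact good_Pb (conj_eq hβ) h2 h19)
  have hinj : ∀ a b : ℤ, a • P1 h2 + b • Pb hβ h2 h19 = 0 → a = 0 ∧ b = 0 := by
    intro a b h
    have h1 := hlat a b
    rw [h] at h1
    exact htmain_norm (h1.unique (Good.zero _ _))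
  have haff : ∀ P : PtE (-608 : O) 5776, (∃ a b : ℤ, ¬(a = 0 ∧ b = 0) ∧
      P = a • P1 h2 + b • Pb hβ h2 h19) →
      ∃ (x y : FF O) (e : _), P = WeierstrassCurve.Affine.Point.some x y e ∧ y ≠ 0 := by
    rintro P ⟨a, b, hab, rfl⟩
    refine (hlat a b).affine ?_
    rcases Nat.eq_zero_or_pos (a ^ 2 + a * b + 5 * b ^ 2).natAbs with h | h
    · exact absurd (htmain_norm h) hab
    · exact h
  obtain ⟨δ, hδ, hδp⟩ := exists_der O
  have hδC : ∀ c : O, δ (pf (C c)) = 0 := by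
    intro c
    rw [hδp, derivative_C, map_zero]
  have hF : pf (fX (-608 : O) 5776) ≠ 0 := by
    rw [Ne, map_eq_zero_iff pf htmain_pf_inj]
    exact fX_ne_zero _ _
  have h2F : (2 : FF O) ≠ 0 := by
    have h1 : (2 : O[X]) ≠ 0 := by
      have h3 : (2 : O[X]) = C (2 : O) := by rw [map_ofNat]
      rw [h3, Ne, C_eq_zero]
      exact h2.ne_zero
    have h3 : (2 : FF O) = pf (2 : O[X]) := by rw [map_ofNat]
    rw [h3, Ne, map_eq_zero_iff pf htmain_pf_inj]
    exact h1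
  have hgam : Gam δ (pf (fX (-608 : O) 5776)) (a • P1 h2 + b • Pb hβ h2 h19)
      ((a : FF O) + (b : FF O) * pf (C β)) := by
    refine lattice_gam (pf (C β)) (fun (P : PtE (-608 : O) 5776) g =>
      Gam δ (pf (fX (-608 : O) 5776)) P g) (P1 h2) (Pb hβ h2 h19) hinj
      (fun P g h => h.neg) ?_ ?_ (gam_P1 h2 hδ hδp) (gam_Pb hβ h2 h19 hδ hδp) a b hab
    · intro P Q g g' hP hQ hPQ hPQ' hex
      exact Gam.add hδ (pf (fX (-608 : O) 5776)) (pf (C (-608))) (pf (C 5776)) hF h2F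
        (hδC _) (hδC _) hP hQ hPQ hPQ' (haff _ hex)
    · intro P g hP hex
      exact Gam.dbl hδ (pf (fX (-608 : O) 5776)) (pf (C (-608))) (pf (C 5776)) hF h2F
        (hδC _) (hδC _) hP (haff _ hex)
  obtain ⟨N, D, hN, hNd, hDN, hco, hrep⟩ := hlat a b
  obtain ⟨x, y, e, hP, hy, hg⟩ := hgam
  rw [hP] at hrep
  obtain ⟨hD0, hx⟩ : pf D ≠ 0 ∧ x * pf D = pf (fX (-608 : O) 5776) * pf N := hrep
  have heq := (WeierstrassCurve.Affine.equation_iff _ _).mp e.1
  simp only [Esw] at heq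
  refine ⟨N, D, hN, hNd, hDN, hco, ?_⟩
  apply htmain_pf_inj
  have key := htmain_field hδ (pf (fX (-608 : O) 5776)) (pf (C (-608))) (pf (C 5776)) x y
    (pf N) (pf D) ((a : FF O) + (b : FF O) * pf (C β)) hF (by linear_combination heq) hx hg
  rw [hδp, hδp] at key
  have hgC : (a : FF O) + (b : FF O) * pf (C β) = pf (C ((a : O) + (b : O) * β)) := by
    rw [C_add, C_mul, map_add, map_mul]
    simp
  rw [hgC] at key
  rw [C_pow]
  simp only [map_mul, map_pow, map_sub, map_add] at key ⊢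
  unfold fX at key
  simp only [map_mul, map_pow, map_sub, map_add] at key
  exact key

end Pool.Agent.H.MP_7425ae_nt
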