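import Pool.Agent.H.MP_7425ae_nt.FrobA
import Pool.Agent.H.MP_7425ae_nt.HtMain
import Pool.Agent.H.MP_7425ae_nt.HCoef

/-! The lift of the Frobenius endomorphism modulo `p^3`. -/

set_option autoImplicit false

open Polynomial

namespace Pool.Agent.H.MP_7425ae_nt

theorem frobb_unit_int (p : ℕ) [Fact p.Prime] (z : ℤ) (hz : ¬ (p : ℤ) ∣ z) :
    IsUnit (z : ℤ_[p]) := by
  rw [PadicInt.isUnit_iff]
  rcases lt_or_eq_of_le (PadicInt.norm_le_one (z : ℤ_[p])) with h | h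
  · exact absurd ((PadicInt.norm_int_lt_one_iff_dvd z).mp h) hz
  · exact h

theorem frobb_ndvd (p : ℕ) [Fact p.Prime] (hp : 5 ≤ p) (h19 : p ≠ 19) (x y : ℤ)
    (hxy : 4 * (p : ℤ) = x ^ 2 + 19 * y ^ 2) : ¬ (p : ℤ) ∣ x ∧ ¬ (p : ℤ) ∣ y := by
  have hpr : Prime (p : ℤ) := Nat.prime_iff_prime_int.mp Fact.out
  have hboth : ¬ ((p : ℤ) ∣ x ∧ (p : ℤ) ∣ y) := by
    rintro ⟨⟨a, rfl⟩, ⟨b, rfl⟩⟩
    have hp0 : (p : ℤ) ≠ 0 := hpr.ne_zero
    have h1 : (4 : ℤ) = p * (a ^ 2 + 19 * b ^ 2) := by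
      apply mul_left_cancel₀ hp0
      linear_combination hxy
    have h2 : (p : ℤ) ∣ 4 := ⟨_, h1⟩
    have h3 := Int.le_of_dvd (by norm_num) h2
    omega
  have hx : (p : ℤ) ∣ x ↔ (p : ℤ) ∣ y := by
    constructor
    · intro h
      have h1 : (p : ℤ) ∣ 19 * y ^ 2 := by
        have : 19 * y ^ 2 = 4 * (p : ℤ) - x * x := by linear_combination -hxy
        rw [this]
        exact dvd_sub (Dvd.intro_left _ rfl) (h.mul_right x)
      rcases hpr.dvd_or_dvd h1 with h2 | h2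
      · exfalso
        have h3 : p ∣ 19 := by exact_mod_cast h2
        rcases (Nat.dvd_prime (by norm_num)).mp h3 with h4 | h4
        · omega
        · exact h19 h4
      · exact hpr.dvd_of_dvd_pow h2
    · intro h
      have h1 : (p : ℤ) ∣ x ^ 2 := by
        have : x ^ 2 = 4 * (p : ℤ) - y * (19 * y) := by linear_combination -hxy
        rw [this]
        exact dvd_sub (Dvd.intro_left _ rfl) (h.mul_right _)
      exact hpr.dvd_of_dvd_pow h1
  constructor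
  · intro h; exact hboth ⟨h, hx.mp h⟩
  · intro h; exact hboth ⟨hx.mpr h, h⟩

theorem frobb_beta (p : ℕ) [Fact p.Prime] (hp : 5 ≤ p) (h19 : p ≠ 19) (x y : ℤ)
    (hxy : 4 * (p : ℤ) = x ^ 2 + 19 * y ^ 2) : ∃ β : ℤ_[p], β ^ 2 = β - 5 := by
  obtain ⟨hx, hy⟩ := frobb_ndvd p hp h19 x y hxy
  obtain ⟨s, hs⟩ : ∃ s, x + y = 2 * s := by
    have h1 : (x + y) ^ 2 % 2 = 0 := by
      have : (x + y) ^ 2 = 2 * (2 * (p : ℤ) + x * y - 9 * y ^ 2) := by linear_combination -hxy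
      rw [this]
      omega
    have h2 : Even ((x + y) ^ 2) := Int.even_iff.mpr h1
    have h3 : Even (x + y) := (Int.even_pow.mp h2).1
    obtain ⟨s, hs⟩ := h3
    exact ⟨s, by omega⟩
  obtain ⟨v, hv⟩ := frobb_unit_int p y hy
  have hxu := frobb_unit_int p x hx
  -- a = s / y
  set w : ℤ_[p] := ((v⁻¹ : ℤ_[p]ˣ) : ℤ_[p]) with hw
  have hwy : w * (y : ℤ_[p]) = 1 := by
    rw [← hv, hw]
    exact Units.inv_mul v
  have hsc : (x : ℤ_[p]) + y = 2 * s := by exact_mod_cast congrArg (Int.cast : ℤ → ℤ_[p]) hs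
  have hxyc : 4 * (p : ℤ_[p]) = (x : ℤ_[p]) ^ 2 + 19 * (y : ℤ_[p]) ^ 2 := by
    exact_mod_cast congrArg (Int.cast : ℤ → ℤ_[p]) hxy
  have h2u : IsUnit ((2 : ℤ) : ℤ_[p]) := frobb_unit_int p 2 (by
    intro h
    have := Int.le_of_dvd (by norm_num) h
    omega)
  have h4u : IsUnit (4 : ℤ_[p]) := by
    have : (4 : ℤ_[p]) = ((2 : ℤ) : ℤ_[p]) ^ 2 := by push_cast; norm_num
    rw [this]
    exact h2u.pow 2
  have heval : (s * w) ^ 2 - s * w + 5 = (p : ℤ_[p]) * w ^ 2 := by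
    apply h4u.mul_left_cancel
    linear_combination (-(2 * (s : ℤ_[p]) + x + y) * w ^ 2 + 2 * w * (w * y)) * hsc
      - w ^ 2 * hxyc + (4 * s * w - 20 - 20 * (w * y)) * hwy
  have hder : 2 * (s * w) - 1 = (x : ℤ_[p]) * w := by
    linear_combination (-w) * hsc + hwy
  have hwu : IsUnit w := by
    rw [hw]; exact Units.isUnit _
  set F : ℤ_[p][X] := X ^ 2 - X + C 5 with hF
  have hFe : ∀ z : ℤ_[p], F.aeval z = z ^ 2 - z + 5 := by
    intro z
    rw [hF]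
    simp
  have hFd : ∀ z : ℤ_[p], F.derivative.aeval z = 2 * z - 1 := by
    intro z
    rw [hF]
    simp
    left
    norm_num
  have hnorm : ‖F.aeval (s * w)‖ < ‖F.derivative.aeval (s * w)‖ ^ 2 := by
    rw [hFe, hFd, heval, hder]
    have h1 : ‖(x : ℤ_[p]) * w‖ = 1 := by
      rw [← PadicInt.isUnit_iff]
      exact hxu.mul hwu
    have h2 : ‖w ^ 2‖ = 1 := by
      rw [← PadicInt.isUnit_iff]
      exact hwu.pow 2
    rw [h1, norm_mul, h2, mul_one, PadicInt.norm_p, one_pow]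
    have : (1 : ℝ) < p := by
      have : 1 < p := by omega
      exact_mod_cast this
    exact inv_lt_one_of_one_lt₀ this
  obtain ⟨β, hβ, -⟩ := hensels_lemma hnorm
  refine ⟨β, ?_⟩
  rw [hFe] at hβ
  linear_combination hβ

/-- for `4p = x^2 + 19 y^2` there are `β` and `a + b β = p u` with `u` a unit,
`(a + b β) (a + b (1 - β)) = p`, `2a + b = x`. -/
theorem exists_pi (p : ℕ) [Fact p.Prime] (hp : 5 ≤ p) (h19 : p ≠ 19) (x y : ℤ)
    (hxy : 4 * (p : ℤ) = x ^ 2 + 19 * y ^ 2) :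
    ∃ (β : ℤ_[p]) (a b : ℤ) (u : ℤ_[p]ˣ), β ^ 2 = β - 5 ∧ (a : ℤ_[p]) + (b : ℤ_[p]) * β
      = (p : ℤ_[p]) * u ∧ a ^ 2 + a * b + 5 * b ^ 2 = (p : ℤ) ∧ 2 * a + b = x := by
  obtain ⟨β, hβ⟩ := frobb_beta p hp h19 x y hxy
  obtain ⟨a, ha⟩ : ∃ a, x = 2 * a + y := by
    have h1 : (x + y) ^ 2 % 2 = 0 := by
      have : (x + y) ^ 2 = 2 * (2 * (p : ℤ) + x * y - 9 * y ^ 2) := by linear_combination -hxy
      rw [this]
      omega
    have h2 : Even ((x + y) ^ 2) := Int.even_iff.mpr h1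
    have h3 : Even (x + y) := (Int.even_pow.mp h2).1
    obtain ⟨s, hs⟩ := h3
    exact ⟨s - y, by omega⟩
  have hn : a ^ 2 + a * y + 5 * y ^ 2 = (p : ℤ) := by
    have : 4 * (a ^ 2 + a * y + 5 * y ^ 2) = 4 * (p : ℤ) := by
      rw [hxy, ha]; ring
    omega
  have hnc : (a : ℤ_[p]) ^ 2 + a * y + 5 * (y : ℤ_[p]) ^ 2 = (p : ℤ_[p]) := by
    exact_mod_cast congrArg (Int.cast : ℤ → ℤ_[p]) hn
  have hprod : ((a : ℤ_[p]) + y * β) * ((a : ℤ_[p]) + y * (1 - β)) = (p : ℤ_[p]) := by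
    linear_combination hnc - (y : ℤ_[p]) ^ 2 * hβ
  have hdvd : (p : ℤ_[p]) ∣ ((a : ℤ_[p]) + y * β) * ((a : ℤ_[p]) + y * (1 - β)) := by
    rw [hprod]
  have hp0 : (p : ℤ_[p]) ≠ 0 := PadicInt.prime_p.ne_zero
  rcases PadicInt.prime_p.dvd_or_dvd hdvd with ⟨c, hc⟩ | ⟨c, hc⟩
  · have hcu : c * ((a : ℤ_[p]) + y * (1 - β)) = 1 := by
      apply mul_left_cancel₀ hp0
      rw [← mul_assoc, ← hc, hprod, mul_one]
    refine ⟨β, a, y, Units.mkOfMulEqOne _ _ hcu, hβ, ?_, hn, ha.symm⟩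
    rw [hc]
    rfl
  · have hcu : c * ((a : ℤ_[p]) + y * β) = 1 := by
      apply mul_left_cancel₀ hp0
      rw [← mul_assoc, ← hc, mul_comm, hprod, mul_one]
    refine ⟨1 - β, a, y, Units.mkOfMulEqOne _ _ hcu, ?_, ?_, hn, ha.symm⟩
    · linear_combination hβ
    · rw [hc]
      rfl

theorem frobb_div (p : ℕ) [Fact p.Prime] (P : ℤ_[p][X])
    (h : P.map (PadicInt.toZMod (p := p)) = 0) : ∃ Q : ℤ_[p][X], P = C (p : ℤ_[p]) * Q := by
  have : C (p : ℤ_[p]) ∣ P := by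
    rw [C_dvd_iff_dvd_coeff]
    intro i
    have h1 : PadicInt.toZMod (P.coeff i) = 0 := by
      rw [← coeff_map, h, coeff_zero]
    have h2 : P.coeff i ∈ RingHom.ker (PadicInt.toZMod (p := p)) := h1
    rw [PadicInt.ker_toZMod, PadicInt.maximalIdeal_eq_span_p, Ideal.mem_span_singleton] at h2
    exact h2
  exact this

theorem frobb_sigma (p : ℕ) [Fact p.Prime] (σ : ZMod p) (hσ : σ ^ 2 = 1) :
    ∃ s : ℤ_[p], s ^ 2 = 1 ∧ PadicInt.toZMod s = σ := by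
  have h1 : (σ - 1) * (σ + 1) = 0 := by linear_combination hσ
  rcases mul_eq_zero.mp h1 with h | h
  · exact ⟨1, by norm_num, by rw [map_one]; linear_combination -h⟩
  · exact ⟨-1, by norm_num, by rw [map_neg, map_one]; linear_combination -h⟩

theorem frob_lift (p : ℕ) [Fact p.Prime] (hp : 5 ≤ p) (h19 : p ≠ 19) (x y : ℤ)
    (hxy : 4 * (p : ℤ) = x ^ 2 + 19 * y ^ 2) :
    ∃ (ϖ π' σ : ZMod (p ^ 3)) (Z V Y V1 : (ZMod (p ^ 3))[X]), σ ^ 2 = 1 ∧ ϖ * π' = 1 ∧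
      (p : ZMod (p ^ 3)) * ϖ + π' = (x : ZMod (p ^ 3)) ∧
      Z = X ^ p + C ((p : ℕ) : ZMod (p ^ 3)) * Y ∧
      derivative Z = C ((p : ZMod (p ^ 3)) * ϖ) * V ∧
      V = C σ * FQ (ZMod (p ^ 3)) ^ ((p - 1) / 2) + C ((p : ℕ) : ZMod (p ^ 3)) * V1 ∧
      FQ (ZMod (p ^ 3)) * V ^ 2 = (FQ (ZMod (p ^ 3))).comp Z := by
  obtain ⟨β, a, b, u, hβ, hπ, hn, hab⟩ := exists_pi p hp h19 x y hxy
  have hnc : (a : ℤ_[p]) ^ 2 + a * b + 5 * (b : ℤ_[p]) ^ 2 = (p : ℤ_[p]) := by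
    exact_mod_cast congrArg (Int.cast : ℤ → ℤ_[p]) hn
  have hprod : ((a : ℤ_[p]) + b * β) * ((a : ℤ_[p]) + b * (1 - β)) = (p : ℤ_[p]) := by
    linear_combination hnc - (b : ℤ_[p]) ^ 2 * hβ
  have hp0 : (p : ℤ_[p]) ≠ 0 := PadicInt.prime_p.ne_zero
  have hcu : (u : ℤ_[p]) * ((a : ℤ_[p]) + b * (1 - β)) = 1 := by
    apply mul_left_cancel₀ hp0
    rw [← mul_assoc, ← hπ, hprod, mul_one]
  have h2u : IsUnit (2 : ℤ_[p]) := by
    have := frobb_unit_int p 2 (by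
      intro h
      have := Int.le_of_dvd (by norm_num) h
      omega)
    exact_mod_cast this
  have h19u : IsUnit (19 : ℤ_[p]) := by
    have := frobb_unit_int p 19 (by
      intro h
      have h3 : p ∣ 19 := by exact_mod_cast h
      rcases (Nat.dvd_prime (by norm_num)).mp h3 with h4 | h4
      · omega
      · exact h19 h4)
    exact_mod_cast this
  have hne : ¬ (a = 0 ∧ b = 0) := by
    rintro ⟨rfl, rfl⟩
    norm_num at hn
    omega
  obtain ⟨N, D, hNm, hNd, hDlt, hco, hE⟩ := cm_poly h2u h19u β hβ a b hne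
  have hNd' : N.natDegree = p := by
    rw [hNd, hn]; simp
  set f : ℤ_[p][X] := X ^ 3 + C (-608) * X + C 5776 with hf
  have hfm : f.Monic := by
    rw [hf]
    monicity!
  obtain ⟨W, hW1, hW2⟩ := div_pi p hp _ u hπ f _ _ hfm hE
  set φ : ℤ_[p] →+* ZMod p := PadicInt.toZMod with hφ
  have hφp : φ (p : ℤ_[p]) = 0 := by simp
  have hfmap : ∀ (S : Type) [CommRing S] (g : ℤ_[p] →+* S), f.map g = X ^ 3 + C (-608) * X + C 5776 := by
    intro S _ g
    have e1 : g 608 = 608 := map_ofNat g 608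
    have e2 : g 5776 = 5776 := map_ofNat g 5776
    rw [hf]
    simp [e1, e2]
  have hGmap : ∀ (S : Type) [CommRing S] (g : ℤ_[p] →+* S),
      (D * (N ^ 3 + C (-608) * N * D ^ 2 + C 5776 * D ^ 3)).map g
        = D.map g * ((N.map g) ^ 3 + C (-608) * (N.map g) * (D.map g) ^ 2
          + C 5776 * (D.map g) ^ 3) := by
    intro S _ g
    have e1 : g 608 = 608 := map_ofNat g 608
    have e2 : g 5776 = 5776 := map_ofNat g 5776
    simp [e1, e2]
  obtain ⟨hN0, hD0, σ0, hσ0, hW0⟩ := frob_modp p hp h19 (N.map φ) (D.map φ) (W.map φ) (hNm.map φ)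
    (by rw [hNm.natDegree_map, hNd'])
    (by
      rw [hNm.degree_map]
      exact lt_of_le_of_lt degree_map_le hDlt)
    (hco.map (mapRingHom φ))
    (by
      rw [derivative_map, derivative_map, ← Polynomial.map_mul, ← Polynomial.map_mul,
        ← Polynomial.map_sub, hW1, hπ]
      simp)
    (by
      rw [← hfmap (ZMod p) φ, ← hGmap (ZMod p) φ, ← hW2]
      simp)
  obtain ⟨s, hs2, hsσ⟩ := frobb_sigma p σ0 hσ0
  obtain ⟨N1, hN1⟩ := frobb_div p (N - X ^ p) (by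
    rw [Polynomial.map_sub, ← hφ, hN0]
    simp)
  obtain ⟨D1, hD1⟩ := frobb_div p (D - 1) (by
    rw [Polynomial.map_sub, ← hφ, hD0]
    simp)
  obtain ⟨W1, hW1'⟩ := frobb_div p (W - C s * f ^ ((p - 1) / 2)) (by
    rw [Polynomial.map_sub, ← hφ, hW0, Polynomial.map_mul, Polynomial.map_pow, hfmap (ZMod p) φ,
      map_C, hφ, hsσ, sub_self])
  -- reduction modulo p^3
  set ψ : ℤ_[p] →+* ZMod (p ^ 3) := PadicInt.toZModPow 3 with hψ
  set P : (ZMod (p ^ 3))[X] := C ((p : ℕ) : ZMod (p ^ 3)) with hP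
  have hP3 : P ^ 3 = 0 := by
    rw [hP, ← C_pow]
    have : ((p : ℕ) : ZMod (p ^ 3)) ^ 3 = 0 := by
      have := ZMod.natCast_self (p ^ 3)
      push_cast at this
      exact this
    rw [this, C_0]
  have hψp : (C (p : ℤ_[p])).map ψ = P := by
    rw [map_C, hP]
    simp
  have hN3 : N.map ψ = X ^ p + P * N1.map ψ := by
    have : N = X ^ p + C (p : ℤ_[p]) * N1 := by linear_combination hN1
    conv_lhs => rw [this]
    rw [Polynomial.map_add, Polynomial.map_mul, hψp, Polynomial.map_pow, map_X]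
  have hD3 : D.map ψ = 1 + P * D1.map ψ := by
    have : D = 1 + C (p : ℤ_[p]) * D1 := by linear_combination hD1
    conv_lhs => rw [this]
    rw [Polynomial.map_add, Polynomial.map_mul, hψp, Polynomial.map_one]
  have hfQ : f.map ψ = FQ (ZMod (p ^ 3)) := by
    rw [hfmap (ZMod (p ^ 3)) ψ, FQ, C_neg]
    ring
  have hW3 : W.map ψ = C (ψ s) * FQ (ZMod (p ^ 3)) ^ ((p - 1) / 2) + P * W1.map ψ := by
    have : W = C s * f ^ ((p - 1) / 2) + C (p : ℤ_[p]) * W1 := by linear_combination hW1'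
    conv_lhs => rw [this]
    rw [Polynomial.map_add, Polynomial.map_mul, Polynomial.map_mul, hψp, Polynomial.map_pow,
      map_C, hfQ]
  set n3 := N.map ψ with hn3
  set d3 := D.map ψ with hd3
  set w3 := W.map ψ with hw3
  set n1 := N1.map ψ
  set d1 := D1.map ψ
  set w1 := W1.map ψ
  set E : (ZMod (p ^ 3))[X] := 1 - P * d1 + P ^ 2 * d1 ^ 2 with hEdef
  have hDE : d3 * E = 1 := by
    rw [hD3, hEdef]
    linear_combination d1 ^ 3 * hP3
  have hder3 : derivative n3 * d3 - n3 * derivative d3 = C (ψ ((a : ℤ_[p]) + b * β)) * w3 := by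
    rw [hn3, hd3, hw3, derivative_map, derivative_map, ← Polynomial.map_mul, ← Polynomial.map_mul,
      ← Polynomial.map_sub, hW1, Polynomial.map_mul, map_C]
  have hG3 : FQ (ZMod (p ^ 3)) * w3 ^ 2
      = d3 * (n3 ^ 3 + C (-608) * n3 * d3 ^ 2 + C 5776 * d3 ^ 3) := by
    rw [← hfQ, hw3, ← Polynomial.map_pow, ← Polynomial.map_mul, hW2, hGmap]
  have hψπ : ψ ((a : ℤ_[p]) + b * β) = (p : ZMod (p ^ 3)) * ψ (u : ℤ_[p]) := by
    rw [hπ, map_mul]
    simp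
  have hZd : n3 * E * d3 = n3 := by linear_combination n3 * hDE
  have hZder : derivative (n3 * E) * d3 + (n3 * E) * derivative d3 = derivative n3 := by
    rw [← derivative_mul, hZd]
  refine ⟨ψ (u : ℤ_[p]), ψ ((a : ℤ_[p]) + b * (1 - β)), ψ s, n3 * E, w3 * E ^ 2,
    X ^ p * (-d1 + P * d1 ^ 2) + n1 * E,
    C (ψ s) * FQ (ZMod (p ^ 3)) ^ ((p - 1) / 2) * ((-d1 + P * d1 ^ 2) * (E + 1)) + w1 * E ^ 2,
    ?_, ?_, ?_, ?_, ?_, ?_, ?_⟩
  · rw [← map_pow, hs2, map_one]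
  · rw [← map_mul, hcu, map_one]
  · rw [← hψπ, ← map_add]
    have : (a : ℤ_[p]) + b * β + (a + b * (1 - β)) = ((x : ℤ) : ℤ_[p]) := by
      rw [← hab]; push_cast; ring
    rw [this, map_intCast]
  · rw [hN3]
    simp only [hEdef]
    ring
  · rw [← hψπ]
    have h1 : derivative (n3 * E) * d3 ^ 2 = C (ψ ((a : ℤ_[p]) + b * β)) * w3 := by
      linear_combination hder3 + d3 * hZder - derivative d3 * hZd
    have h2 : derivative (n3 * E) = derivative (n3 * E) * d3 ^ 2 * E ^ 2 := by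
      linear_combination (-derivative (n3 * E)) * (d3 * E + 1) * hDE
    rw [h2, h1]
    ring
  · have hE1 : E - 1 = P * (-d1 + P * d1 ^ 2) := by rw [hEdef]; ring
    rw [hW3]
    linear_combination (C (ψ s) * FQ (ZMod (p ^ 3)) ^ ((p - 1) / 2)) * (E + 1) * hE1
  · have hcomp : (FQ (ZMod (p ^ 3))).comp (n3 * E) = (n3 * E) ^ 3 - C 608 * (n3 * E) + C 5776 := by
      rw [FQ]
      simp only [add_comp, sub_comp, mul_comp, pow_comp, X_comp, C_comp]
    rw [hcomp]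
    have h1 : FQ (ZMod (p ^ 3)) * (w3 * E ^ 2) ^ 2
        = (d3 * (n3 ^ 3 + C (-608) * n3 * d3 ^ 2 + C 5776 * d3 ^ 3)) * E ^ 4 := by
      rw [← hG3]; ring
    rw [h1, C_neg]
    have e1 : d3 * E ^ 4 = E ^ 3 := by linear_combination E ^ 3 * hDE
    have e2 : (d3 * E) ^ 3 = 1 := by rw [hDE, one_pow]
    have e3 : (d3 * E) ^ 4 = 1 := by rw [hDE, one_pow]
    linear_combination n3 ^ 3 * e1 - C 608 * n3 * E * e2 + C 5776 * e3

end Pool.Agent.H.MP_7425ae_nt
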