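import Mathlib

/-! The polynomial `E(T) = (1+T/1)(1+T/2)...(1+T/(p-1))` over `ℤ_[p]` and the function
`G(k) = E(0) E(p) ... E(p(k-1))`, for which `(pk)! = k! p^k ((p-1)!)^k G(k)`. -/

set_option autoImplicit false

open Polynomial Finset

namespace Pool.Agent.H.MP_7425ae_nt

variable (p : ℕ) [Fact p.Prime]

/-- `E(T)` -/
noncomputable def Ep : ℤ_[p][X] :=
  ∏ i ∈ range (p - 1), (1 + C (Ring.inverse ((i + 1 : ℕ) : ℤ_[p])) * X)

/-- `G(k)` -/
noncomputable def Gv (k : ℕ) : ℤ_[p] := ∏ l ∈ range k, (Ep p).eval ((p * l : ℕ) : ℤ_[p])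

theorem Ep_coeff_zero : (Ep p).coeff 0 = 1 := by
  rw [coeff_zero_eq_eval_zero, Ep, eval_prod]
  simp

theorem Ep_natDegree : (Ep p).natDegree ≤ p - 1 := by
  refine le_trans (natDegree_prod_le _ _) ?_
  refine le_trans (Finset.sum_le_card_nsmul _ _ 1 ?_) ?_
  · intro i _
    refine le_trans (natDegree_add_le _ _) ?_
    rw [natDegree_one]
    refine max_le (by norm_num) ?_
    exact le_trans (natDegree_C_mul_le _ _) natDegree_X_le
  · simp

theorem gama_isUnit (i : ℕ) (h1 : 1 ≤ i) (h2 : i < p) : IsUnit ((i : ℕ) : ℤ_[p]) := by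
  rw [PadicInt.isUnit_iff, PadicInt.norm_natCast_eq_one_iff]
  exact (Nat.Prime.coprime_iff_not_dvd Fact.out).2 (Nat.not_dvd_of_pos_of_lt h1 h2)

/-- `((p-1)!) E(T) = (T+1)(T+2)...(T+p-1)` -/
theorem Ep_fact : C (((p - 1).factorial : ℕ) : ℤ_[p]) * Ep p
    = ∏ i ∈ range (p - 1), (X + C ((i + 1 : ℕ) : ℤ_[p])) := by
  rw [← Finset.prod_range_add_one_eq_factorial, Nat.cast_prod, map_prod, Ep,
    ← Finset.prod_mul_distrib]
  refine Finset.prod_congr rfl fun i hi => ?_
  have hi2 : i < p - 1 := Finset.mem_range.1 hi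
  have hu := gama_isUnit p (i + 1) (by omega) (by omega)
  rw [mul_add, mul_one, ← mul_assoc, ← C_mul, Ring.mul_inverse_cancel _ hu, C_1, one_mul,
    add_comm]

theorem Gv_zero : Gv p 0 = 1 := by
  simp [Gv]

theorem Gv_succ (k : ℕ) : Gv p (k + 1) = Gv p k * (Ep p).eval ((p * k : ℕ) : ℤ_[p]) := by
  rw [Gv, Finset.prod_range_succ, Gv]

theorem gama_fact (n m : ℕ) : (n + m).factorial = n.factorial * ∏ i ∈ range m, (n + (i + 1)) := by
  induction m with
  | zero => simp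
  | succ m ih =>
    rw [Finset.prod_range_succ, ← mul_assoc, ← ih, ← add_assoc, Nat.factorial_succ, mul_comm]

theorem Gv_fact (k : ℕ) : (((p * k).factorial : ℕ) : ℤ_[p])
    = ((k.factorial : ℕ) : ℤ_[p]) * (p : ℤ_[p]) ^ k
      * ((((p - 1).factorial : ℕ) : ℤ_[p]) ^ k * Gv p k) := by
  induction k with
  | zero => simp [Gv]
  | succ k ih =>
    have hp : 0 < p := (Fact.out : p.Prime).pos
    have h1 : (p * (k + 1)).factorial
        = (p * k).factorial * ((∏ i ∈ range (p - 1), (p * k + (i + 1))) * (p * (k + 1))) := by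
      have e : p * (k + 1) = p * k + ((p - 1) + 1) := by
        rw [Nat.mul_succ]
        omega
      rw [e, gama_fact, Finset.prod_range_succ]
    have h2 : (((p - 1).factorial : ℕ) : ℤ_[p]) * (Ep p).eval ((p * k : ℕ) : ℤ_[p])
        = ((∏ i ∈ range (p - 1), (p * k + (i + 1)) : ℕ) : ℤ_[p]) := by
      have h3 := congrArg (fun P => P.eval ((p * k : ℕ) : ℤ_[p])) (Ep_fact p)
      simp only [eval_mul, eval_C, eval_prod, eval_add, eval_X] at h3
      rw [h3]
      push_cast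
      rfl
    rw [h1, Nat.cast_mul, Nat.cast_mul, ih, ← h2, Gv_succ, Nat.factorial_succ]
    push_cast
    ring

end Pool.Agent.H.MP_7425ae_nt
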