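import Pool.Agent.H.MP_7425ae_nt.GamB

/-! The falling factorial coefficients of `G`: they tend to zero at the rate `p^{j/2}` and are
divisible by `p^3` for `j >= 1`. -/

set_option autoImplicit false

open Polynomial Finset

namespace Pool.Agent.H.MP_7425ae_nt

/-- The weight condition. -/
def gammahler_Wt (p : ℕ) [Fact p.Prime] (m : ℕ) (P : ℤ_[p][X]) : Prop :=
  ∀ n : ℕ, (p : ℤ_[p]) ^ ((m - n + (p - 1)) / p) ∣ P.coeff n

theorem gammahler_mono {p : ℕ} [Fact p.Prime] {m m' : ℕ} {P : ℤ_[p][X]} (h : m' ≤ m)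
    (hP : gammahler_Wt p m P) : gammahler_Wt p m' P := by
  intro n
  refine dvd_trans (pow_dvd_pow _ ?_) (hP n)
  apply Nat.div_le_div_right
  omega

theorem gammahler_add {p : ℕ} [Fact p.Prime] {m : ℕ} {P Q : ℤ_[p][X]}
    (hP : gammahler_Wt p m P) (hQ : gammahler_Wt p m Q) : gammahler_Wt p m (P + Q) := by
  intro n
  rw [coeff_add]
  exact dvd_add (hP n) (hQ n)

theorem gammahler_zero {p : ℕ} [Fact p.Prime] (m : ℕ) : gammahler_Wt p m 0 := by
  intro n
  simp

theorem gammahler_sum {p : ℕ} [Fact p.Prime] {m : ℕ} {ι : Type*} (s : Finset ι)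
    (f : ι → ℤ_[p][X]) (h : ∀ i ∈ s, gammahler_Wt p m (f i)) :
    gammahler_Wt p m (∑ i ∈ s, f i) := by
  classical
  induction s using Finset.induction_on with
  | empty => simpa using gammahler_zero m
  | insert a s ha ih =>
    rw [Finset.sum_insert ha]
    exact gammahler_add (h a (Finset.mem_insert_self _ _))
      (ih fun i hi => h i (Finset.mem_insert_of_mem hi))

theorem gammahler_arith (p : ℕ) (hp : 0 < p) (m m' a b : ℕ) :
    (m + m' - (a + b) + (p - 1)) / p ≤ (m - a + (p - 1)) / p + (m' - b + (p - 1)) / p := by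
  have h1 : ∀ x : ℕ, x ≤ p * ((x + (p - 1)) / p) := by
    intro x
    have := Nat.div_add_mod (x + (p - 1)) p
    have h2 := Nat.mod_lt (x + (p - 1)) hp
    omega
  have hA := h1 (m - a)
  have hB := h1 (m' - b)
  have : m + m' - (a + b) ≤ p * ((m - a + (p - 1)) / p + (m' - b + (p - 1)) / p) := by
    rw [Nat.mul_add]
    omega
  rw [← Nat.lt_succ_iff, Nat.div_lt_iff_lt_mul hp, Nat.succ_mul,
    Nat.mul_comm _ p]
  omega

theorem gammahler_mul {p : ℕ} [hp : Fact p.Prime] {m m' : ℕ} {P Q : ℤ_[p][X]}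
    (hP : gammahler_Wt p m P) (hQ : gammahler_Wt p m' Q) : gammahler_Wt p (m + m') (P * Q) := by
  intro n
  rw [coeff_mul]
  refine Finset.dvd_sum fun x hx => ?_
  rw [HasAntidiagonal.mem_antidiagonal] at hx
  rw [← hx]
  refine dvd_trans ?_ (mul_dvd_mul (hP x.1) (hQ x.2))
  rw [← pow_add]
  exact pow_dvd_pow _ (gammahler_arith p hp.out.pos m m' x.1 x.2)

theorem gammahler_C {p : ℕ} [hp : Fact p.Prime] {m : ℕ} {a : ℤ_[p]}
    (h : (p : ℤ_[p]) ^ ((m + (p - 1)) / p) ∣ a) : gammahler_Wt p m (C a) := by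
  intro n
  rw [coeff_C]
  split_ifs with hn
  · subst hn
    simpa using h
  · exact dvd_zero _

theorem gammahler_one {p : ℕ} [hp : Fact p.Prime] : gammahler_Wt p 0 (1 : ℤ_[p][X]) := by
  have h1 : (0 + (p - 1)) / p = 0 := Nat.div_eq_of_lt (by have := hp.out.pos; omega)
  have : gammahler_Wt p 0 (C (1 : ℤ_[p])) := gammahler_C (by rw [h1]; simp)
  simpa using this

theorem gammahler_X {p : ℕ} [hp : Fact p.Prime] : gammahler_Wt p 1 (X : ℤ_[p][X]) := by
  intro n
  rw [coeff_X]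
  split_ifs with hn
  · subst hn
    have h1 : (1 - 1 + (p - 1)) / p = 0 := Nat.div_eq_of_lt (by have := hp.out.pos; omega)
    rw [h1]
    simp
  · exact dvd_zero _

theorem gammahler_Cp {p : ℕ} [hp : Fact p.Prime] : gammahler_Wt p p (C (p : ℤ_[p])) := by
  apply gammahler_C
  have h1 : (p + (p - 1)) / p = 1 := by
    have := hp.out.pos
    rw [Nat.div_eq_iff this]
    omega
  rw [h1]
  simp

theorem gammahler_pow {p : ℕ} [hp : Fact p.Prime] {m : ℕ} {P : ℤ_[p][X]}
    (hP : gammahler_Wt p m P) (n : ℕ) : gammahler_Wt p (n * m) (P ^ n) := by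
  induction n with
  | zero => simpa using gammahler_one
  | succ n ih =>
    rw [pow_succ, Nat.succ_mul]
    exact gammahler_mul ih hP

theorem gammahler_XC {p : ℕ} [hp : Fact p.Prime] :
    gammahler_Wt p 1 (X + C (p : ℤ_[p])) :=
  gammahler_add gammahler_X (gammahler_mono hp.out.one_lt.le gammahler_Cp)

theorem gammahler_diffpow {p : ℕ} [hp : Fact p.Prime] (n : ℕ) :
    gammahler_Wt p (n + (p - 1)) ((X + C (p : ℤ_[p])) ^ n - X ^ n) := by
  induction n with
  | zero => simpa using gammahler_zero _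
  | succ n ih =>
    have e : (X + C (p : ℤ_[p])) ^ (n + 1) - X ^ (n + 1)
        = (X + C (p : ℤ_[p])) * ((X + C (p : ℤ_[p])) ^ n - X ^ n) + C (p : ℤ_[p]) * X ^ n := by
      ring
    rw [e]
    apply gammahler_add
    · refine gammahler_mono ?_ (gammahler_mul gammahler_XC ih)
      omega
    · refine gammahler_mono ?_ (gammahler_mul gammahler_Cp (gammahler_pow gammahler_X n))
      have := hp.out.pos
      omega

theorem gammahler_comp_aux {p : ℕ} [hp : Fact p.Prime] {m : ℕ} {P : ℤ_[p][X]} (n : ℕ)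
    (hP : gammahler_Wt p m P) : gammahler_Wt p (m - n) (C (P.coeff n)) :=
  gammahler_C (hP n)

theorem gammahler_comp {p : ℕ} [hp : Fact p.Prime] {m : ℕ} {P : ℤ_[p][X]}
    (hP : gammahler_Wt p m P) : gammahler_Wt p m (P.comp (X + C (p : ℤ_[p]))) := by
  have e : P.comp (X + C (p : ℤ_[p]))
      = ∑ n ∈ range (P.natDegree + 1), C (P.coeff n) * (X + C (p : ℤ_[p])) ^ n := by
    rw [comp, eval₂_eq_sum_range]
  rw [e]
  refine gammahler_sum _ _ fun n _ => ?_
  refine gammahler_mono ?_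
    (gammahler_mul (gammahler_comp_aux n hP) (gammahler_pow gammahler_XC n))
  omega

theorem gammahler_comp_sub {p : ℕ} [hp : Fact p.Prime] {m : ℕ} {P : ℤ_[p][X]}
    (hP : gammahler_Wt p m P) :
    gammahler_Wt p (m + (p - 1)) (P.comp (X + C (p : ℤ_[p])) - P) := by
  have e : P.comp (X + C (p : ℤ_[p])) - P
      = ∑ n ∈ range (P.natDegree + 1),
        C (P.coeff n) * ((X + C (p : ℤ_[p])) ^ n - X ^ n) := by
    have h1 : P.comp (X + C (p : ℤ_[p]))
        = ∑ n ∈ range (P.natDegree + 1), C (P.coeff n) * (X + C (p : ℤ_[p])) ^ n := by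
      rw [comp, eval₂_eq_sum_range]
    have h2 : P = ∑ n ∈ range (P.natDegree + 1), C (P.coeff n) * X ^ n :=
      P.as_sum_range_C_mul_X_pow
    calc P.comp (X + C (p : ℤ_[p])) - P
        = ∑ n ∈ range (P.natDegree + 1), C (P.coeff n) * (X + C (p : ℤ_[p])) ^ n
          - ∑ n ∈ range (P.natDegree + 1), C (P.coeff n) * X ^ n := by rw [h1, ← h2]
      _ = ∑ n ∈ range (P.natDegree + 1),
        C (P.coeff n) * ((X + C (p : ℤ_[p])) ^ n - X ^ n) := by
        rw [← Finset.sum_sub_distrib]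
        exact Finset.sum_congr rfl fun n _ => by ring
  rw [e]
  refine gammahler_sum _ _ fun n _ => ?_
  refine gammahler_mono ?_
    (gammahler_mul (gammahler_comp_aux n hP) (gammahler_diffpow n))
  omega

/-- The polynomials `P_i`. -/
noncomputable def gammahler_P (p : ℕ) [Fact p.Prime] : ℕ → ℤ_[p][X]
  | 0 => 1
  | i + 1 => Ep p * (gammahler_P p i).comp (X + C (p : ℤ_[p])) - gammahler_P p i

theorem gammahler_E1 {p : ℕ} [hp : Fact p.Prime] :
    gammahler_Wt p (p - 1) (Ep p - 1) := by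
  have hpos := hp.out.pos
  intro n
  rcases Nat.eq_zero_or_pos n with hn | hn
  · subst hn
    rw [coeff_sub, Ep_coeff_zero]
    simp
  · have h1 : (1 : ℤ_[p][X]).coeff n = 0 := by
      rw [coeff_one, if_neg (by omega)]
    rw [coeff_sub, h1, sub_zero]
    by_cases h2 : n < p - 1
    · refine dvd_trans ?_ (Ep_coeff_dvd p n hn h2)
      have : (p - 1 - n + (p - 1)) / p ≤ 1 := by
        rw [← Nat.lt_succ_iff, Nat.div_lt_iff_lt_mul hpos]
        omega
      calc (p : ℤ_[p]) ^ ((p - 1 - n + (p - 1)) / p) ∣ (p : ℤ_[p]) ^ 1 := pow_dvd_pow _ this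
        _ = p := pow_one _
    · have : (p - 1 - n + (p - 1)) / p = 0 := Nat.div_eq_of_lt (by omega)
      rw [this]
      simp

theorem gammahler_PWt {p : ℕ} [hp : Fact p.Prime] (i : ℕ) :
    gammahler_Wt p (i * (p - 1)) (gammahler_P p i) := by
  induction i with
  | zero => simpa [gammahler_P] using gammahler_one
  | succ i ih =>
    have e : gammahler_P p (i + 1) = (Ep p - 1) * (gammahler_P p i).comp (X + C (p : ℤ_[p]))
        + ((gammahler_P p i).comp (X + C (p : ℤ_[p])) - gammahler_P p i) := by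
      rw [gammahler_P]
      ring
    rw [e]
    apply gammahler_add
    · refine gammahler_mono ?_ (gammahler_mul gammahler_E1 (gammahler_comp ih))
      rw [Nat.succ_mul]
      omega
    · refine gammahler_mono ?_ (gammahler_comp_sub ih)
      rw [Nat.succ_mul]

theorem gammahler_diff (p : ℕ) [hp : Fact p.Prime] (i : ℕ) (l : ℕ) :
    ((fwdDiff (1 : ℕ))^[i] (Gv p)) l = Gv p l * (gammahler_P p i).eval ((p * l : ℕ) : ℤ_[p]) := by
  induction i generalizing l with
  | zero => simp [gammahler_P]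
  | succ i ih =>
    rw [Function.iterate_succ', Function.comp_apply, fwdDiff, ih, ih, Gv_succ, gammahler_P,
      eval_sub, eval_mul, eval_comp]
    simp only [eval_add, eval_X, eval_C]
    have : ((p * (l + 1) : ℕ) : ℤ_[p]) = ((p * l : ℕ) : ℤ_[p]) + (p : ℤ_[p]) := by
      push_cast
      ring
    rw [this]
    ring

theorem gammahler_newton (p : ℕ) [hp : Fact p.Prime] (k : ℕ) :
    Gv p k = ∑ j ∈ range (k + 1), (k.choose j : ℤ_[p]) * (gammahler_P p j).eval 0 := by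
  have h := shift_eq_sum_fwdDiff_iter (1 : ℕ) (Gv p) k 0
  simp only [smul_eq_mul, mul_one, zero_add] at h
  rw [h]
  refine Finset.sum_congr rfl fun j _ => ?_
  rw [gammahler_diff, Gv_zero]
  simp

theorem gammahler_div (p : ℕ) [hp : Fact p.Prime] (i N : ℕ) (x : ℤ_[p])
    (h : (p : ℤ_[p]) ^ (N + padicValNat p i.factorial) ∣ x) :
    ∃ a : ℤ_[p], x = a * ((i.factorial : ℕ) : ℤ_[p]) ∧ (p : ℤ_[p]) ^ N ∣ a := by
  obtain ⟨y, hy⟩ := h
  obtain ⟨m, hm⟩ : p ^ padicValNat p i.factorial ∣ i.factorial := pow_padicValNat_dvd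
  have hcop : ¬ p ∣ m := by
    intro hd
    obtain ⟨t, ht⟩ := hd
    have : p ^ (padicValNat p i.factorial + 1) ∣ i.factorial := by
      refine ⟨t, ?_⟩
      rw [pow_succ, mul_assoc, ← ht]
      exact hm
    exact pow_succ_padicValNat_not_dvd i.factorial_ne_zero this
  have hu : IsUnit ((m : ℕ) : ℤ_[p]) := by
    rw [PadicInt.isUnit_iff, PadicInt.norm_natCast_eq_one_iff]
    exact (Nat.Prime.coprime_iff_not_dvd hp.out).2 hcop
  obtain ⟨u, hu⟩ := hu
  refine ⟨(p : ℤ_[p]) ^ N * y * (u⁻¹ : ℤ_[p]ˣ), ?_, ?_⟩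
  · have e : ((i.factorial : ℕ) : ℤ_[p]) = (p : ℤ_[p]) ^ padicValNat p i.factorial * u := by
      rw [hu]
      exact_mod_cast congrArg (fun z : ℕ => (z : ℤ_[p])) hm
    rw [e, hy, pow_add]
    have : (u⁻¹ : ℤ_[p]ˣ) * (u : ℤ_[p]) = 1 := Units.inv_mul u
    linear_combination (-(p : ℤ_[p]) ^ N * (p : ℤ_[p]) ^ padicValNat p i.factorial * y) * this
  · rw [mul_assoc]
    exact Dvd.intro _ rfl

theorem gammahler_vfact (p : ℕ) [hp : Fact p.Prime] (hp5 : 5 ≤ p) (i : ℕ) :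
    padicValNat p i.factorial ≤ (i - 1) / 4 := by
  have h := sub_one_mul_padicValNat_factorial (p := p) i
  rcases Nat.eq_zero_or_pos i with hi | hi
  · subst hi
    simp
  · have hs : 1 ≤ (p.digits i).sum := by
      by_contra hcon
      have h0 : (p.digits i).sum = 0 := by omega
      have h1 : i ≤ 0 := by
        have hall : ∀ d ∈ p.digits i, d = 0 := List.sum_eq_zero_iff.1 h0
        have hne : p.digits i ≠ [] := Nat.digits_ne_nil_iff_ne_zero.2 (by omega)
        exact absurd (hall _ (List.getLast_mem hne))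
          (Nat.getLast_digit_ne_zero p (by omega))
      omega
    rw [Nat.le_div_iff_mul_le (by norm_num)]
    have h4 : 4 * padicValNat p i.factorial ≤ (p - 1) * padicValNat p i.factorial :=
      Nat.mul_le_mul_right _ (by omega)
    omega

theorem gammahler_N (p : ℕ) (hp5 : 5 ≤ p) (i : ℕ) :
    i - i / 5 ≤ (i * (p - 1) + (p - 1)) / p := by
  have h1 : i / p ≤ i / 5 := Nat.div_le_div_left hp5 (by norm_num)
  have h2 : i - i / p ≤ (i * (p - 1) + (p - 1)) / p := by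
    rw [Nat.le_div_iff_mul_le (by omega)]
    have h3 := Nat.div_add_mod i p
    have h4 := Nat.mod_lt i (show 0 < p by omega)
    obtain ⟨q, rfl⟩ : ∃ q, p = q + 1 := ⟨p - 1, by omega⟩
    simp only [Nat.add_sub_cancel]
    have h5 : i / (q + 1) ≤ i := Nat.div_le_self _ _
    zify [h5]
    zify at h3 h4
    nlinarith
  omega

theorem gammahler_eval (p : ℕ) [hp : Fact p.Prime] (i : ℕ) :
    (p : ℤ_[p]) ^ ((i * (p - 1) + (p - 1)) / p) ∣ (gammahler_P p i).eval 0 := by
  have := gammahler_PWt (p := p) i 0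
  rw [Nat.sub_zero] at this
  rwa [← coeff_zero_eq_eval_zero]

theorem gammahler_P1 (p : ℕ) [hp : Fact p.Prime] : (gammahler_P p 1).eval 0 = 0 := by
  have h : (Ep p).eval 0 = 1 := by rw [← coeff_zero_eq_eval_zero, Ep_coeff_zero]
  simp [gammahler_P, h]

theorem gammahler_Ep (p : ℕ) [hp : Fact p.Prime] (hp5 : 5 ≤ p) :
    (p : ℤ_[p]) ^ 3 ∣ (Ep p).eval (p : ℤ_[p]) - 1 := by
  have h1 := Ep_coeff_one p hp5
  have h2 := Ep_coeff_dvd p 2 (by norm_num) (by omega)
  have h0 := Ep_coeff_zero p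
  have hdeg : (Ep p).natDegree < p := lt_of_le_of_lt (Ep_natDegree p) (by omega)
  rw [eval_eq_sum_range' hdeg]
  obtain ⟨q, hq⟩ : ∃ q, p = q + 3 := ⟨p - 3, by omega⟩
  have e : ∑ i ∈ range p, (Ep p).coeff i * (p : ℤ_[p]) ^ i
      = ∑ i ∈ range (q + 3), (Ep p).coeff i * (p : ℤ_[p]) ^ i := by
    rw [← hq]
  rw [e, Finset.sum_range_succ', Finset.sum_range_succ', Finset.sum_range_succ']
  have e2 : ∑ k ∈ range q, (Ep p).coeff (k + 1 + 1 + 1) * (p : ℤ_[p]) ^ (k + 1 + 1 + 1)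
        + (Ep p).coeff (0 + 1 + 1) * (p : ℤ_[p]) ^ (0 + 1 + 1)
        + (Ep p).coeff (0 + 1) * (p : ℤ_[p]) ^ (0 + 1)
        + (Ep p).coeff 0 * (p : ℤ_[p]) ^ 0 - 1
      = ∑ k ∈ range q, (Ep p).coeff (k + 1 + 1 + 1) * (p : ℤ_[p]) ^ (k + 1 + 1 + 1)
        + (Ep p).coeff 2 * (p : ℤ_[p]) ^ 2 + (Ep p).coeff 1 * (p : ℤ_[p]) := by
    rw [h0]
    ring
  rw [e2]
  refine dvd_add (dvd_add ?_ ?_) ?_
  · refine Finset.dvd_sum fun k _ => ?_
    exact Dvd.dvd.mul_left (pow_dvd_pow _ (by omega)) _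
  · have := mul_dvd_mul h2 (dvd_refl ((p : ℤ_[p]) ^ 2))
    refine dvd_trans (dvd_of_eq ?_) this
    ring
  · have := mul_dvd_mul h1 (dvd_refl (p : ℤ_[p]))
    refine dvd_trans (dvd_of_eq ?_) this
    ring

theorem gammahler_P2 (p : ℕ) [hp : Fact p.Prime] (hp5 : 5 ≤ p) :
    (p : ℤ_[p]) ^ 3 ∣ (gammahler_P p 2).eval 0 := by
  have h : (Ep p).eval 0 = 1 := by rw [← coeff_zero_eq_eval_zero, Ep_coeff_zero]
  have e : (gammahler_P p 2).eval 0 = (Ep p).eval (p : ℤ_[p]) - 1 := by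
    have e1 : gammahler_P p 1 = Ep p - 1 := by
      rw [gammahler_P, gammahler_P]
      simp
    rw [gammahler_P, e1]
    simp [h]
  rw [e]
  exact gammahler_Ep p hp5

theorem gammahler_main (p : ℕ) [hp : Fact p.Prime] (hp5 : 5 ≤ p) (i : ℕ) :
    ∃ a : ℤ_[p], (gammahler_P p i).eval 0 = a * ((i.factorial : ℕ) : ℤ_[p]) ∧
      (i = 0 → a = 1) ∧ (1 ≤ i → (p : ℤ_[p]) ^ 3 ∣ a) ∧ (p : ℤ_[p]) ^ ((i + 1) / 2) ∣ a := by
  have hv := gammahler_vfact p hp5 i
  have hN := gammahler_N p hp5 i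
  have hE := gammahler_eval p i
  rcases Nat.lt_or_ge i 3 with hi | hi
  · interval_cases i
    · refine ⟨1, by simp [gammahler_P], fun _ => rfl, by omega, by simp⟩
    · refine ⟨0, by rw [gammahler_P1]; simp, by omega, fun _ => dvd_zero _, dvd_zero _⟩
    · obtain ⟨a, ha, hd⟩ := gammahler_div p 2 3 ((gammahler_P p 2).eval 0) (by
        have : padicValNat p (Nat.factorial 2) = 0 := by omega
        rw [this]
        exact gammahler_P2 p hp5)
      refine ⟨a, ha, by omega, fun _ => hd, ?_⟩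
      exact dvd_trans (pow_dvd_pow _ (by norm_num)) hd
  · obtain ⟨a, ha, hd⟩ := gammahler_div p i (max 3 ((i + 1) / 2)) ((gammahler_P p i).eval 0) (by
      refine dvd_trans (pow_dvd_pow _ ?_) hE
      omega)
    refine ⟨a, ha, by omega, fun _ => ?_, ?_⟩
    · exact dvd_trans (pow_dvd_pow _ (le_max_left _ _)) hd
    · exact dvd_trans (pow_dvd_pow _ (le_max_right _ _)) hd

/-- Put `P_0 = 1`, `P_{i+1}(T) = E(T) P_i(T+p) - P_i(T)`; then the `i`-th forward difference of `G`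
is `G(l) P_i(pl)`. The coefficient of `T^n` in `P_i` has `p v + n >= (p-1) i` because
`E(T) - 1` has coefficients with `p v + n >= p - 1`. Hence `v(P_i(0)) >= (p-1) i / p`, and
`a_i = P_i(0) / i!` with `v(i!) <= (i-1)/(p-1)`. For `i = 1, 2` use `G(1) = 1`,
`G(2) = E(p) = 1` modulo `p^3`. -/
theorem gamma_mahler (p : ℕ) [Fact p.Prime] (hp : 5 ≤ p) :
    ∃ a : ℕ → ℤ_[p], a 0 = 1 ∧
      (∀ k : ℕ, Gv p k = ∑ j ∈ range (k + 1), a j * ((k.descFactorial j : ℕ) : ℤ_[p])) ∧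
      (∀ j : ℕ, 1 ≤ j → (p : ℤ_[p]) ^ 3 ∣ a j) ∧
      (∀ j : ℕ, (p : ℤ_[p]) ^ ((j + 1) / 2) ∣ a j) := by
  choose a ha h0 h3 h2 using gammahler_main p hp
  refine ⟨a, h0 0 rfl, fun k => ?_, h3, h2⟩
  rw [gammahler_newton]
  refine Finset.sum_congr rfl fun j _ => ?_
  rw [ha, Nat.descFactorial_eq_factorial_mul_choose]
  push_cast
  ring

end Pool.Agent.H.MP_7425ae_nt
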