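import Pool.Agent.H.MP_7425ae_nt.GamMahler
import Pool.Agent.H.MP_7425ae_nt.FallB

/-! The polynomials `G_s` approximating `G` modulo `p^s`. -/

set_option autoImplicit false

open Polynomial Finset

namespace Pool.Agent.H.MP_7425ae_nt

/-- A family of polynomials over `ℤ_[p]` representing `G` modulo `p^s` for every `s`. -/
structure IsGs (p : ℕ) [Fact p.Prime] (G : ℕ → ℤ_[p][X]) : Prop where
  zero : ∀ s, (G s).coeff 0 = 1
  adm : ∀ s i, 1 ≤ i → (p : ℤ_[p]) ^ 3 ∣ (G s).coeff i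
  shift : ∀ s, C ((p : ℤ_[p]) ^ s) ∣
    (G s).comp (X + 1) - G s * (Ep p).comp (C (p : ℤ_[p]) * X)
  inv : ∀ s, C ((p : ℤ_[p]) ^ s) ∣ G s * (G s).comp (-X) - 1
  val : ∀ s (k : ℕ), (p : ℤ_[p]) ^ s ∣ (G s).eval (k : ℤ_[p]) - Gv p k
  indep : ∀ s s', s ≤ s' → C ((p : ℤ_[p]) ^ s) ∣ G s' - G s

/-- the approximating polynomials -/
noncomputable def gampoly_G (p : ℕ) [Fact p.Prime] (a : ℕ → ℤ_[p]) (s : ℕ) : ℤ_[p][X] :=
  ∑ i ∈ range (2 * s + 1), C (a i) * descPochhammer ℤ_[p] i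

section

variable {p : ℕ} [Fact p.Prime] {a : ℕ → ℤ_[p]}

theorem gampoly_zero (h0 : a 0 = 1) (s : ℕ) : (gampoly_G p a s).coeff 0 = 1 := by
  rw [coeff_zero_eq_eval_zero, gampoly_G, eval_finsetSum, Finset.sum_eq_single 0]
  · simp [h0]
  · intro i _ hi
    rw [eval_mul, descPochhammer_ne_zero_eval_zero ℤ_[p] hi, mul_zero]
  · intro h
    exact absurd (mem_range.mpr (by omega)) h

theorem gampoly_adm (h3 : ∀ j : ℕ, 1 ≤ j → (p : ℤ_[p]) ^ 3 ∣ a j) (s i : ℕ) (hi : 1 ≤ i) :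
    (p : ℤ_[p]) ^ 3 ∣ (gampoly_G p a s).coeff i := by
  rw [gampoly_G, finsetSum_coeff]
  apply Finset.dvd_sum
  intro j _
  rw [coeff_C_mul]
  rcases Nat.eq_zero_or_pos j with rfl | hj
  · rw [descPochhammer_zero, coeff_one, if_neg (by omega), mul_zero]
    exact dvd_zero _
  · exact (h3 j hj).mul_right _

theorem gampoly_indep (h2 : ∀ j : ℕ, (p : ℤ_[p]) ^ ((j + 1) / 2) ∣ a j) (s s' : ℕ) (h : s ≤ s') :
    C ((p : ℤ_[p]) ^ s) ∣ gampoly_G p a s' - gampoly_G p a s := by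
  have h1 : gampoly_G p a s' - gampoly_G p a s
      = ∑ i ∈ Ico (2 * s + 1) (2 * s' + 1), C (a i) * descPochhammer ℤ_[p] i := by
    rw [gampoly_G, gampoly_G, Finset.sum_Ico_eq_sub _ (by omega)]
  rw [h1]
  apply Finset.dvd_sum
  intro j hj
  rw [mem_Ico] at hj
  apply Dvd.dvd.mul_right
  apply _root_.map_dvd C
  exact (pow_dvd_pow _ (by omega)).trans (h2 j)

/-- the value of `gampoly_G` -/
theorem gampoly_eval (hG : ∀ k : ℕ, Gv p k = ∑ j ∈ range (k + 1), a j * ((k.descFactorial j : ℕ) : ℤ_[p]))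
    (h2 : ∀ j : ℕ, (p : ℤ_[p]) ^ ((j + 1) / 2) ∣ a j) (s : ℕ) :
    ∃ T : ℕ → ℤ_[p], FI T ∧ ∀ k : ℕ,
      (gampoly_G p a s).eval (k : ℤ_[p]) = Gv p k - (p : ℤ_[p]) ^ s * T k := by
  classical
  have hb : ∀ j : ℕ, ∃ b : ℤ_[p], 2 * s + 1 ≤ j → a j = (p : ℤ_[p]) ^ s * b := by
    intro j
    by_cases hj : 2 * s + 1 ≤ j
    · obtain ⟨b, hb⟩ := (pow_dvd_pow (p : ℤ_[p]) (show s ≤ (j + 1) / 2 by omega)).trans (h2 j)
      exact ⟨b, fun _ => hb⟩
    · exact ⟨0, fun h => absurd h hj⟩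
  choose b hb using hb
  refine ⟨fun k => ∑ j ∈ range (k + 1), (if j < 2 * s + 1 then 0 else b j) *
    ((k.descFactorial j : ℕ) : ℤ_[p]), ⟨_, fun k => rfl⟩, ?_⟩
  intro k
  have e1 : (gampoly_G p a s).eval (k : ℤ_[p])
      = ∑ j ∈ range (2 * s + 1), a j * ((k.descFactorial j : ℕ) : ℤ_[p]) := by
    rw [gampoly_G, eval_finsetSum]
    apply Finset.sum_congr rfl
    intro j _
    rw [eval_mul, eval_C, descPochhammer_eval_eq_descFactorial]
  set N := max (k + 1) (2 * s + 1) with hN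
  have ext : ∀ (f : ℕ → ℤ_[p]) (M : ℕ), k + 1 ≤ M →
      ∑ j ∈ range (k + 1), f j * ((k.descFactorial j : ℕ) : ℤ_[p])
        = ∑ j ∈ range M, f j * ((k.descFactorial j : ℕ) : ℤ_[p]) := by
    intro f M hM
    apply Finset.sum_subset
    · intro j hj
      rw [mem_range] at hj ⊢
      omega
    · intro j _ hj
      rw [mem_range] at hj
      rw [Nat.descFactorial_of_lt (by omega), Nat.cast_zero, mul_zero]
  beta_reduce
  rw [e1, hG k, ext a N (le_max_left _ _), ext _ N (le_max_left _ _), Finset.mul_sum,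
    ← Finset.sum_sub_distrib]
  symm
  rw [← Finset.sum_subset (s₁ := range (2 * s + 1)) (s₂ := range N)]
  · apply Finset.sum_congr rfl
    intro j hj
    rw [mem_range] at hj
    rw [if_pos hj]
    ring
  · intro j hj
    rw [mem_range] at hj ⊢
    exact lt_of_lt_of_le hj (le_max_right _ _)
  · intro j _ hj
    rw [mem_range] at hj
    rw [if_neg hj, hb j (by omega)]
    ring

theorem gampoly_val (hG : ∀ k : ℕ, Gv p k = ∑ j ∈ range (k + 1), a j * ((k.descFactorial j : ℕ) : ℤ_[p]))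
    (h2 : ∀ j : ℕ, (p : ℤ_[p]) ^ ((j + 1) / 2) ∣ a j) (s k : ℕ) :
    (p : ℤ_[p]) ^ s ∣ (gampoly_G p a s).eval (k : ℤ_[p]) - Gv p k := by
  obtain ⟨T, _, hT⟩ := gampoly_eval hG h2 s
  rw [hT k]
  exact ⟨- T k, by ring⟩

theorem gampoly_shift
    (hG : ∀ k : ℕ, Gv p k = ∑ j ∈ range (k + 1), a j * ((k.descFactorial j : ℕ) : ℤ_[p]))
    (h2 : ∀ j : ℕ, (p : ℤ_[p]) ^ ((j + 1) / 2) ∣ a j) (s : ℕ) :
    C ((p : ℤ_[p]) ^ s) ∣
      (gampoly_G p a s).comp (X + 1) - gampoly_G p a s * (Ep p).comp (C (p : ℤ_[p]) * X) := by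
  obtain ⟨T, hFI, hT⟩ := gampoly_eval hG h2 s
  apply dvd_of_eval _ _ (fun k => -(T (k + 1)) +
    T k * ((Ep p).comp (C (p : ℤ_[p]) * X)).eval (k : ℤ_[p]))
  · exact (hFI.shift.neg).add (hFI.mul (FI.poly _))
  · intro k
    have e1 : ((gampoly_G p a s).comp (X + 1)).eval (k : ℤ_[p])
        = (gampoly_G p a s).eval ((k + 1 : ℕ) : ℤ_[p]) := by
      rw [eval_comp]
      simp
    have e2 : ((Ep p).comp (C (p : ℤ_[p]) * X)).eval (k : ℤ_[p])
        = (Ep p).eval ((p * k : ℕ) : ℤ_[p]) := by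
      rw [eval_comp]
      simp
    rw [eval_sub, eval_mul, e1, e2, hT k, hT (k + 1), Gv_succ]
    ring

theorem gampoly_inv (hp : 5 ≤ p) (h0 : a 0 = 1)
    (hG : ∀ k : ℕ, Gv p k = ∑ j ∈ range (k + 1), a j * ((k.descFactorial j : ℕ) : ℤ_[p]))
    (h2 : ∀ j : ℕ, (p : ℤ_[p]) ^ ((j + 1) / 2) ∣ a j) (s : ℕ) :
    C ((p : ℤ_[p]) ^ s) ∣ gampoly_G p a s * (gampoly_G p a s).comp (-X) - 1 := by
  set g := gampoly_G p a (2 * s) with hg
  set E := (Ep p).comp (C (p : ℤ_[p]) * X) with hE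
  -- the symmetry of `E`
  have hsym : E.comp (-X - 1) = E := by
    have h1 := congrArg (fun q : ℤ_[p][X] => q.comp (C (p : ℤ_[p]) * X)) (Ep_symm p (by omega))
    calc E.comp (-X - 1) = (Ep p).comp ((C (p : ℤ_[p]) * X).comp (-X - 1)) := by
          rw [hE, comp_assoc]
      _ = (Ep p).comp ((- C (p : ℤ_[p]) - X).comp (C (p : ℤ_[p]) * X)) := by
          congr 1
          simp only [sub_comp, neg_comp, C_comp, X_comp, mul_comp]
          ring
      _ = E := by rw [← comp_assoc, h1, hE]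
  have A1 : C ((p : ℤ_[p]) ^ (2 * s)) ∣ g.comp (X + 1) - g * E := gampoly_shift hG h2 (2 * s)
  have A2 : C ((p : ℤ_[p]) ^ (2 * s)) ∣ g.comp (-X) - g.comp (-X - 1) * E := by
    obtain ⟨q, hq⟩ := A1
    refine ⟨q.comp (-X - 1), ?_⟩
    have h1 := congrArg (fun r : ℤ_[p][X] => r.comp (-X - 1)) hq
    simp only [sub_comp, mul_comp, C_comp, comp_assoc, add_comp, X_comp, one_comp] at h1
    rw [hsym] at h1
    rw [← h1]
    congr 2
    ring
  have A3 : C ((p : ℤ_[p]) ^ (2 * s)) ∣ (g * g.comp (-X)).comp (X + 1) - g * g.comp (-X) := by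
    have h1 : (g * g.comp (-X)).comp (X + 1) = g.comp (X + 1) * g.comp (-X - 1) := by
      rw [mul_comp, comp_assoc]
      congr 2
      simp only [neg_comp, X_comp]
      ring
    rw [h1]
    have h3 : g.comp (X + 1) * g.comp (-X - 1) - g * g.comp (-X)
        = (g.comp (X + 1) - g * E) * g.comp (-X - 1)
          - g * (g.comp (-X) - g.comp (-X - 1) * E) := by ring
    rw [h3]
    exact dvd_sub (A1.mul_right _) (A2.mul_left _)
  have hdeg : (g * g.comp (-X)).natDegree < p ^ (s + 1) := by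
    have d1 : g.natDegree ≤ 4 * s := by
      rw [hg, gampoly_G]
      apply natDegree_sum_le_of_forall_le
      intro i hi
      rw [mem_range] at hi
      refine (natDegree_C_mul_le _ _).trans ?_
      rw [descPochhammer_natDegree]
      omega
    have d2 : (g.comp (-X)).natDegree ≤ 4 * s := by
      refine natDegree_comp_le.trans ?_
      rw [natDegree_neg, natDegree_X, mul_one]
      exact d1
    have d3 : (g * g.comp (-X)).natDegree ≤ 8 * s :=
      natDegree_mul_le.trans (by omega)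
    have d4 : 8 * s < 5 ^ (s + 1) := by
      clear * -
      induction s with
      | zero => norm_num
      | succ n ih =>
        have h5 : 1 ≤ 5 ^ n := Nat.one_le_pow _ _ (by norm_num)
        rw [pow_succ] at ih ⊢
        rw [pow_succ]
        omega
    calc (g * g.comp (-X)).natDegree ≤ 8 * s := d3
      _ < 5 ^ (s + 1) := d4
      _ ≤ p ^ (s + 1) := Nat.pow_le_pow_left hp _
  have A4 := dvd_of_shift _ (2 * s) s hdeg A3
  have hc : (g * g.comp (-X)).coeff 0 = 1 := by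
    rw [mul_coeff_zero, hg, gampoly_zero h0, one_mul, coeff_zero_eq_eval_zero, eval_comp,
      eval_neg, eval_X, neg_zero, ← coeff_zero_eq_eval_zero, gampoly_zero h0]
  rw [hc, show 2 * s - s = s by omega, C_1] at A4
  -- replace `g` by the polynomial of level `s`
  have B1 : C ((p : ℤ_[p]) ^ s) ∣ g - gampoly_G p a s := gampoly_indep h2 s (2 * s) (by omega)
  have B2 : C ((p : ℤ_[p]) ^ s) ∣ g.comp (-X) - (gampoly_G p a s).comp (-X) := by
    obtain ⟨q, hq⟩ := B1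
    refine ⟨q.comp (-X), ?_⟩
    rw [← sub_comp, hq, mul_comp, C_comp]
  have h5 : gampoly_G p a s * (gampoly_G p a s).comp (-X) - 1
      = (g * g.comp (-X) - 1) - (g - gampoly_G p a s) * g.comp (-X)
        - gampoly_G p a s * (g.comp (-X) - (gampoly_G p a s).comp (-X)) := by ring
  rw [h5]
  exact dvd_sub (dvd_sub A4 (B1.mul_right _)) (B2.mul_left _)

end

/-- take `G_s = sum_{i < 2s} a_i X(X-1)...(X-i+1)`; `shift` follows from `dvd_of_eval` because
`G_s(k) = G(k) - p^s T(k)` with `T` in `FI` and `G(k+1) = G(k) E(pk)`; `inv`: for `s'` large the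
polynomial `K = G_{s'}(X) G_{s'}(-X)` satisfies `K(X+1) = K(X)` modulo `p^{s'}` (by `shift` and
`E(-p-T) = E(T)`), so it is constant modulo `p^s` by `dvd_of_shift`. -/
theorem exists_Gs (p : ℕ) [Fact p.Prime] (hp : 5 ≤ p) :
    ∃ G : ℕ → ℤ_[p][X], IsGs p G := by
  obtain ⟨a, h0, hG, h3, h2⟩ := gamma_mahler p hp
  exact ⟨gampoly_G p a, {
    zero := gampoly_zero h0
    adm := gampoly_adm h3
    shift := gampoly_shift hG h2
    inv := gampoly_inv hp h0 hG h2
    val := gampoly_val hG h2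
    indep := gampoly_indep h2 }⟩

end Pool.Agent.H.MP_7425ae_nt
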