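import Pool.Agent.H.MP_7425ae_nt.DwRel
import Pool.Agent.H.MP_7425ae_nt.PhiMat
import Pool.Agent.H.MP_7425ae_nt.CmpMat

/-! The polynomials `H_m(u) = sum_k e_k u^k` and their relation. -/

set_option autoImplicit false

open Polynomial

namespace Pool.Agent.H.MP_7425ae_nt

variable {R : Type} [CommRing R]

/-- `H_m(u) = sum_k e_k u^k` -/
noncomputable def Hr (m : ℕ) (u : R) : R :=
  ∑ k ∈ Finset.range (m + 1), ((er m k : ℤ) : R) * u ^ k

/-- `sum_k k e_k u^k` -/
noncomputable def DHr (m : ℕ) (u : R) : R :=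
  ∑ k ∈ Finset.range (m + 1), (k : R) * ((er m k : ℤ) : R) * u ^ k

/-- for `rho = p` and `p^2 = 0` the class of `Phi 1` is `Phi 1` itself -/
theorem Phi_one2 {p : ℕ} {D : Dat R} (hD : D.OK p 2 a2 c2) (h2 : (p : R) ^ 2 = 0)
    (hr : D.rho = (p : R)) (u u' t : R) (hu : Lead 2 a2 u') :
    Phi p D u t 1 = C (Mmat p 2 a2 D u u' t 0 0) + C (Mmat p 2 a2 D u u' t 1 0) * X := by
  have hco : ∀ i, 2 ≤ i → (Phi p D u t 1).coeff i = 0 := by
    intro i hi
    have h1 := Phi_adm hD u t 1 i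
    have h0 : D.rho ^ (min i 3) = 0 := by
      obtain ⟨l, hl⟩ : ∃ l, min i 3 = 2 + l := ⟨min i 3 - 2, by omega⟩
      rw [hl, pow_add, hr, h2, zero_mul]
    rw [h0] at h1
    exact zero_dvd_iff.1 h1
  have hemb : Phi p D u t 1 = emb ![(Phi p D u t 1).coeff 0, (Phi p D u t 1).coeff 1] := by
    unfold emb
    rw [Fin.sum_univ_two]
    ext i
    simp only [Matrix.cons_val_zero, Matrix.cons_val_one, Fin.val_zero, Fin.val_one, pow_zero,
      mul_one, pow_one, coeff_add, coeff_C, coeff_C_mul, coeff_X]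
    rcases i with _ | _ | i
    · simp
    · simp
    · rw [hco (i + 2) (by omega)]
      simp
  have hred : red 2 a2 u' (Phi p D u t 1) =
      ![(Phi p D u t 1).coeff 0, (Phi p D u t 1).coeff 1] := by
    conv_lhs => rw [hemb]
    exact (red_emb hu _).1
  have h00 : Mmat p 2 a2 D u u' t 0 0 = (Phi p D u t 1).coeff 0 := by
    change red 2 a2 u' (Phi p D u t (X ^ 0)) 0 = _
    rw [pow_zero, hred]
    rfl
  have h10 : Mmat p 2 a2 D u u' t 1 0 = (Phi p D u t 1).coeff 1 := by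
    change red 2 a2 u' (Phi p D u t (X ^ 0)) 1 = _
    rw [pow_zero, hred]
    rfl
  rw [h00, h10]
  conv_lhs => rw [hemb]
  unfold emb
  rw [Fin.sum_univ_two]
  simp

theorem hrel_block (p N : ℕ) (f : ℕ → R) :
    ∑ n ∈ Finset.range (p * N), f n
      = ∑ k ∈ Finset.range N, ∑ j ∈ Finset.range p, f (p * k + j) := by
  induction N with
  | zero => simp
  | succ N ih => rw [Nat.mul_succ, Finset.sum_range_add, ih, Finset.sum_range_succ]

theorem hrel_ext {a b : ℕ} (hab : a ≤ b) (f : ℕ → R) (hf : ∀ n, a ≤ n → f n = 0) :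
    ∑ n ∈ Finset.range a, f n = ∑ n ∈ Finset.range b, f n := by
  apply Finset.sum_subset
  · intro n hn
    rw [Finset.mem_range] at *
    omega
  · intro n _ hn
    rw [Finset.mem_range] at hn
    exact hf n (by omega)

theorem hrel_Phi_eval {p : ℕ} {D : Dat R} (hD : D.OK p 2 a2 c2) (u t : R) (N : ℕ) :
    (Phi p D u t 1).eval (N : R) = (1 + D.rho * t) ^ N *
      ∑ j ∈ Finset.range p, u ^ j * (D.Th * D.r j).eval (N : R) := by
  unfold Phi Uop
  rw [eval_mul, Ex_eval hD, eval_mul, eval_finsetSum, Finset.mul_sum (Finset.range p)]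
  congr 1
  apply Finset.sum_congr rfl
  intro j _
  rw [one_comp, mul_one, eval_mul, eval_mul, eval_C]
  ring

theorem Hr_rel {p : ℕ} [Fact p.Prime] (hp : 5 ≤ p) {D : Dat R} (hD : D.OK p 2 a2 c2)
    (h2 : (p : R) ^ 2 = 0) (u u' t P L : R) (ht : (1 + D.rho * t) * u' = u ^ p)
    (hPhi : Phi p D u t 1 = C P + C L * X) :
    Hr ((p ^ 2 - 1) / 2) u = P * Hr ((p - 1) / 2) u' + L * DHr ((p - 1) / 2) u' := by
  have hpp : p ≤ p * p := Nat.le_mul_self p
  have e1 : Hr ((p ^ 2 - 1) / 2) u = ∑ n ∈ Finset.range (p * p),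
      ((er ((p ^ 2 - 1) / 2) n : ℤ) : R) * u ^ n := by
    unfold Hr
    apply hrel_ext
    · rw [pow_two]
      omega
    · intro n hn
      rw [er_zero_of_lt _ _ (by omega), Int.cast_zero, zero_mul]
  have e2 : Hr ((p - 1) / 2) u' = ∑ k ∈ Finset.range p,
      ((er ((p - 1) / 2) k : ℤ) : R) * u' ^ k := by
    unfold Hr
    apply hrel_ext
    · omega
    · intro n hn
      rw [er_zero_of_lt _ _ (by omega), Int.cast_zero, zero_mul]
  have e3 : DHr ((p - 1) / 2) u' = ∑ k ∈ Finset.range p,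
      (k : R) * ((er ((p - 1) / 2) k : ℤ) : R) * u' ^ k := by
    unfold DHr
    apply hrel_ext
    · omega
    · intro n hn
      rw [er_zero_of_lt _ _ (by omega), Int.cast_zero, mul_zero, zero_mul]
  rw [e1, e2, e3, hrel_block, Finset.mul_sum, Finset.mul_sum, ← Finset.sum_add_distrib]
  apply Finset.sum_congr rfl
  intro k _
  have e4 : ∀ j ∈ Finset.range p, ((er ((p ^ 2 - 1) / 2) (p * k + j) : ℤ) : R) *
      u ^ (p * k + j) = ((er ((p - 1) / 2) k : ℤ) : R) * u' ^ k * ((1 + D.rho * t) ^ k *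
        (u ^ j * (D.Th * D.r j).eval (k : R))) := by
    intro j hj
    rw [dw_rel hp hD h2 k j (Finset.mem_range.1 hj), pow_add, pow_mul, ← ht, mul_pow]
    ring
  rw [Finset.sum_congr rfl e4, ← Finset.mul_sum, ← Finset.mul_sum, ← hrel_Phi_eval hD u t k,
    hPhi, eval_add, eval_mul, eval_C, eval_C, eval_X]
  ring

end Pool.Agent.H.MP_7425ae_nt
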