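import Mathlib

/-! Heights: the algebra of the map `(x(P)+x(Q), x(P)x(Q)) -> (x(P+Q)+x(P-Q), x(P+Q)x(P-Q))`
for `y^2 = x^3 + A x + B`. -/

set_option autoImplicit false

open Polynomial

namespace Pool.Agent.H.MP_7425ae_nt

section
variable {R : Type} [CommRing R]

def q0 (p0 p1 p2 : R) : R := p1 ^ 2 - 4 * p0 * p2

def q1 (A B p0 p1 p2 : R) : R := 2 * (p1 * (A * p0 + p2) + 2 * B * p0 ^ 2)

def q2 (A B p0 p1 p2 : R) : R := (p2 - A * p0) ^ 2 - 4 * B * p0 * p1

/-- over a field the three forms have no common zero -/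
theorem q_field {k : Type} [Field k] (A B : k) (h2 : (2 : k) ≠ 0)
    (hd : 4 * A ^ 3 + 27 * B ^ 2 ≠ 0) (p0 p1 p2 : k) (h0 : q0 p0 p1 p2 = 0)
    (h1 : q1 A B p0 p1 p2 = 0) (h22 : q2 A B p0 p1 p2 = 0) : p0 = 0 ∧ p1 = 0 ∧ p2 = 0 := by
  unfold q0 at h0
  unfold q1 at h1
  unfold q2 at h22
  by_cases hp0 : p0 = 0
  · subst hp0
    have e1 : p1 = 0 := by
      have : p1 ^ 2 = 0 := by linear_combination h0
      exact pow_eq_zero_iff (two_ne_zero) |>.1 this
    have e2 : p2 = 0 := by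
      have : p2 ^ 2 = 0 := by linear_combination h22
      exact pow_eq_zero_iff (two_ne_zero) |>.1 this
    exact ⟨rfl, e1, e2⟩
  · exfalso
    have h4 : (4 : k) ≠ 0 := by
      have : (4 : k) = 2 * 2 := by norm_num
      rw [this]; exact mul_ne_zero h2 h2
    obtain ⟨X, hX⟩ : ∃ X : k, p1 = 2 * p0 * X :=
      ⟨p1 / (2 * p0), by field_simp⟩
    subst hX
    have e2 : p2 = p0 * X ^ 2 := by
      have : (4 * p0) * (p2 - p0 * X ^ 2) = 0 := by linear_combination -h0
      rcases mul_eq_zero.1 this with h | h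
      · exact absurd h (mul_ne_zero h4 hp0)
      · linear_combination h
    subst e2
    have e3 : X ^ 3 + A * X + B = 0 := by
      have : (4 * p0 ^ 2) * (X ^ 3 + A * X + B) = 0 := by linear_combination h1
      rcases mul_eq_zero.1 this with h | h
      · exact absurd h (mul_ne_zero h4 (pow_ne_zero 2 hp0))
      · exact h
    have e4 : (X ^ 2 - A) ^ 2 - 8 * B * X = 0 := by
      have : (p0 ^ 2) * ((X ^ 2 - A) ^ 2 - 8 * B * X) = 0 := by linear_combination h22
      rcases mul_eq_zero.1 this with h | h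
      · exact absurd h (pow_ne_zero 2 hp0)
      · exact h
    have e5 : 4 * (4 * A ^ 3 + 27 * B ^ 2) = 0 := by
      linear_combination (12 * X ^ 2 + 16 * A) * e4 - 4 * (3 * X ^ 3 - 5 * A * X - 27 * B) * e3
    rcases mul_eq_zero.1 e5 with h | h
    · exact h4 h
    · exact hd h

private theorem htalg_max (x y z : R)
    (h : ∀ M : Ideal R, M.IsMaximal → x ∈ M → y ∈ M → z ∈ M → False) :
    ∃ a b c : R, a * x + b * y + c * z = 1 := by
  have htop : Ideal.span {x, y, z} = (⊤ : Ideal R) := by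
    by_contra hne
    obtain ⟨M, hM, hle⟩ := Ideal.exists_le_maximal _ hne
    refine h M hM (hle (Ideal.subset_span (by simp))) (hle (Ideal.subset_span (by simp)))
      (hle (Ideal.subset_span (by simp)))
  have h1 : (1 : R) ∈ Ideal.span {x, y, z} := by rw [htop]; trivial
  obtain ⟨a, w, hw, e⟩ := Ideal.mem_span_insert.1 h1
  obtain ⟨b, c, e'⟩ := Ideal.mem_span_pair.1 hw
  exact ⟨a, b, c, by rw [e, ← e']; ring⟩

private theorem htalg_fld (M : Ideal R) (hM : M.IsMaximal) :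
    ∃ (k : Type) (_ : Field k) (f : R →+* k), ∀ x, f x = 0 ↔ x ∈ M :=
  ⟨R ⧸ M, Ideal.Quotient.field M, Ideal.Quotient.mk M, fun _ => Ideal.Quotient.eq_zero_iff_mem⟩

/-- unimodular triples are mapped to unimodular triples -/
theorem q_unimod (A B : R) (h2 : IsUnit (2 : R)) (hd : IsUnit (4 * A ^ 3 + 27 * B ^ 2))
    (p0 p1 p2 : R) (hp : ∃ a b c : R, a * p0 + b * p1 + c * p2 = 1) :
    ∃ a b c : R, a * q0 p0 p1 p2 + b * q1 A B p0 p1 p2 + c * q2 A B p0 p1 p2 = 1 := by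
  apply htalg_max
  intro M hM h0 h1 h22
  obtain ⟨k, _, f, hf⟩ := htalg_fld M hM
  have hu2 : (2 : k) ≠ 0 := by
    have := (h2.map f).ne_zero
    rwa [map_ofNat] at this
  have hud : 4 * (f A) ^ 3 + 27 * (f B) ^ 2 ≠ 0 := by
    have := (hd.map f).ne_zero
    rwa [map_add, map_mul, map_mul, map_pow, map_pow, map_ofNat, map_ofNat] at this
  have g0 : q0 (f p0) (f p1) (f p2) = 0 := by
    rw [← hf] at h0
    unfold q0 at h0 ⊢
    rw [← h0]
    simp only [map_sub, map_mul, map_pow, map_ofNat]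
  have g1 : q1 (f A) (f B) (f p0) (f p1) (f p2) = 0 := by
    rw [← hf] at h1
    unfold q1 at h1 ⊢
    rw [← h1]
    simp only [map_add, map_mul, map_pow, map_ofNat]
  have g2 : q2 (f A) (f B) (f p0) (f p1) (f p2) = 0 := by
    rw [← hf] at h22
    unfold q2 at h22 ⊢
    rw [← h22]
    simp only [map_sub, map_mul, map_pow, map_ofNat]
  obtain ⟨r0, r1, r2⟩ := q_field (f A) (f B) hu2 hud _ _ _ g0 g1 g2
  obtain ⟨a, b, c, e⟩ := hp
  have : (1 : k) = 0 := by
    have := congrArg f e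
    simp only [map_add, map_mul, r0, r1, r2, mul_zero, add_zero, map_one] at this
    exact this.symm
  exact one_ne_zero this

theorem sym_unimod (N1 D1 N2 D2 : R) (h1 : IsCoprime N1 D1) (h2 : IsCoprime N2 D2) :
    ∃ a b c : R, a * (D1 * D2) + b * (N1 * D2 + N2 * D1) + c * (N1 * N2) = 1 := by
  have key : ∀ (N D : R), IsCoprime N D → ∀ M : Ideal R, M.IsMaximal → N ∈ M → D ∈ M → False := by
    intro N D hc M hM hN hD
    obtain ⟨a, b, e⟩ := hc
    apply hM.ne_top
    rw [Ideal.eq_top_iff_one, ← e]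
    exact M.add_mem (M.mul_mem_left _ hN) (M.mul_mem_left _ hD)
  apply htalg_max
  intro M hM m0 m1 m2
  have hp : M.IsPrime := hM.isPrime
  rcases hp.mem_or_mem m0 with hD | hD
  · have m1' : N1 * D2 ∈ M := by
      have := M.sub_mem m1 (M.mul_mem_left N2 hD)
      simpa using this
    have hN1 : N1 ∉ M := fun h => key _ _ h1 M hM h hD
    have hD2 := (hp.mem_or_mem m1').resolve_left hN1
    have hN2 := (hp.mem_or_mem m2).resolve_left hN1
    exact key _ _ h2 M hM hN2 hD2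
  · have m1' : N2 * D1 ∈ M := by
      have := M.sub_mem m1 (M.mul_mem_left N1 hD)
      simpa using this
    have hN2 : N2 ∉ M := fun h => key _ _ h2 M hM h hD
    have hD1 := (hp.mem_or_mem m1').resolve_left hN2
    have hN1 := (hp.mem_or_mem m2).resolve_right hN2
    exact key _ _ h1 M hM hN1 hD1

theorem coprime_of_sym (N D N' D' : R)
    (h : ∃ a b c : R, a * (D * D') + b * (N * D' + N' * D) + c * (N * N') = 1) :
    IsCoprime N D ∧ IsCoprime N' D' := by
  obtain ⟨a, b, c, e⟩ := h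
  exact ⟨⟨b * D' + c * N', a * D' + b * N', by linear_combination e⟩,
    ⟨b * D + c * N, a * D + b * N, by linear_combination e⟩⟩

end

/-- the factorization step: if `(D3 D4, N3 D4 + N4 D3, N3 N4) = μ q` in the fraction field, `q`
unimodular, `(N3, D3)` coprime and `(N4, D4)` relatively prime in the UFD `R`, then `μ` is a unit
of `R` and `(N4, D4)` is coprime. -/
theorem ufd_step {R : Type} [CommRing R] [IsDomain R] [UniqueFactorizationMonoid R]
    (Q0 Q1 Q2 N3 D3 N4 D4 s t : R)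
    (hq : ∃ a b c : R, a * Q0 + b * Q1 + c * Q2 = 1) (h3 : IsCoprime N3 D3)
    (h4 : IsRelPrime N4 D4) (ht : t ≠ 0) (hs : s ≠ 0)
    (e0 : t * (D3 * D4) = s * Q0) (e1 : t * (N3 * D4 + N4 * D3) = s * Q1)
    (e2 : t * (N3 * N4) = s * Q2) :
    ∃ μ : Rˣ, D3 * D4 = (μ : R) * Q0 ∧ N3 * D4 + N4 * D3 = (μ : R) * Q1 ∧
      N3 * N4 = (μ : R) * Q2 ∧ IsCoprime N4 D4 := by
  obtain ⟨a, b, c, e⟩ := hq
  set μ0 : R := a * (D3 * D4) + b * (N3 * D4 + N4 * D3) + c * (N3 * N4) with hμ0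
  have hsm : s = t * μ0 := by
    rw [hμ0]
    linear_combination (-s) * e - a * e0 - b * e1 - c * e2
  have f0 : D3 * D4 = μ0 * Q0 := mul_left_cancel₀ ht (by rw [e0, hsm]; ring)
  have f1 : N3 * D4 + N4 * D3 = μ0 * Q1 := mul_left_cancel₀ ht (by rw [e1, hsm]; ring)
  have f2 : N3 * N4 = μ0 * Q2 := mul_left_cancel₀ ht (by rw [e2, hsm]; ring)
  have hμne : μ0 ≠ 0 := by
    intro h; apply hs; rw [hsm, h, mul_zero]
  have hunit : IsUnit μ0 := by
    by_contra hnu
    obtain ⟨π, hπ, hπd⟩ := WfDvdMonoid.exists_irreducible_factor hnu hμne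
    have hπp : Prime π := UniqueFactorizationMonoid.irreducible_iff_prime.1 hπ
    have g0 : π ∣ D3 * D4 := by rw [f0]; exact hπd.mul_right _
    have g1 : π ∣ N3 * D4 + N4 * D3 := by rw [f1]; exact hπd.mul_right _
    have g2 : π ∣ N3 * N4 := by rw [f2]; exact hπd.mul_right _
    have k4 : π ∣ N4 → π ∣ D4 → False := fun x y => hπp.not_isUnit (h4 x y)
    have k3 : π ∣ N3 → π ∣ D3 → False := fun x y => hπp.not_isUnit (h3.isUnit_of_dvd' x y)
    rcases hπp.dvd_or_dvd g0 with hD | hD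
    · have hN3 : ¬ π ∣ N3 := fun h => k3 h hD
      have hN4 := (hπp.dvd_or_dvd g2).resolve_left hN3
      have : π ∣ N3 * D4 := (dvd_add_left (hD.mul_left _)).1 g1
      have hD4 := (hπp.dvd_or_dvd this).resolve_left hN3
      exact k4 hN4 hD4
    · have hN4 : ¬ π ∣ N4 := fun h => k4 h hD
      have hN3 := (hπp.dvd_or_dvd g2).resolve_right hN4
      have : π ∣ N4 * D3 := (dvd_add_right (hD.mul_left _)).1 g1
      have hD3 := (hπp.dvd_or_dvd this).resolve_left hN4
      exact k3 hN3 hD3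
  obtain ⟨μ, hμ⟩ := hunit
  refine ⟨μ, by rw [hμ]; exact f0, by rw [hμ]; exact f1, by rw [hμ]; exact f2, ?_⟩
  refine (coprime_of_sym N3 D3 N4 D4 ⟨(μ⁻¹ : Rˣ) * a, (μ⁻¹ : Rˣ) * b, (μ⁻¹ : Rˣ) * c, ?_⟩).2
  have : ((μ⁻¹ : Rˣ) : R) * μ0 = 1 := by rw [← hμ]; exact μ.inv_mul
  rw [hμ0] at this
  linear_combination this

end Pool.Agent.H.MP_7425ae_nt
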