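import Pool.Agent.H.MP_7425ae_nt.HtPar

/-! Heights: points of the twisted curve `y^2 = x^3 + A f^2 x + B f^3` over the field of fractions
of `O[X]`, `f = X^3 + A X + B`. -/

set_option autoImplicit false

open Polynomial

namespace Pool.Agent.H.MP_7425ae_nt

/-- the function field -/
abbrev FF (O : Type) [CommRing O] [IsDomain O] : Type := FractionRing O[X]

noncomputable instance decFF (O : Type) [CommRing O] [IsDomain O] : DecidableEq (FF O) :=
  Classical.decEq _

/-- the inclusion of the polynomials -/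
noncomputable def pf {O : Type} [CommRing O] [IsDomain O] : O[X] →+* FF O :=
  algebraMap O[X] (FF O)

/-- `f = X^3 + A X + B` -/
noncomputable def fX {O : Type} [CommRing O] (A B : O) : O[X] := X ^ 3 + C A * X + C B

/-- the points of `y^2 = x^3 + A f^2 x + B f^3` -/
abbrev PtE {O : Type} [CommRing O] [IsDomain O] (A B : O) : Type :=
  (Esw (pf (C A) * pf (fX A B) ^ 2) (pf (C B) * pf (fX A B) ^ 3)).toAffine.Point

/-- `x(P)/f = N/D` with `N` monic of degree `h`, `deg D < deg N`, `(N, D)` coprime in `O[X]` -/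
def Good {O : Type} [CommRing O] [IsDomain O] (A B : O) (P : PtE A B) (h : ℕ) : Prop :=
  ∃ N D : O[X], N.Monic ∧ N.natDegree = h ∧ D.degree < N.degree ∧ IsCoprime N D ∧
    XRep (pf (fX A B)) P (pf N) (pf D)

variable {O : Type} [CommRing O] [IsDomain O]

theorem fX_ne_zero (A B : O) : fX A B ≠ 0 := by
  intro h
  have h1 := congrArg (fun p => p.coeff 3) h
  simp [fX] at h1

private theorem htdef_pf_inj : Function.Injective (pf : O[X] →+* FF O) :=
  IsFractionRing.injective O[X] (FF O)

theorem Good.zero (A B : O) : Good A B (0 : PtE A B) 0 := by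
  refine ⟨1, 0, monic_one, natDegree_one, ?_, isCoprime_one_left, ?_⟩
  · rw [degree_zero, degree_one]
    exact WithBot.bot_lt_coe 0
  · show pf 0 = 0 ∧ pf 1 ≠ 0
    simp

theorem Good.neg {A B : O} {P : PtE A B} {h : ℕ} (hP : Good A B P h) : Good A B (-P) h := by
  obtain ⟨N, D, h1, h2, h3, h4, h5⟩ := hP
  refine ⟨N, D, h1, h2, h3, h4, ?_⟩
  cases P with
  | zero => exact h5
  | some x y e => exact h5

private theorem htdef_unit {N D : O[X]} (hD : D = 0) (hc : IsCoprime N D) : N.natDegree = 0 := by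
  rw [hD, isCoprime_zero_right] at hc
  exact natDegree_eq_zero_of_isUnit hc

/-- the degree is determined by the point -/
theorem Good.unique {A B : O} {P : PtE A B} {h h' : ℕ} (hP : Good A B P h)
    (hP' : Good A B P h') : h = h' := by
  obtain ⟨N, D, h1, h2, h3, h4, h5⟩ := hP
  obtain ⟨N', D', h1', h2', h3', h4', h5'⟩ := hP'
  cases P with
  | zero =>
    have e1 : pf D = 0 := h5.1
    have e1' : pf D' = 0 := h5'.1
    have f1 : D = 0 := htdef_pf_inj (by rw [e1, map_zero])
    have f1' : D' = 0 := htdef_pf_inj (by rw [e1', map_zero])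
    rw [← h2, ← h2', htdef_unit f1 h4, htdef_unit f1' h4']
  | some x y e =>
    have e1 : x * pf D = pf (fX A B) * pf N := h5.2
    have e1' : x * pf D' = pf (fX A B) * pf N' := h5'.2
    have hf : pf (fX A B) ≠ 0 := by
      intro h0
      exact fX_ne_zero A B (htdef_pf_inj (by rw [h0, map_zero]))
    have e2 : pf (N * D') = pf (N' * D) := by
      rw [map_mul, map_mul]
      apply mul_left_cancel₀ hf
      linear_combination (pf D) * e1' - (pf D') * e1
    have e3 : N * D' = N' * D := htdef_pf_inj e2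
    have d1 : N ∣ N' := h4.dvd_of_dvd_mul_right ⟨D', e3.symm⟩
    have d2 : N' ∣ N := h4'.dvd_of_dvd_mul_right ⟨D, e3⟩
    rw [← h2, ← h2']
    exact le_antisymm (natDegree_le_of_dvd d1 h1'.ne_zero) (natDegree_le_of_dvd d2 h1.ne_zero)

/-- a good point of positive degree is affine with `y ≠ 0` -/
theorem Good.affine {A B : O} {P : PtE A B} {h : ℕ} (hP : Good A B P h) (hh : 0 < h) :
    ∃ (x y : FF O) (e : _), P = WeierstrassCurve.Affine.Point.some x y e ∧ y ≠ 0 := by
  obtain ⟨N, D, h1, h2, h3, h4, h5⟩ := hP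
  cases P with
  | zero =>
    exfalso
    have e1 : pf D = 0 := h5.1
    have f1 : D = 0 := htdef_pf_inj (by rw [e1, map_zero])
    have := htdef_unit f1 h4
    omega
  | some x y e =>
    refine ⟨x, y, e, rfl, ?_⟩
    intro hy
    have e1 : x * pf D = pf (fX A B) * pf N := h5.2
    have hf : pf (fX A B) ≠ 0 := by
      intro h0
      exact fX_ne_zero A B (htdef_pf_inj (by rw [h0, map_zero]))
    have e2 := (WeierstrassCurve.Affine.equation_iff _ _).1 e.1
    rw [hy] at e2
    simp only [Esw] at e2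
    have e3 : pf (N ^ 3 + C A * N * D ^ 2 + C B * D ^ 3) = 0 := by
      simp only [map_add, map_mul, map_pow]
      apply mul_left_cancel₀ (pow_ne_zero 3 hf)
      have hx : x ^ 3 * pf D ^ 3 = pf (fX A B) ^ 3 * pf N ^ 3 := by
        rw [← mul_pow, e1, mul_pow]
      linear_combination (-(pf D) ^ 3) * e2 - hx
        - pf (C A) * pf (fX A B) ^ 2 * pf D ^ 2 * e1
    have e4 : N ^ 3 + C A * N * D ^ 2 + C B * D ^ 3 = 0 :=
      htdef_pf_inj (by rw [e3, map_zero])
    have hd : D ∣ N ^ 3 := ⟨-(C A * N * D + C B * D ^ 2), by linear_combination e4⟩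
    have hu : IsUnit D := (h4.pow_left (m := 3)).symm.isUnit_of_dvd' dvd_rfl hd
    obtain ⟨d, hd1, hd2⟩ := Polynomial.isUnit_iff.1 hu
    have e5 : N ^ 3 = -(C (A * d ^ 2) * N + C (B * d ^ 3)) := by
      simp only [C_mul, C_pow]
      rw [hd2]
      linear_combination e4
    have e6 : (N ^ 3).natDegree = 3 * h := by
      rw [h1.natDegree_pow, h2]
    have e7 : (N ^ 3).natDegree ≤ h := by
      rw [e5, natDegree_neg]
      refine (natDegree_add_le _ _).trans ?_
      rw [natDegree_C]
      refine max_le ((natDegree_C_mul_le _ _).trans h2.le) (Nat.zero_le _)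
    omega

end Pool.Agent.H.MP_7425ae_nt
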