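import Pool.Agent.H.MP_7425ae_nt.HtPar
import Pool.Agent.H.MP_7425ae_nt.Der

/-! Heights: the invariant differential on `y^2 = x^3 + A f^2 x + B f^3`. -/

set_option autoImplicit false

open Polynomial

namespace Pool.Agent.H.MP_7425ae_nt

variable {K : Type} [Field K] [DecidableEq K]

/-- `P = (x, y)`, `y ≠ 0` and `f δx - x δf = g y` (that is `δ(x/f) = g (y/f^2)`) -/
def Gam (δ : K → K) (f : K) {a4 a6 : K} (P : (Esw a4 a6).toAffine.Point) (g : K) : Prop :=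
  ∃ (x y : K) (e : _), P = WeierstrassCurve.Affine.Point.some x y e ∧ y ≠ 0 ∧
    f * δ x - x * δ f = g * y

theorem htder_negY (a4 a6 x y : K) : (Esw a4 a6).toAffine.negY x y = -y := by
  simp [WeierstrassCurve.Affine.negY, Esw]

theorem htder_addX (a4 a6 x1 x2 l : K) :
    (Esw a4 a6).toAffine.addX x1 x2 l = l ^ 2 - x1 - x2 := by
  simp [WeierstrassCurve.Affine.addX, Esw]

theorem htder_addY (a4 a6 x1 x2 y1 l : K) :
    (Esw a4 a6).toAffine.addY x1 x2 y1 l = l * (x1 - (l ^ 2 - x1 - x2)) - y1 := by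
  rw [WeierstrassCurve.Affine.addY, htder_negY, WeierstrassCurve.Affine.negAddY, htder_addX]
  ring

theorem htder_eq {a4 a6 x y : K} (e : (Esw a4 a6).toAffine.Nonsingular x y) :
    y ^ 2 = x ^ 3 + a4 * x + a6 := by
  have h := (WeierstrassCurve.Affine.equation_iff x y).1 e.1
  simpa [Esw] using h

theorem Gam.neg {δ : K → K} {f : K} {a4 a6 : K} {P : (Esw a4 a6).toAffine.Point} {g : K}
    (h : Gam δ f P g) : Gam δ f (-P) (-g) := by
  obtain ⟨x, y, e, rfl, hy, hg⟩ := h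
  refine ⟨x, (Esw a4 a6).toAffine.negY x y,
    (WeierstrassCurve.Affine.nonsingular_neg x y).2 e,
    WeierstrassCurve.Affine.Point.neg_some e, ?_, ?_⟩
  · rw [htder_negY]
    exact neg_ne_zero.2 hy
  · rw [htder_negY, hg]
    ring

/-- differentiating the equation -/
theorem htder_D {δ : K → K} (hδ : IsDer δ) (f A B : K)
    (hA : δ A = 0) (hB : δ B = 0) {x y g : K} (hy : y ≠ 0)
    (he : y ^ 2 = x ^ 3 + A * f ^ 2 * x + B * f ^ 3) (hg : f * δ x - x * δ f = g * y) :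
    2 * f * δ y = (3 * x ^ 2 + A * f ^ 2) * g + 3 * δ f * y := by
  have h1 : δ (y ^ 2) = δ (x ^ 3 + A * f ^ 2 * x + B * f ^ 3) := by rw [he]
  have e2 : ∀ a : K, δ (a ^ 2) = 2 * a * δ a := by
    intro a
    rw [pow_two, hδ.mul]
    ring
  have e3 : ∀ a : K, δ (a ^ 3) = 3 * a ^ 2 * δ a := by
    intro a
    rw [show a ^ 3 = a * a ^ 2 by ring, hδ.mul, e2]
    ring
  rw [hδ.add, hδ.add, hδ.mul (A * f ^ 2) x, hδ.mul A, hδ.mul B, e2, e2, e3, e3, hA, hB] at h1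
  apply mul_left_cancel₀ hy
  linear_combination f * h1 + (3 * x ^ 2 + A * f ^ 2) * hg - 3 * δ f * he

/-- additivity, the chord case -/
theorem Gam.add {δ : K → K} (hδ : IsDer δ) (f A B : K) (hf : f ≠ 0) (h2 : (2 : K) ≠ 0)
    (hA : δ A = 0) (hB : δ B = 0) {P Q : (Esw (A * f ^ 2) (B * f ^ 3)).toAffine.Point} {g g' : K}
    (hP : Gam δ f P g) (hQ : Gam δ f Q g') (h1 : P ≠ Q) (h3 : P ≠ -Q)
    (h4 : ∃ (x y : K) (e : _), P + Q = WeierstrassCurve.Affine.Point.some x y e ∧ y ≠ 0) :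
    Gam δ f (P + Q) (g + g') := by
  obtain ⟨x1, y1, e1, rfl, hy1, hg1⟩ := hP
  obtain ⟨x2, y2, e2, rfl, hy2, hg2⟩ := hQ
  obtain ⟨x3, y3, e3, h4, hy3⟩ := h4
  have hx : x1 ≠ x2 := by
    intro hx
    rcases WeierstrassCurve.Affine.Point.X_eq_iff.1 hx with h | h
    · exact h1 h
    · exact h3 h
  have hD : x1 - x2 ≠ 0 := sub_ne_zero.2 hx
  have q1 := htder_eq e1
  have q2 := htder_eq e2
  have D1 := htder_D hδ f A B hA hB hy1 q1 hg1
  have D2 := htder_D hδ f A B hA hB hy2 q2 hg2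
  obtain ⟨l, hl⟩ : ∃ l : K, l = (Esw (A * f ^ 2) (B * f ^ 3)).toAffine.slope x1 x2 y1 y2 :=
    ⟨_, rfl⟩
  have hl1 : l * (x1 - x2) = y1 - y2 := by
    rw [hl, WeierstrassCurve.Affine.slope_of_X_ne hx, div_mul_cancel₀ _ hD]
  have h5 := h4
  rw [WeierstrassCurve.Affine.Point.add_of_X_ne hx,
    WeierstrassCurve.Affine.Point.some.injEq, htder_addX, htder_addY, ← hl] at h5
  obtain ⟨hx3, hy3'⟩ := h5
  have hdl : δ l * (x1 - x2) + l * (δ x1 - δ x2) = δ y1 - δ y2 := by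
    have h := congrArg δ hl1
    rw [hδ.mul, hδ.sub, hδ.sub] at h
    linear_combination h
  have hS : l * (y1 + y2) = x1 ^ 2 + x1 * x2 + x2 ^ 2 + A * f ^ 2 := by
    apply mul_left_cancel₀ hD
    linear_combination (y1 + y2) * hl1 + q1 - q2
  have hdx : δ x3 = 2 * l * δ l - δ x1 - δ x2 := by
    rw [← hx3, hδ.sub, hδ.sub, pow_two, hδ.mul]
    ring
  refine ⟨x3, y3, e3, h4, hy3, ?_⟩
  apply mul_left_cancel₀ hD
  rw [hdx, ← hx3, ← hy3']
  linear_combination (2 * f * l) * hdl + l * D1 - l * D2 - 2 * l ^ 2 * hg1 + 2 * l ^ 2 * hg2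
    - (x1 - x2) * hg1 - (x1 - x2) * hg2 - 3 * l * δ f * hl1 - l * g * hS + l ^ 2 * g * hl1
    + l * g' * hS + (l ^ 2 - (x1 - x2)) * g' * hl1

/-- additivity, the tangent case -/
theorem Gam.dbl {δ : K → K} (hδ : IsDer δ) (f A B : K) (hf : f ≠ 0) (h2 : (2 : K) ≠ 0)
    (hA : δ A = 0) (hB : δ B = 0) {P : (Esw (A * f ^ 2) (B * f ^ 3)).toAffine.Point} {g : K}
    (hP : Gam δ f P g)
    (h4 : ∃ (x y : K) (e : _), P + P = WeierstrassCurve.Affine.Point.some x y e ∧ y ≠ 0) :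
    Gam δ f (P + P) (g + g) := by
  obtain ⟨x, y, e, rfl, hy, hg⟩ := hP
  obtain ⟨x3, y3, e3, h4, hy3⟩ := h4
  have q := htder_eq e
  have D := htder_D hδ f A B hA hB hy q hg
  have hyn : y ≠ (Esw (A * f ^ 2) (B * f ^ 3)).toAffine.negY x y := by
    rw [htder_negY]
    intro h
    have h5 : 2 * y = 0 := by linear_combination h
    rcases mul_eq_zero.1 h5 with h6 | h6
    · exact h2 h6
    · exact hy h6
  obtain ⟨l, hl⟩ : ∃ l : K, l = (Esw (A * f ^ 2) (B * f ^ 3)).toAffine.slope x x y y :=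
    ⟨_, rfl⟩
  have h2y : (2 : K) * y ≠ 0 := mul_ne_zero h2 hy
  have hl1 : 2 * y * l = 3 * x ^ 2 + A * f ^ 2 := by
    rw [hl, WeierstrassCurve.Affine.slope_of_Y_ne rfl hyn, htder_negY]
    have h6 : y - -y = 2 * y := by ring
    rw [h6, mul_div_cancel₀ _ h2y]
    simp [Esw]
  have h5 := h4
  rw [WeierstrassCurve.Affine.Point.add_self_of_Y_ne hyn,
    WeierstrassCurve.Affine.Point.some.injEq, htder_addX, htder_addY, ← hl] at h5
  obtain ⟨hx3, hy3'⟩ := h5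
  have hδ2 : δ 2 = 0 := by
    have := hδ.natCast 2
    simpa using this
  have hδ3 : δ 3 = 0 := by
    have := hδ.natCast 3
    simpa using this
  have hdl : 2 * y * δ l + 2 * δ y * l = 6 * x * δ x + 2 * A * f * δ f := by
    have h := congrArg δ hl1
    rw [hδ.mul, hδ.mul, hδ.add, hδ.mul, hδ.mul, hδ2, hδ3, hA, pow_two, pow_two, hδ.mul,
      hδ.mul] at h
    linear_combination h
  have hdx : δ x3 = 2 * l * δ l - δ x - δ x := by
    rw [← hx3, hδ.sub, hδ.sub, pow_two, hδ.mul]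
    ring
  refine ⟨x3, y3, e3, h4, hy3, ?_⟩
  apply mul_left_cancel₀ hy
  rw [hdx, ← hx3, ← hy3']
  linear_combination (f * l) * hdl + 6 * x * l * hg - l ^ 2 * D - 2 * y * hg
    - 2 * l * δ f * hl1 + l ^ 2 * g * hl1

end Pool.Agent.H.MP_7425ae_nt
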