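import Mathlib

/-! The endomorphism `β` of `y^2 = x^3 - 608 x + 5776`, `β^2 = β - 5`: polynomial identities. -/

set_option autoImplicit false

open Polynomial

namespace Pool.Agent.H.MP_7425ae_nt

variable {O : Type} [CommRing O]

/-- the numerator of `x ∘ β` -/
noncomputable def Nb (β : O) : O[X] :=
  X ^ 5 + C (-80 + 8 * β) * X ^ 4 + C (4560 - 1520 * β) * X ^ 3
    + C (-121600 + 58368 * β) * X ^ 2 + C (1386240 - 831744 * β) * X
    + C (-5544960 + 4066304 * β)

/-- the denominator of `x ∘ β` is the square of -/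
noncomputable def psb (β : O) : O[X] :=
  C β * X ^ 2 + C (-20 - 36 * β) * X + C (304 + 304 * β)

/-- the numerator of `y ∘ β` -/
noncomputable def Mb (β : O) : O[X] :=
  X ^ 6 + C (-120 + 12 * β) * X ^ 5 + C 3344 * X ^ 4 + C (-15808 - 14592 * β) * X ^ 3
    + C (-554496 + 277248 * β) * X ^ 2 + C (7762944 - 1478656 * β) * X + C (-28094464)

theorem htisoa_b {β : O} (hβ : β ^ 2 = β - 5) : (C β : O[X]) ^ 2 = C β - 5 := by
  rw [← C_pow, hβ, C_sub, map_ofNat]

theorem iso_curve {β : O} (hβ : β ^ 2 = β - 5) :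
    (X ^ 3 + C (-608) * X + C 5776) * Mb β ^ 2
      = Nb β ^ 3 + C (-608) * Nb β * psb β ^ 4 + C 5776 * psb β ^ 6 := by
  have hb := htisoa_b hβ
  unfold Nb psb Mb
  simp only [map_add, map_sub, map_mul, map_neg, map_ofNat, map_one, map_pow]
  generalize (C β : O[X]) = b at hb ⊢
  linear_combination
    ((28338987972987715584) + (-22858096359673692160) * X + (8081340719018541056) * X ^ 2
      + (-1671303267319021568) * X ^ 3 + (227029412704419840) * X ^ 4
      + (-21557201380311040) * X ^ 5 + (1490093226721280) * X ^ 6 + (-77434233749504) * X ^ 7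
      + (3110915330048) * X ^ 8 + (-98214316032) * X ^ 9 + (2401210880) * X ^ 10
      + (-42560000) * X ^ 11 + (476624) * X ^ 12 + (-2480) * X ^ 13
      + (-93629793597028040704) * b + (61881034343868006400) * b * X
      + (-18472917798087557120) * b * X ^ 2 + (3291036455190659072) * b * X ^ 3
      + (-389634912850804736) * b * X ^ 4 + (32336096949960704) * b * X ^ 5
      + (-1937160160280576) * b * X ^ 6 + (85272825790464) * b * X ^ 7
      + (-2795238305792) * b * X ^ 8 + (69050122240) * b * X ^ 9 + (-1288775168) * b * X ^ 10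
      + (17527424) * b * X ^ 11 + (-152816) * b * X ^ 12 + (608) * b * X ^ 13
      + (-719840603591933952) * b ^ 2 + (107344651412832256) * b ^ 2 * X
      + (40586580661895168) * b ^ 2 * X ^ 2 + (-10863245489340416) * b ^ 2 * X ^ 3
      + (101848500404224) * b ^ 2 * X ^ 4 + (294911858966528) * b ^ 2 * X ^ 5
      + (-55276538101760) * b ^ 2 * X ^ 6 + (5453721010176) * b ^ 2 * X ^ 7
      + (-346506145792) * b ^ 2 * X ^ 8 + (15023183872) * b ^ 2 * X ^ 9
      + (-448348928) * b ^ 2 * X ^ 10 + (8932736) * b ^ 2 * X ^ 11 + (-108224) * b ^ 2 * X ^ 12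
      + (608) * b ^ 2 * X ^ 13 + (-10797609053879009280) * b ^ 3
      + (6914258429238312960) * b ^ 3 * X + (-1996967777889419264) * b ^ 3 * X ^ 2
      + (343369075398803456) * b ^ 3 * X ^ 3 + (-39062672204890112) * b ^ 3 * X ^ 4
      + (3089182753292288) * b ^ 3 * X ^ 5 + (-173550327889920) * b ^ 3 * X ^ 6
      + (6948358324224) * b ^ 3 * X ^ 7 + (-195612803072) * b ^ 3 * X ^ 8
      + (3746330624) * b ^ 3 * X ^ 9 + (-45814016) * b ^ 3 * X ^ 10 + (316160) * b ^ 3 * X ^ 11
      + (-912) * b ^ 3 * X ^ 12 + (-4558990489415581696) * b ^ 4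
      + (3239282716163702784) * b ^ 4 * X + (-1048978247997456384) * b ^ 4 * X ^ 2
      + (204698440339292160) * b ^ 4 * X ^ 3 + (-26806919438008320) * b ^ 4 * X ^ 4
      + (2481831685914624) * b ^ 4 * X ^ 5 + (-166557728178176) * b ^ 4 * X ^ 6
      + (8163920019456) * b ^ 4 * X ^ 7 + (-290067947520) * b ^ 4 * X ^ 8
      + (7286077440) * b ^ 4 * X ^ 9 + (-122820864) * b ^ 4 * X ^ 10
      + (1247616) * b ^ 4 * X ^ 11 + (-5776) * b ^ 4 * X ^ 12) * hb

theorem iso_deriv {β : O} (hβ : β ^ 2 = β - 5) :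
    derivative (Nb β) * psb β - 2 * Nb β * derivative (psb β) = C β * Mb β := by
  have hb := htisoa_b hβ
  unfold Nb psb Mb
  simp only [derivative_add, derivative_mul, derivative_X_pow, derivative_C, derivative_X,
    zero_mul, zero_add, mul_one, mul_zero, add_zero, Nat.cast_ofNat, Nat.reduceSub]
  simp only [map_add, map_sub, map_mul, map_neg, map_ofNat, map_one, map_pow]
  generalize (C β : O[X]) = b at hb ⊢
  linear_combination
    ((39923712) + (-9241600) * X + (831744) * X ^ 2 + (-37696) * X ^ 3 + (944) * X ^ 4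
      + (-12) * X ^ 5) * hb

theorem iso_bezout {β : O} (hβ : β ^ 2 = β - 5) :
    (C (-460 - 543 * β) + C (25 * β) * X) * Nb β
      + (C (-10258176 + 6884992 * β) + C (1775360 - 934192 * β) * X
        + C (-90440 + 34732 * β) * X ^ 2 + C (1635 - 192 * β) * X ^ 3 + C (-25) * X ^ 4) * psb β
      = C (2 ^ 10 * 19 ^ 3) := by
  have hb := htisoa_b hβ
  unfold Nb psb
  simp only [map_add, map_sub, map_mul, map_neg, map_ofNat, map_one, map_pow]
  generalize (C β : O[X]) = b at hb ⊢
  linear_combination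
    ((-114965504) + (21440512) * X + (-1412992) * X ^ 2 + (41648) * X ^ 3 + (-700) * X ^ 4
      + (8) * X ^ 5) * hb

theorem iso_coprime {β : O} (hβ : β ^ 2 = β - 5) (h2 : IsUnit (2 : O)) (h19 : IsUnit (19 : O)) :
    IsCoprime (Nb β) (psb β ^ 2) := by
  have h := iso_bezout hβ
  have hu : IsUnit ((2 : O) ^ 10 * 19 ^ 3) := (h2.pow 10).mul (h19.pow 3)
  obtain ⟨c, hc⟩ := hu.exists_right_inv
  have hcop : IsCoprime (Nb β) (psb β) := by
    refine ⟨C c * (C (-460 - 543 * β) + C (25 * β) * X), C c * (C (-10258176 + 6884992 * β)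
      + C (1775360 - 934192 * β) * X + C (-90440 + 34732 * β) * X ^ 2
      + C (1635 - 192 * β) * X ^ 3 + C (-25) * X ^ 4), ?_⟩
    rw [mul_assoc, mul_assoc, ← mul_add, h, ← C_mul, mul_comm c, hc, C_1]
  exact hcop.pow_right

theorem iso_monic (β : O) : (Nb β).Monic ∧ ∀ _ : Nontrivial O, (Nb β).natDegree = 5 := by
  constructor
  · unfold Nb
    monicity!
  · intro _
    unfold Nb
    compute_degree!

end Pool.Agent.H.MP_7425ae_nt
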