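import Pool.Agent.H.MP_7425ae_nt.HtIsoC
import Pool.Agent.H.MP_7425ae_nt.HtDef
import Pool.Agent.H.MP_7425ae_nt.HtDer

/-! The points `1` and `β` of the twisted curve. -/

set_option autoImplicit false

open Polynomial

namespace Pool.Agent.H.MP_7425ae_nt

section field

variable {K : Type} [Field K]

theorem htisob_eq {F X N M s c d : K} (hs : s ≠ 0) (hF : F = X ^ 3 + c * X + d)
    (h : (X ^ 3 + c * X + d) * M ^ 2 = N ^ 3 + c * N * s ^ 4 + d * s ^ 6) :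
    (F ^ 2 * M / s ^ 3) ^ 2 = (F * N / s ^ 2) ^ 3 + (c * F ^ 2) * (F * N / s ^ 2) + d * F ^ 3 := by
  rw [← hF] at h
  have e1 : (F ^ 2 * M / s ^ 3) ^ 2 = F ^ 3 * (F * M ^ 2) / s ^ 6 := by
    field_simp
  rw [e1, h]
  field_simp

theorem htisob_ns {a4 a6 x y : K} (h2 : (2 : K) ≠ 0) (hy : y ≠ 0)
    (h : y ^ 2 = x ^ 3 + a4 * x + a6) : (Esw a4 a6).toAffine.Nonsingular x y := by
  rw [WeierstrassCurve.Affine.nonsingular_iff', WeierstrassCurve.Affine.equation_iff]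
  have e1 : (Esw a4 a6).toAffine.a₁ = 0 := rfl
  have e2 : (Esw a4 a6).toAffine.a₂ = 0 := rfl
  have e3 : (Esw a4 a6).toAffine.a₃ = 0 := rfl
  have e4 : (Esw a4 a6).toAffine.a₄ = a4 := rfl
  have e6 : (Esw a4 a6).toAffine.a₆ = a6 := rfl
  rw [e1, e2, e3, e4, e6]
  refine ⟨by linear_combination h, Or.inr ?_⟩
  rw [zero_mul, add_zero, add_zero]
  exact mul_ne_zero h2 hy

theorem htisob_xne {F N1 N2 s1 s2 b H : K} (hF : F ≠ 0) (hs1 : s1 ≠ 0) (hs2 : s2 ≠ 0)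
    (hb : b ≠ 0) (hH : H ≠ 0) (h : N1 * s2 ^ 2 - N2 * s1 ^ 2 = b * H) :
    F * N1 / s1 ^ 2 ≠ F * N2 / s2 ^ 2 := by
  intro he
  rw [div_eq_div_iff (pow_ne_zero _ hs1) (pow_ne_zero _ hs2)] at he
  have h1 : F * (b * H) = 0 := by
    rw [← h]
    linear_combination he
  exact mul_ne_zero hF (mul_ne_zero hb hH) h1

theorem htisob_slope {F N1 N2 M1 M2 s1 s2 b H G L : K} (hF : F ≠ 0) (hs1 : s1 ≠ 0)
    (hs2 : s2 ≠ 0) (hb : b ≠ 0) (hH : H ≠ 0) (hL : s1 * s2 = L)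
    (h : N1 * s2 ^ 2 - N2 * s1 ^ 2 = b * H) (hG : M1 * s2 ^ 3 - M2 * s1 ^ 3 = b * G) :
    (F ^ 2 * M1 / s1 ^ 3 - F ^ 2 * M2 / s2 ^ 3) / (F * N1 / s1 ^ 2 - F * N2 / s2 ^ 2)
      = F * G / (L * H) := by
  subst hL
  have e1 : F ^ 2 * M1 / s1 ^ 3 - F ^ 2 * M2 / s2 ^ 3 = F ^ 2 * (b * G) / (s1 * s2) ^ 3 := by
    rw [← hG]
    field_simp
  have e2 : F * N1 / s1 ^ 2 - F * N2 / s2 ^ 2 = F * (b * H) / (s1 * s2) ^ 2 := by
    rw [← h]
    field_simp
  rw [e1, e2]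
  field_simp

theorem htisob_addX {F N1 N2 s1 s2 H G L Kk X c d : K} (hs1 : s1 ≠ 0)
    (hs2 : s2 ≠ 0) (hH : H ≠ 0) (hL : s1 * s2 = L) (hF : F = X ^ 3 + c * X + d)
    (hK : N1 * s2 ^ 2 + N2 * s1 ^ 2 = Kk)
    (hx : (X ^ 3 + c * X + d) * G ^ 2 = (X * L ^ 2 + Kk) * H ^ 2) :
    (F * G / (L * H)) ^ 2 - F * N1 / s1 ^ 2 - F * N2 / s2 ^ 2 = F * X := by
  rw [← hF] at hx
  have hL0 : L ≠ 0 := by
    rw [← hL]
    exact mul_ne_zero hs1 hs2
  have e1 : (F * G / (L * H)) ^ 2 = F * (F * G ^ 2) / (L ^ 2 * H ^ 2) := by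
    field_simp
  have e2 : F * N1 / s1 ^ 2 + F * N2 / s2 ^ 2 = F * Kk / L ^ 2 := by
    rw [← hK, ← hL]
    field_simp
  have e3 : F * ((X * L ^ 2 + Kk) * H ^ 2) / (L ^ 2 * H ^ 2) = F * X + F * Kk / L ^ 2 := by
    field_simp
  rw [sub_sub, e1, e2, hx, e3]
  ring

theorem htisob_addY {F N1 M1 s1 s2 H G L X : K} (hs1 : s1 ≠ 0)
    (hs2 : s2 ≠ 0) (hH : H ≠ 0) (hL : s1 * s2 = L)
    (hy : s2 * H * (s1 ^ 3 + M1) + G * (X * s1 ^ 2 - N1) = 0) :
    -((F * G / (L * H)) * (F * X - F * N1 / s1 ^ 2) + F ^ 2 * M1 / s1 ^ 3) = F ^ 2 := by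
  subst hL
  have e1 : -((F * G / (s1 * s2 * H)) * (F * X - F * N1 / s1 ^ 2) + F ^ 2 * M1 / s1 ^ 3)
      = F ^ 2 * (-(G * (X * s1 ^ 2 - N1)) - s2 * H * M1) / (s1 ^ 3 * s2 * H) := by
    field_simp
    ring
  rw [e1, div_eq_iff (mul_ne_zero (mul_ne_zero (pow_ne_zero _ hs1) hs2) hH)]
  linear_combination (-F ^ 2) * hy

theorem htisob_gam {δ : K → K} (hδ : IsDer δ) {F N M s N' s' β : K} (hs : s ≠ 0)
    (hN : δ N = N') (hs' : δ s = s') (h : N' * s - 2 * N * s' = β * M) :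
    F * δ (F * N / s ^ 2) - (F * N / s ^ 2) * δ F = β * (F ^ 2 * M / s ^ 3) := by
  have hx : (F * N / s ^ 2) * (s * s) = F * N := by
    field_simp
  have h1 := congrArg δ hx
  rw [hδ.mul, hδ.mul, hδ.mul, hN, hs'] at h1
  have hs3 : s ^ 3 ≠ 0 := pow_ne_zero _ hs
  have e1 : β * (F ^ 2 * M / s ^ 3) = F ^ 2 * (β * M) / s ^ 3 := by ring
  rw [e1, eq_div_iff hs3, ← h]
  have h2 : (F * N / s ^ 2) * s ^ 3 = F * N * s := by
    field_simp
  have h3 : (F * N / s ^ 2) * s * s = F * N := by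
    rw [mul_assoc]
    exact hx
  generalize hg : F * N / s ^ 2 = x at *
  linear_combination (F * s) * h1 - (δ F) * h2 + (-2 * F * s') * h3
end field

variable {O : Type} [CommRing O] [IsDomain O]

theorem htisob_pf_ne {P : O[X]} (hP : P ≠ 0) : pf P ≠ 0 := by
  intro h
  apply hP
  exact (map_eq_zero_iff (pf : O[X] →+* FF O) (IsFractionRing.injective O[X] (FF O))).1 h

theorem htisob_304 (h2 : IsUnit (2 : O)) (h19 : IsUnit (19 : O)) : (304 : O) ≠ 0 := by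
  have e : (304 : O) = 2 ^ 4 * 19 := by norm_num
  rw [e]
  exact mul_ne_zero (pow_ne_zero _ h2.ne_zero) h19.ne_zero

theorem psb_ne_zero {β : O} (hβ : β ^ 2 = β - 5) (h2 : IsUnit (2 : O)) (h19 : IsUnit (19 : O)) :
    psb β ≠ 0 := by
  intro h
  have c2 : (psb β).coeff 2 = β := by
    unfold psb
    simp
  have c0 : (psb β).coeff 0 = 304 + 304 * β := by
    unfold psb
    simp
  rw [h, coeff_zero] at c2 c0
  rw [← c2, mul_zero, add_zero] at c0
  exact htisob_304 h2 h19 c0.symm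

theorem htisob_fX : pf (fX (-608 : O) 5776)
    = pf X ^ 3 + pf (C (-608 : O)) * pf X + pf (C (5776 : O)) := by
  unfold fX
  rw [map_add, map_add, map_mul, map_pow]

theorem htisob_fne : pf (fX (-608 : O) 5776) ≠ 0 := htisob_pf_ne (fX_ne_zero _ _)

theorem htisob_two (h2 : IsUnit (2 : O)) : (2 : FF O) ≠ 0 := by
  have h : pf (C (2 : O)) ≠ 0 := htisob_pf_ne (by
    rw [Ne, C_eq_zero]
    exact h2.ne_zero)
  have e : pf (C (2 : O)) = 2 := by
    rw [map_ofNat C 2, map_ofNat]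
  rwa [e] at h

theorem htisob_Mb (β : O) : Mb β ≠ 0 := by
  intro h
  have c6 : (Mb β).coeff 6 = 1 := by
    unfold Mb
    simp only [coeff_add, coeff_C_mul, coeff_X_pow, coeff_X, coeff_C]
    norm_num
  rw [h, coeff_zero] at c6
  exact zero_ne_one c6

theorem iso_nonsingular {β : O} (hβ : β ^ 2 = β - 5) (h2 : IsUnit (2 : O))
    (h19 : IsUnit (19 : O)) :
    (Esw (pf (C (-608 : O)) * pf (fX (-608 : O) 5776) ^ 2)
      (pf (C (5776 : O)) * pf (fX (-608 : O) 5776) ^ 3)).toAffine.Nonsingular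
      (pf (fX (-608 : O) 5776) * pf (Nb β) / pf (psb β) ^ 2)
      (pf (fX (-608 : O) 5776) ^ 2 * pf (Mb β) / pf (psb β) ^ 3) := by
  have hs : pf (psb β) ≠ 0 := htisob_pf_ne (psb_ne_zero hβ h2 h19)
  have hM : pf (Mb β) ≠ 0 := htisob_pf_ne (htisob_Mb β)
  refine htisob_ns (htisob_two h2)
    (div_ne_zero (mul_ne_zero (pow_ne_zero _ htisob_fne) hM) (pow_ne_zero _ hs)) ?_
  refine htisob_eq hs htisob_fX ?_
  have h := congrArg (pf : O[X] →+* FF O) (iso_curve hβ)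
  rw [map_mul, map_add, map_add, map_add, map_add, map_mul, map_mul, map_mul, map_mul, map_pow,
    map_pow, map_pow, map_pow, map_pow] at h
  exact h

theorem one_nonsingular (h2 : IsUnit (2 : O)) :
    (Esw (pf (C (-608 : O)) * pf (fX (-608 : O) 5776) ^ 2)
      (pf (C (5776 : O)) * pf (fX (-608 : O) 5776) ^ 3)).toAffine.Nonsingular
      (pf (fX (-608 : O) 5776) * pf X) (pf (fX (-608 : O) 5776) ^ 2) := by
  refine htisob_ns (htisob_two h2) (pow_ne_zero _ htisob_fne) ?_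
  linear_combination (pf (fX (-608 : O) 5776)) ^ 3 * htisob_fX (O := O)

/-- the point `β` -/
noncomputable def Pb {β : O} (hβ : β ^ 2 = β - 5) (h2 : IsUnit (2 : O)) (h19 : IsUnit (19 : O)) :
    PtE (-608 : O) (5776 : O) :=
  WeierstrassCurve.Affine.Point.some _ _ (iso_nonsingular hβ h2 h19)

/-- the point `1` -/
noncomputable def P1 (h2 : IsUnit (2 : O)) : PtE (-608 : O) (5776 : O) :=
  WeierstrassCurve.Affine.Point.some _ _ (one_nonsingular h2)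

theorem good_P1 (h2 : IsUnit (2 : O)) : Good (-608 : O) 5776 (P1 h2) 1 := by
  refine ⟨X, 1, monic_X, natDegree_X, ?_, isCoprime_one_right, ?_⟩
  · rw [degree_X, degree_one]
    exact zero_lt_one
  · change pf 1 ≠ 0 ∧ pf (fX (-608 : O) 5776) * pf X * pf 1 = pf (fX (-608 : O) 5776) * pf X
    rw [map_one, mul_one]
    exact ⟨one_ne_zero, rfl⟩

theorem htisob_deg (β : O) : (psb β ^ 2).degree < (Nb β).degree := by
  have h1 : (psb β).natDegree ≤ 2 := by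
    unfold psb
    compute_degree
  have h2 : (psb β ^ 2).natDegree ≤ 4 := by
    refine natDegree_pow_le.trans ?_
    omega
  have h3 : (Nb β).natDegree = 5 := (iso_monic β).2 inferInstance
  have h4 : (Nb β).degree = (5 : ℕ) := by
    rw [degree_eq_natDegree (iso_monic β).1.ne_zero, h3]
  rw [h4]
  refine lt_of_le_of_lt (degree_le_of_natDegree_le h2) ?_
  exact_mod_cast (by norm_num : (4 : ℕ) < 5)

theorem good_Pb {β : O} (hβ : β ^ 2 = β - 5) (h2 : IsUnit (2 : O)) (h19 : IsUnit (19 : O)) :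
    Good (-608 : O) 5776 (Pb hβ h2 h19) 5 := by
  have hs : pf (psb β) ≠ 0 := htisob_pf_ne (psb_ne_zero hβ h2 h19)
  refine ⟨Nb β, psb β ^ 2, (iso_monic β).1, (iso_monic β).2 inferInstance, htisob_deg β,
    iso_coprime hβ h2 h19, ?_⟩
  change pf (psb β ^ 2) ≠ 0 ∧ pf (fX (-608 : O) 5776) * pf (Nb β) / pf (psb β) ^ 2 *
    pf (psb β ^ 2) = pf (fX (-608 : O) 5776) * pf (Nb β)
  rw [map_pow]
  exact ⟨pow_ne_zero _ hs, div_mul_cancel₀ _ (pow_ne_zero _ hs)⟩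

theorem conj_eq {β : O} (hβ : β ^ 2 = β - 5) : (1 - β) ^ 2 = (1 - β) - 5 := by
  linear_combination hβ

theorem htisob_b {β : O} (hβ : β ^ 2 = β - 5) (h19 : IsUnit (19 : O)) : 2 * β - 1 ≠ 0 := by
  intro h
  have h1 : (2 * β - 1) * (2 * β - 1) = -19 := by linear_combination 4 * hβ
  rw [h, mul_zero] at h1
  apply h19.ne_zero
  linear_combination h1

theorem htisob_H : Hc O ≠ 0 := by
  intro h
  have c9 : (Hc O).coeff 9 = -1 := by
    unfold Hc
    simp [coeff_X_pow]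
  rw [h, coeff_zero] at c9
  exact one_ne_zero (neg_eq_zero.1 c9.symm)

/-- `β + (1 - β) = 1` -/
theorem Pb_add {β : O} (hβ : β ^ 2 = β - 5) (h2 : IsUnit (2 : O)) (h19 : IsUnit (19 : O)) :
    Pb hβ h2 h19 + Pb (conj_eq hβ) h2 h19 = P1 h2 := by
  have hs1 : pf (psb β) ≠ 0 := htisob_pf_ne (psb_ne_zero hβ h2 h19)
  have hs2 : pf (psb (1 - β)) ≠ 0 := htisob_pf_ne (psb_ne_zero (conj_eq hβ) h2 h19)
  have hb : pf (C (2 * β - 1)) ≠ 0 := htisob_pf_ne (by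
    rw [Ne, C_eq_zero]
    exact htisob_b hβ h19)
  have hH : pf (Hc O) ≠ 0 := htisob_pf_ne htisob_H
  have hL : pf (psb β) * pf (psb (1 - β)) = pf (Lc O) := by
    rw [← map_mul, chord_L hβ]
  have eH : pf (Nb β) * pf (psb (1 - β)) ^ 2 - pf (Nb (1 - β)) * pf (psb β) ^ 2
      = pf (C (2 * β - 1)) * pf (Hc O) := by
    rw [← map_mul, ← chord_H hβ, map_sub, map_mul, map_mul, map_pow, map_pow]
  have eK : pf (Nb β) * pf (psb (1 - β)) ^ 2 + pf (Nb (1 - β)) * pf (psb β) ^ 2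
      = pf (Kc O) := by
    rw [← chord_K hβ, map_add, map_mul, map_mul, map_pow, map_pow]
  have eG : pf (Mb β) * pf (psb (1 - β)) ^ 3 - pf (Mb (1 - β)) * pf (psb β) ^ 3
      = pf (C (2 * β - 1)) * pf (Gc O) := by
    rw [← map_mul, ← chord_G hβ, map_sub, map_mul, map_mul, map_pow, map_pow]
  have ex : (pf X ^ 3 + pf (C (-608 : O)) * pf X + pf (C (5776 : O))) * pf (Gc O) ^ 2
      = (pf X * pf (Lc O) ^ 2 + pf (Kc O)) * pf (Hc O) ^ 2 := by
    have h := congrArg (pf : O[X] →+* FF O) (chord_x (O := O))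
    rw [map_mul, map_mul, map_add, map_add, map_add, map_mul, map_mul, map_pow, map_pow,
      map_pow, map_pow] at h
    exact h
  have ey : pf (psb (1 - β)) * pf (Hc O) * (pf (psb β) ^ 3 + pf (Mb β)) +
      pf (Gc O) * (pf X * pf (psb β) ^ 2 - pf (Nb β)) = 0 := by
    have h := congrArg (pf : O[X] →+* FF O) (chord_y hβ)
    rw [map_zero, map_add, map_mul, map_mul, map_mul, map_add, map_sub, map_mul, map_pow,
      map_pow] at h
    exact h
  have hxne := htisob_xne (F := pf (fX (-608 : O) 5776)) htisob_fne hs1 hs2 hb hH eH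
  have hslope := htisob_slope (F := pf (fX (-608 : O) 5776)) htisob_fne hs1 hs2 hb hH hL eH eG
  have haddX := htisob_addX hs1 hs2 hH hL htisob_fX eK ex
  have haddY := htisob_addY (F := pf (fX (-608 : O) 5776)) hs1 hs2 hH hL ey
  unfold Pb P1
  rw [WeierstrassCurve.Affine.Point.add_of_X_ne hxne]
  rw [WeierstrassCurve.Affine.Point.some.injEq]
  have e1 : (Esw (pf (C (-608 : O)) * pf (fX (-608 : O) 5776) ^ 2)
      (pf (C (5776 : O)) * pf (fX (-608 : O) 5776) ^ 3)).toAffine.a₁ = 0 := rfl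
  have e2 : (Esw (pf (C (-608 : O)) * pf (fX (-608 : O) 5776) ^ 2)
      (pf (C (5776 : O)) * pf (fX (-608 : O) 5776) ^ 3)).toAffine.a₂ = 0 := rfl
  have e3 : (Esw (pf (C (-608 : O)) * pf (fX (-608 : O) 5776) ^ 2)
      (pf (C (5776 : O)) * pf (fX (-608 : O) 5776) ^ 3)).toAffine.a₃ = 0 := rfl
  have hX : WeierstrassCurve.Affine.addX (Esw (pf (C (-608 : O)) * pf (fX (-608 : O) 5776) ^ 2)
      (pf (C (5776 : O)) * pf (fX (-608 : O) 5776) ^ 3)).toAffine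
      (pf (fX (-608 : O) 5776) * pf (Nb β) / pf (psb β) ^ 2)
      (pf (fX (-608 : O) 5776) * pf (Nb (1 - β)) / pf (psb (1 - β)) ^ 2)
      (pf (fX (-608 : O) 5776) * pf (Gc O) / (pf (Lc O) * pf (Hc O)))
      = pf (fX (-608 : O) 5776) * pf X := by
    rw [WeierstrassCurve.Affine.addX, e1, e2, zero_mul, add_zero, sub_zero]
    exact haddX
  rw [WeierstrassCurve.Affine.slope_of_X_ne hxne, hslope]
  refine ⟨hX, ?_⟩
  rw [WeierstrassCurve.Affine.addY, WeierstrassCurve.Affine.negAddY,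
    WeierstrassCurve.Affine.negY, hX, e1, e3, zero_mul, sub_zero, sub_zero]
  exact haddY

theorem gam_P1 (h2 : IsUnit (2 : O)) {δ : FF O → FF O} (hδ : IsDer δ)
    (h : ∀ P : O[X], δ (pf P) = pf (derivative P)) :
    Gam δ (pf (fX (-608 : O) 5776)) (P1 h2) 1 := by
  refine ⟨_, _, one_nonsingular h2, rfl, pow_ne_zero _ htisob_fne, ?_⟩
  have h1 : δ (pf (X : O[X])) = 1 := by
    rw [h, derivative_X, map_one]
  rw [hδ.mul, h1]
  ring

theorem gam_Pb {β : O} (hβ : β ^ 2 = β - 5) (h2 : IsUnit (2 : O)) (h19 : IsUnit (19 : O))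
    {δ : FF O → FF O} (hδ : IsDer δ)
    (h : ∀ P : O[X], δ (pf P) = pf (derivative P)) :
    Gam δ (pf (fX (-608 : O) 5776)) (Pb hβ h2 h19) (pf (C β)) := by
  have hs : pf (psb β) ≠ 0 := htisob_pf_ne (psb_ne_zero hβ h2 h19)
  have hM : pf (Mb β) ≠ 0 := htisob_pf_ne (htisob_Mb β)
  refine ⟨_, _, iso_nonsingular hβ h2 h19, rfl,
    div_ne_zero (mul_ne_zero (pow_ne_zero _ htisob_fne) hM) (pow_ne_zero _ hs), ?_⟩
  refine htisob_gam hδ hs (h (Nb β)) (h (psb β)) ?_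
  have h1 := congrArg (pf : O[X] →+* FF O) (iso_deriv hβ)
  rw [map_sub, map_mul, map_mul, map_mul, map_mul, map_ofNat] at h1
  exact h1

end Pool.Agent.H.MP_7425ae_nt
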