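import Pool.Agent.H.MP_7425ae_nt.HtIsoA

/-! The chord through `β` and `1 - β`: polynomial identities. -/

set_option autoImplicit false

open Polynomial

namespace Pool.Agent.H.MP_7425ae_nt

variable {O : Type} [CommRing O]

noncomputable def Gc (O : Type) [CommRing O] : O[X] :=
  C 1578597814894592 + C 166168191041536 * X - C 342721894023168 * X ^ 2
    + C 97227522965504 * X ^ 3 - C 13391844343808 * X ^ 4 + C 1024886046720 * X ^ 5
    - C 39444627456 * X ^ 6 + C 14047232 * X ^ 7 + C 73747968 * X ^ 8 - C 3558016 * X ^ 9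
    + C 80864 * X ^ 10 - C 912 * X ^ 11 + C 4 * X ^ 12

noncomputable def Hc (O : Type) [CommRing O] : O[X] :=
  C 34162868224 + C 8540717056 * X - C 6405537792 * X ^ 2 + C 1123778560 * X ^ 3
    - C 84283392 * X ^ 4 + C 2033152 * X ^ 5 + C 92416 * X ^ 6 - C 6992 * X ^ 7
    + C 152 * X ^ 8 - X ^ 9

noncomputable def Kc (O : Type) [CommRing O] : O[X] :=
  C 12332795428864 - C 5286703857664 * X + C 975776923648 * X ^ 2 - C 101140070400 * X ^ 3
    + C 6447679488 * X ^ 4 - C 261537280 * X ^ 5 + C 6838784 * X ^ 6 - C 117648 * X ^ 7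
    + C 1368 * X ^ 8 - C 9 * X ^ 9

noncomputable def Lc (O : Type) [CommRing O] : O[X] :=
  C 646912 - C 138624 * X + C 10944 * X ^ 2 - C 380 * X ^ 3 + C 5 * X ^ 4

theorem htisoc_b {β : O} (hβ : β ^ 2 = β - 5) : (C β : O[X]) ^ 2 = C β - 5 := by
  rw [← C_pow, hβ, C_sub, map_ofNat]

theorem chord_L {β : O} (hβ : β ^ 2 = β - 5) : psb β * psb (1 - β) = Lc O := by
  have hb := htisoc_b hβ
  unfold psb Lc
  simp only [map_add, map_sub, map_mul, map_neg, map_ofNat, map_one]
  generalize (C β : O[X]) = b at hb ⊢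
  linear_combination
    ((-92416) + (21888) * X + (-1904) * X ^ 2 + (72) * X ^ 3 + (-1) * X ^ 4) * hb

theorem chord_K {β : O} (hβ : β ^ 2 = β - 5) :
    Nb β * psb (1 - β) ^ 2 + Nb (1 - β) * psb β ^ 2 = Kc O := by
  have hb := htisoc_b hβ
  unfold Nb psb Kc
  simp only [map_add, map_sub, map_mul, map_neg, map_ofNat, map_one]
  generalize (C β : O[X]) = b at hb ⊢
  linear_combination
    ((-2903843799040) + (1249192247296) * X + (-230486982656) * X ^ 2 + (23806361600) * X ^ 3
      + (-1509338112) * X ^ 4 + (60877824) * X ^ 5 + (-1585664) * X ^ 6 + (27184) * X ^ 7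
      + (-312) * X ^ 8 + (2) * X ^ 9) * hb

theorem chord_H {β : O} (hβ : β ^ 2 = β - 5) :
    Nb β * psb (1 - β) ^ 2 - Nb (1 - β) * psb β ^ 2 = C (2 * β - 1) * Hc O := by
  have hb := htisoc_b hβ
  unfold Nb psb Hc
  simp only [map_add, map_sub, map_mul, map_neg, map_ofNat, map_one]
  generalize (C β : O[X]) = b at hb ⊢
  linear_combination
    ((-375791550464) + (165869715456) * X + (-31341592576) * X ^ 2 + (3294445568) * X ^ 3
      + (-209093632) * X ^ 4 + (8103424) * X ^ 5 + (-183040) * X ^ 6 + (2096) * X ^ 7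
      + (-8) * X ^ 8 + (751583100928) * b + (-331739430912) * b * X + (62683185152) * b * X ^ 2
      + (-6588891136) * b * X ^ 3 + (418187264) * b * X ^ 4 + (-16206848) * b * X ^ 5
      + (366080) * b * X ^ 6 + (-4192) * b * X ^ 7 + (16) * b * X ^ 8) * hb

theorem chord_G {β : O} (hβ : β ^ 2 = β - 5) :
    Mb β * psb (1 - β) ^ 3 - Mb (1 - β) * psb β ^ 3 = C (2 * β - 1) * Gc O := by
  have hb := htisoc_b hβ
  unfold Mb psb Gc
  simp only [map_add, map_sub, map_mul, map_neg, map_ofNat, map_one]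
  generalize (C β : O[X]) = b at hb ⊢
  linear_combination
    ((-789298907447296) + (664672764166144) * X + (-217685796323328) * X ^ 2
      + (37719402610688) * X ^ 3 + (-3764208664576) * X ^ 4 + (203060871168) * X ^ 5
      + (-2515193856) * X ^ 6 + (-428576768) * X ^ 7 + (32919552) * X ^ 8 + (-1171072) * X ^ 9
      + (23120) * X ^ 10 + (-240) * X ^ 11 + (1) * X ^ 12 + (1578597814894592) * b
      + (-1329345528332288) * b * X + (435371592646656) * b * X ^ 2
      + (-75438805221376) * b * X ^ 3 + (7528417329152) * b * X ^ 4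
      + (-406121742336) * b * X ^ 5 + (5030387712) * b * X ^ 6 + (857153536) * b * X ^ 7
      + (-65839104) * b * X ^ 8 + (2342144) * b * X ^ 9 + (-46240) * b * X ^ 10
      + (480) * b * X ^ 11 + (-2) * b * X ^ 12) * hb

/-- the chord identity -/
theorem chord_x : (X ^ 3 + C (-608) * X + C 5776) * Gc O ^ 2
    = (X * Lc O ^ 2 + Kc O) * Hc O ^ 2 := by
  unfold Gc Lc Kc Hc
  simp only [map_ofNat, map_neg]
  ring

/-- the `y`-coordinate -/
theorem chord_y {β : O} (hβ : β ^ 2 = β - 5) :
    psb (1 - β) * Hc O * (psb β ^ 3 + Mb β) + Gc O * (X * psb β ^ 2 - Nb β) = 0 := by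
  have hb := htisoc_b hβ
  unfold psb Hc Mb Gc Nb
  simp only [map_add, map_sub, map_mul, map_neg, map_ofNat, map_one]
  generalize (C β : O[X]) = b at hb ⊢
  linear_combination
    ((1750652347935583371264) + (-214992393606124273664) * X + (-387855168728341676032) * X ^ 2
      + (196684646989932003328) * X ^ 3 + (-46996116329386213376) * X ^ 4
      + (6946540973195264000) * X ^ 5 + (-688742007996153856) * X ^ 6
      + (46471318114140160) * X ^ 7 + (-2009963361730560) * X ^ 8 + (38223872720896) * X ^ 9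
      + (1494004449280) * X ^ 10 + (-155221446656) * X ^ 11 + (6750726144) * X ^ 12
      + (-186993664) * X ^ 13 + (3497600) * X ^ 14 + (-42976) * X ^ 15 + (312) * X ^ 16
      + (-1) * X ^ 17 + (-583550782645194457088) * b + (99817897031414841344) * b * X
      + (126894006752486883328) * b * X ^ 2 + (-71925569155946774528) * b * X ^ 3
      + (18590949687892639744) * b * X ^ 4 + (-2952384588636225536) * b * X ^ 5
      + (313310124208816128) * b * X ^ 6 + (-22526362394820608) * b * X ^ 7
      + (1031851675746304) * b * X ^ 8 + (-20768799981568) * b * X ^ 9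
      + (-789069987840) * b * X ^ 10 + (82779209728) * b * X ^ 11 + (-3428847616) * b * X ^ 12
      + (84729344) * b * X ^ 13 + (-1286400) * b * X ^ 14 + (11008) * b * X ^ 15
      + (-40) * b * X ^ 16 + (-291775391322597228544) * b ^ 2
      + (65265548059002011648) * b ^ 2 * X + (60870731742335467520) * b ^ 2 * X ^ 2
      + (-39307417927257423872) * b ^ 2 * X ^ 3 + (11176918559861243904) * b ^ 2 * X ^ 4
      + (-1959947254064218112) * b ^ 2 * X ^ 5 + (233100629071888384) * b ^ 2 * X ^ 6
      + (-19334766554775552) * b ^ 2 * X ^ 7 + (1093012200095744) * b ^ 2 * X ^ 8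
      + (-36622121566208) * b ^ 2 * X ^ 9 + (122970947584) * b ^ 2 * X ^ 10
      + (62041837568) * b ^ 2 * X ^ 11 + (-3831937024) * b ^ 2 * X ^ 12
      + (129437440) * b ^ 2 * X ^ 13 + (-2784000) * b ^ 2 * X ^ 14 + (37872) * b ^ 2 * X ^ 15
      + (-296) * b ^ 2 * X ^ 16 + (1) * b ^ 2 * X ^ 17) * hb

end Pool.Agent.H.MP_7425ae_nt
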