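import Pool.Agent.H.MP_7425ae_nt.HtAlg

/-! Heights: the sum and the product of `x(P+Q)`, `x(P-Q)`. -/

set_option autoImplicit false

open Polynomial

namespace Pool.Agent.H.MP_7425ae_nt

/-- the curve `y^2 = x^3 + a4 x + a6` -/
def Esw {K : Type} [CommRing K] (a4 a6 : K) : WeierstrassCurve K := ⟨0, 0, 0, a4, a6⟩

/-- `(n : d)` represents `x(P)/f` (`(1 : 0)` for the point at infinity) -/
def XRep {K : Type} [Field K] (f : K) {a4 a6 : K} (P : (Esw a4 a6).toAffine.Point) (n d : K) :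
    Prop :=
  match P with
  | .zero => d = 0 ∧ n ≠ 0
  | .some x _ _ => d ≠ 0 ∧ x * d = f * n

variable {K : Type} [Field K] [DecidableEq K]

omit [DecidableEq K] in
theorem htpar_alg (f A B t1 t2 t3 t4 y1 y2 d1 d2 d3 d4 : K) (hf : f ≠ 0) (h12 : t1 ≠ t2)
    (hd1 : d1 ≠ 0) (hd2 : d2 ≠ 0) (hd3 : d3 ≠ 0) (hd4 : d4 ≠ 0)
    (hy1 : y1 ^ 2 = f ^ 3 * (t1 ^ 3 + A * t1 + B)) (hy2 : y2 ^ 2 = f ^ 3 * (t2 ^ 3 + A * t2 + B))
    (h3 : f * t3 = ((y1 + y2) / (f * t1 - f * t2)) ^ 2 - f * t1 - f * t2)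
    (h4 : f * t4 = ((y1 - y2) / (f * t1 - f * t2)) ^ 2 - f * t1 - f * t2) :
    ∃ μ : K, μ ≠ 0 ∧
      d3 * d4 = μ * q0 (d1 * d2) (t1 * d1 * d2 + t2 * d2 * d1) (t1 * d1 * (t2 * d2)) ∧
      t3 * d3 * d4 + t4 * d4 * d3
        = μ * q1 A B (d1 * d2) (t1 * d1 * d2 + t2 * d2 * d1) (t1 * d1 * (t2 * d2)) ∧
      t3 * d3 * (t4 * d4)
        = μ * q2 A B (d1 * d2) (t1 * d1 * d2 + t2 * d2 * d1) (t1 * d1 * (t2 * d2)) := by
  have hs : t1 - t2 ≠ 0 := sub_ne_zero.mpr h12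
  have hft : f * t1 - f * t2 ≠ 0 := by
    rw [← mul_sub]; exact mul_ne_zero hf hs
  have h3' : f ^ 3 * (t1 - t2) ^ 2 * (t3 + t1 + t2) = (y1 + y2) ^ 2 := by
    have : (f * t1 - f * t2) ^ 2 * (f * t3 + f * t1 + f * t2) = (y1 + y2) ^ 2 := by
      rw [h3]; field_simp; ring
    rw [← this]; ring
  have h4' : f ^ 3 * (t1 - t2) ^ 2 * (t4 + t1 + t2) = (y1 - y2) ^ 2 := by
    have : (f * t1 - f * t2) ^ 2 * (f * t4 + f * t1 + f * t2) = (y1 - y2) ^ 2 := by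
      rw [h4]; field_simp; ring
    rw [← this]; ring
  have hf3 : f ^ 3 ≠ 0 := pow_ne_zero _ hf
  have key1 : (t1 - t2) ^ 2 * (t3 + t4) = 2 * (t1 + t2) * (t1 * t2 + A) + 4 * B := by
    apply mul_left_cancel₀ hf3
    linear_combination h3' + h4' + 2 * hy1 + 2 * hy2
  have key2 : (t1 - t2) ^ 2 * (t3 * t4) = (t1 * t2 - A) ^ 2 - 4 * B * (t1 + t2) := by
    have h5 : (t1 - t2) ^ 2 * ((t3 + t1 + t2) * (t4 + t1 + t2))
        = (t1 ^ 2 + t1 * t2 + t2 ^ 2 + A) ^ 2 := by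
      apply mul_left_cancel₀ (pow_ne_zero 2 hs)
      apply mul_left_cancel₀ (pow_ne_zero 2 hf3)
      have h6 : (y1 + y2) ^ 2 * (y1 - y2) ^ 2
          = (f ^ 3 * (t1 ^ 3 + A * t1 + B) - f ^ 3 * (t2 ^ 3 + A * t2 + B)) ^ 2 := by
        rw [← hy1, ← hy2]; ring
      rw [← h3', ← h4'] at h6
      linear_combination h6
    linear_combination h5 - (t1 + t2) * key1
  have hq0 : q0 (d1 * d2) (t1 * d1 * d2 + t2 * d2 * d1) (t1 * d1 * (t2 * d2))
      = (t1 - t2) ^ 2 * (d1 * d2) ^ 2 := by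
    simp only [q0]; ring
  have hq1 : q1 A B (d1 * d2) (t1 * d1 * d2 + t2 * d2 * d1) (t1 * d1 * (t2 * d2))
      = (t1 - t2) ^ 2 * (t3 + t4) * (d1 * d2) ^ 2 := by
    rw [key1]; simp only [q1]; ring
  have hq2 : q2 A B (d1 * d2) (t1 * d1 * d2 + t2 * d2 * d1) (t1 * d1 * (t2 * d2))
      = (t1 - t2) ^ 2 * (t3 * t4) * (d1 * d2) ^ 2 := by
    rw [key2]; simp only [q2]; ring
  rw [hq0, hq1, hq2]
  refine ⟨d3 * d4 / ((t1 - t2) ^ 2 * (d1 * d2) ^ 2), ?_, ?_, ?_, ?_⟩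
  · exact div_ne_zero (mul_ne_zero hd3 hd4)
      (mul_ne_zero (pow_ne_zero _ hs) (pow_ne_zero _ (mul_ne_zero hd1 hd2)))
  · field_simp
  · field_simp
  · field_simp

omit [DecidableEq K] in
theorem htpar_alg2 (f A B t t4 y d1 d2 n3 d4 : K) (hf : f ≠ 0) (h2 : (2 : K) ≠ 0) (hy : y ≠ 0)
    (hd1 : d1 ≠ 0) (hd2 : d2 ≠ 0) (hn3 : n3 ≠ 0) (hd4 : d4 ≠ 0)
    (hy1 : y ^ 2 = f ^ 3 * (t ^ 3 + A * t + B))
    (h4 : f * t4 = ((3 * (f * t) ^ 2 + A * f ^ 2) / (2 * y)) ^ 2 - f * t - f * t) :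
    ∃ μ : K, μ ≠ 0 ∧
      0 * d4 = μ * q0 (d1 * d2) (t * d1 * d2 + t * d2 * d1) (t * d1 * (t * d2)) ∧
      n3 * d4 + t4 * d4 * 0
        = μ * q1 A B (d1 * d2) (t * d1 * d2 + t * d2 * d1) (t * d1 * (t * d2)) ∧
      n3 * (t4 * d4)
        = μ * q2 A B (d1 * d2) (t * d1 * d2 + t * d2 * d1) (t * d1 * (t * d2)) := by
  have hf3 : f ^ 3 ≠ 0 := pow_ne_zero _ hf
  have hF : t ^ 3 + A * t + B ≠ 0 := by
    intro h
    rw [h, mul_zero] at hy1
    exact hy (pow_eq_zero_iff (two_ne_zero)|>.mp hy1)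
  have h4F : 4 * (t ^ 3 + A * t + B) ≠ 0 := by
    have : (4 : K) = 2 * 2 := by norm_num
    rw [this]
    exact mul_ne_zero (mul_ne_zero h2 h2) hF
  have h2y : 2 * y ≠ 0 := mul_ne_zero h2 hy
  have key : 4 * (t ^ 3 + A * t + B) * t4 = (t ^ 2 - A) ^ 2 - 8 * B * t := by
    have h5 : (2 * y) ^ 2 * (f * t4 + f * t + f * t) = (3 * (f * t) ^ 2 + A * f ^ 2) ^ 2 := by
      rw [h4]; field_simp; ring
    have h6 : (2 * y) ^ 2 = 4 * (f ^ 3 * (t ^ 3 + A * t + B)) := by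
      rw [← hy1]; ring
    rw [h6] at h5
    apply mul_left_cancel₀ (pow_ne_zero 4 hf)
    linear_combination h5
  have hq0 : q0 (d1 * d2) (t * d1 * d2 + t * d2 * d1) (t * d1 * (t * d2)) = 0 := by
    simp only [q0]; ring
  have hq1 : q1 A B (d1 * d2) (t * d1 * d2 + t * d2 * d1) (t * d1 * (t * d2))
      = 4 * (t ^ 3 + A * t + B) * (d1 * d2) ^ 2 := by
    simp only [q1]; ring
  have hq2 : q2 A B (d1 * d2) (t * d1 * d2 + t * d2 * d1) (t * d1 * (t * d2))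
      = 4 * (t ^ 3 + A * t + B) * t4 * (d1 * d2) ^ 2 := by
    rw [key]; simp only [q2]; ring
  rw [hq0, hq1, hq2]
  refine ⟨n3 * d4 / (4 * (t ^ 3 + A * t + B) * (d1 * d2) ^ 2), ?_, ?_, ?_, ?_⟩
  · exact div_ne_zero (mul_ne_zero hn3 hd4)
      (mul_ne_zero h4F (pow_ne_zero _ (mul_ne_zero hd1 hd2)))
  · ring
  · rw [mul_zero, add_zero, div_mul_cancel₀]
    exact mul_ne_zero h4F (pow_ne_zero _ (mul_ne_zero hd1 hd2))
  · have h7 : 4 * (t ^ 3 + A * t + B) * t4 * (d1 * d2) ^ 2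
        = (4 * (t ^ 3 + A * t + B) * (d1 * d2) ^ 2) * t4 := by ring
    have hne : 4 * (t ^ 3 + A * t + B) * (d1 * d2) ^ 2 ≠ 0 :=
      mul_ne_zero h4F (pow_ne_zero _ (mul_ne_zero hd1 hd2))
    rw [h7, ← mul_assoc (n3 * d4 / _), div_mul_cancel₀ _ hne]
    ring

omit [DecidableEq K] in
theorem htpar_eqn (f A B : K) (hf : f ≠ 0) {x y : K}
    (e : (Esw (A * f ^ 2) (B * f ^ 3)).toAffine.Nonsingular x y) :
    y ^ 2 = f ^ 3 * ((x / f) ^ 3 + A * (x / f) + B) := by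
  have h := (WeierstrassCurve.Affine.equation_iff _ _).mp e.1
  simp only [Esw] at h
  have h1 : f ^ 3 * ((x / f) ^ 3 + A * (x / f) + B) = x ^ 3 + A * f ^ 2 * x + B * f ^ 3 := by
    field_simp
  rw [h1]
  linear_combination h

omit [DecidableEq K] in
theorem htpar_rep (f : K) (hf : f ≠ 0) {a4 a6 : K} {x y : K}
    (e : (Esw a4 a6).toAffine.Nonsingular x y) (n d : K) (r : XRep f (.some x y e) n d) :
    d ≠ 0 ∧ n = x / f * d := by
  obtain ⟨h1, h2⟩ := r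
  refine ⟨h1, ?_⟩
  field_simp
  linear_combination -h2

theorem par_generic (f A B : K) (hf : f ≠ 0) (h2 : (2 : K) ≠ 0)
    {x1 y1 x2 y2 : K} (e1 : (Esw (A * f ^ 2) (B * f ^ 3)).toAffine.Nonsingular x1 y1)
    (e2 : (Esw (A * f ^ 2) (B * f ^ 3)).toAffine.Nonsingular x2 y2) (hx : x1 ≠ x2)
    (n1 d1 n2 d2 n3 d3 n4 d4 : K)
    (r1 : XRep f (.some x1 y1 e1) n1 d1) (r2 : XRep f (.some x2 y2 e2) n2 d2)
    (r3 : XRep f (WeierstrassCurve.Affine.Point.some x1 y1 e1 -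
      WeierstrassCurve.Affine.Point.some x2 y2 e2) n3 d3)
    (r4 : XRep f (WeierstrassCurve.Affine.Point.some x1 y1 e1 +
      WeierstrassCurve.Affine.Point.some x2 y2 e2) n4 d4) :
    ∃ μ : K, μ ≠ 0 ∧ d3 * d4 = μ * q0 (d1 * d2) (n1 * d2 + n2 * d1) (n1 * n2) ∧
      n3 * d4 + n4 * d3 = μ * q1 A B (d1 * d2) (n1 * d2 + n2 * d1) (n1 * n2) ∧
      n3 * n4 = μ * q2 A B (d1 * d2) (n1 * d2 + n2 * d1) (n1 * n2) := by
  rw [sub_eq_add_neg, WeierstrassCurve.Affine.Point.neg_some,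
    WeierstrassCurve.Affine.Point.add_of_X_ne hx] at r3
  rw [WeierstrassCurve.Affine.Point.add_of_X_ne hx] at r4
  obtain ⟨hd1, hn1⟩ := htpar_rep f hf _ _ _ r1
  obtain ⟨hd2, hn2⟩ := htpar_rep f hf _ _ _ r2
  obtain ⟨hd3, hn3⟩ := htpar_rep f hf _ _ _ r3
  obtain ⟨hd4, hn4⟩ := htpar_rep f hf _ _ _ r4
  have hy1 := htpar_eqn f A B hf e1
  have hy2 := htpar_eqn f A B hf e2
  rw [WeierstrassCurve.Affine.slope_of_X_ne hx] at hn3 hn4
  simp only [WeierstrassCurve.Affine.addX, WeierstrassCurve.Affine.negY, Esw, zero_mul,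
    add_zero, sub_zero, sub_neg_eq_add] at hn3 hn4
  have hfx : ∀ x : K, f * (x / f) = x := fun x => by field_simp
  rw [hn1, hn2, hn3, hn4]
  refine htpar_alg f A B (x1 / f) (x2 / f) _ _ y1 y2 d1 d2 d3 d4 hf ?_ hd1 hd2 hd3 hd4 hy1 hy2 ?_ ?_
  · intro h
    apply hx
    have := congrArg (fun z => f * z) h
    simp only [hfx] at this
    exact this
  · rw [hfx, hfx, hfx]
  · rw [hfx, hfx, hfx]

/-- two points with the same `x`: the case `P = Q` -/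
theorem htpar_dbl (f A B : K) (hf : f ≠ 0) (h2 : (2 : K) ≠ 0)
    {x y : K} (e1 : (Esw (A * f ^ 2) (B * f ^ 3)).toAffine.Nonsingular x y)
    (n1 d1 n2 d2 n3 d3 n4 d4 : K)
    (r1 : XRep f (.some x y e1) n1 d1) (r2 : XRep f (.some x y e1) n2 d2)
    (r3 : d3 = 0 ∧ n3 ≠ 0)
    (r4 : XRep f (WeierstrassCurve.Affine.Point.some x y e1 +
      WeierstrassCurve.Affine.Point.some x y e1) n4 d4) :
    ∃ μ : K, μ ≠ 0 ∧ d3 * d4 = μ * q0 (d1 * d2) (n1 * d2 + n2 * d1) (n1 * n2) ∧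
      n3 * d4 + n4 * d3 = μ * q1 A B (d1 * d2) (n1 * d2 + n2 * d1) (n1 * n2) ∧
      n3 * n4 = μ * q2 A B (d1 * d2) (n1 * d2 + n2 * d1) (n1 * n2) := by
  obtain ⟨hd1, hn1⟩ := htpar_rep f hf _ _ _ r1
  obtain ⟨hd2, hn2⟩ := htpar_rep f hf _ _ _ r2
  obtain ⟨hd3, hn3⟩ := r3
  have hy1 := htpar_eqn f A B hf e1
  have hfx : ∀ x : K, f * (x / f) = x := fun x => by field_simp
  by_cases hy : y = 0
  · rw [WeierstrassCurve.Affine.Point.add_self_of_Y_eq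
      (by simp [WeierstrassCurve.Affine.negY, Esw, hy])] at r4
    obtain ⟨hd4, hn4⟩ := r4
    have hns := (WeierstrassCurve.Affine.nonsingular_iff _ _).mp e1
    have h3 : 3 * x ^ 2 + A * f ^ 2 ≠ 0 := by
      rcases hns.2 with h | h
      · intro h'
        apply h
        simp only [Esw]
        linear_combination -h'
      · exfalso
        apply h
        simp [Esw, hy]
    have hF : (x / f) ^ 3 + A * (x / f) + B = 0 := by
      rw [hy] at hy1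
      have h5 : f ^ 3 * ((x / f) ^ 3 + A * (x / f) + B) = 0 := by rw [← hy1]; ring
      exact (mul_eq_zero.mp h5).resolve_left (pow_ne_zero _ hf)
    have h3' : 3 * (x / f) ^ 2 + A ≠ 0 := by
      intro h
      apply h3
      have : f ^ 2 * (3 * (x / f) ^ 2 + A) = 3 * x ^ 2 + A * f ^ 2 := by field_simp
      rw [← this, h, mul_zero]
    have hq2 : q2 A B (d1 * d2) (n1 * d2 + n2 * d1) (n1 * n2)
        = (3 * (x / f) ^ 2 + A) ^ 2 * (d1 * d2) ^ 2 := by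
      rw [hn1, hn2]
      simp only [q2]
      linear_combination (-8 * (x / f) * (d1 * d2) ^ 2) * hF
    have hq1 : q1 A B (d1 * d2) (n1 * d2 + n2 * d1) (n1 * n2) = 0 := by
      rw [hn1, hn2]
      simp only [q1]
      linear_combination (4 * (d1 * d2) ^ 2) * hF
    have hq0 : q0 (d1 * d2) (n1 * d2 + n2 * d1) (n1 * n2) = 0 := by
      rw [hn1, hn2]
      simp only [q0]
      ring
    have hne : (3 * (x / f) ^ 2 + A) ^ 2 * (d1 * d2) ^ 2 ≠ 0 :=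
      mul_ne_zero (pow_ne_zero _ h3') (pow_ne_zero _ (mul_ne_zero hd1 hd2))
    refine ⟨n3 * n4 / ((3 * (x / f) ^ 2 + A) ^ 2 * (d1 * d2) ^ 2),
      div_ne_zero (mul_ne_zero hn3 hn4) hne, ?_, ?_, ?_⟩
    · rw [hq0, hd3]; ring
    · rw [hq1, hd3, hd4]; ring
    · rw [hq2, div_mul_cancel₀ _ hne]
  · have hyn : y ≠ (Esw (A * f ^ 2) (B * f ^ 3)).toAffine.negY x y := by
      intro h
      simp only [WeierstrassCurve.Affine.negY, Esw, zero_mul, sub_zero] at h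
      have h5 : 2 * y = 0 := by linear_combination h
      exact hy ((mul_eq_zero.mp h5).resolve_left h2)
    rw [WeierstrassCurve.Affine.Point.add_self_of_Y_ne hyn] at r4
    obtain ⟨hd4, hn4⟩ := htpar_rep f hf _ _ _ r4
    rw [WeierstrassCurve.Affine.slope_of_Y_ne rfl hyn] at hn4
    simp only [WeierstrassCurve.Affine.addX, WeierstrassCurve.Affine.negY, Esw, zero_mul,
      mul_zero, add_zero, sub_zero, sub_neg_eq_add] at hn4
    rw [hn1, hn2, hn4, hd3]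
    refine htpar_alg2 f A B (x / f) _ y d1 d2 n3 d4 hf h2 hy hd1 hd2 hn3 hd4 hy1 ?_
    rw [hfx, hfx, two_mul]

/-- the symmetric functions of `x(P+Q)` and `x(P-Q)` -/
theorem par (f A B : K) (hf : f ≠ 0) (h2 : (2 : K) ≠ 0) (hd : 4 * A ^ 3 + 27 * B ^ 2 ≠ 0)
    (P Q : (Esw (A * f ^ 2) (B * f ^ 3)).toAffine.Point)
    (n1 d1 n2 d2 n3 d3 n4 d4 : K)
    (r1 : XRep f P n1 d1) (r2 : XRep f Q n2 d2) (r3 : XRep f (P - Q) n3 d3)
    (r4 : XRep f (P + Q) n4 d4) :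
    ∃ μ : K, μ ≠ 0 ∧ d3 * d4 = μ * q0 (d1 * d2) (n1 * d2 + n2 * d1) (n1 * n2) ∧
      n3 * d4 + n4 * d3 = μ * q1 A B (d1 * d2) (n1 * d2 + n2 * d1) (n1 * n2) ∧
      n3 * n4 = μ * q2 A B (d1 * d2) (n1 * d2 + n2 * d1) (n1 * n2) := by
  rcases P with _ | ⟨x1, y1, e1⟩
  · rw [← WeierstrassCurve.Affine.Point.zero_def, zero_sub] at r3
    rw [← WeierstrassCurve.Affine.Point.zero_def, zero_add] at r4
    obtain ⟨hd1, hn1⟩ := r1
    rcases Q with _ | ⟨x2, y2, e2⟩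
    · rw [← WeierstrassCurve.Affine.Point.zero_def, neg_zero] at r3
      obtain ⟨hd2, hn2⟩ := r2
      obtain ⟨hd3, hn3⟩ := r3
      obtain ⟨hd4, hn4⟩ := r4
      have hne : (n1 * n2) ^ 2 ≠ 0 := pow_ne_zero _ (mul_ne_zero hn1 hn2)
      refine ⟨n3 * n4 / (n1 * n2) ^ 2, div_ne_zero (mul_ne_zero hn3 hn4) hne, ?_, ?_, ?_⟩
      · simp only [q0]; rw [hd1, hd2, hd3]; ring
      · simp only [q1]; rw [hd1, hd2, hd3, hd4]; ring
      · have : q2 A B (d1 * d2) (n1 * d2 + n2 * d1) (n1 * n2) = (n1 * n2) ^ 2 := by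
          simp only [q2]; rw [hd1, hd2]; ring
        rw [this, div_mul_cancel₀ _ hne]
    · rw [WeierstrassCurve.Affine.Point.neg_some] at r3
      obtain ⟨hd2, hn2⟩ := htpar_rep f hf _ _ _ r2
      obtain ⟨hd3, hn3⟩ := htpar_rep f hf _ _ _ r3
      obtain ⟨hd4, hn4⟩ := htpar_rep f hf _ _ _ r4
      have hne : (n1 * d2) ^ 2 ≠ 0 := pow_ne_zero _ (mul_ne_zero hn1 hd2)
      have hμ : ∀ z : K, d3 * d4 / (n1 * d2) ^ 2 * ((n1 * d2) ^ 2 * z) = d3 * d4 * z := fun z => by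
        rw [← mul_assoc, div_mul_cancel₀ _ hne]
      refine ⟨d3 * d4 / (n1 * d2) ^ 2, div_ne_zero (mul_ne_zero hd3 hd4) hne, ?_, ?_, ?_⟩
      · have : q0 (d1 * d2) (n1 * d2 + n2 * d1) (n1 * n2) = (n1 * d2) ^ 2 * 1 := by
          simp only [q0]; rw [hd1]; ring
        rw [this, hμ]; ring
      · have : q1 A B (d1 * d2) (n1 * d2 + n2 * d1) (n1 * n2)
            = (n1 * d2) ^ 2 * (2 * (x2 / f)) := by
          simp only [q1]; rw [hd1, hn2]; ring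
        rw [this, hμ, hn3, hn4]; ring
      · have : q2 A B (d1 * d2) (n1 * d2 + n2 * d1) (n1 * n2)
            = (n1 * d2) ^ 2 * (x2 / f) ^ 2 := by
          simp only [q2]; rw [hd1, hn2]; ring
        rw [this, hμ, hn3, hn4]; ring
  · rcases Q with _ | ⟨x2, y2, e2⟩
    · rw [← WeierstrassCurve.Affine.Point.zero_def, sub_zero] at r3
      rw [← WeierstrassCurve.Affine.Point.zero_def, add_zero] at r4
      obtain ⟨hd2, hn2⟩ := r2
      obtain ⟨hd1, hn1⟩ := htpar_rep f hf _ _ _ r1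
      obtain ⟨hd3, hn3⟩ := htpar_rep f hf _ _ _ r3
      obtain ⟨hd4, hn4⟩ := htpar_rep f hf _ _ _ r4
      have hne : (n2 * d1) ^ 2 ≠ 0 := pow_ne_zero _ (mul_ne_zero hn2 hd1)
      have hμ : ∀ z : K, d3 * d4 / (n2 * d1) ^ 2 * ((n2 * d1) ^ 2 * z) = d3 * d4 * z := fun z => by
        rw [← mul_assoc, div_mul_cancel₀ _ hne]
      refine ⟨d3 * d4 / (n2 * d1) ^ 2, div_ne_zero (mul_ne_zero hd3 hd4) hne, ?_, ?_, ?_⟩
      · have : q0 (d1 * d2) (n1 * d2 + n2 * d1) (n1 * n2) = (n2 * d1) ^ 2 * 1 := by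
          simp only [q0]; rw [hd2]; ring
        rw [this, hμ]; ring
      · have : q1 A B (d1 * d2) (n1 * d2 + n2 * d1) (n1 * n2)
            = (n2 * d1) ^ 2 * (2 * (x1 / f)) := by
          simp only [q1]; rw [hd2, hn1]; ring
        rw [this, hμ, hn3, hn4]; ring
      · have : q2 A B (d1 * d2) (n1 * d2 + n2 * d1) (n1 * n2)
            = (n2 * d1) ^ 2 * (x1 / f) ^ 2 := by
          simp only [q2]; rw [hd2, hn1]; ring
        rw [this, hμ, hn3, hn4]; ring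
    · by_cases hx : x1 = x2
      · rcases WeierstrassCurve.Affine.Point.X_eq_iff.mp hx with h | h
        · rw [h] at r1 r3 r4
          rw [sub_self] at r3
          exact htpar_dbl f A B hf h2 e2 n1 d1 n2 d2 n3 d3 n4 d4 r1 r2 r3 r4
        · have h' : WeierstrassCurve.Affine.Point.some x2 y2 e2
              = -WeierstrassCurve.Affine.Point.some x1 y1 e1 := by rw [h, neg_neg]
          rw [h'] at r3 r4
          rw [sub_neg_eq_add] at r3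
          rw [add_neg_cancel] at r4
          have r2' : XRep f (WeierstrassCurve.Affine.Point.some x1 y1 e1) n2 d2 := by
            obtain ⟨ha, hb⟩ := r2
            exact ⟨ha, by rw [hx]; exact hb⟩
          obtain ⟨μ, hμ, ha, hb, hc⟩ :=
            htpar_dbl f A B hf h2 e1 n1 d1 n2 d2 n4 d4 n3 d3 r1 r2' r4 r3
          exact ⟨μ, hμ, by rw [← ha]; ring, by rw [← hb]; ring, by rw [← hc]; ring⟩
      · exact par_generic f A B hf h2 e1 e2 hx n1 d1 n2 d2 n3 d3 n4 d4 r1 r2 r3 r4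

end Pool.Agent.H.MP_7425ae_nt
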