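import Pool.Agent.H.MP_7425ae_nt.ASD
import Pool.Agent.H.MP_7425ae_nt.FrobB

/-! The relation between `K_2(c)` and `K_1(c')`. -/

set_option autoImplicit false

open Polynomial

namespace Pool.Agent.H.MP_7425ae_nt

theorem krel_FQ_map {R S : Type} [CommRing R] [CommRing S] (f : R →+* S) :
    (FQ R).map f = FQ S := by
  have h1 : f 608 = 608 := map_ofNat f 608
  have h2 : f 5776 = 5776 := map_ofNat f 5776
  rw [FQ, FQ, Polynomial.map_add, Polynomial.map_sub, Polynomial.map_mul, Polynomial.map_pow,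
    map_X, map_C, map_C, h1, h2]

theorem krel_KK_map {R S : Type} [CommRing R] [CommRing S] (f : R →+* S) (m : ℕ) (c : R) :
    f (KK m c) = KK m (f c) := by
  rw [KK, KK, ← coeff_map, Polynomial.map_pow, Polynomial.map_comp, krel_FQ_map]
  simp

theorem krel_natDegree {R : Type} [CommRing R] (c : R) :
    ((FQ R).comp (X + C c)).natDegree ≤ 3 := by
  have h1 : (FQ R).natDegree ≤ 3 := by
    rw [FQ]
    compute_degree
  have h2 : (X + C c : R[X]).natDegree ≤ 1 := by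
    compute_degree
  refine natDegree_comp_le.trans ?_
  calc (FQ R).natDegree * (X + C c : R[X]).natDegree ≤ 3 * 1 := Nat.mul_le_mul h1 h2
    _ = 3 := by norm_num

/-- Let `φ : R3 → R2` be a ring homomorphism with `p^3 = 0` in `R3`, killing the `p`-torsion of
`R3`. If `c' = c^p` modulo `p` then `K_2(c) = ± π' K_1(c')` in `R2` and `K_1(c')` is a unit
in `R2`; the number `π'` satisfies `π'^2 = x^2 - 2p` modulo `p^2`. -/
theorem K_rel (p : ℕ) [Fact p.Prime] (hp : 5 ≤ p) (h19 : p ≠ 19) (x y : ℤ)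
    (hxy : 4 * (p : ℤ) = x ^ 2 + 19 * y ^ 2)
    (R3 R2 : Type) [CommRing R3] [CommRing R2] (i : ZMod (p ^ 3) →+* R3) (φ : R3 →+* R2)
    (h2 : (p : R2) ^ 2 = 0) (hφ : ∀ a : R3, (p : R3) * a = 0 → φ a = 0)
    (hR : ∀ a : R3, (p : R3) * a = 0 → ∃ e : R3, a = (p : R3) * e)
    (c c' : R3) (hc : ∃ e : R3, c ^ p = c' + (p : R3) * e) :
    ∃ q : R2, q ^ 2 = ((x ^ 2 - 2 * (p : ℤ) : ℤ) : R2) ∧
      KK ((p ^ 2 - 1) / 2) (φ c) = q * KK ((p - 1) / 2) (φ c') ∧
      IsUnit (KK ((p - 1) / 2) (φ c')) := by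
  have hpp : p.Prime := Fact.out
  have hodd : p % 2 = 1 := by
    rcases hpp.eq_two_or_odd with h | h
    · omega
    · exact h
  have hm : 2 * ((p - 1) / 2) = p - 1 := by omega
  have hm2 : 2 * ((p ^ 2 - 1) / 2) = p ^ 2 - 1 := by
    have : p ^ 2 % 2 = 1 := by
      rw [Nat.pow_mod, hodd]
    omega
  obtain ⟨ϖ, π', σ, Z, V, Y, V1, hσ, hϖ, hx, hZ, hZ', hV, hFV⟩ := frob_lift p hp h19 x y hxy
  have h3 : (p : R3) ^ 3 = 0 := by
    have h : ((p ^ 3 : ℕ) : ZMod (p ^ 3)) = 0 := ZMod.natCast_self _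
    have h' := congrArg i h
    rw [map_natCast, map_zero] at h'
    rw [← Nat.cast_pow]
    exact h'
  have kσ : (i σ) ^ 2 = 1 := by rw [← map_pow, hσ, map_one]
  have kϖ : i ϖ * i π' = 1 := by rw [← map_mul, hϖ, map_one]
  have kx : (p : R3) * i ϖ + i π' = (x : R3) := by
    rw [← map_natCast i p, ← map_mul, ← map_add, hx, map_intCast]
  have kZ : Z.map i = X ^ p + C (p : R3) * Y.map i := by
    rw [hZ]
    simp
  have kZ' : derivative (Z.map i) = C ((p : R3) * i ϖ) * V.map i := by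
    rw [derivative_map, hZ']
    simp
  have kV : V.map i = C (i σ) * FQ R3 ^ ((p - 1) / 2) + C (p : R3) * V1.map i := by
    rw [hV, ← krel_FQ_map i]
    simp
  have kFV : FQ R3 * (V.map i) ^ 2 = (FQ R3).comp (Z.map i) := by
    rw [← krel_FQ_map i, ← Polynomial.map_pow, ← Polynomial.map_mul, hFV, Polynomial.map_comp]
  -- the unit
  obtain ⟨e₁, he₁⟩ := asd_hasse hp hR (FQ R3) (V.map i) (V1.map i) (Y.map i) (Z.map i) (i σ)
    (i ϖ) c' kZ kZ' kV
  have hKK : (((FQ R3).comp (X + C c')) ^ ((p - 1) / 2)).coeff (p - 1) =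
      KK ((p - 1) / 2) c' := by
    rw [KK, hm]
  rw [hKK] at he₁
  -- the shifted data
  obtain ⟨e, he⟩ := hc
  obtain ⟨r, hr⟩ := exists_add_pow_prime_eq hpp (X : R3[X]) (C c)
  have lZ : (Z.map i).comp (X + C c) - C c' =
      X ^ p + C (p : R3) * (X * C c * r + C e + (Y.map i).comp (X + C c)) := by
    rw [kZ, add_comp, mul_comp, C_comp, X_pow_comp, hr, ← C_pow, he, C_add, C_mul]
    have hcast : ((p : R3[X])) = C (p : R3) := by simp
    rw [hcast]
    ring
  have lZ' : derivative ((Z.map i).comp (X + C c) - C c') =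
      C ((p : R3) * i ϖ) * (V.map i).comp (X + C c) := by
    rw [derivative_sub, derivative_C, sub_zero, derivative_comp, kZ', mul_comp, C_comp]
    simp
  have lV : (V.map i).comp (X + C c) =
      C (i σ) * ((FQ R3).comp (X + C c)) ^ ((p - 1) / 2) +
        C (p : R3) * (V1.map i).comp (X + C c) := by
    rw [kV, add_comp, mul_comp, mul_comp, C_comp, C_comp, pow_comp]
  have lFV : (FQ R3).comp (X + C c) * ((V.map i).comp (X + C c)) ^ 2 =
      ((FQ R3).comp (X + C c')).comp ((Z.map i).comp (X + C c) - C c') := by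
    rw [← pow_comp, ← mul_comp, kFV, comp_assoc, comp_assoc]
    congr 1
    simp
  have hasd := asd hp h3 _ _ _ _ _ _ (i σ) (i ϖ) (krel_natDegree c') lZ lZ' lV kσ lFV
  have hKK2 : (((FQ R3).comp (X + C c)) ^ ((p ^ 2 - 1) / 2)).coeff (p ^ 2 - 1) =
      KK ((p ^ 2 - 1) / 2) c := by
    rw [KK, hm2]
  rw [hKK, hKK2] at hasd
  have hz : φ (KK ((p - 1) / 2) c' - i σ * i ϖ * KK ((p ^ 2 - 1) / 2) c) = 0 := by
    apply hφ
    linear_combination hasd
  rw [map_sub, map_mul, map_mul, krel_KK_map, krel_KK_map] at hz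
  have hz' : KK ((p - 1) / 2) (φ c') =
      φ (i σ) * φ (i ϖ) * KK ((p ^ 2 - 1) / 2) (φ c) := sub_eq_zero.1 hz
  have jσ : (φ (i σ)) ^ 2 = 1 := by rw [← map_pow, kσ, map_one]
  have jϖ : φ (i ϖ) * φ (i π') = 1 := by rw [← map_mul, kϖ, map_one]
  have jx : (p : R2) * φ (i ϖ) + φ (i π') = (x : R2) := by
    rw [← map_natCast φ p, ← map_mul, ← map_add, kx, map_intCast]
  refine ⟨φ (i σ) * φ (i π'), ?_, ?_, ?_⟩
  · push_cast
    rw [← jx]
    linear_combination (φ (i π')) ^ 2 * jσ - (φ (i ϖ)) ^ 2 * h2 - 2 * (p : R2) * jϖ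
  · rw [hz']
    linear_combination (-(φ (i π')) * φ (i ϖ) * KK ((p ^ 2 - 1) / 2) (φ c)) * jσ -
      KK ((p ^ 2 - 1) / 2) (φ c) * jϖ
  · have h1 := congrArg φ he₁
    rw [map_mul, map_mul, map_add, map_one, map_mul, map_natCast, krel_KK_map] at h1
    apply IsUnit.of_mul_eq_one (φ (i ϖ) * φ (i σ) * (1 - (p : R2) * φ e₁))
    linear_combination (1 - (p : R2) * φ e₁) * h1 - (φ e₁) ^ 2 * h2

end Pool.Agent.H.MP_7425ae_nt
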