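import Pool.Agent.H.MP_7425ae_nt.PhiMat

/-! The connection `nabla F = dF + w X F` commutes with `tau`. -/

set_option autoImplicit false

open Polynomial

namespace Pool.Agent.H.MP_7425ae_nt

variable {R : Type} [CommRing R]

theorem pD_C {d : R → R} (hd : IsDer d) (c : R) : pD d (C c) = C (d c) := by
  ext i
  rw [coeff_pD hd, coeff_C, coeff_C]
  split_ifs with h
  · rfl
  · exact hd.zero

theorem pD_X {d : R → R} (hd : IsDer d) : pD d (X : R[X]) = 0 := by
  ext i
  rw [coeff_pD hd, coeff_X, coeff_zero]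
  split_ifs with h
  · exact hd.one
  · exact hd.zero

theorem naba_monomial {d : R → R} (hd : IsDer d) (n : ℕ) (c : R) :
    pD d (monomial n c) = monomial n (d c) := by
  ext i
  rw [coeff_pD hd, coeff_monomial, coeff_monomial]
  split_ifs with h
  · rfl
  · exact hd.zero

theorem naba_pow {d : R → R} (hd : IsDer d) (Q : R[X]) (hQ : pD d Q = 0) (n : ℕ) :
    pD d (Q ^ n) = 0 := by
  cases n with
  | zero =>
    rw [pow_zero]
    exact (pD_isDer hd).one
  | succ n => rw [(pD_isDer hd).pow, hQ, mul_zero]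

/-- `pD` commutes with composition with a polynomial with constant coefficients -/
theorem pD_comp {d : R → R} (hd : IsDer d) (P Q : R[X]) (hQ : pD d Q = 0) :
    pD d (P.comp Q) = (pD d P).comp Q := by
  induction P using Polynomial.induction_on' with
  | add p q hp hq =>
    rw [add_comp, (pD_isDer hd).add, (pD_isDer hd).add, add_comp, hp, hq]
  | monomial n c =>
    rw [naba_monomial hd, monomial_comp, monomial_comp, (pD_isDer hd).mul, naba_pow hd Q hQ,
      mul_zero, zero_add, pD_C hd]

theorem naba_aR (a : ℤ[X]) {d : R → R} (hd : IsDer d) : pD d (aR a R) = 0 := by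
  ext i
  rw [coeff_pD hd, coeff_zero]
  unfold aR
  rw [coeff_map]
  exact hd.intCast _

/-- `nabla tau_x = tau_x nabla` when `dx = w x` -/
theorem nab_tau (n : ℕ) (a : ℤ[X]) {d : R → R} (hd : IsDer d) (x w : R) (hx : d x = w * x)
    (q : R[X]) : nab d w (tau n a x q) = tau n a x (nab d w q) := by
  have h1 : pD d (X + 1 : R[X]) = 0 := by
    rw [(pD_isDer hd).add, pD_X hd, (pD_isDer hd).one, add_zero]
  unfold nab tau
  rw [(pD_isDer hd).sub, (pD_isDer hd).mul, (pD_isDer hd).mul, (pD_isDer hd).mul,
    naba_aR a hd, naba_pow hd X (pD_X hd), pD_comp hd q (X + 1) h1, pD_C hd, hx, add_comp,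
    mul_comp, mul_comp, C_comp, X_comp, C_mul]
  ring

end Pool.Agent.H.MP_7425ae_nt
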