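import Pool.Agent.H.MP_7425ae_nt.TauB

/-! The functions `red` and `quo`. -/

set_option autoImplicit false

open Polynomial

namespace Pool.Agent.H.MP_7425ae_nt

variable {R S : Type} [CommRing R] [CommRing S]

theorem taured_emb_zero {n : ℕ} : emb (0 : Fin n → R) = 0 := by
  simp [emb]

theorem red_spec {n : ℕ} {a : ℤ[X]} {x : R} (h : Lead n a x) (F : R[X]) :
    F = emb (red n a x F) + tau n a x (quo n a x F) := by
  have hex : ∃ vq : (Fin n → R) × R[X], IsRed n a x F vq.1 vq.2 := by
    obtain ⟨v, q, hvq⟩ := exists_isRed h F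
    exact ⟨(v, q), hvq⟩
  have h1 : red n a x F = hex.choose.1 := by
    unfold red
    rw [dif_pos hex]
  have h2 : quo n a x F = hex.choose.2 := by
    unfold quo
    rw [dif_pos hex]
  rw [h1, h2]
  exact hex.choose_spec

theorem red_eq {n : ℕ} {a : ℤ[X]} {x : R} (h : Lead n a x) {F : R[X]} {v : Fin n → R} {q : R[X]}
    (hF : F = emb v + tau n a x q) : red n a x F = v ∧ quo n a x F = q :=
  isRed_unique h (red_spec h F) hF

theorem red_add {n : ℕ} {a : ℤ[X]} {x : R} (h : Lead n a x) (F G : R[X]) :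
    red n a x (F + G) = red n a x F + red n a x G ∧
    quo n a x (F + G) = quo n a x F + quo n a x G := by
  apply red_eq h
  have hF := red_spec h F
  have hG := red_spec h G
  rw [emb_add, tau_add]
  calc F + G = (emb (red n a x F) + tau n a x (quo n a x F)) +
        (emb (red n a x G) + tau n a x (quo n a x G)) := by rw [← hF, ← hG]
    _ = _ := by ring

theorem red_C_mul {n : ℕ} {a : ℤ[X]} {x : R} (h : Lead n a x) (c : R) (F : R[X]) :
    red n a x (C c * F) = c • red n a x F ∧ quo n a x (C c * F) = C c * quo n a x F := by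
  apply red_eq h
  have hF := red_spec h F
  rw [emb_smul, tau_C_mul, ← mul_add, ← hF]

theorem red_emb {n : ℕ} {a : ℤ[X]} {x : R} (h : Lead n a x) (v : Fin n → R) :
    red n a x (emb v) = v ∧ quo n a x (emb v) = 0 := by
  apply red_eq h
  rw [tau_zero, add_zero]

theorem red_tau {n : ℕ} {a : ℤ[X]} {x : R} (h : Lead n a x) (q : R[X]) :
    red n a x (tau n a x q) = 0 ∧ quo n a x (tau n a x q) = q := by
  apply red_eq h
  rw [taured_emb_zero, zero_add]

theorem red_sum {n : ℕ} {a : ℤ[X]} {x : R} (h : Lead n a x) {ι : Type} (s : Finset ι)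
    (F : ι → R[X]) : red n a x (∑ i ∈ s, F i) = ∑ i ∈ s, red n a x (F i) := by
  classical
  induction s using Finset.induction_on with
  | empty =>
    rw [Finset.sum_empty, Finset.sum_empty]
    have h0 := (red_emb h (0 : Fin n → R)).1
    rwa [taured_emb_zero] at h0
  | insert i s hi ih =>
    rw [Finset.sum_insert hi, Finset.sum_insert hi, (red_add h _ _).1, ih]

theorem red_X_pow {n : ℕ} {a : ℤ[X]} {x : R} (h : Lead n a x) (j : Fin n) :
    red n a x (X ^ (j : ℕ)) = Pi.single j 1 := by
  have h1 : (X ^ (j : ℕ) : R[X]) = emb (Pi.single j 1) := by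
    unfold emb
    rw [Finset.sum_eq_single j]
    · rw [Pi.single_eq_same, C_1, one_mul]
    · intro i _ hi
      rw [Pi.single_eq_of_ne hi, C_0, zero_mul]
    · intro hj
      exact absurd (Finset.mem_univ j) hj
  rw [h1]
  exact (red_emb h _).1

theorem red_map {n : ℕ} {a : ℤ[X]} {x : R} (h : Lead n a x) (f : R →+* S) (F : R[X]) :
    red n a (f x) (F.map f) = (fun i => f (red n a x F i)) ∧
    quo n a (f x) (F.map f) = (quo n a x F).map f := by
  apply red_eq (h.map f)
  rw [← emb_map, ← tau_map, ← Polynomial.map_add, ← red_spec h F]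

/-- admissible polynomials (coefficient of `X^i` divisible by `rho^{min(i,3)}`), `n = 3`:
write `F = F_{<3} + rho^3 F'`. -/
theorem red_adm {a : ℤ[X]} {x : R} (h : Lead 3 a x) (rho : R) (F : R[X])
    (hF : ∀ i : ℕ, rho ^ (min i 3) ∣ F.coeff i) :
    (∀ i : Fin 3, rho ^ (i : ℕ) ∣ red 3 a x F i) ∧ C (rho ^ 3) ∣ quo 3 a x F ∧
    rho ^ 3 ∣ red 3 a x F 0 - F.coeff 0 := by
  have hdvd : C (rho ^ 3) ∣ F - emb (fun i : Fin 3 => F.coeff i) := by
    rw [Polynomial.C_dvd_iff_dvd_coeff]
    intro i
    rw [coeff_sub, emb_coeff]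
    by_cases hi : i < 3
    · rw [dif_pos hi, sub_self]
      exact dvd_zero _
    · rw [dif_neg hi, sub_zero]
      have := hF i
      rwa [min_eq_right (by omega)] at this
  obtain ⟨F', hF'⟩ := hdvd
  have hsum : F = emb (fun i : Fin 3 => F.coeff i) + C (rho ^ 3) * F' := by
    rw [← hF']
    ring
  have hr : red 3 a x F = (fun i : Fin 3 => F.coeff i) + rho ^ 3 • red 3 a x F' := by
    conv_lhs => rw [hsum]
    rw [(red_add h _ _).1, (red_emb h _).1, (red_C_mul h _ _).1]
  have hq : quo 3 a x F = C (rho ^ 3) * quo 3 a x F' := by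
    conv_lhs => rw [hsum]
    rw [(red_add h _ _).2, (red_emb h _).2, (red_C_mul h _ _).2, zero_add]
  refine ⟨?_, ?_, ?_⟩
  · intro i
    rw [hr, Pi.add_apply, Pi.smul_apply, smul_eq_mul]
    apply dvd_add
    · have := hF i
      rwa [min_eq_left (by omega)] at this
    · exact Dvd.dvd.mul_right (pow_dvd_pow _ (by omega)) _
  · rw [hq]
    exact dvd_mul_right _ _
  · rw [hr, Pi.add_apply, Pi.smul_apply, smul_eq_mul]
    have : (fun i : Fin 3 => F.coeff i) 0 + rho ^ 3 * red 3 a x F' 0 - F.coeff 0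
        = rho ^ 3 * red 3 a x F' 0 := by
      simp
    rw [this]
    exact dvd_mul_right _ _

end Pool.Agent.H.MP_7425ae_nt
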