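import Pool.Agent.H.MP_7425ae_nt.UTau
import Pool.Agent.H.MP_7425ae_nt.ExPoly
import Pool.Agent.H.MP_7425ae_nt.TauRed

/-! The Frobenius operator `Phi_{x -> y}`. -/

set_option autoImplicit false

open Polynomial

namespace Pool.Agent.H.MP_7425ae_nt

variable {R S : Type} [CommRing R] [CommRing S]

theorem Phi_add (p : ℕ) (D : Dat R) (x t : R) (F G : R[X]) :
    Phi p D x t (F + G) = Phi p D x t F + Phi p D x t G := by
  unfold Phi
  rw [Uop_add, mul_add]

theorem Phi_C_mul (p : ℕ) (D : Dat R) (x t c : R) (F : R[X]) :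
    Phi p D x t (C c * F) = C c * Phi p D x t F := by
  unfold Phi
  rw [Uop_C_mul]
  ring

theorem Phi_map (p : ℕ) (D : Dat R) (x t : R) (F : R[X]) (f : R →+* S) :
    (Phi p D x t F).map f = Phi p (D.map f) (f x) (f t) (F.map f) := by
  unfold Phi
  rw [Polynomial.map_mul, Ex_map, Uop_map]

/-- `Phi (tau_x q) = tau_y (Ex_t p^n Theta q(pX))` when `x^p = (1 + rho t) y` -/
theorem Phi_tau {p n : ℕ} (hp : 0 < p) {a : ℤ[X]} {c : ℕ → ℤ} {D : Dat R} (h : D.OK p n a c)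
    (x y t : R) (ht : (1 + D.rho * t) * y = x ^ p) (q : R[X]) :
    Phi p D x t (tau n a x q)
      = tau n a y (Ex D t * (C ((p : R) ^ n) * D.Th * q.comp (C (p : R) * X))) := by
  unfold Phi
  rw [Uop_tau hp h x q]
  unfold tau
  rw [mul_comp (Ex D t), Ex_shift h t, ← ht, C_mul]
  ring

theorem Phi_adm {p n : ℕ} {a : ℤ[X]} {c : ℕ → ℤ} {D : Dat R} (h : D.OK p n a c)
    (x t : R) (F : R[X]) : ∀ i : ℕ, D.rho ^ (min i 3) ∣ (Phi p D x t F).coeff i := by
  unfold Phi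
  exact adm_mul D.rho _ _ (Ex_adm h t)
    (fun i => (pow_dvd_pow_of_dvd h.rho_dvd _).trans (Uop_adm h x F i))

theorem Phi_congr {p n : ℕ} {a : ℤ[X]} {c : ℕ → ℤ} {D : Dat R} (h : D.OK p n a c)
    (x t t' : R) (ht : D.rho * t = D.rho * t') (F : R[X]) :
    Phi p D x t F = Phi p D x t' F := by
  unfold Phi
  rw [Ex_congr h t t' ht]

theorem Mmat_congr {p n : ℕ} {a : ℤ[X]} {c : ℕ → ℤ} {D : Dat R} (h : D.OK p n a c)
    (x y t t' : R) (ht : D.rho * t = D.rho * t') :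
    Mmat p n a D x y t = Mmat p n a D x y t' := by
  funext i j
  unfold Mmat
  rw [Phi_congr h x t t' ht]

end Pool.Agent.H.MP_7425ae_nt
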