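import Pool.Agent.H.MP_7425ae_nt.W19

/-! The rings `(Z/19^s)[β, ι]`. -/

set_option autoImplicit false

open Polynomial

namespace Pool.Agent.H.MP_7425ae_nt

section r19

open QuadraticAlgebra

/-- base change of a quadratic algebra -/
def r19_map {A B : Type} [CommRing A] [CommRing B] (g : A →+* B) (a b : A) (a' b' : B)
    (ha : g a = a') (hb : g b = b') : QuadraticAlgebra A a b →+* QuadraticAlgebra B a' b' where
  toFun z := ⟨g z.re, g z.im⟩
  map_one' := by ext <;> simp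
  map_zero' := by ext <;> simp
  map_add' x y := by ext <;> simp
  map_mul' x y := by ext <;> simp [ha, hb]

/-- the inclusion of the constants -/
def r19_C (A : Type) [CommRing A] (a b : A) : A →+* QuadraticAlgebra A a b where
  toFun x := ⟨x, 0⟩
  map_one' := by ext <;> simp
  map_zero' := by ext <;> simp
  map_add' x y := by ext <;> simp
  map_mul' x y := by ext <;> simp

theorem r19_neg5 {A B : Type} [CommRing A] [CommRing B] (g : A →+* B) : g (-5) = -5 := by
  rw [map_neg, map_ofNat]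

theorem r19_neg6 {A B : Type} [CommRing A] [CommRing B] (g : A →+* B) : g (-6) = -6 := by
  rw [map_neg, map_ofNat]

theorem r19_cast (s : ℕ) (a : ZMod (19 ^ (s + 1))) (h : (19 : ZMod (19 ^ (s + 1))) * a = 0) :
    (ZMod.castHom (pow_dvd_pow 19 (Nat.le_succ s)) (ZMod (19 ^ s))) a = 0 := by
  obtain ⟨n, rfl⟩ := ZMod.natCast_zmod_surjective a
  have h1 : ((19 * n : ℕ) : ZMod (19 ^ (s + 1))) = 0 := by
    push_cast
    exact h
  rw [ZMod.natCast_eq_zero_iff] at h1
  have h2 : 19 ^ s ∣ n := by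
    rw [pow_succ, mul_comm (19 ^ s) 19] at h1
    exact Nat.dvd_of_mul_dvd_mul_left (by norm_num) h1
  rw [map_natCast, ZMod.natCast_eq_zero_iff]
  exact h2

theorem r19_unit (s : ℕ) : ∃ w : ZMod (19 ^ (s + 1)), 32 * w = 1 := by
  have h : IsUnit ((32 : ℕ) : ZMod (19 ^ (s + 1))) := by
    rw [ZMod.isUnit_iff_coprime]
    exact Nat.Coprime.pow_right _ (by norm_num)
  obtain ⟨w, hw⟩ := h.exists_right_inv
  exact ⟨w, by exact_mod_cast hw⟩

/-- the ring of level `n` -/
abbrev R19K (n : ℕ) : Type := QuadraticAlgebra (ZMod n) (-5) 1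

/-- the ring of level `n` -/
abbrev R19R (n : ℕ) : Type := QuadraticAlgebra (R19K n) (-6) 0

end r19

open QuadraticAlgebra in
/-- rings of level `s + 1` and `s` -/
theorem exists_R19 (s : ℕ) : ∃ (R' R : Type) (_ : CommRing R') (_ : CommRing R)
    (f : W19 →+* R') (φ : R' →+* R) (i : ZMod (19 ^ s) →+* R) (π : R → ZMod (19 ^ s))
    (ι v : R'),
    ((19 : ℕ) : R') ^ (s + 1) = 0 ∧ ((19 : ℕ) : R) ^ s = 0 ∧ CM19 (f be19) ι v ∧
    (∀ x : R', (2 * f be19 - 1) * x = 0 → φ x = 0) ∧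
    (∀ a b : R, π (a + b) = π a + π b) ∧ (∀ (a : ZMod (19 ^ s)) (b : R), π (i a * b) = a * π b) ∧
    π 1 = 1 := by
  have : Fact (Nat.Prime 19) := ⟨by norm_num⟩
  let c : (n : ℕ) → ZMod n →+* R19R n := fun n =>
    (r19_C (R19K n) (-6) 0).comp (r19_C (ZMod n) (-5) 1)
  let f : W19 →+* R19R (19 ^ (s + 1)) := (r19_C (R19K (19 ^ (s + 1))) (-6) 0).comp
    (r19_map (PadicInt.toZModPow (s + 1)) (-5) 1 (-5) 1 (r19_neg5 _) (map_one _))
  let g : R19K (19 ^ (s + 1)) →+* R19K (19 ^ s) :=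
    r19_map (ZMod.castHom (pow_dvd_pow 19 (Nat.le_succ s)) (ZMod (19 ^ s))) (-5) 1 (-5) 1
      (r19_neg5 _) (map_one _)
  let φ : R19R (19 ^ (s + 1)) →+* R19R (19 ^ s) := r19_map g (-6) 0 (-6) 0 (r19_neg6 _) (map_zero _)
  have hnil : ∀ k : ℕ, ((19 : ℕ) : R19R (19 ^ k)) ^ k = 0 := by
    intro k
    have h1 : ((19 : ℕ) : ZMod (19 ^ k)) ^ k = 0 := by
      rw [← Nat.cast_pow]
      exact ZMod.natCast_self _
    have h2 := congrArg (c (19 ^ k)) h1
    rwa [map_pow, map_natCast, map_zero] at h2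
  obtain ⟨w, hw⟩ := r19_unit s
  have hw' : (32 : R19R (19 ^ (s + 1))) * c (19 ^ (s + 1)) w = 1 := by
    have h2 := congrArg (c (19 ^ (s + 1))) hw
    rwa [map_mul, map_ofNat, map_one] at h2
  have hfb : f be19 = ⟨⟨0, 1⟩, 0⟩ := by
    change (⟨⟨PadicInt.toZModPow (s + 1) 0, PadicInt.toZModPow (s + 1) 1⟩, 0⟩ :
      R19R (19 ^ (s + 1))) = _
    rw [map_zero, map_one]
  have hβ : (f be19) ^ 2 = f be19 - 5 := by
    rw [← map_pow, be19_sq, map_sub, map_ofNat]
  refine ⟨R19R (19 ^ (s + 1)), R19R (19 ^ s), inferInstance, inferInstance, f, φ, c (19 ^ s),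
    fun x => x.re.re, ⟨0, 1⟩, 3 * (2 * f be19 - 1) * ⟨0, 1⟩ * c (19 ^ (s + 1)) w,
    hnil (s + 1), hnil s, ⟨⟨s + 1, hnil (s + 1)⟩, hβ, ?_, ?_⟩, ?_, ?_, ?_, ?_⟩
  · rw [pow_two]
    ext <;> simp
  · linear_combination (3 * (2 * f be19 - 1) * ⟨0, 1⟩) * hw'
  · intro x hx
    have h19 : (19 : R19R (19 ^ (s + 1))) * x = 0 := by
      have e : (2 * f be19 - 1) * ((2 * f be19 - 1) * x) = 0 := by rw [hx, mul_zero]
      linear_combination (-1) * e + 4 * x * hβ
    have h1 := congrArg QuadraticAlgebra.re h19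
    have h2 := congrArg QuadraticAlgebra.im h19
    have h11 := congrArg QuadraticAlgebra.re h1
    have h12 := congrArg QuadraticAlgebra.im h1
    have h21 := congrArg QuadraticAlgebra.re h2
    have h22 := congrArg QuadraticAlgebra.im h2
    simp at h11 h12 h21 h22
    have k11 := r19_cast s _ h11
    have k12 := r19_cast s _ h12
    have k21 := r19_cast s _ h21
    have k22 := r19_cast s _ h22
    ext
    · exact k11
    · exact k12
    · exact k21
    · exact k22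
  · intro a b
    rfl
  · intro a b
    change ((c (19 ^ s) a * b).re).re = a * b.re.re
    change ((⟨⟨a, 0⟩, 0⟩ * b : R19R (19 ^ s)).re).re = a * b.re.re
    simp
  · rfl

end Pool.Agent.H.MP_7425ae_nt
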