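import Pool.Agent.H.MP_7425ae_nt.TauA

/-! The polynomials `r_j(X) = prod_{i<j} a(pX+i) / (pX+i+1)^n` modulo `p^s`. -/

set_option autoImplicit false

open Polynomial Finset

namespace Pool.Agent.H.MP_7425ae_nt

/-- `1/(pX+i+1)` modulo `p^s` -/
noncomputable def inv1 (p : ℕ) [Fact p.Prime] (s i : ℕ) : ℤ_[p][X] :=
  C (Ring.inverse ((i + 1 : ℕ) : ℤ_[p])) *
    ∑ l ∈ range s, (- (C (Ring.inverse ((i + 1 : ℕ) : ℤ_[p]) * (p : ℤ_[p])) * X)) ^ l

noncomputable def rr (p n : ℕ) [Fact p.Prime] (a : ℤ[X]) (s j : ℕ) : ℤ_[p][X] :=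
  ∏ i ∈ range j, ((aR a ℤ_[p]).comp (C (p : ℤ_[p]) * X + C (i : ℤ_[p])) * inv1 p s i ^ n)

variable {p : ℕ} [Fact p.Prime] {R : Type} [CommRing R]

theorem rseqa_unit (i : ℕ) (hi : i + 1 < p) : IsUnit ((i + 1 : ℕ) : ℤ_[p]) := by
  rw [PadicInt.isUnit_iff, PadicInt.norm_natCast_eq_one_iff]
  exact (Nat.Prime.coprime_iff_not_dvd Fact.out).mpr
    (Nat.not_dvd_of_pos_of_lt (Nat.succ_pos i) hi)

theorem rseqa_map (s i : ℕ) (f : ℤ_[p] →+* R) :
    (inv1 p s i).map f = C (f (Ring.inverse ((i + 1 : ℕ) : ℤ_[p]))) *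
      ∑ l ∈ range s, (- (C (f (Ring.inverse ((i + 1 : ℕ) : ℤ_[p])) * (p : R)) * X)) ^ l := by
  unfold inv1
  rw [Polynomial.map_mul, Polynomial.map_C, Polynomial.map_sum]
  congr 1
  refine Finset.sum_congr rfl (fun l _ => ?_)
  rw [Polynomial.map_pow, Polynomial.map_neg, Polynomial.map_mul, Polynomial.map_C,
    Polynomial.map_X, map_mul, map_natCast]

omit [Fact p.Prime] in
theorem rseqa_pow (s l : ℕ) (h : s ≤ l) (u : R) (hs : (p : R) ^ s = 0) :
    (- (C (u * (p : R)) * X)) ^ l = (0 : R[X]) := by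
  have h1 : (p : R) ^ l = 0 := by
    obtain ⟨m, rfl⟩ := Nat.exists_eq_add_of_le h
    rw [pow_add, hs, zero_mul]
  rw [neg_pow, mul_pow, ← C_pow, mul_pow, h1, mul_zero, C_0, zero_mul, mul_zero]

theorem inv1_spec (s i : ℕ) (hi : i + 1 < p) (f : ℤ_[p] →+* R) (hs : (p : R) ^ s = 0) :
    (inv1 p s i).map f * (C (p : R) * X + C ((i : R) + 1)) = 1 := by
  rw [rseqa_map]
  have hu : f (Ring.inverse ((i + 1 : ℕ) : ℤ_[p])) * ((i : R) + 1) = 1 := by
    have h := congrArg f (Ring.inverse_mul_cancel _ (rseqa_unit i hi))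
    rw [map_mul, map_natCast, map_one] at h
    have h3 : ((i : R) + 1) = ((i + 1 : ℕ) : R) := by push_cast; ring
    rw [h3]
    exact h
  generalize f (Ring.inverse ((i + 1 : ℕ) : ℤ_[p])) = u at hu ⊢
  have h1 : C u * (C (p : R) * X + C ((i : R) + 1)) = 1 - (- (C (u * (p : R)) * X)) := by
    rw [mul_add, ← C_mul, hu, C_1, C_mul]
    ring
  have h2 := geom_sum_mul_neg (- (C (u * (p : R)) * X)) s
  rw [rseqa_pow s s le_rfl u hs, sub_zero] at h2
  calc C u * (∑ l ∈ range s, (- (C (u * (p : R)) * X)) ^ l) * (C (p : R) * X + C ((i : R) + 1))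
      = (∑ l ∈ range s, (- (C (u * (p : R)) * X)) ^ l)
        * (C u * (C (p : R) * X + C ((i : R) + 1))) := by ring
    _ = 1 := by rw [h1, h2]

theorem inv1_indep (s s' i : ℕ) (h : s ≤ s') (f : ℤ_[p] →+* R) (hs : (p : R) ^ s = 0) :
    (inv1 p s' i).map f = (inv1 p s i).map f := by
  rw [rseqa_map, rseqa_map]
  congr 1
  symm
  apply Finset.sum_subset (Finset.range_mono h)
  intro l _ hl
  exact rseqa_pow s l (by simpa using hl) _ hs

theorem rr_zero (n : ℕ) (a : ℤ[X]) (s : ℕ) : rr p n a s 0 = 1 := by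
  unfold rr
  rw [Finset.prod_range_zero]

theorem rseqa_amap (a : ℤ[X]) (i : ℕ) (f : ℤ_[p] →+* R) :
    ((aR a ℤ_[p]).comp (C (p : ℤ_[p]) * X + C (i : ℤ_[p]))).map f
      = (aR a R).comp (C (p : R) * X + C (i : R)) := by
  rw [Polynomial.map_comp, aR_map, Polynomial.map_add, Polynomial.map_mul, Polynomial.map_C,
    Polynomial.map_C, Polynomial.map_X, map_natCast f p, map_natCast f i]

theorem rr_succ (n : ℕ) (a : ℤ[X]) (s j : ℕ) (hj : j + 1 < p) (f : ℤ_[p] →+* R)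
    (hs : (p : R) ^ s = 0) :
    (rr p n a s (j + 1)).map f * (C (p : R) * X + C ((j : R) + 1)) ^ n
      = (rr p n a s j).map f * (aR a R).comp (C (p : R) * X + C (j : R)) := by
  have h1 : rr p n a s (j + 1) = rr p n a s j *
      ((aR a ℤ_[p]).comp (C (p : ℤ_[p]) * X + C (j : ℤ_[p])) * inv1 p s j ^ n) := by
    unfold rr
    rw [Finset.prod_range_succ]
  have h2 := inv1_spec s j hj f hs
  rw [h1, Polynomial.map_mul, Polynomial.map_mul, rseqa_amap, Polynomial.map_pow]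
  calc _ = (rr p n a s j).map f * (aR a R).comp (C (p : R) * X + C (j : R))
        * ((inv1 p s j).map f * (C (p : R) * X + C ((j : R) + 1))) ^ n := by
          rw [mul_pow]
          ring
    _ = _ := by rw [h2, one_pow, mul_one]

theorem rr_indep (n : ℕ) (a : ℤ[X]) (s s' j : ℕ) (h : s ≤ s') (f : ℤ_[p] →+* R)
    (hs : (p : R) ^ s = 0) : (rr p n a s' j).map f = (rr p n a s j).map f := by
  unfold rr
  rw [Polynomial.map_prod, Polynomial.map_prod]
  refine Finset.prod_congr rfl (fun i _ => ?_)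
  rw [Polynomial.map_mul, Polynomial.map_mul, Polynomial.map_pow, Polynomial.map_pow,
    inv1_indep s s' i h f hs]

theorem rr_adm (n : ℕ) (a : ℤ[X]) (s j : ℕ) (i : ℕ) :
    (p : ℤ_[p]) ^ (min i 3) ∣ (rr p n a s j).coeff i := by
  have hQ : ∃ Q : ℤ_[p][X], rr p n a s j = Q.comp (C (p : ℤ_[p]) * X) := by
    have h1 : ∀ i : ℕ, (aR a ℤ_[p]).comp (C (p : ℤ_[p]) * X + C (i : ℤ_[p]))
        * inv1 p s i ^ n = ((aR a ℤ_[p]).comp (X + C (i : ℤ_[p])) *
          (C (Ring.inverse ((i + 1 : ℕ) : ℤ_[p])) *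
          ∑ l ∈ range s, (- (C (Ring.inverse ((i + 1 : ℕ) : ℤ_[p])) * X)) ^ l) ^ n).comp
            (C (p : ℤ_[p]) * X) := by
      intro i
      rw [mul_comp, comp_assoc, pow_comp, mul_comp, C_comp, add_comp, X_comp, C_comp]
      unfold inv1
      congr 3
      rw [Polynomial.sum_comp]
      refine Finset.sum_congr rfl (fun l _ => ?_)
      rw [pow_comp, neg_comp, mul_comp, C_comp, X_comp, C_mul, mul_assoc]
    refine ⟨∏ i ∈ range j, ((aR a ℤ_[p]).comp (X + C (i : ℤ_[p])) *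
          (C (Ring.inverse ((i + 1 : ℕ) : ℤ_[p])) *
          ∑ l ∈ range s, (- (C (Ring.inverse ((i + 1 : ℕ) : ℤ_[p])) * X)) ^ l) ^ n), ?_⟩
    rw [Polynomial.prod_comp]
    unfold rr
    exact Finset.prod_congr rfl (fun i _ => h1 i)
  obtain ⟨Q, hQ⟩ := hQ
  rw [hQ, comp_C_mul_X_coeff]
  exact ((pow_dvd_pow _ (min_le_left i 3)).mul_left _)

end Pool.Agent.H.MP_7425ae_nt
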