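import Pool.Agent.H.MP_7425ae_nt.Basic

/-! Power series over `W/p^s`, the derivation `h d/dh`, torsion estimates. -/

set_option autoImplicit false

open Polynomial

namespace Pool.Agent.H.MP_7425ae_nt

/-- `W / p^s` -/
abbrev Qs (W : Type) [CommRing W] (p s : ℕ) : Type := W ⧸ Ideal.span {(p : W) ^ s}

/-- the projection `W / p^{s'} -> W / p^s` for `s <= s'` -/
noncomputable def qsMap (W : Type) [CommRing W] (p : ℕ) {s s' : ℕ} (h : s ≤ s') :
    Qs W p s' →+* Qs W p s :=
  Ideal.Quotient.factor (by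
    rw [Ideal.span_le, Set.singleton_subset_iff, SetLike.mem_coe, Ideal.mem_span_singleton]
    exact pow_dvd_pow _ h)

/-- the derivation `h d/dh` of `k[[h]]` -/
noncomputable def thd (k : Type) [CommRing k] (f : PowerSeries k) : PowerSeries k :=
  PowerSeries.mk (fun i => (i : k) * PowerSeries.coeff i f)

theorem coeff_thd (k : Type) [CommRing k] (f : PowerSeries k) (i : ℕ) :
    PowerSeries.coeff i (thd k f) = (i : k) * PowerSeries.coeff i f := by
  rw [thd, PowerSeries.coeff_mk]

theorem thd_isDer (k : Type) [CommRing k] : IsDer (thd k) := by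
  constructor
  · intro a b
    ext i
    rw [coeff_thd, map_add, map_add, coeff_thd, coeff_thd, mul_add]
  · intro a b
    ext i
    rw [coeff_thd, map_add, PowerSeries.coeff_mul, PowerSeries.coeff_mul, PowerSeries.coeff_mul,
      Finset.mul_sum, ← Finset.sum_add_distrib]
    refine Finset.sum_congr rfl ?_
    intro x hx
    rw [Finset.HasAntidiagonal.mem_antidiagonal] at hx
    rw [coeff_thd, coeff_thd, ← hx, Nat.cast_add]
    ring

theorem thd_X (k : Type) [CommRing k] : thd k PowerSeries.X = PowerSeries.X := by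
  ext i
  rw [coeff_thd, PowerSeries.coeff_X]
  split_ifs with h
  · subst h
    simp
  · simp

theorem thd_C (k : Type) [CommRing k] (c : k) : thd k (PowerSeries.C c) = 0 := by
  ext i
  rw [coeff_thd, PowerSeries.coeff_C]
  split_ifs with h
  · subst h
    simp
  · simp

theorem rigida_cancel {W : Type} [CommRing W] (p : ℕ)
    (tf : ∀ w : W, (p : W) * w = 0 → w = 0) (a b : ℕ) (w : W)
    (h : (p : W) ^ (a + b) ∣ (p : W) ^ a * w) : (p : W) ^ b ∣ w := by
  induction a with
  | zero => simpa using h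
  | succ a ih =>
    apply ih
    obtain ⟨c, hc⟩ := h
    refine ⟨c, ?_⟩
    have h1 : (p : W) * ((p : W) ^ a * w - (p : W) ^ (a + b) * c) = 0 := by
      have e : (p : W) * ((p : W) ^ a * w - (p : W) ^ (a + b) * c) =
          (p : W) ^ (a + 1) * w - (p : W) ^ (a + 1 + b) * c := by
        ring
      rw [e, hc, sub_self]
    exact sub_eq_zero.1 (tf _ h1)

/-- torsion estimate: if `i^e w = 0` in `W/p^{s'}` with `s' = s + e i` (so that
`s' >= s + e v_p(i)`), then the image of `w` in `W/p^s` vanishes. -/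
theorem tors {W : Type} [CommRing W] (p : ℕ) [Fact p.Prime]
    (tf : ∀ w : W, (p : W) * w = 0 → w = 0) (unit : ∀ m : ℕ, Nat.Coprime m p → IsUnit (m : W))
    (s e i : ℕ) (hi : 0 < i) (w : Qs W p (s + e * i))
    (hw : ((i : ℕ) : Qs W p (s + e * i)) ^ e * w = 0) :
    qsMap W p (Nat.le_add_right s (e * i)) w = 0 := by
  obtain ⟨w0, rfl⟩ := Ideal.Quotient.mk_surjective w
  have hp : p.Prime := Fact.out
  obtain ⟨v, m, hm, him⟩ := Nat.exists_eq_pow_mul_and_not_dvd hi.ne' p hp.ne_one
  have hcop : Nat.Coprime m p := ((Nat.Prime.coprime_iff_not_dvd hp).2 hm).symm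
  have hvi : v ≤ i := by
    have h1 : v < p ^ v := Nat.lt_pow_self hp.one_lt
    have h2 : 0 < m := by
      rcases Nat.eq_zero_or_pos m with h | h
      · subst h
        simp at him
        omega
      · exact h
    have h3 : p ^ v ≤ i := by
      rw [him]
      exact Nat.le_mul_of_pos_right _ h2
    omega
  have hdvd : (p : W) ^ (s + e * i) ∣ (i : W) ^ e * w0 := by
    have h1 : (Ideal.Quotient.mk (Ideal.span {(p : W) ^ (s + e * i)})) ((i : W) ^ e * w0) = 0 := by
      rw [map_mul, map_pow, map_natCast]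
      exact hw
    rw [Ideal.Quotient.eq_zero_iff_mem, Ideal.mem_span_singleton] at h1
    exact h1
  have hdvd2 : (p : W) ^ (s + e * i) ∣ (p : W) ^ (e * v) * w0 := by
    obtain ⟨u, hu⟩ := (unit m hcop).pow e
    have e1 : (i : W) ^ e * w0 = (u : W) * ((p : W) ^ (e * v) * w0) := by
      rw [hu, him, Nat.cast_mul, Nat.cast_pow, mul_pow, ← pow_mul, mul_comm v e]
      ring
    rw [e1] at hdvd
    exact (Units.dvd_mul_left).1 hdvd
  have hev : e * v ≤ e * i := Nat.mul_le_mul_left e hvi
  have hdvd3 : (p : W) ^ s ∣ w0 := by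
    have e2 : s + e * i = e * v + (s + (e * i - e * v)) := by omega
    rw [e2] at hdvd2
    have h4 := rigida_cancel p tf _ _ _ hdvd2
    exact (pow_dvd_pow _ (Nat.le_add_right _ _)).trans h4
  rw [qsMap, Ideal.Quotient.factor_mk, Ideal.Quotient.eq_zero_iff_mem,
    Ideal.mem_span_singleton]
  exact hdvd3

/-- if `L` and `R` are square matrices with `L^m = 0`, `R^m = 0` and `i D = L D + D R` then
`i^{2m} D = 0`. -/
theorem nilp_step {k : Type} [CommRing k] {m : ℕ} (i : k) (L R D : Matrix (Fin m) (Fin m) k)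
    (hL : L ^ m = 0) (hR : R ^ m = 0) (h : i • D = L * D + D * R) : i ^ (2 * m) • D = 0 := by
  have hcomm : Commute (LinearMap.mulLeft k L) (LinearMap.mulRight k R) :=
    LinearMap.commute_mulLeft_right L R
  have hA : (LinearMap.mulLeft k L) ^ m = 0 := by
    rw [LinearMap.pow_mulLeft, hL, LinearMap.mulLeft_zero_eq_zero]
  have hB : (LinearMap.mulRight k R) ^ m = 0 := by
    rw [LinearMap.pow_mulRight, hR, LinearMap.mulRight_zero_eq_zero]
  have h0 : (LinearMap.mulLeft k L + LinearMap.mulRight k R) ^ (2 * m) = 0 :=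
    hcomm.add_pow_eq_zero_of_add_le_succ_of_pow_eq_zero hA hB (by omega)
  have h1 : ∀ j : ℕ, ((LinearMap.mulLeft k L + LinearMap.mulRight k R) ^ j) D = i ^ j • D := by
    intro j
    induction j with
    | zero => simp
    | succ j ih =>
      rw [pow_succ', Module.End.mul_apply, ih, map_smul, LinearMap.add_apply,
        LinearMap.mulLeft_apply, LinearMap.mulRight_apply, ← h, smul_smul, pow_succ]
  rw [← h1, h0, LinearMap.zero_apply]

end Pool.Agent.H.MP_7425ae_nt
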