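import Pool.Agent.H.MP_7425ae_nt.SumB
import Pool.Agent.H.MP_7425ae_nt.US
import Pool.Agent.H.MP_7425ae_nt.HRel

/-! The point `u0` on the line of the symmetric square structure (split primes). -/

set_option autoImplicit false

open Polynomial

namespace Pool.Agent.H.MP_7425ae_nt

private theorem splitpt_units {p : ℕ} [Fact p.Prime] (hp : 5 ≤ p) (h19 : p ≠ 19) {R : Type}
    [CommRing R] (s : ℕ) (f : ZMod (p ^ s) →+* R) :
    IsUnit (2 : R) ∧ IsUnit (3 : R) ∧ IsUnit (19 : R) := by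
  have hpp : p.Prime := Fact.out
  have key : ∀ q : ℕ, q.Prime → q ≠ p → IsUnit ((q : ℕ) : R) := by
    intro q hq hqp
    have h1 : IsUnit ((q : ℕ) : ZMod (p ^ s)) :=
      (ZMod.isUnit_iff_coprime q (p ^ s)).2
        (((Nat.coprime_primes hq hpp).2 hqp).pow_right s)
    have h2 := h1.map f
    rwa [map_natCast] at h2
  refine ⟨?_, ?_, ?_⟩
  · exact_mod_cast key 2 Nat.prime_two (by omega)
  · exact_mod_cast key 3 Nat.prime_three (by omega)
  · exact_mod_cast key 19 (by norm_num) (by omega)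

/-- Fermat for integers, in a ring -/
private theorem splitpt_fermat {p : ℕ} [Fact p.Prime] {R : Type} [CommRing R] (n : ℤ) :
    ∃ m : R, ((n : ℤ) : R) ^ p = (n : R) + (p : R) * m := by
  have h1 : (p : ℤ) ∣ n ^ p - n := by
    rw [← ZMod.intCast_zmod_eq_zero_iff_dvd]
    push_cast
    rw [ZMod.pow_card, sub_self]
  obtain ⟨m, hm⟩ := h1
  refine ⟨(m : R), ?_⟩
  have h2 := congrArg (Int.cast : ℤ → R) hm
  push_cast at h2
  linear_combination h2

/-- Euler for `114`, in a ring -/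
private theorem splitpt_euler {p : ℕ} [Fact p.Prime] (hp : 5 ≤ p) {R : Type} [CommRing R] :
    ∃ m : R, (114 : R) ^ ((p - 1) / 2) = ((jacobiSym 114 p : ℤ) : R) + (p : R) * m := by
  have hpp : p.Prime := Fact.out
  have hodd : p % 2 = 1 := hpp.eq_two_or_odd.resolve_left (by omega)
  have hhalf : p / 2 = (p - 1) / 2 := by omega
  have h1 : (p : ℤ) ∣ 114 ^ ((p - 1) / 2) - jacobiSym 114 p := by
    rw [← ZMod.intCast_zmod_eq_zero_iff_dvd]
    push_cast
    rw [← jacobiSym.legendreSym.to_jacobiSym, legendreSym.eq_pow, hhalf]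
    norm_num
  obtain ⟨m, hm⟩ := h1
  refine ⟨(m : R), ?_⟩
  have h2 := congrArg (Int.cast : ℤ → R) hm
  push_cast at h2
  linear_combination h2

/-- Frobenius on `u`: `u^p = u' + p e` -/
private theorem splitpt_frob {p : ℕ} [Fact p.Prime] (hp : 5 ≤ p) {R : Type} [CommRing R]
    (h2 : IsUnit (2 : R)) (h3 : IsUnit (3 : R)) (g : R) (hg : g ^ 2 = 114) (u u' : R)
    (hu : 27648 * u = 32 - 3 * g)
    (hu' : 27648 * u' = 32 - 3 * (((jacobiSym 114 p : ℤ) : R) * g)) :
    ∃ e : R, u ^ p = u' + (p : R) * e := by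
  have hpp : p.Prime := Fact.out
  have hodd : p % 2 = 1 := hpp.eq_two_or_odd.resolve_left (by omega)
  obtain ⟨r1, hr1⟩ := exists_add_pow_prime_eq hpp (32 : R) (-(3 * g))
  obtain ⟨r, hr⟩ : ∃ r : R, (32 + -(3 * g)) ^ p = 32 ^ p + (-(3 * g)) ^ p + (p : R) * r :=
    ⟨32 * -(3 * g) * r1, by rw [hr1]; ring⟩
  obtain ⟨m1, hm1⟩ := splitpt_fermat (p := p) (R := R) 32
  obtain ⟨m2, hm2⟩ := splitpt_fermat (p := p) (R := R) 3
  obtain ⟨m4, hm4⟩ := splitpt_fermat (p := p) (R := R) 27648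
  obtain ⟨m3, hm3⟩ := splitpt_euler hp (R := R)
  push_cast at hm1 hm2 hm4
  set ε : R := ((jacobiSym 114 p : ℤ) : R) with hε
  have hgp : g ^ p = g * (ε + (p : R) * m3) := by
    have h5 : p = 2 * ((p - 1) / 2) + 1 := by omega
    calc g ^ p = g ^ (2 * ((p - 1) / 2) + 1) := by rw [← h5]
      _ = g * (g ^ 2) ^ ((p - 1) / 2) := by rw [pow_succ, pow_mul]; ring
      _ = g * (ε + (p : R) * m3) := by rw [hg, hm3]
  have hneg : (-(3 * g)) ^ p = -(3 ^ p * g ^ p) := by
    rw [Odd.neg_pow (Nat.odd_iff.2 hodd), mul_pow]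
  have hl : (27648 * u) ^ p = 27648 ^ p * u ^ p := mul_pow _ _ _
  have hr' : (27648 * u) ^ p = 32 ^ p + (-(3 * g)) ^ p + (p : R) * r := by
    rw [hu, ← hr, sub_eq_add_neg]
  rw [hl, hneg, hgp, hm1, hm2, hm4] at hr'
  have hU : IsUnit (27648 : R) := by
    have : (27648 : R) = 2 ^ 10 * 3 ^ 3 := by norm_num
    rw [this]
    exact (h2.pow _).mul (h3.pow _)
  obtain ⟨v, hv⟩ := hU
  have hvi : (27648 : R) * (↑v⁻¹ : R) = 1 := by
    rw [← hv]
    exact v.mul_inv
  refine ⟨(↑v⁻¹ : R) * (m1 - 3 * g * m3 - m2 * g * (ε + (p : R) * m3) + r - m4 * u ^ p), ?_⟩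
  have key : 27648 * (u ^ p) = 27648 * u' + (p : R) *
      (m1 - 3 * g * m3 - m2 * g * (ε + (p : R) * m3) + r - m4 * u ^ p) := by
    linear_combination hr' - hu'
  linear_combination (↑v⁻¹ : R) * key - (u ^ p - u') * hvi

private theorem splitpt_xu {R : Type} [CommRing R] (h2 : IsUnit (2 : R)) (g : R)
    (hg : g ^ 2 = 114) (u : R) (hu : 27648 * u = 32 - 3 * g) : (-884736) * xu u = 1 := by
  apply h2.mul_left_cancel
  unfold xu
  linear_combination (27648 * u + (32 - 3 * g) - 64) * hu + 9 * hg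

private theorem splitpt_uu {R : Type} [CommRing R] (h2 : IsUnit (2 : R)) (h3 : IsUnit (3 : R))
    (h19 : IsUnit (19 : R)) (g : R)
    (hg : g ^ 2 = 114) (u : R) (hu : 27648 * u = 32 - 3 * g) : IsUnit u ∧ UU u := by
  have h := splitpt_xu h2 g hg u hu
  unfold xu at h
  refine ⟨?_, ?_, ?_⟩
  · exact IsUnit.of_mul_eq_one (-884736 * (1 - 432 * u)) (by linear_combination h)
  · exact IsUnit.of_mul_eq_one (-884736 * u) (by linear_combination h)
  · have hgU : IsUnit g := by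
      have h5 : IsUnit (g ^ 2) := by
        rw [hg]
        have : (114 : R) = 2 * 3 * 19 := by norm_num
        rw [this]
        exact (h2.mul h3).mul h19
      exact (isUnit_pow_iff two_ne_zero).1 h5
    have h6 : IsUnit ((1 - 864 * u) * 32) := by
      have : (1 - 864 * u) * 32 = 3 * g := by linear_combination -hu
      rw [this]
      exact h3.mul hgU
    exact isUnit_of_mul_isUnit_left h6

theorem split_pt {p : ℕ} [Fact p.Prime] (hp : 5 ≤ p) (hj : jacobiSym (p : ℤ) 19 = 1)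
    {S3 S2 : Sys ℤ_[p]} (h3 : S3.Good p 3 a3 c3) (h2 : S2.Good p 2 a2 c2)
    (hr3 : S3.rho = (p : ℤ_[p])) (hr2 : S2.rho = (p : ℤ_[p]))
    (x0 : ZMod (p ^ 2)) (hx0 : (-884736) * x0 = 1)
    (R : Type) [CommRing R] (i : ZMod (p ^ 2) →+* R) (g : R) (hg : g ^ 2 = 114) (u u' : R)
    (hu : 27648 * u = 32 - 3 * g)
    (hu' : 27648 * u' = 32 - 3 * (((jacobiSym 114 p : ℤ) : R) * g)) :
    ∃ P L t : R, P ^ 2 = i (Sz (p ^ 2) p x0) ∧ P * L = 0 ∧ L ^ 2 = 0 ∧
      (1 + (p : R) * t) * u' = u ^ p ∧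
      Phi p (S2.dat 2 (i.comp (PadicInt.toZModPow 2))) u t 1 = C P + C L * X := by
  have hpp : p.Prime := Fact.out
  have h19 : p ≠ 19 := by
    rintro rfl
    revert hj
    have : jacobiSym ((19 : ℕ) : ℤ) 19 = 0 := by norm_num
    rw [this]
    norm_num
  have hp0 : (p : ZMod (p ^ 2)) ^ 2 = 0 := by
    have := ZMod.natCast_self (p ^ 2)
    rwa [Nat.cast_pow] at this
  have hpR : (p : R) ^ 2 = 0 := by
    have := congrArg i hp0
    rwa [map_pow, map_natCast, map_zero] at this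
  obtain ⟨U2, U3, U19⟩ := splitpt_units hp h19 2 i
  have hε : ((jacobiSym 114 p : ℤ) : R) ^ 2 = 1 := by
    have hcop : IsCoprime (114 : ℤ) (p : ℤ) := by
      have c2 : Nat.Coprime 2 p := (Nat.coprime_primes Nat.prime_two hpp).2 (by omega)
      have c3 : Nat.Coprime 3 p := (Nat.coprime_primes Nat.prime_three hpp).2 (by omega)
      have c19 : Nat.Coprime 19 p := (Nat.coprime_primes (by norm_num) hpp).2 (by omega)
      have h : Nat.Coprime 114 p := by
        have : 114 = 2 * 3 * 19 := by norm_num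
        rw [this]
        exact (c2.mul_left c3).mul_left c19
      exact Nat.isCoprime_iff_coprime.2 h
    have h8 : jacobiSym 114 p ^ 2 = 1 :=
      jacobiSym.sq_one (Int.isCoprime_iff_gcd_eq_one.1 hcop)
    exact_mod_cast congrArg (Int.cast : ℤ → R) h8
  have hg' : (((jacobiSym 114 p : ℤ) : R) * g) ^ 2 = 114 := by
    rw [mul_pow, hε, hg, one_mul]
  have hxu := splitpt_xu U2 g hg u hu
  have hxu' := splitpt_xu U2 _ hg' u' hu'
  obtain ⟨hUu, hUUu⟩ := splitpt_uu U2 U3 U19 g hg u hu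
  obtain ⟨hUu', hUUu'⟩ := splitpt_uu U2 U3 U19 _ hg' u' hu'
  have hix : (-884736) * i x0 = 1 := by
    have := congrArg i hx0
    rw [map_mul, map_one, map_neg, map_ofNat] at this
    exact this
  have e1 : xu u = i x0 := by
    linear_combination (-(xu u)) * hix + i x0 * hxu
  have e2 : xu u' = i x0 := by
    linear_combination (-(xu u')) * hix + i x0 * hxu'
  -- the element t
  obtain ⟨e, he⟩ := splitpt_frob hp U2 U3 g hg u u' hu hu'
  obtain ⟨v, hv⟩ := hUu'
  have hvi : u' * (↑v⁻¹ : R) = 1 := by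
    rw [← hv]
    exact v.mul_inv
  have ht : (1 + (p : R) * (e * (↑v⁻¹ : R))) * u' = u ^ p := by
    rw [he]
    linear_combination (p : R) * e * hvi
  obtain ⟨t0, ht0⟩ := sumb_t0 hp 2 x0 hx0
  have ht0' : (1 + (p : R) * i t0) * i x0 = (i x0) ^ p := by
    have := congrArg i ht0
    rw [map_mul, map_add, map_one, map_mul, map_natCast, map_pow] at this
    exact this
  set f : ℤ_[p] →+* R := i.comp (PadicInt.toZModPow 2) with hf
  have hf3 : f S3.rho = (p : R) := by rw [hr3, map_natCast]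
  have hf2 : f S2.rho = (p : R) := by rw [hr2, map_natCast]
  set t : R := e * (↑v⁻¹ : R) with htdef
  have hUS := US hp h3 h2 (by rw [hr3, hr2]) 2 R f hpR u u' t (i t0) hUu hUUu
    (by rw [hf3]; exact ht) (by rw [hf3, e1, e2]; exact ht0')
  have hlead := sumb_lead hp h19 2 x0 hx0
  rw [e1, e2, hf, S3.dat_map 2 (PadicInt.toZModPow 2) i, Mmat_map _ x0 x0 t0 hlead i, ← hf] at hUS
  obtain ⟨s1, s2⟩ := ES hp hj h3 hr3 2 x0 t0 hx0 ht0
  have key := sumb_key hp h19 h3 hr3 2 (by norm_num) x0 t0 hx0 ht0 1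
  have hSz : Sz (p ^ 2) p x0 = evN c3 p x0 1 := by
    unfold Sz evN
    apply Finset.sum_congr rfl
    intro k _
    simp
  have hM00 : Mmat p 3 a3 (S3.dat 2 (PadicInt.toZModPow 2)) x0 x0 t0 0 0
      = Sz (p ^ 2) p x0 := by
    rw [hSz, key]
    unfold Mmat
    simp
  set M0 := Mmat p 3 a3 (S3.dat 2 (PadicInt.toZModPow 2)) x0 x0 t0 with hM0
  set m := Mmat p 2 a2 (S2.dat 2 f) u u' t with hm
  have hcol : ∀ k : Fin 3, i (M0 k 0) =
      Cm u' k 0 * (m 0 0 ^ 2) + Cm u' k 1 * (2 * (m 0 0 * m 1 0)) + Cm u' k 2 * (m 1 0 ^ 2) := by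
    intro k
    have h5 := congrFun (congrFun hUS k) 0
    rw [Matrix.mul_apply, Matrix.mul_apply, Fin.sum_univ_three, Fin.sum_univ_three] at h5
    simpa [Cm, Sy2] using h5
  have q0 := hcol 0
  have q1 := hcol 1
  have q2 := hcol 2
  rw [hM00] at q0
  rw [s1, map_zero] at q1
  rw [s2, map_zero] at q2
  have w1 : (1 - 432 * u') * Ring.inverse (1 - 432 * u') = 1 := Ring.mul_inverse_cancel _ hUUu'.1
  have w2 : (2 : R) * Ring.inverse 2 = 1 := Ring.mul_inverse_cancel _ U2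
  have I1 : IsUnit (Ring.inverse (1 - 432 * u')) :=
    IsUnit.of_mul_eq_one (1 - 432 * u') (by rw [mul_comm]; exact w1)
  have I2 : IsUnit (Ring.inverse (2 : R)) :=
    IsUnit.of_mul_eq_one 2 (by rw [mul_comm]; exact w2)
  have r2 : m 1 0 ^ 2 = 0 := by
    have c20 : Cm u' 2 0 = 0 := rfl
    have c21 : Cm u' 2 1 = 0 := rfl
    have c22 : Cm u' 2 2 =
      (1 - 864 * u') ^ 2 * Ring.inverse (1 - 432 * u') ^ 2 * Ring.inverse 2 := rfl
    rw [c20, c21, zero_mul, zero_mul, zero_add, zero_add] at q2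
    have hunit : IsUnit (Cm u' 2 2) := by
      rw [c22]
      exact ((hUUu'.2.pow 2).mul (I1.pow 2)).mul I2
    exact (hunit.mul_right_eq_zero).1 q2.symm
  have r1 : m 0 0 * m 1 0 = 0 := by
    have c10 : Cm u' 1 0 = 0 := rfl
    have c11 : Cm u' 1 1 =
      (1 - 864 * u') * Ring.inverse (1 - 432 * u') * Ring.inverse 2 := rfl
    rw [c10, r2, zero_mul, zero_add, mul_zero, add_zero] at q1
    have hunit : IsUnit (Cm u' 1 1) := by
      rw [c11]
      exact (hUUu'.2.mul I1).mul I2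
    have h6 := (hunit.mul_right_eq_zero).1 q1.symm
    exact (U2.mul_right_eq_zero).1 h6
  have r0 : m 0 0 ^ 2 = i (Sz (p ^ 2) p x0) := by
    have c00 : Cm u' 0 0 = 1 := rfl
    rw [c00, r1, r2, mul_zero, mul_zero, mul_zero, add_zero, add_zero, one_mul] at q0
    exact q0.symm
  have hok := h2.ok 2 R f hpR
  have hrho : (S2.dat 2 f).rho = (p : R) := hf2
  have hPhi := Phi_one2 hok hpR hrho u u' t ((lead2_iff u').2 hUUu'.1)
  exact ⟨m 0 0, m 1 0, t, r0, r1, r2, ht, hPhi⟩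

end Pool.Agent.H.MP_7425ae_nt
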