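import Pool.Agent.H.MP_7425ae_nt.CmpMat
import Pool.Agent.H.MP_7425ae_nt.Der

/-! Symmetric squares of 2x2 matrices in the basis `e0^2, e0 e1, e1^2`. -/

set_option autoImplicit false

open Polynomial

namespace Pool.Agent.H.MP_7425ae_nt

variable {R S : Type} [CommRing R] [CommRing S]

/-- the symmetric square of a 2x2 matrix -/
def Sy2 (m : Matrix (Fin 2) (Fin 2) R) : Matrix (Fin 3) (Fin 3) R :=
  !![m 0 0 ^ 2, m 0 0 * m 0 1, m 0 1 ^ 2;
     2 * (m 0 0 * m 1 0), m 0 0 * m 1 1 + m 0 1 * m 1 0, 2 * (m 0 1 * m 1 1);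
     m 1 0 ^ 2, m 1 0 * m 1 1, m 1 1 ^ 2]

/-- the action of a 2x2 matrix on the symmetric square as a derivation -/
def s2 (m : Matrix (Fin 2) (Fin 2) R) : Matrix (Fin 3) (Fin 3) R :=
  !![2 * m 0 0, m 0 1, 0;
     2 * m 1 0, m 0 0 + m 1 1, 2 * m 0 1;
     0, m 1 0, 2 * m 1 1]

theorem Sy2_map (m : Matrix (Fin 2) (Fin 2) R) (f : R →+* S) :
    Sy2 (m.map f) = (Sy2 m).map f := by
  ext i j
  fin_cases i <;> fin_cases j <;> simp [Sy2, map_ofNat]

theorem s2_map (m : Matrix (Fin 2) (Fin 2) R) (f : R →+* S) :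
    s2 (m.map f) = (s2 m).map f := by
  ext i j
  fin_cases i <;> fin_cases j <;> simp [s2, map_ofNat]

theorem s2_smul (c : R) (m : Matrix (Fin 2) (Fin 2) R) : s2 (c • m) = c • s2 m := by
  ext i j
  fin_cases i <;> fin_cases j <;> simp [s2] <;> ring

theorem Sy2_diag (a b : R) :
    Sy2 (Matrix.diagonal ![a, b]) = Matrix.diagonal ![a ^ 2, a * b, b ^ 2] := by
  ext i j
  fin_cases i <;> fin_cases j <;> simp [Sy2, Matrix.diagonal]

/-- if `dm = m A - A' m` then `d Sy2(m) = Sy2(m) s2(A) - s2(A') Sy2(m)` -/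
theorem Sy2_ode {d : R → R} (hd : IsDer d) (m A A' : Matrix (Fin 2) (Fin 2) R)
    (h : m.map d = m * A - A' * m) :
    (Sy2 m).map d = Sy2 m * s2 A - s2 A' * Sy2 m := by
  have e : ∀ i j, d (m i j) = m i 0 * A 0 j + m i 1 * A 1 j - (A' i 0 * m 0 j + A' i 1 * m 1 j) := by
    intro i j
    have h1 := congrFun (congrFun h i) j
    simpa [Matrix.mul_apply, Fin.sum_univ_two] using h1
  have h2 : d 2 = 0 := by
    have := hd.natCast 2
    simpa using this
  have hsq : ∀ x : R, d (x ^ 2) = 2 * x * d x := by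
    intro x
    rw [sq, hd.mul]
    ring
  ext i j
  fin_cases i <;> fin_cases j <;>
    simp [Sy2, s2, hd.mul, hd.add, hsq, h2, e] <;> ring

end Pool.Agent.H.MP_7425ae_nt
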