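import Pool.Agent.H.MP_7425ae_nt.KRel
import Pool.Agent.H.MP_7425ae_nt.SplitPt

/-! (a) for split primes. -/

set_option autoImplicit false

open Polynomial

namespace Pool.Agent.H.MP_7425ae_nt

theorem szsplit_tors (p : ℕ) [Fact p.Prime] (x : ZMod (p ^ 3))
    (h : (p : ZMod (p ^ 3)) * x = 0) : ∃ e : ZMod (p ^ 3), x = (p : ZMod (p ^ 3)) ^ 2 * e := by
  have hpp : p.Prime := Fact.out
  have h1 : ((p * x.val : ℕ) : ZMod (p ^ 3)) = 0 := by
    push_cast
    rw [ZMod.natCast_val, ZMod.cast_id', id]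
    exact h
  rw [ZMod.natCast_eq_zero_iff] at h1
  have h2 : p ^ 2 ∣ x.val := by
    have : p * p ^ 2 ∣ p * x.val := by
      have h3 : p * p ^ 2 = p ^ 3 := by ring
      rw [h3]
      exact h1
    exact Nat.dvd_of_mul_dvd_mul_left hpp.pos this
  obtain ⟨k, hk⟩ := h2
  refine ⟨(k : ZMod (p ^ 3)), ?_⟩
  have h4 : ((x.val : ℕ) : ZMod (p ^ 3)) = x := by
    rw [ZMod.natCast_val, ZMod.cast_id', id]
  rw [← h4, hk]
  push_cast
  ring

/-- coordinatewise map of quadratic algebras -/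
def szsplit_map {A B : Type} [CommRing A] [CommRing B] (f : A →+* B) (a : A) (b : B)
    (h : f a = b) : QuadraticAlgebra A a 0 →+* QuadraticAlgebra B b 0 where
  toFun z := ⟨f z.re, f z.im⟩
  map_one' := by
    ext <;> simp [QuadraticAlgebra.re_one, QuadraticAlgebra.im_one]
  map_mul' := by
    intro x y
    subst h
    ext <;> simp
  map_zero' := by
    ext <;> simp
  map_add' := by
    intro x y
    ext <;> simp

/-- the ring `Z/p^s [sqrt 114]` and the reduction maps -/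
theorem exists_quad (p : ℕ) [Fact p.Prime] (hp : 5 ≤ p) :
    ∃ (R3 R2 : Type) (_ : CommRing R3) (_ : CommRing R2) (i3 : ZMod (p ^ 3) →+* R3)
      (i2 : ZMod (p ^ 2) →+* R2) (φ : R3 →+* R2) (g : R3),
      g ^ 2 = 114 ∧ Function.Injective i2 ∧ (∀ a : R3, (p : R3) * a = 0 → φ a = 0) ∧
      (∀ a : R3, (p : R3) * a = 0 → ∃ e : R3, a = (p : R3) * e) := by
  let f : ZMod (p ^ 3) →+* ZMod (p ^ 2) := ZMod.castHom (pow_dvd_pow p (by norm_num)) _
  have hf : f 114 = 114 := map_ofNat f 114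
  have hf0 : ∀ x : ZMod (p ^ 3), (p : ZMod (p ^ 3)) * x = 0 → f x = 0 := by
    intro x hx
    obtain ⟨e, he⟩ := szsplit_tors p x hx
    rw [he, map_mul, map_pow, map_natCast]
    have : ((p : ZMod (p ^ 2))) ^ 2 = 0 := by
      have h := ZMod.natCast_self (p ^ 2)
      push_cast at h
      exact h
    rw [this, zero_mul]
  refine ⟨QuadraticAlgebra (ZMod (p ^ 3)) 114 0, QuadraticAlgebra (ZMod (p ^ 2)) 114 0,
    inferInstance, inferInstance, algebraMap _ _, algebraMap _ _, szsplit_map f 114 114 hf,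
    ⟨0, 1⟩, ?_, QuadraticAlgebra.algebraMap_injective, ?_, ?_⟩
  · rw [pow_two]
    ext <;> simp [QuadraticAlgebra.re_ofNat, QuadraticAlgebra.im_ofNat]
  · intro a ha
    have h1 := congrArg QuadraticAlgebra.re ha
    have h2 := congrArg QuadraticAlgebra.im ha
    simp at h1 h2
    ext
    · exact hf0 _ h1
    · exact hf0 _ h2
  · intro a ha
    have h1 := congrArg QuadraticAlgebra.re ha
    have h2 := congrArg QuadraticAlgebra.im ha
    simp at h1 h2
    obtain ⟨e1, he1⟩ := szsplit_tors p _ h1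
    obtain ⟨e2, he2⟩ := szsplit_tors p _ h2
    refine ⟨⟨(p : ZMod (p ^ 3)) * e1, (p : ZMod (p ^ 3)) * e2⟩, ?_⟩
    ext
    · simp [he1]
      ring
    · simp [he2]
      ring


theorem szsplit_ne {p : ℕ} [Fact p.Prime] (q : ℕ) (hq : q.Prime) (h : q ≠ p) :
    ((q : ℤ) : ZMod p) ≠ 0 := by
  intro h0
  have hpp : p.Prime := Fact.out
  rw [Int.cast_natCast, ZMod.natCast_eq_zero_iff] at h0
  exact h ((Nat.prime_dvd_prime_iff_eq hpp hq).1 h0).symm

/-- Legendre symbols -/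
theorem szsplit_eps {p : ℕ} [Fact p.Prime] (hp : 5 ≤ p) (h19 : p ≠ 19) (x y : ℤ)
    (hxy : 4 * (p : ℤ) = x ^ 2 + 19 * y ^ 2) :
    jacobiSym 114 p = jacobiSym (-6) p ∧ (jacobiSym 114 p = 1 ∨ jacobiSym 114 p = -1) ∧
      (p : ℤ) ∣ 114 ^ ((p - 1) / 2) - jacobiSym 114 p := by
  have hpp : p.Prime := Fact.out
  have e2 : ((2 : ℤ) : ZMod p) ≠ 0 := szsplit_ne 2 Nat.prime_two (by omega)
  have e3 : ((3 : ℤ) : ZMod p) ≠ 0 := szsplit_ne 3 Nat.prime_three (by omega)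
  have e19 : ((19 : ℤ) : ZMod p) ≠ 0 := szsplit_ne 19 (by norm_num) (by omega)
  have h114 : ((114 : ℤ) : ZMod p) ≠ 0 := by
    have : (114 : ℤ) = 2 * 3 * 19 := by norm_num
    rw [this, Int.cast_mul, Int.cast_mul]
    exact mul_ne_zero (mul_ne_zero e2 e3) e19
  have hm19 : ((-19 : ℤ) : ZMod p) ≠ 0 := by
    push_cast
    push_cast at e19
    exact neg_ne_zero.2 e19
  have hy : ((y : ℤ) : ZMod p) ≠ 0 := by
    intro h0
    rw [ZMod.intCast_zmod_eq_zero_iff_dvd] at h0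
    have hx : (p : ℤ) ∣ x := by
      have : (p : ℤ) ∣ x ^ 2 := by
        have h1 : x ^ 2 = (p : ℤ) * 4 - 19 * y * y := by linarith
        rw [h1]
        exact dvd_sub (dvd_mul_right _ _) (dvd_mul_of_dvd_right h0 _)
      exact (Nat.prime_iff_prime_int.mp hpp).dvd_of_dvd_pow this
    have h2 : (p : ℤ) ^ 2 ∣ 4 * p := by
      rw [hxy]
      exact dvd_add (pow_dvd_pow_of_dvd hx 2) (dvd_mul_of_dvd_right (pow_dvd_pow_of_dvd h0 2) _)
    have h3 : (p : ℤ) ∣ 4 := by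
      have h4 : (p : ℤ) * p ∣ p * 4 := by
        have : (p : ℤ) * p = p ^ 2 := by ring
        rw [this, mul_comm (p : ℤ) 4]
        exact h2
      exact (mul_dvd_mul_iff_left (by exact_mod_cast hpp.ne_zero)).1 h4
    have := Int.le_of_dvd (by norm_num) h3
    omega
  have hsq : IsSquare ((-19 : ℤ) : ZMod p) := by
    refine ⟨(x : ZMod p) * (y : ZMod p)⁻¹, ?_⟩
    have h1 : ((x : ℤ) : ZMod p) ^ 2 + 19 * (y : ZMod p) ^ 2 = 0 := by
      have := congrArg (Int.cast : ℤ → ZMod p) hxy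
      push_cast at this
      rw [← this]
      simp
    field_simp
    push_cast
    linear_combination -h1
  have hl : legendreSym p (-19) = 1 := (legendreSym.eq_one_iff p hm19).2 hsq
  have hj : jacobiSym (-19) p = 1 := by
    rw [← jacobiSym.legendreSym.to_jacobiSym]
    exact hl
  have h1 : jacobiSym 114 p = jacobiSym (-6) p := by
    have : (114 : ℤ) = (-6) * (-19) := by norm_num
    rw [this, jacobiSym.mul_left, hj, mul_one]
  refine ⟨h1, ?_, ?_⟩
  · rw [← jacobiSym.legendreSym.to_jacobiSym]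
    exact legendreSym.eq_one_or_neg_one p h114
  · rw [← jacobiSym.legendreSym.to_jacobiSym]
    have h2 := legendreSym.eq_pow p 114
    rw [← ZMod.intCast_zmod_eq_zero_iff_dvd]
    push_cast
    rw [h2]
    have h3 : (p - 1) / 2 = p / 2 := by
      have : p % 2 = 1 := Nat.odd_iff.1 (hpp.odd_of_ne_two (by omega))
      omega
    rw [h3]
    push_cast
    ring

theorem szsplit_pow {p : ℕ} [Fact p.Prime] (a : ℤ) : (p : ℤ) ∣ a ^ p - a := by
  rw [← ZMod.intCast_zmod_eq_zero_iff_dvd]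
  push_cast
  rw [ZMod.pow_card, sub_self]


theorem szsplit_unit {p : ℕ} [Fact p.Prime] {s : ℕ} {R : Type} [CommRing R]
    (i : ZMod (p ^ s) →+* R) (n : ℕ) (hn : n.Coprime p) : IsUnit (n : R) := by
  have h : IsUnit ((n : ℕ) : ZMod (p ^ s)) :=
    (ZMod.isUnit_iff_coprime _ _).2 (Nat.Coprime.pow_right _ hn)
  have := h.map i
  rwa [map_natCast] at this

theorem szsplit_sq {R : Type} [CommRing R] (a b : R) (k : ℕ) :
    (a ^ k * b) ^ 2 = (a ^ 2) ^ k * b ^ 2 := by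
  rw [mul_pow, ← pow_mul, ← pow_mul, mul_comm k 2]

/-- the final computation -/
theorem szsplit_fin {R : Type} [CommRing R] (m m2 p : ℕ) (hm2 : m2 = m + m * p)
    (E S q H2 H1 K2 K1 g : R) (hE : E ^ 2 = 1) (hg : g ^ 2 = 114)
    (hu16 : IsUnit (16 : R)) (hu1824 : IsUnit (1824 : R))
    (hpE : ((1824 : R) ^ m) ^ p = E)
    (hH2 : (16 * g) ^ m2 * H2 = 4 ^ m2 * K2) (hH1 : (16 * (E * g)) ^ m * H1 = 4 ^ m * K1)
    (hS : H2 ^ 2 = S * H1 ^ 2) (hK : K2 = q * K1) (hK1 : IsUnit K1) : S = E * q ^ 2 := by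
  have h1 : (16 : R) ^ m2 * (1824 ^ m2 * H2 ^ 2) = 16 ^ m2 * K2 ^ 2 := by
    have h : ((16 * g) ^ m2 * H2) ^ 2 = (4 ^ m2 * K2) ^ 2 := by rw [hH2]
    have e1 : ((16 * g) ^ m2 * H2) ^ 2 = ((16 * g) ^ 2) ^ m2 * H2 ^ 2 := szsplit_sq _ _ _
    have e2 : ((4 : R) ^ m2 * K2) ^ 2 = (4 ^ 2) ^ m2 * K2 ^ 2 := szsplit_sq _ _ _
    have e3 : (16 * g) ^ 2 = 16 * 1824 := by
      rw [mul_pow, hg]
      norm_num
    rw [e1, e2, e3, mul_pow] at h
    have e4 : (4 : R) ^ 2 = 16 := by norm_num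
    rw [e4, mul_assoc] at h
    exact h
  have h2 : (16 : R) ^ m * (1824 ^ m * H1 ^ 2) = 16 ^ m * K1 ^ 2 := by
    have h : ((16 * (E * g)) ^ m * H1) ^ 2 = (4 ^ m * K1) ^ 2 := by rw [hH1]
    have e1 : ((16 * (E * g)) ^ m * H1) ^ 2 = ((16 * (E * g)) ^ 2) ^ m * H1 ^ 2 := szsplit_sq _ _ _
    have e2 : ((4 : R) ^ m * K1) ^ 2 = (4 ^ 2) ^ m * K1 ^ 2 := szsplit_sq _ _ _
    have e3 : (16 * (E * g)) ^ 2 = 16 * 1824 := by
      rw [mul_pow, mul_pow, hg, hE]
      norm_num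
    rw [e1, e2, e3, mul_pow] at h
    have e4 : (4 : R) ^ 2 = 16 := by norm_num
    rw [e4, mul_assoc] at h
    exact h
  have h1' := (hu16.pow m2).mul_left_cancel h1
  have h2' := (hu16.pow m).mul_left_cancel h2
  have h3 : (1824 : R) ^ m * K1 ^ 2 * (E * S) = (1824 : R) ^ m * K1 ^ 2 * q ^ 2 := by
    have e5 : (1824 : R) ^ m2 = 1824 ^ m * E := by
      rw [hm2, pow_add, pow_mul, hpE]
    rw [hS, hK, e5] at h1'
    calc (1824 : R) ^ m * K1 ^ 2 * (E * S)
        = (1824 : R) ^ m * (1824 ^ m * H1 ^ 2) * (E * S) := by rw [h2']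
      _ = 1824 ^ m * (1824 ^ m * E * (S * H1 ^ 2)) := by ring
      _ = (1824 : R) ^ m * K1 ^ 2 * q ^ 2 := by rw [h1']; ring
  have h4 : E * S = q ^ 2 := ((hu1824.pow m).mul (hK1.pow 2)).mul_left_cancel h3
  calc S = E ^ 2 * S := by rw [hE, one_mul]
    _ = E * (E * S) := by ring
    _ = E * q ^ 2 := by rw [h4]

/-- (a), split case -/
theorem Sz_split {p : ℕ} [Fact p.Prime] (hp : 5 ≤ p) (hj : jacobiSym (p : ℤ) 19 = 1)
    {S3 S2 : Sys ℤ_[p]} (h3 : S3.Good p 3 a3 c3) (h2 : S2.Good p 2 a2 c2)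
    (hr3 : S3.rho = (p : ℤ_[p])) (hr2 : S2.rho = (p : ℤ_[p]))
    (x0 : ZMod (p ^ 2)) (hx0 : (-884736) * x0 = 1) (x y : ℤ)
    (hxy : 4 * (p : ℤ) = x ^ 2 + 19 * y ^ 2) :
    Sz (p ^ 2) p x0 = ((jacobiSym (-6) p * (x ^ 2 - 2 * (p : ℤ)) : ℤ) : ZMod (p ^ 2)) := by
  have hpp : p.Prime := Fact.out
  have h19 : p ≠ 19 := by
    rintro rfl
    revert hj
    norm_num
  have hodd : p % 2 = 1 := Nat.odd_iff.1 (hpp.odd_of_ne_two (by omega))
  obtain ⟨he6, hepm, hedvd⟩ := szsplit_eps hp h19 x y hxy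
  set ep : ℤ := jacobiSym 114 p with hep
  have hep2 : ep ^ 2 = 1 := by rcases hepm with h | h <;> rw [h] <;> norm_num
  have cop : ∀ q : ℕ, q.Prime → q ≠ p → q.Coprime p := fun q hq h =>
    (Nat.coprime_primes hq hpp).2 h
  have cop2 : Nat.Coprime 2 p := cop 2 Nat.prime_two (by omega)
  have cop3 : Nat.Coprime 3 p := cop 3 Nat.prime_three (by omega)
  have cop19 : Nat.Coprime 19 p := cop 19 (by norm_num) (by omega)
  obtain ⟨R3, R2, _, _, i3, i2, φ, g, hg, hi2, hφ, hR⟩ := exists_quad p hp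
  have hp2 : (p : R2) ^ 2 = 0 := by
    have h := congrArg i2 (ZMod.natCast_self (p ^ 2))
    rw [map_natCast, map_zero] at h
    push_cast at h
    exact h
  have hp3 : (p : R3) ^ 3 = 0 := by
    have h := congrArg i3 (ZMod.natCast_self (p ^ 3))
    rw [map_natCast, map_zero] at h
    push_cast at h
    exact h
  -- the point `c`
  obtain ⟨n, hn⟩ : ∃ n : ℕ, (3 : R3) * (n : R3) = 4 := by
    have hu : IsUnit ((3 : ℕ) : ZMod (p ^ 3)) :=
      (ZMod.isUnit_iff_coprime _ _).2 (Nat.Coprime.pow_right _ cop3)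
    obtain ⟨v, hv⟩ := hu.exists_right_inv
    refine ⟨(4 * v).val, ?_⟩
    have h1 : (((4 * v).val : ℕ) : R3) = i3 (4 * v) := by
      rw [← map_natCast i3, ZMod.natCast_val, ZMod.cast_id', id]
    rw [h1]
    have h5 : (3 : R3) = i3 ((3 : ℕ) : ZMod (p ^ 3)) := by
      rw [map_natCast]
      norm_num
    rw [h5, ← map_mul]
    have h6 : ((3 : ℕ) : ZMod (p ^ 3)) * (4 * v) = 4 := by
      calc ((3 : ℕ) : ZMod (p ^ 3)) * (4 * v) = 4 * (((3 : ℕ) : ZMod (p ^ 3)) * v) := by ring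
        _ = 4 := by rw [hv, mul_one]
    rw [h6, map_ofNat]
  set c : R3 := (n : R3) * g with hc
  set c' : R3 := (ep : R3) * c with hc'
  have hcc : ∃ e : R3, c ^ p = c' + (p : R3) * e := by
    obtain ⟨k, hk⟩ := hedvd
    obtain ⟨l, hl⟩ := szsplit_pow (p := p) (n : ℤ)
    have h1 : g ^ p = g * 114 ^ ((p - 1) / 2) := by
      have : p = 2 * ((p - 1) / 2) + 1 := by omega
      conv_lhs => rw [this, pow_succ, pow_mul, hg]
      ring
    have h4 : (114 : R3) ^ ((p - 1) / 2) = (ep : R3) + (p : R3) * (k : R3) := by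
      have := congrArg (Int.cast : ℤ → R3) (sub_eq_iff_eq_add.1 hk)
      push_cast at this
      rw [this]
      ring
    have h5 : (n : R3) ^ p = (n : R3) + (p : R3) * (l : R3) := by
      have := congrArg (Int.cast : ℤ → R3) (sub_eq_iff_eq_add.1 hl)
      push_cast at this
      rw [this]
      ring
    refine ⟨(n : R3) * g * (k : R3) + (l : R3) * g * ((ep : R3) + (p : R3) * (k : R3)), ?_⟩
    rw [hc', hc, mul_pow, h1, h4, h5]
    ring
  obtain ⟨q, hq, hKK, hunit⟩ := K_rel p hp h19 x y hxy R3 R2 i3 φ hp2 hφ hR c c' hcc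
  -- the units
  have u2 : IsUnit (2 : R2) := by
    have := szsplit_unit i2 2 cop2
    exact_mod_cast this
  have u3 : IsUnit (3 : R2) := by
    have := szsplit_unit i2 3 cop3
    exact_mod_cast this
  have u19 : IsUnit (19 : R2) := by
    have := szsplit_unit i2 19 cop19
    exact_mod_cast this
  have u16 : IsUnit (16 : R2) := by
    have h : (16 : R2) = 2 ^ 4 := by norm_num
    rw [h]
    exact u2.pow 4
  have u1824 : IsUnit (1824 : R2) := by
    have h : (1824 : R2) = 2 ^ 5 * 3 * 19 := by norm_num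
    rw [h]
    exact ((u2.pow 5).mul u3).mul u19
  have u27648 : IsUnit (27648 : R2) := by
    have h : (27648 : R2) = 2 ^ 10 * 3 ^ 3 := by norm_num
    rw [h]
    exact (u2.pow 10).mul (u3.pow 3)
  obtain ⟨w, hw⟩ := u27648.exists_right_inv
  have hg2 : (φ g) ^ 2 = 114 := by
    rw [← map_pow, hg, map_ofNat]
  have hepR : ((ep : ℤ) : R2) ^ 2 = 1 := by
    have := congrArg (Int.cast : ℤ → R2) hep2
    push_cast at this
    exact this
  have hgE : (((ep : ℤ) : R2) * φ g) ^ 2 = 114 := by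
    rw [mul_pow, hepR, one_mul, hg2]
  have hu : 27648 * (w * (32 - 3 * φ g)) = 32 - 3 * φ g := by
    rw [← mul_assoc, hw, one_mul]
  have hu' : 27648 * (w * (32 - 3 * (((ep : ℤ) : R2) * φ g))) =
      32 - 3 * (((ep : ℤ) : R2) * φ g) := by
    rw [← mul_assoc, hw, one_mul]
  obtain ⟨P, L, t, hP, hPL, hL, ht, hPhi⟩ := split_pt hp hj h3 h2 hr3 hr2 x0 hx0 R2 i2 (φ g) hg2
    (w * (32 - 3 * φ g)) (w * (32 - 3 * (((ep : ℤ) : R2) * φ g))) hu hu'
  have hDrho : (S2.dat 2 (i2.comp (PadicInt.toZModPow 2))).rho = (p : R2) := by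
    change (i2.comp (PadicInt.toZModPow 2)) S2.rho = (p : R2)
    rw [hr2, map_natCast]
  have hrel := Hr_rel hp (h2.ok 2 R2 (i2.comp (PadicInt.toZModPow 2)) hp2) hp2
    (w * (32 - 3 * φ g)) (w * (32 - 3 * (((ep : ℤ) : R2) * φ g))) t P L
    (by rw [hDrho]; exact ht) hPhi
  have hc2 : 3 * φ c = 4 * φ g := by
    have h := congrArg φ (congrArg (fun z => z * g) hn)
    simp only [map_mul, map_ofNat] at h
    rw [hc, map_mul, ← mul_assoc]
    exact h
  have hc2' : 3 * φ c' = 4 * (((ep : ℤ) : R2) * φ g) := by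
    rw [hc', map_mul, map_intCast]
    linear_combination ((ep : ℤ) : R2) * hc2
  have k2 := Hr_KK ((p ^ 2 - 1) / 2) (φ g) (w * (32 - 3 * φ g)) (φ c) hg2 u2 u3 u19 hu hc2
  have k1 := Hr_KK ((p - 1) / 2) (((ep : ℤ) : R2) * φ g)
    (w * (32 - 3 * (((ep : ℤ) : R2) * φ g))) (φ c') hgE u2 u3 u19 hu' hc2'
  have hm2 : (p ^ 2 - 1) / 2 = (p - 1) / 2 + (p - 1) / 2 * p := by
    obtain ⟨r, hr⟩ : ∃ r, p = 2 * r + 1 := ⟨p / 2, by omega⟩
    have e1 : (p - 1) / 2 = r := by omega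
    have e2 : p ^ 2 - 1 = 2 * (r + r * p) := by
      rw [hr]
      have : (2 * r + 1) ^ 2 = 2 * (r + r * (2 * r + 1)) + 1 := by ring
      omega
    rw [e1, e2]
    omega
  have hpE : ((1824 : R2) ^ ((p - 1) / 2)) ^ p = ((ep : ℤ) : R2) := by
    have d1 : (p : ℤ) ∣ 1824 ^ ((p - 1) / 2) - ep := by
      obtain ⟨l, hl⟩ := szsplit_pow (p := p) 4
      obtain ⟨k, hk⟩ := hedvd
      have e16 : (p : ℤ) ∣ 16 ^ ((p - 1) / 2) - 1 := by
        have e4 : (4 : ℤ) ^ p - 4 = 4 * (16 ^ ((p - 1) / 2) - 1) := by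
          have : p = 2 * ((p - 1) / 2) + 1 := by omega
          conv_lhs => rw [this, pow_succ, pow_mul]
          norm_num
          ring
        have h7 : (p : ℤ) ∣ 4 * (16 ^ ((p - 1) / 2) - 1) := by
          rw [← e4]
          exact ⟨l, hl⟩
        have h8 : IsCoprime (p : ℤ) 4 := by
          have : Nat.Coprime p 4 := by
            have h9 : (4 : ℕ) = 2 ^ 2 := by norm_num
            rw [h9]
            exact (Nat.Coprime.pow_left 2 cop2).symm
          exact_mod_cast Nat.isCoprime_iff_coprime.2 this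
        exact h8.dvd_of_dvd_mul_left h7
      obtain ⟨r, hr⟩ := e16
      have e5 : (1824 : ℤ) ^ ((p - 1) / 2) = 16 ^ ((p - 1) / 2) * 114 ^ ((p - 1) / 2) := by
        rw [← mul_pow]
        norm_num
      refine ⟨r * 114 ^ ((p - 1) / 2) + k, ?_⟩
      rw [e5]
      linear_combination (114 : ℤ) ^ ((p - 1) / 2) * hr + hk
    have d2 := dvd_sub_pow_of_dvd_sub d1 1
    rw [pow_one] at d2
    obtain ⟨k, hk⟩ := d2
    have e6 : ep ^ p = ep := by
      rcases hepm with h | h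
      · rw [h, one_pow]
      · rw [h]
        exact (hpp.odd_of_ne_two (by omega)).neg_one_pow
    rw [e6] at hk
    have := congrArg (Int.cast : ℤ → R2) (sub_eq_iff_eq_add.1 hk)
    push_cast at this
    rw [this]
    have h10 : (p : R2) ^ (1 + 1) = 0 := hp2
    rw [h10]
    ring
  have hS : (Hr ((p ^ 2 - 1) / 2) (w * (32 - 3 * φ g))) ^ 2 = i2 (Sz (p ^ 2) p x0) *
      (Hr ((p - 1) / 2) (w * (32 - 3 * (((ep : ℤ) : R2) * φ g)))) ^ 2 := by
    rw [hrel, ← hP]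
    linear_combination (2 * Hr ((p - 1) / 2) (w * (32 - 3 * (((ep : ℤ) : R2) * φ g))) *
      DHr ((p - 1) / 2) (w * (32 - 3 * (((ep : ℤ) : R2) * φ g)))) * hPL +
      (DHr ((p - 1) / 2) (w * (32 - 3 * (((ep : ℤ) : R2) * φ g)))) ^ 2 * hL
  have hfin := szsplit_fin ((p - 1) / 2) ((p ^ 2 - 1) / 2) p hm2 ((ep : ℤ) : R2)
    (i2 (Sz (p ^ 2) p x0)) q _ _ _ _ (φ g) hepR hg2 u16 u1824 hpE k2 k1 hS hKK hunit
  apply hi2
  rw [hfin, hq, ← he6, map_intCast]
  push_cast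
  ring

end Pool.Agent.H.MP_7425ae_nt
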