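import Pool.Agent.H.MP_7425ae_nt.Basic

/-! Elementary properties of `tau_x` and `emb`. -/

set_option autoImplicit false

open Polynomial

namespace Pool.Agent.H.MP_7425ae_nt

variable {R S : Type} [CommRing R] [CommRing S]

/-- the standing hypothesis: `deg a <= n` and `1 - a_n x` is a unit -/
def Lead (n : ℕ) (a : ℤ[X]) (x : R) : Prop :=
  a.natDegree ≤ n ∧ IsUnit (1 - ((a.coeff n : ℤ) : R) * x)

theorem Lead.map {n : ℕ} {a : ℤ[X]} {x : R} (h : Lead n a x) (f : R →+* S) : Lead n a (f x) := by
  refine ⟨h.1, ?_⟩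
  have h2 := h.2.map f
  rwa [map_sub, map_one, map_mul, map_intCast] at h2

theorem aR_map (a : ℤ[X]) (f : R →+* S) : (aR a R).map f = aR a S := by
  unfold aR
  rw [Polynomial.map_map]
  congr 1
  exact RingHom.ext_int _ _

theorem tau_zero (n : ℕ) (a : ℤ[X]) (x : R) : tau n a x 0 = 0 := by
  simp [tau]

theorem tau_add (n : ℕ) (a : ℤ[X]) (x : R) (q q' : R[X]) :
    tau n a x (q + q') = tau n a x q + tau n a x q' := by
  unfold tau
  rw [Polynomial.add_comp]
  ring

theorem tau_C_mul (n : ℕ) (a : ℤ[X]) (x c : R) (q : R[X]) :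
    tau n a x (C c * q) = C c * tau n a x q := by
  unfold tau
  rw [Polynomial.mul_comp, Polynomial.C_comp]
  ring

theorem tau_map (n : ℕ) (a : ℤ[X]) (x : R) (q : R[X]) (f : R →+* S) :
    (tau n a x q).map f = tau n a (f x) (q.map f) := by
  unfold tau
  rw [Polynomial.map_sub, Polynomial.map_mul, Polynomial.map_mul, Polynomial.map_C,
    aR_map, Polynomial.map_comp, Polynomial.map_mul, Polynomial.map_pow, Polynomial.map_X,
    Polynomial.map_add, Polynomial.map_X, Polynomial.map_one]

theorem emb_map {n : ℕ} (v : Fin n → R) (f : R →+* S) :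
    (emb v).map f = emb (fun i => f (v i)) := by
  unfold emb
  rw [Polynomial.map_sum]
  refine Finset.sum_congr rfl (fun i _ => ?_)
  rw [Polynomial.map_mul, Polynomial.map_C, Polynomial.map_pow, Polynomial.map_X]

theorem emb_coeff {n : ℕ} (v : Fin n → R) (i : ℕ) :
    (emb v).coeff i = if h : i < n then v ⟨i, h⟩ else 0 := by
  unfold emb
  rw [Polynomial.finset_sum_coeff]
  simp only [Polynomial.coeff_C_mul_X_pow]
  split_ifs with h
  · rw [Finset.sum_eq_single (⟨i, h⟩ : Fin n)]
    · simp
    · intro b _ hb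
      rw [if_neg]
      intro hcon
      apply hb
      ext
      exact hcon.symm
    · intro hcon
      exact absurd (Finset.mem_univ _) hcon
  · refine Finset.sum_eq_zero (fun b _ => ?_)
    rw [if_neg]
    intro hcon
    apply h
    rw [hcon]
    exact b.2

theorem emb_add {n : ℕ} (v w : Fin n → R) : emb (v + w) = emb v + emb w := by
  unfold emb
  rw [← Finset.sum_add_distrib]
  refine Finset.sum_congr rfl (fun i _ => ?_)
  rw [Pi.add_apply, C_add]
  ring

theorem emb_smul {n : ℕ} (c : R) (v : Fin n → R) : emb (c • v) = C c * emb v := by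
  unfold emb
  rw [Finset.mul_sum]
  refine Finset.sum_congr rfl (fun i _ => ?_)
  rw [Pi.smul_apply, smul_eq_mul, C_mul]
  ring

end Pool.Agent.H.MP_7425ae_nt
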