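import Pool.Agent.H.MP_7425ae_nt.TauA

/-! Existence and uniqueness of the reduction modulo `tau_x`. -/

set_option autoImplicit false

open Polynomial

namespace Pool.Agent.H.MP_7425ae_nt

variable {R : Type} [CommRing R]

private theorem taub_comp_natDegree (q : R[X]) {d : ℕ} (hq : q.natDegree ≤ d) :
    (q.comp (X + 1)).natDegree ≤ d := by
  have h1 : (X + 1 : R[X]).natDegree ≤ 1 := by compute_degree
  calc (q.comp (X + 1)).natDegree ≤ q.natDegree * (X + 1 : R[X]).natDegree := natDegree_comp_le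
    _ ≤ d * 1 := Nat.mul_le_mul hq h1
    _ = d := Nat.mul_one d

private theorem taub_comp_coeff (q : R[X]) {d : ℕ} (hq : q.natDegree ≤ d) :
    (q.comp (X + 1)).coeff d = q.coeff d := by
  nontriviality R
  have h1 : (X + 1 : R[X]).natDegree = 1 := by
    have h := natDegree_X_add_C (1 : R)
    rwa [C_1] at h
  have h2 : (X + 1 : R[X]).leadingCoeff = 1 := by
    have h := leadingCoeff_X_add_C (1 : R)
    rwa [C_1] at h
  rcases Nat.lt_or_ge q.natDegree d with h | h
  · rw [coeff_eq_zero_of_natDegree_lt h]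
    apply coeff_eq_zero_of_natDegree_lt
    exact lt_of_le_of_lt (taub_comp_natDegree q le_rfl) h
  · have hd : d = q.natDegree := le_antisymm h hq
    have h3 := coeff_comp_degree_mul_degree (p := q) (q := (X + 1 : R[X])) (by rw [h1]; exact one_ne_zero)
    rw [h1, h2, one_pow, mul_one, mul_one, ← hd] at h3
    rw [h3, hd]
    rfl

private theorem taub_aR_natDegree {n : ℕ} {a : ℤ[X]} {x : R} (h : Lead n a x) :
    (C x * aR a R).natDegree ≤ n := by
  calc (C x * aR a R).natDegree ≤ (aR a R).natDegree := natDegree_C_mul_le _ _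
    _ ≤ a.natDegree := natDegree_map_le
    _ ≤ n := h.1

private theorem taub_natDegree {n : ℕ} {a : ℤ[X]} {x : R} (h : Lead n a x) (q : R[X]) {d : ℕ}
    (hq : q.natDegree ≤ d) : (tau n a x q).natDegree ≤ d + n := by
  unfold tau
  refine (natDegree_sub_le_of_le (m := d + n) (n := d + n) ?_ ?_).trans (max_self _).le
  · calc (C x * aR a R * q.comp (X + 1)).natDegree
        ≤ (C x * aR a R).natDegree + (q.comp (X + 1)).natDegree := natDegree_mul_le
      _ ≤ n + d := Nat.add_le_add (taub_aR_natDegree h) (taub_comp_natDegree q hq)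
      _ = d + n := Nat.add_comm n d
  · calc (X ^ n * q).natDegree ≤ (X ^ n : R[X]).natDegree + q.natDegree := natDegree_mul_le
      _ ≤ n + d := Nat.add_le_add (natDegree_X_pow_le n) hq
      _ = d + n := Nat.add_comm n d

private theorem taub_coeff {n : ℕ} {a : ℤ[X]} {x : R} (h : Lead n a x) (q : R[X]) {d : ℕ}
    (hq : q.natDegree ≤ d) :
    (tau n a x q).coeff (d + n) = -((1 - ((a.coeff n : ℤ) : R) * x) * q.coeff d) := by
  unfold tau
  have h1 : (C x * aR a R * q.comp (X + 1)).coeff (n + d) =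
      (C x * aR a R).coeff n * (q.comp (X + 1)).coeff d :=
    coeff_mul_add_eq_of_natDegree_le (taub_aR_natDegree h) (taub_comp_natDegree q hq)
  have h2 : (C x * aR a R).coeff n = x * ((a.coeff n : ℤ) : R) := by
    rw [coeff_C_mul, aR, coeff_map]
    rfl
  rw [coeff_sub, coeff_X_pow_mul, Nat.add_comm d n, h1, h2, taub_comp_coeff q hq]
  ring

private theorem taub_exists {n : ℕ} {a : ℤ[X]} {x : R} (h : Lead n a x) (D : ℕ) :
    ∀ F : R[X], F.degree < ((D + n : ℕ) : WithBot ℕ) →
      ∃ (v : Fin n → R) (q : R[X]), IsRed n a x F v q := by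
  induction D with
  | zero =>
    intro F hF
    rw [Nat.zero_add] at hF
    refine ⟨fun i => F.coeff i, 0, ?_⟩
    unfold IsRed
    rw [tau_zero, add_zero]
    ext i
    rw [emb_coeff]
    split_ifs with hi
    · rfl
    · exact (degree_lt_iff_coeff_zero F n).1 hF i (by omega)
  | succ D ih =>
    intro F hF
    obtain ⟨δ, hδ⟩ := h.2
    have hq1 : (C (-(((δ⁻¹ : Rˣ) : R) * F.coeff (D + n))) * X ^ D : R[X]).natDegree ≤ D :=
      (natDegree_C_mul_le _ _).trans (natDegree_X_pow_le D)
    have hc : (C (-(((δ⁻¹ : Rˣ) : R) * F.coeff (D + n))) * X ^ D : R[X]).coeff D =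
        -(((δ⁻¹ : Rˣ) : R) * F.coeff (D + n)) := by
      rw [coeff_C_mul, coeff_X_pow, if_pos rfl, mul_one]
    have hdeg : (F - tau n a x (C (-(((δ⁻¹ : Rˣ) : R) * F.coeff (D + n))) * X ^ D)).degree <
        ((D + n : ℕ) : WithBot ℕ) := by
      rw [degree_lt_iff_coeff_zero]
      intro m hm
      rw [coeff_sub]
      rcases Nat.eq_or_lt_of_le hm with hm' | hm'
      · rw [← hm', taub_coeff h _ hq1, hc, ← hδ]
        have h1 : (δ : R) * -(((δ⁻¹ : Rˣ) : R) * F.coeff (D + n)) = -F.coeff (D + n) := by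
          rw [mul_neg, ← mul_assoc, Units.mul_inv, one_mul]
        rw [h1]
        ring
      · rw [coeff_eq_zero_of_natDegree_lt (lt_of_le_of_lt (taub_natDegree h _ hq1) hm'), sub_zero]
        exact (degree_lt_iff_coeff_zero F (D + 1 + n)).1 hF m (by omega)
    obtain ⟨v, q, hvq⟩ := ih _ hdeg
    refine ⟨v, q + C (-(((δ⁻¹ : Rˣ) : R) * F.coeff (D + n))) * X ^ D, ?_⟩
    unfold IsRed at hvq ⊢
    rw [tau_add, ← add_assoc, ← hvq]
    ring

/-- existence of the reduction: induction on the degree of `F`, the leading coefficient of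
`tau_x (X^d)` being `-(1 - a_n x)` in degree `d + n`. -/
theorem exists_isRed {n : ℕ} {a : ℤ[X]} {x : R} (h : Lead n a x) (F : R[X]) :
    ∃ (v : Fin n → R) (q : R[X]), IsRed n a x F v q := by
  apply taub_exists h (F.natDegree + 1) F
  rw [degree_lt_iff_coeff_zero]
  intro m hm
  exact coeff_eq_zero_of_natDegree_lt (by omega)

/-- uniqueness: if `emb v + tau q = 0` and `q` has degree `d`, look at the coefficient of
`X^{d+n}`. -/
theorem isRed_unique {n : ℕ} {a : ℤ[X]} {x : R} (h : Lead n a x) {F : R[X]}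
    {v v' : Fin n → R} {q q' : R[X]} (h1 : IsRed n a x F v q) (h2 : IsRed n a x F v' q') :
    v = v' ∧ q = q' := by
  unfold IsRed at h1 h2
  have h3 : tau n a x (q' - q) + emb v' = emb v := by
    have h4 : tau n a x q' = tau n a x (q' - q) + tau n a x q := by
      rw [← tau_add, sub_add_cancel]
    have h5 : emb v + tau n a x q = emb v' + tau n a x q' := by rw [← h1, ← h2]
    rw [h4] at h5
    have h6 : emb v + tau n a x q = (tau n a x (q' - q) + emb v') + tau n a x q := by
      rw [h5]
      ring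
    exact (add_right_cancel h6).symm
  have h7 : q' - q = 0 := by
    rw [← leadingCoeff_eq_zero]
    have h8 := congrArg (fun P : R[X] => P.coeff ((q' - q).natDegree + n)) h3
    simp only [coeff_add] at h8
    rw [taub_coeff h (q' - q) le_rfl, emb_coeff, emb_coeff, dif_neg (by omega),
      dif_neg (by omega), add_zero, neg_eq_zero] at h8
    exact (h.2.mul_right_eq_zero).1 h8
  have h8 : q = q' := (sub_eq_zero.1 h7).symm
  refine ⟨?_, h8⟩
  rw [h7, tau_zero, zero_add] at h3
  funext i
  have h9 := congrArg (fun P : R[X] => P.coeff (i : ℕ)) h3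
  simp only [emb_coeff, i.2, dif_pos] at h9
  exact h9.symm

end Pool.Agent.H.MP_7425ae_nt
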