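import Pool.Agent.H.MP_7425ae_nt.GamPoly
import Pool.Agent.H.MP_7425ae_nt.TauA

/-! `Theta(X) = G(6X) / (G(3X) G(X)^3)` (rank three) and `G(6X) / (G(3X) G(2X) G(X))` (rank two). -/

set_option autoImplicit false

open Polynomial Finset

namespace Pool.Agent.H.MP_7425ae_nt

/-- `1/H` modulo `p^s` for `H = 1` modulo `p` -/
noncomputable def geo {p : ℕ} [Fact p.Prime] (s : ℕ) (H : ℤ_[p][X]) : ℤ_[p][X] :=
  ∑ l ∈ range s, (1 - H) ^ l

noncomputable def Th3 {p : ℕ} [Fact p.Prime] (G : ℕ → ℤ_[p][X]) (s : ℕ) : ℤ_[p][X] :=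
  (G s).comp (C 6 * X) * geo s ((G s).comp (C 3 * X) * G s ^ 3)

noncomputable def Th2 {p : ℕ} [Fact p.Prime] (G : ℕ → ℤ_[p][X]) (s : ℕ) : ℤ_[p][X] :=
  (G s).comp (C 6 * X) * geo s ((G s).comp (C 3 * X) * (G s).comp (C 2 * X) * G s)

variable {p : ℕ} [Fact p.Prime] {R : Type} [CommRing R]

/-- `P = 1` modulo `p^3` -/
def thdef_One (P : ℤ_[p][X]) : Prop := C ((p : ℤ_[p]) ^ 3) ∣ P - 1

theorem thdef_G {G : ℕ → ℤ_[p][X]} (hG : IsGs p G) (s : ℕ) : thdef_One (G s) := by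
  unfold thdef_One
  rw [C_dvd_iff_dvd_coeff]
  intro i
  rcases Nat.eq_zero_or_pos i with rfl | hi
  · simp [hG.zero s]
  · rw [coeff_sub, coeff_one, if_neg (by omega), sub_zero]
    exact hG.adm s i hi

theorem thdef_comp {P : ℤ_[p][X]} (h : thdef_One P) (Q : ℤ_[p][X]) : thdef_One (P.comp Q) := by
  obtain ⟨A, hA⟩ := h
  refine ⟨A.comp Q, ?_⟩
  have h1 : P.comp Q - 1 = (P - 1).comp Q := by simp
  rw [h1, hA, mul_comp, C_comp]

theorem thdef_mul {P Q : ℤ_[p][X]} (h : thdef_One P) (h' : thdef_One Q) : thdef_One (P * Q) := by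
  obtain ⟨A, hA⟩ := h
  obtain ⟨B, hB⟩ := h'
  refine ⟨A * Q + B, ?_⟩
  have h1 : P * Q - 1 = (P - 1) * Q + (Q - 1) := by ring
  rw [h1, hA, hB]
  ring

theorem thdef_pow {P : ℤ_[p][X]} (h : thdef_One P) (n : ℕ) : thdef_One (P ^ n) := by
  induction n with
  | zero => simp [thdef_One]
  | succ n ih => rw [pow_succ]; exact thdef_mul ih h

theorem thdef_geo {H : ℤ_[p][X]} (h : thdef_One H) (s : ℕ) : thdef_One (geo (s + 1) H) := by
  unfold thdef_One geo
  rw [Finset.sum_range_succ', pow_zero, add_sub_cancel_right]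
  apply Finset.dvd_sum
  intro l _
  have h1 : (1 - H) ^ (l + 1) = (1 - H) ^ l * (-1) * (H - 1) := by ring
  rw [h1]
  exact Dvd.dvd.mul_left h _

theorem thdef_vanish {H : ℤ_[p][X]} (h : thdef_One H) (s l : ℕ) (hl : s ≤ l) (f : ℤ_[p] →+* R)
    (hs : (p : R) ^ s = 0) : ((1 - H) ^ l).map f = 0 := by
  obtain ⟨A, hA⟩ := h
  have h1 : (1 : ℤ_[p][X]) - H = C (p : ℤ_[p]) * (-(C ((p : ℤ_[p]) ^ 2) * A)) := by
    have h2 : (1 : ℤ_[p][X]) - H = -(H - 1) := by ring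
    rw [h2, hA]
    rw [show (p : ℤ_[p]) ^ 3 = (p : ℤ_[p]) * (p : ℤ_[p]) ^ 2 by ring, C_mul]
    ring
  rw [h1, mul_pow, ← C_pow, Polynomial.map_mul, map_C, map_pow, map_natCast,
    show l = s + (l - s) by omega, pow_add, hs, zero_mul, C_0, zero_mul]

theorem thdef_geo_mul {H : ℤ_[p][X]} (h : thdef_One H) (s : ℕ) (f : ℤ_[p] →+* R)
    (hs : (p : R) ^ s = 0) : (geo s H).map f * H.map f = 1 := by
  have h1 : geo s H * H = 1 - (1 - H) ^ s := by
    have h2 := mul_neg_geom_sum (1 - H) s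
    unfold geo
    rw [mul_comm]
    rw [sub_sub_cancel] at h2
    exact h2
  rw [← Polynomial.map_mul, h1, Polynomial.map_sub, thdef_vanish h s s le_rfl f hs,
    Polynomial.map_one, sub_zero]

theorem thdef_geo_indep {H H' : ℤ_[p][X]} (h : thdef_One H) (s s' : ℕ) (hss : s ≤ s')
    (f : ℤ_[p] →+* R) (hs : (p : R) ^ s = 0) (hH : H'.map f = H.map f) :
    (geo s' H').map f = (geo s H).map f := by
  have e1 : ∀ (t : ℕ) (K : ℤ_[p][X]), (geo t K).map f = ∑ l ∈ range t, (1 - K.map f) ^ l := by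
    intro t K
    unfold geo
    rw [Polynomial.map_sum]
    apply Finset.sum_congr rfl
    intro l _
    simp
  rw [e1, e1, hH]
  symm
  apply Finset.sum_subset (Finset.range_mono hss)
  intro l _ hl
  rw [mem_range, not_lt] at hl
  have := thdef_vanish h s l hl f hs
  simpa using this

theorem thdef_Gmap {G : ℕ → ℤ_[p][X]} (hG : IsGs p G) (s s' : ℕ) (h : s ≤ s')
    (f : ℤ_[p] →+* R) (hs : (p : R) ^ s = 0) : (G s').map f = (G s).map f := by
  obtain ⟨A, hA⟩ := hG.indep s s' h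
  have h1 : G s' = G s + C ((p : ℤ_[p]) ^ s) * A := by rw [← hA]; ring
  rw [h1, Polynomial.map_add, Polynomial.map_mul, map_C, map_pow, map_natCast, hs, C_0, zero_mul,
    add_zero]

theorem thdef_H3 {G : ℕ → ℤ_[p][X]} (hG : IsGs p G) (s : ℕ) :
    thdef_One ((G s).comp (C 3 * X) * G s ^ 3) :=
  thdef_mul (thdef_comp (thdef_G hG s) _) (thdef_pow (thdef_G hG s) 3)

theorem thdef_H2 {G : ℕ → ℤ_[p][X]} (hG : IsGs p G) (s : ℕ) :
    thdef_One ((G s).comp (C 3 * X) * (G s).comp (C 2 * X) * G s) :=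
  thdef_mul (thdef_mul (thdef_comp (thdef_G hG s) _) (thdef_comp (thdef_G hG s) _))
    (thdef_G hG s)

theorem Th3_spec (hp : 5 ≤ p) {G : ℕ → ℤ_[p][X]} (hG : IsGs p G) (s : ℕ) (f : ℤ_[p] →+* R)
    (hs : (p : R) ^ s = 0) :
    (Th3 G s).map f * (((G s).comp (C 3 * X) * G s ^ 3).map f)
      = ((G s).comp (C 6 * X)).map f := by
  unfold Th3
  rw [Polynomial.map_mul (p := (G s).comp (C 6 * X)), mul_assoc,
    thdef_geo_mul (thdef_H3 hG s) s f hs, mul_one]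

theorem Th2_spec (hp : 5 ≤ p) {G : ℕ → ℤ_[p][X]} (hG : IsGs p G) (s : ℕ) (f : ℤ_[p] →+* R)
    (hs : (p : R) ^ s = 0) :
    (Th2 G s).map f * (((G s).comp (C 3 * X) * (G s).comp (C 2 * X) * G s).map f)
      = ((G s).comp (C 6 * X)).map f := by
  unfold Th2
  rw [Polynomial.map_mul (p := (G s).comp (C 6 * X)), mul_assoc,
    thdef_geo_mul (thdef_H2 hG s) s f hs, mul_one]

theorem Th3_indep (hp : 5 ≤ p) {G : ℕ → ℤ_[p][X]} (hG : IsGs p G) (s s' : ℕ) (h : s ≤ s')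
    (f : ℤ_[p] →+* R) (hs : (p : R) ^ s = 0) : (Th3 G s').map f = (Th3 G s).map f := by
  unfold Th3
  have e := thdef_Gmap hG s s' h f hs
  rw [Polynomial.map_mul, Polynomial.map_mul]
  congr 1
  · rw [Polynomial.map_comp, Polynomial.map_comp, e]
  · apply thdef_geo_indep (thdef_H3 hG s) s s' h f hs
    rw [Polynomial.map_mul, Polynomial.map_mul, Polynomial.map_comp, Polynomial.map_comp,
      Polynomial.map_pow, Polynomial.map_pow, e]

theorem Th2_indep (hp : 5 ≤ p) {G : ℕ → ℤ_[p][X]} (hG : IsGs p G) (s s' : ℕ) (h : s ≤ s')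
    (f : ℤ_[p] →+* R) (hs : (p : R) ^ s = 0) : (Th2 G s').map f = (Th2 G s).map f := by
  unfold Th2
  have e := thdef_Gmap hG s s' h f hs
  rw [Polynomial.map_mul, Polynomial.map_mul]
  congr 1
  · rw [Polynomial.map_comp, Polynomial.map_comp, e]
  · apply thdef_geo_indep (thdef_H2 hG s) s s' h f hs
    rw [Polynomial.map_mul, Polynomial.map_mul, Polynomial.map_mul, Polynomial.map_mul,
      Polynomial.map_comp, Polynomial.map_comp, Polynomial.map_comp, Polynomial.map_comp, e]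

theorem thdef_adm {P : ℤ_[p][X]} (h : thdef_One P) (i : ℕ) :
    (p : ℤ_[p]) ^ (min i 3) ∣ P.coeff i := by
  rcases Nat.eq_zero_or_pos i with rfl | hi
  · simp
  · unfold thdef_One at h
    rw [C_dvd_iff_dvd_coeff] at h
    have h1 := h i
    rw [coeff_sub, coeff_one, if_neg (by omega), sub_zero] at h1
    exact (pow_dvd_pow _ (min_le_right i 3)).trans h1

theorem Th3_adm (hp : 5 ≤ p) {G : ℕ → ℤ_[p][X]} (hG : IsGs p G) (s i : ℕ) :
    (p : ℤ_[p]) ^ (min i 3) ∣ (Th3 G s).coeff i := by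
  cases s with
  | zero => simp [Th3, geo]
  | succ s =>
    exact thdef_adm (thdef_mul (thdef_comp (thdef_G hG _) _) (thdef_geo (thdef_H3 hG _) s)) i

theorem Th2_adm (hp : 5 ≤ p) {G : ℕ → ℤ_[p][X]} (hG : IsGs p G) (s i : ℕ) :
    (p : ℤ_[p]) ^ (min i 3) ∣ (Th2 G s).coeff i := by
  cases s with
  | zero => simp [Th2, geo]
  | succ s =>
    exact thdef_adm (thdef_mul (thdef_comp (thdef_G hG _) _) (thdef_geo (thdef_H2 hG _) s)) i

end Pool.Agent.H.MP_7425ae_nt
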