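import Pool.Agent.H.MP_7425ae_nt.ThDef

/-! The low coefficients of `Theta`. -/

set_option autoImplicit false

open Polynomial Finset

namespace Pool.Agent.H.MP_7425ae_nt

variable {p : ℕ} [Fact p.Prime] {R : Type} [CommRing R]

theorem thlow_c0 (P Q : R[X]) : (P * Q).coeff 0 = P.coeff 0 * Q.coeff 0 := by
  simp [coeff_mul]

theorem thlow_c1 (P Q : R[X]) : (P * Q).coeff 1 = P.coeff 0 * Q.coeff 1 + P.coeff 1 * Q.coeff 0 := by
  rw [coeff_mul, Finset.Nat.antidiagonal_succ]
  simp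

theorem thlow_c2 (P Q : R[X]) : (P * Q).coeff 2
    = P.coeff 0 * Q.coeff 2 + P.coeff 1 * Q.coeff 1 + P.coeff 2 * Q.coeff 0 := by
  have h : Finset.HasAntidiagonal.antidiagonal (2 : ℕ) = {(0, 2), (1, 1), (2, 0)} := by decide
  rw [coeff_mul, h]
  simp [add_assoc]

theorem thlow_comp (P : R[X]) (c : R) (i : ℕ) : (P.comp (C c * X)).coeff i = P.coeff i * c ^ i := by
  rw [comp_C_mul_X_coeff]

/-- the second coefficient: `2 g_2 = g_1^2` -/
theorem thlow_g {G : ℕ → ℤ_[p][X]} (hG : IsGs p G) (s : ℕ) (f : ℤ_[p] →+* R)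
    (hs : (p : R) ^ s = 0) :
    ((G s).map f).coeff 0 = 1 ∧
      ((G s).map f).coeff 1 ^ 2 = 2 * ((G s).map f).coeff 2 := by
  have h0 : ((G s).map f).coeff 0 = 1 := by rw [coeff_map, hG.zero s, map_one]
  refine ⟨h0, ?_⟩
  obtain ⟨A, hA⟩ := hG.inv s
  have h1 : G s * (G s).comp (-X) = 1 + C ((p : ℤ_[p]) ^ s) * A := by rw [← hA]; ring
  have h2 : (G s).map f * ((G s).map f).comp (C (-1 : R) * X) = 1 := by
    have h3 := congrArg (Polynomial.map f) h1
    rw [Polynomial.map_mul, Polynomial.map_comp, Polynomial.map_add, Polynomial.map_mul, map_C,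
      map_pow, map_natCast, hs, C_0, zero_mul, add_zero, Polynomial.map_one, Polynomial.map_neg,
      map_X] at h3
    rw [C_neg, C_1, neg_one_mul]
    exact h3
  have h4 := congrArg (fun P => P.coeff 2) h2
  simp only [thlow_c2, thlow_comp, coeff_one, h0] at h4
  norm_num at h4
  rw [coeff_map, coeff_map]
  linear_combination -h4

/-- `Theta = 1` modulo `X^3`: the linear terms cancel (`6 - 3 - 3 = 0`) and `G(X) G(-X) = 1` gives
`2 g_2 = g_1^2`. -/
theorem Th3_low (hp : 5 ≤ p) {G : ℕ → ℤ_[p][X]} (hG : IsGs p G) (s : ℕ) (f : ℤ_[p] →+* R)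
    (hs : (p : R) ^ s = 0) (i : ℕ) (hi : i < 3) :
    ((Th3 G s).map f).coeff i = if i = 0 then 1 else 0 := by
  have h := Th3_spec hp hG s f hs
  obtain ⟨g0, g2⟩ := thlow_g hG s f hs
  rw [Polynomial.map_mul, Polynomial.map_comp, Polynomial.map_comp, Polynomial.map_pow,
    Polynomial.map_mul, Polynomial.map_mul, map_C, map_C, map_X] at h
  set g := (G s).map f
  set T := (Th3 G s).map f
  have h3 : f 3 = 3 := map_ofNat f 3
  have h6 : f 6 = 6 := map_ofNat f 6
  rw [h3, h6] at h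
  have e0 := congrArg (fun P => P.coeff 0) h
  have e1 := congrArg (fun P => P.coeff 1) h
  have e2 := congrArg (fun P => P.coeff 2) h
  simp only [pow_succ, pow_zero, one_mul] at e0 e1 e2
  simp only [thlow_c0, thlow_c1, thlow_c2, thlow_comp, g0] at e0 e1 e2
  have t0 : T.coeff 0 = 1 := by linear_combination e0
  rw [t0] at e1 e2
  have t1 : T.coeff 1 = 0 := by linear_combination e1
  rw [t1] at e2
  have t2 : T.coeff 2 = 0 := by linear_combination e2 - 12 * g2
  have hi' : i = 0 ∨ i = 1 ∨ i = 2 := by omega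
  rcases hi' with rfl | rfl | rfl
  · simpa using t0
  · simpa using t1
  · simpa using t2

theorem Th2_low (hp : 5 ≤ p) {G : ℕ → ℤ_[p][X]} (hG : IsGs p G) (s : ℕ) (f : ℤ_[p] →+* R)
    (hs : (p : R) ^ s = 0) (i : ℕ) (hi : i < 2) :
    ((Th2 G s).map f).coeff i = if i = 0 then 1 else 0 := by
  have h := Th2_spec hp hG s f hs
  obtain ⟨g0, g2⟩ := thlow_g hG s f hs
  rw [Polynomial.map_mul, Polynomial.map_mul, Polynomial.map_comp, Polynomial.map_comp,
    Polynomial.map_comp, Polynomial.map_mul, Polynomial.map_mul, Polynomial.map_mul, map_C, map_C,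
    map_C, map_X] at h
  set g := (G s).map f
  set T := (Th2 G s).map f
  have h2 : f 2 = 2 := map_ofNat f 2
  have h3 : f 3 = 3 := map_ofNat f 3
  have h6 : f 6 = 6 := map_ofNat f 6
  rw [h2, h3, h6] at h
  have e0 := congrArg (fun P => P.coeff 0) h
  have e1 := congrArg (fun P => P.coeff 1) h
  simp only [thlow_c0, thlow_c1, thlow_comp, g0] at e0 e1
  have t0 : T.coeff 0 = 1 := by linear_combination e0
  rw [t0] at e1
  have t1 : T.coeff 1 = 0 := by linear_combination e1
  have hi' : i = 0 ∨ i = 1 := by omega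
  rcases hi' with rfl | rfl
  · simpa using t0
  · simpa using t1

end Pool.Agent.H.MP_7425ae_nt
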