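import Pool.Agent.H.MP_7425ae_nt.Basic

/-! Transfer principle: identities between rational functions whose denominators do not vanish at
`h = 0` may be checked in the power series ring. -/

set_option autoImplicit false

open Polynomial

namespace Pool.Agent.H.MP_7425ae_nt

/-- `L` is the localization `k[h][1/b]`, `ι` the expansion at `h = 0`, `ev` the evaluation at a
point `h₀` of `R` where `b` is a unit. -/
theorem transfer {k : Type} [CommRing k] (b : k[X]) (hb : IsUnit (b.coeff 0))
    {R : Type} [CommRing R] (g : k →+* R) (h₀ : R) (hbR : IsUnit (b.eval₂ g h₀)) :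
    ∃ (L : Type) (_ : CommRing L) (i : k[X] →+* L) (ι : L →+* PowerSeries k) (ev : L →+* R),
      Function.Injective ι ∧ (∀ P : k[X], ι (i P) = (P : PowerSeries k)) ∧
      (∀ P : k[X], ev (i P) = P.eval₂ g h₀) ∧ IsUnit (i b) := by
  have hbu : IsUnit ((coeToPowerSeries.ringHom : k[X] →+* PowerSeries k) b) := by
    rw [PowerSeries.isUnit_iff_constantCoeff, coeToPowerSeries.ringHom_apply,
      ← PowerSeries.coeff_zero_eq_constantCoeff_apply, Polynomial.coeff_coe]
    exact hb
  have hbR' : IsUnit (Polynomial.eval₂RingHom g h₀ b) := by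
    rw [Polynomial.coe_eval₂RingHom]
    exact hbR
  refine ⟨Localization.Away b, inferInstance, algebraMap k[X] (Localization.Away b),
    IsLocalization.Away.lift b hbu, IsLocalization.Away.lift b hbR', ?_, ?_, ?_, ?_⟩
  · rw [injective_iff_map_eq_zero]
    intro z hz
    obtain ⟨n, P, hP⟩ := IsLocalization.Away.surj b z
    have h1 := congrArg (IsLocalization.Away.lift b hbu) hP
    rw [map_mul, hz, zero_mul, IsLocalization.Away.lift_eq, coeToPowerSeries.ringHom_apply] at h1
    have h2 : P = 0 := Polynomial.coe_injective k (by rw [← h1, Polynomial.coe_zero])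
    rw [h2, map_zero] at hP
    have h3 : IsUnit (algebraMap k[X] (Localization.Away b) b ^ n) :=
      (IsLocalization.Away.algebraMap_isUnit b).pow n
    exact (h3.mul_left_eq_zero).1 hP
  · intro P
    rw [IsLocalization.Away.lift_eq, coeToPowerSeries.ringHom_apply]
  · intro P
    rw [IsLocalization.Away.lift_eq, Polynomial.coe_eval₂RingHom]
  · exact IsLocalization.Away.algebraMap_isUnit b

end Pool.Agent.H.MP_7425ae_nt
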