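import Pool.Agent.H.MP_7425ae_nt.Univ
import Pool.Agent.H.MP_7425ae_nt.FamK

/-! The difference of the two sides of the commutation of Frobenius with the 5-isogeny; naturality. -/

set_option autoImplicit false

open Polynomial

namespace Pool.Agent.H.MP_7425ae_nt

section
variable {R : Type} [CommRing R]

noncomputable def tF (p : ℕ) (rho h z : R) : R :=
  Classical.epsilon (fun t : R =>
    (1 + rho * t) * ((1 + rho * z * h) * D1 h ^ (3 * p)) = D1 (gf p rho h z) ^ 3)

noncomputable def tG (p : ℕ) (rho h z : R) : R :=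
  Classical.epsilon (fun t : R =>
    (1 + rho * t) * ((1 + rho * z * h) ^ 5 * D2 h ^ (3 * p)) = D2 (gf p rho h z) ^ 3)

noncomputable def kap (p : ℕ) (h g : R) : R := Classical.epsilon (fun κ : R => IsKappa p h g κ)

end

/-- the difference of the two sides -/
noncomputable def PsiB (p : ℕ) {W : Type} [CommRing W] (S : Sys W) (s : ℕ)
    (R : Type) [CommRing R] (f : W →+* R) (h z : R) : Matrix (Fin 3) (Fin 3) R :=
  Mmat p 3 a3 (S.dat s f) (xg h) (xg (gf p (f S.rho) h z)) (tG p (f S.rho) h z) * Bm h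
  - kap p h (gf p (f S.rho) h z) • (Bm (gf p (f S.rho) h z) *
    Mmat p 3 a3 (S.dat s f) (xf h) (xf (gf p (f S.rho) h z)) (tF p (f S.rho) h z))

theorem ubdef_t_eq {R : Type} [CommRing R] (rho u v t t' : R) (hu : IsUnit u)
    (h1 : (1 + rho * t) * u = v) (h2 : (1 + rho * t') * u = v) : rho * t = rho * t' := by
  have h3 : (1 + rho * t) * u = (1 + rho * t') * u := h1.trans h2.symm
  have h4 := hu.mul_right_cancel h3
  exact add_left_cancel h4

theorem ubdef_unit_one_add {R : Type} [CommRing R] (rho e : R) (hn : IsNilpotent rho) :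
    IsUnit (1 + rho * e) := by
  have h1 : IsNilpotent (rho * e) := (Commute.all rho e).isNilpotent_mul_right hn
  exact h1.isUnit_one_add

theorem PsiB_nat {p : ℕ} [Fact p.Prime] (hp : 5 ≤ p) {W : Type} [CommRing W] {S : Sys W}
    (hS : S.Good p 3 a3 c3) (s : ℕ) (R R' : Type) [CommRing R] [CommRing R'] (f : W →+* R)
    (φ : R →+* R') (h z : R) (hs : (p : R) ^ s = 0) (u : U5 h) :
    PsiB p S s R' (φ.comp f) (φ h) (φ z) = (PsiB p S s R f h z).map φ := by
  have hs' : (p : R') ^ s = 0 := by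
    have := congrArg φ hs
    simpa using this
  have ok := hS.ok s R f hs
  have ok' := hS.ok s R' (φ.comp f) hs'
  have hr : f S.rho ∣ (p : R) := ok.rho_dvd
  have hn : IsNilpotent (f S.rho) := ok.rho_nilp
  have hr' : (φ.comp f) S.rho ∣ (p : R') := ok'.rho_dvd
  have hn' : IsNilpotent ((φ.comp f) S.rho) := ok'.rho_nilp
  have hcop : Nat.Coprime 2 p := by
    rw [Nat.coprime_comm]
    exact (Fact.out : p.Prime).coprime_iff_not_dvd.mpr (fun hd => by
      have := Nat.le_of_dvd (by norm_num) hd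
      omega)
  have h2 : IsUnit (2 : R) := by
    have h3 := (hS.unit 2 hcop).map f
    rw [map_natCast] at h3
    exact_mod_cast h3
  have h2' : IsUnit (2 : R') := by
    have h3 := h2.map φ
    rw [map_ofNat] at h3
    exact h3
  have u' : U5 (φ h) := u.map φ
  have hrho : (φ.comp f) S.rho = φ (f S.rho) := rfl
  have hg : gf p ((φ.comp f) S.rho) (φ h) (φ z) = φ (gf p (f S.rho) h z) := by
    rw [hrho, gf_map]
  have ug : U5 (gf p (f S.rho) h z) := U5_gf p _ h z hr hn u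
  -- the specifications
  have sF : (1 + f S.rho * tF p (f S.rho) h z) * ((1 + f S.rho * z * h) * D1 h ^ (3 * p))
      = D1 (gf p (f S.rho) h z) ^ 3 := Classical.epsilon_spec (exists_tf p _ h z hr hn u)
  have sG : (1 + f S.rho * tG p (f S.rho) h z) * ((1 + f S.rho * z * h) ^ 5 * D2 h ^ (3 * p))
      = D2 (gf p (f S.rho) h z) ^ 3 := Classical.epsilon_spec (exists_tg p _ h z hr hn u)
  have sF' : (1 + (φ.comp f) S.rho * tF p ((φ.comp f) S.rho) (φ h) (φ z))
      * ((1 + (φ.comp f) S.rho * φ z * φ h) * D1 (φ h) ^ (3 * p))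
      = D1 (gf p ((φ.comp f) S.rho) (φ h) (φ z)) ^ 3 :=
    Classical.epsilon_spec (exists_tf p _ (φ h) (φ z) hr' hn' u')
  have sG' : (1 + (φ.comp f) S.rho * tG p ((φ.comp f) S.rho) (φ h) (φ z))
      * ((1 + (φ.comp f) S.rho * φ z * φ h) ^ 5 * D2 (φ h) ^ (3 * p))
      = D2 (gf p ((φ.comp f) S.rho) (φ h) (φ z)) ^ 3 :=
    Classical.epsilon_spec (exists_tg p _ (φ h) (φ z) hr' hn' u')
  have sK : IsKappa p h (gf p (f S.rho) h z) (kap p h (gf p (f S.rho) h z)) :=
    Classical.epsilon_spec (exists_kappa p (by omega) _ h z hr hn h2 u)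
  have sK' : IsKappa p (φ h) (gf p ((φ.comp f) S.rho) (φ h) (φ z))
      (kap p (φ h) (gf p ((φ.comp f) S.rho) (φ h) (φ z))) :=
    Classical.epsilon_spec (exists_kappa p (by omega) _ (φ h) (φ z) hr' hn' h2' u')
  -- the images
  have mF : (1 + (φ.comp f) S.rho * φ (tF p (f S.rho) h z))
      * ((1 + (φ.comp f) S.rho * φ z * φ h) * D1 (φ h) ^ (3 * p))
      = D1 (gf p ((φ.comp f) S.rho) (φ h) (φ z)) ^ 3 := by
    have := congrArg φ sF
    rw [hg, D1_map, D1_map, hrho]
    simpa only [map_mul, map_add, map_one, map_pow] using this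
  have mG : (1 + (φ.comp f) S.rho * φ (tG p (f S.rho) h z))
      * ((1 + (φ.comp f) S.rho * φ z * φ h) ^ 5 * D2 (φ h) ^ (3 * p))
      = D2 (gf p ((φ.comp f) S.rho) (φ h) (φ z)) ^ 3 := by
    have := congrArg φ sG
    rw [hg, D2_map, D2_map, hrho]
    simpa only [map_mul, map_add, map_one, map_pow] using this
  have un1 : IsUnit (1 + (φ.comp f) S.rho * φ z * φ h) := by
    rw [mul_assoc]; exact ubdef_unit_one_add _ _ hn'
  have eF : (φ.comp f) S.rho * tF p ((φ.comp f) S.rho) (φ h) (φ z)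
      = (φ.comp f) S.rho * φ (tF p (f S.rho) h z) :=
    ubdef_t_eq _ _ _ _ _ (un1.mul (u'.d1.pow _)) sF' mF
  have eG : (φ.comp f) S.rho * tG p ((φ.comp f) S.rho) (φ h) (φ z)
      = (φ.comp f) S.rho * φ (tG p (f S.rho) h z) :=
    ubdef_t_eq _ _ _ _ _ ((un1.pow 5).mul (u'.d2.pow _)) sG' mG
  have eK : kap p (φ h) (gf p ((φ.comp f) S.rho) (φ h) (φ z))
      = φ (kap p h (gf p (f S.rho) h z)) := by
    refine kappa_unique p (by omega) ((φ.comp f) S.rho) (φ h) (φ z) _ _ hr' hn' h2' u' sK' ?_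
    rw [hg]
    exact sK.map u φ
  have hrd : (S.dat s (φ.comp f)).rho = (φ.comp f) S.rho := rfl
  have M1 : Mmat p 3 a3 (S.dat s (φ.comp f)) (xg (φ h))
      (xg (gf p ((φ.comp f) S.rho) (φ h) (φ z))) (tG p ((φ.comp f) S.rho) (φ h) (φ z))
      = (Mmat p 3 a3 (S.dat s f) (xg h) (xg (gf p (f S.rho) h z)) (tG p (f S.rho) h z)).map φ := by
    rw [Mmat_congr ok' _ _ _ (φ (tG p (f S.rho) h z)) (by rw [hrd]; exact eG), hg, xg_map u,
      xg_map ug, Sys.dat_map, Mmat_map _ _ _ _ (lead_xg ug)]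
  have M2 : Mmat p 3 a3 (S.dat s (φ.comp f)) (xf (φ h))
      (xf (gf p ((φ.comp f) S.rho) (φ h) (φ z))) (tF p ((φ.comp f) S.rho) (φ h) (φ z))
      = (Mmat p 3 a3 (S.dat s f) (xf h) (xf (gf p (f S.rho) h z)) (tF p (f S.rho) h z)).map φ := by
    rw [Mmat_congr ok' _ _ _ (φ (tF p (f S.rho) h z)) (by rw [hrd]; exact eF), hg, xf_map u,
      xf_map ug, Sys.dat_map, Mmat_map _ _ _ _ (lead_xf ug)]
  unfold PsiB
  rw [M1, M2, eK, hg, Bm_map u, Bm_map ug, Matrix.map_sub φ (map_sub φ), Matrix.map_mul]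
  congr 1
  ext a b
  rw [Matrix.smul_apply, Matrix.map_apply, Matrix.smul_apply, smul_eq_mul, smul_eq_mul, map_mul,
    ← Matrix.map_mul]
  rfl

end Pool.Agent.H.MP_7425ae_nt
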