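import Pool.Agent.H.MP_7425ae_nt.UBDef
import Pool.Agent.H.MP_7425ae_nt.FamO

/-! The commutation of Frobenius with the 5-isogeny over power series. -/

set_option autoImplicit false

open Polynomial

namespace Pool.Agent.H.MP_7425ae_nt

section ubps_gen

variable {R : Type} [CommRing R]

theorem ubps_map_mul {m : ℕ} {d : R → R} (hd : IsDer d) (A B : Matrix (Fin m) (Fin m) R) :
    (A * B).map d = A.map d * B + A * B.map d := by
  ext i j
  simp only [Matrix.map_apply, Matrix.mul_apply, Matrix.add_apply]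
  rw [hd.sum, ← Finset.sum_add_distrib]
  refine Finset.sum_congr rfl fun x _ => ?_
  rw [hd.mul]
  ring

theorem ubps_map_sub {m : ℕ} {d : R → R} (hd : IsDer d) (A B : Matrix (Fin m) (Fin m) R) :
    (A - B).map d = A.map d - B.map d := by
  ext i j
  simp only [Matrix.map_apply, Matrix.sub_apply]
  exact hd.sub _ _

theorem ubps_map_smul {m : ℕ} {d : R → R} (hd : IsDer d) (c : R)
    (A : Matrix (Fin m) (Fin m) R) :
    (c • A).map d = d c • A + c • A.map d := by
  ext i j
  simp only [Matrix.map_apply, Matrix.smul_apply, Matrix.add_apply, smul_eq_mul]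
  rw [hd.mul]
  ring

/-- the algebra of the differential equation -/
theorem ubps_alg {A : Type} [Ring A] [Algebra R A] (M' M B Bg a a' ag ag' dM' dM dB dBg : A)
    (ν ν' κ dκ : R)
    (h1 : dM' = M' * a' - ag' * M') (h2 : dM = M * a - ag * M)
    (h3 : dB = B * a - a' * B - ν • B) (h4 : dBg = Bg * ag - ag' * Bg - ν' • Bg)
    (h5 : dκ = κ * (ν' - ν)) :
    dM' * B + M' * dB - (dκ • (Bg * M) + κ • (dBg * M + Bg * dM))
      = (-ag' - ν • (1 : A)) * (M' * B - κ • (Bg * M)) + (M' * B - κ • (Bg * M)) * a := by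
  subst h1 h2 h3 h4 h5
  simp only [mul_sub, sub_mul, smul_mul_assoc, mul_smul_comm, mul_assoc,
    neg_mul, one_mul, smul_sub, smul_add, smul_neg]
  module

theorem ubps_dpow {d : R → R} (hd : IsDer d) {p : ℕ} (hp : 0 < p) (x w : R) (hx : d x = w * x) :
    d (x ^ p) = (p : R) * w * x ^ p := by
  obtain ⟨n, rfl⟩ : ∃ n, p = n + 1 := ⟨p - 1, by omega⟩
  rw [hd.pow, hx]
  push_cast
  ring

theorem ubps_dt {d : R → R} (hd : IsDer d) {p : ℕ} (hp : 0 < p) (x y t w w' rho : R)
    (hr : d rho = 0) (hx : d x = w * x) (hy : d y = w' * y) (hxy : (1 + rho * t) * y = x ^ p)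
    (reg : ∀ a b, y * a = y * b → a = b) :
    rho * d t = ((p : R) * w - w') * (1 + rho * t) := by
  have h1 : d ((1 + rho * t) * y) = d (x ^ p) := by rw [hxy]
  rw [ubps_dpow hd hp x w hx, ← hxy, hd.mul, hd.add, hd.one, hd.mul, hr, hy] at h1
  apply reg
  linear_combination h1

theorem ubps_unit_add {a : R} (h : IsNilpotent a) (b : R) : IsUnit (1 + a * b) :=
  ((Commute.all a b).isNilpotent_mul_right h).isUnit_one_add

/-- the logarithmic derivative of `g` -/
noncomputable def ubpsTh (p : ℕ) (rho h z : R) : R :=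
  (p : R) + rho * z * h * Ring.inverse (1 + rho * z * h)

theorem ubps_dg {d : R → R} (hd : IsDer d) {p : ℕ} (hp : 0 < p) (rho h z : R)
    (hn : IsNilpotent rho) (hr : d rho = 0) (hz : d z = 0) (hh : d h = h) :
    d (gf p rho h z) = ubpsTh p rho h z * gf p rho h z := by
  have hu : IsUnit (1 + rho * z * h) := by
    have := ubps_unit_add hn (z * h)
    rwa [← mul_assoc] at this
  have h1 := Ring.inverse_mul_cancel _ hu
  unfold gf ubpsTh
  rw [hd.mul, hd.add, hd.one, hd.mul, hd.mul, hr, hz, hh,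
    ubps_dpow hd hp h 1 (by rw [one_mul]; exact hh)]
  linear_combination (- rho * z * h * h ^ p) * h1

theorem ubps_dk {d : R → R} (hd : IsDer d) (h2 : IsUnit (2 : R)) (κ a b c e ν ν' : R)
    (hκ : IsUnit κ) (ha : IsUnit a) (hb : IsUnit b) (hc : IsUnit c) (he : IsUnit e)
    (hsq : κ ^ 2 * (a * b) = c * e)
    (hν' : 2 * ν' = d c * Ring.inverse c - d b * Ring.inverse b)
    (hν : 2 * ν = d a * Ring.inverse a - d e * Ring.inverse e) :
    d κ = κ * (ν' - ν) := by
  have hpw : d (κ ^ 2) = 2 * κ * d κ := by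
    have := hd.pow κ 1
    rw [this]
    push_cast
    ring
  have h1 : d (κ ^ 2 * (a * b)) = d (c * e) := by rw [hsq]
  rw [hd.mul, hd.mul, hd.mul, hpw] at h1
  have ia := Ring.inverse_mul_cancel _ ha
  have ib := Ring.inverse_mul_cancel _ hb
  have ic := Ring.inverse_mul_cancel _ hc
  have ie := Ring.inverse_mul_cancel _ he
  have hab : IsUnit (2 * κ * (a * b)) := (h2.mul hκ).mul (ha.mul hb)
  apply hab.mul_left_cancel
  -- multiply the two logarithmic derivatives by the unit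
  have e1 : d c * e = κ ^ 2 * (a * b) * (d c * Ring.inverse c) := by
    rw [hsq]
    linear_combination (- d c * e) * ic
  have e2 : c * d e = κ ^ 2 * (a * b) * (d e * Ring.inverse e) := by
    rw [hsq]
    linear_combination (- d e * c) * ie
  have e3 : κ ^ 2 * (a * d b) = κ ^ 2 * (a * b) * (d b * Ring.inverse b) := by
    linear_combination (- κ ^ 2 * a * d b) * ib
  have e4 : κ ^ 2 * (d a * b) = κ ^ 2 * (a * b) * (d a * Ring.inverse a) := by
    linear_combination (- κ ^ 2 * b * d a) * ia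
  linear_combination h1 + e1 + e2 - e3 - e4 - κ ^ 2 * (a * b) * hν' + κ ^ 2 * (a * b) * hν

end ubps_gen

section ubps_con

theorem ubps_cancel {k : Type} [CommRing k] (n : ℕ) (y U : PowerSeries k) (hU : IsUnit U)
    (hy : y = PowerSeries.X ^ n * U) (a b : PowerSeries k) (h : y * a = y * b) : a = b := by
  subst hy
  rw [mul_assoc, mul_assoc] at h
  have h1 : U * a = U * b := by
    ext i
    have h2 := congrArg (PowerSeries.coeff (i + n)) h
    rwa [PowerSeries.coeff_X_pow_mul, PowerSeries.coeff_X_pow_mul] at h2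
  exact hU.mul_left_cancel h1

theorem ubps_unit_of {k : Type} [CommRing k] (φ : PowerSeries k)
    (h : PowerSeries.constantCoeff φ = 1) : IsUnit φ := by
  rw [PowerSeries.isUnit_iff_constantCoeff, h]
  exact isUnit_one

theorem ubps_U5 (k : Type) [CommRing k] : U5 (PowerSeries.X : PowerSeries k) := by
  constructor <;> apply ubps_unit_of <;> simp [D1, D2, E0, E1, E2]

theorem ubps_ps (W : Type) [CommRing W] (p s : ℕ) :
    ((p : ℕ) : PowerSeries (Qs W p s)) ^ s = 0 := by
  have h : ((p : ℕ) : Qs W p s) ^ s = 0 := by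
    have h3 : (Ideal.Quotient.mk (Ideal.span {(p : W) ^ s})) ((p : W) ^ s) = 0 :=
      Ideal.Quotient.eq_zero_iff_mem.2 (Ideal.mem_span_singleton_self _)
    rwa [map_pow, map_natCast] at h3
  have h2 := congrArg (PowerSeries.C (R := Qs W p s)) h
  rwa [map_pow, map_natCast, map_zero] at h2

theorem ubps_two {p : ℕ} [Fact p.Prime] (hp : 5 ≤ p) {W : Type} [CommRing W] {S : Sys W}
    (hS : S.Good p 3 a3 c3) {R : Type} [CommRing R] (f : W →+* R) : IsUnit (2 : R) := by
  have h1 : Nat.Coprime 2 p := by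
    rw [Nat.coprime_primes Nat.prime_two Fact.out]
    omega
  have h2 := (hS.unit 2 h1).map f
  rwa [map_natCast] at h2

variable {R : Type} [CommRing R]

theorem ubps_tF (p : ℕ) [Fact p.Prime] (rho h z : R) (hr : rho ∣ (p : R))
    (hn : IsNilpotent rho) (u : U5 h) :
    (1 + rho * tF p rho h z) * ((1 + rho * z * h) * D1 h ^ (3 * p))
      = D1 (gf p rho h z) ^ 3 :=
  Classical.epsilon_spec (exists_tf p rho h z hr hn u)

theorem ubps_tG (p : ℕ) [Fact p.Prime] (rho h z : R) (hr : rho ∣ (p : R))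
    (hn : IsNilpotent rho) (u : U5 h) :
    (1 + rho * tG p rho h z) * ((1 + rho * z * h) ^ 5 * D2 h ^ (3 * p))
      = D2 (gf p rho h z) ^ 3 :=
  Classical.epsilon_spec (exists_tg p rho h z hr hn u)

theorem ubps_kap (p : ℕ) [Fact p.Prime] (hp : 3 ≤ p) (rho h z : R) (hr : rho ∣ (p : R))
    (hn : IsNilpotent rho) (h2 : IsUnit (2 : R)) (u : U5 h) :
    IsKappa p h (gf p rho h z) (kap p h (gf p rho h z)) :=
  Classical.epsilon_spec (exists_kappa p hp rho h z hr hn h2 u)

theorem ubps_ode {p : ℕ} [Fact p.Prime] (hp : 5 ≤ p) {W : Type} [CommRing W] {S : Sys W}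
    (hS : S.Good p 3 a3 c3) (s : ℕ) (f : W →+* R) (h z : R) (hs : (p : R) ^ s = 0) (u : U5 h)
    {d : R → R} (hd : IsDer d) (hk : Killed d (S.dat s f)) (hh : d h = h) (hz : d z = 0)
    (regf : ∀ a b, xf (gf p (f S.rho) h z) * a = xf (gf p (f S.rho) h z) * b → a = b)
    (regg : ∀ a b, xg (gf p (f S.rho) h z) * a = xg (gf p (f S.rho) h z) * b → a = b) :
    (PsiB p S s R f h z).map d
      = (- ((ubpsTh p (f S.rho) h z * wg (gf p (f S.rho) h z)) •
            Cmp 3 a3 (xg (gf p (f S.rho) h z))) - nuf h • (1 : Matrix (Fin 3) (Fin 3) R))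
          * PsiB p S s R f h z
        + PsiB p S s R f h z * (wf h • Cmp 3 a3 (xf h)) := by
  have ok := hS.ok s R f hs
  have hr : f S.rho ∣ (p : R) := ok.rho_dvd
  have hn : IsNilpotent (f S.rho) := ok.rho_nilp
  have hrho : d (f S.rho) = 0 := hk.2.2.2
  have h2 : IsUnit (2 : R) := ubps_two hp hS f
  have hp0 : 0 < p := by omega
  have ug := U5_gf p (f S.rho) h z hr hn u
  have htF := tf_spec p (f S.rho) h z _ hr hn u (ubps_tF p (f S.rho) h z hr hn u)
  have htG := tg_spec p (f S.rho) h z _ hr hn u (ubps_tG p (f S.rho) h z hr hn u)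
  have hκ := ubps_kap p (by omega) (f S.rho) h z hr hn h2 u
  have hκu := kappa_unit p (f S.rho) h z _ hr hn u hκ
  have hg := ubps_dg hd hp0 (f S.rho) h z hn hrho hz hh
  have hh1 : d h = 1 * h := by rw [one_mul]; exact hh
  unfold PsiB
  generalize kap p h (gf p (f S.rho) h z) = κ at *
  generalize tF p (f S.rho) h z = t at *
  generalize tG p (f S.rho) h z = t' at *
  generalize ubpsTh p (f S.rho) h z = θ at *
  generalize gf p (f S.rho) h z = g at *
  have dxh : d (xf h) = wf h * xf h := by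
    rw [d_xf u hd 1 hh1, one_mul]
  have dxh' : d (xg h) = wg h * xg h := by
    rw [d_xg u hd 1 hh1, one_mul]
  have dxg := d_xf ug hd θ hg
  have dxg' := d_xg ug hd θ hg
  have dt := ubps_dt hd hp0 (xf h) (xf g) t (wf h) (θ * wf g) (f S.rho) hrho dxh dxg htF regf
  have dt' := ubps_dt hd hp0 (xg h) (xg g) t' (wg h) (θ * wg g) (f S.rho) hrho dxh' dxg' htG regg
  have dM := Mmat_ode hp0 ok hd hk (xf h) (xf g) t (wf h) (θ * wf g) dxh dxg (lead_xf u)
    (lead_xf ug) htF dt
  have dM' := Mmat_ode hp0 ok hd hk (xg h) (xg g) t' (wg h) (θ * wg g) dxh' dxg' (lead_xg u)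
    (lead_xg ug) htG dt'
  have dB := Bm_ode u hd 1 hh1
  rw [one_smul] at dB
  have dBg := Bm_ode ug hd θ hg
  have dBg' : (Bm g).map d = Bm g * ((θ * wf g) • Cmp 3 a3 (xf g))
      - ((θ * wg g) • Cmp 3 a3 (xg g)) * Bm g - (θ * nuf g) • Bm g := by
    rw [dBg]
    simp only [smul_sub, mul_smul_comm, smul_mul_assoc, smul_smul]
  have n1 := nuf_eq u hd 1 hh1
  have n2 := nuf_eq ug hd θ hg
  rw [mul_one] at n1
  rw [mul_assoc] at n2
  have dk := ubps_dk hd h2 κ (D1 h) (D2 g) (D1 g) (D2 h) (nuf h) (θ * nuf g) hκu u.d1 ug.d2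
    ug.d1 u.d2 hκ.sq n2 n1
  rw [ubps_map_sub hd, ubps_map_mul hd, ubps_map_smul hd, ubps_map_mul hd]
  exact ubps_alg _ _ _ _ _ _ _ _ _ _ _ _ _ _ _ _ dM' dM dB dBg' dk

theorem ubps_Cmp_map {S : Type} [CommRing S] {n : ℕ} {a : ℤ[X]} {x : R} (hx : Lead n a x)
    (φ : R →+* S) : Cmp n a (φ x) = (Cmp n a x).map φ := by
  ext i j
  have h := (red_map hx φ (X ^ ((j : ℕ) + 1))).1
  rw [Polynomial.map_pow, Polynomial.map_X] at h
  simp only [Cmp, Matrix.map_apply]
  rw [h]

theorem ubps_cube (c : R) : (c • Cmp 3 a3 (0 : R)) ^ 3 = 0 := by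
  rw [cmp3 0 1 (by ring), _root_.smul_pow]
  have h : (!![0, 0, 120 * 0 * 1; 1, 0, 1104 * 0 * 1; 0, 1, 2592 * 0 * 1] :
      Matrix (Fin 3) (Fin 3) R) ^ 3 = 0 := by
    ext i j
    fin_cases i <;> fin_cases j <;>
      simp [pow_succ, Matrix.mul_apply, Fin.sum_univ_three]
  rw [h, smul_zero]

theorem ubps_U50 : U5 (0 : R) := by
  constructor <;> simp [D1, D2, E0, E1, E2]

theorem ubps_lead0 : Lead 3 a3 (0 : R) := by
  rw [lead3_iff]
  simp

theorem ubps_xf0 : xf (0 : R) = 0 := by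
  simp [xf]

theorem ubps_xg0 : xg (0 : R) = 0 := by
  simp [xg]

theorem ubps_gf0 {p : ℕ} (hp : 0 < p) (rho z : R) : gf p rho 0 z = 0 := by
  simp [gf, hp.ne']

/-- at `h = 0` both matrices are diagonal and equal -/
theorem ubps_zero {p : ℕ} [Fact p.Prime] (hp : 5 ≤ p) {W : Type} [CommRing W] {S : Sys W}
    (hS : S.Good p 3 a3 c3) (s : ℕ) (f : W →+* R) (z : R) (hs : (p : R) ^ s = 0) :
    PsiB p S s R f 0 z = 0 := by
  have ok := hS.ok s R f hs
  have hr : f S.rho ∣ (p : R) := ok.rho_dvd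
  have hn : IsNilpotent (f S.rho) := ok.rho_nilp
  have h2 : IsUnit (2 : R) := ubps_two hp hS f
  have hp0 : 0 < p := by omega
  have u0 : U5 (0 : R) := ubps_U50
  have htF := ubps_tF p (f S.rho) 0 z hr hn u0
  have htG := ubps_tG p (f S.rho) 0 z hr hn u0
  have hκ := ubps_kap p (by omega) (f S.rho) 0 z hr hn h2 u0
  have hg := ubps_gf0 hp0 (f S.rho) z
  unfold PsiB
  rw [hg] at htF htG hκ ⊢
  have e1 : D1 (0 : R) = 1 := by simp [D1]
  have e2 : D2 (0 : R) = 1 := by simp [D2]
  rw [e1] at htF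
  rw [e2] at htG
  have hF : (S.dat s f).rho * tF p (f S.rho) 0 z = (S.dat s f).rho * 0 := by
    change f S.rho * tF p (f S.rho) 0 z = f S.rho * 0
    simp only [mul_zero, add_zero, one_pow, mul_one] at htF ⊢
    linear_combination htF
  have hG : (S.dat s f).rho * tG p (f S.rho) 0 z = (S.dat s f).rho * 0 := by
    change f S.rho * tG p (f S.rho) 0 z = f S.rho * 0
    simp only [mul_zero, add_zero, one_pow, mul_one] at htG ⊢
    linear_combination htG
  have hk1 : kap p (0 : R) 0 = 1 := by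
    apply sqrt_unique _ _ h2 _ _ _
    · have := kappa_unit p (f S.rho) 0 z (kap p (0 : R) 0) hr hn u0 (by rw [hg]; exact hκ)
      exact this
    · have h3 := hκ.sq
      rw [e1, e2] at h3
      linear_combination h3
    · have h3 := hκ.nil
      rw [e1, e2] at h3
      simpa using h3
  rw [ubps_xf0, ubps_xg0, Mmat_congr ok 0 0 _ 0 hF, Mmat_congr ok 0 0 _ 0 hG, hk1, one_smul,
    Bm_zero, Mmat_zero hp0 (ubps_lead0 (R := R)).1 ok, Matrix.diagonal_mul_diagonal,
    Matrix.diagonal_mul_diagonal, sub_eq_zero]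
  congr 1
  funext i
  exact mul_comm _ _

theorem ubps_P0 {S : Type} [CommRing S] (φ : R →+* S) (g h c : R) (hg : φ g = 0) (hh : φ h = 0)
    (u : U5 g) :
    ((- (c • Cmp 3 a3 (xg g)) - nuf h • (1 : Matrix (Fin 3) (Fin 3) R)).map φ) ^ 3 = 0 := by
  have h1 : (Cmp 3 a3 (xg g)).map φ = Cmp 3 a3 (0 : S) := by
    rw [← ubps_Cmp_map (lead_xg u) φ, ← xg_map u φ, hg, ubps_xg0]
  have h2 : φ (nuf h) = 0 := by
    simp [nuf, map_mul, hh]
  have h3 : (- (c • Cmp 3 a3 (xg g)) - nuf h • (1 : Matrix (Fin 3) (Fin 3) R)).map φ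
      = (- φ c) • Cmp 3 a3 (0 : S) := by
    rw [← h1]
    ext i j
    simp only [Matrix.map_apply, Matrix.sub_apply, Matrix.neg_apply, Matrix.smul_apply,
      smul_eq_mul, map_sub, map_neg, map_mul, h2, zero_mul, sub_zero, neg_mul]
  rw [h3, ubps_cube]

theorem ubps_Q0 {S : Type} [CommRing S] (φ : R →+* S) (h c : R) (hh : φ h = 0)
    (u : U5 h) :
    ((c • Cmp 3 a3 (xf h)).map φ) ^ 3 = 0 := by
  have h1 : (Cmp 3 a3 (xf h)).map φ = Cmp 3 a3 (0 : S) := by
    rw [← ubps_Cmp_map (lead_xf u) φ, ← xf_map u φ, hh, ubps_xf0]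
  have h3 : (c • Cmp 3 a3 (xf h)).map φ = (φ c) • Cmp 3 a3 (0 : S) := by
    rw [← h1]
    ext i j
    simp only [Matrix.map_apply, Matrix.smul_apply, smul_eq_mul, map_mul]
  rw [h3, ubps_cube]

end ubps_con

theorem ubps_regf {p : ℕ} [Fact p.Prime] {k : Type} [CommRing k] (rho z : PowerSeries k)
    (hr : rho ∣ (p : PowerSeries k)) (hn : IsNilpotent rho) (a b : PowerSeries k)
    (h : xf (gf p rho PowerSeries.X z) * a = xf (gf p rho PowerSeries.X z) * b) : a = b := by
  have u := ubps_U5 k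
  have ug := U5_gf p rho PowerSeries.X z hr hn u
  have hu : IsUnit (1 + rho * z * PowerSeries.X) := by
    have := ubps_unit_add hn (z * PowerSeries.X)
    rwa [← mul_assoc] at this
  refine ubps_cancel p _ ((1 + rho * z * PowerSeries.X) *
    Ring.inverse (D1 (gf p rho PowerSeries.X z)) ^ 3) ?_ ?_ a b h
  · exact hu.mul ((ug.d1.ringInverse).pow 3)
  · unfold xf
    conv_lhs => rw [gf]
    rw [mul_assoc]
    rfl

theorem ubps_regg {p : ℕ} [Fact p.Prime] {k : Type} [CommRing k] (rho z : PowerSeries k)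
    (hr : rho ∣ (p : PowerSeries k)) (hn : IsNilpotent rho) (a b : PowerSeries k)
    (h : xg (gf p rho PowerSeries.X z) * a = xg (gf p rho PowerSeries.X z) * b) : a = b := by
  have u := ubps_U5 k
  have ug := U5_gf p rho PowerSeries.X z hr hn u
  have hu : IsUnit (1 + rho * z * PowerSeries.X) := by
    have := ubps_unit_add hn (z * PowerSeries.X)
    rwa [← mul_assoc] at this
  refine ubps_cancel (p * 5) _ ((1 + rho * z * PowerSeries.X) ^ 5 *
    Ring.inverse (D2 (gf p rho PowerSeries.X z)) ^ 3) ?_ ?_ a b h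
  · exact (hu.pow 5).mul ((ug.d2.ringInverse).pow 3)
  · unfold xg
    generalize Ring.inverse (D2 (gf p rho PowerSeries.X z)) = e
    unfold gf
    rw [pow_mul]
    ring

/-- the two matrices satisfy the same differential equation and agree at `h = 0`; rigidity. -/
theorem PsiB_ps {p : ℕ} [Fact p.Prime] (hp : 5 ≤ p) {W : Type} [CommRing W] {S : Sys W}
    (hS : S.Good p 3 a3 c3) (s : ℕ) :
    PsiB p S s (PowerSeries (Qs W[X] p s)) (psMap W p s) PowerSeries.X (psZ W p s) = 0 := by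
  have hW := hS.mapPoly
  have hp0 : 0 < p := by omega
  refine rigid (W := W[X]) p hW.tf hW.unit 3
    (fun s => PsiB p S s (PowerSeries (Qs W[X] p s)) (psMap W p s) PowerSeries.X (psZ W p s))
    (fun s => - ((ubpsTh p (psMap W p s S.rho) PowerSeries.X (psZ W p s) *
            wg (gf p (psMap W p s S.rho) PowerSeries.X (psZ W p s))) •
            Cmp 3 a3 (xg (gf p (psMap W p s S.rho) PowerSeries.X (psZ W p s))))
          - nuf (PowerSeries.X : PowerSeries (Qs W[X] p s)) •
            (1 : Matrix (Fin 3) (Fin 3) (PowerSeries (Qs W[X] p s))))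
    (fun s => wf (PowerSeries.X : PowerSeries (Qs W[X] p s)) • Cmp 3 a3 (xf PowerSeries.X))
    ?_ ?_ ?_ ?_ ?_ s
  · -- compatibility
    intro s s' h
    have h1 := PsiB_nat hp hS s' (PowerSeries (Qs W[X] p s')) (PowerSeries (Qs W[X] p s))
      (psMap W p s') (PowerSeries.map (qsMap W[X] p h)) PowerSeries.X (psZ W p s')
      (ubps_ps _ p s') (ubps_U5 _)
    have e1 : (PowerSeries.map (qsMap W[X] p h)).comp (psMap W p s') = psMap W p s := by
      ext w n
      simp [psMap, qsMap]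
    have e2 : PowerSeries.map (qsMap W[X] p h) (psZ W p s') = psZ W p s := by
      simp [psZ, qsMap]
    rw [e1, e2, PowerSeries.map_X] at h1
    rw [← h1]
    unfold PsiB
    rw [hS.indep s s' _ (psMap W p s) h (ubps_ps _ p s)]
  · intro s
    have ok := hS.ok s _ (psMap W p s) (ubps_ps _ p s)
    exact ubps_ode hp hS s (psMap W p s) PowerSeries.X (psZ W p s) (ubps_ps _ p s) (ubps_U5 _)
      (thd_isDer _) (psKilled S p s) (thd_X _) (thd_C _ _)
      (ubps_regf _ _ ok.rho_dvd ok.rho_nilp) (ubps_regg _ _ ok.rho_dvd ok.rho_nilp)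
  · intro s
    have ok := hS.ok s _ (psMap W p s) (ubps_ps _ p s)
    refine ubps_P0 _ _ _ _ ?_ ?_ (U5_gf p _ _ _ ok.rho_dvd ok.rho_nilp (ubps_U5 _))
    · simp [gf, hp0.ne']
    · simp
  · intro s
    exact ubps_Q0 _ _ _ (by simp) (ubps_U5 _)
  · intro s
    have h1 := PsiB_nat hp hS s (PowerSeries (Qs W[X] p s)) (Qs W[X] p s)
      (psMap W p s) (PowerSeries.constantCoeff (R := Qs W[X] p s)) PowerSeries.X (psZ W p s)
      (ubps_ps _ p s) (ubps_U5 _)
    rw [← h1, PowerSeries.constantCoeff_X]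
    refine ubps_zero hp hS s _ _ ?_
    have h2 := congrArg (PowerSeries.constantCoeff (R := Qs W[X] p s)) (ubps_ps W[X] p s)
    rwa [map_pow, map_natCast, map_zero] at h2

end Pool.Agent.H.MP_7425ae_nt
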