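import Pool.Agent.H.MP_7425ae_nt.CmpMat
import Pool.Agent.H.MP_7425ae_nt.Der

/-! The horizontal pairing on `H_x` (rank three). -/

set_option autoImplicit false

open Polynomial

namespace Pool.Agent.H.MP_7425ae_nt

/-- the Gram matrix of the pairing, `e = 1/(1 - 1728 x)` -/
noncomputable def Qm {R : Type} [CommRing R] (x : R) : Matrix (Fin 3) (Fin 3) R :=
  !![0, 0, Ring.inverse (1 - 1728 * x);
     0, - Ring.inverse (1 - 1728 * x), - 864 * x * Ring.inverse (1 - 1728 * x) ^ 2;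
     Ring.inverse (1 - 1728 * x), - 864 * x * Ring.inverse (1 - 1728 * x) ^ 2,
      240 * x * Ring.inverse (1 - 1728 * x) ^ 2
        - 746496 * x ^ 2 * Ring.inverse (1 - 1728 * x) ^ 3]

theorem updef_d {R : Type} [CommRing R] {d : R → R} (hd : IsDer d) (x w e : R)
    (hx : d x = w * x) (he : d e = 1728 * w * x * e ^ 2) :
    (!![0, 0, e; 0, - e, - 864 * x * e ^ 2; e, - 864 * x * e ^ 2,
      240 * x * e ^ 2 - 746496 * x ^ 2 * e ^ 3] : Matrix (Fin 3) (Fin 3) R).map d =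
    (w • (!![0, 0, 120 * x * e; 1, 0, 1104 * x * e; 0, 1, 2592 * x * e] :
      Matrix (Fin 3) (Fin 3) R)).transpose *
      !![0, 0, e; 0, - e, - 864 * x * e ^ 2; e, - 864 * x * e ^ 2,
        240 * x * e ^ 2 - 746496 * x ^ 2 * e ^ 3] +
      !![0, 0, e; 0, - e, - 864 * x * e ^ 2; e, - 864 * x * e ^ 2,
        240 * x * e ^ 2 - 746496 * x ^ 2 * e ^ 3] *
      (w • (!![0, 0, 120 * x * e; 1, 0, 1104 * x * e; 0, 1, 2592 * x * e] :
      Matrix (Fin 3) (Fin 3) R)) := by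
  have c1 : d (864 : R) = 0 := by
    have h := hd.natCast 864
    rwa [Nat.cast_ofNat] at h
  have c2 : d (240 : R) = 0 := by
    have h := hd.natCast 240
    rwa [Nat.cast_ofNat] at h
  have c3 : d (746496 : R) = 0 := by
    have h := hd.natCast 746496
    rwa [Nat.cast_ofNat] at h
  have e2 : d (e ^ 2) = 2 * e * d e := by
    rw [pow_two, hd.mul]
    ring
  have e3 : d (e ^ 3) = 3 * e ^ 2 * d e := by
    rw [pow_succ, hd.mul, e2]
    ring
  have x2 : d (x ^ 2) = 2 * x * d x := by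
    rw [pow_two, hd.mul]
    ring
  have d12 : d (- 864 * x * e ^ 2) = - 864 * w * x * e ^ 2 - 2985984 * w * x ^ 2 * e ^ 3 := by
    rw [hd.mul, hd.mul, hd.neg, c1, e2, he, hx]
    ring
  have d22 : d (240 * x * e ^ 2 - 746496 * x ^ 2 * e ^ 3) =
      240 * w * x * e ^ 2 - 663552 * w * x ^ 2 * e ^ 3 - 3869835264 * w * x ^ 3 * e ^ 4 := by
    rw [hd.sub, hd.mul, hd.mul, hd.mul, hd.mul, c2, c3, e2, e3, x2, he, hx]
    ring
  ext i j
  fin_cases i <;> fin_cases j
  · simp [Matrix.mul_apply, Fin.sum_univ_three, hd.zero]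
  · simp [Matrix.mul_apply, Fin.sum_univ_three, hd.zero]
    ring
  · simp [Matrix.mul_apply, Fin.sum_univ_three, he]
    ring
  · simp [Matrix.mul_apply, Fin.sum_univ_three, hd.zero]
    ring
  · simp [Matrix.mul_apply, Fin.sum_univ_three, hd.neg, he]
    ring
  · have h1 : ((!![0, 0, e; 0, - e, - 864 * x * e ^ 2; e, - 864 * x * e ^ 2,
      240 * x * e ^ 2 - 746496 * x ^ 2 * e ^ 3] : Matrix (Fin 3) (Fin 3) R).map d) 1 2 =
        d (- 864 * x * e ^ 2) := rfl
    refine (h1.trans d12).trans ?_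
    simp [Matrix.mul_apply, Fin.sum_univ_three]
    ring
  · simp [Matrix.mul_apply, Fin.sum_univ_three, he]
    ring
  · have h1 : ((!![0, 0, e; 0, - e, - 864 * x * e ^ 2; e, - 864 * x * e ^ 2,
      240 * x * e ^ 2 - 746496 * x ^ 2 * e ^ 3] : Matrix (Fin 3) (Fin 3) R).map d) 2 1 =
        d (- 864 * x * e ^ 2) := rfl
    refine (h1.trans d12).trans ?_
    simp [Matrix.mul_apply, Fin.sum_univ_three]
    ring
  · have h1 : ((!![0, 0, e; 0, - e, - 864 * x * e ^ 2; e, - 864 * x * e ^ 2,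
      240 * x * e ^ 2 - 746496 * x ^ 2 * e ^ 3] : Matrix (Fin 3) (Fin 3) R).map d) 2 2 =
        d (240 * x * e ^ 2 - 746496 * x ^ 2 * e ^ 3) := rfl
    refine (h1.trans d22).trans ?_
    simp [Matrix.mul_apply, Fin.sum_univ_three]
    ring

/-- `dQ = A^T Q + Q A` for `A = w Cmp_x` -/
theorem Qm_ode {R : Type} [CommRing R] {d : R → R} (hd : IsDer d) (x w : R) (hx : d x = w * x)
    (hl : IsUnit (1 - 1728 * x)) :
    (Qm x).map d = (w • Cmp 3 a3 x).transpose * Qm x + Qm x * (w • Cmp 3 a3 x) := by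
  have he := Ring.mul_inverse_cancel _ hl
  have c : d (1728 : R) = 0 := by
    have h := hd.natCast 1728
    rwa [Nat.cast_ofNat] at h
  have hde : d (Ring.inverse (1 - 1728 * x)) =
      1728 * w * x * Ring.inverse (1 - 1728 * x) ^ 2 := by
    rw [hd.inverse hl, hd.sub, hd.one, hd.mul, c, hx]
    ring
  rw [cmp3 x _ he]
  unfold Qm
  exact updef_d hd x w _ hx hde

end Pool.Agent.H.MP_7425ae_nt
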