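import Pool.Agent.H.MP_7425ae_nt.Univ
import Pool.Agent.H.MP_7425ae_nt.FamT
import Pool.Agent.H.MP_7425ae_nt.SymC

/-! Frobenius on `H_x` is the symmetric square of Frobenius on `H_u`: the difference of the two
sides and its naturality. -/

set_option autoImplicit false

open Polynomial

namespace Pool.Agent.H.MP_7425ae_nt

section
variable {R S : Type} [CommRing R] [CommRing S]

/-- `1 - 432 u` and `1 - 864 u` are units -/
structure UU (u : R) : Prop where
  a : IsUnit (1 - 432 * u)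
  b : IsUnit (1 - 864 * u)

theorem UU.map {u : R} (h : UU u) (f : R →+* S) : UU (f u) := by
  refine ⟨?_, ?_⟩
  · have h1 := h.a.map f
    simpa only [map_sub, map_one, map_mul, map_ofNat] using h1
  · have h1 := h.b.map f
    simpa only [map_sub, map_one, map_mul, map_ofNat] using h1

theorem usdef_432 (p : ℕ) [Fact p.Prime] (rho h z : R) (hr : rho ∣ (p : R)) :
    ∃ e : R, 1 - 432 * gf p rho h z = (1 - 432 * h) ^ p + rho * e := by
  obtain ⟨e, he⟩ := frob_gf p (1 - C 432 * X) rho h z hr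
  refine ⟨e, ?_⟩
  simpa [Polynomial.eval₂_sub, Polynomial.eval₂_mul] using he

theorem usdef_864 (p : ℕ) [Fact p.Prime] (rho h z : R) (hr : rho ∣ (p : R)) :
    ∃ e : R, 1 - 864 * gf p rho h z = (1 - 864 * h) ^ p + rho * e := by
  obtain ⟨e, he⟩ := frob_gf p (1 - C 864 * X) rho h z hr
  refine ⟨e, ?_⟩
  simpa [Polynomial.eval₂_sub, Polynomial.eval₂_mul] using he

theorem usdef_unit (rho h z : R) (hn : IsNilpotent rho) : IsUnit (1 + rho * z * h) := by
  have h1 := famt_unit (e := z * h) (isUnit_one (M := R)) hn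
  rwa [← mul_assoc] at h1

theorem usdef_t_eq (rho u v t t' : R) (hu : IsUnit u)
    (h1 : (1 + rho * t) * u = v) (h2 : (1 + rho * t') * u = v) : rho * t = rho * t' := by
  have h3 : (1 + rho * t) * u = (1 + rho * t') * u := h1.trans h2.symm
  have h4 := hu.mul_right_cancel h3
  exact add_left_cancel h4

theorem UU_gf (p : ℕ) [Fact p.Prime] (rho h z : R) (hr : rho ∣ (p : R)) (hn : IsNilpotent rho)
    (u : UU h) : UU (gf p rho h z) := by
  refine ⟨?_, ?_⟩
  · obtain ⟨e, he⟩ := usdef_432 p rho h z hr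
    rw [he]
    exact famt_unit (u.a.pow p) hn
  · obtain ⟨e, he⟩ := usdef_864 p rho h z hr
    rw [he]
    exact famt_unit (u.b.pow p) hn

theorem UU.lead2 {u : R} (h : UU u) : Lead 2 a2 u := (lead2_iff u).2 h.a

theorem UU.lead3 {u : R} (h : UU u) : Lead 3 a3 (xu u) := by
  rw [lead3_iff, delta_xu]
  exact h.b.pow 2

/-- `t` with `(1 + rho t) g = h^p` -/
noncomputable def tU (rho h z : R) : R :=
  Classical.epsilon (fun t : R => (1 + rho * t) * (1 + rho * z * h) = 1)

/-- `t` with `(1 + rho t) xu(g) = xu(h)^p` -/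
noncomputable def tX (p : ℕ) (rho h z : R) : R :=
  Classical.epsilon (fun t : R =>
    (1 + rho * t) * ((1 + rho * z * h) * (1 - 432 * gf p rho h z)) = (1 - 432 * h) ^ p)

theorem tU_spec (rho h z : R) (hn : IsNilpotent rho) :
    (1 + rho * tU rho h z) * (1 + rho * z * h) = 1 := by
  apply Classical.epsilon_spec (p := fun t : R => (1 + rho * t) * (1 + rho * z * h) = 1)
  have hu := usdef_unit rho h z hn
  have h1 : Ring.inverse (1 + rho * z * h) * (1 + rho * z * h) = 1 :=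
    Ring.inverse_mul_cancel _ hu
  refine ⟨-(z * h) * Ring.inverse (1 + rho * z * h), ?_⟩
  linear_combination (-(rho * z * h)) * h1

theorem tX_spec (p : ℕ) [Fact p.Prime] (rho h z : R) (hr : rho ∣ (p : R))
    (hn : IsNilpotent rho) (u : UU h) :
    (1 + rho * tX p rho h z) * ((1 + rho * z * h) * (1 - 432 * gf p rho h z))
      = (1 - 432 * h) ^ p := by
  apply Classical.epsilon_spec (p := fun t : R =>
    (1 + rho * t) * ((1 + rho * z * h) * (1 - 432 * gf p rho h z)) = (1 - 432 * h) ^ p)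
  obtain ⟨e, he⟩ := usdef_432 p rho h z hr
  refine famt_solve (D := (1 - 432 * h) ^ p) (a := 0)
    (q := e + z * h * ((1 - 432 * h) ^ p + rho * e))
    ((usdef_unit rho h z hn).mul (UU_gf p rho h z hr hn u).a) (by ring) ?_
  rw [he]
  ring

end

/-- the difference of the two sides -/
noncomputable def PsiS (p : ℕ) {W : Type} [CommRing W] (S3 S2 : Sys W) (s : ℕ)
    (R : Type) [CommRing R] (f : W →+* R) (h z : R) : Matrix (Fin 3) (Fin 3) R :=
  Mmat p 3 a3 (S3.dat s f) (xu h) (xu (gf p (f S3.rho) h z)) (tX p (f S3.rho) h z) * Cm h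
  - Cm (gf p (f S3.rho) h z) *
    Sy2 (Mmat p 2 a2 (S2.dat s f) h (gf p (f S3.rho) h z) (tU (f S3.rho) h z))

theorem PsiS_nat {p : ℕ} [Fact p.Prime] (hp : 5 ≤ p) {W : Type} [CommRing W] {S3 S2 : Sys W}
    (h3 : S3.Good p 3 a3 c3) (h2 : S2.Good p 2 a2 c2) (hr : S3.rho = S2.rho) (s : ℕ)
    (R R' : Type) [CommRing R] [CommRing R'] (f : W →+* R)
    (φ : R →+* R') (h z : R) (hs : (p : R) ^ s = 0) (u : UU h) :
    PsiS p S3 S2 s R' (φ.comp f) (φ h) (φ z) = (PsiS p S3 S2 s R f h z).map φ := by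
  have hs' : (p : R') ^ s = 0 := by
    have := congrArg φ hs
    simpa using this
  have ok3 := h3.ok s R f hs
  have ok3' := h3.ok s R' (φ.comp f) hs'
  have ok2' := h2.ok s R' (φ.comp f) hs'
  have hrd : f S3.rho ∣ (p : R) := ok3.rho_dvd
  have hn : IsNilpotent (f S3.rho) := ok3.rho_nilp
  have hrd' : (φ.comp f) S3.rho ∣ (p : R') := ok3'.rho_dvd
  have hn' : IsNilpotent ((φ.comp f) S3.rho) := ok3'.rho_nilp
  have hcop : Nat.Coprime 2 p := by
    rw [Nat.coprime_comm]
    exact (Fact.out : p.Prime).coprime_iff_not_dvd.mpr (fun hd => by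
      have := Nat.le_of_dvd (by norm_num) hd
      omega)
  have h2u : IsUnit (2 : R) := by
    have h4 := (h3.unit 2 hcop).map f
    rw [map_natCast] at h4
    exact_mod_cast h4
  have u' : UU (φ h) := u.map φ
  have hrho : (φ.comp f) S3.rho = φ (f S3.rho) := rfl
  have hg : gf p ((φ.comp f) S3.rho) (φ h) (φ z) = φ (gf p (f S3.rho) h z) := by
    rw [hrho, gf_map]
  have ug : UU (gf p (f S3.rho) h z) := UU_gf p _ h z hrd hn u
  have ug' : UU (gf p ((φ.comp f) S3.rho) (φ h) (φ z)) := UU_gf p _ _ _ hrd' hn' u'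
  have sU := tU_spec (f S3.rho) h z hn
  have sU' := tU_spec ((φ.comp f) S3.rho) (φ h) (φ z) hn'
  have sX := tX_spec p (f S3.rho) h z hrd hn u
  have sX' := tX_spec p ((φ.comp f) S3.rho) (φ h) (φ z) hrd' hn' u'
  have mU : (1 + (φ.comp f) S3.rho * φ (tU (f S3.rho) h z))
      * (1 + (φ.comp f) S3.rho * φ z * φ h) = 1 := by
    have := congrArg φ sU
    rw [hrho]
    simpa only [map_mul, map_add, map_one] using this
  have mX : (1 + (φ.comp f) S3.rho * φ (tX p (f S3.rho) h z))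
      * ((1 + (φ.comp f) S3.rho * φ z * φ h) *
        (1 - 432 * gf p ((φ.comp f) S3.rho) (φ h) (φ z))) = (1 - 432 * φ h) ^ p := by
    have := congrArg φ sX
    rw [hg, hrho]
    simpa only [map_mul, map_add, map_sub, map_one, map_pow, map_ofNat] using this
  have un1 : IsUnit (1 + (φ.comp f) S3.rho * φ z * φ h) := usdef_unit _ _ _ hn'
  have eU : (φ.comp f) S3.rho * tU ((φ.comp f) S3.rho) (φ h) (φ z)
      = (φ.comp f) S3.rho * φ (tU (f S3.rho) h z) :=
    usdef_t_eq _ _ _ _ _ un1 sU' mU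
  have eX : (φ.comp f) S3.rho * tX p ((φ.comp f) S3.rho) (φ h) (φ z)
      = (φ.comp f) S3.rho * φ (tX p (f S3.rho) h z) :=
    usdef_t_eq _ _ _ _ _ (un1.mul ug'.a) sX' mX
  have hrd3 : (S3.dat s (φ.comp f)).rho = (φ.comp f) S3.rho := rfl
  have hrd2 : (S2.dat s (φ.comp f)).rho = (φ.comp f) S3.rho := by
    rw [hr]
    rfl
  have M1 : Mmat p 3 a3 (S3.dat s (φ.comp f)) (xu (φ h))
      (xu (gf p ((φ.comp f) S3.rho) (φ h) (φ z))) (tX p ((φ.comp f) S3.rho) (φ h) (φ z))
      = (Mmat p 3 a3 (S3.dat s f) (xu h) (xu (gf p (f S3.rho) h z))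
        (tX p (f S3.rho) h z)).map φ := by
    rw [Mmat_congr ok3' _ _ _ (φ (tX p (f S3.rho) h z)) (by rw [hrd3]; exact eX), hg, xu_map,
      xu_map, Sys.dat_map, Mmat_map _ _ _ _ ug.lead3]
  have M2 : Mmat p 2 a2 (S2.dat s (φ.comp f)) (φ h)
      (gf p ((φ.comp f) S3.rho) (φ h) (φ z)) (tU ((φ.comp f) S3.rho) (φ h) (φ z))
      = (Mmat p 2 a2 (S2.dat s f) h (gf p (f S3.rho) h z) (tU (f S3.rho) h z)).map φ := by
    rw [Mmat_congr ok2' _ _ _ (φ (tU (f S3.rho) h z)) (by rw [hrd2]; exact eU), hg,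
      Sys.dat_map, Mmat_map _ _ _ _ ug.lead2]
  unfold PsiS
  rw [M1, M2, hg, Cm_map h2u u.a, Cm_map h2u ug.a, Sy2_map, Matrix.map_sub φ (map_sub φ),
    Matrix.map_mul, Matrix.map_mul]

end Pool.Agent.H.MP_7425ae_nt
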