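import Pool.Agent.H.MP_7425ae_nt.USDef
import Pool.Agent.H.MP_7425ae_nt.UBPs

/-! Frobenius on `H_x` is the symmetric square of Frobenius on `H_u`: power series. -/

set_option autoImplicit false

open Polynomial

namespace Pool.Agent.H.MP_7425ae_nt

section usps_con

variable {R : Type} [CommRing R]

/-- the algebra of the differential equation -/
theorem usps_alg {A : Type} [Ring A] (M C Cg Y a a' b b' dM dC dCg dY : A)
    (h1 : dM = M * a - b * M) (h2 : dC = C * a' - a * C)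
    (h3 : dCg = Cg * b' - b * Cg) (h4 : dY = Y * a' - b' * Y) :
    dM * C + M * dC - (dCg * Y + Cg * dY)
      = (-b) * (M * C - Cg * Y) + (M * C - Cg * Y) * a' := by
  subst h1 h2 h3 h4
  noncomm_ring

theorem usps_ode {p : ℕ} [Fact p.Prime] (hp : 5 ≤ p) {W : Type} [CommRing W] {S3 S2 : Sys W}
    (h3 : S3.Good p 3 a3 c3) (h2 : S2.Good p 2 a2 c2) (hr : S3.rho = S2.rho) (s : ℕ)
    (f : W →+* R) (h z : R) (hs : (p : R) ^ s = 0) (u : UU h)
    {d : R → R} (hd : IsDer d) (hk3 : Killed d (S3.dat s f)) (hk2 : Killed d (S2.dat s f))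
    (hh : d h = h) (hz : d z = 0)
    (regg : ∀ a b, gf p (f S3.rho) h z * a = gf p (f S3.rho) h z * b → a = b)
    (regx : ∀ a b, xu (gf p (f S3.rho) h z) * a = xu (gf p (f S3.rho) h z) * b → a = b) :
    (PsiS p S3 S2 s R f h z).map d
      = (- ((ubpsTh p (f S3.rho) h z * ((1 - 864 * gf p (f S3.rho) h z) *
            Ring.inverse (1 - 432 * gf p (f S3.rho) h z))) •
            Cmp 3 a3 (xu (gf p (f S3.rho) h z))))
          * PsiS p S3 S2 s R f h z
        + PsiS p S3 S2 s R f h z * s2 ((1 : R) • Cmp 2 a2 h) := by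
  have ok3 := h3.ok s R f hs
  have ok2 := h2.ok s R f hs
  have hrd : f S3.rho ∣ (p : R) := ok3.rho_dvd
  have hn : IsNilpotent (f S3.rho) := ok3.rho_nilp
  have hrho : d (f S3.rho) = 0 := hk3.2.2.2
  have h2u : IsUnit (2 : R) := ubps_two hp h3 f
  have hp0 : 0 < p := by omega
  have ug : UU (gf p (f S3.rho) h z) := UU_gf p _ h z hrd hn u
  have sU := tU_spec (f S3.rho) h z hn
  have sX := tX_spec p (f S3.rho) h z hrd hn u
  have hg := ubps_dg hd hp0 (f S3.rho) h z hn hrho hz hh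
  have hh1 : d h = 1 * h := by rw [one_mul]; exact hh
  have eU : (1 + f S3.rho * tU (f S3.rho) h z) * gf p (f S3.rho) h z = h ^ p := by
    unfold gf
    linear_combination (h ^ p) * sU
  have eX : (1 + f S3.rho * tX p (f S3.rho) h z) * xu (gf p (f S3.rho) h z) = xu h ^ p := by
    have e1 : xu (gf p (f S3.rho) h z) = h ^ p * ((1 + f S3.rho * z * h) *
        (1 - 432 * gf p (f S3.rho) h z)) := by
      rw [xu]
      conv_lhs => rw [gf]
      unfold gf
      ring
    have e2 : xu h ^ p = h ^ p * (1 - 432 * h) ^ p := by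
      rw [xu, mul_pow]
    rw [e1, e2]
    linear_combination (h ^ p) * sX
  unfold PsiS
  generalize tU (f S3.rho) h z = t2 at *
  generalize tX p (f S3.rho) h z = t3 at *
  generalize ubpsTh p (f S3.rho) h z = θ at *
  generalize gf p (f S3.rho) h z = g at *
  have dxh := xu_isDer hd 1 hh1 u.a
  have dxg := xu_isDer hd θ hg ug.a
  have dt2 := ubps_dt hd hp0 h g t2 1 θ (f S3.rho) hrho hh1 hg eU regg
  have dt3 := ubps_dt hd hp0 (xu h) (xu g) t3 _ _ (f S3.rho) hrho dxh dxg eX regx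
  have dM3 := Mmat_ode hp0 ok3 hd hk3 (xu h) (xu g) t3 _ _ dxh dxg u.lead3 ug.lead3 eX dt3
  have hr2 : (S2.dat s f).rho = f S3.rho := by
    rw [hr]
    rfl
  have dM2 := Mmat_ode hp0 ok2 hd hk2 h g t2 1 θ hh1 hg u.lead2 ug.lead2
    (by rw [hr2]; exact eU) (by rw [hr2]; exact dt2)
  have dS := Sy2_ode hd _ _ _ dM2
  have dC := Cm_ode h2u u.a u.b hd 1 hh1
  have dCg := Cm_ode h2u ug.a ug.b hd θ hg
  rw [ubps_map_sub hd, ubps_map_mul hd, ubps_map_mul hd]
  exact usps_alg _ _ _ _ _ _ _ _ _ _ _ _ dM3 dC dCg dS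

theorem usps_UU0 : UU (0 : R) := by
  constructor <;> simp

theorem usps_UUX (k : Type) [CommRing k] : UU (PowerSeries.X : PowerSeries k) := by
  constructor <;> apply ubps_unit_of <;> simp

theorem usps_xu0 : xu (0 : R) = 0 := by
  simp [xu]

/-- at `h = 0` both matrices are diagonal and equal -/
theorem usps_zero {p : ℕ} [Fact p.Prime] (hp : 5 ≤ p) {W : Type} [CommRing W] {S3 S2 : Sys W}
    (h3 : S3.Good p 3 a3 c3) (h2 : S2.Good p 2 a2 c2) (hr : S3.rho = S2.rho) (s : ℕ)
    (f : W →+* R) (z : R) (hs : (p : R) ^ s = 0) :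
    PsiS p S3 S2 s R f 0 z = 0 := by
  have ok3 := h3.ok s R f hs
  have ok2 := h2.ok s R f hs
  have hrd : f S3.rho ∣ (p : R) := ok3.rho_dvd
  have hn : IsNilpotent (f S3.rho) := ok3.rho_nilp
  have hp0 : 0 < p := by omega
  have u0 : UU (0 : R) := usps_UU0
  have sU := tU_spec (f S3.rho) 0 z hn
  have sX := tX_spec p (f S3.rho) 0 z hrd hn u0
  have hg := ubps_gf0 hp0 (f S3.rho) z
  have hr2 : (S2.dat s f).rho = f S3.rho := by
    rw [hr]
    rfl
  unfold PsiS
  rw [hg] at sX ⊢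
  have hU : (S2.dat s f).rho * tU (f S3.rho) 0 z = (S2.dat s f).rho * 0 := by
    rw [hr2]
    simp only [mul_zero, add_zero, mul_one] at sU ⊢
    linear_combination sU
  have hX : (S3.dat s f).rho * tX p (f S3.rho) 0 z = (S3.dat s f).rho * 0 := by
    change f S3.rho * tX p (f S3.rho) 0 z = f S3.rho * 0
    simp only [mul_zero, add_zero, sub_zero, one_pow, mul_one] at sX ⊢
    linear_combination sX
  have e2 : Mmat p 2 a2 (S2.dat s f) (0 : R) 0 0 = Matrix.diagonal ![1, (p : R)] := by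
    rw [Mmat_zero hp0 u0.lead2.1 ok2]
    congr 1
    funext i
    fin_cases i <;> simp
  rw [usps_xu0, Mmat_congr ok3 0 0 _ 0 hX, Mmat_congr ok2 0 0 _ 0 hU, e2,
    Mmat_zero hp0 (ubps_lead0 (R := R)).1 ok3, Cm_zero, Sy2_diag, Matrix.diagonal_mul_diagonal,
    Matrix.diagonal_mul_diagonal, sub_eq_zero]
  congr 1
  funext i
  fin_cases i <;> simp <;> ring

theorem usps_P0 {S : Type} [CommRing S] (φ : R →+* S) (g c : R) (hg : φ g = 0)
    (u : UU g) :
    ((- (c • Cmp 3 a3 (xu g))).map φ) ^ 3 = 0 := by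
  have h1 : (Cmp 3 a3 (xu g)).map φ = Cmp 3 a3 (0 : S) := by
    rw [← ubps_Cmp_map u.lead3 φ, ← xu_map, hg, usps_xu0]
  have h3 : (- (c • Cmp 3 a3 (xu g))).map φ = (- φ c) • Cmp 3 a3 (0 : S) := by
    rw [← h1]
    ext i j
    simp only [Matrix.map_apply, Matrix.neg_apply, Matrix.smul_apply,
      smul_eq_mul, map_neg, map_mul, neg_mul]
  rw [h3, ubps_cube]

theorem usps_Q0 {S : Type} [CommRing S] (φ : R →+* S) (h : R) (hh : φ h = 0)
    (u : UU h) :
    ((s2 ((1 : R) • Cmp 2 a2 h)).map φ) ^ 3 = 0 := by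
  have h1 : (Cmp 2 a2 h).map φ = !![0, 0; 1, 0] := by
    rw [← ubps_Cmp_map u.lead2 φ, hh, cmp2 0 1 (by ring)]
    ext i j
    fin_cases i <;> fin_cases j <;> simp
  rw [one_smul, ← s2_map, h1]
  ext i j
  fin_cases i <;> fin_cases j <;>
    simp [s2, pow_succ, Matrix.mul_apply, Fin.sum_univ_three]

end usps_con

theorem usps_regg {p : ℕ} [Fact p.Prime] {k : Type} [CommRing k] (rho z : PowerSeries k)
    (hn : IsNilpotent rho) (a b : PowerSeries k)
    (h : gf p rho PowerSeries.X z * a = gf p rho PowerSeries.X z * b) : a = b := by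
  have hu : IsUnit (1 + rho * z * PowerSeries.X) := by
    have := ubps_unit_add hn (z * PowerSeries.X)
    rwa [← mul_assoc] at this
  exact ubps_cancel p _ (1 + rho * z * PowerSeries.X) hu rfl a b h

theorem usps_regx {p : ℕ} [Fact p.Prime] {k : Type} [CommRing k] (rho z : PowerSeries k)
    (hr : rho ∣ (p : PowerSeries k)) (hn : IsNilpotent rho) (a b : PowerSeries k)
    (h : xu (gf p rho PowerSeries.X z) * a = xu (gf p rho PowerSeries.X z) * b) : a = b := by
  have ug := UU_gf p rho PowerSeries.X z hr hn (usps_UUX k)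
  apply usps_regg (p := p) rho z hn
  apply ug.a.mul_left_cancel
  unfold xu at h
  linear_combination h

/-- the two matrices satisfy the same differential equation and agree at `h = 0`; rigidity. -/
theorem PsiS_ps {p : ℕ} [Fact p.Prime] (hp : 5 ≤ p) {W : Type} [CommRing W] {S3 S2 : Sys W}
    (h3 : S3.Good p 3 a3 c3) (h2 : S2.Good p 2 a2 c2) (hr : S3.rho = S2.rho) (s : ℕ) :
    PsiS p S3 S2 s (PowerSeries (Qs W[X] p s)) (psMap W p s) PowerSeries.X (psZ W p s) = 0 := by
  have hW := h3.mapPoly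
  have hp0 : 0 < p := by omega
  refine rigid (W := W[X]) p hW.tf hW.unit 3
    (fun s => PsiS p S3 S2 s (PowerSeries (Qs W[X] p s)) (psMap W p s) PowerSeries.X
      (psZ W p s))
    (fun s => - ((ubpsTh p (psMap W p s S3.rho) PowerSeries.X (psZ W p s) *
            ((1 - 864 * gf p (psMap W p s S3.rho) PowerSeries.X (psZ W p s)) *
            Ring.inverse (1 - 432 * gf p (psMap W p s S3.rho) PowerSeries.X (psZ W p s)))) •
            Cmp 3 a3 (xu (gf p (psMap W p s S3.rho) PowerSeries.X (psZ W p s)))))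
    (fun s => s2 ((1 : PowerSeries (Qs W[X] p s)) • Cmp 2 a2 PowerSeries.X))
    ?_ ?_ ?_ ?_ ?_ s
  · -- compatibility
    intro s s' h
    have h1 := PsiS_nat hp h3 h2 hr s' (PowerSeries (Qs W[X] p s'))
      (PowerSeries (Qs W[X] p s))
      (psMap W p s') (PowerSeries.map (qsMap W[X] p h)) PowerSeries.X (psZ W p s')
      (ubps_ps _ p s') (usps_UUX _)
    have e1 : (PowerSeries.map (qsMap W[X] p h)).comp (psMap W p s') = psMap W p s := by
      ext w n
      simp [psMap, qsMap]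
    have e2 : PowerSeries.map (qsMap W[X] p h) (psZ W p s') = psZ W p s := by
      simp [psZ, qsMap]
    rw [e1, e2, PowerSeries.map_X] at h1
    rw [← h1]
    unfold PsiS
    rw [h3.indep s s' _ (psMap W p s) h (ubps_ps _ p s),
      h2.indep s s' _ (psMap W p s) h (ubps_ps _ p s)]
  · intro s
    have ok := h3.ok s _ (psMap W p s) (ubps_ps _ p s)
    exact usps_ode hp h3 h2 hr s (psMap W p s) PowerSeries.X (psZ W p s) (ubps_ps _ p s)
      (usps_UUX _) (thd_isDer _) (psKilled S3 p s) (psKilled S2 p s) (thd_X _) (thd_C _ _)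
      (usps_regg _ _ ok.rho_nilp) (usps_regx _ _ ok.rho_dvd ok.rho_nilp)
  · intro s
    have ok := h3.ok s _ (psMap W p s) (ubps_ps _ p s)
    refine usps_P0 _ _ _ ?_ (UU_gf p _ _ _ ok.rho_dvd ok.rho_nilp (usps_UUX _))
    simp [gf, hp0.ne']
  · intro s
    exact usps_Q0 _ _ (by simp) (usps_UUX _)
  · intro s
    have h1 := PsiS_nat hp h3 h2 hr s (PowerSeries (Qs W[X] p s)) (Qs W[X] p s)
      (psMap W p s) (PowerSeries.constantCoeff (R := Qs W[X] p s)) PowerSeries.X (psZ W p s)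
      (ubps_ps _ p s) (usps_UUX _)
    rw [← h1, PowerSeries.constantCoeff_X]
    refine usps_zero hp h3 h2 hr s _ _ ?_
    have h4 := congrArg (PowerSeries.constantCoeff (R := Qs W[X] p s)) (ubps_ps W[X] p s)
    rwa [map_pow, map_natCast, map_zero] at h4

end Pool.Agent.H.MP_7425ae_nt
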