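import Pool.Agent.H.MP_7425ae_nt.UTauA

/-! The relation `U_x tau_x = tau_{x^p} (p^n Theta q(pX))`. -/

set_option autoImplicit false

open Polynomial

namespace Pool.Agent.H.MP_7425ae_nt

variable {R : Type} [CommRing R]

/-- the telescoping sum -/
theorem utau_sum {p n : ℕ} {a : ℤ[X]} {c : ℕ → ℤ} {D : Dat R} (h : D.OK p n a c)
    (x : R) (q : R[X]) (m : ℕ) (hm : p = m + 1) :
    ∑ j ∈ Finset.range p,
      C (x ^ j) * (tau n a x q).comp (C (p : R) * X + C (j : R)) * D.r j =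
      C (x ^ p) * (aR a R).comp (C (p : R) * X + C (m : R)) *
        q.comp (C (p : R) * X + C (p : R)) * D.r m -
      (C (p : R) * X) ^ n * q.comp (C (p : R) * X) := by
  have hP : ∀ j : ℕ, (C (p : R) * X + C (j : R) : R[X]) + 1 =
      C (p : R) * X + C ((j + 1 : ℕ) : R) := by
    intro j
    rw [Nat.cast_add, Nat.cast_one, C_add, C_1]
    ring
  have hcomp : ∀ j : ℕ, (tau n a x q).comp (C (p : R) * X + C (j : R)) =
      C x * (aR a R).comp (C (p : R) * X + C (j : R)) *
        q.comp (C (p : R) * X + C ((j + 1 : ℕ) : R)) -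
      (C (p : R) * X + C (j : R)) ^ n * q.comp (C (p : R) * X + C (j : R)) := by
    intro j
    unfold tau
    rw [sub_comp, mul_comp, mul_comp, mul_comp, C_comp, pow_comp, X_comp, comp_assoc, add_comp,
      X_comp, one_comp, hP]
  have hterm : ∀ j ∈ Finset.range m,
      C (x ^ j) * (tau n a x q).comp (C (p : R) * X + C (j : R)) * D.r j =
      C (x ^ (j + 1)) * (C (p : R) * X + C ((j + 1 : ℕ) : R)) ^ n *
        q.comp (C (p : R) * X + C ((j + 1 : ℕ) : R)) * D.r (j + 1) -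
      C (x ^ j) * (C (p : R) * X + C (j : R)) ^ n *
        q.comp (C (p : R) * X + C (j : R)) * D.r j := by
    intro j hj
    rw [Finset.mem_range] at hj
    have h1 := h.r_succ j (by omega)
    rw [← Nat.cast_succ] at h1
    rw [hcomp, pow_succ, C_mul]
    linear_combination (-(C (x ^ j) * C x * q.comp (C (p : R) * X + C ((j + 1 : ℕ) : R)))) * h1
  have hsum : ∑ j ∈ Finset.range m,
      C (x ^ j) * (tau n a x q).comp (C (p : R) * X + C (j : R)) * D.r j =
      C (x ^ m) * (C (p : R) * X + C (m : R)) ^ n *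
        q.comp (C (p : R) * X + C (m : R)) * D.r m -
      C (x ^ 0) * (C (p : R) * X + C ((0 : ℕ) : R)) ^ n *
        q.comp (C (p : R) * X + C ((0 : ℕ) : R)) * D.r 0 := by
    rw [Finset.sum_congr rfl hterm]
    exact Finset.sum_range_sub (fun j => C (x ^ j) * (C (p : R) * X + C (j : R)) ^ n *
        q.comp (C (p : R) * X + C (j : R)) * D.r j) m
  have hr : Finset.range p = Finset.range (m + 1) := by rw [hm]
  rw [hr, Finset.sum_range_succ, hsum, hcomp, h.r_zero]
  have e1 : ((m + 1 : ℕ) : R) = (p : R) := by rw [hm]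
  have e2 : x ^ p = x ^ m * x := by rw [hm, pow_succ]
  rw [e1, e2, Nat.cast_zero, C_0, add_zero, pow_zero, C_1, C_mul]
  ring

/-- telescoping: with `r_{j+1} (pX+j+1)^n = r_j a(pX+j)`,
`sum_j x^j [x a(pX+j) q(pX+j+1) - (pX+j)^n q(pX+j)] r_j`
`= x^p a(pX+p-1) r_{p-1} q(pX+p) - (pX)^n q(pX)`; then use `fe`. -/
theorem Uop_tau {p n : ℕ} (hp : 0 < p) {a : ℤ[X]} {c : ℕ → ℤ} {D : Dat R} (h : D.OK p n a c)
    (x : R) (q : R[X]) :
    Uop p D x (tau n a x q)
      = tau n a (x ^ p) (C ((p : R) ^ n) * D.Th * q.comp (C (p : R) * X)) := by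
  obtain ⟨m, hm⟩ : ∃ m, p = m + 1 := ⟨p - 1, by omega⟩
  unfold Uop
  rw [utau_sum h x q m hm]
  have hfe := h.fe
  have e1 : (p : R) - 1 = (m : R) := by
    rw [hm, Nat.cast_add, Nat.cast_one, add_sub_cancel_right]
  have e2 : p - 1 = m := by omega
  rw [e1, e2] at hfe
  unfold tau
  have e3 : (C ((p : R) ^ n) * D.Th * q.comp (C (p : R) * X)).comp (X + 1) =
      C ((p : R) ^ n) * D.Th.comp (X + 1) * q.comp (C (p : R) * X + C (p : R)) := by
    rw [mul_comp, mul_comp, C_comp, comp_assoc, mul_comp, C_comp, X_comp, mul_add, mul_one]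
  rw [e3, mul_pow, ← C_pow]
  linear_combination (C (x ^ p) * q.comp (C (p : R) * X + C (p : R))) * hfe

end Pool.Agent.H.MP_7425ae_nt
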