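import Pool.Agent.H.MP_7425ae_nt.RigidA
import Pool.Agent.H.MP_7425ae_nt.Transfer

/-! The universal principle: a natural identity between matrices depending on a ring `R`, a point
`h` and a parameter `z` holds as soon as it holds for `R = (W[z]/p^s)[[h]]`. -/

set_option autoImplicit false

open Polynomial

namespace Pool.Agent.H.MP_7425ae_nt

/-- evaluation of `b` in `W[z][h]` -/
noncomputable def ev2 {W R : Type} [CommRing W] [CommRing R] (f : W →+* R) (b : W[X][X])
    (h z : R) : R := b.eval₂ (eval₂RingHom f z) h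

/-- the structure map `W -> (W[z]/p^s)[[h]]` -/
noncomputable def psMap (W : Type) [CommRing W] (p s : ℕ) :
    W →+* PowerSeries (Qs W[X] p s) :=
  (PowerSeries.C (R := Qs W[X] p s)).comp
    ((Ideal.Quotient.mk (Ideal.span {(p : W[X]) ^ s})).comp (Polynomial.C (R := W)))

/-- the parameter `z` in `(W[z]/p^s)[[h]]` -/
noncomputable def psZ (W : Type) [CommRing W] (p s : ℕ) : PowerSeries (Qs W[X] p s) :=
  PowerSeries.C (Ideal.Quotient.mk (Ideal.span {(p : W[X]) ^ s}) (X : W[X]))

theorem universal {W : Type} [CommRing W] (p s m : ℕ) (b : W[X][X]) (hb : IsUnit (b.coeff 0))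
    (Ψ : ∀ (R : Type) [CommRing R], (W →+* R) → R → R → Matrix (Fin m) (Fin m) R)
    (nat : ∀ (R R' : Type) [CommRing R] [CommRing R'] (f : W →+* R) (φ : R →+* R') (h z : R),
      (p : R) ^ s = 0 → IsUnit (ev2 f b h z) →
      Ψ R' (φ.comp f) (φ h) (φ z) = (Ψ R f h z).map φ)
    (ps : Ψ (PowerSeries (Qs W[X] p s)) (psMap W p s) PowerSeries.X (psZ W p s) = 0)
    (R : Type) [CommRing R] (f : W →+* R) (h z : R) (hs : (p : R) ^ s = 0)
    (hu : IsUnit (ev2 f b h z)) : Ψ R f h z = 0 := by
  set mk : W[X] →+* Qs W[X] p s := Ideal.Quotient.mk (Ideal.span {(p : W[X]) ^ s}) with hmk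
  have hker : ∀ a ∈ Ideal.span {(p : W[X]) ^ s}, eval₂RingHom f z a = 0 := by
    intro a ha
    rw [Ideal.mem_span_singleton] at ha
    obtain ⟨c, rfl⟩ := ha
    rw [map_mul, map_pow, map_natCast, hs, zero_mul]
  set g : Qs W[X] p s →+* R := Ideal.Quotient.lift _ (eval₂RingHom f z) hker with hg
  have hgmk : g.comp mk = eval₂RingHom f z := Ideal.Quotient.lift_comp_mk _ _ _
  have hgmk' : ∀ a : W[X], g (mk a) = eval₂RingHom f z a := fun a => by
    rw [← hgmk]; rfl
  have hb' : IsUnit ((b.map mk).coeff 0) := by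
    rw [coeff_map]; exact hb.map mk
  have hu' : IsUnit ((b.map mk).eval₂ g h) := by
    rw [eval₂_map, hgmk]; exact hu
  obtain ⟨L, instL, i, ι, ev, hinj, hι, hev, hunit⟩ := transfer (b.map mk) hb' g h hu'
  set fL : W →+* L := i.comp ((C : Qs W[X] p s →+* (Qs W[X] p s)[X]).comp (mk.comp C)) with hfL
  have hpk : ((p : Qs W[X] p s)) ^ s = 0 := by
    have h1 : mk ((p : W[X]) ^ s) = 0 :=
      Ideal.Quotient.eq_zero_iff_mem.mpr (Ideal.subset_span rfl)
    rw [map_pow, map_natCast] at h1
    exact h1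
  have hpL : (p : L) ^ s = 0 := by
    have h1 := congrArg (fun a => i (C a)) hpk
    simp only [map_pow, map_natCast, map_zero] at h1
    exact h1
  have hhom : eval₂RingHom fL (i (C (mk X))) = i.comp ((C : Qs W[X] p s →+* _).comp mk) := by
    apply Polynomial.ringHom_ext
    · intro a
      simp [hfL]
    · simp
  have huL : IsUnit (ev2 fL b (i X) (i (C (mk X)))) := by
    have e : ev2 fL b (i X) (i (C (mk X))) = i (b.map mk) := by
      unfold ev2
      rw [hhom, Polynomial.map, Polynomial.hom_eval₂]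
    rw [e]; exact hunit
  have n1 := nat L (PowerSeries (Qs W[X] p s)) fL ι (i X) (i (C (mk X))) hpL huL
  have e1 : ι.comp fL = psMap W p s := by
    apply RingHom.ext
    intro w
    simp only [hfL, RingHom.comp_apply, psMap, hι]
    rw [Polynomial.coe_C]
  have e2 : ι (i X) = PowerSeries.X := by rw [hι, Polynomial.coe_X]
  have e3 : ι (i (C (mk X))) = psZ W p s := by
    rw [hι, Polynomial.coe_C]; rfl
  rw [e1, e2, e3, ps] at n1
  have hz : Ψ L fL (i X) (i (C (mk X))) = 0 := by
    ext a c
    apply hinj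
    have := congrFun (congrFun n1 a) c
    simp only [Matrix.map_apply, Matrix.zero_apply] at this
    rw [← this, Matrix.zero_apply, map_zero]
  have n2 := nat L R fL ev (i X) (i (C (mk X))) hpL huL
  have f1 : ev.comp fL = f := by
    apply RingHom.ext
    intro w
    simp only [hfL, RingHom.comp_apply, hev, eval₂_C, hgmk']
    simp
  have f2 : ev (i X) = h := by rw [hev, eval₂_X]
  have f3 : ev (i (C (mk X))) = z := by
    rw [hev, eval₂_C, hgmk']
    simp
  rw [f1, f2, f3, hz] at n2
  rw [n2]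
  ext a c
  simp

end Pool.Agent.H.MP_7425ae_nt
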