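import Pool.Agent.H.MP_7425ae_nt.DPp
import Pool.Agent.H.MP_7425ae_nt.Comm19B

/-! The ring `Z_19[β]`, `β^2 = β - 5`, and the divided powers of `2 β - 1`. -/

set_option autoImplicit false

open Polynomial

namespace Pool.Agent.H.MP_7425ae_nt

/-- `Z_19[β]` -/
abbrev W19 : Type := QuadraticAlgebra ℤ_[19] (-5) 1

/-- `β` -/
noncomputable def be19 : W19 := ⟨0, 1⟩

theorem be19_sq : be19 ^ 2 = be19 - 5 := by
  rw [pow_two]
  apply QuadraticAlgebra.ext
  · rw [QuadraticAlgebra.re_mul, QuadraticAlgebra.re_sub, QuadraticAlgebra.re_ofNat]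
    simp [be19]
  · rw [QuadraticAlgebra.im_mul, QuadraticAlgebra.im_sub, QuadraticAlgebra.im_ofNat]
    simp [be19]

theorem w19_cancel (n : ℕ) (hn : n ≠ 0) (w : W19) (h : ((n : ℕ) : W19) * w = 0) : w = 0 := by
  have hn' : ((n : ℕ) : ℤ_[19]) ≠ 0 := by exact_mod_cast hn
  have h1 := congrArg QuadraticAlgebra.re h
  have h2 := congrArg QuadraticAlgebra.im h
  rw [QuadraticAlgebra.re_mul, QuadraticAlgebra.re_natCast, QuadraticAlgebra.im_natCast,
    QuadraticAlgebra.re_zero, mul_zero, zero_mul, add_zero] at h1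
  rw [QuadraticAlgebra.im_mul, QuadraticAlgebra.re_natCast, QuadraticAlgebra.im_natCast,
    QuadraticAlgebra.im_zero, mul_zero, zero_mul, add_zero, zero_mul, add_zero] at h2
  apply QuadraticAlgebra.ext
  · exact (mul_eq_zero.1 h1).resolve_left hn'
  · exact (mul_eq_zero.1 h2).resolve_left hn'

theorem W19_tf (w : W19) (h : ((19 : ℕ) : W19) * w = 0) : w = 0 :=
  w19_cancel 19 (by norm_num) w h

theorem w19_rho : (2 * be19 - 1) ^ 2 = -19 := by
  linear_combination 4 * be19_sq

theorem w19_dp (i : ℕ) :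
    ∃ γ : W19, ((i.factorial : ℕ) : W19) * γ = (2 * be19 - 1) ^ i ∧
      ∀ k : ℕ, (k ≤ i ∧ (i ≤ 18 ∨ 9 * k ≤ 8 * i + 1)) → (2 * be19 - 1) ^ k ∣ γ := by
  have hpp : Nat.Prime 19 := by norm_num
  have hf0 : i.factorial ≠ 0 := Nat.factorial_ne_zero i
  obtain ⟨v, u, hu, he⟩ := Nat.exists_eq_pow_mul_and_not_dvd hf0 19 hpp.ne_one
  have hv : padicValNat 19 i.factorial = v := by
    have hu0 : u ≠ 0 := by
      rintro rfl
      exact hu (dvd_zero 19)
    rw [he, padicValNat.mul (pow_ne_zero _ hpp.ne_zero) hu0, padicValNat.prime_pow,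
      padicValNat.eq_zero_of_not_dvd hu, add_zero]
  have hleg : (19 - 1) * v = i - (Nat.digits 19 i).sum := by
    rw [← hv]
    exact sub_one_mul_padicValNat_factorial i
  have hvi : 18 * v ≤ i := by omega
  have hds : i ≠ 0 → 1 ≤ (Nat.digits 19 i).sum := by
    intro h0
    by_contra hc
    have hs : (Nat.digits 19 i).sum = 0 := by omega
    have hall : ∀ d ∈ Nat.digits 19 i, d = 0 := by
      intro d hd
      have := List.single_le_sum (l := Nat.digits 19 i) (fun x _ => Nat.zero_le x) d hd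
      omega
    have hne : Nat.digits 19 i ≠ [] := Nat.digits_ne_nil_iff_ne_zero.mpr h0
    exact Nat.getLast_digit_ne_zero 19 h0 (hall _ (List.getLast_mem hne))
  have hunit : IsUnit ((u : ℕ) : ℤ_[19]) := by
    rw [PadicInt.isUnit_iff]
    have h1 : ¬ ‖((u : ℤ) : ℤ_[19])‖ < 1 := by
      rw [PadicInt.norm_int_lt_one_iff_dvd]
      exact_mod_cast hu
    have h2 := PadicInt.norm_le_one ((u : ℤ) : ℤ_[19])
    rw [show ((u : ℕ) : ℤ_[19]) = ((u : ℤ) : ℤ_[19]) by push_cast; rfl]
    linarith [le_antisymm h2 (not_lt.mp h1)]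
  obtain ⟨w, hw⟩ := hunit.exists_right_inv
  have hw' : ((u : ℕ) : W19) * algebraMap ℤ_[19] W19 w = 1 := by
    have := congrArg (algebraMap ℤ_[19] W19) hw
    rwa [map_mul, map_natCast, map_one] at this
  refine ⟨(-1) ^ v * algebraMap ℤ_[19] W19 w * (2 * be19 - 1) ^ (i - 2 * v), ?_, ?_⟩
  · have h1 : ((i.factorial : ℕ) : W19) = (19 : W19) ^ v * ((u : ℕ) : W19) := by
      rw [he]
      push_cast
      ring
    have h19 : (19 : W19) ^ v * (-1) ^ v = (2 * be19 - 1) ^ (2 * v) := by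
      rw [← mul_pow, pow_mul, w19_rho]
      congr 1
      ring
    rw [h1]
    calc (19 : W19) ^ v * ((u : ℕ) : W19) *
          ((-1) ^ v * algebraMap ℤ_[19] W19 w * (2 * be19 - 1) ^ (i - 2 * v))
        = ((19 : W19) ^ v * (-1) ^ v) * (((u : ℕ) : W19) * algebraMap ℤ_[19] W19 w) *
          (2 * be19 - 1) ^ (i - 2 * v) := by
          ring
      _ = (2 * be19 - 1) ^ i := by
          rw [hw', mul_one, h19, ← pow_add, show 2 * v + (i - 2 * v) = i by omega]
  · rintro k ⟨hk1, hk2⟩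
    apply Dvd.dvd.mul_left
    apply pow_dvd_pow
    by_cases hi : i = 0
    · omega
    · have := hds hi
      rcases hk2 with h0 | h0
      · omega
      · omega

theorem w19_pow (s : ℕ) : ((19 : ℕ) : W19) ^ s ∣ (2 * be19 - 1) ^ (2 * s) := by
  rw [pow_mul, w19_rho]
  refine ⟨(-1) ^ s, ?_⟩
  rw [← mul_pow]
  congr 1
  push_cast
  ring

theorem exists_dp19 : ∃ dp : ℕ → W19[X], IsDP 19 (2 * be19 - 1) dp := by
  classical
  choose γ hγ hγd using w19_dp
  have hco : ∀ s i : ℕ, (∑ j ∈ Finset.range (3 * s + 3), monomial j (γ j) : W19[X]).coeff i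
      = if i < 3 * s + 3 then γ i else 0 := by
    intro s i
    rw [finsetSum_coeff]
    simp only [coeff_monomial]
    by_cases h : i < 3 * s + 3
    · rw [Finset.sum_ite_eq' (Finset.range (3 * s + 3)) i γ, if_pos (Finset.mem_range.mpr h),
        if_pos h]
    · rw [Finset.sum_ite_eq' (Finset.range (3 * s + 3)) i γ,
        if_neg (fun hc => h (Finset.mem_range.mp hc)), if_neg h]
  have hrec : ∀ i : ℕ, ((i : W19) + 1) * γ (i + 1) = (2 * be19 - 1) * γ i := by
    intro i
    rw [← sub_eq_zero]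
    apply w19_cancel _ (Nat.factorial_ne_zero i)
    have h1 := hγ (i + 1)
    rw [Nat.factorial_succ] at h1
    push_cast at h1
    linear_combination h1 - (2 * be19 - 1) * hγ i
  refine ⟨fun s => ∑ j ∈ Finset.range (3 * s + 3), monomial j (γ j), ?_, ?_, ?_, ?_, ?_, 2, ?_⟩
  · intro s
    rw [hco, if_pos (by omega)]
    have := hγ 0
    simpa using this
  · intro s i
    show ((19 : ℕ) : W19) ^ s ∣ ((i : W19) + 1) *
      (∑ j ∈ Finset.range (3 * s + 3), monomial j (γ j) : W19[X]).coeff (i + 1)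
      - (2 * be19 - 1) * (∑ j ∈ Finset.range (3 * s + 3), monomial j (γ j) : W19[X]).coeff i
    rw [hco, hco]
    by_cases h1 : i + 1 < 3 * s + 3
    · rw [if_pos h1, if_pos (by omega), hrec, sub_self]
      exact dvd_zero _
    · rw [if_neg h1]
      by_cases h2 : i < 3 * s + 3
      · rw [if_pos h2]
        have h3 : i = 3 * s + 2 := by omega
        have h4 : (2 * be19 - 1) ^ (2 * s) ∣ γ i := hγd i (2 * s) ⟨by omega, by omega⟩
        rw [mul_zero, zero_sub]
        exact (dvd_neg.mpr (((w19_pow s).trans h4).mul_left _))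
      · rw [if_neg h2, mul_zero, mul_zero, sub_zero]
        exact dvd_zero _
  · intro s i
    show (2 * be19 - 1) ^ (min i 3) ∣
      (∑ j ∈ Finset.range (3 * s + 3), monomial j (γ j) : W19[X]).coeff i
    rw [hco]
    by_cases h : i < 3 * s + 3
    · rw [if_pos h]
      refine hγd i _ ⟨min_le_left _ _, ?_⟩
      omega
    · rw [if_neg h]
      exact dvd_zero _
  · intro s s' hss
    rw [Polynomial.C_dvd_iff_dvd_coeff]
    intro i
    show ((19 : ℕ) : W19) ^ s ∣ ((∑ j ∈ Finset.range (3 * s' + 3), monomial j (γ j) : W19[X])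
      - (∑ j ∈ Finset.range (3 * s + 3), monomial j (γ j) : W19[X])).coeff i
    rw [coeff_sub, hco, hco]
    by_cases h1 : i < 3 * s + 3
    · rw [if_pos h1, if_pos (by omega), sub_self]
      exact dvd_zero _
    · rw [if_neg h1, sub_zero]
      by_cases h2 : i < 3 * s' + 3
      · rw [if_pos h2]
        exact (w19_pow s).trans (hγd i _ ⟨by omega, by omega⟩)
      · rw [if_neg h2]
        exact dvd_zero _
  · refine ⟨-(2 * be19 - 1), ?_⟩
    push_cast
    linear_combination w19_rho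
  · rw [w19_rho]
    refine ⟨-1, ?_⟩
    push_cast
    ring

end Pool.Agent.H.MP_7425ae_nt
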